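import Mathlib

set_option autoImplicit false

namespace Pool.Agent.Lib.MP_595dc0_ag

open MvPolynomial

/-- A nonzero finite family in a field has a member dividing all others in a valuation ring. -/
theorem exists_div_mem {F I : Type} [Field F] [Fintype I] (O : ValuationSubring F)
    (f : I → F) (hf : f ≠ 0) : ∃ i₀, f i₀ ≠ 0 ∧ ∀ i, f i / f i₀ ∈ O := by
  classical
  obtain ⟨i₁, hi₁⟩ := Function.ne_iff.mp hf
  obtain ⟨i₀, -, hmax⟩ := Finset.exists_max_image Finset.univ (fun i => O.valuation (f i))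
    ⟨i₁, Finset.mem_univ _⟩
  have h0 : f i₀ ≠ 0 := by
    intro h
    have := hmax i₁ (Finset.mem_univ _)
    rw [h, map_zero, le_zero_iff, map_eq_zero] at this
    exact hi₁ this
  refine ⟨i₀, h0, fun i => ?_⟩
  rw [← O.valuation_le_one_iff, map_div₀]
  exact div_le_one_of_le₀ (hmax i (Finset.mem_univ _)) zero_le

/-- A point of the Zariski closure of the image of a polynomial map is the specialisation of the
generic point along a valuation ring. -/
theorem exists_valuation {σ ι : Type} (φ : σ → MvPolynomial ι ℂ) (P : σ → ℂ)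
    (hP : ∀ f : MvPolynomial σ ℂ,
      (∀ x : ι → ℂ, aeval (fun s => aeval x (φ s)) f = 0) → aeval P f = 0) :
    ∃ O : ValuationSubring (FractionRing (MvPolynomial ι ℂ)),
      (∀ c : ℂ, algebraMap ℂ (FractionRing (MvPolynomial ι ℂ)) c ∈ O) ∧
      ∀ s, algebraMap (MvPolynomial ι ℂ) (FractionRing (MvPolynomial ι ℂ)) (φ s) -
        algebraMap ℂ (FractionRing (MvPolynomial ι ℂ)) (P s) ∈ O.nonunits := by
  set F := FractionRing (MvPolynomial ι ℂ)
  let ψ : MvPolynomial σ ℂ →+* F :=
    (algebraMap (MvPolynomial ι ℂ) F).comp (aeval φ : MvPolynomial σ ℂ →ₐ[ℂ] _).toRingHom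
  let e : MvPolynomial σ ℂ →+* ℂ := (aeval P : MvPolynomial σ ℂ →ₐ[ℂ] ℂ).toRingHom
  have hker : RingHom.ker ψ.rangeRestrict ≤ RingHom.ker e := by
    intro f hf
    rw [RingHom.ker_rangeRestrict, RingHom.mem_ker] at hf
    have h1 : aeval φ f = 0 := by
      apply IsFractionRing.injective (MvPolynomial ι ℂ) F
      rw [map_zero]; exact hf
    rw [RingHom.mem_ker]
    apply hP f
    intro x
    have := MvPolynomial.comp_aeval_apply φ (aeval x : MvPolynomial ι ℂ →ₐ[ℂ] ℂ) f
    rw [← this, h1, map_zero]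
  have hI : (RingHom.ker e).map ψ.rangeRestrict ≠ ⊤ := by
    intro h
    have h1 : (1 : ψ.range) ∈ (RingHom.ker e).map ψ.rangeRestrict := by rw [h]; trivial
    rw [Ideal.mem_map_iff_of_surjective _ ψ.rangeRestrict_surjective] at h1
    obtain ⟨f, hf, hf1⟩ := h1
    have h2 : f - 1 ∈ RingHom.ker ψ.rangeRestrict := by
      rw [RingHom.mem_ker, map_sub, hf1, map_one, sub_self]
    have h3 := hker h2
    rw [RingHom.mem_ker] at h3 hf
    rw [map_sub, hf, map_one] at h3
    simp at h3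
  obtain ⟨O, hO, hN⟩ := Ideal.image_subset_nonunits_valuationSubring _ hI
  have hC : ∀ c : ℂ, ψ (C c) = algebraMap ℂ F c := by
    intro c
    simp only [ψ, RingHom.comp_apply, AlgHom.toRingHom_eq_coe, RingHom.coe_coe, aeval_C]
    exact (IsScalarTower.algebraMap_apply ℂ (MvPolynomial ι ℂ) F c).symm
  refine ⟨O, fun c => hO ⟨C c, hC c⟩, fun s => hN ?_⟩
  refine ⟨ψ.rangeRestrict (X s - C (P s)), Ideal.mem_map_of_mem _ ?_, ?_⟩
  · simp [e, RingHom.mem_ker]
  · change ψ (X s - C (P s)) = _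
    rw [map_sub, hC]
    simp [ψ, F]

end Pool.Agent.Lib.MP_595dc0_ag
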