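import Mathlib
import Pool.Agent.Lib.MP_595dc0_ag.Val

set_option autoImplicit false

namespace Pool.Agent.Lib.MP_595dc0_ag

open MvPolynomial

section key

variable {A B C F : Type} [Fintype A] [Fintype B] [Fintype C] [DecidableEq C] [Field F]

/-- Minimal border rank over a valuation ring: the rank one terms are independent, and every
integral combination of them specialises into the span of the slices. -/
theorem key (O : ValuationSubring F) (ι : ℂ →+* O) (P : A × B × C → ℂ) (G : C → A × B → ℂ)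
    (hG : ∀ c' c, ∑ ab, G c' ab * P (ab.1, ab.2, c) = if c' = c then 1 else 0)
    (u : C → A → F) (v : C → B → F) (z : C → C → F) (Y : A × B × C → O)
    (hY : ∀ x, (Y x : F) = ∑ j, u j x.1 * v j x.2.1 * z j x.2.2)
    (hYP : ∀ x, IsLocalRing.residue O (Y x) = IsLocalRing.residue O (ι (P x))) :
    (∀ t : C → F, (∀ ab : A × B, ∑ j, t j * (u j ab.1 * v j ab.2) = 0) → t = 0) ∧
    ∀ (t : C → F) (x : A × B → O), (∀ ab, (x ab : F) = ∑ j, t j * (u j ab.1 * v j ab.2)) →
      ∀ l : A × B → ℂ, (∀ c, ∑ ab, l ab * P (ab.1, ab.2, c) = 0) →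
        ∑ ab, IsLocalRing.residue O (ι (l ab)) * IsLocalRing.residue O (x ab) = 0 := by
  classical
  set red := IsLocalRing.residue O with hred
  let L : Matrix C C O := fun c' c => ∑ ab, ι (G c' ab) * Y (ab.1, ab.2, c)
  have hL : red.mapMatrix L = 1 := by
    ext c' c
    have h1 : red (L c' c) = red (ι (∑ ab, G c' ab * P (ab.1, ab.2, c))) := by
      simp only [L, map_sum, map_mul, hYP]
    rw [RingHom.mapMatrix_apply, Matrix.map_apply, h1, hG, Matrix.one_apply]
    split_ifs <;> simp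
  have hdet : IsUnit L.det := by
    have h1 : red L.det = 1 := by rw [RingHom.map_det, hL, Matrix.det_one]
    rw [← IsLocalRing.residue_ne_zero_iff_isUnit, ← hred, h1]
    exact one_ne_zero
  let M : Matrix C C O := L⁻¹
  have hLM : L * M = 1 := Matrix.mul_nonsing_inv L hdet
  let cF : O →+* F := O.subtype
  let Gh : Matrix C C F := fun c' j => ∑ ab, (ι (G c' ab) : F) * (u j ab.1 * v j ab.2)
  let Z : Matrix C C F := fun j c => z j c
  have hLF : cF.mapMatrix L = Gh * Z := by
    ext c' c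
    have h0 : cF (L c' c) = ∑ ab, (ι (G c' ab) : F) * (Y (ab.1, ab.2, c) : F) := by
      simp only [L, map_sum, map_mul]
      rfl
    rw [RingHom.mapMatrix_apply, Matrix.map_apply, h0, Matrix.mul_apply]
    simp only [Gh, Z, hY, Finset.mul_sum, Finset.sum_mul]
    rw [Finset.sum_comm]
    refine Finset.sum_congr rfl fun j _ => Finset.sum_congr rfl fun ab _ => by ring
  have h1 : Gh * (Z * cF.mapMatrix M) = 1 := by
    rw [← Matrix.mul_assoc, ← hLF, ← map_mul, hLM, map_one]
  have h2 : (Z * cF.mapMatrix M) * Gh = 1 := mul_eq_one_comm.mp h1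
  have hGt : ∀ (t : C → F) (c' : C), (Gh.mulVec t) c' =
      ∑ ab, (ι (G c' ab) : F) * ∑ j, t j * (u j ab.1 * v j ab.2) := by
    intro t c'
    simp only [Matrix.mulVec, dotProduct, Gh, Finset.mul_sum, Finset.sum_mul]
    rw [Finset.sum_comm]
    refine Finset.sum_congr rfl fun j _ => Finset.sum_congr rfl fun ab _ => by ring
  have ht : ∀ t : C → F, t = Z.mulVec ((cF.mapMatrix M).mulVec (Gh.mulVec t)) := by
    intro t
    rw [Matrix.mulVec_mulVec, Matrix.mulVec_mulVec, h2, Matrix.one_mulVec]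
  refine ⟨fun t h0 => ?_, fun t x hx l hl => ?_⟩
  · have : Gh.mulVec t = 0 := by
      funext c'
      rw [hGt]
      simp [h0]
    rw [ht t, this, Matrix.mulVec_zero, Matrix.mulVec_zero]
  · let s : C → O := M.mulVec (fun c' => ∑ ab, ι (G c' ab) * x ab)
    have hs : ∀ c, (s c : F) = ((cF.mapMatrix M).mulVec (Gh.mulVec t)) c := by
      intro c
      have : Gh.mulVec t = fun c' => cF (∑ ab, ι (G c' ab) * x ab) := by
        funext c'
        rw [hGt]
        simp only [map_sum, map_mul, cF, ValuationSubring.coe_subtype, hx]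
      rw [this]
      exact RingHom.map_mulVec cF M _ c
    have hxs : ∀ ab, x ab = ∑ c, Y (ab.1, ab.2, c) * s c := by
      intro ab
      apply Subtype.ext
      have h3 : ((∑ c, Y (ab.1, ab.2, c) * s c : O) : F) =
          ∑ c, (Y (ab.1, ab.2, c) : F) * (s c : F) := by
        change cF _ = _
        simp only [map_sum, map_mul, cF, ValuationSubring.coe_subtype]
      rw [h3, hx]
      conv_lhs => rw [ht t]
      simp only [hY, hs, Finset.sum_mul]
      rw [Finset.sum_comm]
      refine Finset.sum_congr rfl fun j _ => ?_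
      rw [Matrix.mulVec, dotProduct, Finset.sum_mul]
      refine Finset.sum_congr rfl fun c _ => ?_
      simp only [Z]
      ring
    have h4 : ∀ c, ∑ ab, red (ι (l ab)) * red (Y (ab.1, ab.2, c)) = 0 := by
      intro c
      have : ∑ ab, red (ι (l ab)) * red (Y (ab.1, ab.2, c)) =
          red (ι (∑ ab, l ab * P (ab.1, ab.2, c))) := by
        simp only [map_sum, map_mul, hYP]
      rw [this, hl, map_zero, map_zero]
    calc ∑ ab, red (ι (l ab)) * red (x ab)
        = ∑ c, (∑ ab, red (ι (l ab)) * red (Y (ab.1, ab.2, c))) * red (s c) := by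
          simp only [hxs, map_sum, map_mul, Finset.mul_sum, Finset.sum_mul]
          rw [Finset.sum_comm]
          refine Finset.sum_congr rfl fun c _ => Finset.sum_congr rfl fun ab _ => by ring
      _ = 0 := by simp [h4]

end key

/-- Three-factor tensors which are sums of `|C|` rank one tensors. -/
def R3 (A B C : Type) [Fintype C] : Set (A × B × C → ℂ) :=
  {T | ∃ (u : C → A → ℂ) (v : C → B → ℂ) (z : C → C → ℂ),
    ∀ x, T x = ∑ j, u j x.1 * v j x.2.1 * z j x.2.2}

section norm

variable {A F : Type} [Fintype A] [Field F]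

theorem exists_prim (O : ValuationSubring F) (u : A → F) (hu : u ≠ 0) :
    ∃ (U : A → O) (s : F), s ≠ 0 ∧ (∀ a, (U a : F) = s * u a) ∧ ∃ a, U a = 1 := by
  obtain ⟨a₀, h0, h⟩ := exists_div_mem O u hu
  refine ⟨fun a => ⟨u a / u a₀, h a⟩, (u a₀)⁻¹, inv_ne_zero h0, fun a => ?_, a₀, ?_⟩
  · simp only [div_eq_inv_mul]
  · apply Subtype.ext
    simp [div_self h0]

omit [Fintype A] in
theorem exists_renorm (O : ValuationSubring F) (U : A → O) (m : A → IsLocalRing.ResidueField O)
    (a₀ : A) (hm : m a₀ = 1) (s : IsLocalRing.ResidueField O)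
    (hU : ∀ a, IsLocalRing.residue O (U a) = s * m a) (h1 : ∃ a, U a = 1) :
    ∃ (U' : A → O) (r : F), r ≠ 0 ∧ (∀ a, (U' a : F) = r * U a) ∧ U' a₀ = 1 ∧
      ∀ a, IsLocalRing.residue O (U' a) = m a := by
  have hs : s ≠ 0 := by
    rintro rfl
    obtain ⟨a, ha⟩ := h1
    have := hU a
    rw [ha, map_one, zero_mul] at this
    exact one_ne_zero this
  have hu : IsUnit (U a₀) := by
    rw [← IsLocalRing.residue_ne_zero_iff_isUnit, hU, hm, mul_one]
    exact hs
  obtain ⟨w, hw⟩ := hu.exists_left_inv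
  have hw' : IsLocalRing.residue O w * s = 1 := by
    have := congrArg (IsLocalRing.residue O) hw
    rwa [map_mul, map_one, hU, hm, mul_one] at this
  refine ⟨fun a => w * U a, w, ?_, fun a => rfl, hw, fun a => ?_⟩
  · intro h
    have : w = 0 := Subtype.ext h
    rw [this, zero_mul] at hw
    exact zero_ne_one hw
  · rw [map_mul, hU, ← mul_assoc, hw', one_mul]

end norm

theorem not_mem_closure {A B C Q : Type} [Fintype A] [Fintype B] [Fintype C] [Fintype Q]
    [DecidableEq C] (P : A × B × C → ℂ) (G : C → A × B → ℂ)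
    (hG : ∀ c' c, ∑ ab, G c' ab * P (ab.1, ab.2, c) = if c' = c then 1 else 0)
    (𝓛 : Set (A × B → ℂ)) (h𝓛 : ∀ l ∈ 𝓛, ∀ c, ∑ ab, l ab * P (ab.1, ab.2, c) = 0)
    (hQ : Fintype.card Q < Fintype.card C) (μ : Q → A → ℂ) (ν : Q → B → ℂ)
    (a₀ : Q → A) (b₀ : Q → B) (hμ : ∀ q, μ q (a₀ q) = 1) (hν : ∀ q, ν q (b₀ q) = 1)
    (H1 : ∀ (κ : Type) [Field κ] (ρ : ℂ →+* κ) (u : A → κ) (v : B → κ), u ≠ 0 → v ≠ 0 →
      (∀ l ∈ 𝓛, ∑ ab, ρ (l ab) * (u ab.1 * v ab.2) = 0) →
      ∃ (q : Q) (s t : κ), (∀ a, u a = s * ρ (μ q a)) ∧ ∀ b, v b = t * ρ (ν q b))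
    (H2 : ∀ (κ : Type) [Field κ] (ρ : ℂ →+* κ) (q : Q) (α : A → κ) (β : B → κ),
      α (a₀ q) = 0 → β (b₀ q) = 0 →
      (∀ l ∈ 𝓛, ∑ ab, ρ (l ab) * (α ab.1 * ρ (ν q ab.2) + ρ (μ q ab.1) * β ab.2) = 0) →
      α = 0 ∧ β = 0) :
    P ∉ zeroLocus ℂ (vanishingIdeal ℂ (R3 A B C)) := by
  classical
  intro hP
  let φ : A × B × C → MvPolynomial ((C × A) ⊕ (C × B) ⊕ (C × C)) ℂ := fun x =>
    ∑ j, X (Sum.inl (j, x.1)) * X (Sum.inr (Sum.inl (j, x.2.1))) *
      X (Sum.inr (Sum.inr (j, x.2.2)))
  obtain ⟨O, hC, hN⟩ := exists_valuation φ P (by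
    intro f hf
    apply hP f
    rintro T ⟨u, v, z, hT⟩
    have := hf (Sum.elim (fun p => u p.1 p.2) (Sum.elim (fun p => v p.1 p.2) fun p => z p.1 p.2))
    rw [← this]
    congr 2
    funext x
    simp [φ, hT])
  set F := FractionRing (MvPolynomial ((C × A) ⊕ (C × B) ⊕ (C × C)) ℂ)
  let ι : ℂ →+* O := (algebraMap ℂ F).codRestrict O.toSubring hC
  let am := algebraMap (MvPolynomial ((C × A) ⊕ (C × B) ⊕ (C × C)) ℂ) F
  let u : C → A → F := fun j a => am (X (Sum.inl (j, a)))
  let v : C → B → F := fun j b => am (X (Sum.inr (Sum.inl (j, b))))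
  let z : C → C → F := fun j c => am (X (Sum.inr (Sum.inr (j, c))))
  have hYm : ∀ x, am (φ x) ∈ O := by
    intro x
    have := O.add_mem _ _ (O.nonunits_subset (hN x)) (hC (P x))
    rwa [sub_add_cancel] at this
  let Y : A × B × C → O := fun x => ⟨am (φ x), hYm x⟩
  set red := IsLocalRing.residue O with hred
  obtain ⟨hind, hkey⟩ := key O ι P G hG u v z Y (by
    intro x
    simp only [Y, φ, map_sum, map_mul, u, v, z]) (by
    intro x
    rw [← sub_eq_zero, ← map_sub, IsLocalRing.residue_eq_zero_iff,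
      ← ValuationSubring.coe_mem_nonunits_iff]
    exact hN x)
  let ρ : ℂ →+* IsLocalRing.ResidueField O := red.comp ι
  have hne : ∀ j, u j ≠ 0 ∧ v j ≠ 0 := by
    intro j
    have h1 : ¬ (u j = 0 ∨ v j = 0) := by
      intro h
      have := hind (Pi.single j 1) (by
        intro ab
        rw [Finset.sum_eq_single j (by intro b _ hb; simp [hb]) (by simp)]
        rcases h with h | h <;> simp [h])
      have h2 := congrFun this j
      simp at h2
    exact not_or.mp h1
  have hnorm : ∀ j, ∃ (q : Q) (U : A → O) (V : B → O) (r : F), r ≠ 0 ∧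
      (∀ a b, (U a : F) * V b = r * (u j a * v j b)) ∧ U (a₀ q) = 1 ∧ V (b₀ q) = 1 ∧
      (∀ a, red (U a) = ρ (μ q a)) ∧ ∀ b, red (V b) = ρ (ν q b) := by
    intro j
    obtain ⟨U, s, hs, hU, hU1⟩ := exists_prim O (u j) (hne j).1
    obtain ⟨V, t, ht, hV, hV1⟩ := exists_prim O (v j) (hne j).2
    obtain ⟨q, s', t', h1, h2⟩ := H1 _ ρ (fun a => red (U a)) (fun b => red (V b))
      (by
        obtain ⟨a, ha⟩ := hU1
        intro h
        have := congrFun h a
        simp [ha] at this)
      (by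
        obtain ⟨b, hb⟩ := hV1
        intro h
        have := congrFun h b
        simp [hb] at this)
      (by
        intro l hl
        have := hkey (Pi.single j (s * t)) (fun ab => U ab.1 * V ab.2) (by
          intro ab
          rw [Finset.sum_eq_single j (by intro b _ hb; simp [hb]) (by simp)]
          simp only [Pi.single_eq_same]
          change (U ab.1 : F) * V ab.2 = _
          rw [hU, hV]; ring) l (h𝓛 l hl)
        simp only [map_mul] at this
        exact this)
    obtain ⟨U', r, hr, hU', hU'1, hU'r⟩ := exists_renorm O U (fun a => ρ (μ q a)) (a₀ q)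
      (by simp [hμ]) s' h1 hU1
    obtain ⟨V', r', hr', hV', hV'1, hV'r⟩ := exists_renorm O V (fun b => ρ (ν q b)) (b₀ q)
      (by simp [hν]) t' h2 hV1
    refine ⟨q, U', V', r * r' * s * t, by simp [hr, hr', hs, ht], fun a b => ?_, hU'1, hV'1,
      hU'r, hV'r⟩
    rw [hU', hV', hU, hV]; ring
  choose q U V r hr hUV hU1 hV1 hUr hVr using hnorm
  obtain ⟨j, j', hjj, hq⟩ := Fintype.exists_ne_map_eq_of_card_lt q hQ
  let D : A ⊕ B → F := Sum.elim (fun a => (U j a : F) - U j' a) (fun b => (V j b : F) - V j' b)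
  have hsum : ∀ (e e' : F) (ab : A × B),
      ∑ i, (Pi.single j e + Pi.single j' e' : C → F) i * (u i ab.1 * v i ab.2) =
        e * (u j ab.1 * v j ab.2) + e' * (u j' ab.1 * v j' ab.2) := by
    intro e e' ab
    simp only [Pi.add_apply, add_mul, Finset.sum_add_distrib]
    rw [Finset.sum_eq_single j (by intro b _ hb; simp [hb]) (by simp),
      Finset.sum_eq_single j' (by intro b _ hb; simp [hb]) (by simp)]
    simp
  have hD : D ≠ 0 := by
    intro h
    have h1 : ∀ a, (U j a : F) = U j' a := fun a => sub_eq_zero.mp (congrFun h (Sum.inl a))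
    have h2 : ∀ b, (V j b : F) = V j' b := fun b => sub_eq_zero.mp (congrFun h (Sum.inr b))
    have := hind (Pi.single j (r j) + Pi.single j' (-r j')) (by
      intro ab
      rw [hsum, neg_mul, ← hUV, ← hUV, h1, h2, add_neg_cancel])
    have h3 := congrFun this j
    simp [hjj, hr j] at h3
  obtain ⟨E, s, hs, hE, hE1⟩ := exists_prim O D hD
  have hα : E (Sum.inl (a₀ (q j))) = 0 := by
    apply Subtype.ext
    rw [hE]
    have h1 := hU1 j
    have h2 := hU1 j'
    rw [← hq] at h2
    simp [D, h1, h2]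
  have hβ : E (Sum.inr (b₀ (q j))) = 0 := by
    apply Subtype.ext
    rw [hE]
    have h1 := hV1 j
    have h2 := hV1 j'
    rw [← hq] at h2
    simp [D, h1, h2]
  obtain ⟨h1, h2⟩ := H2 _ ρ (q j) (fun a => red (E (Sum.inl a))) (fun b => red (E (Sum.inr b)))
    (by simp [hα]) (by simp [hβ]) (by
      intro l hl
      have := hkey (Pi.single j (s * r j) + Pi.single j' (-(s * r j')))
        (fun ab => E (Sum.inl ab.1) * V j ab.2 + U j' ab.1 * E (Sum.inr ab.2)) (by
          intro ab
          rw [hsum, neg_mul, mul_assoc, mul_assoc, ← hUV, ← hUV]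
          change (E (Sum.inl ab.1) : F) * V j ab.2 + (U j' ab.1 : F) * E (Sum.inr ab.2) = _
          rw [hE, hE]
          simp only [D, Sum.elim_inl, Sum.elim_inr]
          ring) l (h𝓛 l hl)
      simp only [map_add, map_mul] at this
      rw [← this]
      refine Finset.sum_congr rfl fun ab _ => ?_
      rw [hVr, hUr, ← hq]
      rfl)
  obtain ⟨i, hi⟩ := hE1
  rcases i with a | b
  · have := congrFun h1 a
    simp [hi] at this
  · have := congrFun h2 b
    simp [hi] at this

end Pool.Agent.Lib.MP_595dc0_ag
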