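import Mathlib

namespace Pool.Agent.Lib.MP_595dc0_ag

open MvPolynomial

theorem totalDegree_aeval_le {σ τ : Type*} (s : σ → MvPolynomial τ ℂ)
    (hs : ∀ z, (s z).totalDegree ≤ 1) (f : MvPolynomial σ ℂ) :
    (aeval s f).totalDegree ≤ f.totalDegree := by
  classical
  rw [aeval_def, eval₂_eq]
  refine totalDegree_finsetSum_le fun d hd => ?_
  refine (totalDegree_mul _ _).trans ?_
  have h1 : (algebraMap ℂ (MvPolynomial τ ℂ) (coeff d f)).totalDegree = 0 := totalDegree_C _
  rw [h1, zero_add]
  refine (totalDegree_finsetProd _ _).trans ?_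
  refine le_trans (Finset.sum_le_sum fun i _ => ?_) (le_totalDegree hd)
  refine (totalDegree_pow _ _).trans ?_
  calc d i * (s i).totalDegree ≤ d i * 1 := Nat.mul_le_mul_left _ (hs i)
    _ = d i := mul_one _

theorem natDegree_aeval_le {σ : Type*} (s : σ → Polynomial ℂ)
    (hs : ∀ z, (s z).natDegree ≤ 1) (f : MvPolynomial σ ℂ) :
    (aeval s f).natDegree ≤ f.totalDegree := by
  classical
  rw [aeval_def, eval₂_eq]
  refine Polynomial.natDegree_sum_le_of_forall_le _ _ fun d hd => ?_
  refine (Polynomial.natDegree_mul_le).trans ?_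
  have h1 : (algebraMap ℂ (Polynomial ℂ) (coeff d f)).natDegree = 0 := Polynomial.natDegree_C _
  rw [h1, zero_add]
  refine (Polynomial.natDegree_prod_le _ _).trans ?_
  refine le_trans (Finset.sum_le_sum fun i _ => ?_) (le_totalDegree hd)
  refine (Polynomial.natDegree_pow_le).trans ?_
  calc d i * (s i).natDegree ≤ d i * 1 := Nat.mul_le_mul_left _ (hs i)
    _ = d i := mul_one _

/-- Restriction of a polynomial to the line `a + t b`. -/
noncomputable def lineRes {Z : Type*} (a b : Z → ℂ) (f : MvPolynomial Z ℂ) : Polynomial ℂ :=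
  aeval (fun z => Polynomial.C (a z) + Polynomial.C (b z) * Polynomial.X) f

theorem lineRes_eval {Z : Type*} (a b : Z → ℂ) (f : MvPolynomial Z ℂ) (t : ℂ) :
    (lineRes a b f).eval t = eval (a + t • b) f := by
  unfold lineRes
  induction f using MvPolynomial.induction_on with
  | C c => simp
  | add p q hp hq => simp [hp, hq]
  | mul_X p i hp => simp [hp]; left; ring

theorem lineRes_natDegree {Z : Type*} (a b : Z → ℂ) (f : MvPolynomial Z ℂ) :
    (lineRes a b f).natDegree ≤ f.totalDegree := by
  apply natDegree_aeval_le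
  intro z
  refine (Polynomial.natDegree_add_le _ _).trans (max_le (by simp) ?_)
  refine (Polynomial.natDegree_C_mul_le _ _).trans (by simp)

theorem finite_line_zero {Z : Type*} (a b : Z → ℂ) (f : MvPolynomial Z ℂ) (h : eval a f ≠ 0) :
    {t : ℂ | eval (a + t • b) f = 0}.Finite := by
  have h0 : lineRes a b f ≠ 0 := by
    intro h0
    have := lineRes_eval a b f 0
    rw [h0] at this
    simp at this
    exact h this.symm
  refine (Polynomial.finite_setOfPred_isRoot h0).subset fun t ht => ?_
  simp only [Set.mem_ofPred_eq, Polynomial.IsRoot.def, lineRes_eval]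
  exact ht

theorem exists_eval_ne {Z : Type*} (f : MvPolynomial Z ℂ) (h : f ≠ 0) : ∃ y, eval y f ≠ 0 := by
  by_contra hh
  push Not at hh
  exact h (MvPolynomial.funext fun x => by simp [hh x])

/-- A nonzero polynomial vanishing on many distinct hyperplanes has large degree. -/
theorem card_le_of_hyperplanes {Z S : Type*} [Fintype S] (P : MvPolynomial Z ℂ) (hP : P ≠ 0)
    (H : S → Submodule ℂ (Z → ℂ)) (hvan : ∀ s, ∀ y ∈ H s, eval y P = 0)
    (hdim : ∀ s, ∀ F F' : (Z → ℂ) →ₗ[ℂ] ℂ, H s ≤ LinearMap.ker F → H s ≤ LinearMap.ker F' →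
      F ≠ 0 → ∃ c : ℂ, F' = c • F)
    (hdist : ∀ s s', s ≠ s' → ∀ F : (Z → ℂ) →ₗ[ℂ] ℂ, H s ≤ LinearMap.ker F →
      H s' ≤ LinearMap.ker F → F = 0) :
    Fintype.card S ≤ P.totalDegree := by
  classical
  obtain ⟨ya, hya⟩ := exists_eval_ne P hP
  have htop : ∀ s, H s < ⊤ := by
    intro s
    rw [lt_top_iff_ne_top]
    intro h
    exact hya (hvan s ya (by rw [h]; trivial))
  choose F hF0 hF using fun s => Submodule.exists_le_ker_of_lt_top (H s) (htop s)
  have hker : ∀ s y, F s y = 0 → eval y P = 0 := by
    intro s y hy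
    apply hvan s
    by_contra hn
    obtain ⟨F', h1, h2⟩ := Submodule.exists_le_ker_of_notMem hn
    obtain ⟨c, rfl⟩ := hdim s (F s) F' (hF s) h2 (hF0 s)
    simp [hy] at h1
  obtain ⟨y1, hy1⟩ := Module.Dual.exists_forall_ne_zero_of_forall_exists F (fun s => by
    by_contra hh
    push Not at hh
    exact hF0 s (LinearMap.ext hh))
  let G : {p : S × S // p.1 ≠ p.2} → Module.Dual ℂ (Z → ℂ) :=
    fun p => F p.1.2 y1 • F p.1.1 - F p.1.1 y1 • F p.1.2
  obtain ⟨yb, hyb⟩ := Module.Dual.exists_forall_ne_zero_of_forall_exists G (fun p => by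
    by_contra hh
    push Not at hh
    apply hF0 p.1.1
    apply hdist _ _ p.2 _ (hF _)
    intro y hy
    have h1 := hh y
    have h2 : F p.1.2 y = 0 := hF _ hy
    simp only [G, LinearMap.sub_apply, LinearMap.smul_apply, h2, smul_eq_mul, mul_zero, sub_zero,
      mul_eq_zero] at h1
    rcases h1 with h1 | h1
    · exact absurd h1 (hy1 _)
    · exact h1)
  have hfin : ({t : ℂ | eval (ya + t • yb) P = 0} ∪ ⋃ p, {t : ℂ | G p (ya + t • yb) = 0}).Finite := by
    refine (finite_line_zero ya yb P hya).union (Set.finite_iUnion fun p => ?_)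
    refine (Set.finite_singleton (-(G p ya) / G p yb)).subset fun t ht => ?_
    simp only [Set.mem_ofPred_eq, map_add, map_smul, smul_eq_mul] at ht
    rw [Set.mem_singleton_iff, eq_div_iff (hyb p)]
    linear_combination ht
  obtain ⟨t, ht⟩ := hfin.exists_notMem
  simp only [Set.mem_union, Set.mem_ofPred_eq, Set.mem_iUnion, not_or, not_exists] at ht
  set y0 := ya + t • yb with hy0
  let r : S → ℂ := fun s => -(F s y0) / F s y1
  have hinj : Function.Injective r := by
    intro s s' h
    by_contra hne
    apply ht.2 ⟨(s, s'), hne⟩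
    simp only [G, LinearMap.sub_apply, LinearMap.smul_apply, smul_eq_mul]
    simp only [r] at h
    rw [div_eq_div_iff (hy1 s) (hy1 s')] at h
    linear_combination -h
  have h0 : lineRes y0 y1 P ≠ 0 := by
    intro h0
    have := lineRes_eval y0 y1 P 0
    rw [h0] at this
    simp at this
    exact ht.1 this.symm
  refine le_trans ?_ (lineRes_natDegree y0 y1 P)
  refine le_trans ?_ (Polynomial.card_roots' (lineRes y0 y1 P))
  refine le_trans ?_ (Multiset.toFinset_card_le _)
  rw [← Finset.card_univ]
  refine Finset.card_le_card_of_injOn r (fun s _ => ?_) hinj.injOn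
  simp only [Finset.mem_coe, Multiset.mem_toFinset, Polynomial.mem_roots h0, Polynomial.IsRoot.def,
    lineRes_eval]
  apply hker s
  simp only [map_add, map_smul, smul_eq_mul, r]
  field_simp [hy1 s]
  ring

theorem eval_smul_homog {Z : Type*} {p : MvPolynomial Z ℂ} {e : ℕ} (hp : p.IsHomogeneous e)
    (t : ℂ) (y : Z → ℂ) : eval (t • y) p = t ^ e * eval y p := by
  classical
  rw [eval_eq, eval_eq, Finset.mul_sum]
  refine Finset.sum_congr rfl fun d hd => ?_
  have h1 := hp.degree_eq_sum_deg_support hd
  simp only [Pi.smul_apply, smul_eq_mul, mul_pow, Finset.prod_mul_distrib,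
    Finset.prod_pow_eq_pow_sum, ← h1]
  ring

theorem eval_aeval_poly {σ τ : Type*} (s : σ → MvPolynomial τ ℂ) (f : MvPolynomial σ ℂ)
    (y : τ → ℂ) : eval y (aeval s f) = eval (fun z => eval y (s z)) f := by
  induction f using MvPolynomial.induction_on with
  | C c => simp
  | add p q hp hq => simp only [map_add, hp, hq]
  | mul_X p i hp => simp only [map_mul, hp, aeval_X, eval_X]

/-- The lowest-degree part of `f` at `T0` vanishes on tangent directions of curves in the zero set. -/
theorem exists_lowest {Z : Type*} [Fintype Z] (f : MvPolynomial Z ℂ) (hf : f ≠ 0) (T0 : Z → ℂ) :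
    ∃ P : MvPolynomial Z ℂ, P ≠ 0 ∧ P.totalDegree ≤ f.totalDegree ∧
      ∀ Y : ℂ → Z → ℂ, Continuous Y → (∀ t, eval (T0 + t • Y t) f = 0) → eval (Y 0) P = 0 := by
  classical
  let g : MvPolynomial Z ℂ := aeval (fun z => C (T0 z) + X z) f
  have hg : ∀ y, eval y g = eval (T0 + y) f := by
    intro y
    simp only [g, eval_aeval_poly, map_add, eval_C, eval_X]
    rfl
  have hgdeg : g.totalDegree ≤ f.totalDegree := by
    apply totalDegree_aeval_le
    intro z
    refine (totalDegree_add _ _).trans (max_le (by simp) (by simp))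
  have hg0 : g ≠ 0 := by
    obtain ⟨y, hy⟩ := exists_eval_ne f hf
    intro h
    have := hg (y - T0)
    rw [h] at this
    simp at this
    exact hy this.symm
  have hex : ∃ m, homogeneousComponent m g ≠ 0 := by
    by_contra hh
    push Not at hh
    apply hg0
    rw [← sum_homogeneousComponent g]
    simp [hh]
  let m := Nat.find hex
  have hm : homogeneousComponent m g ≠ 0 := Nat.find_spec hex
  have hlt : ∀ e < m, homogeneousComponent e g = 0 := fun e he => by
    simpa using Nat.find_min hex he
  have hmle : m ≤ g.totalDegree := by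
    by_contra hh
    exact hm (homogeneousComponent_eq_zero m g (by omega))
  refine ⟨homogeneousComponent m g, hm,
    ((homogeneousComponent_isHomogeneous m g).totalDegree_le.trans hmle).trans hgdeg, ?_⟩
  intro Y hY hv
  let G : ℂ → ℂ := fun t => ∑ e ∈ Finset.range (g.totalDegree + 1),
    t ^ (e - m) * eval (Y t) (homogeneousComponent e g)
  have hGc : Continuous G := by
    refine continuous_finsetSum _ fun e _ => (continuous_pow _).mul ?_
    exact (MvPolynomial.continuous_eval _).comp hY
  have hG : ∀ t, t ≠ 0 → G t = 0 := by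
    intro t ht
    have h1 : t ^ m * G t = eval (t • Y t) g := by
      conv_rhs => rw [← sum_homogeneousComponent g]
      simp only [G, map_sum, Finset.mul_sum]
      refine Finset.sum_congr rfl fun e _ => ?_
      rw [eval_smul_homog (homogeneousComponent_isHomogeneous e g)]
      by_cases he : e < m
      · simp [hlt e he]
      · rw [← mul_assoc, ← pow_add, Nat.add_sub_cancel' (by omega)]
    rw [hg, hv] at h1
    exact (mul_eq_zero.mp h1).resolve_left (pow_ne_zero _ ht)
  have hG0 : G 0 = 0 := by
    have : G = fun _ => 0 := Continuous.ext_on (dense_compl_singleton (0 : ℂ)) hGc continuous_const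
      (fun t ht => hG t ht)
    rw [this]
  have : G 0 = eval (Y 0) (homogeneousComponent m g) := by
    simp only [G]
    rw [Finset.sum_eq_single m]
    · simp
    · intro e _ hne
      by_cases he : e < m
      · simp [hlt e he]
      · rw [zero_pow (by omega), zero_mul]
    · intro h
      exact absurd (Finset.mem_range.mpr (by omega)) h
  rw [← this, hG0]

theorem finite_noninj {E E' : Type*} [AddCommGroup E] [Module ℂ E] [FiniteDimensional ℂ E]
    [AddCommGroup E'] [Module ℂ E'] (A B : E →ₗ[ℂ] E') (hA : Function.Injective A) :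
    {t : ℂ | ¬ Function.Injective (A + t • B)}.Finite := by
  obtain ⟨R, hR⟩ := A.exists_leftInverse_of_injective (LinearMap.ker_eq_bot.mpr hA)
  have hfin := Module.End.finite_hasEigenvalue (R.comp B)
  refine (hfin.image fun μ => -μ⁻¹).subset fun t ht => ?_
  simp only [Set.mem_ofPred_eq] at ht
  rw [← LinearMap.ker_eq_bot] at ht
  obtain ⟨v, hv, hv0⟩ := Submodule.exists_mem_ne_zero_of_ne_bot ht
  have h1 : v + t • R (B v) = 0 := by
    have h2 : R (A v) = v := by simpa using LinearMap.congr_fun hR v
    have h3 : A v + t • B v = 0 := by simpa using hv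
    have := congrArg R h3
    rwa [map_add, map_smul, h2, map_zero] at this
  have ht0 : t ≠ 0 := by
    rintro rfl
    simp at h1
    exact hv0 h1
  refine ⟨-t⁻¹, ?_, by simp⟩
  simp only [Set.mem_ofPred_eq]
  apply Module.End.hasEigenvalue_of_hasEigenvector (x := v)
  refine ⟨?_, hv0⟩
  rw [Module.End.mem_eigenspace_iff]
  have h4 : v = -(t • R (B v)) := eq_neg_of_add_eq_zero_left h1
  simp only [LinearMap.comp_apply]
  conv_rhs => rw [h4]
  simp [smul_smul, ht0]

/-- Finitely many nonempty injectivity conditions hold simultaneously. -/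
theorem exists_generic {G E E' A : Type*} [AddCommGroup G] [Module ℂ G] [AddCommGroup E]
    [Module ℂ E] [FiniteDimensional ℂ E] [AddCommGroup E'] [Module ℂ E'] [Fintype A]
    (L : A → G →ₗ[ℂ] E →ₗ[ℂ] E') (Z : A → Submodule ℂ E)
    (h : ∀ a, ∃ g, ∀ t ∈ Z a, L a g t = 0 → t = 0) :
    ∃ g, ∀ a, ∀ t ∈ Z a, L a g t = 0 → t = 0 := by
  classical
  have key : ∀ a g, (∀ t ∈ Z a, L a g t = 0 → t = 0) ↔
      Function.Injective ((L a g).comp (Z a).subtype) := by
    intro a g
    rw [← LinearMap.ker_eq_bot, LinearMap.ker_eq_bot']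
    constructor
    · intro h1 t ht
      exact Subtype.ext (h1 t.1 t.2 ht)
    · intro h1 t ht h2
      exact congrArg Subtype.val (h1 ⟨t, ht⟩ h2)
  have fin : ∀ a g0 g1, Function.Injective ((L a g0).comp (Z a).subtype) →
      {t : ℂ | ¬ Function.Injective ((L a (g0 + t • g1)).comp (Z a).subtype)}.Finite := by
    intro a g0 g1 h0
    have := finite_noninj _ ((L a g1).comp (Z a).subtype) h0
    refine this.subset fun t ht => ?_
    simp only [Set.mem_ofPred_eq] at ht ⊢
    rwa [map_add, map_smul, LinearMap.add_comp, LinearMap.smul_comp] at ht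
  simp only [key] at h ⊢
  have main : ∀ s : Finset A, ∃ g, ∀ a ∈ s, Function.Injective ((L a g).comp (Z a).subtype) := by
    intro s
    induction s using Finset.induction_on with
    | empty => exact ⟨0, by simp⟩
    | insert a s _ ih =>
      obtain ⟨g0, hg0⟩ := ih
      obtain ⟨g1, hg1⟩ := h a
      have f1 : (⋃ b ∈ s, {t : ℂ | ¬ Function.Injective
          ((L b (g0 + t • (g1 - g0))).comp (Z b).subtype)}).Finite :=
        Set.Finite.biUnion s.finite_toSet fun b hb => fin b g0 _ (hg0 b hb)
      have f2 := (fin a g1 (g1 - g0) hg1).image fun t => t + 1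
      obtain ⟨t, ht⟩ := (f1.union f2).exists_notMem
      simp only [Set.mem_union, Set.mem_iUnion, Set.mem_ofPred_eq, Set.mem_image, not_or,
        not_exists, not_not, not_and] at ht
      refine ⟨g0 + t • (g1 - g0), fun b hb => ?_⟩
      rcases Finset.mem_insert.mp hb with rfl | hb
      · by_contra hn
        refine ht.2 (t - 1) ?_ (by ring)
        have : g1 + (t - 1) • (g1 - g0) = g0 + t • (g1 - g0) := by
          rw [sub_smul, one_smul]; abel
        rwa [this]
      · exact ht.1 b hb
  obtain ⟨g, hg⟩ := main Finset.univ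
  exact ⟨g, fun a => hg a (Finset.mem_univ _)⟩

end Pool.Agent.Lib.MP_595dc0_ag
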