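import Pool.Agent.Lib.MP_595dc0_ag.Univ
import Pool.Agent.Lib.MP_595dc0_ag.Hyper

namespace Pool.Agent.Lib.MP_595dc0_ag

open MvPolynomial

/-- Sums of `k` elements of `X`. -/
def Sec {Z : Type*} (X : Set (Z → ℂ)) (k : ℕ) : Set (Z → ℂ) :=
  {T | ∃ x : Fin k → Z → ℂ, (∀ r, x r ∈ X) ∧ T = ∑ r, x r}

/-- Decomposable tensors with three factors. -/
def X3 (Row Col Cw : Type) : Set (Row × Col × Cw → ℂ) :=
  {T | ∃ (a : Row → ℂ) (b : Col → ℂ) (c : Cw → ℂ), T = fun z => a z.1 * b z.2.1 * c z.2.2}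

/-- Combinatorial data behind the construction. -/
structure IsDesign {Row Col Edge : Type} [Fintype Edge] (q : ℕ) (A : Row → ℂ) (B : Col → ℂ)
    (cp cm : Edge → Row × Col) (y0 : Edge → ℂ) : Prop where
  hA : ∀ u, A u ^ q = 1
  hB : ∀ v, B v ^ q = 1
  e1 : ∀ e, A (cp e).1 * B (cp e).2 = A (cm e).1 * B (cm e).2
  e2 : ∀ z z' : Row × Col, A z.1 * B z.2 = A z'.1 * B z'.2 →
    z = z' ∨ z ∈ Set.range cm ∨ z' ∈ Set.range cm
  e3a : Function.Injective cp
  e3b : Function.Injective cm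
  e3c : ∀ e e', cp e ≠ cm e'
  e4 : ∀ (φ : Row → ℂ) (ψ : Col → ℂ),
    (∀ e, φ (cp e).1 + ψ (cp e).2 = φ (cm e).1 + ψ (cm e).2) →
      (∀ u u', φ u = φ u') ∧ (∀ v v', ψ v = ψ v')
  e5a : ∀ e, y0 e ≠ 0
  e5b : ∀ (φ : Row → ℂ) (ψ : Col → ℂ),
    ∑ e, y0 e * (φ (cp e).1 + ψ (cp e).2 - (φ (cm e).1 + ψ (cm e).2)) = 0
  e6 : ∃ e e' ζ, IsPrimitiveRoot ζ q ∧ A (cp e).1 * B (cp e).2 = ζ * (A (cp e').1 * B (cp e').2)

section
variable {Row Col Edge : Type} [Fintype Row] [Fintype Col] [Fintype Edge]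
  {q : ℕ} {A : Row → ℂ} {B : Col → ℂ} {cp cm : Edge → Row × Col} {y0 : Edge → ℂ}

theorem IsDesign.rel (h : IsDesign q A B cp cm y0)
    (hcard : Fintype.card Row + Fintype.card Col = Fintype.card Edge + 1) (y : Edge → ℂ)
    (hy : ∀ (φ : Row → ℂ) (ψ : Col → ℂ),
      ∑ e, y e * (φ (cp e).1 + ψ (cp e).2 - (φ (cm e).1 + ψ (cm e).2)) = 0) :
    ∃ t : ℂ, ∀ e, y e = t * y0 e := by
  classical
  obtain ⟨e0, -⟩ := h.e6
  let Φ : ((Row → ℂ) × (Col → ℂ)) →ₗ[ℂ] (Edge → ℂ) :=
    { toFun := fun p e => p.1 (cp e).1 + p.2 (cp e).2 - (p.1 (cm e).1 + p.2 (cm e).2)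
      map_add' := fun p p' => by ext e; simp; ring
      map_smul' := fun c p => by ext e; simp; ring }
  let Ψ : (ℂ × ℂ) →ₗ[ℂ] ((Row → ℂ) × (Col → ℂ)) :=
    { toFun := fun p => (fun _ => p.1, fun _ => p.2)
      map_add' := fun p p' => by ext <;> simp
      map_smul' := fun c p => by ext <;> simp }
  have hker : LinearMap.ker Φ ≤ LinearMap.range Ψ := by
    intro p hp
    have h1 := h.e4 p.1 p.2 (fun e => sub_eq_zero.mp (congrFun hp e))
    refine ⟨(p.1 (cp e0).1, p.2 (cp e0).2), ?_⟩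
    ext u
    · exact h1.1 _ _
    · exact h1.2 _ _
  have hk2 : Module.finrank ℂ (LinearMap.ker Φ) ≤ 2 := by
    refine (Submodule.finrank_mono hker).trans ((LinearMap.finrank_range_le Ψ).trans ?_)
    simp
  have hrk := LinearMap.finrank_range_add_finrank_ker Φ
  simp only [Module.finrank_prod, Module.finrank_fintype_fun_eq_card] at hrk
  have hnot : (Pi.single e0 1 : Edge → ℂ) ∉ LinearMap.range Φ := by
    rintro ⟨p, hp⟩
    have h1 := h.e5b p.1 p.2
    have h2 : ∀ e, p.1 (cp e).1 + p.2 (cp e).2 - (p.1 (cm e).1 + p.2 (cm e).2) =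
      (Pi.single e0 1 : Edge → ℂ) e := fun e => congrFun hp e
    simp only [h2, Pi.single_apply, mul_ite, mul_one, mul_zero, Finset.sum_ite_eq',
      Finset.mem_univ, if_true] at h1
    exact h.e5a e0 h1
  have hlt : LinearMap.range Φ < LinearMap.range Φ ⊔ Submodule.span ℂ {Pi.single e0 1} := by
    refine lt_of_le_of_ne le_sup_left fun hh => hnot ?_
    rw [hh]
    exact Submodule.mem_sup_right (Submodule.mem_span_singleton_self _)
  have htop : LinearMap.range Φ ⊔ Submodule.span ℂ {Pi.single e0 1} = ⊤ := by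
    apply Submodule.eq_top_of_finrank_eq
    have h1 := Submodule.finrank_lt_finrank_of_lt hlt
    have h2 := Submodule.finrank_le (LinearMap.range Φ ⊔ Submodule.span ℂ {Pi.single e0 1})
    simp only [Module.finrank_fintype_fun_eq_card] at h2 ⊢
    omega
  refine ⟨y e0 / y0 e0, fun e => ?_⟩
  have hm : (Pi.single e 1 : Edge → ℂ) ∈
      LinearMap.range Φ ⊔ Submodule.span ℂ {Pi.single e0 1} := by rw [htop]; trivial
  obtain ⟨w, ⟨p, rfl⟩, w', hw', hs⟩ := Submodule.mem_sup.mp hm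
  obtain ⟨c, rfl⟩ := Submodule.mem_span_singleton.mp hw'
  have h1 : ∀ y : Edge → ℂ, (∀ (φ : Row → ℂ) (ψ : Col → ℂ),
      ∑ e, y e * (φ (cp e).1 + ψ (cp e).2 - (φ (cm e).1 + ψ (cm e).2)) = 0) →
      y e = c * y e0 := by
    intro y hy
    have h2 : ∑ e', y e' * (Φ p + c • (Pi.single e0 1 : Edge → ℂ)) e' =
        ∑ e', y e' * (Pi.single e 1 : Edge → ℂ) e' := by rw [hs]
    simp only [Pi.add_apply, mul_add, Finset.sum_add_distrib, Pi.smul_apply, Pi.single_apply,
      smul_eq_mul, mul_ite, mul_one, mul_zero, Finset.sum_ite_eq', Finset.mem_univ, if_true] at h2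
    have h3 : ∑ e', y e' * Φ p e' = 0 := hy p.1 p.2
    rw [h3] at h2
    linear_combination -h2
  rw [h1 y hy, h1 y0 h.e5b]
  field_simp [h.e5a e0]

/-- Functions on cells that agree on the two cells of every edge. -/
def Wsp (cp cm : Edge → Row × Col) : Submodule ℂ (Row × Col → ℂ) where
  carrier := {w | ∀ e, w (cp e) = w (cm e)}
  add_mem' := fun ha hb e => by simp [ha e, hb e]
  zero_mem' := fun e => rfl
  smul_mem' := fun c w hw e => by simp [hw e]

theorem IsDesign.card_cl (h : IsDesign q A B cp cm y0) {k : ℕ}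
    (hcard : Fintype.card Row * Fintype.card Col = k + Fintype.card Edge)
    [DecidablePred fun z => z ∈ Set.range cm] :
    Fintype.card {z : Row × Col // z ∉ Set.range cm} = k := by
  rw [Fintype.card_subtype_compl, Fintype.card_prod, hcard]
  have : Fintype.card {z : Row × Col // z ∈ Set.range cm} = Fintype.card Edge :=
    (Fintype.card_congr (Equiv.ofInjective cm h.e3b)).symm
  omega

theorem IsDesign.finrank_W (h : IsDesign q A B cp cm y0) {k : ℕ}
    (hcard : Fintype.card Row * Fintype.card Col = k + Fintype.card Edge) :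
    Module.finrank ℂ (Wsp cp cm) ≤ k := by
  classical
  let R : Wsp cp cm →ₗ[ℂ] ({z : Row × Col // z ∉ Set.range cm} → ℂ) :=
    { toFun := fun w z => w.1 z.1
      map_add' := fun _ _ => rfl
      map_smul' := fun _ _ => rfl }
  have hR : Function.Injective R := by
    rw [← LinearMap.ker_eq_bot, LinearMap.ker_eq_bot']
    intro w hw
    apply Subtype.ext
    funext z
    by_cases hz : z ∈ Set.range cm
    · obtain ⟨e, rfl⟩ := hz
      rw [← w.2 e]
      exact congrFun hw ⟨cp e, fun ⟨e', he'⟩ => h.e3c e e' he'.symm⟩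
    · exact congrFun hw ⟨z, hz⟩
  have := LinearMap.finrank_le_finrank_of_injective hR
  rwa [Module.finrank_fintype_fun_eq_card, h.card_cl hcard] at this

theorem IsDesign.perp (h : IsDesign q A B cp cm y0) (M : Row × Col → ℂ)
    (hM : ∀ w ∈ Wsp cp cm, ∑ z, M z * w z = 0) (ω : Row × Col → ℂ) :
    ∑ z, M z * ω z = ∑ e, M (cp e) * (ω (cp e) - ω (cm e)) := by
  classical
  let w : Row × Col → ℂ := fun z => ω z - ∑ e, if z = cp e then ω (cp e) - ω (cm e) else 0
  have hw : w ∈ Wsp cp cm := by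
    intro e
    simp only [w, h.e3a.eq_iff, (h.e3c _ _).symm, if_false, Finset.sum_ite_eq, Finset.mem_univ,
      if_true, Finset.sum_const_zero]
    ring
  have h1 := hM w hw
  simp only [w, mul_sub, Finset.sum_sub_distrib, Finset.mul_sum] at h1
  rw [Finset.sum_comm] at h1
  simp only [mul_ite, mul_zero, Finset.sum_ite_eq', Finset.mem_univ, if_true] at h1
  exact sub_eq_zero.mp h1

omit [Fintype Row] [Fintype Col] in
theorem IsDesign.eta_pow (h : IsDesign q A B cp cm y0) (z : Row × Col) :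
    (A z.1 * B z.2) ^ q = 1 := by rw [mul_pow, h.hA, h.hB, one_mul]

omit [Fintype Row] [Fintype Col] in
theorem IsDesign.eta_ne (h : IsDesign q A B cp cm y0) (hq : 0 < q) (z : Row × Col) :
    A z.1 * B z.2 ≠ 0 := by
  intro h0
  have := h.eta_pow z
  rw [h0, zero_pow (by omega)] at this
  exact zero_ne_one this

theorem IsDesign.indep (h : IsDesign q A B cp cm y0) {μ κ k : ℕ} (hq : q = 2 ^ μ)
    (hk : k = 2 ^ κ) (hcard : Fintype.card Row * Fintype.card Col = k + Fintype.card Edge)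
    (x : Fin k → ℕ) (hx : ∀ i, x i ≡ i [MOD k]) (t : Fin k → ℂ)
    (ht : ∀ z : Row × Col, ∑ i, t i * (A z.1 * B z.2) ^ x i = 0) : t = 0 := by
  classical
  refine universal (J := {z : Row × Col // z ∉ Set.range cm}) μ κ k 0 hk.le
    (h.card_cl hcard).ge (fun i => i.val) x Fin.val_injective (fun i => i.2)
    (fun i => by rw [← hk, zero_add]; exact hx i) (fun z => A z.1.1 * B z.1.2) ?_
    (fun z => by rw [← hq]; exact h.eta_pow _) t (fun z => ht _)
  intro z z' hz
  rcases h.e2 _ _ hz with h1 | h1 | h1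
  · exact Subtype.ext h1
  · exact absurd h1 z.2
  · exact absurd h1 z'.2

theorem IsDesign.span (h : IsDesign q A B cp cm y0) {μ κ k : ℕ} (hq : q = 2 ^ μ)
    (hk : k = 2 ^ κ) (hcard : Fintype.card Row * Fintype.card Col = k + Fintype.card Edge)
    (x : Fin k → ℕ) (hx : ∀ i, x i ≡ i [MOD k]) :
    Module.finrank ℂ (Wsp cp cm) = k ∧
    ∀ w ∈ Wsp cp cm, ∃ t : Fin k → ℂ, ∀ z, w z = ∑ i, t i * (A z.1 * B z.2) ^ x i := by
  classical
  let L : (Fin k → ℂ) →ₗ[ℂ] (Row × Col → ℂ) :=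
    { toFun := fun t z => ∑ i, t i * (A z.1 * B z.2) ^ x i
      map_add' := fun a b => by ext z; simp [add_mul, Finset.sum_add_distrib]
      map_smul' := fun c a => by ext z; simp [Finset.mul_sum, mul_assoc] }
  have hL : Function.Injective L := by
    rw [← LinearMap.ker_eq_bot, LinearMap.ker_eq_bot']
    intro t ht
    exact h.indep hq hk hcard x hx t (fun z => congrFun ht z)
  have hle : LinearMap.range L ≤ Wsp cp cm := by
    rintro _ ⟨t, rfl⟩ e
    show ∑ i, t i * (A (cp e).1 * B (cp e).2) ^ x i = ∑ i, t i * (A (cm e).1 * B (cm e).2) ^ x i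
    rw [h.e1 e]
  have hr : Module.finrank ℂ (LinearMap.range L) = k := by
    rw [LinearMap.finrank_range_of_inj hL]; simp
  have hW := h.finrank_W hcard
  have heq : LinearMap.range L = Wsp cp cm :=
    Submodule.eq_of_le_of_finrank_le hle (by rw [hr]; exact hW)
  refine ⟨by rw [← heq, hr], fun w hw => ?_⟩
  rw [← heq] at hw
  obtain ⟨t, rfl⟩ := hw
  exact ⟨t, fun z => rfl⟩

theorem IsDesign.special (h : IsDesign q A B cp cm y0) {μ κ k j : ℕ} (hq : q = 2 ^ μ)
    (hk : k = 2 ^ κ) (hcard : Fintype.card Row * Fintype.card Col = k + Fintype.card Edge)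
    (hj : k = j * Fintype.card Edge + 1) (hj0 : 0 < j)
    (x : Fin k → ℕ) (hx : ∀ i, x i ≡ i [MOD k]) (i0 : Fin k) :
    ∃ g : Fin j → Module.Dual ℂ (Row × Col → ℂ), ∀ t : Fin k → ℂ,
      (∀ r e, ∑ i, t i * g r (fun z => (A z.1 * B z.2) ^ x i) *
        ((A (cp e).1 * B (cp e).2)⁻¹) ^ x i = 0) → ∀ i, i ≠ i0 → t i = 0 := by
  classical
  obtain ⟨e0, -⟩ := h.e6
  have hD : 0 < Fintype.card Edge := Fintype.card_pos_iff.mpr ⟨e0⟩
  set D := Fintype.card Edge with hDdef
  let L : (Fin k → ℂ) →ₗ[ℂ] (Row × Col → ℂ) :=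
    { toFun := fun t z => ∑ i, t i * (A z.1 * B z.2) ^ x i
      map_add' := fun a b => by ext z; simp [add_mul, Finset.sum_add_distrib]
      map_smul' := fun c a => by ext z; simp [Finset.mul_sum, mul_assoc] }
  have hL : LinearMap.ker L = ⊥ := by
    rw [LinearMap.ker_eq_bot']
    intro t ht
    exact h.indep hq hk hcard x hx t (fun z => congrFun ht z)
  obtain ⟨Λ, hΛ⟩ := L.exists_leftInverse_of_injective hL
  have hΛi : ∀ i, Λ (fun z => (A z.1 * B z.2) ^ x i) = Pi.single i 1 := by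
    intro i
    have h1 : (fun z : Row × Col => (A z.1 * B z.2) ^ x i) = L (Pi.single i 1) := by
      funext z
      simp [L, Pi.single_apply]
    rw [h1]
    exact LinearMap.congr_fun hΛ _
  let sh : Fin k → ℕ := fun i => if i0.val < i.val then i.val - i0.val - 1 else i.val + k - i0.val - 1
  let g : Fin j → Module.Dual ℂ (Row × Col → ℂ) := fun r =>
    ∑ i ∈ Finset.univ.filter (fun i => i ≠ i0 ∧ sh i / D = r.val), (LinearMap.proj i).comp Λ
  have hg : ∀ r i, g r (fun z => (A z.1 * B z.2) ^ x i) =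
      if i ≠ i0 ∧ sh i / D = r.val then 1 else 0 := by
    intro r i
    simp only [g, LinearMap.sum_apply, LinearMap.comp_apply, hΛi, LinearMap.proj_apply,
      Pi.single_apply, Finset.sum_ite_eq', Finset.mem_filter, Finset.mem_univ, true_and]
  refine ⟨g, fun t ht i hi => ?_⟩
  have hsh : ∀ l : Fin k, l ≠ i0 → sh l < j * D := by
    intro l hl
    have := l.2
    have := i0.2
    have : l.val ≠ i0.val := fun hh => hl (Fin.ext hh)
    simp only [sh]
    split_ifs <;> omega
  have hr : sh i / D < j := by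
    rw [Nat.div_lt_iff_lt_mul hD]; exact hsh i hi
  have key := universal (ι := {l : Fin k // l ≠ i0 ∧ sh l / D = sh i / D}) (J := Edge) μ κ D
    (i0.val + 1 + D * (sh i / D)) (by rw [← hk, hj]; nlinarith) le_rfl
    (fun l => sh l.1 % D) (fun l => x l.1) ?_ (fun l => Nat.mod_lt _ hD) ?_
    (fun e => (A (cp e).1 * B (cp e).2)⁻¹) ?_
    (fun e => by rw [inv_pow, ← hq, h.eta_pow, inv_one]) (fun l => t l.1) ?_
  · exact congrFun key ⟨i, hi, rfl⟩
  · intro l l' hl
    apply Subtype.ext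
    apply Fin.ext
    have h1 := Nat.div_add_mod (sh l.1) D
    have h2 := Nat.div_add_mod (sh l'.1) D
    have h3 : sh l.1 = sh l'.1 := by
      rw [← h1, ← h2, l.2.2, l'.2.2]
      exact congrArg _ hl
    have := l.1.2
    have := l'.1.2
    have := i0.2
    have h4 : (if i0.val < l.1.val then l.1.val - i0.val - 1 else l.1.val + k - i0.val - 1) =
        (if i0.val < l'.1.val then l'.1.val - i0.val - 1 else l'.1.val + k - i0.val - 1) := h3
    have h5 : l.1.val ≠ i0.val := fun hh => l.2.1 (Fin.ext hh)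
    have h6 : l'.1.val ≠ i0.val := fun hh => l'.2.1 (Fin.ext hh)
    generalize l.1.val = a at *
    generalize l'.1.val = b at *
    split_ifs at h4 <;> omega
  · intro l
    rw [← hk]
    refine (hx l.1).trans ?_
    have h1 := Nat.div_add_mod (sh l.1) D
    have h2 : D * (sh l.1 / D) = D * (sh i / D) := congrArg _ l.2.2
    have h3 : i0.val + 1 + D * (sh i / D) + sh l.1 % D = i0.val + 1 + sh l.1 := by omega
    show l.1.val ≡ i0.val + 1 + D * (sh i / D) + sh l.1 % D [MOD k]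
    rw [h3]
    have := l.1.2
    have := i0.2
    by_cases hh : i0.val < l.1.val
    · have h4 : sh l.1 = l.1.val - i0.val - 1 := if_pos hh
      rw [h4, show i0.val + 1 + (l.1.val - i0.val - 1) = l.1.val by omega]
    · have h4 : sh l.1 = l.1.val + k - i0.val - 1 := if_neg hh
      rw [h4, show i0.val + 1 + (l.1.val + k - i0.val - 1) = l.1.val + k by omega]
      simp [Nat.ModEq]
  · intro e e' hee
    have h1 := inv_injective hee
    rcases h.e2 _ _ h1 with h2 | ⟨e'', h2⟩ | ⟨e'', h2⟩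
    · exact h.e3a h2
    · exact absurd h2.symm (h.e3c _ _)
    · exact absurd h2.symm (h.e3c _ _)
  · intro e
    have h1 := ht ⟨sh i / D, hr⟩ e
    simp only [hg, mul_ite, mul_one, mul_zero, ite_mul, zero_mul] at h1
    rw [← Finset.sum_filter] at h1
    rw [← h1]
    exact (Finset.sum_subtype _ (by simp) (fun l => t l * (A (cp e).1 * B (cp e).2)⁻¹ ^ x l)).symm

end

end Pool.Agent.Lib.MP_595dc0_ag
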