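import Pool.Agent.Lib.MP_595dc0_ag.Branch

namespace Pool.Agent.Lib.MP_595dc0_ag

open MvPolynomial

section
variable {Row Col Edge : Type} [Fintype Row] [Fintype Col] [Fintype Edge]
  {q : ℕ} {A : Row → ℂ} {B : Col → ℂ} {cp cm : Edge → Row × Col} {y0 : Edge → ℂ}

/-- The Terracini space of a decomposition. -/
def Ter {Row Col Cw : Type} {k : ℕ} (a : Fin k → Row → ℂ) (b : Fin k → Col → ℂ)
    (c : Fin k → Cw → ℂ) : Submodule ℂ (Row × Col × Cw → ℂ) where
  carrier := {y | ∃ (α : Fin k → Row → ℂ) (β : Fin k → Col → ℂ) (γ : Fin k → Cw → ℂ),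
    y = fun z => ∑ i, (α i z.1 * b i z.2.1 * c i z.2.2 + a i z.1 * β i z.2.1 * c i z.2.2 +
      a i z.1 * b i z.2.1 * γ i z.2.2)}
  add_mem' := by
    rintro _ _ ⟨α, β, γ, rfl⟩ ⟨α', β', γ', rfl⟩
    refine ⟨α + α', β + β', γ + γ', ?_⟩
    funext z
    simp only [Pi.add_apply, ← Finset.sum_add_distrib]
    exact Finset.sum_congr rfl fun i _ => by ring
  zero_mem' := ⟨0, 0, 0, by funext z; simp⟩
  smul_mem' := by
    rintro t _ ⟨α, β, γ, rfl⟩
    refine ⟨t • α, t • β, t • γ, ?_⟩
    funext z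
    simp only [Pi.smul_apply, smul_eq_mul, Finset.mul_sum]
    exact Finset.sum_congr rfl fun i _ => by ring

theorem ter_vanish {Row Col Cw : Type} [Fintype Row] [Fintype Col] [Fintype Cw] {k : ℕ}
    (a : Fin k → Row → ℂ) (b : Fin k → Col → ℂ) (c : Fin k → Cw → ℂ)
    (f P : MvPolynomial (Row × Col × Cw) ℂ) (hv : ∀ T ∈ Sec (X3 Row Col Cw) k, eval T f = 0)
    (T0 : Row × Col × Cw → ℂ) (hT : ∀ z, T0 z = ∑ i, a i z.1 * b i z.2.1 * c i z.2.2)
    (hP : ∀ Y : ℂ → Row × Col × Cw → ℂ, Continuous Y → (∀ t, eval (T0 + t • Y t) f = 0) →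
      eval (Y 0) P = 0) : ∀ y ∈ Ter a b c, eval y P = 0 := by
  rintro _ ⟨α, β, γ, rfl⟩
  have key := hP (fun t z => ∑ i, (α i z.1 * b i z.2.1 * c i z.2.2 +
      a i z.1 * β i z.2.1 * c i z.2.2 + a i z.1 * b i z.2.1 * γ i z.2.2 +
      t * (α i z.1 * β i z.2.1 * c i z.2.2 + α i z.1 * b i z.2.1 * γ i z.2.2 +
        a i z.1 * β i z.2.1 * γ i z.2.2) + t ^ 2 * (α i z.1 * β i z.2.1 * γ i z.2.2)))
    (by fun_prop) (fun t => hv _ ⟨fun i z => (a i z.1 + t * α i z.1) * (b i z.2.1 + t * β i z.2.1) *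
      (c i z.2.2 + t * γ i z.2.2), fun i => ⟨fun u => a i u + t * α i u,
        fun v => b i v + t * β i v, fun w => c i w + t * γ i w, rfl⟩, ?_⟩)
  · simpa using key
  · funext z
    simp only [Pi.add_apply, Pi.smul_apply, smul_eq_mul, hT, Finset.sum_apply, Finset.mul_sum,
      ← Finset.sum_add_distrib]
    exact Finset.sum_congr rfl fun i _ => by ring

theorem ter_ann {Row Col Cw : Type} [Fintype Row] [Fintype Col] [Fintype Cw] {k : ℕ}
    (a : Fin k → Row → ℂ) (b : Fin k → Col → ℂ) (c : Fin k → Cw → ℂ)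
    (F : Row × Col × Cw → ℂ) (hF : ∀ y ∈ Ter a b c, ∑ z, y z * F z = 0) (i : Fin k) :
    (∀ w, ∑ z : Row × Col, F (z.1, z.2, w) * (a i z.1 * b i z.2) = 0) ∧
    ∀ (φ : Row → ℂ) (ψ : Col → ℂ), ∑ z : Row × Col, (∑ w, F (z.1, z.2, w) * c i w) *
      (a i z.1 * b i z.2 * (φ z.1 + ψ z.2)) = 0 := by
  classical
  constructor
  · intro w
    have h1 := hF _ ⟨0, 0, Pi.single i (Pi.single w 1), rfl⟩
    rw [← h1, Fintype.sum_prod_type, Fintype.sum_prod_type]
    refine Finset.sum_congr rfl fun u _ => ?_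
    rw [Fintype.sum_prod_type]
    refine Finset.sum_congr rfl fun v _ => ?_
    rw [Finset.sum_eq_single w]
    · rw [Finset.sum_eq_single i]
      · simp; ring
      · intro l _ hl; simp [Pi.single_eq_of_ne hl]
      · simp
    · intro w' _ hw'
      rw [Finset.sum_eq_zero, zero_mul]
      intro l _
      by_cases hl : l = i
      · subst hl; simp [Pi.single_eq_of_ne hw']
      · simp [Pi.single_eq_of_ne hl]
    · simp
  · intro φ ψ
    have h1 := hF _ ⟨Pi.single i (fun u => a i u * φ u), Pi.single i (fun v => b i v * ψ v), 0, rfl⟩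
    rw [← h1, Fintype.sum_prod_type, Fintype.sum_prod_type]
    refine Finset.sum_congr rfl fun u _ => ?_
    rw [Fintype.sum_prod_type]
    refine Finset.sum_congr rfl fun v _ => ?_
    rw [Finset.sum_mul]
    refine Finset.sum_congr rfl fun w _ => ?_
    rw [Finset.sum_eq_single i]
    · simp; ring
    · intro l _ hl; simp [Pi.single_eq_of_ne hl]
    · simp

theorem IsDesign.keyA (h : IsDesign q A B cp cm y0) {μ κ k : ℕ} (hq : q = 2 ^ μ)
    (hk : k = 2 ^ κ) (hcard : Fintype.card Row * Fintype.card Col = k + Fintype.card Edge)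
    (hcard' : Fintype.card Row + Fintype.card Col = Fintype.card Edge + 1)
    (x : Fin k → ℕ) (hx : ∀ i, x i ≡ i [MOD k]) {Cw : Type} [Fintype Cw] (c : Fin k → Cw → ℂ)
    (F : Row × Col × Cw → ℂ)
    (hF : ∀ y ∈ Ter (fun i u => A u ^ x i) (fun i v => B v ^ x i) c, ∑ z, y z * F z = 0) :
    ((∀ e w, F ((cp e).1, (cp e).2, w) = 0) → F = 0) ∧
    ∃ t : Fin k → ℂ, ∀ e i, ∑ w, F ((cp e).1, (cp e).2, w) * c i w =
      y0 e * (t i * ((A (cp e).1 * B (cp e).2)⁻¹) ^ x i) := by
  classical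
  have hq0 : 0 < q := by rw [hq]; positivity
  have h0 : ∀ w, ∀ ω ∈ Wsp cp cm, ∑ z : Row × Col, F (z.1, z.2, w) * ω z = 0 := by
    intro w ω hω
    obtain ⟨t, ht⟩ := (h.span hq hk hcard x hx).2 ω hω
    simp only [ht, Finset.mul_sum]
    rw [Finset.sum_comm]
    refine Finset.sum_eq_zero fun i _ => ?_
    have h1 := (ter_ann _ _ _ F hF i).1 w
    calc ∑ z : Row × Col, F (z.1, z.2, w) * (t i * (A z.1 * B z.2) ^ x i)
        = t i * ∑ z : Row × Col, F (z.1, z.2, w) * (A z.1 ^ x i * B z.2 ^ x i) := by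
          rw [Finset.mul_sum]
          exact Finset.sum_congr rfl fun z _ => by rw [mul_pow]; ring
      _ = 0 := by rw [h1, mul_zero]
  constructor
  · intro hz
    funext z
    have h1 := h.perp (fun z' => F (z'.1, z'.2, z.2.2)) (h0 z.2.2) (Pi.single (z.1, z.2.1) 1)
    simp only [hz, zero_mul, Finset.sum_const_zero, Pi.single_apply, mul_ite, mul_one, mul_zero,
      Finset.sum_ite_eq', Finset.mem_univ, if_true] at h1
    exact h1
  · have h2 : ∀ i, ∃ t : ℂ, ∀ e, (∑ w, F ((cp e).1, (cp e).2, w) * c i w) *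
        (A (cp e).1 * B (cp e).2) ^ x i = t * y0 e := by
      intro i
      apply h.rel hcard'
      intro φ ψ
      have h3 := h.perp (fun z => ∑ w, F (z.1, z.2, w) * c i w) (by
        intro ω hω
        simp only [Finset.sum_mul]
        rw [Finset.sum_comm]
        refine Finset.sum_eq_zero fun w _ => ?_
        have h4 := h0 w ω hω
        calc ∑ z : Row × Col, F (z.1, z.2, w) * c i w * ω z
            = c i w * ∑ z : Row × Col, F (z.1, z.2, w) * ω z := by
              rw [Finset.mul_sum]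
              exact Finset.sum_congr rfl fun z _ => by ring
          _ = 0 := by rw [h4, mul_zero])
        (fun z => A z.1 ^ x i * B z.2 ^ x i * (φ z.1 + ψ z.2))
      rw [(ter_ann _ _ _ F hF i).2 φ ψ] at h3
      rw [h3]
      refine Finset.sum_congr rfl fun e _ => ?_
      rw [← mul_pow, ← mul_pow, ← h.e1 e]
      ring
    choose t ht using h2
    refine ⟨t, fun e i => ?_⟩
    have h5 := h.eta_ne hq0 (cp e)
    rw [inv_pow, ← mul_assoc, mul_comm (y0 e), ← ht i e, mul_assoc, mul_inv_cancel₀ (pow_ne_zero _ h5),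
      mul_one]

theorem exists_theta {Z : Type} [Fintype Z] (W : Submodule ℂ (Z → ℂ)) {j c : ℕ}
    (g : Fin j → Module.Dual ℂ (Z → ℂ)) (hW : Module.finrank ℂ W = c + j) :
    ∃ θ : Fin c → Z → ℂ, (∀ w, θ w ∈ W) ∧ (∀ w ρ, g ρ (θ w) = 0) ∧
      ∀ l : Fin c → ℂ, (∀ z, ∑ w, l w * θ w z = 0) → ∀ w, l w = 0 := by
  let G : (Z → ℂ) →ₗ[ℂ] (Fin j → ℂ) := LinearMap.pi g
  have hG : c ≤ Module.finrank ℂ (W ⊓ LinearMap.ker G : Submodule ℂ (Z → ℂ)) := by
    have h1 := LinearMap.finrank_range_add_finrank_ker G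
    have h2 := Submodule.finrank_le (LinearMap.range G)
    have h3 := Submodule.finrank_sup_add_finrank_inf_eq W (LinearMap.ker G)
    have h4 := Submodule.finrank_le (W ⊔ LinearMap.ker G)
    simp only [Module.finrank_fintype_fun_eq_card, Fintype.card_fin] at h1 h2 h4
    omega
  obtain ⟨θ', hθ'⟩ := exists_linearIndependent_of_le_finrank hG
  have h1 : LinearIndependent ℂ (fun w => (θ' w : Z → ℂ)) := hθ'.map' _ (Submodule.ker_subtype _)
  refine ⟨fun w => (θ' w).1, fun w => (θ' w).2.1, fun w ρ => congrFun (θ' w).2.2 ρ,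
    fun l hl => ?_⟩
  apply Fintype.linearIndependent_iff.mp h1 l
  funext z
  simpa using hl z

theorem IsDesign.degree (h : IsDesign q A B cp cm y0) {μ κ k j c r : ℕ} (hq : q = 2 ^ μ)
    (hk : k = 2 ^ κ) (hqr : q = k * r)
    (hcard : Fintype.card Row * Fintype.card Col = k + Fintype.card Edge)
    (hcard' : Fintype.card Row + Fintype.card Col = Fintype.card Edge + 1)
    (hj : k = j * Fintype.card Edge + 1) (hj0 : 0 < j) (hc : k = c + j)
    (f : MvPolynomial (Row × Col × Fin c) ℂ) (hf : f ≠ 0)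
    (hv : ∀ T ∈ Sec (X3 Row Col (Fin c)) k, eval T f = 0) : r ^ k ≤ f.totalDegree := by
  classical
  have hq0 : 0 < q := by rw [hq]; positivity
  have hk0 : 0 < k := by rw [hk]; positivity
  let x : (Fin k → Fin r) → Fin k → ℕ := fun s i => i.val + k * (s i).val
  have hx : ∀ s i, x s i ≡ i [MOD k] := fun s i => by simp [x, Nat.ModEq]
  have hxq : ∀ s i, x s i < q := by
    intro s i
    have h1 := i.2
    have h2 := (s i).2
    simp only [x]
    rw [hqr]
    nlinarith
  let η : Row × Col → ℂ := fun z => A z.1 * B z.2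
  let L : (Fin k → Fin r) × (Fin k → Fin r) → (Fin j → Module.Dual ℂ (Row × Col → ℂ)) →ₗ[ℂ]
      (Fin k → ℂ) →ₗ[ℂ] (Fin j × Edge → ℂ) := fun s =>
    LinearMap.mk₂ ℂ (fun g t p => ∑ i, t i * g p.1 (fun z => η z ^ x s.1 i) *
        (η (cp p.2))⁻¹ ^ x s.1 i)
      (fun g g' t => by funext p; simp [mul_add, add_mul, Finset.sum_add_distrib])
      (fun a g t => by
        funext p
        simp only [Pi.smul_apply, LinearMap.smul_apply, smul_eq_mul, Finset.mul_sum]
        exact Finset.sum_congr rfl fun i _ => by ring)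
      (fun g t t' => by funext p; simp [add_mul, Finset.sum_add_distrib])
      (fun a g t => by
        funext p
        simp only [Pi.smul_apply, smul_eq_mul, Finset.mul_sum]
        exact Finset.sum_congr rfl fun i _ => by ring)
  have hL : ∀ s g t p, L s g t p = ∑ i, t i * g p.1 (fun z => η z ^ x s.1 i) *
        (η (cp p.2))⁻¹ ^ x s.1 i := fun _ _ _ _ => rfl
  let Z2 : (Fin k → Fin r) → (Fin k → Fin r) → Submodule ℂ (Fin k → ℂ) := fun s s' =>
    { carrier := {t | ∃ t' : Fin k → ℂ, ∀ z e, ∑ i, t i * (η (cp e))⁻¹ ^ x s i * η z ^ x s i =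
        ∑ i, t' i * (η (cp e))⁻¹ ^ x s' i * η z ^ x s' i}
      add_mem' := by
        rintro a b ⟨a', ha⟩ ⟨b', hb⟩
        exact ⟨a' + b', fun z e => by
          simp only [Pi.add_apply, add_mul, Finset.sum_add_distrib, ha z e, hb z e]⟩
      zero_mem' := ⟨0, fun z e => by simp⟩
      smul_mem' := by
        rintro a b ⟨b', hb⟩
        exact ⟨a • b', fun z e => by
          simp only [Pi.smul_apply, smul_eq_mul, mul_assoc a, ← Finset.mul_sum, hb z e]⟩ }
  let i0 : Fin k := ⟨0, hk0⟩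
  let Z : (Fin k → Fin r) × (Fin k → Fin r) → Submodule ℂ (Fin k → ℂ) := fun s =>
    if s.1 = s.2 then LinearMap.ker (LinearMap.proj i0) else Z2 s.1 s.2
  obtain ⟨g, hg⟩ := exists_generic L Z (by
    rintro ⟨s, s'⟩
    by_cases hs : s = s'
    · obtain ⟨g, hg⟩ := h.special hq hk hcard hj hj0 (x s) (hx s) i0
      refine ⟨g, fun t ht h1 => ?_⟩
      have h2 := hg t (fun r e => congrFun h1 (r, e))
      funext i
      by_cases hi : i = i0
      · subst hi
        simpa [Z, hs] using ht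
      · exact h2 i hi
    · obtain ⟨i1, hi1⟩ := Function.ne_iff.mp hs
      obtain ⟨g, hg⟩ := h.special hq hk hcard hj hj0 (x s) (hx s) i1
      refine ⟨g, fun t ht h1 => ?_⟩
      have h2 := hg t (fun r e => congrFun h1 (r, e))
      have ht' : t ∈ Z2 s s' := by simpa [Z, hs] using ht
      obtain ⟨t', ht'⟩ := ht'
      have h3 : ∀ z e, t i1 * η z ^ x s i1 =
          ∑ i, t' i * (η (cp e))⁻¹ ^ x s' i * η (cp e) ^ x s i1 * η z ^ x s' i := by
        intro z e
        have h4 := ht' z e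
        rw [Finset.sum_eq_single i1 (fun i _ hi => by rw [h2 i hi]; simp) (by simp)] at h4
        have h5 : η (cp e) ≠ 0 := h.eta_ne hq0 (cp e)
        calc t i1 * η z ^ x s i1
            = t i1 * (η (cp e))⁻¹ ^ x s i1 * η z ^ x s i1 * η (cp e) ^ x s i1 := by
              rw [inv_pow]; field_simp
          _ = _ := by
              rw [h4, Finset.sum_mul]
              exact Finset.sum_congr rfl fun i _ => by ring
      obtain ⟨e, e', ζ, hζ, hee⟩ := h.e6
      have h6 := h.indep hq hk hcard (x s') (hx s')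
        (fun i => t' i * (η (cp e))⁻¹ ^ x s' i * η (cp e) ^ x s i1 -
          t' i * (η (cp e'))⁻¹ ^ x s' i * η (cp e') ^ x s i1) (fun z => by
            simp only [sub_mul, Finset.sum_sub_distrib]
            rw [← h3 z e, ← h3 z e', sub_self])
      have h7 : ∀ i, t' i = 0 := by
        intro i
        by_contra hne
        have h8 := sub_eq_zero.mp (congrFun h6 i)
        have h5 : η (cp e') ≠ 0 := h.eta_ne hq0 (cp e')
        have hζ0 : ζ ≠ 0 := hζ.ne_zero (by omega)
        have h9 : η (cp e) = ζ * η (cp e') := hee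
        rw [h9, mul_inv, mul_pow, mul_pow, inv_pow, inv_pow] at h8
        have h10 : ζ ^ x s i1 = ζ ^ x s' i := by
          field_simp at h8
          exact h8
        have h11 := hζ.pow_inj (hxq s i1) (hxq s' i) h10
        have h12 : i1 = i := by
          have h13 := ((hx s i1).symm.trans (h11 ▸ hx s' i))
          exact Fin.ext (Nat.ModEq.eq_of_lt_of_lt h13 i1.2 i.2)
        subst h12
        apply hi1
        apply Fin.ext
        simp only [x] at h11
        exact Nat.eq_of_mul_eq_mul_left hk0 (by omega)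
      funext i
      by_cases hi : i = i1
      · subst hi
        have h4 := h3 (cp e) e
        simp only [h7, zero_mul, Finset.sum_const_zero] at h4
        exact (mul_eq_zero.mp h4).resolve_right (pow_ne_zero _ (h.eta_ne hq0 (cp e)))
      · exact h2 i hi)
  let s0 : Fin k → ℕ := fun i => i.val
  have hW := (h.span hq hk hcard s0 (fun i => Nat.ModEq.refl _)).1
  obtain ⟨θ, hθW, hθg, hθi⟩ := exists_theta (Wsp cp cm) g (c := c) (by omega)
  choose cc hcc using fun s w => (h.span hq hk hcard (x s) (hx s)).2 (θ w) (hθW w)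
  let T0 : Row × Col × Fin c → ℂ := fun z => θ z.2.2 (z.1, z.2.1)
  obtain ⟨P, hP0, hPd, hP⟩ := exists_lowest f hf T0
  let H : (Fin k → Fin r) → Submodule ℂ (Row × Col × Fin c → ℂ) := fun s =>
    Ter (fun i u => A u ^ x s i) (fun i v => B v ^ x s i) (fun i w => cc s w i)
  let Fz : ((Row × Col × Fin c → ℂ) →ₗ[ℂ] ℂ) → Row × Col × Fin c → ℂ := fun F z =>
    F (fun z' => if z = z' then 1 else 0)
  have hFz : ∀ F y, F y = ∑ z, y z * Fz F z := fun F y => by
    rw [LinearMap.pi_apply_eq_sum_univ F y]; rfl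
  have key : ∀ s F, H s ≤ LinearMap.ker F →
      ((∀ e z, ∑ w, Fz F ((cp e).1, (cp e).2, w) * θ w z = 0) → F = 0) ∧
      ∃ t : Fin k → ℂ, (∀ s', L (s, s') g t = 0) ∧ ∀ e z,
        ∑ w, Fz F ((cp e).1, (cp e).2, w) * θ w z =
          y0 e * ∑ i, t i * (η (cp e))⁻¹ ^ x s i * η z ^ x s i := by
    intro s F hF
    obtain ⟨h1, t, ht⟩ := h.keyA hq hk hcard hcard' (x s) (hx s) (fun i w => cc s w i) (Fz F)
      (fun y hy => by rw [← hFz]; exact hF hy)
    have h2 : ∀ e z, ∑ w, Fz F ((cp e).1, (cp e).2, w) * θ w z =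
          y0 e * ∑ i, t i * (η (cp e))⁻¹ ^ x s i * η z ^ x s i := by
      intro e z
      simp only [hcc s, Finset.mul_sum]
      rw [Finset.sum_comm]
      refine Finset.sum_congr rfl fun i _ => ?_
      rw [← mul_assoc, ← ht e i, Finset.sum_mul]
      exact Finset.sum_congr rfl fun w _ => by ring
    refine ⟨fun hz => ?_, t, fun s' => ?_, h2⟩
    · have h3 := h1 (fun e => hθi _ (hz e))
      apply LinearMap.ext
      intro y
      rw [hFz, h3]
      simp
    · funext p
      have h3 : ∑ w, Fz F ((cp p.2).1, (cp p.2).2, w) • θ w =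
          y0 p.2 • ∑ i, (t i * (η (cp p.2))⁻¹ ^ x s i) • fun z => η z ^ x s i := by
        funext z
        simpa using h2 p.2 z
      have h4 := congrArg (g p.1) h3
      simp only [map_sum, map_smul, hθg, smul_eq_mul, mul_zero, Finset.sum_const_zero] at h4
      have h5 := (mul_eq_zero.mp h4.symm).resolve_left (h.e5a _)
      rw [hL, Pi.zero_apply, ← h5]
      exact Finset.sum_congr rfl fun i _ => by ring
  have hcount := card_le_of_hyperplanes P hP0 H
    (fun s => ter_vanish _ _ _ f P hv T0 (fun z => by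
      simp only [T0, hcc s]
      exact Finset.sum_congr rfl fun i _ => by rw [mul_pow]; ring) hP) ?_ ?_
  · simp only [Fintype.card_pi, Fintype.card_fin, Finset.prod_const, Finset.card_univ] at hcount
    exact hcount.trans hPd
  · intro s F F' hF hF' hF0
    obtain ⟨h1, t, ht1, ht2⟩ := key s F hF
    obtain ⟨-, t', ht1', ht2'⟩ := key s F' hF'
    have ht0 : t i0 ≠ 0 := by
      intro h0
      have h2 := hg (s, s) t (by simpa [Z] using h0) (ht1 s)
      exact hF0 (h1 fun e z => by rw [ht2, h2]; simp)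
    refine ⟨t' i0 / t i0, ?_⟩
    have h2 := hg (s, s) (t' - (t' i0 / t i0) • t) (by simp [Z]; field_simp; ring)
      (by rw [map_sub, map_smul, ht1 s, ht1' s]; simp)
    have h3 : ∀ i, t' i = t' i0 / t i0 * t i := fun i => sub_eq_zero.mp (congrFun h2 i)
    rw [← sub_eq_zero]
    refine (key s (F' - (t' i0 / t i0) • F) (fun y hy => ?_)).1 fun e z => ?_
    · have h4 : F y = 0 := hF hy
      have h5 : F' y = 0 := hF' hy
      simp [h4, h5]
    · have h4 : ∀ z, Fz (F' - (t' i0 / t i0) • F) z = Fz F' z - t' i0 / t i0 * Fz F z :=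
        fun z => rfl
      generalize t' i0 / t i0 = a at *
      simp only [h4, sub_mul, Finset.sum_sub_distrib, mul_assoc a, ← Finset.mul_sum, ht2, ht2', h3]
      ring
  · intro s s' hs F hF hF'
    obtain ⟨h1, t, ht1, ht2⟩ := key s F hF
    obtain ⟨-, t', -, ht2'⟩ := key s' F hF'
    have h2 := hg (s, s') t (by
      simp only [Z, hs, if_false]
      exact ⟨t', fun z e => mul_left_cancel₀ (h.e5a e) (by rw [← ht2, ← ht2'])⟩) (ht1 s')
    exact h1 fun e z => by rw [ht2, h2]; simp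

end

end Pool.Agent.Lib.MP_595dc0_ag
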