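import Mathlib

namespace Pool.Agent.Lib.MP_595dc0_ag

/-- Value of a digit vector in base `n`. -/
def val (n : ℕ) (d : ℕ → ℤ) : ℤ := ∑ w ∈ Finset.range n, d w * (n : ℤ) ^ w

/-- Existence of small carries. -/
def Carry (n : ℕ) (d : ℕ → ℤ) : Prop :=
  ∃ c : ℕ → ℤ, c 0 = 0 ∧ ∀ w < n, (c (w + 1) = 0 ∧ d w + c w = 0) ∨
    (c (w + 1) = 1 ∧ d w + c w = n) ∨ (c (w + 1) = -1 ∧ d w + c w = -n)

theorem Carry.dvd {n : ℕ} {d : ℕ → ℤ} (h : Carry n d) : ((n ^ n : ℕ) : ℤ) ∣ val n d := by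
  obtain ⟨c, h0, hc⟩ := h
  have key : ∀ m ≤ n, ∑ w ∈ Finset.range m, d w * (n : ℤ) ^ w = (n : ℤ) ^ m * c m := by
    intro m hm
    induction m with
    | zero => simp [h0]
    | succ m ih =>
      rw [Finset.sum_range_succ, ih (by omega)]
      have h1 : d m + c m = n * c (m + 1) := by
        rcases hc m (by omega) with h | h | h <;> rw [h.1, h.2] <;> ring
      rw [pow_succ, mul_assoc, ← h1]
      ring
  exact ⟨c n, by rw [val, key n le_rfl]; push_cast; ring⟩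

theorem carry_of_dvd {n : ℕ} (hn : 2 ≤ n) {d : ℕ → ℤ}
    (hd : ∀ w < n, -(2 * n - 3 : ℤ) ≤ d w ∧ d w ≤ 2 * n - 3)
    (h : ((n ^ n : ℕ) : ℤ) ∣ val n d) : Carry n d := by
  have hn0 : (n : ℤ) ≠ 0 := by omega
  have key : ∀ m ≤ n, (n : ℤ) ^ m ∣ ∑ w ∈ Finset.range m, d w * (n : ℤ) ^ w := by
    intro m hm
    have h1 := Finset.sum_range_add_sum_Ico (fun w => d w * (n : ℤ) ^ w) hm
    have h2 : (n : ℤ) ^ m ∣ ∑ w ∈ Finset.Ico m n, d w * (n : ℤ) ^ w :=
      Finset.dvd_sum fun w hw => (pow_dvd_pow _ (Finset.mem_Ico.mp hw).1).mul_left _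
    have h3 : (n : ℤ) ^ m ∣ val n d := (pow_dvd_pow _ hm).trans (by exact_mod_cast h)
    rw [val, ← h1] at h3
    exact (dvd_add_left h2).mp h3
  let c : ℕ → ℤ := fun m => (∑ w ∈ Finset.range m, d w * (n : ℤ) ^ w) / (n : ℤ) ^ m
  have hc : ∀ m ≤ n, ∑ w ∈ Finset.range m, d w * (n : ℤ) ^ w = (n : ℤ) ^ m * c m :=
    fun m hm => (Int.mul_ediv_cancel' (key m hm)).symm
  have h0 : c 0 = 0 := by simp [c]
  have h1 : ∀ w < n, d w + c w = n * c (w + 1) := by
    intro w hw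
    have h2 := hc (w + 1) hw
    rw [Finset.sum_range_succ, hc w hw.le] at h2
    apply mul_left_cancel₀ (pow_ne_zero w hn0)
    rw [pow_succ] at h2
    linear_combination h2
  have h2 : ∀ w ≤ n, -1 ≤ c w ∧ c w ≤ 1 := by
    intro w hw
    induction w with
    | zero => simp [h0]
    | succ w ih =>
      have h3 := ih (by omega)
      have h4 := h1 w hw
      have h5 := hd w hw
      have h6 : (2 : ℤ) ≤ n := by exact_mod_cast hn
      constructor <;> nlinarith
  refine ⟨c, h0, fun w hw => ?_⟩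
  have h3 := h2 (w + 1) hw
  have h4 := h1 w hw
  have h5 : c (w + 1) = 0 ∨ c (w + 1) = 1 ∨ c (w + 1) = -1 := by omega
  rcases h5 with h5 | h5 | h5 <;> rw [h5] at h4 <;> simp [h5, h4]

theorem Carry.neg {n : ℕ} {d d' : ℕ → ℤ} (h : Carry n d) (hd : ∀ w, d' w = -d w) : Carry n d' := by
  obtain ⟨c, h0, hc⟩ := h
  refine ⟨fun w => -c w, by simp [h0], fun w hw => ?_⟩
  have := hc w hw
  beta_reduce
  rw [hd]
  omega

/-- Position of a level in the chain of rows. -/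
def pp (h w : ℕ) : ℕ := if w % 2 = 0 then w / 2 else h + w / 2
/-- Level of a position. -/
def lev (h x : ℕ) : ℕ := if x < h then 2 * x else 2 * (x - h) + 1
/-- Digits of the rows. -/
def aD (h x w : ℕ) : ℤ := if pp h w < x then (if w % 2 = 0 then 1 else -1) else 0
/-- Digits of the first family of columns. -/
def fD (u i w : ℕ) : ℤ := if u < w then 1 else if w = u then i else 0
/-- Alternating digits. -/
def mD (m : ℤ) (w : ℕ) : ℤ := if w % 2 = 0 then m else -m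

theorem pp_lev {h x : ℕ} (hx : x < 2 * h) : pp h (lev h x) = x ∧ lev h x < 2 * h := by
  unfold pp lev
  split_ifs <;> omega

theorem lev_pp {h w : ℕ} (hw : w < 2 * h) : lev h (pp h w) = w ∧ pp h w < 2 * h := by
  unfold pp lev
  split_ifs <;> omega

theorem interval {h x x' : ℕ} (hx : x ≤ 2 * h) (hx' : x' ≤ 2 * h) (u v : ℕ)
    (H : ∀ w < 2 * h, w ≠ u → w ≠ v → aD h x w = aD h x' w) (s : ℕ)
    (hs : (x ≤ s ∧ s < x') ∨ (x' ≤ s ∧ s < x)) : s = pp h u ∨ s = pp h v := by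
  have h1 := pp_lev (h := h) (x := s) (by omega)
  by_cases h2 : lev h s = u
  · left; rw [← h2, h1.1]
  by_cases h3 : lev h s = v
  · right; rw [← h3, h1.1]
  have h4 := H _ h1.2 h2 h3
  unfold aD at h4
  rw [h1.1] at h4
  split_ifs at h4 <;> omega

theorem aD_bound (h x x' w : ℕ) : -1 ≤ aD h x w - aD h x' w ∧ aD h x w - aD h x' w ≤ 1 := by
  unfold aD
  split_ifs <;> omega

theorem aD_alt (h x x' w : ℕ) :
    ¬ (aD h x w - aD h x' w = 1 ∧ aD h x (w + 1) - aD h x' (w + 1) = 1) ∧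
    ¬ (aD h x w - aD h x' w = -1 ∧ aD h x (w + 1) - aD h x' (w + 1) = -1) := by
  unfold aD
  split_ifs <;> omega

theorem aD_spec (h x x' w : ℕ) :
    (aD h x w = aD h x' w ∧ ((pp h w < x ∧ pp h w < x') ∨ (x ≤ pp h w ∧ x' ≤ pp h w))) ∨
    (x' ≤ pp h w ∧ pp h w < x ∧ ((w % 2 = 0 ∧ aD h x w - aD h x' w = 1) ∨
      (w % 2 = 1 ∧ aD h x w - aD h x' w = -1))) ∨
    (x ≤ pp h w ∧ pp h w < x' ∧ ((w % 2 = 0 ∧ aD h x w - aD h x' w = -1) ∨
      (w % 2 = 1 ∧ aD h x w - aD h x' w = 1))) := by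
  unfold aD
  split_ifs <;> omega

theorem aD_single {h x x' : ℕ} (hx : x ≤ 2 * h) (hx' : x' ≤ 2 * h) (u : ℕ)
    (H : ∀ w < 2 * h, w ≠ u → aD h x w = aD h x' w) :
    x = x' ∨ (x = pp h u + 1 ∧ x' = pp h u) ∨ (x' = pp h u + 1 ∧ x = pp h u) := by
  have h8 := interval hx hx' u u (fun w hw h1 _ => H w hw h1)
  have h9 := h8 x
  have h10 := h8 x'
  have h11 := h8 (x - 1)
  have h12 := h8 (x' - 1)
  omega

theorem aD_double {h x x' : ℕ} (hh : 4 ≤ h) (hx : x ≤ 2 * h) (hx' : x' ≤ 2 * h) (u : ℕ)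
    (H : ∀ w < 2 * h, w ≠ u → w ≠ u + 1 → aD h x w = aD h x' w) :
    aD h x u = aD h x' u ∨ aD h x (u + 1) = aD h x' (u + 1) := by
  have h8 := interval hx hx' u (u + 1) H
  have h19 : pp h u + 3 ≤ pp h (u + 1) ∨ pp h (u + 1) + 3 ≤ pp h u := by
    unfold pp; split_ifs <;> omega
  by_contra hne
  have h1 : (x' ≤ pp h u ∧ pp h u < x) ∨ (x ≤ pp h u ∧ pp h u < x') := by
    have := aD_spec h x x' u; omega
  have h2 : (x' ≤ pp h (u + 1) ∧ pp h (u + 1) < x) ∨ (x ≤ pp h (u + 1) ∧ pp h (u + 1) < x') := by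
    have := aD_spec h x x' (u + 1); omega
  have h3 := h8 (pp h u + 1)
  have h4 := h8 (pp h (u + 1) + 1)
  omega

theorem Carry.bound {n : ℕ} {d c : ℕ → ℤ} (h0 : c 0 = 0)
    (hc : ∀ w < n, (c (w + 1) = 0 ∧ d w + c w = 0) ∨
      (c (w + 1) = 1 ∧ d w + c w = n) ∨ (c (w + 1) = -1 ∧ d w + c w = -n)) :
    ∀ w ≤ n, -1 ≤ c w ∧ c w ≤ 1 := by
  intro w hw
  rcases w with _ | w
  · omega
  · have := hc w (by omega); omega

theorem caseFF1 {h x x' u i i' : ℕ} (hh : 4 ≤ h) (hx : x ≤ 2 * h) (hx' : x' ≤ 2 * h)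
    (hu : u < 2 * h) (hi : i < 2 * h) (hi' : i' < 2 * h) (hi0 : i ≠ 0 ∨ u + 1 = 2 * h)
    (hi0' : i' ≠ 0 ∨ u + 1 = 2 * h)
    (H : Carry (2 * h) (fun w => aD h x w + fD u i w - (aD h x' w + fD u i' w))) :
    (x = x' ∧ i = i') ∨
    (((u % 2 = 0 ∧ x' = pp h u) ∨ (u % 2 = 1 ∧ x' = pp h u + 1)) ∧
      (i' = i + 1 ∨ (u + 1 = 2 * h ∧ i' = 0))) ∨
    (((u % 2 = 0 ∧ x = pp h u) ∨ (u % 2 = 1 ∧ x = pp h u + 1)) ∧
      (i = i' + 1 ∨ (u + 1 = 2 * h ∧ i = 0))) := by
  obtain ⟨c, h0, hc⟩ := H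
  have hb := Carry.bound h0 hc
  beta_reduce at hc
  have h1 : ∀ w < 2 * h, w ≠ u → c (w + 1) = 0 ∧ aD h x w - aD h x' w + c w = 0 := by
    intro w hw hwu
    have h2 := hc w hw
    have h3 := hb w hw.le
    have h4 := aD_bound h x x' w
    have h5 : fD u i w = fD u i' w := by simp [fD, hwu]
    omega
  have h2 : c u = 0 := by
    rcases u with _ | u
    · exact h0
    · exact (h1 u (by omega) (by omega)).1
  have h3 := hc u hu
  have h4 := aD_bound h x x' u
  have h5 : fD u i u = i := by simp [fD]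
  have h6 : fD u i' u = i' := by simp [fD]
  rw [h5, h6, h2] at h3
  have h7 : ∀ w < 2 * h, w ≠ u → aD h x w = aD h x' w := by
    intro w hw hwu
    have h8 := h1 w hw hwu
    rcases w with _ | w
    · omega
    · by_cases h9 : w = u
      · rw [h9] at h8 hw ⊢; omega
      · have := h1 w (by omega) h9; omega
  have h8 := aD_single hx hx' u h7
  have h9 := aD_spec h x x' u
  clear h1 h7 hc hb
  omega

theorem caseFF2 {h x x' u u' i i' : ℕ} (hh : 4 ≤ h) (hx : x ≤ 2 * h) (hx' : x' ≤ 2 * h)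
    (hu : u < 2 * h) (huu : u' < u) (hi : i < 2 * h) (hi' : i' < 2 * h) (hi0' : i' ≠ 0)
    (H : Carry (2 * h) (fun w => aD h x w + fD u i w - (aD h x' w + fD u' i' w))) :
    u = u' + 1 ∧ ((i' = 1 ∧ ((u' % 2 = 0 ∧ x' = pp h u') ∨
      (u' % 2 = 1 ∧ x' = pp h u' + 1))) ∨ (i = 2 ∧ ((u' % 2 = 0 ∧ x = pp h u') ∨
      (u' % 2 = 1 ∧ x = pp h u' + 1)))) := by
  obtain ⟨c, h0, hc⟩ := H
  have hb := Carry.bound h0 hc
  beta_reduce at hc
  have h1 : ∀ w < 2 * h, (w < u' ∨ u < w) → c (w + 1) = 0 ∧ aD h x w - aD h x' w + c w = 0 := by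
    intro w hw hwu
    have h2 := hc w hw
    have h3 := hb w hw.le
    have h4 := aD_bound h x x' w
    have h5 : fD u i w = fD u' i' w := by unfold fD; split_ifs <;> omega
    omega
  have h2 : c u' = 0 := by
    rcases u' with _ | u'
    · exact h0
    · exact (h1 u' (by omega) (by omega)).1
  have h3 := hc u' (by omega)
  have h4 := hc (u' + 1) (by omega)
  have h5 : fD u i u' = 0 := by unfold fD; split_ifs <;> omega
  have h6 : fD u' i' u' = i' := by simp [fD]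
  have h7 : fD u' i' (u' + 1) = 1 := by simp [fD]
  have b1 := aD_bound h x x' u'
  have b2 := aD_bound h x x' (u' + 1)
  have b3 := aD_alt h x x' u'
  rw [h5, h6, h2] at h3
  rw [h7] at h4
  have h8 : u = u' + 1 := by
    by_contra hne
    have h9 : fD u i (u' + 1) = 0 := by unfold fD; split_ifs <;> omega
    omega
  subst h8
  have h9 : fD (u' + 1) i (u' + 1) = i := by simp [fD]
  rw [h9] at h4
  have h10 : c (u' + 1 + 1) = 0 := by omega
  have h11 : ∀ w < 2 * h, w ≠ u' → w ≠ u' + 1 → aD h x w = aD h x' w := by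
    intro w hw hw1 hw2
    have h12 := h1 w hw (by omega)
    rcases w with _ | w
    · omega
    · by_cases h13 : w = u' + 1
      · rw [h13] at h12 ⊢; omega
      · have := h1 w (by omega) (by omega); omega
  have h12 := aD_double hh hx hx' u' h11
  have h13 : aD h x (u' + 1) = aD h x' (u' + 1) := by omega
  have h14 := aD_single hx hx' u' (fun w hw hw1 => by
    by_cases hw2 : w = u' + 1
    · rw [hw2]; exact h13
    · exact h11 w hw hw1 hw2)
  have h15 := aD_spec h x x' u'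
  refine ⟨rfl, ?_⟩
  clear h1 h11 hc hb h12 b3
  omega

theorem caseLF {h x x' u' i' : ℕ} {m : ℤ} (hh : 4 ≤ h) (hx : x ≤ 2 * h) (hx' : x' ≤ 2 * h)
    (hi' : i' < 2 * h) (hm0 : m ≠ 0) (hm1 : -(h : ℤ) ≤ m) (hm2 : m ≤ h)
    (H : Carry (2 * h) (fun w => aD h x w + (fD 1 4 w + mD m w) - (aD h x' w + fD u' i' w))) :
    u' = 1 ∧ i' = 4 := by
  obtain ⟨c, h0, hc⟩ := H
  have hb := Carry.bound h0 hc
  beta_reduce at hc
  have e0 := hc 0 (by omega)
  have e1 := hc 1 (by omega)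
  have e2 := hc (2 * h - 2) (by omega)
  have e3 := hc (2 * h - 1) (by omega)
  have b2 := hb (2 * h - 2) (by omega)
  have q2 : 2 * h - 2 + 1 = 2 * h - 1 := by omega
  have q3 : (2 * h - 1) % 2 = 1 := by omega
  have q4 : (2 * h - 2) % 2 = 0 := by omega
  have f2 : fD 1 4 (2 * h - 2) = 1 := by unfold fD; split_ifs <;> omega
  have f3 : fD 1 4 (2 * h - 1) = 1 := by unfold fD; split_ifs <;> omega
  have f0 : fD 1 4 0 = 0 := by simp [fD]
  have f1 : fD 1 4 1 = 4 := by simp [fD]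
  have m2 : mD m (2 * h - 2) = m := by simp [mD, q4]
  have m3 : mD m (2 * h - 1) = -m := by simp [mD, q3]
  have m0 : mD m 0 = m := by simp [mD]
  have m1 : mD m 1 = -m := by simp [mD]
  rw [f0, m0, h0, zero_add 1] at e0
  rw [f1, m1] at e1
  rw [f2, m2, q2] at e2
  rw [f3, m3] at e3
  have a0 := aD_bound h x x' 0
  have a1 := aD_bound h x x' 1
  have a2 := aD_bound h x x' (2 * h - 2)
  have a3 := aD_bound h x x' (2 * h - 1)
  clear hc hb
  by_cases hu2 : 2 ≤ u'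
  · exfalso
    have g0 : fD u' i' 0 = 0 := by unfold fD; split_ifs <;> omega
    have g1 : fD u' i' 1 = 0 := by unfold fD; split_ifs <;> omega
    clear e2 e3
    omega
  · have g2 : fD u' i' (2 * h - 2) = 1 := by unfold fD; split_ifs <;> omega
    have g3 : fD u' i' (2 * h - 1) = 1 := by unfold fD; split_ifs <;> omega
    have c3 : c (2 * h - 1) = 0 := by clear e0 e1 e3; omega
    have c4 : aD h x (2 * h - 1) - aD h x' (2 * h - 1) = m := by clear e0 e1 e2; omega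
    clear e2 e3
    have p0 : pp h 0 = 0 := by simp [pp]
    have p1 : pp h 1 = h := by simp [pp]
    have p3 : pp h (2 * h - 1) = 2 * h - 1 := by unfold pp; split_ifs <;> omega
    have s0 := aD_spec h x x' 0
    have s1 := aD_spec h x x' 1
    have s3 := aD_spec h x x' (2 * h - 1)
    rw [p0] at s0
    rw [p1] at s1
    rw [p3] at s3
    have s4 : (m = -1 ∧ x = 2 * h ∧ x' < 2 * h) ∨ (m = 1 ∧ x' = 2 * h ∧ x < 2 * h) := by
      clear e0 e1 s0 s1; omega
    clear s3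
    by_cases hu0 : u' = 0
    · exfalso
      have g0 : fD u' i' 0 = i' := by simp [fD, hu0]
      have g1 : fD u' i' 1 = 1 := by simp [fD, hu0]
      clear s0
      omega
    · have hu1 : u' = 1 := by omega
      have g0 : fD u' i' 0 = 0 := by simp [fD, hu1]
      have g1 : fD u' i' 1 = i' := by simp [fD, hu1]
      have c1 : c 1 = 0 ∧ aD h x 0 - aD h x' 0 = -m := by clear e1 s0 s1; omega
      have s5 : aD h x 1 - aD h x' 1 = m := by clear e0 e1; omega
      omega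

theorem caseLL {h x x' : ℕ} {m m' : ℤ} (hh : 4 ≤ h) (hx : x ≤ 2 * h) (hx' : x' ≤ 2 * h)
    (hm1 : -(h : ℤ) ≤ m) (hm2 : m ≤ h) (hm1' : -(h : ℤ) ≤ m') (hm2' : m' ≤ h)
    (H : Carry (2 * h) (fun w => aD h x w + (fD 1 4 w + mD m w) -
      (aD h x' w + (fD 1 4 w + mD m' w)))) :
    (x = x' ∧ m = m') ∨ (x' = 0 ∧ m' = m + 1) ∨ (x = 0 ∧ m = m' + 1) ∨
      (x' = 1 ∧ m' = -h) ∨ (x = 1 ∧ m = -h) := by
  obtain ⟨c, h0, hc⟩ := H
  beta_reduce at hc
  by_cases hmm : m = m'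
  · left
    subst hmm
    refine ⟨?_, rfl⟩
    have h1 : ∀ w ≤ 2 * h, c w = 0 := by
      intro w hw
      induction w with
      | zero => exact h0
      | succ w ih =>
        have h2 := ih (by omega)
        have h3 := hc w (by omega)
        have h4 := aD_bound h x x' w
        omega
    have h2 : ∀ w < 2 * h, aD h x w = aD h x' w := fun w hw => by
      have h3 := hc w hw
      have h4 := h1 w hw.le
      have h5 := h1 (w + 1) hw
      omega
    have h3 := aD_single hx hx' 0 (fun w hw _ => h2 w hw)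
    have h4 := aD_single hx hx' 1 (fun w hw _ => h2 w hw)
    have p0 : pp h 0 = 0 := by simp [pp]
    have p1 : pp h 1 = h := by simp [pp]
    omega
  · right
    have e0 := hc 0 (by omega)
    have e1 := hc 1 (by omega)
    have e2 := hc 2 (by omega)
    have p0 : pp h 0 = 0 := by simp [pp]
    have p2 : pp h 2 = 1 := by simp [pp]
    have s0 := aD_spec h x x' 0
    have s1 := aD_bound h x x' 1
    have s2 := aD_spec h x x' 2
    rw [p0] at s0
    rw [p2] at s2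
    simp only [mD, Nat.reduceMod, Nat.reduceAdd, if_true, one_ne_zero, if_false, h0] at e0 e1 e2
    clear hc
    have s4 := aD_bound h x x' 2
    rcases e0 with e0 | e0 | e0
    · clear e1 e2 s1 s2 s4
      omega
    · have t0 := aD_bound h x x' 0
      have t1 : c 2 = -1 ∧ m = h ∧ m' = -h := by clear e2 s0 s2; omega
      have t2 : aD h x 2 - aD h x' 2 = 1 := by clear e1 s0 s2; omega
      have t3 : aD h x 0 = aD h x' 0 := by clear e1 e2 s0 s2; omega
      clear e1 e2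
      omega
    · have t0 := aD_bound h x x' 0
      have t1 : c 2 = 1 ∧ m = -h ∧ m' = h := by clear e2 s0 s2; omega
      have t2 : aD h x 2 - aD h x' 2 = -1 := by clear e1 s0 s2; omega
      have t3 : aD h x 0 = aD h x' 0 := by clear e1 e2 s0 s2; omega
      clear e1 e2
      omega

end Pool.Agent.Lib.MP_595dc0_ag
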