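import Mathlib

set_option autoImplicit false

namespace Pool.Agent.Lib.MP_595dc0_ag

/-- The halving chain `p, ⌈p/2⌉, ⌈p/4⌉, …`. -/
def gch (p : ℕ) : ℕ → ℕ
  | 0 => p
  | j + 1 => (gch p j + 1) / 2

theorem gch_step (p j : ℕ) :
    gch p j = 2 * gch p (j + 1) ∨ gch p j + 1 = 2 * gch p (j + 1) := by
  simp only [gch]; omega

theorem gch_le {p n : ℕ} (h : p ≤ 2 ^ n) : ∀ j, j ≤ n → gch p j ≤ 2 ^ (n - j) := by
  intro j
  induction j with
  | zero => intro _; simpa [gch] using h
  | succ j ih =>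
    intro hj
    have h1 := ih (by omega)
    have h2 : n - j = (n - (j + 1)) + 1 := by omega
    rw [h2, pow_succ] at h1
    simp only [gch]; omega

theorem lt_gch {p n : ℕ} (h : 2 ^ n < p) : ∀ j, j ≤ n → 2 ^ (n - j) < gch p j := by
  intro j
  induction j with
  | zero => intro _; simpa [gch] using h
  | succ j ih =>
    intro hj
    have h1 := ih (by omega)
    have h2 : n - j = (n - (j + 1)) + 1 := by omega
    rw [h2, pow_succ] at h1
    simp only [gch]; omega

theorem gch_top {p n : ℕ} (h1 : 2 ^ n < p) (h2 : p ≤ 2 ^ (n + 1)) :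
    gch p n = 2 ∧ gch p (n + 1) = 1 := by
  have h3 := lt_gch h1 n le_rfl
  have h4 := gch_le h2 n (by omega)
  rw [Nat.sub_self, pow_zero] at h3
  rw [show n + 1 - n = 1 by omega, pow_one] at h4
  have h5 : gch p n = 2 := by omega
  refine ⟨h5, ?_⟩
  simp [gch, h5]

section core

variable {κ : Type} [Field κ] {p n : ℕ}

theorem step_rel (h1 : 2 ^ n < p) (h2 : p ≤ 2 ^ (n + 1)) (j : ℕ) :
    (gch p j = 2 * gch p (j + 1) ∧
      (gch p (j + 1) + gch p (j + 1)) % p = (gch p j + gch p 0) % p) ∨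
    (gch p j + 1 = 2 * gch p (j + 1) ∧
      (gch p (j + 1) + gch p (j + 1)) % p = (gch p j + gch p (n + 1)) % p) := by
  rcases gch_step p j with h | h
  · refine Or.inl ⟨h, ?_⟩
    rw [← two_mul, ← h]
    simp [gch]
  · refine Or.inr ⟨h, ?_⟩
    rw [← two_mul, ← h, (gch_top h1 h2).2]

theorem core1 (h1 : 2 ^ n < p) (h2 : p ≤ 2 ^ (n + 1)) (hodd : p % 2 = 1) (w : ℕ → κ)
    (hw : ∀ i j i' j', i ≤ n + 1 → j ≤ n + 1 → i' ≤ n + 1 → j' ≤ n + 1 →
      (gch p i + gch p j) % p = (gch p i' + gch p j') % p → w i * w j = w i' * w j')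
    (hne : ∃ i ≤ n + 1, w i ≠ 0) :
    w 0 ≠ 0 ∧ ((∃ ζ : κ, ζ ^ p = 1 ∧ ∀ j ≤ n + 1, w j = w 0 * ζ ^ gch p j) ∨
      ∀ j, 1 ≤ j → j ≤ n + 1 → w j = 0) := by
  have hrel : ∀ j ≤ n, (gch p j = 2 * gch p (j + 1) ∧ w (j + 1) * w (j + 1) = w j * w 0) ∨
      (gch p j + 1 = 2 * gch p (j + 1) ∧ w (j + 1) * w (j + 1) = w j * w (n + 1)) := by
    intro j hj
    rcases step_rel h1 h2 j with ⟨h, h'⟩ | ⟨h, h'⟩
    · exact Or.inl ⟨h, hw _ _ _ _ (by omega) (by omega) (by omega) (by omega) h'⟩
    · exact Or.inr ⟨h, hw _ _ _ _ (by omega) (by omega) (by omega) (by omega) h'⟩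
  obtain ⟨ht1, ht2⟩ := gch_top h1 h2
  have h0 : w 0 ≠ 0 := by
    intro h0
    have hn : w (n + 1) = 0 := by
      rcases hrel n le_rfl with ⟨_, h'⟩ | ⟨h, _⟩
      · rw [h0, mul_zero] at h'
        exact mul_self_eq_zero.mp h'
      · omega
    obtain ⟨i, hi, hwi⟩ := hne
    apply hwi
    cases i with
    | zero => exact h0
    | succ i =>
      rcases hrel i (by omega) with ⟨_, h'⟩ | ⟨_, h'⟩
      · rw [h0, mul_zero] at h'
        exact mul_self_eq_zero.mp h'
      · rw [hn, mul_zero] at h'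
        exact mul_self_eq_zero.mp h'
  refine ⟨h0, ?_⟩
  by_cases hn : w (n + 1) = 0
  · right
    have : ∀ j, j ≤ n → w (j + 1) = 0 := by
      intro j
      induction j with
      | zero =>
        intro _
        rcases hrel 0 (by omega) with ⟨h, _⟩ | ⟨_, h'⟩
        · simp only [gch] at h; omega
        · rw [hn, mul_zero] at h'
          exact mul_self_eq_zero.mp h'
      | succ j ih =>
        intro hj
        have h3 := ih (by omega)
        rcases hrel (j + 1) hj with ⟨_, h'⟩ | ⟨_, h'⟩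
        · rw [h3, zero_mul] at h'
          exact mul_self_eq_zero.mp h'
        · rw [h3, zero_mul] at h'
          exact mul_self_eq_zero.mp h'
    intro j hj1 hj2
    obtain ⟨j, rfl⟩ : ∃ j', j = j' + 1 := ⟨j - 1, by omega⟩
    exact this j (by omega)
  · left
    set ζ := w (n + 1) / w 0 with hζ
    have hζ0 : ζ ≠ 0 := div_ne_zero hn h0
    have hn' : w (n + 1) = w 0 * ζ := by rw [hζ]; field_simp
    have hd : ∀ d j, j + d = n + 1 → w j = w 0 * ζ ^ gch p j := by
      intro d
      induction d with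
      | zero =>
        intro j hj
        rw [show j = n + 1 by omega, ht2, pow_one, hn']
      | succ d ih =>
        intro j hj
        have h3 := ih (j + 1) (by omega)
        rcases hrel j (by omega) with ⟨h, h'⟩ | ⟨h, h'⟩
        · rw [h3] at h'
          apply mul_right_cancel₀ h0
          rw [← h', h]; ring
        · rw [h3, hn'] at h'
          apply mul_right_cancel₀ (mul_ne_zero h0 hζ0)
          rw [← h']
          have h4 : ζ ^ gch p (j + 1) * ζ ^ gch p (j + 1) = ζ ^ gch p j * ζ := by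
            rw [← pow_add, ← two_mul, ← h, pow_succ]
          linear_combination (w 0 * w 0) * h4
    refine ⟨ζ, ?_, fun j hj => hd (n + 1 - j) j (by omega)⟩
    have h5 := hd (n + 1) 0 (by omega)
    simp only [gch] at h5
    apply mul_left_cancel₀ h0
    rw [← h5, mul_one]

theorem core2 (h1 : 2 ^ n < p) (h2 : p ≤ 2 ^ (n + 1)) (hp : (p : κ) ≠ 0) (a : ℕ → κ)
    (ha : ∀ i j i' j', i ≤ n + 1 → j ≤ n + 1 → i' ≤ n + 1 → j' ≤ n + 1 →
      (gch p i + gch p j) % p = (gch p i' + gch p j') % p → a i + a j = a i' + a j')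
    (h0 : a 0 = 0) : ∀ j ≤ n + 1, a j = 0 := by
  obtain ⟨-, ht2⟩ := gch_top h1 h2
  have hd : ∀ d j, j + d = n + 1 → a j = (gch p j : κ) * a (n + 1) := by
    intro d
    induction d with
    | zero =>
      intro j hj
      rw [show j = n + 1 by omega, ht2]; simp
    | succ d ih =>
      intro j hj
      have h3 := ih (j + 1) (by omega)
      rcases step_rel h1 h2 j with ⟨h, h'⟩ | ⟨h, h'⟩
      · have h4 := ha _ _ _ _ (by omega) (by omega) (by omega) (by omega) h'
        have h5 : (gch p j : κ) = 2 * (gch p (j + 1) : κ) := by rw [h]; push_cast; ring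
        rw [h5]
        linear_combination 2 * h3 - h4 - h0
      · have h4 := ha _ _ _ _ (by omega) (by omega) (by omega) (by omega) h'
        have h5 : (gch p j : κ) + 1 = 2 * (gch p (j + 1) : κ) := by exact_mod_cast congrArg (Nat.cast : ℕ → κ) h
        linear_combination 2 * h3 - h4 - a (n + 1) * h5
  have h6 := hd (n + 1) 0 (by omega)
  simp only [gch] at h6
  rw [h0] at h6
  have h7 : a (n + 1) = 0 := by
    rcases mul_eq_zero.mp h6.symm with h | h
    · exact absurd h hp
    · exact h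
  intro j hj
  rw [hd (n + 1 - j) j (by omega), h7, mul_zero]

end core

/-- The residues of pairwise sums of the chain. -/
def sumSet (p n : ℕ) : Finset ℕ :=
  (Finset.univ : Finset (Fin (n + 2) × Fin (n + 2))).image
    fun x => (gch p x.1 + gch p x.2) % p

theorem card_sumSet {p n : ℕ} (h1 : 2 ^ n < p) (h2 : p ≤ 2 ^ (n + 1)) (hodd : p % 2 = 1) :
    (sumSet p n).card ≤ (n + 1) * (n + 2) / 2 + 1 := by
  have hsub : sumSet p n ⊆ insert 0 ((Finset.univ.filter
      fun x : Fin (n + 2) × Fin (n + 2) => x.1 < x.2).image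
        fun x => (gch p x.1 + gch p x.2) % p) := by
    intro e he
    obtain ⟨⟨i, j⟩, -, rfl⟩ := Finset.mem_image.mp he
    rw [Finset.mem_insert, Finset.mem_image]
    rcases lt_trichotomy i j with h | h | h
    · exact Or.inr ⟨(i, j), by simpa using h, rfl⟩
    · subst h
      obtain ⟨i, hi⟩ := i
      cases i with
      | zero => left; simp [gch]
      | succ i =>
        right
        rcases step_rel h1 h2 i with ⟨h, h'⟩ | ⟨h, h'⟩
        · have hi0 : 0 < i := by
            rcases Nat.eq_zero_or_pos i with h3 | h3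
            · subst h3
              simp only [gch] at h; omega
            · exact h3
          refine ⟨(⟨0, by omega⟩, ⟨i, by omega⟩), Finset.mem_filter.mpr ⟨Finset.mem_univ _, Fin.mk_lt_mk.mpr hi0⟩, ?_⟩
          simp only
          rw [h', add_comm]
        · refine ⟨(⟨i, by omega⟩, ⟨n + 1, by omega⟩), Finset.mem_filter.mpr ⟨Finset.mem_univ _, Fin.mk_lt_mk.mpr (by omega)⟩, ?_⟩
          simp only
          rw [h']
    · refine Or.inr ⟨(j, i), by simpa using h, ?_⟩
      simp only
      rw [add_comm]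
  refine (Finset.card_le_card hsub).trans ((Finset.card_insert_le _ _).trans ?_)
  refine Nat.add_le_add_right (Finset.card_image_le.trans ?_) 1
  rw [Fintype.card_product_filter_lt, Fintype.card_fin, Nat.choose_two_right]
  rw [show n + 2 - 1 = n + 1 by omega, mul_comm]

end Pool.Agent.Lib.MP_595dc0_ag
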