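import Mathlib
import Pool.Agent.Lib.MP_595dc0_ag.Val

set_option autoImplicit false

namespace Pool.Agent.Lib.MP_595dc0_ag

open Polynomial

/-- A nonzero polynomial of degree below the characteristic with a root of multiplicity `m`
at `1` has more than `m` terms. -/
theorem lt_card_support {κ : Type} [Field κ] (p : ℕ) [CharP κ p] :
    ∀ (m : ℕ) (g : κ[X]), g ≠ 0 → g.natDegree < p → (X - C 1) ^ m ∣ g → m < g.support.card := by
  intro m
  induction m with
  | zero =>
    intro g hg _ _
    exact Finset.card_pos.mpr (Polynomial.support_nonempty.mpr hg)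
  | succ m ih =>
    intro g hg hdeg hdvd
    obtain ⟨e, he⟩ := Polynomial.support_nonempty.mpr hg
    set h : κ[X] := X * derivative g - C (e : κ) * g with hh
    have hco : ∀ i, h.coeff i = ((i : κ) - e) * g.coeff i := by
      intro i
      rw [hh, coeff_sub, coeff_C_mul]
      cases i with
      | zero => simp
      | succ i => rw [coeff_X_mul, coeff_derivative]; push_cast; ring
    have hsupp : h.support = g.support.erase e := by
      ext i
      rw [Finset.mem_erase, mem_support_iff, mem_support_iff, hco]
      constructor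
      · intro h1
        refine ⟨?_, fun h2 => h1 (by rw [h2, mul_zero])⟩
        rintro rfl
        exact h1 (by rw [sub_self, zero_mul])
      · rintro ⟨h1, h2⟩
        refine mul_ne_zero (fun h3 => h1 ?_) h2
        have hi : i < p := lt_of_le_of_lt (le_natDegree_of_ne_zero h2) hdeg
        have he' : e < p := lt_of_le_of_lt (le_natDegree_of_mem_supp _ he) hdeg
        exact CharP.natCast_injOn_Iio κ p hi he' (sub_eq_zero.mp h3)
    have hcard : h.support.card + 1 = g.support.card := by
      rw [hsupp]; exact Finset.card_erase_add_one he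
    have hh0 : h ≠ 0 := by
      intro h0
      have h1 : g.support = {e} := by
        have : g.support.erase e = ∅ := by rw [← hsupp, h0, support_zero]
        rw [Finset.erase_eq_empty_iff] at this
        rcases this with h2 | h2
        · rw [h2] at he; simp at he
        · exact h2
      have h2 : g = monomial e (g.coeff e) := by
        conv_lhs => rw [g.as_sum_support, h1]
        simp
      have h3 : g.eval 1 = 0 := by
        have : (X - C 1 : κ[X]) ∣ g := (dvd_pow_self _ (Nat.succ_ne_zero m)).trans hdvd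
        exact dvd_iff_isRoot.mp this
      rw [h2, eval_monomial, one_pow, mul_one] at h3
      exact mem_support_iff.mp he h3
    have hdeg' : h.natDegree < p := by
      refine lt_of_le_of_lt ?_ hdeg
      rw [natDegree_le_iff_coeff_eq_zero]
      intro N hN
      rw [hco, coeff_eq_zero_of_natDegree_lt hN, mul_zero]
    have hdvd' : (X - C 1) ^ m ∣ h := by
      refine dvd_sub (Dvd.dvd.mul_left ?_ _) (Dvd.dvd.mul_left ?_ _)
      · obtain ⟨r, hr⟩ := hdvd
        rw [hr, derivative_mul, derivative_pow]
        refine dvd_add ?_ (Dvd.dvd.mul_right (pow_dvd_pow _ (Nat.le_succ m)) _)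
        refine Dvd.dvd.mul_right (Dvd.dvd.mul_right (Dvd.dvd.mul_left ?_ _) _) _
        simp
      · exact (pow_dvd_pow _ (Nat.le_succ m)).trans hdvd
    have := ih h hh0 hdeg' hdvd'
    omega

/-- Chebotarev's theorem on the minors of the Fourier matrix of prime order. -/
theorem chebotarev {p : ℕ} (hp : p.Prime) {ω : ℂ} (hω : IsPrimitiveRoot ω p)
    (I J : Finset ℕ) (hI : ∀ i ∈ I, i < p) (hJ : ∀ j ∈ J, j < p) (hIJ : I.card ≤ J.card)
    (l : ℕ → ℂ) (hl : ∀ j ∈ J, ∑ i ∈ I, l i * ω ^ (i * j) = 0) : ∀ i ∈ I, l i = 0 := by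
  classical
  by_contra hcon
  push Not at hcon
  obtain ⟨i₁, hi₁, hl₁⟩ := hcon
  let A : Subring ℂ := (Int.castRingHom ℂ).range
  let P : Ideal A := (Ideal.span {(p : ℤ)}).map (Int.castRingHom ℂ).rangeRestrict
  have hP : P ≠ ⊤ := by
    intro h
    have h1 : (1 : A) ∈ P := by rw [h]; trivial
    rw [Ideal.mem_map_iff_of_surjective _ (Int.castRingHom ℂ).rangeRestrict_surjective] at h1
    obtain ⟨x, hx, hx1⟩ := h1
    have h2 : (x : ℂ) = 1 := congrArg Subtype.val hx1
    have h3 : x = 1 := by exact_mod_cast h2
    rw [h3, Ideal.mem_span_singleton] at hx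
    have h4 : p ∣ 1 := by exact_mod_cast hx
    exact hp.one_lt.ne' (Nat.dvd_one.mp h4)
  obtain ⟨O, -, hN⟩ := Ideal.image_subset_nonunits_valuationSubring P hP
  have hpN : (p : ℂ) ∈ O.nonunits := by
    apply hN
    refine ⟨(Int.castRingHom ℂ).rangeRestrict p,
      Ideal.mem_map_of_mem _ (Ideal.mem_span_singleton_self _), ?_⟩
    simp
  set red := IsLocalRing.residue O with hred
  have hp0 : ((p : ℕ) : IsLocalRing.ResidueField O) = 0 := by
    rw [← map_natCast red, hred, IsLocalRing.residue_eq_zero_iff,
      ← ValuationSubring.coe_mem_nonunits_iff]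
    simpa using hpN
  have : Fact p.Prime := ⟨hp⟩
  have : CharP (IsLocalRing.ResidueField O) p := (CharP.charP_iff_prime_eq_zero hp).mpr hp0
  have hωO : ω ∈ O := by
    rcases O.mem_or_inv_mem ω with h | h
    · exact h
    · have h1 : ω = (ω⁻¹) ^ (p - 1) := by
        have h2 : ω ≠ 0 := hω.ne_zero hp.ne_zero
        have h3 : ω ^ (p - 1) * ω = 1 := by
          rw [← pow_succ, Nat.sub_add_cancel hp.one_le, hω.pow_eq_one]
        rw [inv_pow]
        exact (eq_inv_of_mul_eq_one_right h3)
      rw [h1]
      exact O.pow_mem h _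
  let w : O := ⟨ω, hωO⟩
  have hw1 : red w = 1 := by
    have h1 : w ^ p = 1 := Subtype.ext (by simpa [w] using hω.pow_eq_one)
    have h2 : (red w - 1) ^ p = 0 := by
      rw [sub_pow_char, ← map_pow, h1, map_one, one_pow, sub_self]
    exact sub_eq_zero.mp (pow_eq_zero_iff hp.ne_zero |>.mp h2)
  obtain ⟨i₀, h0, hdiv⟩ := exists_div_mem O (fun i : I => l i) (by
    intro h
    exact hl₁ (congrFun h ⟨i₁, hi₁⟩))
  let c : I → O := fun i => ⟨l i / l i₀, hdiv i⟩
  let g : O[X] := ∑ i : I, monomial (i : ℕ) (c i)
  have hgc : ∀ n, g.coeff n = if h : n ∈ I then c ⟨n, h⟩ else 0 := by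
    intro n
    simp only [g, finsetSum_coeff, coeff_monomial]
    split_ifs with h
    · rw [Finset.sum_eq_single (⟨n, h⟩ : I)]
      · simp
      · intro b _ hb
        rw [if_neg]
        intro h1
        exact hb (Subtype.ext h1)
      · simp
    · refine Finset.sum_eq_zero fun b _ => ?_
      rw [if_neg]
      intro h1
      exact h (h1 ▸ b.2)
  have hg1 : g.coeff i₀ = 1 := by
    rw [hgc, dif_pos i₀.2]
    apply Subtype.ext
    simp [c, div_self h0]
  have hg0 : g ≠ 0 := by
    intro h
    rw [h, coeff_zero] at hg1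
    exact zero_ne_one hg1
  have hroot : ∀ j ∈ J, g.IsRoot (w ^ j) := by
    intro j hj
    rw [IsRoot.def]
    apply Subtype.ext
    have h1 : ((g.eval (w ^ j) : O) : ℂ) = ∑ i : I, l i / l i₀ * ω ^ ((i : ℕ) * j) := by
      change O.subtype _ = _
      simp only [g, eval_finsetSum, eval_monomial, map_sum, map_mul, map_pow]
      refine Finset.sum_congr rfl fun i _ => ?_
      rw [← pow_mul, mul_comm j]
      rfl
    rw [h1]
    have h2 := hl j hj
    rw [← Finset.sum_coe_sort I] at h2
    have h3 : ∑ i : I, l i / l i₀ * ω ^ ((i : ℕ) * j) =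
        (l i₀)⁻¹ * ∑ i : I, l i * ω ^ ((i : ℕ) * j) := by
      rw [Finset.mul_sum]
      refine Finset.sum_congr rfl fun i _ => by ring
    rw [h3, h2, mul_zero]
    rfl
  have hinj : Set.InjOn (fun j => w ^ j) J := by
    intro j hj j' hj' h
    have h1 : ω ^ j = ω ^ j' := by
      have := congrArg Subtype.val h
      simpa [w] using this
    exact hω.pow_inj (hJ j hj) (hJ j' hj') h1
  have hdvd : ((J.val.map fun j => w ^ j).map fun a => X - C a).prod ∣ g := by
    rw [Multiset.prod_X_sub_C_dvd_iff_le_roots hg0, Multiset.le_iff_subset]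
    · intro a ha
      rw [Multiset.mem_map] at ha
      obtain ⟨j, hj, rfl⟩ := ha
      exact (mem_roots hg0).mpr (hroot j hj)
    · exact (Multiset.nodup_map_iff_inj_on J.nodup).mpr fun j hj j' hj' h => hinj hj hj' h
  have hdvd2 := Polynomial.map_dvd red hdvd
  rw [Polynomial.map_multiset_prod, Multiset.map_map, Multiset.map_map] at hdvd2
  have h5 : (J.val.map (((Polynomial.map red) ∘ fun a => X - C a) ∘ fun j => w ^ j)) =
      J.val.map (fun _ => (X - C 1 : (IsLocalRing.ResidueField O)[X])) := by
    refine Multiset.map_congr rfl fun j _ => ?_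
    simp [hw1]
  rw [h5, Multiset.map_const', Multiset.prod_replicate] at hdvd2
  have hg0' : g.map red ≠ 0 := by
    intro h
    have := congrArg (fun f => Polynomial.coeff f i₀) h
    simp [hg1] at this
  have hsub : (g.map red).support ⊆ I := by
    intro n hn
    rw [mem_support_iff, coeff_map, hgc] at hn
    by_contra h
    rw [dif_neg h, map_zero] at hn
    exact hn rfl
  have hdeg : (g.map red).natDegree < p := hI _ (hsub (natDegree_mem_support_of_nonzero hg0'))
  have h6 := lt_card_support p _ _ hg0' hdeg hdvd2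
  have h7 := Finset.card_le_card hsub
  have h8 : Multiset.card J.val = J.card := rfl
  omega

end Pool.Agent.Lib.MP_595dc0_ag
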