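import Mathlib

set_option autoImplicit false

namespace Pool.Agent.Lib.MP_595dc0_ag

/-- Coordinates on `W_1 ⊗ ⋯ ⊗ W_N` with `W_i = ℂ ^ (w i)`: a tensor is a function `Idx w → ℂ`. -/
abbrev Idx {N : ℕ} (w : Fin N → ℕ) : Type := (i : Fin N) → Fin (w i)

/-- Decomposable tensors `v_1 ⊗ ⋯ ⊗ v_N`: the affine cone over the Segre variety. -/
def IsDecomposable {N : ℕ} (w : Fin N → ℕ) (T : Idx w → ℂ) : Prop :=
  ∃ v : (i : Fin N) → Fin (w i) → ℂ, ∀ x, T x = ∏ i, v i (x i)

/-- Tensors of rank at most `k`: sums of `k` decomposable tensors. -/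
def rankLE {N : ℕ} (w : Fin N → ℕ) (k : ℕ) : Set (Idx w → ℂ) :=
  {T | ∃ D : Fin k → Idx w → ℂ, (∀ j, IsDecomposable w (D j)) ∧ T = ∑ j, D j}

/-- The ideal `I(σ_k)` of the `k`-th secant variety of the Segre variety: all polynomials
vanishing on the tensors of rank at most `k` (equivalently, on their Zariski closure). -/
noncomputable def secantIdeal {N : ℕ} (w : Fin N → ℕ) (k : ℕ) :
    Ideal (MvPolynomial (Idx w) ℂ) :=
  MvPolynomial.vanishingIdeal ℂ (rankLE w k)

/-- The affine cone over `σ_k`: the Zariski closure of the tensors of rank at most `k`. -/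
def secantCone {N : ℕ} (w : Fin N → ℕ) (k : ℕ) : Set (Idx w → ℂ) :=
  MvPolynomial.zeroLocus ℂ (secantIdeal w k)

/-- `I` is generated by homogeneous polynomials of degree at most `d`. -/
def GeneratedInDegreeLE {σ : Type} (d : ℕ) (I : Ideal (MvPolynomial σ ℂ)) : Prop :=
  ∃ S : Set (MvPolynomial σ ℂ), (∀ f ∈ S, ∃ e ≤ d, f.IsHomogeneous e) ∧ Ideal.span S = I

end Pool.Agent.Lib.MP_595dc0_ag
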