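import Pool.Agent.Lib.MP_595dc0_ag.Carry

namespace Pool.Agent.Lib.MP_595dc0_ag

open Finset

/-- Codes of the columns. -/
def colSet (h : ℕ) : Finset (ℕ × ℕ) :=
  (range (2 * h) ×ˢ Ico 1 (2 * h)) ∪ ({(2 * h - 1, 0)} ∪ ({2 * h} ×ˢ (range (2 * h + 1)).erase h))

/-- Codes of the edges. -/
def edgeSet (h : ℕ) : Finset (ℕ × ℕ) :=
  (range (2 * h) ×ˢ range (2 * h)) ∪ ({2 * h} ×ˢ range (2 * h + 1))

theorem mem_colSet {h : ℕ} (hh : 4 ≤ h) (c : ℕ × ℕ) : c ∈ colSet h ↔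
    (c.1 < 2 * h ∧ c.2 < 2 * h ∧ (c.2 ≠ 0 ∨ c.1 + 1 = 2 * h)) ∨
      (c.1 = 2 * h ∧ c.2 ≤ 2 * h ∧ c.2 ≠ h) := by
  simp only [colSet, mem_union, mem_product, mem_range, mem_Ico, mem_singleton, mem_erase,
    Prod.ext_iff]
  omega

theorem mem_edgeSet {h : ℕ} (e : ℕ × ℕ) : e ∈ edgeSet h ↔
    (e.1 < 2 * h ∧ e.2 < 2 * h) ∨ (e.1 = 2 * h ∧ e.2 ≤ 2 * h) := by
  simp only [edgeSet, mem_union, mem_product, mem_range, mem_singleton]
  omega

theorem card_colSet {h : ℕ} (hh : 4 ≤ h) : (colSet h).card = (2 * h) ^ 2 + 1 := by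
  rw [colSet, card_union_of_disjoint, card_union_of_disjoint]
  · simp only [card_product, card_range, Nat.card_Ico, card_singleton]
    rw [card_erase_of_mem (by simp; omega), card_range]
    obtain ⟨m, hm⟩ : ∃ m, 2 * h = m + 1 := ⟨2 * h - 1, by omega⟩
    rw [hm]
    simp only [Nat.add_sub_cancel]
    ring
  · rw [disjoint_left]
    simp only [mem_product, mem_singleton, Prod.ext_iff]
    omega
  · rw [disjoint_left]
    simp only [mem_union, mem_product, mem_range, mem_Ico, mem_singleton, Prod.ext_iff]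
    omega

theorem disj_edgeSet (h : ℕ) :
    Disjoint (range (2 * h) ×ˢ range (2 * h)) ({2 * h} ×ˢ range (2 * h + 1)) := by
  rw [disjoint_left]
  simp only [mem_product, mem_range, mem_singleton]
  omega

theorem card_edgeSet (h : ℕ) : (edgeSet h).card = (2 * h) ^ 2 + 2 * h + 1 := by
  rw [edgeSet, card_union_of_disjoint (disj_edgeSet h)]
  simp only [card_product, card_range, card_singleton]
  ring

/-- The `j`-th vertex of the `t`-th cycle. -/
def node (h t j : ℕ) : ℕ × ℕ :=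
  if t < 2 * h then
    (if 1 ≤ j ∧ j < 2 * h then (t, j) else if t + 1 = 2 * h then (t, 0)
      else (t + 1, if j = 0 then 1 else 2))
  else (if j = h then (1, 4) else if j = 2 * h + 1 then (2 * h, 0) else (2 * h, j))

/-- Row of the first cell of an edge. -/
def xr (h : ℕ) (e : ℕ × ℕ) : ℕ :=
  if e.1 < 2 * h then (if e.1 % 2 = 0 then pp h e.1 + 1 else pp h e.1) else 2 * h

/-- Row of the second cell of an edge. -/
def yr (h : ℕ) (e : ℕ × ℕ) : ℕ :=
  if e.1 < 2 * h then (if e.1 % 2 = 0 then pp h e.1 else pp h e.1 + 1)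
  else (if e.2 = 2 * h then 1 else 0)

/-- Digits of the columns. -/
def bD (h : ℕ) (c : ℕ × ℕ) (w : ℕ) : ℤ :=
  if c.1 < 2 * h then fD c.1 c.2 w else fD 1 4 w + mD ((c.2 : ℤ) - h) w

theorem xr_spec (h : ℕ) (e : ℕ × ℕ) :
    (e.1 < 2 * h ∧ e.1 % 2 = 0 ∧ 2 * xr h e = e.1 + 2) ∨
    (e.1 < 2 * h ∧ e.1 % 2 = 1 ∧ 2 * xr h e + 1 = 2 * h + e.1) ∨
    (2 * h ≤ e.1 ∧ xr h e = 2 * h) := by
  unfold xr pp
  split_ifs <;> omega

theorem yr_spec (h : ℕ) (e : ℕ × ℕ) :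
    (e.1 < 2 * h ∧ e.1 % 2 = 0 ∧ 2 * yr h e = e.1) ∨
    (e.1 < 2 * h ∧ e.1 % 2 = 1 ∧ 2 * yr h e = 2 * h + e.1 + 1) ∨
    (2 * h ≤ e.1 ∧ e.2 = 2 * h ∧ yr h e = 1) ∨ (2 * h ≤ e.1 ∧ e.2 ≠ 2 * h ∧ yr h e = 0) := by
  unfold yr pp
  split_ifs <;> omega

theorem node_spec (h t j : ℕ) :
    (t < 2 * h ∧ 1 ≤ j ∧ j < 2 * h ∧ (node h t j).1 = t ∧ (node h t j).2 = j) ∨
    (t + 1 = 2 * h ∧ (j = 0 ∨ 2 * h ≤ j) ∧ (node h t j).1 = t ∧ (node h t j).2 = 0) ∨
    (t + 1 < 2 * h ∧ j = 0 ∧ (node h t j).1 = t + 1 ∧ (node h t j).2 = 1) ∨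
    (t + 1 < 2 * h ∧ 2 * h ≤ j ∧ (node h t j).1 = t + 1 ∧ (node h t j).2 = 2) ∨
    (2 * h ≤ t ∧ j = h ∧ (node h t j).1 = 1 ∧ (node h t j).2 = 4) ∨
    (2 * h ≤ t ∧ j ≠ h ∧ j = 2 * h + 1 ∧ (node h t j).1 = 2 * h ∧ (node h t j).2 = 0) ∨
    (2 * h ≤ t ∧ j ≠ h ∧ j ≠ 2 * h + 1 ∧ (node h t j).1 = 2 * h ∧ (node h t j).2 = j) := by
  unfold node
  split_ifs with h1 h2 h3 h4 h5 h6
  · exact Or.inl ⟨h1, h2.1, h2.2, rfl, rfl⟩
  · exact Or.inr (Or.inl ⟨h3, by omega, rfl, rfl⟩)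
  · exact Or.inr (Or.inr (Or.inl ⟨by omega, h4, rfl, rfl⟩))
  · exact Or.inr (Or.inr (Or.inr (Or.inl ⟨by omega, by omega, rfl, rfl⟩)))
  · exact Or.inr (Or.inr (Or.inr (Or.inr (Or.inl ⟨by omega, h5, rfl, rfl⟩))))
  · exact Or.inr (Or.inr (Or.inr (Or.inr (Or.inr (Or.inl ⟨by omega, h5, h6, rfl, rfl⟩)))))
  · exact Or.inr (Or.inr (Or.inr (Or.inr (Or.inr (Or.inr ⟨by omega, h5, h6, rfl, rfl⟩)))))

theorem xr_mem {h : ℕ} (e : ℕ × ℕ) : xr h e ∈ range (2 * h + 1) := by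
  have := xr_spec h e
  rw [mem_range]
  omega

theorem yr_mem {h : ℕ} (hh : 4 ≤ h) (e : ℕ × ℕ) : yr h e ∈ range (2 * h + 1) := by
  have := yr_spec h e
  rw [mem_range]
  omega

theorem node_mem {h : ℕ} (hh : 4 ≤ h) (t j : ℕ) (hj : j ≤ 2 * h + 1) : node h t j ∈ colSet h := by
  rw [mem_colSet hh]
  rcases node_spec h t j with h1 | h1 | h1 | h1 | h1 | h1 | h1 <;> omega

theorem inj_tail {h : ℕ} (hh : 4 ≤ h) {e e' : ℕ × ℕ} (he : e ∈ edgeSet h) (he' : e' ∈ edgeSet h)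
    (h1 : xr h e = xr h e') (h2 : node h e.1 e.2 = node h e'.1 e'.2) : e = e' := by
  rw [mem_edgeSet] at he he'
  rw [Prod.ext_iff] at h2 ⊢
  have s1 := xr_spec h e
  have s2 := xr_spec h e'
  rcases node_spec h e.1 e.2 with h3 | h3 | h3 | h3 | h3 | h3 | h3 <;>
    rcases node_spec h e'.1 e'.2 with h4 | h4 | h4 | h4 | h4 | h4 | h4 <;> omega

theorem inj_head {h : ℕ} (hh : 4 ≤ h) {e e' : ℕ × ℕ} (he : e ∈ edgeSet h) (he' : e' ∈ edgeSet h)
    (h1 : yr h e = yr h e') (h2 : node h e.1 (e.2 + 1) = node h e'.1 (e'.2 + 1)) : e = e' := by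
  rw [mem_edgeSet] at he he'
  rw [Prod.ext_iff] at h2 ⊢
  have s1 := yr_spec h e
  have s2 := yr_spec h e'
  rcases node_spec h e.1 (e.2 + 1) with h3 | h3 | h3 | h3 | h3 | h3 | h3 <;>
    rcases node_spec h e'.1 (e'.2 + 1) with h4 | h4 | h4 | h4 | h4 | h4 | h4 <;> omega

theorem tail_ne_head {h : ℕ} (hh : 4 ≤ h) {e e' : ℕ × ℕ} (h1 : xr h e = yr h e')
    (h2 : node h e.1 e.2 = node h e'.1 (e'.2 + 1)) : False := by
  rw [Prod.ext_iff] at h2
  have s1 := xr_spec h e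
  have s2 := yr_spec h e'
  rcases node_spec h e.1 e.2 with h3 | h3 | h3 | h3 | h3 | h3 | h3 <;>
    rcases node_spec h e'.1 (e'.2 + 1) with h4 | h4 | h4 | h4 | h4 | h4 | h4 <;> omega

theorem bD_F {h u : ℕ} (hu : u < 2 * h) (i w : ℕ) : bD h (u, i) w = fD u i w := by
  simp [bD, hu]

theorem bD_L {h : ℕ} (hh : 4 ≤ h) {j : ℕ} (hj : j ≤ 2 * h) (w : ℕ) :
    bD h (node h (2 * h) j) w = fD 1 4 w + mD ((j : ℤ) - h) w := by
  by_cases h1 : j = h
  · have h2 : node h (2 * h) j = (1, 4) := by simp [node, h1]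
    rw [h2, bD_F (by omega), h1]
    simp [mD]
  · have h2 : node h (2 * h) j = (2 * h, j) := by
      have : j ≠ 2 * h + 1 := by omega
      simp [node, h1, this]
    rw [h2]
    simp [bD]

theorem carry_edge {h : ℕ} (hh : 4 ≤ h) {e : ℕ × ℕ} (he : e ∈ edgeSet h) :
    Carry (2 * h) (fun w => aD h (xr h e) w + bD h (node h e.1 e.2) w -
      (aD h (yr h e) w + bD h (node h e.1 (e.2 + 1)) w)) := by
  obtain ⟨t, j⟩ := e
  rw [mem_edgeSet] at he
  dsimp only at he ⊢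
  rcases he with ⟨ht, hj⟩ | ⟨ht, hj⟩
  · have ha : ∀ w < 2 * h, aD h (xr h (t, j)) w - aD h (yr h (t, j)) w = if w = t then 1 else 0 := by
      intro w hw
      unfold aD xr yr pp
      dsimp only
      split_ifs <;> omega
    refine ⟨fun w => if j + 1 = 2 * h ∧ w = t + 1 then 1 else 0, by simp, fun w hw => ?_⟩
    have h1 := ha w hw
    have h2 : bD h (node h t j) w = fD (node h t j).1 (node h t j).2 w := by
      have h3 : (node h t j).1 < 2 * h := by
        rcases node_spec h t j with h3 | h3 | h3 | h3 | h3 | h3 | h3 <;> omega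
      exact bD_F h3 _ _
    have h3 : bD h (node h t (j + 1)) w = fD (node h t (j + 1)).1 (node h t (j + 1)).2 w := by
      have h3 : (node h t (j + 1)).1 < 2 * h := by
        rcases node_spec h t (j + 1) with h3 | h3 | h3 | h3 | h3 | h3 | h3 <;> omega
      exact bD_F h3 _ _
    have h4 : fD (node h t j).1 (node h t j).2 w = if t < w then (if t + 1 = 2 * h then 0 else 1)
        else if w = t then (j : ℤ) else 0 := by
      unfold fD
      rcases node_spec h t j with h3 | h3 | h3 | h3 | h3 | h3 | h3 <;> split_ifs <;> omega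
    have h5 : fD (node h t (j + 1)).1 (node h t (j + 1)).2 w =
        if t < w then (if j + 1 = 2 * h ∧ w = t + 1 then 2 else 1)
        else if w = t then (if j + 1 = 2 * h then 0 else (j : ℤ) + 1) else 0 := by
      unfold fD
      rcases node_spec h t (j + 1) with h3 | h3 | h3 | h3 | h3 | h3 | h3 <;> split_ifs <;> omega
    beta_reduce
    rw [h2, h3, h4, h5]
    split_ifs at h1 ⊢ <;> omega
  · subst ht
    by_cases hj2 : j = 2 * h
    · subst hj2
      have h1 : node h (2 * h) (2 * h + 1) = node h (2 * h) 0 := by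
        have : 2 * h + 1 ≠ h := by omega
        have : 0 ≠ h := by omega
        simp [node, *]
      refine ⟨fun w => if w = 0 then 0 else if w % 2 = 0 then -1 else 1, by simp, fun w hw => ?_⟩
      beta_reduce
      rw [h1, bD_L hh le_rfl, bD_L hh (Nat.zero_le _)]
      unfold aD xr yr pp mD
      dsimp only
      split_ifs <;> first | contradiction | omega
    · refine ⟨fun _ => 0, rfl, fun w hw => ?_⟩
      beta_reduce
      rw [bD_L hh hj, bD_L hh (by omega)]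
      unfold aD xr yr pp mD
      dsimp only
      split_ifs <;> omega

/-- The cell is the second cell of an edge. -/
def IsHead (h x : ℕ) (v : ℕ × ℕ) : Prop :=
  ∃ e ∈ edgeSet h, yr h e = x ∧ node h e.1 (e.2 + 1) = v

theorem isHead_F {h x u i : ℕ} (hu : u < 2 * h) (hi : i < 2 * h)
    (hx : (u % 2 = 0 ∧ x = pp h u) ∨ (u % 2 = 1 ∧ x = pp h u + 1)) {v : ℕ × ℕ}
    (hv : node h u (i + 1) = v) : IsHead h x v := by
  refine ⟨(u, i), (mem_edgeSet _).mpr (Or.inl ⟨hu, hi⟩), ?_, hv⟩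
  unfold yr
  dsimp only
  split_ifs <;> omega

theorem coin_LL {h x x' j j' : ℕ} (hh : 4 ≤ h) (hx : x ≤ 2 * h) (hx' : x' ≤ 2 * h)
    (hj : j ≤ 2 * h) (hj' : j' ≤ 2 * h)
    (H : Carry (2 * h) (fun w => aD h x w + bD h (node h (2 * h) j) w -
      (aD h x' w + bD h (node h (2 * h) j') w))) :
    (x = x' ∧ node h (2 * h) j = node h (2 * h) j') ∨ IsHead h x (node h (2 * h) j) ∨
      IsHead h x' (node h (2 * h) j') := by
  simp only [bD_L hh hj, bD_L hh hj'] at H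
  have h1 : node h (2 * h) (2 * h + 1) = node h (2 * h) 0 := by
    have : 2 * h + 1 ≠ h := by omega
    have : 0 ≠ h := by omega
    simp [node, *]
  rcases caseLL hh hx hx' (by omega) (by omega) (by omega) (by omega) H with
    h2 | h2 | h2 | h2 | h2
  · left
    exact ⟨h2.1, by rw [show j = j' by omega]⟩
  · right; right
    refine ⟨(2 * h, j), (mem_edgeSet _).mpr (Or.inr ⟨rfl, hj⟩), ?_, by rw [show j' = j + 1 by omega]⟩
    have := yr_spec h (2 * h, j)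
    dsimp only at this
    omega
  · right; left
    refine ⟨(2 * h, j'), (mem_edgeSet _).mpr (Or.inr ⟨rfl, hj'⟩), ?_,
      by rw [show j = j' + 1 by omega]⟩
    have := yr_spec h (2 * h, j')
    dsimp only at this
    omega
  · right; right
    refine ⟨(2 * h, 2 * h), (mem_edgeSet _).mpr (Or.inr ⟨rfl, le_rfl⟩), ?_,
      by rw [show j' = 0 by omega, ← h1]⟩
    simp [yr, h2.1]
  · right; left
    refine ⟨(2 * h, 2 * h), (mem_edgeSet _).mpr (Or.inr ⟨rfl, le_rfl⟩), ?_,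
      by rw [show j = 0 by omega, ← h1]⟩
    simp [yr, h2.1]

theorem coin_FF {h x x' u u' i i' : ℕ} (hh : 4 ≤ h) (hx : x ≤ 2 * h) (hx' : x' ≤ 2 * h)
    (hu : u < 2 * h) (huu : u' ≤ u) (hi : i < 2 * h) (hi' : i' < 2 * h)
    (hi0 : i ≠ 0 ∨ u + 1 = 2 * h) (hi0' : i' ≠ 0 ∨ u' + 1 = 2 * h)
    (H : Carry (2 * h) (fun w => aD h x w + bD h (u, i) w - (aD h x' w + bD h (u', i') w))) :
    (x = x' ∧ (u, i) = (u', i')) ∨ IsHead h x (u, i) ∨ IsHead h x' (u', i') := by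
  simp only [bD_F hu, bD_F (show u' < 2 * h by omega)] at H
  rcases huu.eq_or_lt with rfl | hlt
  · rcases caseFF1 hh hx hx' hu hi hi' hi0 hi0' H with h1 | ⟨h1, h2 | h2⟩ | ⟨h1, h2 | h2⟩
    · left
      exact ⟨h1.1, by rw [h1.2]⟩
    · right; right
      refine isHead_F hu hi h1 ?_
      have := node_spec h u' (i + 1)
      exact Prod.ext (by dsimp only; omega) (by dsimp only; omega)
    · right; right
      refine isHead_F hu (show 2 * h - 1 < 2 * h by omega) h1 ?_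
      have := node_spec h u' (2 * h - 1 + 1)
      exact Prod.ext (by dsimp only; omega) (by dsimp only; omega)
    · right; left
      refine isHead_F hu hi' h1 ?_
      have := node_spec h u' (i' + 1)
      exact Prod.ext (by dsimp only; omega) (by dsimp only; omega)
    · right; left
      refine isHead_F hu (show 2 * h - 1 < 2 * h by omega) h1 ?_
      have := node_spec h u' (2 * h - 1 + 1)
      exact Prod.ext (by dsimp only; omega) (by dsimp only; omega)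
  · obtain ⟨h0, h1 | h1⟩ := caseFF2 hh hx hx' hu hlt hi hi' (by omega) H
    · right; right
      refine isHead_F (show u' < 2 * h by omega) (show 0 < 2 * h by omega) h1.2 ?_
      have := node_spec h u' (0 + 1)
      exact Prod.ext (by dsimp only; omega) (by dsimp only; omega)
    · right; left
      refine isHead_F (show u' < 2 * h by omega) (show 2 * h - 1 < 2 * h by omega) h1.2 ?_
      have := node_spec h u' (2 * h - 1 + 1)
      exact Prod.ext (by dsimp only; omega) (by dsimp only; omega)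

theorem coin_LF {h x x' u' j i' : ℕ} (hh : 4 ≤ h) (hx : x ≤ 2 * h) (hx' : x' ≤ 2 * h)
    (hj : j ≤ 2 * h) (hjh : j ≠ h) (hu : u' < 2 * h) (hi' : i' < 2 * h)
    (H : Carry (2 * h) (fun w => aD h x w + bD h (node h (2 * h) j) w -
      (aD h x' w + bD h (u', i') w))) :
    (x = x' ∧ node h (2 * h) j = (u', i')) ∨ IsHead h x (node h (2 * h) j) ∨
      IsHead h x' (u', i') := by
  have H' := H
  simp only [bD_L hh hj, bD_F hu] at H'
  obtain ⟨rfl, rfl⟩ := caseLF hh hx hx' hi' (by omega) (by omega) (by omega) H'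
  have h1 : (1, 4) = node h (2 * h) h := by simp [node]
  rw [h1] at H ⊢
  exact coin_LL hh hx hx' hj (by omega) H

theorem coin {h x x' : ℕ} {v v' : ℕ × ℕ} (hh : 4 ≤ h) (hx : x ≤ 2 * h) (hx' : x' ≤ 2 * h)
    (hv : v ∈ colSet h) (hv' : v' ∈ colSet h)
    (H : Carry (2 * h) (fun w => aD h x w + bD h v w - (aD h x' w + bD h v' w))) :
    (x = x' ∧ v = v') ∨ IsHead h x v ∨ IsHead h x' v' := by
  have H' : Carry (2 * h) (fun w => aD h x' w + bD h v' w - (aD h x w + bD h v w)) :=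
    H.neg (fun w => by ring)
  have hL : ∀ j, j ≤ 2 * h → j ≠ h → (2 * h, j) = node h (2 * h) j := by
    intro j h1 h2
    have : j ≠ 2 * h + 1 := by omega
    simp [node, *]
  obtain ⟨u, i⟩ := v
  obtain ⟨u', i'⟩ := v'
  rw [mem_colSet hh] at hv hv'
  dsimp only at hv hv'
  rcases hv with ⟨h1, h2, h3⟩ | ⟨rfl, h2, h3⟩ <;> rcases hv' with ⟨h4, h5, h6⟩ | ⟨rfl, h5, h6⟩
  · rcases le_total u' u with h7 | h7
    · exact coin_FF hh hx hx' h1 h7 h2 h5 h3 h6 H
    · rcases coin_FF hh hx' hx h4 h7 h5 h2 h6 h3 H' with h8 | h8 | h8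
      · exact Or.inl ⟨h8.1.symm, h8.2.symm⟩
      · exact Or.inr (Or.inr h8)
      · exact Or.inr (Or.inl h8)
  · rw [hL i' h5 h6] at H' ⊢
    rcases coin_LF hh hx' hx h5 h6 h1 h2 H' with h8 | h8 | h8
    · exact Or.inl ⟨h8.1.symm, h8.2.symm⟩
    · exact Or.inr (Or.inr h8)
    · exact Or.inr (Or.inl h8)
  · rw [hL i h2 h3] at H ⊢
    exact coin_LF hh hx hx' h2 h3 h4 h5 H
  · rw [hL i h2 h3, hL i' h5 h6] at H ⊢
    exact coin_LL hh hx hx' h2 h5 H

theorem digit_bound {h : ℕ} (hh : 4 ≤ h) (x x' : ℕ) {v v' : ℕ × ℕ} (hv : v ∈ colSet h)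
    (hv' : v' ∈ colSet h) (w : ℕ) :
    -(2 * ((2 * h : ℕ) : ℤ) - 3) ≤ aD h x w + bD h v w - (aD h x' w + bD h v' w) ∧
      aD h x w + bD h v w - (aD h x' w + bD h v' w) ≤ 2 * ((2 * h : ℕ) : ℤ) - 3 := by
  have h1 := aD_bound h x x' w
  have h2 : ∀ v ∈ colSet h,
      (v.1 = 2 * h → fD 1 4 w - h ≤ bD h v w ∧ bD h v w ≤ fD 1 4 w + h) ∧
      (v.1 < 2 * h → 0 ≤ bD h v w ∧ bD h v w ≤ 2 * h - 1) := by
    intro v hv
    rw [mem_colSet hh] at hv
    unfold bD fD mD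
    split_ifs <;> omega
  have h3 := h2 v hv
  have h4 := h2 v' hv'
  have h5 : 0 ≤ fD 1 4 w ∧ fD 1 4 w ≤ 4 := by unfold fD; split_ifs <;> omega
  rw [mem_colSet hh] at hv hv'
  omega

end Pool.Agent.Lib.MP_595dc0_ag
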