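import Pool.Agent.Lib.MP_595dc0_ag.Branch

namespace Pool.Agent.Lib.MP_595dc0_ag

open MvPolynomial

theorem exists_rel {Z P : Type} [Fintype Z] [Fintype P] (s : Z → MvPolynomial P ℂ)
    (h : Fintype.card P < Fintype.card Z) : ∃ f : MvPolynomial Z ℂ, f ≠ 0 ∧ aeval s f = 0 := by
  by_contra hh
  push Not at hh
  have h1 : AlgebraicIndependent ℂ s := by
    rw [algebraicIndependent_iff]
    intro p hp
    by_contra hp0
    exact hh p hp0 hp
  have h2 := h1.lift_cardinalMk_le_trdeg
  rw [MvPolynomial.trdeg_of_isDomain] at h2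
  simp only [Cardinal.mk_fintype, Cardinal.lift_natCast, Nat.cast_le] at h2
  omega

theorem exists_vanishing {Row Col Cw : Type} [Fintype Row] [Fintype Col] [Fintype Cw]
    (u0 : Row) (v0 : Col) (k : ℕ)
    (h : k * (Fintype.card Row - 1 + (Fintype.card Col - 1 + Fintype.card Cw)) <
      Fintype.card Row * (Fintype.card Col * Fintype.card Cw)) :
    ∃ f : MvPolynomial (Row × Col × Cw) ℂ, f ≠ 0 ∧ ∀ T ∈ Sec (X3 Row Col Cw) k, eval T f = 0 := by
  classical
  let s : Row × Col × Cw → MvPolynomial (Fin k × ({u // u ≠ u0} ⊕ {v // v ≠ v0} ⊕ Cw)) ℂ :=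
    fun z => ∑ i, (if h : z.1 = u0 then 1 else X (i, Sum.inl ⟨z.1, h⟩)) *
      (if h : z.2.1 = v0 then 1 else X (i, Sum.inr (Sum.inl ⟨z.2.1, h⟩))) *
      X (i, Sum.inr (Sum.inr z.2.2))
  obtain ⟨f, hf0, hf⟩ := exists_rel s (by
    simpa [Fintype.card_subtype_compl] using h)
  refine ⟨f, hf0, ?_⟩
  have h1 : ∀ (a : Fin k → Row → ℂ) (b : Fin k → Col → ℂ) (c : Fin k → Cw → ℂ),
      (∀ i, a i u0 ≠ 0) → (∀ i, b i v0 ≠ 0) →
      eval (fun z => ∑ i, a i z.1 * b i z.2.1 * c i z.2.2) f = 0 := by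
    intro a b c ha hb
    let y : Fin k × ({u // u ≠ u0} ⊕ {v // v ≠ v0} ⊕ Cw) → ℂ := fun p =>
      Sum.elim (fun u => a p.1 u.1 / a p.1 u0) (Sum.elim (fun v => b p.1 v.1 / b p.1 v0)
        (fun w => a p.1 u0 * b p.1 v0 * c p.1 w)) p.2
    have h2 := eval_aeval_poly s f y
    rw [hf, map_zero] at h2
    rw [h2]
    congr 2
    funext z
    simp only [s, map_sum, map_mul, eval_X]
    refine Finset.sum_congr rfl fun i _ => ?_
    have h3 := ha i
    have h4 := hb i
    by_cases hz : z.1 = u0 <;> by_cases hz' : z.2.1 = v0 <;>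
      simp only [hz, hz', dif_pos, dif_neg, not_false_eq_true, map_one, eval_X, y, Sum.elim_inl,
        Sum.elim_inr] <;> field_simp
  rintro T ⟨x, hx, rfl⟩
  choose a b c habc using hx
  let Φ : ℂ → ℂ := fun t =>
    eval (fun z : Row × Col × Cw => ∑ i, (a i z.1 + t) * (b i z.2.1 + t) * c i z.2.2) f
  have hΦ : Continuous Φ := (MvPolynomial.continuous_eval f).comp (by fun_prop)
  have hfin : (Set.range (fun i => -a i u0) ∪ Set.range (fun i => -b i v0)).Countable :=
    ((Set.finite_range _).union (Set.finite_range _)).countable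
  have h2 : Φ = fun _ => 0 := by
    refine Continuous.ext_on (hfin.dense_compl ℂ) hΦ continuous_const fun t ht => ?_
    simp only [Set.mem_compl_iff, Set.mem_union, Set.mem_range, not_or, not_exists] at ht
    exact h1 (fun i u => a i u + t) (fun i v => b i v + t) c
      (fun i hi => ht.1 i (by linear_combination -hi)) (fun i hi => ht.2 i (by linear_combination -hi))
  have h3 := congrFun h2 0
  simp only [Φ, add_zero] at h3
  rw [← h3]
  congr 2
  funext z
  simp [habc]

end Pool.Agent.Lib.MP_595dc0_ag
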