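import Pool.Agent.Lib.MP_595dc0_ag.Hyper

namespace Pool.Agent.Lib.MP_595dc0_ag

open MvPolynomial

/-- Tensors of rank at most `k`, with factors indexed by a finite type. -/
def Rk {ι : Type} [Fintype ι] (w : ι → ℕ) (k : ℕ) : Set (((i : ι) → Fin (w i)) → ℂ) :=
  {T | ∃ x : Fin k → (i : ι) → Fin (w i) → ℂ, T = fun z => ∑ r, ∏ i, x r i (z i)}

/-- Some point outside the Zariski closure of `S` satisfies all equations of `S` of degree `< δ`. -/
def Hard {Z : Type} (S : Set (Z → ℂ)) (δ : ℕ) : Prop :=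
  ∃ T0 : Z → ℂ, (∃ f : MvPolynomial Z ℂ, (∀ T ∈ S, eval T f = 0) ∧ eval T0 f ≠ 0) ∧
    ∀ f : MvPolynomial Z ℂ, (∀ T ∈ S, eval T f = 0) → f.totalDegree < δ → eval T0 f = 0

theorem Hard.transport {Z Z' : Type} {S : Set (Z → ℂ)} {S' : Set (Z' → ℂ)} {δ : ℕ}
    (h : Hard S δ) (e : Z → Z') (e' : Z' → Z) (he : ∀ z, e' (e z) = z)
    (h1 : ∀ T' ∈ S', T' ∘ e ∈ S) (h2 : ∀ T ∈ S, T ∘ e' ∈ S') : Hard S' δ := by
  obtain ⟨T0, ⟨f, hf, hf0⟩, hT⟩ := h
  refine ⟨T0 ∘ e', ⟨rename e f, fun T hT => ?_, ?_⟩, fun f' hf' hd => ?_⟩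
  · rw [eval_rename]; exact hf _ (h1 T hT)
  · rw [eval_rename]
    have : (T0 ∘ e') ∘ e = T0 := funext fun z => congrArg T0 (he z)
    rwa [this]
  · rw [← eval_rename]
    refine hT _ (fun T hT => ?_) ((totalDegree_rename_le _ _).trans_lt hd)
    rw [eval_rename]; exact hf' _ (h2 T hT)

theorem scaled_mem_Rk {ι : Type} [Fintype ι] [Nonempty ι] (w : ι → ℕ) (k : ℕ) (l : Fin k → ℂ)
    (x : Fin k → (i : ι) → Fin (w i) → ℂ) :
    (fun z : (i : ι) → Fin (w i) => ∑ r, l r * ∏ i, x r i (z i)) ∈ Rk w k := by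
  classical
  obtain ⟨i0⟩ := ‹Nonempty ι›
  refine ⟨fun r i ε => (if i = i0 then l r else 1) * x r i ε, ?_⟩
  funext z
  simp only [Finset.prod_mul_distrib, Finset.prod_ite_eq', Finset.mem_univ, if_true]

theorem vanish_ext {ι : Type} [Fintype ι] [Nonempty ι] (w : ι → ℕ) (k : ℕ)
    (f : MvPolynomial ((i : ι) → Fin (w i)) ℂ) (hf : ∀ T ∈ Rk w k, eval T f = 0)
    {K : Type} [CommRing K] [Algebra ℂ K] (l : Fin k → K)
    (x : Fin k → (i : ι) → Fin (w i) → K) :
    aeval (fun z : (i : ι) → Fin (w i) => ∑ r, l r * ∏ i, x r i (z i)) f = 0 := by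
  let s : ((i : ι) → Fin (w i)) → MvPolynomial (Fin k × Option (Σ i, Fin (w i))) ℂ :=
    fun z => ∑ r, X (r, none) * ∏ i, X (r, some ⟨i, z i⟩)
  have h1 : aeval s f = 0 := by
    apply MvPolynomial.funext
    intro y
    rw [eval_aeval_poly, map_zero]
    simp only [s, map_sum, map_mul, map_prod, eval_X]
    exact hf _ (scaled_mem_Rk w k (fun r => y (r, none)) (fun r i ε => y (r, some ⟨i, ε⟩)))
  let y : Fin k × Option (Σ i, Fin (w i)) → K := fun p =>
    p.2.elim (l p.1) (fun q => x p.1 q.1 q.2)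
  have h2 := congrArg (aeval y) h1
  rw [map_zero, ← AlgHom.comp_apply, comp_aeval] at h2
  simpa [s, y] using h2

theorem val_aeval {K Γ Z : Type} [Field K] [Algebra ℂ K] [LinearOrderedCommGroupWithZero Γ]
    (v : Valuation K Γ) (hc : ∀ c : ℂ, v (algebraMap ℂ K c) ≤ 1) (a : Z → K) (b : Z → ℂ)
    (hab : ∀ z, v (a z - algebraMap ℂ K (b z)) < 1) (f : MvPolynomial Z ℂ) :
    v (aeval a f - algebraMap ℂ K (eval b f)) < 1 := by
  induction f using MvPolynomial.induction_on with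
  | C c => simp
  | add p q hp hq =>
    rw [map_add, map_add, map_add, add_sub_add_comm]
    exact v.map_add_lt hp hq
  | mul_X p i hp =>
    rw [map_mul, map_mul, map_mul, aeval_X, eval_X]
    have h1 : aeval a p * a i - algebraMap ℂ K (eval b p) * algebraMap ℂ K (b i) =
        (aeval a p - algebraMap ℂ K (eval b p)) * (a i - algebraMap ℂ K (b i)) +
        ((aeval a p - algebraMap ℂ K (eval b p)) * algebraMap ℂ K (b i) +
          algebraMap ℂ K (eval b p) * (a i - algebraMap ℂ K (b i))) := by ring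
    rw [h1]
    refine v.map_add_lt ?_ (v.map_add_lt ?_ ?_)
    · rw [map_mul]; exact mul_lt_one_of_lt_of_le hp (hab i).le
    · rw [map_mul]; exact mul_lt_one_of_lt_of_le hp (hc _)
    · rw [map_mul, mul_comm]; exact mul_lt_one_of_lt_of_le (hab i) (hc _)

theorem exists_kill {K Γ : Type} [Field K] [LinearOrderedCommGroupWithZero Γ]
    (v : Valuation K Γ) (y : Fin 2 → K) :
    ∃ φ : Fin 2 → K, (∀ ε, v (φ ε) ≤ 1) ∧ ∑ ε, φ ε * y ε = 0 ∧ (φ 0 = 1 ∨ φ 1 = 1) := by
  rcases le_total (v (y 0)) (v (y 1)) with h | h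
  · by_cases h1 : y 1 = 0
    · refine ⟨![0, 1], fun ε => ?_, by simp [h1], Or.inr rfl⟩
      fin_cases ε <;> simp
    · refine ⟨![1, -(y 0 / y 1)], fun ε => ?_, by simp; field_simp; ring, Or.inl rfl⟩
      fin_cases ε
      · simp
      · simpa using div_le_one_of_le₀ h zero_le
  · by_cases h1 : y 0 = 0
    · refine ⟨![1, 0], fun ε => ?_, by simp [h1], Or.inl rfl⟩
      fin_cases ε <;> simp
    · refine ⟨![-(y 1 / y 0), 1], fun ε => ?_, by simp; field_simp; ring, Or.inr rfl⟩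
      fin_cases ε
      · simpa using div_le_one_of_le₀ h zero_le
      · simp

theorem val_contract {K Γ Z : Type} [Field K] [LinearOrderedCommGroupWithZero Γ] [Nonempty Z]
    (v : Valuation K Γ) {k : ℕ} (hk : 0 < k) (a : Fin (k + 1) → Z → K)
    (y : Fin (k + 1) → Fin (k + 1) → Fin 2 → K) (T0 : Z → K) (hT : ∀ z, v (T0 z) ≤ 1)
    (h : ∀ z (ε : Fin (k + 1) → Fin 2), v (∑ r, a r z * ∏ l, y r l (ε l) -
      (T0 z * ∏ l, (![1, 0] : Fin 2 → K) (ε l) + ∏ l, (![0, 1] : Fin 2 → K) (ε l))) < 1) :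
    ∃ (l : Fin (k + 1)) (c : Fin (k + 1) → K), c l = 0 ∧ ∀ z, v (∑ r, c r * a r z - T0 z) < 1 := by
  classical
  have key : ∀ ψ : Fin (k + 1) → Fin 2 → K, (∀ l ε, v (ψ l ε) ≤ 1) → ∀ z,
      v (∑ r, (∏ l, ∑ ε, ψ l ε * y r l ε) * a r z - (T0 z * ∏ l, ψ l 0 + ∏ l, ψ l 1)) < 1 := by
    intro ψ hψ z
    have h0 : ∀ l, ψ l 0 = ∑ ε, ψ l ε * (![1, 0] : Fin 2 → K) ε := fun l => by simp
    have h1 : ∀ l, ψ l 1 = ∑ ε, ψ l ε * (![0, 1] : Fin 2 → K) ε := fun l => by simp
    have h2 : ∑ r, (∏ l, ∑ ε, ψ l ε * y r l ε) * a r z - (T0 z * ∏ l, ψ l 0 + ∏ l, ψ l 1) =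
        ∑ ε : Fin (k + 1) → Fin 2, (∏ l, ψ l (ε l)) * (∑ r, a r z * ∏ l, y r l (ε l) -
          (T0 z * ∏ l, (![1, 0] : Fin 2 → K) (ε l) + ∏ l, (![0, 1] : Fin 2 → K) (ε l))) := by
      rw [Finset.prod_congr rfl fun l _ => h0 l, Finset.prod_congr rfl fun l _ => h1 l]
      simp only [Finset.prod_univ_sum, Fintype.piFinset_univ, Finset.prod_mul_distrib,
        Finset.sum_mul, Finset.mul_sum, mul_sub, mul_add, Finset.sum_sub_distrib,
        Finset.sum_add_distrib]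
      rw [Finset.sum_comm]
      congr 1
      · exact Finset.sum_congr rfl fun _ _ => Finset.sum_congr rfl fun _ _ => by ring
      · congr 1
        exact Finset.sum_congr rfl fun _ _ => by ring
    rw [h2]
    refine v.map_sum_lt one_ne_zero fun ε _ => ?_
    rw [map_mul, mul_comm, map_prod]
    exact mul_lt_one_of_lt_of_le (h z ε) (Finset.prod_le_one' fun l _ => hψ l _)
  choose φ hφ1 hφ2 hφ3 using fun l => exists_kill v (y l l)
  by_cases hA : ∃ l, ¬ v (φ l 0) < 1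
  · obtain ⟨l, hl⟩ := hA
    have hl1 : v (φ l 0) = 1 := le_antisymm (hφ1 l 0) (not_lt.mp hl)
    have hl0 : φ l 0 ≠ 0 := by
      intro h0
      rw [h0, map_zero] at hl1
      exact zero_ne_one hl1
    let ψ : Fin (k + 1) → Fin 2 → K := fun l' => if l' = l then φ l else ![1, 0]
    have hψ : ∀ l' ε, v (ψ l' ε) ≤ 1 := by
      intro l' ε
      by_cases hh : l' = l
      · simp only [ψ, hh, if_true]; exact hφ1 l ε
      · simp only [ψ, hh, if_false]; fin_cases ε <;> simp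
    have hψ0 : ∏ l', ψ l' 0 = φ l 0 := by
      rw [Finset.prod_eq_single l]
      · simp [ψ]
      · intro l' _ hh; simp [ψ, hh]
      · simp
    have hψ1 : ∏ l', ψ l' 1 = 0 := by
      have : Nontrivial (Fin (k + 1)) := Fin.nontrivial_iff_two_le.mpr (by omega)
      obtain ⟨l', hh⟩ := exists_ne l
      exact Finset.prod_eq_zero (Finset.mem_univ l') (by simp [ψ, hh])
    refine ⟨l, fun r => (φ l 0)⁻¹ * ∏ l', ∑ ε, ψ l' ε * y r l' ε, ?_, fun z => ?_⟩
    · exact mul_eq_zero_of_right _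
        (Finset.prod_eq_zero (Finset.mem_univ l) (by simpa [ψ] using hφ2 l))
    · have h3 := key ψ hψ z
      rw [hψ0, hψ1] at h3
      have h4 : ∑ r, ((φ l 0)⁻¹ * ∏ l', ∑ ε, ψ l' ε * y r l' ε) * a r z - T0 z =
          (φ l 0)⁻¹ * (∑ r, (∏ l', ∑ ε, ψ l' ε * y r l' ε) * a r z - (T0 z * φ l 0 + 0)) := by
        simp only [mul_assoc, ← Finset.mul_sum]
        field_simp
        ring
      rw [h4, map_mul, map_inv₀, hl1, inv_one, one_mul]
      exact h3
  · exfalso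
    push Not at hA
    obtain ⟨z⟩ := ‹Nonempty Z›
    have h3 := key φ hφ1 z
    have h4 : ∀ l, φ l 1 = 1 := fun l => (hφ3 l).resolve_left fun h0 => by
      have := hA l
      rw [h0, map_one] at this
      exact lt_irrefl _ this
    have h5 : ∀ r, ∏ l, ∑ ε, φ l ε * y r l ε = 0 := fun r =>
      Finset.prod_eq_zero (Finset.mem_univ r) (hφ2 r)
    simp only [h4, h5, zero_mul, Finset.sum_const_zero, Finset.prod_const_one, zero_sub,
      Valuation.map_neg] at h3
    have h6 : v (T0 z * ∏ l, φ l 0) < 1 := by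
      rw [map_mul, mul_comm, map_prod, Fin.prod_univ_succ, mul_assoc]
      exact mul_lt_one_of_lt_of_le (hA 0)
        (mul_le_one' (Finset.prod_le_one' fun l _ => hφ1 _ _) (hT z))
    have h7 := v.map_sub_lt h3 h6
    simp at h7

theorem exists_val {Z P : Type} (s : Z → MvPolynomial P ℂ) (T1 : Z → ℂ)
    (h : ∀ f : MvPolynomial Z ℂ, aeval s f = 0 → eval T1 f = 0) :
    ∃ V : ValuationSubring (FractionRing (MvPolynomial P ℂ)),
      (∀ c : ℂ, V.valuation (algebraMap ℂ _ c) ≤ 1) ∧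
      ∀ z, V.valuation (algebraMap _ _ (s z) - algebraMap ℂ _ (T1 z)) < 1 := by
  let K := FractionRing (MvPolynomial P ℂ)
  let ψ : MvPolynomial Z ℂ →+* K := (algebraMap (MvPolynomial P ℂ) K).comp (aeval s).toRingHom
  let I : Ideal ψ.range := (RingHom.ker (eval T1)).map ψ.rangeRestrict
  have hI : I ≠ ⊤ := by
    rw [Ne, Ideal.eq_top_iff_one, Ideal.mem_map_iff_of_surjective _ ψ.rangeRestrict_surjective]
    rintro ⟨g, hg, hg1⟩
    have h1 : ψ (g - 1) = 0 := by
      rw [map_sub, map_one, sub_eq_zero]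
      exact congrArg Subtype.val hg1
    have h2 : aeval s (g - 1) = 0 :=
      (IsFractionRing.injective (MvPolynomial P ℂ) K) (by rw [map_zero]; exact h1)
    have h3 := h _ h2
    rw [map_sub, map_one, (RingHom.mem_ker).mp hg] at h3
    simp at h3
  obtain ⟨V, hV1, hV2⟩ := Ideal.image_subset_nonunits_valuationSubring I hI
  have hC : ∀ c : ℂ, ψ (C c) = algebraMap ℂ K c := fun c => by
    simp only [ψ, RingHom.comp_apply, AlgHom.toRingHom_eq_coe, AlgHom.coe_toRingHom, aeval_C]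
    exact (IsScalarTower.algebraMap_apply ℂ (MvPolynomial P ℂ) K c).symm
  refine ⟨V, fun c => ?_, fun z => ?_⟩
  · rw [V.valuation_le_one_iff, ← hC]
    exact hV1 ⟨_, rfl⟩
  · rw [← V.mem_nonunits_iff]
    apply hV2
    refine ⟨ψ.rangeRestrict (X z - C (T1 z)), Ideal.mem_map_of_mem _ (by simp [RingHom.mem_ker]), ?_⟩
    show ψ (X z - C (T1 z)) = _
    rw [map_sub, hC]
    simp [ψ, K]

theorem Hard.step {ι : Type} [Fintype ι] [Nonempty ι] (w : ι → ℕ) (hw : ∀ i, 0 < w i) {k δ : ℕ}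
    (hk : 0 < k) (h : Hard (Rk w k) δ) :
    Hard (Rk (Sum.elim w (fun _ : Fin (k + 1) => 2)) (k + 1)) δ := by
  classical
  obtain ⟨T0, ⟨f, hf, hf0⟩, hT⟩ := h
  let w' : ι ⊕ Fin (k + 1) → ℕ := Sum.elim w (fun _ : Fin (k + 1) => 2)
  let pL : ((i : ι ⊕ Fin (k + 1)) → Fin (w' i)) → (i : ι) → Fin (w i) := fun z i => z (Sum.inl i)
  let pR : ((i : ι ⊕ Fin (k + 1)) → Fin (w' i)) → Fin (k + 1) → Fin 2 := fun z l => z (Sum.inr l)
  let emb : (((i : ι) → Fin (w i)) → ℂ) → ((i : ι ⊕ Fin (k + 1)) → Fin (w' i)) → ℂ := fun T z =>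
    T (pL z) * ∏ l, (![1, 0] : Fin 2 → ℂ) (pR z l) + ∏ l, (![0, 1] : Fin 2 → ℂ) (pR z l)
  refine ⟨emb T0, ?_, fun f' hf' hd => ?_⟩
  · by_contra hh
    push Not at hh
    let s : ((i : ι ⊕ Fin (k + 1)) → Fin (w' i)) →
        MvPolynomial (Fin (k + 1) × Σ i, Fin (w' i)) ℂ := fun z => ∑ r, ∏ i, X (r, ⟨i, z i⟩)
    obtain ⟨V, hV1, hV2⟩ := exists_val s (emb T0) (fun g hg => hh g (by
      rintro T ⟨x, rfl⟩
      have h1 := eval_aeval_poly s g (fun p => x p.1 p.2.1 p.2.2)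
      rw [hg, map_zero] at h1
      simpa [s] using h1.symm))
    let K := FractionRing (MvPolynomial (Fin (k + 1) × Σ i, Fin (w' i)) ℂ)
    let x : Fin (k + 1) → (i : ι ⊕ Fin (k + 1)) → Fin (w' i) → K := fun r i ε =>
      algebraMap (MvPolynomial (Fin (k + 1) × Σ i, Fin (w' i)) ℂ) K (X (r, ⟨i, ε⟩))
    have : Nonempty ((i : ι) → Fin (w i)) := ⟨fun i => ⟨0, hw i⟩⟩
    obtain ⟨l, c, hc, hz⟩ := val_contract V.valuation hk
      (fun r (z : (i : ι) → Fin (w i)) => ∏ i, x r (Sum.inl i) (z i))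
      (fun r l ε => x r (Sum.inr l) ε) (fun z => algebraMap ℂ K (T0 z)) (fun z => hV1 _)
      (fun z ε => by
        have h1 := hV2 (fun i => match i with | Sum.inl i => z i | Sum.inr l => ε l)
        have h2 : ∀ a : Fin 2, algebraMap ℂ K ((![1, 0] : Fin 2 → ℂ) a) = (![1, 0] : Fin 2 → K) a :=
          fun a => by fin_cases a <;> simp
        have h3 : ∀ a : Fin 2, algebraMap ℂ K ((![0, 1] : Fin 2 → ℂ) a) = (![0, 1] : Fin 2 → K) a :=
          fun a => by fin_cases a <;> simp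
        simp only [s, emb, map_sum, map_prod, map_add, map_mul, Fintype.prod_sum_type] at h1
        simp only [← h2, ← h3]
        exact h1)
    have h1 := val_aeval V.valuation hV1 _ T0 hz f
    have h2 := vanish_ext w k f hf (fun r => c (l.succAbove r))
      (fun r i ε => x (l.succAbove r) (Sum.inl i) ε)
    simp only [Fin.sum_univ_succAbove _ l, hc, zero_mul, zero_add] at h1
    rw [h2, zero_sub, Valuation.map_neg] at h1
    have h3 := hV1 (eval T0 f)⁻¹
    have h4 := mul_lt_one_of_lt_of_le h1 h3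
    rw [← map_mul, ← map_mul, mul_inv_cancel₀ hf0, map_one, map_one] at h4
    exact lt_irrefl _ h4
  · let s : ((i : ι ⊕ Fin (k + 1)) → Fin (w' i)) → MvPolynomial ((i : ι) → Fin (w i)) ℂ := fun z =>
      C (∏ l, (![1, 0] : Fin 2 → ℂ) (pR z l)) * X (pL z) + C (∏ l, (![0, 1] : Fin 2 → ℂ) (pR z l))
    have hs : ∀ T, eval T (aeval s f') = eval (emb T) f' := by
      intro T
      rw [eval_aeval_poly]
      congr 2
      funext z
      simp only [s, emb, map_add, map_mul, eval_C, eval_X]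
      ring
    rw [← hs]
    refine hT _ ?_ ((totalDegree_aeval_le s (fun z => ?_) f').trans_lt hd)
    · rintro T ⟨x, rfl⟩
      rw [hs]
      apply hf'
      refine ⟨Fin.cons (fun i => match i with | Sum.inl _ => fun _ => 1 | Sum.inr _ => ![0, 1])
        (fun r i => match i with | Sum.inl i => x r i | Sum.inr _ => ![1, 0]), ?_⟩
      funext z
      simp only [emb, Fin.sum_univ_succ, Fin.cons_zero, Fin.cons_succ, Fintype.prod_sum_type,
        Finset.prod_const_one, one_mul, Finset.sum_mul]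
      rw [add_comm]
    · refine (totalDegree_add _ _).trans (max_le ?_ (by rw [totalDegree_C]; omega))
      refine (totalDegree_mul _ _).trans ?_
      rw [totalDegree_C, totalDegree_X]

end Pool.Agent.Lib.MP_595dc0_ag
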