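import Pool.Agent.Lib.MP_595dc0_ag.Defs
import Pool.Agent.Lib.MP_595dc0_ag.Step
import Pool.Agent.Lib.MP_595dc0_ag.Proper

namespace Pool.Agent.Lib.MP_595dc0_ag

open MvPolynomial

/-- Some Segre format is `δ`-hard for rank `k`. -/
def HardRank (k δ : ℕ) : Prop :=
  ∃ (ι : Type) (_ : Fintype ι) (_ : Nonempty ι) (w : ι → ℕ), (∀ i, 0 < w i) ∧ Hard (Rk w k) δ

theorem hardRank_of_X3 {Row Col Cw : Type} [Fintype Row] [Fintype Col] [Fintype Cw]
    [Nonempty Row] [Nonempty Col] [Nonempty Cw] {k δ : ℕ} (h : Hard (Sec (X3 Row Col Cw) k) δ) :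
    HardRank k δ := by
  classical
  let w : Option Bool → ℕ := fun i => match i with
    | none => Fintype.card Row
    | some true => Fintype.card Col
    | some false => Fintype.card Cw
  let eR := Fintype.equivFin Row
  let eC := Fintype.equivFin Col
  let eW := Fintype.equivFin Cw
  refine ⟨Option Bool, inferInstance, inferInstance, w, ?_, h.transport
    (fun z i => match i with
      | none => eR z.1
      | some true => eC z.2.1
      | some false => eW z.2.2)
    (fun z => (eR.symm (z none), eC.symm (z (some true)), eW.symm (z (some false)))) ?_ ?_ ?_⟩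
  · rintro (_ | _ | _) <;> exact Fintype.card_pos
  · intro z
    simp
  · rintro _ ⟨x, rfl⟩
    refine ⟨fun r z => x r none (eR z.1) * x r (some true) (eC z.2.1) * x r (some false) (eW z.2.2),
      fun r => ⟨fun u => x r none (eR u), fun v => x r (some true) (eC v),
        fun c => x r (some false) (eW c), rfl⟩, ?_⟩
    funext z
    simp [Fintype.prod_option, mul_assoc]
  · rintro _ ⟨x, hx, rfl⟩
    choose a b c habc using hx
    refine ⟨fun r i => match i with
      | none => fun u => a r (eR.symm u)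
      | some true => fun v => b r (eC.symm v)
      | some false => fun u => c r (eW.symm u), ?_⟩
    funext z
    simp [habc, Fintype.prod_option, mul_assoc]

theorem HardRank.succ {k δ : ℕ} (hk : 0 < k) (h : HardRank k δ) : HardRank (k + 1) δ := by
  obtain ⟨ι, _, _, w, hw, h⟩ := h
  refine ⟨ι ⊕ Fin (k + 1), inferInstance, inferInstance, _, ?_, h.step w hw hk⟩
  rintro (i | i)
  · exact hw i
  · exact two_pos

theorem HardRank.mono {k k' δ : ℕ} (hk : 0 < k) (hkk : k ≤ k') (h : HardRank k δ) :
    HardRank k' δ := by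
  induction k', hkk using Nat.le_induction with
  | base => exact h
  | succ m hm ih => exact ih.succ (by omega)

theorem HardRank.final {k δ : ℕ} (h : HardRank k δ) :
    ∃ (n : ℕ) (w : Fin n → ℕ), 0 < n ∧ (∀ i, 0 < w i) ∧
      (∃ T : Idx w → ℂ, T ∉ secantCone w k ∧
        ∀ f ∈ secantIdeal w k, f.totalDegree < δ → eval T f = 0) ∧
      ∀ d < δ, ¬ GeneratedInDegreeLE d (secantIdeal w k) := by
  obtain ⟨ι, _, _, w, hw, h⟩ := h
  let e := Fintype.equivFin ι
  have h1 : Hard (rankLE (fun j => w (e.symm j)) k) δ := by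
    refine h.transport (Equiv.piCongrLeft' (fun i => Fin (w i)) e)
      (Equiv.piCongrLeft' (fun i => Fin (w i)) e).symm (Equiv.symm_apply_apply _) ?_ ?_
    · rintro _ ⟨D, hD, rfl⟩
      choose x hx using hD
      refine ⟨fun r => (Equiv.piCongrLeft' (fun i => Fin (w i) → ℂ) e).symm (x r), ?_⟩
      funext z
      rw [Function.comp_apply, Finset.sum_apply]
      refine Finset.sum_congr rfl fun r _ => ?_
      rw [hx, ← e.symm.prod_comp]
      refine Finset.prod_congr rfl fun j _ => ?_
      beta_reduce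
      rw [Equiv.piCongrLeft'_symm_apply_apply]
      rfl
    · rintro _ ⟨x, rfl⟩
      refine ⟨fun r z => ∏ j, x r (e.symm j) (z j), fun r => ⟨fun j => x r (e.symm j),
        fun z => rfl⟩, ?_⟩
      funext z
      rw [Function.comp_apply, Finset.sum_apply]
      refine Finset.sum_congr rfl fun r _ => ?_
      rw [← e.symm.prod_comp]
      refine Finset.prod_congr rfl fun j _ => ?_
      rw [Equiv.piCongrLeft'_symm_apply_apply]
  obtain ⟨T0, ⟨f, hf, hf0⟩, hT⟩ := h1
  have h2 : T0 ∉ secantCone (fun j => w (e.symm j)) k := fun h2 => hf0 (by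
    rw [← aeval_eq_eval]
    exact h2 f (fun T hT' => by rw [aeval_eq_eval]; exact hf T hT'))
  have h3 : ∀ f ∈ secantIdeal (fun j => w (e.symm j)) k, f.totalDegree < δ → eval T0 f = 0 :=
    fun g hg hd => hT g (fun T hT' => by rw [← aeval_eq_eval]; exact hg T hT') hd
  refine ⟨_, fun j => w (e.symm j), Fintype.card_pos, fun j => hw _, ⟨T0, h2, h3⟩, ?_⟩
  rintro d hd ⟨S, hS, hS'⟩
  apply h2
  rw [secantCone, ← hS', zeroLocus_span]
  intro g hg
  obtain ⟨m, hm, hgm⟩ := hS g hg
  rw [aeval_eq_eval]
  exact h3 g (hS' ▸ Ideal.subset_span hg) ((hgm.totalDegree_le.trans hm).trans_lt hd)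

end Pool.Agent.Lib.MP_595dc0_ag
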