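import Pool.Agent.Lib.MP_595dc0_ag.Design
import Pool.Agent.Lib.MP_595dc0_ag.Branch2
import Pool.Agent.Lib.MP_595dc0_ag.Format

namespace Pool.Agent.Lib.MP_595dc0_ag

open Finset

theorem node_zero {h t : ℕ} (hh : 4 ≤ h) (ht : t + 1 < 2 * h) :
    node h t 0 = node h (t + 1) 1 ∧ node h t (2 * h) = node h (t + 1) 2 := by
  have h1 := node_spec h t 0
  have h2 := node_spec h (t + 1) 1
  have h3 := node_spec h t (2 * h)
  have h4 := node_spec h (t + 1) 2
  exact ⟨Prod.ext (by clear h3 h4; omega) (by clear h3 h4; omega),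
    Prod.ext (by clear h1 h2; omega) (by clear h1 h2; omega)⟩

theorem node_top {h t : ℕ} (ht : t + 1 = 2 * h) : node h t (2 * h) = node h t 0 := by
  have h1 := node_spec h t 0
  have h3 := node_spec h t (2 * h)
  exact Prod.ext (by omega) (by omega)

theorem node_last {h : ℕ} (hh : 4 ≤ h) : node h (2 * h) (2 * h + 1) = node h (2 * h) 0 := by
  have : 2 * h + 1 ≠ h := by omega
  have : 0 ≠ h := by omega
  simp [node, *]

theorem rigid {h : ℕ} (hh : 4 ≤ h) (φ : ℕ → ℂ) (ψ : ℕ × ℕ → ℂ)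
    (H : ∀ e ∈ edgeSet h, φ (xr h e) + ψ (node h e.1 e.2) =
      φ (yr h e) + ψ (node h e.1 (e.2 + 1))) :
    (∀ u ≤ 2 * h, φ u = φ 0) ∧ ∀ v ∈ colSet h, ψ v = ψ (2 * h - 1, 0) := by
  let η : ℕ → ℂ := fun t => φ (xr h (t, 0)) - φ (yr h (t, 0))
  have h1 : ∀ t < 2 * h, ∀ j ≤ 2 * h, ψ (node h t j) = ψ (node h t 0) + j * η t := by
    intro t ht j hj
    induction j with
    | zero => simp
    | succ j ih =>
      have h2 := H (t, j) ((mem_edgeSet _).mpr (Or.inl ⟨ht, hj⟩))
      have h3 : xr h (t, j) = xr h (t, 0) := rfl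
      have h4 : yr h (t, j) = yr h (t, 0) := by simp [yr, ht]
      rw [h3, h4, ih (by omega)] at h2
      push_cast
      simp only [η] at h2 ⊢
      linear_combination -h2
  have hn : ((2 * h : ℕ) : ℂ) ≠ 0 := by exact_mod_cast (by omega : 2 * h ≠ 0)
  have h2 : ∀ s, ∀ t, t + s + 1 = 2 * h → η t = 0 ∧ ψ (node h t 0) = ψ (2 * h - 1, 0) := by
    intro s
    induction s with
    | zero =>
      intro t ht
      have h3 := h1 t (by omega) (2 * h) le_rfl
      rw [node_top (by omega)] at h3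
      refine ⟨(mul_eq_zero.mp (by linear_combination -h3)).resolve_left hn, ?_⟩
      have h4 := node_spec h t 0
      exact congrArg ψ (Prod.ext (by dsimp only; omega) (by dsimp only; omega))
    | succ s ih =>
      intro t ht
      have h3 := h1 t (by omega) (2 * h) le_rfl
      have h4 := ih (t + 1) (by omega)
      have h5 := h1 (t + 1) (by omega) 1 (by omega)
      have h6 := h1 (t + 1) (by omega) 2 (by omega)
      have h7 := node_zero hh (show t + 1 < 2 * h by omega)
      rw [h4.1, mul_zero, add_zero] at h5 h6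
      rw [h7.1, h7.2, h5, h6] at h3
      refine ⟨(mul_eq_zero.mp (by linear_combination -h3)).resolve_left hn, ?_⟩
      rw [h7.1, h5, h4.2]
  have h3 : ∀ t < 2 * h, ∀ j ≤ 2 * h, ψ (node h t j) = ψ (2 * h - 1, 0) := by
    intro t ht j hj
    have h4 := h2 (2 * h - 1 - t) t (by omega)
    rw [h1 t ht j hj, h4.1, h4.2, mul_zero, add_zero]
  have h4 : ∀ u ≤ 2 * h, φ u = φ 0 := by
    intro u hu
    induction u with
    | zero => rfl
    | succ u ih =>
      have h5 := pp_lev (h := h) (x := u) hu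
      have h6 := (h2 (2 * h - 1 - lev h u) (lev h u) (by omega)).1
      simp only [η, xr, yr, h5.1, h5.2, if_true] at h6
      rw [← ih (by omega)]
      split_ifs at h6
      · exact sub_eq_zero.mp h6
      · exact (sub_eq_zero.mp h6).symm
  have h5 : ∀ j ≤ 2 * h, ψ (node h (2 * h) j) = ψ (node h (2 * h) 0) := by
    intro j hj
    induction j with
    | zero => rfl
    | succ j ih =>
      have h6 := H (2 * h, j) ((mem_edgeSet _).mpr (Or.inr ⟨rfl, by omega⟩))
      rw [h4 _ (Nat.le_of_lt_succ (mem_range.mp (xr_mem _))),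
        h4 _ (Nat.le_of_lt_succ (mem_range.mp (yr_mem hh _)))] at h6
      rw [← ih (by omega)]
      exact (add_left_cancel h6).symm
  have h6 : ψ (node h (2 * h) 0) = ψ (2 * h - 1, 0) := by
    rw [← h5 h (by omega), ← h3 1 (by omega) 4 (by omega)]
    have h7 := node_spec h (2 * h) h
    have h8 := node_spec h 1 4
    exact congrArg ψ (Prod.ext (by omega) (by omega))
  refine ⟨h4, fun v hv => ?_⟩
  rw [mem_colSet hh] at hv
  have h7 := node_spec h v.1 v.2
  have h8 : v = node h v.1 v.2 := Prod.ext (by omega) (by omega)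
  rw [h8]
  rcases hv with h9 | h9
  · exact h3 _ h9.1 _ h9.2.1.le
  · rw [h9.1, h5 _ h9.2.1, h6]

/-- Coefficients of the linear relation among the edges. -/
def y0 (h : ℕ) (e : ℕ × ℕ) : ℂ :=
  if e.1 < 2 * h then (-1) ^ e.1 * (1 + if 1 ≤ e.1 ∧ e.2 = 1 then 1 else 0) else -1

theorem y0_ne (h : ℕ) (e : ℕ × ℕ) : y0 h e ≠ 0 := by
  unfold y0
  split_ifs <;> norm_num

theorem relation {h : ℕ} (hh : 4 ≤ h) (φ : ℕ → ℂ) (ψ : ℕ × ℕ → ℂ) :
    ∑ e ∈ edgeSet h, y0 h e * (φ (xr h e) + ψ (node h e.1 e.2) -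
      (φ (yr h e) + ψ (node h e.1 (e.2 + 1)))) = 0 := by
  rw [edgeSet, sum_union (disj_edgeSet h), sum_product, sum_product, sum_singleton]
  let η : ℕ → ℂ := fun t => φ (pp h t + 1) - φ (pp h t)
  let Δ : ℕ → ℂ := fun t => if 1 ≤ t ∧ t < 2 * h then
    (-1) ^ t * (ψ (node h t 1) - ψ (node h t 2)) else 0
  have h1 : ∀ t ∈ range (2 * h), ∑ j ∈ range (2 * h), y0 h (t, j) *
      (φ (xr h (t, j)) + ψ (node h (t, j).1 (t, j).2) -
        (φ (yr h (t, j)) + ψ (node h (t, j).1 ((t, j).2 + 1)))) =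
      ((2 * h : ℕ) + 1) * η t - (if t = 0 then η t else 0) + (Δ t - Δ (t + 1)) := by
    intro t ht
    rw [mem_range] at ht
    have h2 : ∀ j, (-1) ^ t * (φ (xr h (t, j)) - φ (yr h (t, j))) = η t := by
      intro j
      simp only [xr, yr, ht, if_true, η]
      split_ifs with h3
      · rw [(Nat.even_iff.mpr h3).neg_one_pow, one_mul]
      · rw [(Nat.odd_iff.mpr (by omega)).neg_one_pow]; ring
    have h3 : ∀ j, y0 h (t, j) * (φ (xr h (t, j)) + ψ (node h (t, j).1 (t, j).2) -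
        (φ (yr h (t, j)) + ψ (node h (t, j).1 ((t, j).2 + 1)))) =
        η t + (-1) ^ t * (ψ (node h t j) - ψ (node h t (j + 1))) +
          if j = 1 then (if t = 0 then 0 else η t + Δ t) else 0 := by
      intro j
      simp only [y0, ht, if_true, Δ, and_true]
      rw [← h2 j]
      by_cases h4 : j = 1
      · subst h4
        by_cases h5 : t = 0
        · subst h5; simp; ring
        · have h6 : 1 ≤ t := by omega
          simp only [h5, h6, and_self, if_true, if_false]
          ring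
      · simp only [h4, and_false, if_false]
        ring
    simp only [h3, sum_add_distrib, ← mul_sum, sum_range_sub', sum_const, card_range,
      sum_ite_eq', mem_range, show 1 < 2 * h by omega, if_true, nsmul_eq_mul]
    have h4 : (-1) ^ t * (ψ (node h t 0) - ψ (node h t (2 * h))) = -Δ (t + 1) := by
      by_cases h5 : t + 1 < 2 * h
      · have h6 := node_zero hh h5
        simp only [Δ, h5, h6.1, h6.2, Nat.le_add_left, and_self, if_true]
        ring
      · simp only [Δ, h5, and_false, if_false]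
        rw [node_top (by omega)]
        ring
    rw [h4]
    by_cases h5 : t = 0
    · have h6 : Δ t = 0 := by simp [Δ, h5]
      simp only [h5, if_true] at h6 ⊢
      rw [h6]; ring
    · simp only [h5, if_false]; ring
  have h2 : ∑ t ∈ range (2 * h), η t = φ (2 * h) - φ 0 := by
    rw [← sum_range_sub φ]
    refine sum_nbij' (pp h) (lev h) ?_ ?_ ?_ ?_ ?_
    · intro a ha; exact mem_range.mpr (lev_pp (mem_range.mp ha)).2
    · intro a ha; exact mem_range.mpr (pp_lev (mem_range.mp ha)).2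
    · intro a ha; exact (lev_pp (mem_range.mp ha)).1
    · intro a ha; exact (pp_lev (mem_range.mp ha)).1
    · intro a _; rfl
  have h3 : ∀ j ∈ range (2 * h + 1), y0 h (2 * h, j) *
      (φ (xr h (2 * h, j)) + ψ (node h (2 * h, j).1 (2 * h, j).2) -
        (φ (yr h (2 * h, j)) + ψ (node h (2 * h, j).1 ((2 * h, j).2 + 1)))) =
      φ 0 - φ (2 * h) + (ψ (node h (2 * h) (j + 1)) - ψ (node h (2 * h) j)) +
        if j = 2 * h then φ 1 - φ 0 else 0 := by
    intro j _
    simp only [y0, xr, yr, lt_irrefl, if_false]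
    split_ifs <;> ring
  rw [sum_congr rfl h1, sum_congr rfl h3]
  have h4 : Δ 0 = 0 := by simp [Δ]
  have h5 : Δ (2 * h) = 0 := by simp [Δ]
  have h6 : η 0 = φ 1 - φ 0 := by simp [η, pp]
  simp only [sum_add_distrib, sum_range_sub', sum_const, card_range, sum_ite_eq',
    mem_range, show 2 * h < 2 * h + 1 by omega, if_true, nsmul_eq_mul,
    sum_range_sub (fun j => ψ (node h (2 * h) j)), node_last hh, h4, h5]
  rw [sum_sub_distrib, ← mul_sum, h2, sum_ite_eq']
  simp only [mem_range, show 0 < 2 * h by omega, if_true, h6]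
  push_cast
  ring

theorem val_comb (n : ℕ) (a b c d : ℕ → ℤ) :
    val n (fun w => a w + b w - (c w + d w)) = val n a + val n b - (val n c + val n d) := by
  simp only [val, sub_mul, add_mul, sum_sub_distrib, sum_add_distrib]

theorem zpow_eq_iff {ζ : ℂ} {q : ℕ} (hζ : IsPrimitiveRoot ζ q) (hq : q ≠ 0) (a b c d : ℤ) :
    ζ ^ a * ζ ^ b = ζ ^ c * ζ ^ d ↔ (q : ℤ) ∣ a + b - (c + d) := by
  have h0 := hζ.ne_zero hq
  rw [← hζ.zpow_eq_one_iff_dvd, zpow_sub₀ h0, ← zpow_add₀ h0, ← zpow_add₀ h0,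
    div_eq_one_iff_eq (zpow_ne_zero _ h0)]

theorem exists_design {h : ℕ} (hh : 4 ≤ h) :
    ∃ (A : range (2 * h + 1) → ℂ) (B : colSet h → ℂ)
      (cp cm : edgeSet h → range (2 * h + 1) × colSet h) (y : edgeSet h → ℂ),
      IsDesign ((2 * h) ^ (2 * h)) A B cp cm y := by
  classical
  have hq : (2 * h) ^ (2 * h) ≠ 0 := pow_ne_zero _ (by omega)
  have hζ := Complex.isPrimitiveRoot_exp _ hq
  generalize Complex.exp _ = ζ at hζ
  have hle : ∀ e : edgeSet h, e.1.2 ≤ 2 * h := fun e => by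
    have := (mem_edgeSet _).mp e.2; omega
  have hpow : ∀ a : ℤ, (ζ ^ a) ^ (2 * h) ^ (2 * h) = 1 := fun a => by
    rw [← zpow_natCast, ← zpow_mul, mul_comm, zpow_mul, zpow_natCast, hζ.pow_eq_one, one_zpow]
  refine ⟨fun u => ζ ^ val (2 * h) (aD h u), fun v => ζ ^ val (2 * h) (bD h v),
    fun e => (⟨xr h e, xr_mem _⟩, ⟨node h e.1.1 e.1.2, node_mem hh _ _ ((hle e).trans (by omega))⟩),
    fun e => (⟨yr h e, yr_mem hh _⟩,
      ⟨node h e.1.1 (e.1.2 + 1), node_mem hh _ _ (Nat.succ_le_succ (hle e))⟩),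
    fun e => y0 h e, fun u => hpow _, fun v => hpow _, fun e => ?_, fun z z' hz => ?_,
    fun e e' he => ?_, fun e e' he => ?_, fun e e' he => ?_, fun φ ψ H => ?_,
    fun e => y0_ne _ _, fun φ ψ => ?_, ?_⟩
  · rw [zpow_eq_iff hζ hq, ← val_comb]
    exact (carry_edge hh e.2).dvd
  · rw [zpow_eq_iff hζ hq, ← val_comb] at hz
    have h1 := carry_of_dvd (by omega) (fun w _ => digit_bound hh _ _ z.2.2 z'.2.2 w) hz
    rcases coin hh (Nat.le_of_lt_succ (mem_range.mp z.1.2))
      (Nat.le_of_lt_succ (mem_range.mp z'.1.2)) z.2.2 z'.2.2 h1 with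
      h2 | ⟨e, he, h2, h3⟩ | ⟨e, he, h2, h3⟩
    · exact Or.inl (Prod.ext (Subtype.ext h2.1) (Subtype.ext h2.2))
    · exact Or.inr (Or.inl ⟨⟨e, he⟩, Prod.ext (Subtype.ext h2) (Subtype.ext h3)⟩)
    · exact Or.inr (Or.inr ⟨⟨e, he⟩, Prod.ext (Subtype.ext h2) (Subtype.ext h3)⟩)
  · exact Subtype.ext (inj_tail hh e.2 e'.2 (congrArg (fun z => z.1.1) he)
      (congrArg (fun z => z.2.1) he))
  · exact Subtype.ext (inj_head hh e.2 e'.2 (congrArg (fun z => z.1.1) he)
      (congrArg (fun z => z.2.1) he))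
  · exact tail_ne_head hh (congrArg (fun z => z.1.1) he) (congrArg (fun z => z.2.1) he)
  · let φ' : ℕ → ℂ := fun u => if hu : u ∈ range (2 * h + 1) then φ ⟨u, hu⟩ else 0
    let ψ' : ℕ × ℕ → ℂ := fun v => if hv : v ∈ colSet h then ψ ⟨v, hv⟩ else 0
    have hφ : ∀ u : range (2 * h + 1), φ u = φ' u := fun u => by simp only [φ', u.2, dif_pos]
    have hψ : ∀ v : colSet h, ψ v = ψ' v := fun v => by simp only [ψ', v.2, dif_pos]
    have h1 := rigid hh φ' ψ' (fun e he => by
      have h2 := H ⟨e, he⟩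
      simp only [hφ, hψ] at h2
      exact h2)
    refine ⟨fun u u' => ?_, fun v v' => ?_⟩
    · rw [hφ, hφ, h1.1 _ (Nat.le_of_lt_succ (mem_range.mp u.2)),
        h1.1 _ (Nat.le_of_lt_succ (mem_range.mp u'.2))]
    · rw [hψ, hψ, h1.2 _ v.2, h1.2 _ v'.2]
  · let φ' : ℕ → ℂ := fun u => if hu : u ∈ range (2 * h + 1) then φ ⟨u, hu⟩ else 0
    let ψ' : ℕ × ℕ → ℂ := fun v => if hv : v ∈ colSet h then ψ ⟨v, hv⟩ else 0
    have hφ : ∀ u : range (2 * h + 1), φ u = φ' u := fun u => by simp only [φ', u.2, dif_pos]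
    have hψ : ∀ v : colSet h, ψ v = ψ' v := fun v => by simp only [ψ', v.2, dif_pos]
    rw [← relation hh φ' ψ', ← sum_coe_sort (edgeSet h)]
    simp only [hφ, hψ]
  · refine ⟨⟨(0, 2), (mem_edgeSet _).mpr (Or.inl ⟨by omega, by omega⟩)⟩,
      ⟨(0, 1), (mem_edgeSet _).mpr (Or.inl ⟨by omega, by omega⟩)⟩, ζ, hζ, ?_⟩
    have h1 : node h 0 2 = (0, 2) := by
      have := node_spec h 0 2
      exact Prod.ext (by dsimp only; omega) (by dsimp only; omega)
    have h2 : node h 0 1 = (0, 1) := by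
      have := node_spec h 0 1
      exact Prod.ext (by dsimp only; omega) (by dsimp only; omega)
    have h3 : val (2 * h) (bD h (0, 2)) = 1 + val (2 * h) (bD h (0, 1)) := by
      obtain ⟨m, hm⟩ : ∃ m, 2 * h = m + 1 := ⟨2 * h - 1, by omega⟩
      simp only [val, bD_F (show 0 < 2 * h by omega)]
      rw [hm, sum_range_succ', sum_range_succ']
      simp [fD]
      ring
    have h4 : xr h (0, 2) = xr h (0, 1) := rfl
    dsimp only
    rw [h1, h2, h3, h4, zpow_add₀ (hζ.ne_zero hq), zpow_one]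
    ring

end Pool.Agent.Lib.MP_595dc0_ag
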