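import Mathlib

set_option autoImplicit false

/-! Two abstract inequalities for symmetric involutions used in the Casimir bound. -/

namespace Pool.Agent.Lib.MP_595dc0_ag.Dk.DkCasAux

open Equiv Finset

variable {V : Type} [NormedAddCommGroup V] [InnerProductSpace ℂ V]

theorem norm_invol (s : Module.End ℂ V) (hs : s.IsSymmetric) (h2 : ∀ v, s (s v) = v) (v : V) :
    ‖s v‖ ^ 2 = ‖v‖ ^ 2 := by
  have h : inner ℂ (s v) (s v) = inner ℂ v v := by rw [hs, h2]
  rw [@norm_sq_eq_re_inner ℂ, @norm_sq_eq_re_inner ℂ, h]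

theorem two_re_inner (s : Module.End ℂ V) (hs : s.IsSymmetric) (h2 : ∀ v, s (s v) = v) (v : V) :
    2 * RCLike.re (inner ℂ (v - s v) v) = ‖v - s v‖ ^ 2 := by
  have h : inner ℂ (v - s v) (s v) = - inner ℂ (v - s v) v := by
    rw [← hs, map_sub, h2, ← inner_neg_left, neg_sub]
  rw [@norm_sq_eq_re_inner ℂ, inner_sub_right, h, map_sub, map_neg]
  ring

theorem par_invol (s : Module.End ℂ V) (hs : s.IsSymmetric) (h2 : ∀ v, s (s v) = v) (w : V) :
    ‖w + s w‖ ^ 2 + ‖w - s w‖ ^ 2 = 4 * ‖w‖ ^ 2 := by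
  have h := parallelogram_law_with_norm ℂ w (s w)
  have h' := norm_invol s hs h2 w
  nlinarith

section Upper

variable {ι : Type} [DecidableEq ι]

theorem a_comm (s : ι → Module.End ℂ V) (hc : ∀ z z' v, s z (s z' v) = s z' (s z v))
    (a : Finset ι → Module.End ℂ V) (a0 : ∀ v, a ∅ v = v)
    (a1 : ∀ z Y, z ∉ Y → ∀ v, a (insert z Y) v = a Y (v - s z v)) (z : ι) (Y : Finset ι) :
    ∀ v, a Y (s z v) = s z (a Y v) := by
  induction Y using Finset.induction_on with
  | empty => intro v; rw [a0, a0]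
  | insert z' Y hz ih =>
    intro v
    rw [a1 z' Y hz, a1 z' Y hz, ← ih, map_sub (s z), hc z z']

theorem a_symm (s : ι → Module.End ℂ V) (hs : ∀ z, (s z).IsSymmetric)
    (hc : ∀ z z' v, s z (s z' v) = s z' (s z v))
    (a : Finset ι → Module.End ℂ V) (a0 : ∀ v, a ∅ v = v)
    (a1 : ∀ z Y, z ∉ Y → ∀ v, a (insert z Y) v = a Y (v - s z v)) (Y : Finset ι) :
    (a Y).IsSymmetric := by
  induction Y using Finset.induction_on with
  | empty => intro u v; rw [a0, a0]
  | insert z Y hz ih =>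
    intro u v
    rw [a1 z Y hz, a1 z Y hz, ih, inner_sub_left, hs, map_sub, a_comm s hc a a0 a1,
      inner_sub_right]

theorem a_mem (s : ι → Module.End ℂ V) (a : Finset ι → Module.End ℂ V) (a0 : ∀ v, a ∅ v = v)
    (a1 : ∀ z Y, z ∉ Y → ∀ v, a (insert z Y) v = a Y (v - s z v)) (K : Submodule ℂ V)
    (Y : Finset ι) (hK : ∀ z ∈ Y, ∀ v ∈ K, s z v ∈ K) : ∀ v ∈ K, a Y v ∈ K := by
  induction Y using Finset.induction_on with
  | empty => intro v hv; rwa [a0]
  | insert z Y hz ih =>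
    intro v hv
    rw [a1 z Y hz]
    exact ih (fun z' hz' => hK z' (mem_insert_of_mem hz')) _
      (K.sub_mem hv (hK z (mem_insert_self _ _) v hv))

theorem upper (s : ι → Module.End ℂ V) (hs : ∀ z, (s z).IsSymmetric)
    (h2 : ∀ z v, s z (s z v) = v) (hc : ∀ z z' v, s z (s z' v) = s z' (s z v))
    (a : Finset ι → Module.End ℂ V) (a0 : ∀ v, a ∅ v = v)
    (a1 : ∀ z Y, z ∉ Y → ∀ v, a (insert z Y) v = a Y (v - s z v)) (Y0 : Finset ι) :
    ∀ (ν : ℕ) (v : V), (∀ Y ⊆ Y0, Y.card = ν → a Y v = 0) →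
      ∑ z ∈ Y0, ‖v - s z v‖ ^ 2 ≤ 4 * ν * ‖v‖ ^ 2 := by
  induction Y0 using Finset.induction_on with
  | empty => intro ν v _; rw [sum_empty]; positivity
  | insert z Y1 hz ih =>
    intro ν v hv
    rcases ν with _ | ν
    · have h0 : v = 0 := by rw [← a0 v]; exact hv ∅ (empty_subset _) rfl
      subst h0
      simp
    · have hp := ih (ν + 1) (v + s z v) fun Y hY hc' => by
        rw [map_add, a_comm s hc a a0 a1, hv Y (hY.trans (subset_insert _ _)) hc', map_zero,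
          add_zero]
      have hq := ih ν (v - s z v) fun Y hY hc' => by
        have hzY : z ∉ Y := fun h => hz (hY h)
        rw [← a1 z Y hzY]
        exact hv _ (insert_subset_insert _ hY) (by rw [card_insert_of_notMem hzY, hc'])
      have hsum : ∑ z' ∈ Y1, ‖(v + s z v) - s z' (v + s z v)‖ ^ 2 +
          ∑ z' ∈ Y1, ‖(v - s z v) - s z' (v - s z v)‖ ^ 2 =
          4 * ∑ z' ∈ Y1, ‖v - s z' v‖ ^ 2 := by
        rw [← sum_add_distrib, mul_sum]
        refine sum_congr rfl fun z' _ => ?_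
        rw [← par_invol (s z) (hs z) (h2 z) (v - s z' v)]
        have e1 : v + s z v - s z' (v + s z v) = v - s z' v + s z (v - s z' v) := by
          rw [map_add, map_sub, hc z z']; abel
        have e2 : v - s z v - s z' (v - s z v) = v - s z' v - s z (v - s z' v) := by
          rw [map_sub, map_sub, hc z z']; abel
        rw [e1, e2]
      have hpar := par_invol (s z) (hs z) (h2 z) v
      rw [sum_insert hz]
      push_cast at hp ⊢
      have : (0 : ℝ) ≤ ν := Nat.cast_nonneg _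
      nlinarith

end Upper

section Lower

variable {R : Type} [DecidableEq R]

/-- `w` is fixed by all transpositions of elements of `D`. -/
def Inv (σ : Perm R →* Module.End ℂ V) (D : Finset R) (w : V) : Prop :=
  ∀ a ∈ D, ∀ b ∈ D, σ (swap a b) w = w

omit [DecidableEq R] in
theorem sig_mul (σ : Perm R →* Module.End ℂ V) (g h : Perm R) (w : V) :
    σ g (σ h w) = σ (g * h) w := by rw [map_mul]; rfl

theorem sig_swap_swap (σ : Perm R →* Module.End ℂ V) (a b : R) (w : V) :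
    σ (swap a b) (σ (swap a b) w) = w := by
  rw [sig_mul, swap_mul_self, map_one]; rfl

theorem inv_insert (σ : Perm R →* Module.End ℂ V) (D : Finset R) (r : R) (hr : r ∉ D) (w : V)
    (hw : Inv σ D w) : Inv σ (insert r D) (w + ∑ s ∈ D, σ (swap r s) w) := by
  have key : ∀ b ∈ D, σ (swap r b) (w + ∑ s ∈ D, σ (swap r s) w) =
      w + ∑ s ∈ D, σ (swap r s) w := by
    intro b hb
    rw [map_add, map_sum, ← add_sum_erase D _ hb, ← add_sum_erase D _ hb, sig_swap_swap]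
    have : ∑ s ∈ D.erase b, σ (swap r b) (σ (swap r s) w) = ∑ s ∈ D.erase b, σ (swap r s) w := by
      refine sum_congr rfl fun s hs => ?_
      have hsb : s ≠ b := ne_of_mem_erase hs
      have hsD : s ∈ D := mem_of_mem_erase hs
      have hrb : r ≠ b := fun h => hr (h ▸ hb)
      have e : swap r b * swap r s = swap r s * swap s b := by
        have := swap_apply_apply (swap r s) s b
        rw [swap_apply_right, swap_apply_of_ne_of_ne hrb.symm hsb.symm, swap_inv] at this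
        rw [this, mul_assoc, swap_mul_self, mul_one]
      rw [sig_mul, e, ← sig_mul, hw s hsD b hb]
    rw [this]
    abel
  intro a ha b hb
  rcases mem_insert.1 ha with ha | ha
  · rcases mem_insert.1 hb with hb | hb
    · rw [ha, hb, swap_self, show (Equiv.refl R : Perm R) = 1 from rfl, map_one]; rfl
    · rw [ha]; exact key b hb
  · rcases mem_insert.1 hb with hb | hb
    · rw [hb, swap_comm]; exact key a ha
    · rw [map_add, hw a ha b hb, map_sum]
      congr 1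
      have hra : r ≠ a := fun h => hr (h ▸ ha)
      have hrb : r ≠ b := fun h => hr (h ▸ hb)
      refine sum_bij' (fun s _ => swap a b s) (fun s _ => swap a b s) ?_ ?_ ?_ ?_ ?_
      · intro s hs
        rw [swap_apply_def]
        split_ifs
        exacts [hb, ha, hs]
      · intro s hs
        rw [swap_apply_def]
        split_ifs
        exacts [hb, ha, hs]
      · intro s _; simp
      · intro s _; simp
      · intro s _
        have := swap_apply_apply (swap a b) r s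
        rw [swap_apply_of_ne_of_ne hra hrb, swap_inv] at this
        rw [this, ← sig_mul, hw a ha b hb, sig_mul]

theorem exists_inv (σ : Perm R →* Module.End ℂ V) (F : Finset R) (E : Submodule ℂ V)
    (hE : ∀ r ∈ F, ∀ r' ∈ F, ∀ v ∈ E, σ (swap r r') v ∈ E) (ℓ : V →ₗ[ℂ] ℂ) (u : V) (hu : u ∈ E)
    (hℓ : ℓ u ≠ 0) (D : Finset R) :
    D ⊆ F → (∀ r ∈ D, ∀ s ∈ D, ∀ v, ℓ (σ (swap r s) v) = ℓ v) →
      ∃ w ∈ E, Inv σ D w ∧ ℓ w ≠ 0 := by
  induction D using Finset.induction_on with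
  | empty => intro _ _; exact ⟨u, hu, fun a ha => absurd ha (notMem_empty _), hℓ⟩
  | insert r D hr ih =>
    intro hF hD
    obtain ⟨w, hwE, hw, hℓw⟩ := ih ((subset_insert _ _).trans hF)
      fun a ha b hb => hD a (mem_insert_of_mem ha) b (mem_insert_of_mem hb)
    refine ⟨_, E.add_mem hwE (E.sum_mem fun s hs =>
      hE r (hF (mem_insert_self _ _)) s (hF (mem_insert_of_mem hs)) w hwE),
      inv_insert σ D r hr w hw, ?_⟩
    rw [map_add, map_sum, sum_congr rfl fun s hs =>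
      hD r (mem_insert_self _ _) s (mem_insert_of_mem hs) w, sum_const, nsmul_eq_mul]
    have h1 : (1 : ℂ) + D.card ≠ 0 := by exact_mod_cast (by omega : 1 + D.card ≠ 0)
    have : ℓ w + (D.card : ℂ) * ℓ w = (1 + D.card) * ℓ w := by ring
    rw [this]
    exact mul_ne_zero h1 hℓw

/-- The Casimir operator of the transpositions inside `F`. -/
noncomputable def Om (σ : Perm R →* Module.End ℂ V) (F : Finset R) : Module.End ℂ V :=
  ∑ p ∈ F.offDiag, (1 - σ (swap p.1 p.2))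

theorem Om_apply (σ : Perm R →* Module.End ℂ V) (F : Finset R) (v : V) :
    Om σ F v = ∑ p ∈ F.offDiag, (v - σ (swap p.1 p.2) v) := by
  unfold Om
  rw [LinearMap.sum_apply]
  rfl

theorem Om_comm (σ : Perm R →* Module.End ℂ V) (F : Finset R) (a b : R) (ha : a ∈ F) (hb : b ∈ F)
    (v : V) : Om σ F (σ (swap a b) v) = σ (swap a b) (Om σ F v) := by
  rw [Om_apply, Om_apply, map_sum]
  have hm : ∀ s ∈ F, swap a b s ∈ F := fun s hs => by
    rw [swap_apply_def]
    split_ifs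
    exacts [hb, ha, hs]
  have hm2 : ∀ p ∈ F.offDiag, (swap a b p.1, swap a b p.2) ∈ F.offDiag := fun p hp => by
    rw [mem_offDiag] at hp ⊢
    exact ⟨hm _ hp.1, hm _ hp.2.1, fun h => hp.2.2 ((swap a b).injective h)⟩
  symm
  refine sum_bij' (fun p _ => (swap a b p.1, swap a b p.2))
    (fun p _ => (swap a b p.1, swap a b p.2)) hm2 hm2 ?_ ?_ ?_
  · intro p _; simp
  · intro p _; simp
  · intro p _
    rw [map_sub, swap_apply_apply, sig_mul, sig_mul, mul_assoc, inv_mul_cancel, mul_one]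

theorem lower [FiniteDimensional ℂ V] (σ : Perm R →* Module.End ℂ V)
    (hσ : ∀ r r', (σ (swap r r')).IsSymmetric) (F : Finset R) (k d : ℕ) (Bd : Submodule ℂ V)
    (hBd : ∀ r ∈ F, ∀ r' ∈ F, ∀ v ∈ Bd, σ (swap r r') v ∈ Bd)
    (hBd2 : ∀ D ⊆ F, F.card < D.card + d → ∀ v ∈ Bd, Inv σ D v → v = 0)
    (hlet : ∀ u : V, u ≠ 0 → ∃ ℓ : V →ₗ[ℂ] ℂ, ℓ u ≠ 0 ∧ ∃ D ⊆ F, F.card ≤ k * D.card ∧
      ∀ r ∈ D, ∀ s ∈ D, ∀ v, ℓ (σ (swap r s) v) = ℓ v)
    (v : V) (hv : v ∈ Bd) :
    4 * F.card * d * ‖v‖ ^ 2 ≤ k * ∑ p ∈ F.offDiag, ‖v - σ (swap p.1 p.2) v‖ ^ 2 := by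
  classical
  have hq : ∀ w : V, 2 * RCLike.re (inner ℂ (Om σ F w) w) =
      ∑ p ∈ F.offDiag, ‖w - σ (swap p.1 p.2) w‖ ^ 2 := fun w => by
    rw [Om_apply, sum_inner, map_sum, mul_sum]
    exact sum_congr rfl fun p _ => two_re_inner _ (hσ _ _) (sig_swap_swap σ _ _) w
  by_cases hv0 : v = 0
  · subst hv0
    simp
  have hΩ : ∀ w ∈ Bd, Om σ F w ∈ Bd := fun w hw => by
    rw [Om_apply]
    exact Bd.sum_mem fun p hp =>
      Bd.sub_mem hw (hBd _ (mem_offDiag.1 hp).1 _ (mem_offDiag.1 hp).2.1 w hw)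
  have hsym : (Om σ F).IsSymmetric := fun x y => by
    rw [Om_apply, Om_apply, sum_inner, inner_sum]
    exact sum_congr rfl fun p _ => by rw [inner_sub_left, inner_sub_right, hσ]
  have : Nontrivial Bd := ⟨⟨⟨v, hv⟩, 0, fun h => hv0 (congrArg Subtype.val h)⟩⟩
  have hT := hsym.restrict_invariant hΩ
  have hev := hT.hasEigenvalue_iInf_of_finiteDimensional
  set μ : ℝ := ⨅ x : { x : Bd // x ≠ 0 },
    RCLike.re (inner ℂ ((Om σ F).restrict hΩ x) (x : Bd)) / ‖(x : Bd)‖ ^ 2 with hμ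
  have hμv : μ * ‖v‖ ^ 2 ≤ RCLike.re (inner ℂ (Om σ F v) v) := by
    have hb : BddBelow (Set.range fun x : { x : Bd // x ≠ 0 } =>
        RCLike.re (inner ℂ ((Om σ F).restrict hΩ x) (x : Bd)) / ‖(x : Bd)‖ ^ 2) := by
      refine ⟨0, ?_⟩
      rintro _ ⟨x, rfl⟩
      refine div_nonneg ?_ (by positivity)
      have h1 := hq (x.1 : V)
      have h2 : 0 ≤ ∑ p ∈ F.offDiag, ‖(x.1 : V) - σ (swap p.1 p.2) x.1‖ ^ 2 :=
        sum_nonneg fun _ _ => by positivity
      have h3 : inner ℂ ((Om σ F).restrict hΩ x) (x : Bd) = inner ℂ (Om σ F x.1) (x.1 : V) := rfl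
      rw [h3]
      linarith
    have h1 := ciInf_le hb ⟨⟨v, hv⟩, fun h => hv0 (congrArg Subtype.val h)⟩
    have h2 : 0 < ‖v‖ ^ 2 := by positivity
    exact (le_div_iff₀ h2).1 h1
  obtain ⟨u, hu⟩ := hev.exists_hasEigenvector
  have hu0 : (u : V) ≠ 0 := fun h => hu.2 (Subtype.ext h)
  have hu1 : Om σ F u = (μ : ℂ) • (u : V) := congrArg Subtype.val hu.apply_eq_smul
  let E : Submodule ℂ V := Bd ⊓ Module.End.eigenspace (Om σ F) (μ : ℂ)
  have hEm : ∀ w, w ∈ E ↔ w ∈ Bd ∧ Om σ F w = (μ : ℂ) • w := fun w => by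
    simp only [E, Submodule.mem_inf, Module.End.mem_eigenspace_iff]
  have hE : ∀ r ∈ F, ∀ r' ∈ F, ∀ w ∈ E, σ (swap r r') w ∈ E := fun r hr r' hr' w hw => by
    rw [hEm] at hw ⊢
    exact ⟨hBd r hr r' hr' w hw.1, by rw [Om_comm σ F r r' hr hr', hw.2, map_smul]⟩
  obtain ⟨ℓ, hℓ, D0, hD0F, hD0c, hD0⟩ := hlet u hu0
  obtain ⟨w0, hw0E, hw0, hℓw0⟩ := exists_inv σ F E hE ℓ u ((hEm _).2 ⟨u.2, hu1⟩) hℓ D0 hD0F hD0
  have hmem0 : D0 ∈ F.powerset.filter (fun D => ∃ w ∈ E, w ≠ 0 ∧ Inv σ D w) :=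
    mem_filter.2 ⟨mem_powerset.2 hD0F, w0, hw0E, fun h => hℓw0 (by rw [h, map_zero]), hw0⟩
  obtain ⟨D, hD, hmax⟩ := exists_max_image _ card ⟨D0, hmem0⟩
  obtain ⟨hDF, w, hwE, hw0', hw⟩ := mem_filter.1 hD
  rw [mem_powerset] at hDF
  have hc1 : D0.card ≤ D.card := hmax D0 hmem0
  have hc2 : D.card + d ≤ F.card := by
    by_contra hn
    exact hw0' (hBd2 D hDF (by omega) w ((hEm _).1 hwE).1 hw)
  have hrow : ∀ r ∈ F \ D, ∑ s ∈ D, ‖w - σ (swap r s) w‖ ^ 2 = 2 * (D.card + 1) * ‖w‖ ^ 2 := by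
    intro r hr
    obtain ⟨hrF, hrD⟩ := mem_sdiff.1 hr
    have hz : w + ∑ s ∈ D, σ (swap r s) w = 0 := by
      by_contra hn
      have := hmax (insert r D) (mem_filter.2 ⟨mem_powerset.2 (insert_subset hrF hDF), _,
        E.add_mem hwE (E.sum_mem fun s hs => hE r hrF s (hDF hs) w hwE), hn,
        inv_insert σ D r hrD w hw⟩)
      rw [card_insert_of_notMem hrD] at this
      omega
    have h1 : ∑ s ∈ D, (w - σ (swap r s) w) = ((D.card : ℂ) + 1) • w := by
      rw [sum_sub_distrib, sum_const, eq_neg_of_add_eq_zero_right hz, add_smul, one_smul,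
        sub_neg_eq_add, Nat.cast_smul_eq_nsmul]
    rw [← sum_congr rfl fun s _ => two_re_inner _ (hσ r s) (sig_swap_swap σ _ _) w, ← mul_sum,
      ← map_sum, ← sum_inner, h1, inner_smul_left, @norm_sq_eq_re_inner ℂ]
    simp
    ring
  have hsub : (F \ D) ×ˢ D ∪ D ×ˢ (F \ D) ⊆ F.offDiag := by
    intro p hp
    rw [mem_offDiag]
    rcases mem_union.1 hp with h | h
    · obtain ⟨h1, h2⟩ := mem_product.1 h
      exact ⟨(mem_sdiff.1 h1).1, hDF h2, fun e => (mem_sdiff.1 h1).2 (e ▸ h2)⟩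
    · obtain ⟨h1, h2⟩ := mem_product.1 h
      exact ⟨hDF h1, (mem_sdiff.1 h2).1, fun e => (mem_sdiff.1 h2).2 (e ▸ h1)⟩
  have hdis : Disjoint ((F \ D) ×ˢ D) (D ×ˢ (F \ D)) := by
    rw [disjoint_left]
    intro p h h'
    exact (mem_sdiff.1 (mem_product.1 h).1).2 (mem_product.1 h').1
  have hge : 4 * (F \ D).card * (D.card + 1) * ‖w‖ ^ 2 ≤
      ∑ p ∈ F.offDiag, ‖w - σ (swap p.1 p.2) w‖ ^ 2 := by
    refine le_trans (le_of_eq ?_) (sum_le_sum_of_subset_of_nonneg hsub fun _ _ _ => by positivity)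
    rw [sum_union hdis, sum_product, sum_product_right]
    simp only
    rw [sum_congr rfl hrow, sum_congr rfl fun r hr => (sum_congr rfl fun s _ => by
      rw [swap_comm s r]).trans (hrow r hr), sum_const, nsmul_eq_mul]
    ring
  have hμw : RCLike.re (inner ℂ (Om σ F w) w) = μ * ‖w‖ ^ 2 := by
    rw [((hEm _).1 hwE).2, inner_smul_left, @norm_sq_eq_re_inner ℂ]
    simp
  have hwpos : 0 < ‖w‖ ^ 2 := by positivity
  have hμ1 : 2 * (F \ D).card * (D.card + 1) ≤ μ := by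
    have h1 := hq w
    rw [hμw] at h1
    refine le_of_mul_le_mul_right ?_ hwpos
    linarith
  have hnat : F.card * d ≤ k * ((F \ D).card * (D.card + 1)) := by
    have e1 : d ≤ (F \ D).card := by rw [card_sdiff_of_subset hDF]; omega
    have e2 : F.card ≤ k * (D.card + 1) := hD0c.trans (Nat.mul_le_mul_left _ (by omega))
    calc F.card * d ≤ (k * (D.card + 1)) * (F \ D).card := Nat.mul_le_mul e2 e1
      _ = _ := by ring
  have hre : (F.card : ℝ) * d ≤ k * ((F \ D).card * (D.card + 1)) := by exact_mod_cast hnat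
  have hk : (0 : ℝ) ≤ k := Nat.cast_nonneg _
  have h5 : 2 * (F.card : ℝ) * d ≤ k * μ := by nlinarith [mul_le_mul_of_nonneg_left hμ1 hk]
  rw [← hq v]
  have h6 : (0 : ℝ) ≤ ‖v‖ ^ 2 := by positivity
  nlinarith [mul_le_mul_of_nonneg_right h5 h6, mul_le_mul_of_nonneg_left hμv hk]

end Lower

end Pool.Agent.Lib.MP_595dc0_ag.Dk.DkCasAux
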