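import Mathlib

set_option autoImplicit false

/-! Group algebra of column-wise row permutations acting on arrays of letters. -/

namespace Pool.Agent.Lib.MP_595dc0_ag.Dk

open Equiv Finset

/-- Arrays of letters: column, row, letter. -/
abbrev Arr (k n : ℕ) (R : Type) : Type := Fin n → R → Fin k

/-- One permutation of the rows for every column. -/
abbrev GG (n : ℕ) (R : Type) : Type := Fin n → Perm R

/-- The group algebra. -/
abbrev GA (n : ℕ) (R : Type) : Type := MonoidAlgebra ℂ (GG n R)

/-- Ordered product over a finset (meaningful when the factors commute). -/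
noncomputable def cprod {ι M : Type} [Monoid M] (s : Finset ι) (f : ι → M) : M :=
  (s.toList.map f).prod

section CProd

variable {ι ι' M M' : Type} [Monoid M] [Monoid M']

theorem cprod_empty (f : ι → M) : cprod ∅ f = 1 := by
  simp [cprod]

theorem cprod_congr (s : Finset ι) (f g : ι → M) (h : ∀ i ∈ s, f i = g i) :
    cprod s f = cprod s g := by
  unfold cprod
  rw [List.map_congr_left fun i hi => h i (Finset.mem_toList.1 hi)]

theorem cprod_eq_noncommProd (s : Finset ι) (f : ι → M)
    (h : (s : Set ι).Pairwise (Function.onFun Commute f)) :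
    cprod s f = s.noncommProd f h := by
  classical
  have key : ∀ (l : List ι), l.Nodup → ∀ (t : Finset ι), l.toFinset = t →
      ∀ ht : (t : Set ι).Pairwise (Function.onFun Commute f),
        (l.map f).prod = t.noncommProd f ht := by
    intro l hl t e ht
    subst e
    exact (Finset.noncommProd_toFinset l f ht hl).symm
  exact key _ s.nodup_toList s s.toList_toFinset h

theorem cprod_eq_prod {N : Type} [CommMonoid N] (s : Finset ι) (f : ι → N) :
    cprod s f = ∏ i ∈ s, f i := by
  exact Finset.prod_map_toList s f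

theorem map_cprod {F : Type} [FunLike F M M'] [MonoidHomClass F M M'] (φ : F) (s : Finset ι)
    (f : ι → M) : φ (cprod s f) = cprod s (fun i => φ (f i)) := by
  unfold cprod
  rw [map_list_prod, List.map_map]
  rfl

theorem cprod_conj (s : Finset ι) (f : ι → M) (a b : M) (hab : a * b = 1) (hba : b * a = 1) :
    a * cprod s f * b = cprod s (fun i => a * f i * b) := by
  unfold cprod
  induction s.toList with
  | nil => simpa using hab
  | cons x l ih =>
    rw [List.map_cons, List.prod_cons, List.map_cons, List.prod_cons, ← ih]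
    calc a * (f x * (l.map f).prod) * b = a * f x * (b * a) * (l.map f).prod * b := by
          rw [hba, mul_one, mul_assoc a (f x)]
      _ = _ := by simp only [mul_assoc]

theorem cprod_one (s : Finset ι) (f : ι → M) (h : ∀ i ∈ s, f i = 1) : cprod s f = 1 := by
  refine List.prod_eq_one fun x hx => ?_
  obtain ⟨i, hi, rfl⟩ := List.mem_map.1 hx
  exact h i (Finset.mem_toList.1 hi)

theorem cprod_singleton (i : ι) (f : ι → M) : cprod {i} f = f i := by
  simp [cprod]

theorem commute_cprod (s : Finset ι) (f : ι → M) (a : M) (h : ∀ i ∈ s, Commute a (f i)) :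
    Commute a (cprod s f) := by
  refine Commute.list_prod_right _ _ fun x hx => ?_
  obtain ⟨i, hi, rfl⟩ := List.mem_map.1 hx
  exact h i (Finset.mem_toList.1 hi)

theorem cprod_eq_list_dkg (s : Finset ι) (f : ι → M) (l : List ι) (hl : l.Nodup)
    (hs : ∀ a, a ∈ l ↔ a ∈ s) (h : ∀ a ∈ s, ∀ b ∈ s, a ≠ b → Commute (f a) (f b)) :
    cprod s f = (l.map f).prod := by
  have hp : s.toList.Perm l := (List.perm_ext_iff_of_nodup s.nodup_toList hl).2 fun a => by
    rw [Finset.mem_toList, hs]
  refine (hp.map f).prod_eq' ?_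
  rw [List.pairwise_map]
  exact s.nodup_toList.pairwise_of_forall_ne fun a ha b hb hab =>
    h a (Finset.mem_toList.1 ha) b (Finset.mem_toList.1 hb) hab

theorem cprod_erase [DecidableEq ι] (s : Finset ι) (f : ι → M)
    (h : ∀ i ∈ s, ∀ j ∈ s, i ≠ j → Commute (f i) (f j)) (i : ι) (hi : i ∈ s) :
    cprod s f = f i * cprod (s.erase i) f := by
  rw [cprod_eq_list_dkg s f (i :: (s.erase i).toList) (List.nodup_cons.2 ⟨by simp,
    Finset.nodup_toList _⟩) ?_ h, List.map_cons, List.prod_cons]
  · rfl
  · intro a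
    rw [List.mem_cons, Finset.mem_toList, Finset.mem_erase]
    constructor
    · rintro (rfl | h1)
      · exact hi
      · exact h1.2
    · intro ha
      by_cases e : a = i
      · exact Or.inl e
      · exact Or.inr ⟨e, ha⟩

theorem cprod_insert [DecidableEq ι] (s : Finset ι) (f : ι → M) (i : ι) (hi : i ∉ s)
    (h : ∀ a ∈ insert i s, ∀ b ∈ insert i s, a ≠ b → Commute (f a) (f b)) :
    cprod (insert i s) f = f i * cprod s f := by
  rw [cprod_erase _ f h i (Finset.mem_insert_self i s), Finset.erase_insert hi]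

theorem cprod_union [DecidableEq ι] (s t : Finset ι) (f : ι → M) (hst : Disjoint s t)
    (h : ∀ a ∈ s ∪ t, ∀ b ∈ s ∪ t, a ≠ b → Commute (f a) (f b)) :
    cprod (s ∪ t) f = cprod s f * cprod t f := by
  rw [cprod_eq_list_dkg (s ∪ t) f (s.toList ++ t.toList) ?_ (by simp) h, List.map_append,
    List.prod_append]
  · rfl
  · refine List.Nodup.append s.nodup_toList t.nodup_toList fun a ha hb => ?_
    exact Finset.disjoint_left.1 hst (Finset.mem_toList.1 ha) (Finset.mem_toList.1 hb)

theorem cprod_subset (s t : Finset ι) (f : ι → M) (hst : s ⊆ t)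
    (h : ∀ a ∈ t, ∀ b ∈ t, a ≠ b → Commute (f a) (f b)) (h1 : ∀ a ∈ t, a ∉ s → f a = 1) :
    cprod s f = cprod t f := by
  classical
  have e : s ∪ t \ s = t := Finset.union_sdiff_of_subset hst
  have h2 := cprod_union s (t \ s) f Finset.disjoint_sdiff (by rw [e]; exact h)
  rw [e, cprod_one (t \ s) f fun a ha =>
    h1 a (Finset.mem_sdiff.1 ha).1 (Finset.mem_sdiff.1 ha).2, mul_one] at h2
  exact h2.symm

theorem cprod_bij (s : Finset ι) (t : Finset ι') (f : ι → M) (g : ι' → M) (e : ι → ι')
    (he : Set.BijOn e s t) (hfg : ∀ i ∈ s, f i = g (e i))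
    (h : ∀ a ∈ t, ∀ b ∈ t, a ≠ b → Commute (g a) (g b)) :
    cprod s f = cprod t g := by
  rw [cprod_congr s f _ hfg, cprod_eq_list_dkg t g (s.toList.map e) ?_ ?_ h, List.map_map]
  · rfl
  · exact s.nodup_toList.map_on fun a ha b hb hab =>
      he.injOn (Finset.mem_toList.1 ha) (Finset.mem_toList.1 hb) hab
  · intro a
    rw [List.mem_map]
    constructor
    · rintro ⟨b, hb, rfl⟩
      exact he.mapsTo (Finset.mem_toList.1 hb)
    · intro ha
      obtain ⟨b, hb, rfl⟩ := he.surjOn ha
      exact ⟨b, Finset.mem_toList.2 hb, rfl⟩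

theorem cprod_mul (s : Finset ι) (f g : ι → M)
    (h : ∀ a ∈ s, ∀ b ∈ s, a ≠ b → Commute (g a) (f b)) :
    cprod s (fun i => f i * g i) = cprod s f * cprod s g := by
  have key : ∀ l : List ι, l.Nodup → (∀ a ∈ l, ∀ b ∈ l, a ≠ b → Commute (g a) (f b)) →
      (l.map fun i => f i * g i).prod = (l.map f).prod * (l.map g).prod := by
    intro l
    induction l with
    | nil => simp
    | cons x l ih =>
      intro hl hc
      obtain ⟨hx, hl'⟩ := List.nodup_cons.1 hl
      have h1 : Commute (g x) (l.map f).prod := by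
        refine Commute.list_prod_right _ _ fun y hy => ?_
        obtain ⟨b, hb, rfl⟩ := List.mem_map.1 hy
        exact hc x List.mem_cons_self b (List.mem_cons_of_mem _ hb) fun e => hx (e ▸ hb)
      simp only [List.map_cons, List.prod_cons]
      rw [ih hl' fun a ha b hb => hc a (List.mem_cons_of_mem _ ha) b (List.mem_cons_of_mem _ hb),
        mul_assoc, mul_assoc, ← mul_assoc (g x), h1.eq, mul_assoc]
  exact key _ s.nodup_toList fun a ha b hb =>
    h a (Finset.mem_toList.1 ha) b (Finset.mem_toList.1 hb)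

theorem cprod_add {N : Type} [Semiring N] [DecidableEq ι] (s : Finset ι) (f g : ι → N) :
    cprod s (fun i => f i + g i) =
      ∑ W ∈ s.powerset, cprod s (fun i => if i ∈ W then g i else f i) := by
  have key : ∀ l : List ι, l.Nodup → (l.map fun i => f i + g i).prod =
      ∑ W ∈ l.toFinset.powerset, (l.map fun i => if i ∈ W then g i else f i).prod := by
    intro l
    induction l with
    | nil => simp
    | cons x l ih =>
      intro hl
      obtain ⟨hx, hl'⟩ := List.nodup_cons.1 hl
      have hx' : x ∉ l.toFinset := fun h => hx (List.mem_toFinset.1 h)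
      rw [List.toFinset_cons, Finset.sum_powerset_insert hx', List.map_cons, List.prod_cons,
        ih hl', add_mul, Finset.mul_sum, Finset.mul_sum]
      congr 1
      · refine Finset.sum_congr rfl fun W hW => ?_
        rw [List.map_cons, List.prod_cons, if_neg fun h => hx' (Finset.mem_powerset.1 hW h)]
      · refine Finset.sum_congr rfl fun W _ => ?_
        rw [List.map_cons, List.prod_cons, if_pos (Finset.mem_insert_self x W)]
        congr 2
        refine List.map_congr_left fun a ha => ?_
        have hne : a ≠ x := fun e => hx (e ▸ ha)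
        simp [hne]
  have h := key _ s.nodup_toList
  rw [s.toList_toFinset] at h
  exact h

theorem cprod_mem {S : Type} [SetLike S M] [SubmonoidClass S M] (K : S) (s : Finset ι)
    (f : ι → M) (h : ∀ i ∈ s, f i ∈ K) : cprod s f ∈ K := by
  refine list_prod_mem fun x hx => ?_
  obtain ⟨i, hi, rfl⟩ := List.mem_map.1 hx
  exact h i (Finset.mem_toList.1 hi)

end CProd

section Act

variable {k n : ℕ} {R R' : Type} {W : Type} [AddCommGroup W] [Module ℂ W]

/-- The action on arrays. -/
def act (g : GG n R) (x : Arr k n R) : Arr k n R := fun z r => x z ((g z)⁻¹ r)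

theorem act_one (x : Arr k n R) : act 1 x = x := rfl

theorem act_mul (g h : GG n R) (x : Arr k n R) : act (g * h) x = act g (act h x) := rfl

/-- A group element inside the group algebra. -/
noncomputable def og (g : GG n R) : GA n R := MonoidAlgebra.of ℂ (GG n R) g

theorem og_one : og (1 : GG n R) = 1 := map_one _

theorem og_mul (g h : GG n R) : og (g * h) = og g * og h := map_mul _ _ _

/-- `app Φ x T = ∑ g, T g • Φ (g x)`. -/
noncomputable def app (Φ : Arr k n R → W) (x : Arr k n R) : GA n R →ₗ[ℂ] W :=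
  (Finsupp.linearCombination ℂ (fun g : GG n R => Φ (act g x))).comp
    (MonoidAlgebra.coeffLinearEquiv ℂ).toLinearMap

theorem app_og (Φ : Arr k n R → W) (x : Arr k n R) (g : GG n R) :
    app Φ x (og g) = Φ (act g x) := by
  simp [app, og]

theorem app_one (Φ : Arr k n R → W) (x : Arr k n R) : app Φ x 1 = Φ x := by
  rw [← og_one, app_og, act_one]

theorem GA_induction {p : GA n R → Prop} (T : GA n R) (hg : ∀ g, p (og g)) (h0 : p 0)
    (hadd : ∀ a b, p a → p b → p (a + b)) (hsmul : ∀ (c : ℂ) a, p a → p (c • a)) : p T := by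
  induction T using MonoidAlgebra.induction_linear with
  | zero => exact h0
  | add a b ha hb => exact hadd a b ha hb
  | single g c =>
    have e : MonoidAlgebra.single g c = c • og g := by simp [og]
    rw [e]
    exact hsmul c _ (hg g)

theorem app_mul_og (Φ : Arr k n R → W) (x : Arr k n R) (T : GA n R) (g : GG n R) :
    app Φ x (T * og g) = app Φ (act g x) T := by
  induction T using GA_induction with
  | hg h => rw [← og_mul, app_og, app_og, act_mul]
  | h0 => simp
  | hadd a b ha hb => rw [add_mul, map_add, map_add, ha, hb]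
  | hsmul c a ha => rw [smul_mul_assoc, map_smul, map_smul, ha]

theorem app_og_mul (Φ : Arr k n R → W) (x : Arr k n R) (T : GA n R) (g : GG n R) :
    app Φ x (og g * T) = app (fun y => Φ (act g y)) x T := by
  induction T using GA_induction with
  | hg h => rw [← og_mul, app_og, app_og, act_mul]
  | h0 => simp
  | hadd a b ha hb => rw [mul_add, map_add, map_add, ha, hb]
  | hsmul c a ha => rw [mul_smul_comm, map_smul, map_smul, ha]

theorem app_mul (Φ : Arr k n R → W) (x : Arr k n R) (T₀ T : GA n R) :
    app Φ x (T₀ * T) = app (fun y => app Φ y T₀) x T := by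
  induction T using GA_induction with
  | hg h => rw [app_mul_og, app_og]
  | h0 => simp
  | hadd a b ha hb => rw [mul_add, map_add, map_add, ha, hb]
  | hsmul c a ha => rw [mul_smul_comm, map_smul, map_smul, ha]

theorem app_mem (S : Submodule ℂ W) (Φ : Arr k n R → W) (h : ∀ y, Φ y ∈ S) (x : Arr k n R)
    (T : GA n R) : app Φ x T ∈ S := by
  induction T using GA_induction with
  | hg g =>
    rw [app_og]
    exact h _
  | h0 => simp
  | hadd a b ha hb =>
    rw [map_add]
    exact S.add_mem ha hb
  | hsmul c a ha =>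
    rw [map_smul]
    exact S.smul_mem c ha

theorem app_mul_mem (S : Submodule ℂ W) (Φ : Arr k n R → W) (T₀ : GA n R)
    (h : ∀ y, app Φ y T₀ ∈ S) (x : Arr k n R) (T : GA n R) : app Φ x (T₀ * T) ∈ S := by
  rw [app_mul]
  exact app_mem S _ h x T

theorem app_sub_mem (S : Submodule ℂ W) (Φ Ψ : Arr k n R → W) (h : ∀ y, Φ y - Ψ y ∈ S)
    (x : Arr k n R) (T : GA n R) : app Φ x T - app Ψ x T ∈ S := by
  induction T using GA_induction with
  | hg g =>
    rw [app_og, app_og]
    exact h _
  | h0 => simp
  | hadd a b ha hb =>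
    rw [map_add, map_add, add_sub_add_comm]
    exact S.add_mem ha hb
  | hsmul c a ha =>
    rw [map_smul, map_smul, ← smul_sub]
    exact S.smul_mem c ha

theorem map_app {W' : Type} [AddCommGroup W'] [Module ℂ W'] (L : W →ₗ[ℂ] W')
    (Φ : Arr k n R → W) (x : Arr k n R) (T : GA n R) :
    L (app Φ x T) = app (fun y => L (Φ y)) x T := by
  induction T using GA_induction with
  | hg g => rw [app_og, app_og]
  | h0 => simp
  | hadd a b ha hb => rw [map_add, map_add, map_add, ha, hb]
  | hsmul c a ha => rw [map_smul, map_smul, map_smul, ha]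

theorem app_sum {ι : Type} (s : Finset ι) (c : ι → ℂ) (Φ : ι → Arr k n R → W) (x : Arr k n R)
    (T : GA n R) :
    app (fun y => ∑ i ∈ s, c i • Φ i y) x T = ∑ i ∈ s, c i • app (Φ i) x T := by
  induction T using GA_induction with
  | hg g => simp only [app_og]
  | h0 => simp
  | hadd a b ha hb => simp only [map_add, ha, hb, smul_add, Finset.sum_add_distrib]
  | hsmul d a ha =>
    simp only [map_smul, ha, Finset.smul_sum]
    exact Finset.sum_congr rfl fun i _ => smul_comm _ _ _

/-- Group elements that fix every cell outside `D`. -/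
def GD (D : Set (Fin n × R)) : Subgroup (GG n R) where
  carrier := {g | ∀ z r, (z, r) ∉ D → g z r = r}
  one_mem' := fun _ _ _ => rfl
  mul_mem' := by
    intro a b ha hb z r h
    show a z (b z r) = r
    rw [hb z r h, ha z r h]
  inv_mem' := by
    intro a ha z r h
    show (a z)⁻¹ r = r
    rw [Perm.inv_eq_iff_eq, ha z r h]

theorem mem_GD (D : Set (Fin n × R)) (g : GG n R) :
    g ∈ GD D ↔ ∀ z r, (z, r) ∉ D → g z r = r := Iff.rfl

/-- Elements of the group algebra supported on the cells of `D`. -/
noncomputable def SA (D : Set (Fin n × R)) : Subalgebra ℂ (GA n R) :=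
  Algebra.adjoin ℂ (og '' (GD D : Set (GG n R)))

theorem og_mem_SA (D : Set (Fin n × R)) (g : GG n R) (h : g ∈ GD D) : og g ∈ SA D := by
  exact Algebra.subset_adjoin ⟨g, h, rfl⟩

theorem SA_mono (D D' : Set (Fin n × R)) (h : D ⊆ D') : SA D ≤ SA D' := by
  exact Algebra.adjoin_mono (Set.image_mono fun g hg z r hr => hg z r fun h' => hr (h h'))

theorem mem_SA_univ (T : GA n R) : T ∈ SA (Set.univ : Set (Fin n × R)) := by
  induction T using GA_induction with
  | hg g => exact og_mem_SA _ g fun z r h => absurd (Set.mem_univ _) h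
  | h0 => exact zero_mem _
  | hadd a b ha hb => exact add_mem ha hb
  | hsmul c a ha => exact Subalgebra.smul_mem _ ha c

theorem SA_induction (D : Set (Fin n × R)) {p : GA n R → Prop} (T : GA n R) (hT : T ∈ SA D)
    (hg : ∀ g ∈ GD D, p (og g)) (h0 : p 0)
    (hadd : ∀ a b, p a → p b → p (a + b)) (hsmul : ∀ (c : ℂ) a, p a → p (c • a)) : p T := by
  have h1 : T ∈ Submodule.span ℂ
      (Submonoid.closure (og '' (GD D : Set (GG n R))) : Set (GA n R)) := by
    rw [← Algebra.adjoin_eq_span]
    exact hT
  clear hT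
  induction h1 using Submodule.span_induction with
  | mem x hx =>
    have h2 : ∃ g ∈ GD D, og g = x := by
      induction hx using Submonoid.closure_induction with
      | mem y hy => exact hy
      | one => exact ⟨1, one_mem _, og_one⟩
      | mul y z _ _ hy hz =>
        obtain ⟨g, hg1, rfl⟩ := hy
        obtain ⟨g', hg2, rfl⟩ := hz
        exact ⟨g * g', mul_mem hg1 hg2, og_mul g g'⟩
    obtain ⟨g, hg1, rfl⟩ := h2
    exact hg g hg1
  | zero => exact h0
  | add a b _ _ ha hb => exact hadd a b ha hb
  | smul c a _ ha => exact hsmul c a ha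

theorem commute_of_GD (D D' : Set (Fin n × R)) (h : Disjoint D D') (g g' : GG n R)
    (hg : g ∈ GD D) (hg' : g' ∈ GD D') : Commute g g' := by
  funext z
  refine Equiv.Perm.Disjoint.commute (f := g z) (g := g' z) fun r => ?_
  by_cases hr : (z, r) ∈ D
  · exact Or.inr (hg' z r (Set.disjoint_left.1 h hr))
  · exact Or.inl (hg z r hr)

theorem commute_of_SA (D D' : Set (Fin n × R)) (h : Disjoint D D') (T T' : GA n R)
    (hT : T ∈ SA D) (hT' : T' ∈ SA D') : Commute T T' := by
  refine SA_induction D (p := fun T => Commute T T') T hT (fun g hg => ?_) (Commute.zero_left _)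
    (fun a b ha hb => ha.add_left hb) (fun c a ha => ha.smul_left c)
  refine SA_induction D' (p := fun T' => Commute (og g) T') T' hT' (fun g' hg' => ?_)
    (Commute.zero_right _) (fun a b ha hb => ha.add_right hb) (fun c a ha => ha.smul_right c)
  exact (commute_of_GD D D' h g g' hg hg').map (MonoidAlgebra.of ℂ (GG n R))

theorem app_congr_SA (D : Set (Fin n × R)) (Φ Ψ : Arr k n R → W) (x x' : Arr k n R)
    (T : GA n R) (hT : T ∈ SA D) (h : ∀ g ∈ GD D, Φ (act g x) = Ψ (act g x')) :
    app Φ x T = app Ψ x' T := by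
  refine SA_induction D (p := fun T => app Φ x T = app Ψ x' T) T hT (fun g hg => ?_) (by simp)
    (fun a b ha hb => ?_) (fun c a ha => ?_)
  · rw [app_og, app_og, h g hg]
  · rw [map_add, map_add, ha, hb]
  · rw [map_smul, map_smul, ha]

variable [DecidableEq R]

/-- The transposition of the rows `r`, `r'` in column `z`. -/
def sw (z : Fin n) (r r' : R) : GG n R := Pi.mulSingle z (swap r r')

/-- The transposition of the rows `r`, `r'` in all columns of `S`. -/
def swS (S : Finset (Fin n)) (r r' : R) : GG n R := fun z => if z ∈ S then swap r r' else 1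

theorem sw_mul_self (z : Fin n) (r r' : R) : sw z r r' * sw z r r' = 1 := by
  rw [sw, ← Pi.mulSingle_mul, swap_mul_self, Pi.mulSingle_one]

theorem sw_comm (z : Fin n) (r r' : R) : sw z r r' = sw z r' r := by
  rw [sw, sw, swap_comm]

theorem swS_singleton (z : Fin n) (r r' : R) : swS {z} r r' = sw z r r' := by
  funext z'
  simp [swS, sw, Pi.mulSingle_apply]

theorem sw_mem_GD (D : Set (Fin n × R)) (z : Fin n) (r r' : R) (h : (z, r) ∈ D)
    (h' : (z, r') ∈ D) : sw z r r' ∈ GD D := by
  intro z' a ha
  by_cases e : z' = z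
  · subst e
    rw [sw, Pi.mulSingle_eq_same]
    exact swap_apply_of_ne_of_ne (fun e => ha (e ▸ h)) (fun e => ha (e ▸ h'))
  · rw [sw, Pi.mulSingle_eq_of_ne e]
    rfl

theorem sw_conj (g : GG n R) (z : Fin n) (r r' : R) :
    g * sw z r r' * g⁻¹ = sw z (g z r) (g z r') := by
  funext z'
  rw [Pi.mul_apply, Pi.mul_apply, Pi.inv_apply]
  by_cases e : z' = z
  · subst e
    rw [sw, sw, Pi.mulSingle_eq_same, Pi.mulSingle_eq_same, swap_apply_apply]
  · rw [sw, sw, Pi.mulSingle_eq_of_ne e, Pi.mulSingle_eq_of_ne e, mul_one, mul_inv_cancel]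

/-- `T` is antisymmetric for the transposition of `r`, `r'` in column `z`. -/
def Anti (T : GA n R) (z : Fin n) (r r' : R) : Prop := og (sw z r r') * T = -T

theorem Anti.symm {T : GA n R} {z : Fin n} {r r' : R} (h : Anti T z r r') : Anti T z r' r := by
  unfold Anti at h ⊢
  rwa [sw_comm]

theorem Anti.mul_right {T : GA n R} {z : Fin n} {r r' : R} (h : Anti T z r r') (T' : GA n R) :
    Anti (T * T') z r r' := by
  unfold Anti at h ⊢
  rw [← mul_assoc, h, neg_mul]

theorem Anti.mul_left {T : GA n R} {z : Fin n} {r r' : R} (h : Anti T z r r') (T' : GA n R)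
    (hc : Commute (og (sw z r r')) T') : Anti (T' * T) z r r' := by
  unfold Anti at h ⊢
  rw [← mul_assoc, hc.eq, mul_assoc, h, mul_neg]

theorem Anti.mul_left_SA {T : GA n R} {z : Fin n} {r r' : R} (h : Anti T z r r')
    (D : Set (Fin n × R)) (T' : GA n R) (hT' : T' ∈ SA D) (h1 : (z, r) ∉ D) (h2 : (z, r') ∉ D) :
    Anti (T' * T) z r r' := by
  refine h.mul_left T' (commute_of_SA {(z, r), (z, r')} D ?_ _ _
    (og_mem_SA _ _ (sw_mem_GD _ z r r' (by simp) (by simp))) hT')
  rw [Set.disjoint_left]
  rintro a (rfl | rfl)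
  · exact h1
  · exact h2

theorem anti_one_sub (z : Fin n) (r r' : R) : Anti (1 - og (sw z r r')) z r r' := by
  unfold Anti
  rw [mul_sub, mul_one, ← og_mul, sw_mul_self, og_one, neg_sub]

theorem Anti.eq_half {T : GA n R} {z : Fin n} {r r' : R} (h : Anti T z r r') :
    T = (1 / 2 : ℂ) • ((1 - og (sw z r r')) * T) := by
  unfold Anti at h
  rw [sub_mul, one_mul, h, sub_neg_eq_add, ← two_smul ℂ T, smul_smul]
  norm_num

/-- The antisymmetriser of the rows `r`, `r'` in all columns of `Y`. -/
noncomputable def aY (Y : Finset (Fin n)) (r r' : R) : GA n R :=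
  ∑ S ∈ Y.powerset, ((-1 : ℂ) ^ S.card) • og (swS S r r')

theorem swS_insert_dkg (S : Finset (Fin n)) (z : Fin n) (hz : z ∉ S) (r r' : R) :
    swS (insert z S) r r' = sw z r r' * swS S r r' := by
  funext z'
  rw [Pi.mul_apply]
  by_cases e : z' = z
  · subst e
    simp [swS, sw, hz]
  · simp [swS, sw, e]

theorem aY_empty_dkg (r r' : R) : aY (∅ : Finset (Fin n)) r r' = 1 := by
  have e : swS (∅ : Finset (Fin n)) r r' = 1 := by
    funext z
    simp [swS]
  simp [aY, e, og_one]

theorem aY_insert_dkg (Y : Finset (Fin n)) (z : Fin n) (hz : z ∉ Y) (r r' : R) :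
    aY (insert z Y) r r' = (1 - og (sw z r r')) * aY Y r r' := by
  unfold aY
  rw [Finset.sum_powerset_insert hz, sub_mul, one_mul, sub_eq_add_neg, Finset.mul_sum,
    ← Finset.sum_neg_distrib]
  congr 1
  refine Finset.sum_congr rfl fun S hS => ?_
  have h1 : z ∉ S := fun h => hz (Finset.mem_powerset.1 hS h)
  rw [Finset.card_insert_of_notMem h1, swS_insert_dkg S z h1, og_mul, mul_smul_comm, pow_succ,
    mul_neg_one, neg_smul]

theorem anti_aY (Y : Finset (Fin n)) (r r' : R) (z : Fin n) (hz : z ∈ Y) :
    Anti (aY Y r r') z r r' := by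
  rw [← Finset.insert_erase hz, aY_insert_dkg _ z (Finset.notMem_erase z Y)]
  exact (anti_one_sub z r r').mul_right _

theorem aY_mul_of_anti (Y : Finset (Fin n)) (r r' : R) (T : GA n R)
    (h : ∀ z ∈ Y, Anti T z r r') : aY Y r r' * T = ((2 : ℂ) ^ Y.card) • T := by
  induction Y using Finset.induction_on with
  | empty => simp [aY_empty_dkg]
  | insert z Y hz ih =>
    have h1 : og (sw z r r') * T = -T := h z (Finset.mem_insert_self z Y)
    rw [aY_insert_dkg Y z hz, mul_assoc, ih fun a ha => h a (Finset.mem_insert_of_mem ha),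
      mul_smul_comm, sub_mul, one_mul, h1, sub_neg_eq_add, ← two_smul ℂ T, smul_smul,
      Finset.card_insert_of_notMem hz, pow_succ]

theorem app_aY (Φ : Arr k n R → W) (x : Arr k n R) (Y : Finset (Fin n)) (r r' : R) :
    app Φ x (aY Y r r') = ∑ S ∈ Y.powerset, ((-1 : ℂ) ^ S.card) • Φ (act (swS S r r') x) := by
  simp only [aY, map_sum, map_smul, app_og]

theorem app_mem_of_anti (S : Submodule ℂ W) (Φ : Arr k n R → W) (Y : Finset (Fin n)) (r r' : R)
    (h : ∀ y, app Φ y (aY Y r r') ∈ S) (T : GA n R) (hT : ∀ z ∈ Y, Anti T z r r')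
    (x : Arr k n R) : app Φ x T ∈ S := by
  have h1 := app_mul_mem S Φ _ h x T
  rw [aY_mul_of_anti Y r r' T hT, map_smul] at h1
  exact (S.smul_mem_iff (pow_ne_zero _ two_ne_zero)).1 h1

end Act

section Emb

variable {k n : ℕ} {R R' : Type} {W : Type} [AddCommGroup W] [Module ℂ W]

/-- Transport along an embedding of rows. -/
noncomputable def embG (j : R ↪ R') : GG n R →* GG n R' where
  toFun g := fun z => (g z).viaEmbedding j
  map_one' := by
    funext z
    exact map_one (Perm.viaEmbeddingHom j)
  map_mul' g h := by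
    funext z
    exact map_mul (Perm.viaEmbeddingHom j) _ _

/-- Transport along an embedding of rows, on the group algebra. -/
noncomputable def embA (j : R ↪ R') : GA n R →ₐ[ℂ] GA n R' :=
  MonoidAlgebra.mapDomainAlgHom ℂ ℂ (embG j)

theorem embA_og (j : R ↪ R') (g : GG n R) : embA j (og g) = og (embG j g) := by
  simp [embA, og]

theorem embG_sw [DecidableEq R] [DecidableEq R'] (j : R ↪ R') (z : Fin n) (r r' : R) :
    embG j (sw z r r') = sw z (j r) (j r') := by
  funext z'
  show (sw z r r' z').viaEmbedding j = _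
  by_cases e : z' = z
  · subst e
    rw [sw, sw, Pi.mulSingle_eq_same, Pi.mulSingle_eq_same]
    ext a
    by_cases ha : a ∈ Set.range j
    · obtain ⟨b, rfl⟩ := ha
      rw [Perm.viaEmbedding_apply, j.injective.swap_apply]
    · rw [Perm.viaEmbedding_apply_of_notMem _ _ _ ha,
        swap_apply_of_ne_of_ne (fun e => ha ⟨r, e.symm⟩) (fun e => ha ⟨r', e.symm⟩)]
  · rw [sw, sw, Pi.mulSingle_eq_of_ne e, Pi.mulSingle_eq_of_ne e]
    exact map_one (Perm.viaEmbeddingHom j)

theorem embG_inv_dkg (j : R ↪ R') (g : GG n R) (z : Fin n) :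
    (embG j g z)⁻¹ = ((g z)⁻¹).viaEmbedding j :=
  (map_inv (Perm.viaEmbeddingHom j) (g z)).symm

theorem act_embG (j : R ↪ R') (g : GG n R) (x : Arr k n R') (z : Fin n) (r : R) :
    act (embG j g) x z (j r) = act g (fun z r => x z (j r)) z r := by
  simp only [act]
  rw [embG_inv_dkg, Perm.viaEmbedding_apply]

theorem act_embG_of_notMem (j : R ↪ R') (g : GG n R) (x : Arr k n R') (z : Fin n) (r : R')
    (hr : r ∉ Set.range j) : act (embG j g) x z r = x z r := by
  simp only [act]
  rw [embG_inv_dkg, Perm.viaEmbedding_apply_of_notMem _ _ _ hr]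

theorem embA_mem_SA (j : R ↪ R') (T : GA n R) :
    embA j T ∈ SA {p : Fin n × R' | p.2 ∈ Set.range j} := by
  induction T using GA_induction with
  | hg g =>
    rw [embA_og]
    exact og_mem_SA _ _ fun z r h => Perm.viaEmbedding_apply_of_notMem _ _ _ h
  | h0 =>
    rw [map_zero]
    exact zero_mem _
  | hadd a b ha hb =>
    rw [map_add]
    exact add_mem ha hb
  | hsmul c a ha =>
    rw [map_smul]
    exact Subalgebra.smul_mem _ ha c

theorem app_embA (j : R ↪ R') (Φ : Arr k n R → W) (Φ' : Arr k n R' → W) (x : Arr k n R')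
    (h : ∀ g : GG n R, Φ' (act (embG j g) x) = Φ (act g (fun z r => x z (j r)))) (T : GA n R) :
    app Φ' x (embA j T) = app Φ (fun z r => x z (j r)) T := by
  induction T using GA_induction with
  | hg g => rw [embA_og, app_og, app_og, h]
  | h0 => simp
  | hadd a b ha hb => rw [map_add, map_add, map_add, ha, hb]
  | hsmul c a ha => rw [map_smul, map_smul, map_smul, ha]

/-- The old column whose permutation the new column carries. -/
def prc (i' : Fin (n + 1)) (i : Fin n) : Fin (n + 1) → Fin n :=
  Fin.insertNth (α := fun _ => Fin n) i' i id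

theorem prc_same (i' : Fin (n + 1)) (i : Fin n) : prc i' i i' = i := by
  simp [prc]

theorem prc_succAbove (i' : Fin (n + 1)) (i z : Fin n) : prc i' i (i'.succAbove z) = z := by
  simp [prc]

/-- Insertion of a column `i'` that copies the permutation of column `i`. -/
def insG (i' : Fin (n + 1)) (i : Fin n) : GG n R →* GG (n + 1) R where
  toFun g := fun z => g (prc i' i z)
  map_one' := rfl
  map_mul' _ _ := rfl

/-- Insertion of a column, on the group algebra. -/
noncomputable def insA (i' : Fin (n + 1)) (i : Fin n) : GA n R →ₐ[ℂ] GA (n + 1) R :=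
  MonoidAlgebra.mapDomainAlgHom ℂ ℂ (insG i' i)

/-- Insertion of a column of letters. -/
def insArr (i' : Fin (n + 1)) (x : Arr k n R) (y : R → Fin k) : Arr k (n + 1) R :=
  Fin.insertNth (α := fun _ => R → Fin k) i' y x

theorem insArr_same (i' : Fin (n + 1)) (x : Arr k n R) (y : R → Fin k) :
    insArr i' x y i' = y := by
  simp [insArr]

theorem insArr_succAbove (i' : Fin (n + 1)) (x : Arr k n R) (y : R → Fin k) (z : Fin n) :
    insArr i' x y (i'.succAbove z) = x z := by
  simp [insArr]

theorem insA_og (i' : Fin (n + 1)) (i : Fin n) (g : GG n R) :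
    insA i' i (og g) = og (insG i' i g) := by
  simp [insA, og]

theorem insG_apply_dkg (i' : Fin (n + 1)) (i : Fin n) (g : GG n R) (z : Fin (n + 1)) :
    insG i' i g z = g (prc i' i z) := rfl

theorem act_insG (i' : Fin (n + 1)) (i : Fin n) (g : GG n R) (x : Arr k n R) (y : R → Fin k) :
    act (insG i' i g) (insArr i' x y) = insArr i' (act g x) (fun r => y ((g i)⁻¹ r)) := by
  funext z r
  rcases Fin.eq_self_or_eq_succAbove i' z with rfl | ⟨w, rfl⟩
  · simp only [act, insG_apply_dkg, prc_same, insArr_same]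
  · simp only [act, insG_apply_dkg, prc_succAbove, insArr_succAbove]

theorem insG_sw_ne [DecidableEq R] (i' : Fin (n + 1)) (i z : Fin n) (hz : z ≠ i) (r r' : R) :
    insG i' i (sw z r r') = sw (i'.succAbove z) r r' := by
  funext w
  rw [insG_apply_dkg]
  rcases Fin.eq_self_or_eq_succAbove i' w with rfl | ⟨w, rfl⟩
  · rw [prc_same, sw, sw, Pi.mulSingle_eq_of_ne hz.symm,
      Pi.mulSingle_eq_of_ne (Fin.succAbove_ne _ _).symm]
  · rw [prc_succAbove]
    simp [sw, Pi.mulSingle_apply]

theorem insG_sw_eq [DecidableEq R] (i' : Fin (n + 1)) (i : Fin n) (r r' : R) :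
    insG i' i (sw i r r') = sw i' r r' * sw (i'.succAbove i) r r' := by
  funext w
  rw [insG_apply_dkg, Pi.mul_apply]
  rcases Fin.eq_self_or_eq_succAbove i' w with rfl | ⟨w, rfl⟩
  · rw [prc_same, sw, sw, sw, Pi.mulSingle_eq_same, Pi.mulSingle_eq_same,
      Pi.mulSingle_eq_of_ne (Fin.succAbove_ne _ _).symm, mul_one]
  · rw [prc_succAbove]
    simp [sw, Pi.mulSingle_apply]

/-- Coefficient of the letter `b` in the linear form attached to the letter `a`. -/
def lc (s : Fin k → ℕ) (a b : Fin k) : ℂ := (if a = b then 1 else 0) + (s b : ℂ)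

/-- The sum of the coefficients of each linear form. -/
def sc (s : Fin k → ℕ) : ℂ := 1 + ∑ b, (s b : ℂ)

theorem sum_lc (s : Fin k → ℕ) (a : Fin k) : ∑ b, lc s a b = sc s := by
  simp [lc, sc, Finset.sum_add_distrib]

theorem sc_ne_zero (s : Fin k → ℕ) : sc s ≠ 0 := by
  have e : sc s = ((1 + ∑ b, s b : ℕ) : ℂ) := by simp [sc]
  rw [e, Nat.cast_ne_zero]
  omega

/-- Coefficient of the new column `y` given the old column `u`. -/
def coef [Fintype R] (s : Fin k → ℕ) (u y : R → Fin k) : ℂ := ∏ r, lc s (u r) (y r)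

/-- Passing an insertion formula from arrays to the group algebra. -/
theorem app_insA [Fintype R] [DecidableEq R] (i' : Fin (n + 1)) (i : Fin n) (s : Fin k → ℕ)
    (Φ : Arr k n R → W) (Φ' : Arr k (n + 1) R → W)
    (h : ∀ x, Φ x = ∑ y, coef s (x i) y • Φ' (insArr i' x y)) (x : Arr k n R) (T : GA n R) :
    app Φ x T = ∑ y, coef s (x i) y • app Φ' (insArr i' x y) (insA i' i T) := by
  induction T using GA_induction with
  | hg g =>
    rw [app_og, h, insA_og, ← (Equiv.arrowCongr (g i) (Equiv.refl (Fin k))).sum_comp]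
    refine Finset.sum_congr rfl fun y _ => ?_
    rw [app_og, act_insG]
    congr 1
    exact Equiv.prod_comp (g i)⁻¹ (fun r => lc s (x i r) (y r))
  | h0 => simp
  | hadd a b ha hb => simp only [map_add, ha, hb, smul_add, Finset.sum_add_distrib]
  | hsmul d a ha =>
    simp only [map_smul, ha, Finset.smul_sum]
    exact Finset.sum_congr rfl fun i _ => smul_comm _ _ _

end Emb

end Pool.Agent.Lib.MP_595dc0_ag.Dk
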