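import Mathlib
import Pool.Agent.Lib.MP_595dc0_ag.DkG
import Pool.Agent.Lib.MP_595dc0_ag.DkCasA

set_option autoImplicit false

/-! The Casimir bound: many brackets force a relation between two rows. -/

namespace Pool.Agent.Lib.MP_595dc0_ag.Dk

open Equiv Finset

namespace DkCasAux

variable {k n : ℕ} {R : Type} [Fintype R] [DecidableEq R]

/-- Functions on arrays. -/
abbrev VV (k n : ℕ) (R : Type) : Type := EuclideanSpace ℂ (Arr k n R)

/-- The permutation representation on functions on arrays. -/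
noncomputable def rho (k n : ℕ) (R : Type) : GG n R →* Module.End ℂ (VV k n R) where
  toFun g :=
    { toFun := fun v => WithLp.toLp 2 (fun y => v (act g⁻¹ y))
      map_add' := fun _ _ => rfl
      map_smul' := fun _ _ => rfl }
  map_one' := by
    ext v y
    rfl
  map_mul' g h := by
    ext v y
    show v (act (g * h)⁻¹ y) = v (act h⁻¹ (act g⁻¹ y))
    rw [mul_inv_rev, act_mul]

omit [Fintype R] [DecidableEq R] in
theorem rho_apply (g : GG n R) (v : VV k n R) (y : Arr k n R) :
    rho k n R g v y = v (act g⁻¹ y) := rfl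

omit [Fintype R] [DecidableEq R] in
theorem rho_rho (g h : GG n R) (v : VV k n R) :
    rho k n R g (rho k n R h v) = rho k n R (g * h) v := by rw [map_mul]; rfl

/-- The action as a permutation of arrays. -/
def actE (g : GG n R) : Arr k n R ≃ Arr k n R where
  toFun := act g
  invFun := act g⁻¹
  left_inv y := by rw [← act_mul, inv_mul_cancel, act_one]
  right_inv y := by rw [← act_mul, mul_inv_cancel, act_one]

theorem inner_rho (g : GG n R) (u v : VV k n R) :
    inner ℂ (rho k n R g u) (rho k n R g v) = inner ℂ u v := by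
  rw [PiLp.inner_apply, PiLp.inner_apply]
  exact Fintype.sum_equiv (actE g⁻¹) _ _ fun _ => rfl

omit [Fintype R] in
theorem rho_sw_sw (z : Fin n) (r r' : R) (v : VV k n R) :
    rho k n R (sw z r r') (rho k n R (sw z r r') v) = v := by
  rw [rho_rho, sw_mul_self, map_one]; rfl

theorem rho_sw_symm (z : Fin n) (r r' : R) : (rho k n R (sw z r r')).IsSymmetric := fun u v => by
  rw [← inner_rho (sw z r r'), rho_sw_sw]

theorem rho_single (g : GG n R) (y : Arr k n R) :
    rho k n R g (EuclideanSpace.single y 1) = EuclideanSpace.single (act g y) 1 := by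
  ext y'
  rw [rho_apply]
  simp only [PiLp.single_apply]
  congr 1
  apply propext
  constructor
  · intro h; rw [← h, ← act_mul, mul_inv_cancel, act_one]
  · intro h; rw [h, ← act_mul, inv_mul_cancel, act_one]

/-- The representation of the group algebra. -/
noncomputable def piA (k n : ℕ) (R : Type) : GA n R →ₐ[ℂ] Module.End ℂ (VV k n R) :=
  MonoidAlgebra.lift ℂ (Module.End ℂ (VV k n R)) (GG n R) (rho k n R)

omit [Fintype R] [DecidableEq R] in
theorem piA_og (g : GG n R) : piA k n R (og g) = rho k n R g := by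
  unfold piA og
  exact MonoidAlgebra.lift_of _ _

/-- Evaluation against `Θ`. -/
noncomputable def LL {W : Type} [AddCommGroup W] [Module ℂ W] (Θ : Arr k n R → W) :
    VV k n R →ₗ[ℂ] W where
  toFun v := ∑ y, v y • Θ y
  map_add' u v := by simp [add_smul, sum_add_distrib]
  map_smul' c v := by simp [smul_sum, mul_smul]

theorem LL_piA {W : Type} [AddCommGroup W] [Module ℂ W] (Θ : Arr k n R → W) (x : Arr k n R)
    (T : GA n R) : LL Θ (piA k n R T (EuclideanSpace.single x 1)) = app Θ x T := by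
  refine GA_induction (p := fun T => LL Θ (piA k n R T (EuclideanSpace.single x 1)) =
    app Θ x T) T ?_ ?_ ?_ ?_
  · intro g
    rw [piA_og, rho_single, app_og]
    show ∑ y, (EuclideanSpace.single (act g x) (1 : ℂ)) y • Θ y = _
    simp [PiLp.single_apply]
  · simp
  · intro a b ha hb
    simp only [map_add, LinearMap.add_apply, ha, hb]
  · intro c a ha
    simp only [map_smul, LinearMap.smul_apply, ha]

theorem LL_mem {W : Type} [AddCommGroup W] [Module ℂ W] (Θ : Arr k n R → W) (S : Submodule ℂ W)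
    (T : GA n R) (h : ∀ y, app Θ y T ∈ S) (u : VV k n R) : LL Θ (piA k n R T u) ∈ S := by
  have hu : u = ∑ y, u y • EuclideanSpace.single y (1 : ℂ) := by
    ext y'
    simp [Pi.single_apply]
  rw [hu, map_sum, map_sum]
  refine S.sum_mem fun y _ => ?_
  rw [map_smul, map_smul, LL_piA]
  exact S.smul_mem _ (h y)

omit [Fintype R] in
theorem sw_sw_comm (z z' : Fin n) (r r' : R) :
    sw z r r' * sw z' r r' = sw z' r r' * sw z r r' := by
  by_cases h : z = z'
  · rw [h]
  · exact (Pi.mulSingle_commute h _ _).eq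

omit [Fintype R] in
theorem aY_empty (r r' : R) : aY (∅ : Finset (Fin n)) r r' = 1 := by
  unfold aY
  have : swS (∅ : Finset (Fin n)) r r' = 1 := by
    funext z; simp [swS]
  simp [this, og_one]

omit [Fintype R] in
theorem aY_insert (z : Fin n) (Y : Finset (Fin n)) (hz : z ∉ Y) (r r' : R) :
    aY (insert z Y) r r' = aY Y r r' * (1 - og (sw z r r')) := by
  unfold aY
  rw [sum_powerset_insert hz, mul_sub, mul_one, sum_mul, sub_eq_add_neg, ← sum_neg_distrib]
  congr 1
  refine sum_congr rfl fun S hS => ?_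
  have hzS : z ∉ S := fun h => hz (mem_powerset.1 hS h)
  have e : swS (insert z S) r r' = swS S r r' * sw z r r' := by
    funext z'
    by_cases h : z' = z
    · subst h
      simp [swS, sw, hzS]
    · simp [swS, sw, h]
  rw [card_insert_of_notMem hzS, pow_succ, e, og_mul, smul_mul_assoc, mul_neg_one, neg_smul]

/-- Vectors orthogonal to everything that is symmetric on a large set of free rows. -/
def Bd (k : ℕ) (free : Fin n → Finset R) (d : Fin n → ℕ) : Submodule ℂ (VV k n R) where
  carrier := {v | ∀ z, ∀ D ⊆ free z, (free z).card < D.card + d z → ∀ w : VV k n R,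
    (∀ a ∈ D, ∀ b ∈ D, rho k n R (sw z a b) w = w) → inner ℂ w v = 0}
  zero_mem' := fun _ _ _ _ _ _ => inner_zero_right _
  add_mem' := fun ha hb z D hD hc w hw => by
    rw [inner_add_right, ha z D hD hc w hw, hb z D hD hc w hw, add_zero]
  smul_mem' := fun c _ ha z D hD hc w hw => by
    rw [inner_smul_right, ha z D hD hc w hw, mul_zero]

theorem Bd_stable (free : Fin n → Finset R) (d : Fin n → ℕ) (z' : Fin n) (r r' : R)
    (hr : r ∈ free z') (hr' : r' ∈ free z') (v : VV k n R) (hv : v ∈ Bd k free d) :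
    rho k n R (sw z' r r') v ∈ Bd k free d := by
  intro z D hD hc w hw
  rw [← rho_sw_symm]
  refine hv z (D.image (sw z' r r' z)) ?_ ?_ _ ?_
  · intro a ha
    obtain ⟨b, hb, rfl⟩ := mem_image.1 ha
    by_cases h : z = z'
    · subst h
      have : sw z r r' z = swap r r' := by simp [sw]
      rw [this, swap_apply_def]
      split_ifs
      exacts [hr', hr, hD hb]
    · have : sw z' r r' z = 1 := by simp [sw, h]
      rw [this]
      exact hD hb
  · rwa [card_image_of_injective _ (sw z' r r' z).injective]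
  · intro a ha b hb
    obtain ⟨a', ha', rfl⟩ := mem_image.1 ha
    obtain ⟨b', hb', rfl⟩ := mem_image.1 hb
    rw [← sw_conj, rho_rho, inv_mul_cancel_right, ← rho_rho, hw a' ha' b' hb']

omit [Fintype R] in
theorem act_sw_inv (z : Fin n) (r s : R) (y : Arr k n R) (h : y z r = y z s) :
    act (sw z r s)⁻¹ y = y := by
  funext z' a
  show y z' (((sw z r s)⁻¹ z')⁻¹ a) = y z' a
  rw [Pi.inv_apply, inv_inv]
  by_cases hz : z' = z
  · subst hz
    have : sw z' r s z' = swap r s := by simp [sw]
    rw [this, swap_apply_def]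
    split_ifs with h1 h2
    · rw [h1, h]
    · rw [h2, h]
    · rfl
  · have : sw z r s z' = 1 := by simp [sw, hz]
    rw [this]
    rfl

omit [Fintype R] [DecidableEq R] in
theorem exists_class (F : Finset R) (c : R → Fin k) :
    ∃ D ⊆ F, F.card ≤ k * D.card ∧ ∀ r ∈ D, ∀ s ∈ D, c r = c s := by
  rcases F.eq_empty_or_nonempty with rfl | ⟨r0, -⟩
  · exact ⟨∅, subset_rfl, by simp, fun r hr => absurd hr (notMem_empty _)⟩
  · obtain ⟨a, -, ha⟩ := exists_max_image (univ : Finset (Fin k))
      (fun a => (F.filter (fun r => c r = a)).card) ⟨c r0, mem_univ _⟩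
    refine ⟨F.filter (fun r => c r = a), filter_subset _ _, ?_, fun r hr s hs =>
      (mem_filter.1 hr).2.trans (mem_filter.1 hs).2.symm⟩
    rw [card_eq_sum_card_fiberwise (f := c) (t := univ) fun _ _ => mem_univ _]
    refine le_trans (sum_le_card_nsmul _ _ _ ha) ?_
    simp

theorem lower_col (free : Fin n → Finset R) (d : Fin n → ℕ) (z : Fin n) (v : VV k n R)
    (hv : v ∈ Bd k free d) :
    4 * (free z).card * d z * ‖v‖ ^ 2 ≤
      k * ∑ p ∈ (free z).offDiag, ‖v - rho k n R (sw z p.1 p.2) v‖ ^ 2 := by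
  refine lower ((rho k n R).comp (MonoidHom.mulSingle (fun _ => Perm R) z))
    (fun r r' => rho_sw_symm z r r') (free z) k (d z) (Bd k free d)
    (fun r hr r' hr' w hw => Bd_stable free d z r r' hr hr' w hw)
    (fun D hD hc w hw hi => inner_self_eq_zero.1 (hw z D hD hc w hi)) ?_ v hv
  intro u hu
  obtain ⟨y, hy⟩ : ∃ y, u y ≠ 0 := by
    by_contra hn
    push Not at hn
    exact hu (by ext y; exact hn y)
  obtain ⟨D, hD, hc, hy'⟩ := exists_class (free z) (y z)
  refine ⟨(EuclideanSpace.proj y : VV k n R →L[ℂ] ℂ).toLinearMap, hy, D, hD, hc,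
    fun r hr s hs w => ?_⟩
  show rho k n R (sw z r s) w y = w y
  rw [rho_apply, act_sw_inv z r s y (hy' r hr s hs)]

theorem eq_zero_of_killed (ν : ℕ) (B : Finset R) (free : Fin n → Finset R)
    (hfree : ∀ z, free z ⊆ B) (d : Fin n → ℕ)
    (hd : k * ν * B.card ^ 2 < ∑ z, (free z).card * d z) (v : VV k n R) (hv : v ∈ Bd k free d)
    (hk : ∀ r r' : R, r ≠ r' → ∀ Y : Finset (Fin n), Y.card = ν →
      (∀ z ∈ Y, r ∈ free z ∧ r' ∈ free z) → piA k n R (aY Y r r') v = 0) : v = 0 := by
  by_contra hv0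
  have hpos : 0 < ‖v‖ ^ 2 := by positivity
  have h1 : ∑ z, 4 * ((free z).card : ℝ) * d z * ‖v‖ ^ 2 ≤
      k * ∑ z, ∑ p ∈ (free z).offDiag, ‖v - rho k n R (sw z p.1 p.2) v‖ ^ 2 := by
    rw [mul_sum]
    exact sum_le_sum fun z _ => lower_col free d z v hv
  have h2 : ∑ z, ∑ p ∈ (free z).offDiag, ‖v - rho k n R (sw z p.1 p.2) v‖ ^ 2 =
      ∑ p ∈ B.offDiag, ∑ z ∈ univ.filter (fun z => p.1 ∈ free z ∧ p.2 ∈ free z),
        ‖v - rho k n R (sw z p.1 p.2) v‖ ^ 2 := by
    refine sum_comm' fun z p => ?_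
    simp only [mem_univ, true_and, mem_offDiag, mem_filter]
    exact ⟨fun h => ⟨⟨h.1, h.2.1⟩, hfree z h.1, hfree z h.2.1, h.2.2⟩,
      fun h => ⟨h.1.1, h.1.2, h.2.2.2⟩⟩
  have h3 : ∀ p ∈ B.offDiag, ∑ z ∈ univ.filter (fun z => p.1 ∈ free z ∧ p.2 ∈ free z),
      ‖v - rho k n R (sw z p.1 p.2) v‖ ^ 2 ≤ 4 * ν * ‖v‖ ^ 2 := fun p hp => by
    refine upper (fun z => rho k n R (sw z p.1 p.2)) (fun z => rho_sw_symm z _ _)
      (fun z w => rho_sw_sw z _ _ w) (fun z z' w => by rw [rho_rho, rho_rho, sw_sw_comm])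
      (fun Y => piA k n R (aY Y p.1 p.2)) (fun w => by rw [aY_empty, map_one]; rfl)
      (fun z Y hz w => by rw [aY_insert z Y hz, map_mul, map_sub, map_one, piA_og]; rfl)
      _ ν v fun Y hY hc => hk _ _ (mem_offDiag.1 hp).2.2 Y hc fun z hz => (mem_filter.1 (hY hz)).2
  have h4 := sum_le_card_nsmul _ _ _ h3
  have h5 : (B.offDiag.card : ℝ) ≤ (B.card : ℝ) ^ 2 := by
    rw [offDiag_card]
    exact_mod_cast (by rw [sq]; omega : B.card * B.card - B.card ≤ B.card ^ 2)
  rw [nsmul_eq_mul] at h4
  have h6 : (k : ℝ) * ν * B.card ^ 2 < ∑ z, ((free z).card : ℝ) * d z := by exact_mod_cast hd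
  have h7 : ∑ z, 4 * ((free z).card : ℝ) * d z * ‖v‖ ^ 2 =
      4 * (∑ z, ((free z).card : ℝ) * d z) * ‖v‖ ^ 2 := by
    rw [mul_sum, sum_mul]
    exact sum_congr rfl fun z _ => by ring
  rw [h7, h2] at h1
  have hk0 : (0 : ℝ) ≤ k := Nat.cast_nonneg _
  have h8 : (B.offDiag.card : ℝ) * (4 * ν * ‖v‖ ^ 2) ≤ (B.card : ℝ) ^ 2 * (4 * ν * ‖v‖ ^ 2) :=
    mul_le_mul_of_nonneg_right h5 (by positivity)
  have h9 := mul_le_mul_of_nonneg_left (h4.trans h8) hk0
  nlinarith [mul_lt_mul_of_pos_right h6 hpos]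

end DkCasAux

open DkCasAux in
theorem casimir {k n : ℕ} {R U W : Type} [Fintype R] [DecidableEq R] [Fintype U]
    [AddCommGroup W] [Module ℂ W] (ν z₀ : ℕ) (B : Finset R) (free : Fin n → Finset R)
    (hfree : ∀ z, free z ⊆ B)
    (hz : ∀ r ∈ B, (univ.filter (fun z => r ∉ free z)).card ≤ z₀)
    (Θ : Arr k n R → W) (S : Submodule ℂ W)
    (hS : ∀ r r' : R, r ≠ r' → ∀ Y : Finset (Fin n), Y.card = ν →
      (∀ z ∈ Y, r ∈ free z ∧ r' ∈ free z) → ∀ y, app Θ y (aY Y r r') ∈ S)
    (col : U → Fin n) (ro : U → Bool → R)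
    (hinj : Function.Injective (fun p : U × Bool => (col p.1, ro p.1 p.2)))
    (hro : ∀ u b, ro u b ∈ free (col u))
    (hbig : (2 * k * ν + z₀) * B.card < Fintype.card U)
    (T : GA n R) (hT : ∀ u, Anti T (col u) (ro u false) (ro u true)) (x : Arr k n R) :
    app Θ x T ∈ S := by
  classical
  let d : Fin n → ℕ := fun z => (univ.filter (fun u => col u = z)).card
  have hd2 : ∀ z, 2 * d z ≤ (free z).card := fun z => by
    have h := card_le_card_of_injOn (s := (univ.filter (fun u => col u = z)) ×ˢ (univ : Finset Bool))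
      (t := free z) (fun p => ro p.1 p.2) (fun p hp => by
        have h1 : col p.1 = z := (mem_filter.1 (mem_product.1 (mem_coe.1 hp)).1).2
        exact mem_coe.2 (h1 ▸ hro p.1 p.2)) (fun p hp q hq hpq => by
        have h1 : col p.1 = z := (mem_filter.1 (mem_product.1 (mem_coe.1 hp)).1).2
        have h2 : col q.1 = z := (mem_filter.1 (mem_product.1 (mem_coe.1 hq)).1).2
        exact hinj (Prod.ext (h1.trans h2.symm) hpq))
    rw [card_product, card_univ, Fintype.card_bool] at h
    show 2 * (univ.filter (fun u => col u = z)).card ≤ _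
    omega
  have hU : Fintype.card U = ∑ z, d z := by
    rw [← card_univ]
    exact card_eq_sum_card_fiberwise fun _ _ => mem_univ _
  have hz' : ∑ z, (B \ free z).card ≤ z₀ * B.card := by
    have e : ∑ z, (B \ free z).card = ∑ r ∈ B, (univ.filter (fun z => r ∉ free z)).card := by
      simp only [card_eq_sum_ones]
      refine sum_comm' fun z r => ?_
      simp only [mem_univ, true_and, mem_sdiff, mem_filter]
      exact and_comm
    rw [e, mul_comm]
    exact sum_le_card_nsmul _ _ _ hz
  have hm : 0 < B.card := by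
    obtain ⟨u⟩ : Nonempty U := Fintype.card_pos_iff.1 (by omega)
    exact card_pos.2 ⟨_, hfree _ (hro u false)⟩
  have hd : k * ν * B.card ^ 2 < ∑ z, (free z).card * d z := by
    have h1 : ∀ z, B.card * d z ≤ 2 * ((free z).card * d z) + B.card * (B \ free z).card := by
      intro z
      have e := card_sdiff_of_subset (hfree z)
      have e' := card_le_card (hfree z)
      have e2 := hd2 z
      rcases le_or_gt B.card (2 * (free z).card) with h | h
      · nlinarith [Nat.mul_le_mul_right (d z) h, Nat.zero_le (B.card * (B \ free z).card)]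
      · have : d z ≤ (B \ free z).card := by omega
        nlinarith [Nat.mul_le_mul_left B.card this, Nat.zero_le ((free z).card * d z)]
    have h2 := sum_le_sum fun z (_ : z ∈ (univ : Finset (Fin n))) => h1 z
    rw [sum_add_distrib, ← mul_sum, ← mul_sum, ← mul_sum, ← hU] at h2
    have h3 := Nat.mul_le_mul_left B.card hz'
    have h4 := mul_lt_mul_of_pos_left hbig hm
    nlinarith
  let v0 : VV k n R := piA k n R T (EuclideanSpace.single x 1)
  have hv0 : v0 ∈ Bd k free d := by
    intro z D hD hc w hw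
    obtain ⟨u, hu, h1, h2⟩ : ∃ u, col u = z ∧ ro u false ∈ D ∧ ro u true ∈ D := by
      by_contra hn
      push Not at hn
      have h := card_le_card_of_injOn (s := univ.filter (fun u => col u = z)) (t := free z \ D)
        (fun u => ro u (decide (ro u false ∈ D))) (fun u hu => by
          have h1 : col u = z := (mem_filter.1 (mem_coe.1 hu)).2
          refine mem_coe.2 (mem_sdiff.2 ⟨h1 ▸ hro u _, ?_⟩)
          by_cases h : ro u false ∈ D
          · simpa [h] using hn u h1 h
          · simp [h]) (fun u hu u' hu' he => by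
          have h1 : col u = z := (mem_filter.1 (mem_coe.1 hu)).2
          have h2 : col u' = z := (mem_filter.1 (mem_coe.1 hu')).2
          have := @hinj (u, _) (u', _) (Prod.ext (h1.trans h2.symm) he)
          exact congrArg Prod.fst this)
      rw [card_sdiff_of_subset hD] at h
      have e' := card_le_card hD
      change d z ≤ _ at h
      omega
    have e1 : rho k n R (sw z (ro u false) (ro u true)) v0 = -v0 := by
      have := congrArg (fun T' => piA k n R T' (EuclideanSpace.single x 1)) (hT u)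
      simp only [map_mul, map_neg, piA_og, hu] at this
      exact this
    have e2 := inner_rho (sw z (ro u false) (ro u true)) w v0
    rw [e1, hw _ h1 _ h2, inner_neg_right] at e2
    linear_combination (-1 / 2 : ℂ) * e2
  let R' : Submodule ℂ (VV k n R) := Submodule.span ℂ {w | ∃ r r' : R, r ≠ r' ∧
    ∃ Y : Finset (Fin n), Y.card = ν ∧ (∀ z ∈ Y, r ∈ free z ∧ r' ∈ free z) ∧
      ∃ u ∈ Bd k free d, w = piA k n R (aY Y r r') u}
  have ha0 : ∀ r r' : R, ∀ w : VV k n R, piA k n R (aY ∅ r r') w = w := fun r r' w => by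
    rw [aY_empty, map_one]; rfl
  have ha1 : ∀ r r' : R, ∀ z Y, z ∉ Y → ∀ w : VV k n R, piA k n R (aY (insert z Y) r r') w =
      piA k n R (aY Y r r') (w - rho k n R (sw z r r') w) := fun r r' z Y hz w => by
    rw [aY_insert z Y hz, map_mul, map_sub, map_one, piA_og]; rfl
  have hmem : ∀ r r' : R, ∀ Y : Finset (Fin n), (∀ z ∈ Y, r ∈ free z ∧ r' ∈ free z) →
      ∀ u ∈ Bd k free d, piA k n R (aY Y r r') u ∈ Bd k free d := fun r r' Y hY =>
    a_mem (fun z => rho k n R (sw z r r')) (fun Y => piA k n R (aY Y r r')) (ha0 r r') (ha1 r r')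
      _ Y fun z hz w hw => Bd_stable free d z r r' (hY z hz).1 (hY z hz).2 w hw
  have hR1 : R' ≤ Bd k free d := Submodule.span_le.2 (by
    rintro _ ⟨r, r', -, Y, -, hY, u, hu, rfl⟩
    exact hmem r r' Y hY u hu)
  have hR2 : R' ≤ S.comap (LL Θ) := Submodule.span_le.2 (by
    rintro _ ⟨r, r', hrr, Y, hc, hY, u, -, rfl⟩
    exact LL_mem Θ S _ (hS r r' hrr Y hc hY) u)
  obtain ⟨a, ha, b, hb, hab⟩ := R'.exists_add_mem_mem_orthogonal v0
  have hbB : b ∈ Bd k free d := by
    have : b = v0 - a := by rw [hab]; abel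
    rw [this]
    exact (Bd k free d).sub_mem hv0 (hR1 ha)
  have hb0 : b = 0 := by
    refine eq_zero_of_killed ν B free hfree d hd b hbB fun r r' hrr Y hc hY => ?_
    have hsym := a_symm (fun z => rho k n R (sw z r r')) (fun z => rho_sw_symm z _ _)
      (fun z z' w => by rw [rho_rho, rho_rho, sw_sw_comm])
      (fun Y => piA k n R (aY Y r r')) (ha0 r r') (ha1 r r') Y
    rw [← inner_self_eq_zero (𝕜 := ℂ), ← hsym]
    exact (Submodule.mem_orthogonal _ _).1 hb _
      (Submodule.subset_span ⟨r, r', hrr, Y, hc, hY, _, hmem r r' Y hY b hbB, rfl⟩)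
  rw [← LL_piA]
  change LL Θ v0 ∈ S
  rw [hab, hb0, add_zero]
  exact hR2 ha

end Pool.Agent.Lib.MP_595dc0_ag.Dk
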