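import Mathlib
import Pool.Agent.Lib.MP_595dc0_ag.Defs

set_option autoImplicit false

/-! The part of the secant ideal generated in bounded degree. -/

namespace Pool.Agent.Lib.MP_595dc0_ag.Dk

open Finset MvPolynomial

/-- The ideal generated by the homogeneous elements of degree at most `D` of the secant ideal. -/
noncomputable def JD {N : ℕ} (w : Fin N → ℕ) (k D : ℕ) : Ideal (MvPolynomial (Idx w) ℂ) :=
  Ideal.span {f | f ∈ secantIdeal w k ∧ ∃ e ≤ D, f.IsHomogeneous e}

theorem JD_le {N : ℕ} (w : Fin N → ℕ) (k D : ℕ) : JD w k D ≤ secantIdeal w k := by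
  exact Ideal.span_le.2 fun f hf => hf.1

theorem JD_mono {N : ℕ} (w : Fin N → ℕ) (k : ℕ) {D D' : ℕ} (h : D ≤ D') :
    JD w k D ≤ JD w k D' := by
  refine Ideal.span_mono fun f hf => ?_
  obtain ⟨h1, e, he, h2⟩ := hf
  exact ⟨h1, e, he.trans h, h2⟩

theorem mem_JD {N : ℕ} (w : Fin N → ℕ) (k D e : ℕ) (f : MvPolynomial (Idx w) ℂ)
    (hf : f ∈ secantIdeal w k) (he : e ≤ D) (hh : f.IsHomogeneous e) : f ∈ JD w k D := by
  exact Ideal.subset_span ⟨hf, e, he, hh⟩

theorem aeval_smul_DkJ {σ : Type} {f : MvPolynomial σ ℂ} {e : ℕ} (hf : f.IsHomogeneous e) (t : ℂ)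
    (T : σ → ℂ) : aeval (t • T) f = t ^ e * aeval T f := by
  rw [f.as_sum, map_sum, map_sum, Finset.mul_sum]
  refine Finset.sum_congr rfl fun d hd => ?_
  rw [aeval_monomial, aeval_monomial, hf.degree_eq_sum_deg_support hd, Finsupp.prod, Finsupp.prod]
  simp only [Pi.smul_apply, smul_eq_mul, mul_pow, Finset.prod_mul_distrib,
    Finset.prod_pow_eq_pow_sum]
  ring

theorem smul_mem_rankLE_DkJ {N : ℕ} (hN : 0 < N) (w : Fin N → ℕ) (k : ℕ) {T : Idx w → ℂ}
    (hT : T ∈ rankLE w k) (t : ℂ) : t • T ∈ rankLE w k := by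
  classical
  obtain ⟨D, hD, rfl⟩ := hT
  refine ⟨fun j => t • D j, fun j => ?_, Finset.smul_sum⟩
  obtain ⟨v, hv⟩ := hD j
  refine ⟨fun i a => (if i = ⟨0, hN⟩ then t else 1) * v i a, fun x => ?_⟩
  rw [Finset.prod_mul_distrib, Finset.prod_ite_eq', if_pos (Finset.mem_univ _), ← hv]
  rfl

theorem comp_mem_secant {N : ℕ} (hN : 0 < N) (w : Fin N → ℕ) (k : ℕ)
    (f : MvPolynomial (Idx w) ℂ) (hf : f ∈ secantIdeal w k) (e : ℕ) :
    homogeneousComponent e f ∈ secantIdeal w k := by
  intro T hT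
  by_cases he : f.totalDegree < e
  · rw [homogeneousComponent_eq_zero e f he, map_zero]
  set P : Polynomial ℂ := ∑ i ∈ range (f.totalDegree + 1),
    Polynomial.monomial i (aeval T (homogeneousComponent i f)) with hP
  have h0 : P = 0 := by
    refine Polynomial.funext fun t => ?_
    have h1 : aeval (t • T) f = 0 := hf _ (smul_mem_rankLE_DkJ hN w k hT t)
    rw [← sum_homogeneousComponent f, map_sum] at h1
    rw [hP, Polynomial.eval_finsetSum, Polynomial.eval_zero, ← h1]
    refine Finset.sum_congr rfl fun i _ => ?_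
    rw [Polynomial.eval_monomial, aeval_smul_DkJ (homogeneousComponent_isHomogeneous i f), mul_comm]
  have h2 : P.coeff e = aeval T (homogeneousComponent e f) := by
    rw [hP, Polynomial.finsetSum_coeff]
    simp only [Polynomial.coeff_monomial]
    rw [Finset.sum_ite_eq', if_pos (Finset.mem_range.2 (by omega))]
  rw [← h2, h0, Polynomial.coeff_zero]

/-- An ideal spanned by homogeneous polynomials is closed under homogeneous components. -/
theorem comp_mem_span {σ : Type} (S : Set (MvPolynomial σ ℂ))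
    (hS : ∀ f ∈ S, ∃ e, f.IsHomogeneous e) (f : MvPolynomial σ ℂ) (hf : f ∈ Ideal.span S)
    (e : ℕ) : homogeneousComponent e f ∈ Ideal.span S := by
  let := MvPolynomial.gradedAlgebra (σ := σ) (R := ℂ)
  exact homogeneousComponent_mem_of_mem
    (Ideal.homogeneous_span (homogeneousSubmodule σ ℂ) S fun x hx => hS x hx) hf e

/-- Low components vanish on an ideal spanned in one degree. -/
theorem comp_eq_zero_of_span {σ : Type} (S : Set (MvPolynomial σ ℂ)) (d : ℕ)
    (hS : ∀ f ∈ S, f.IsHomogeneous d) (f : MvPolynomial σ ℂ) (hf : f ∈ Ideal.span S)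
    (e : ℕ) (he : e < d) : homogeneousComponent e f = 0 := by
  classical
  have key : ∀ m : σ →₀ ℕ, m.degree < d → coeff m f = 0 := by
    induction hf using Submodule.span_induction with
    | mem x hx => exact fun m hm => (hS x hx).coeff_eq_zero hm.ne
    | zero => exact fun m _ => coeff_zero m
    | add x y _ _ hx hy => exact fun m hm => by rw [coeff_add, hx m hm, hy m hm, add_zero]
    | smul a x _ hx =>
      intro m hm
      rw [smul_eq_mul, coeff_mul]
      refine Finset.sum_eq_zero fun q hq => ?_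
      have h1 : q.1 + q.2 = m := by simpa using hq
      have h2 : q.2.degree < d := by
        rw [← h1, map_add] at hm
        omega
      rw [hx _ h2, mul_zero]
  refine homogeneousComponent_eq_zero' e f fun m hm hme => ?_
  exact mem_support_iff.1 hm (key m (hme ▸ he))

theorem comp_mem_JD {N : ℕ} (w : Fin N → ℕ) (k D : ℕ) (f : MvPolynomial (Idx w) ℂ)
    (hf : f ∈ JD w k D) (e : ℕ) : homogeneousComponent e f ∈ JD w k D := by
  refine comp_mem_span _ (fun g hg => ?_) f hf e
  obtain ⟨_, e', _, h⟩ := hg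
  exact ⟨e', h⟩

theorem secant_le_JD {N : ℕ} (hN : 0 < N) (w : Fin N → ℕ) (k D₁ : ℕ)
    (h : ∀ D, D₁ ≤ D → JD w k D ≤ JD w k D₁) : secantIdeal w k ≤ JD w k D₁ := by
  intro f hf
  rw [← sum_homogeneousComponent f]
  refine Ideal.sum_mem _ fun i _ => h (max i D₁) (le_max_right _ _) ?_
  exact mem_JD w k _ i _ (comp_mem_secant hN w k f hf i) (le_max_left _ _)
    (homogeneousComponent_isHomogeneous i f)

theorem generated_of_le {N : ℕ} (w : Fin N → ℕ) (k D : ℕ) (h : secantIdeal w k ≤ JD w k D) :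
    GeneratedInDegreeLE D (secantIdeal w k) := by
  exact ⟨_, fun f hf => hf.2, le_antisymm (JD_le w k D) h⟩

end Pool.Agent.Lib.MP_595dc0_ag.Dk
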