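import Mathlib
import Pool.Agent.Lib.MP_595dc0_ag.DkG
import Pool.Agent.Lib.MP_595dc0_ag.DkJ

set_option autoImplicit false

/-! The coordinate ring in the format `(k, …, k)`, evaluation of arrays and column splitting. -/

namespace Pool.Agent.Lib.MP_595dc0_ag.Dk

open Equiv Finset MvPolynomial

/-- The coordinate ring of `(ℂ ^ k) ^ (⊗ n)`. -/
abbrev AA (k n : ℕ) : Type := MvPolynomial (Fin n → Fin k) ℂ

/-- The secant ideal. -/
noncomputable def II (k n : ℕ) : Ideal (AA k n) := secantIdeal (fun _ : Fin n => k) k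

/-- The part of the secant ideal generated in degree at most `D`. -/
noncomputable def JJ (k n D : ℕ) : Ideal (AA k n) := JD (fun _ : Fin n => k) k D

/-- The degree of the relations that the proof uses. -/
def D0 (k : ℕ) : ℕ := 2 * (k * k + 1)

variable {k n : ℕ} {R R' : Type}

/-- The product of the variables given by the rows in `P`. -/
noncomputable def mono (P : Finset R) (x : Arr k n R) : AA k n := ∏ r ∈ P, X (fun z => x z r)

theorem app_mono_homog (P : Finset R) (x : Arr k n R) (T : GA n R) :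
    (app (mono P) x T).IsHomogeneous P.card := by
  refine app_mem (homogeneousSubmodule _ ℂ P.card) (mono P) (fun y => ?_) x T
  have := IsHomogeneous.prod P (fun r => (X (fun z => y z r) : AA k n)) (fun _ => 1)
    fun r _ => isHomogeneous_X ℂ _
  rwa [Finset.sum_const, smul_eq_mul, mul_one] at this

theorem dki_app_zero {W : Type} [AddCommGroup W] [Module ℂ W] (Φ : Arr k n R → W) (g : GG n R)
    (hΦ : ∀ y, Φ (act g y) = Φ y) (T : GA n R) (hT : og g * T = -T) (x : Arr k n R) :
    app Φ x T = 0 := by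
  have h1 := app_og_mul Φ x T g
  rw [hT, map_neg, funext hΦ] at h1
  have h2 : (2 : ℂ) • app Φ x T = 0 := by
    rw [two_smul]
    nth_rewrite 1 [← h1]
    exact neg_add_cancel _
  exact (smul_eq_zero.1 h2).resolve_left two_ne_zero

/-- Vanishing on tensors of rank at most `k` from a colour-preserving sign change. -/
theorem mem_II_of_anti (P : Finset R) (x : Arr k n R) (T : GA n R)
    (h : ∀ χ : R → Fin k, ∃ g : GG n R, (∀ z r, g z r ∈ P ↔ r ∈ P) ∧
      (∀ z, ∀ r ∈ P, χ (g z r) = χ r) ∧ og g * T = -T) (hk : 0 < k) :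
    app (mono P) x T ∈ II k n := by
  classical
  refine mem_vanishingIdeal_iff.2 ?_
  rintro _ ⟨D, hD, rfl⟩
  choose v hv using hD
  let ext : (P → Fin k) → R → Fin k := fun c r => if hr : r ∈ P then c ⟨r, hr⟩ else ⟨0, hk⟩
  have h1 : (fun y : Arr k n R => (aeval (∑ j, D j)).toLinearMap (mono P y)) =
      fun y => ∑ c ∈ Fintype.piFinset (fun _ : P => (univ : Finset (Fin k))),
        (1 : ℂ) • ∏ r ∈ P, ∏ z, v (ext c r) z (y z r) := by
    funext y
    rw [AlgHom.toLinearMap_apply, mono, map_prod]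
    simp only [aeval_X, Finset.sum_apply, hv, one_smul]
    rw [← Finset.prod_coe_sort P, Finset.prod_univ_sum]
    refine Finset.sum_congr rfl fun c _ => ?_
    rw [← Finset.prod_coe_sort P]
    refine Finset.prod_congr rfl fun r _ => ?_
    simp only [ext, dif_pos r.2]
  have h2 := map_app (aeval (∑ j, D j)).toLinearMap (mono P) x T
  rw [h1, app_sum, AlgHom.toLinearMap_apply] at h2
  rw [h2]
  refine Finset.sum_eq_zero fun c _ => ?_
  obtain ⟨g, hg1, hg2, hg3⟩ := h (ext c)
  rw [dki_app_zero _ g (fun y => ?_) T hg3, smul_zero]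
  rw [Finset.prod_comm, Finset.prod_comm (s := P)]
  refine Finset.prod_congr rfl fun z _ => ?_
  symm
  refine Finset.prod_equiv (g z) (fun r => (hg1 z r).symm) fun r hr => ?_
  rw [hg2 z r hr, act, Perm.inv_def, Equiv.symm_apply_apply]

theorem mem_JJ_of_anti (P : Finset R) (D : ℕ) (hP : P.card ≤ D) (x : Arr k n R) (T : GA n R)
    (h : ∀ χ : R → Fin k, ∃ g : GG n R, (∀ z r, g z r ∈ P ↔ r ∈ P) ∧
      (∀ z, ∀ r ∈ P, χ (g z r) = χ r) ∧ og g * T = -T) (hk : 0 < k) :
    app (mono P) x T ∈ JJ k n D := by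
  exact mem_JD _ k D P.card _ (mem_II_of_anti P x T h hk) hP (app_mono_homog P x T)

theorem dki_inv_fix {D : Set (Fin n × R)} {g : GG n R} (hg : g ∈ GD D) {z : Fin n} {r : R}
    (h : (z, r) ∉ D) : (g z)⁻¹ r = r := by
  rw [Perm.inv_eq_iff_eq, hg z r h]

theorem dki_inv_mem {D : Set (Fin n × R)} {g : GG n R} (hg : g ∈ GD D) {z : Fin n} {r : R}
    (h : (z, r) ∈ D) : (z, (g z)⁻¹ r) ∈ D := by
  by_contra h1
  have h2 := hg z _ h1
  rw [Perm.inv_def, Equiv.apply_symm_apply] at h2
  rw [Perm.inv_def, ← h2] at h1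
  exact h1 h

/-- Localisation to the rows that an operator moves. -/
theorem app_mono_loc (P Q : Finset R) (hQ : Q ⊆ P) (T₀ : GA n R)
    (hT₀ : T₀ ∈ SA {p : Fin n × R | p.2 ∈ Q ∨ p.2 ∉ P}) (𝔞 : Ideal (AA k n))
    (h : ∀ y, app (mono Q) y T₀ ∈ 𝔞) (x : Arr k n R) (T : GA n R) :
    app (mono P) x (T₀ * T) ∈ 𝔞 := by
  classical
  have key : ∀ y : Arr k n R, app (mono P) y T₀ = app (mono Q) y T₀ * mono (P \ Q) y := by
    intro y
    refine SA_induction _ (p := fun T₀ => app (mono P) y T₀ = app (mono Q) y T₀ * mono (P \ Q) y)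
      T₀ hT₀ (fun g hg => ?_) (by simp) (fun a b ha hb => ?_) fun c a ha => ?_
    · rw [app_og, app_og, mono, ← Finset.prod_sdiff hQ, mul_comm]
      congr 1
      refine Finset.prod_congr rfl fun r hr => ?_
      obtain ⟨h1, h2⟩ := Finset.mem_sdiff.1 hr
      congr 1
      funext z
      rw [act, dki_inv_fix hg]
      rintro (h3 | h3)
      · exact h2 h3
      · exact h3 h1
    · rw [map_add, map_add, ha, hb, add_mul]
    · rw [map_smul, map_smul, ha, smul_mul_assoc]
  exact app_mul_mem (𝔞.restrictScalars ℂ) (mono P) T₀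
    (fun y => by rw [key]; exact 𝔞.mul_mem_right _ (h y)) x T

theorem app_mono_mul [DecidableEq R] (P₁ P₂ : Finset R) (Q₁ Q₂ : Set R) (h₁ : ∀ r ∈ P₁, r ∈ Q₁)
    (h₂ : ∀ r ∈ P₂, r ∈ Q₂) (hd : Disjoint Q₁ Q₂) (T₁ T₂ : GA n R)
    (hT₁ : T₁ ∈ SA {p : Fin n × R | p.2 ∈ Q₁}) (hT₂ : T₂ ∈ SA {p : Fin n × R | p.2 ∈ Q₂})
    (x : Arr k n R) :
    app (mono (P₁ ∪ P₂)) x (T₁ * T₂) = app (mono P₁) x T₁ * app (mono P₂) x T₂ := by
  refine SA_induction _ (p := fun T₁ => app (mono (P₁ ∪ P₂)) x (T₁ * T₂) =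
    app (mono P₁) x T₁ * app (mono P₂) x T₂) T₁ hT₁ (fun g hg => ?_) (by simp)
    (fun a b ha hb => ?_) fun c a ha => ?_
  · refine SA_induction _ (p := fun T₂ => app (mono (P₁ ∪ P₂)) x (og g * T₂) =
      app (mono P₁) x (og g) * app (mono P₂) x T₂) T₂ hT₂ (fun g' hg' => ?_) (by simp)
      (fun a b ha hb => ?_) fun c a ha => ?_
    · have hdP : Disjoint P₁ P₂ := Finset.disjoint_left.2 fun r hr hr' =>
        Set.disjoint_left.1 hd (h₁ r hr) (h₂ r hr')
      rw [← og_mul, app_og, app_og, app_og, mono, Finset.prod_union hdP, mono, mono]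
      congr 1
      · refine Finset.prod_congr rfl fun r hr => ?_
        congr 1
        funext z
        have h3 : (z, (g z)⁻¹ r) ∈ {p : Fin n × R | p.2 ∈ Q₁} := dki_inv_mem hg (h₁ r hr)
        rw [act_mul, act, act, act, dki_inv_fix hg' fun h4 => Set.disjoint_left.1 hd h3 h4]
      · refine Finset.prod_congr rfl fun r hr => ?_
        congr 1
        funext z
        rw [act_mul, act, dki_inv_fix hg fun h4 => Set.disjoint_left.1 hd h4 (h₂ r hr)]
    · rw [mul_add, map_add, map_add, ha, hb, mul_add]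
    · rw [mul_smul_comm, map_smul, map_smul, ha, mul_smul_comm]
  · rw [add_mul, map_add, map_add, ha, hb, add_mul]
  · rw [smul_mul_assoc, map_smul, map_smul, ha, smul_mul_assoc]

theorem app_mono_emb (j : R ↪ R') (P : Finset R) (x : Arr k n R') (T : GA n R) :
    app (mono (P.map j)) x (embA j T) = app (mono P) (fun z r => x z (j r)) T := by
  refine app_embA j _ _ x (fun g => ?_) T
  rw [mono, mono, Finset.prod_map]
  refine Finset.prod_congr rfl fun r _ => ?_
  congr 1
  funext z
  exact act_embG j g x z r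

/-- An operator that is antisymmetric in two ignored rows evaluates to zero. -/
theorem app_mono_eq_zero [DecidableEq R] (P : Finset R) (x : Arr k n R) (T : GA n R) (z : Fin n)
    (r r' : R) (hr : r ∉ P) (hr' : r' ∉ P) (h : Anti T z r r') : app (mono P) x T = 0 := by
  refine dki_app_zero _ (sw z r r') (fun y => ?_) T h x
  refine Finset.prod_congr rfl fun a ha => ?_
  congr 1
  funext z'
  have hg : sw z r r' ∈ GD {p : Fin n × R | p.2 ∉ P} := sw_mem_GD _ z r r' hr hr'
  rw [act, dki_inv_fix hg fun h1 => h1 ha]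

/-- Splitting column `i` into the columns `i'` and `i'.succAbove i`. -/
noncomputable def psi (i' : Fin (n + 1)) (i : Fin n) (s : Fin k → ℕ) : AA k n →ₐ[ℂ] AA k (n + 1) :=
  aeval (fun w : Fin n → Fin k =>
    ∑ b, lc s (w i) b • X (Fin.insertNth (α := fun _ => Fin k) i' b w))

theorem psi_homog (i' : Fin (n + 1)) (i : Fin n) (s : Fin k → ℕ) (f : AA k n) (e : ℕ)
    (hf : f.IsHomogeneous e) : (psi i' i s f).IsHomogeneous e := by
  have := hf.aeval (fun w : Fin n → Fin k => (∑ b, lc s (w i) b •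
    X (Fin.insertNth (α := fun _ => Fin k) i' b w) : AA k (n + 1))) (n := 1) fun w =>
      (homogeneousSubmodule _ ℂ 1).sum_mem fun b _ =>
        (homogeneousSubmodule _ ℂ 1).smul_mem _ (isHomogeneous_X ℂ _)
  rwa [one_mul] at this

theorem psi_II (i' : Fin (n + 1)) (i : Fin n) (s : Fin k → ℕ) (f : AA k n) (hf : f ∈ II k n) :
    psi i' i s f ∈ II k (n + 1) := by
  refine mem_vanishingIdeal_iff.2 ?_
  rintro _ ⟨D, hD, rfl⟩
  choose v hv using hD
  rw [psi, comp_aeval_apply]
  refine mem_vanishingIdeal_iff.1 hf _ ⟨fun j w => ∑ b, lc s (w i) b *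
    D j (Fin.insertNth (α := fun _ => Fin k) i' b w), fun j => ⟨fun z a =>
      v j (i'.succAbove z) a * if z = i then ∑ b, lc s a b * v j i' b else 1, fun w => ?_⟩, ?_⟩
  · simp only [hv, Fin.prod_univ_succAbove _ i', Fin.insertNth_apply_same,
      Fin.insertNth_apply_succAbove, Finset.prod_mul_distrib]
    rw [Finset.prod_ite_eq' univ i fun z => ∑ b, lc s (w z) b * v j i' b,
      if_pos (Finset.mem_univ _), Finset.mul_sum]
    exact Finset.sum_congr rfl fun b _ => by ring
  · funext w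
    simp only [map_sum, map_smul, aeval_X, Finset.sum_apply, smul_eq_mul, Finset.mul_sum]
    exact Finset.sum_comm

theorem psi_JJ (i' : Fin (n + 1)) (i : Fin n) (s : Fin k → ℕ) (D : ℕ) (f : AA k n)
    (hf : f ∈ JJ k n D) : psi i' i s f ∈ JJ k (n + 1) D := by
  have : JJ k n D ≤ (JJ k (n + 1) D).comap (psi i' i s) := by
    refine Ideal.span_le.2 ?_
    rintro g ⟨hg, e, he, hh⟩
    exact mem_JD _ k D e _ (psi_II i' i s g hg) he (psi_homog i' i s g e hh)
  exact this hf

theorem psi_mono [Fintype R] [DecidableEq R] (i' : Fin (n + 1)) (i : Fin n) (s : Fin k → ℕ)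
    (P : Finset R) (x : Arr k n R) :
    (sc s ^ (Fintype.card R - P.card)) • psi i' i s (mono P x) =
      ∑ y, coef s (x i) y • mono P (insArr i' x y) := by
  have h1 : ∀ y : R → Fin k, coef s (x i) y • mono P (insArr i' x y) =
      ∏ r, lc s (x i r) (y r) • (if r ∈ P then
        (X (Fin.insertNth (α := fun _ => Fin k) i' (y r) fun z => x z r) : AA k (n + 1)) else 1) := by
    intro y
    rw [Finset.prod_smul, Finset.prod_ite_mem, Finset.univ_inter, coef, mono]
    congr 1
    refine Finset.prod_congr rfl fun r _ => ?_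
    congr 1
    refine Fin.eq_insertNth_iff.2 ⟨?_, funext fun z => ?_⟩
    · rw [insArr_same]
    · rw [Fin.removeNth, insArr_succAbove]
  simp only [h1]
  rw [← Fintype.piFinset_univ, ← Finset.prod_univ_sum (fun _ => univ) fun r b =>
    lc s (x i r) b • (if r ∈ P then
      (X (Fin.insertNth (α := fun _ => Fin k) i' b fun z => x z r) : AA k (n + 1)) else 1),
    ← Finset.prod_mul_prod_compl P, mono, map_prod]
  have h2 : ∏ r ∈ Pᶜ, ∑ b, lc s (x i r) b • (if r ∈ P then
      (X (Fin.insertNth (α := fun _ => Fin k) i' b fun z => x z r) : AA k (n + 1)) else 1) =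
      (sc s ^ (Fintype.card R - P.card)) • 1 := by
    rw [Finset.prod_congr rfl (g := fun _ => sc s • (1 : AA k (n + 1))) fun r hr => by
      simp only [if_neg (Finset.mem_compl.1 hr)]
      rw [← Finset.sum_smul, sum_lc]]
    rw [Finset.prod_const, Finset.card_compl, smul_pow, one_pow]
  rw [h2, mul_smul_comm, mul_one]
  congr 1
  refine Finset.prod_congr rfl fun r hr => ?_
  simp only [if_pos hr]
  exact aeval_X _ _

theorem psi_app [Fintype R] [DecidableEq R] (i' : Fin (n + 1)) (i : Fin n) (s : Fin k → ℕ)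
    (P : Finset R) (x : Arr k n R) (T : GA n R) :
    (sc s ^ (Fintype.card R - P.card)) • psi i' i s (app (mono P) x T) =
      ∑ y, coef s (x i) y • app (mono P) (insArr i' x y) (insA i' i T) := by
  have h := map_app ((sc s ^ (Fintype.card R - P.card)) • (psi i' i s).toLinearMap) (mono P) x T
  exact h.trans (app_insA i' i s _ (mono P) (fun x => psi_mono i' i s P x) x T)

end Pool.Agent.Lib.MP_595dc0_ag.Dk
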