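import Mathlib
import Pool.Agent.Lib.MP_595dc0_ag.DkI

set_option autoImplicit false

/-! Molecules, links and the evaluation of systems of molecules. -/

namespace Pool.Agent.Lib.MP_595dc0_ag.Dk

open Equiv Finset MvPolynomial

/-- The scales. -/
def mu (k : ℕ) : ℕ → ℕ
  | 0 => 1
  | r + 1 => 64 * (k + 1) ^ 5 * mu k r

/-- Number of separators of each pair of rows in a molecule of class `j` (with `j + 1` rows). -/
def muC (k j : ℕ) : ℕ := mu k (k - j)

/-- Size of a separation certificate in class `j`. -/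
def nuC (k j : ℕ) : ℕ := (k + 1) ^ 2 * mu k (k - (j + 1))

/-- Bound for the number of columns of a link in class `j`. -/
def LB (k j : ℕ) : ℕ := 2 * k ^ 3 * nuC k j

/-- A certificate size that works in every class. -/
def nuS (k : ℕ) : ℕ := (k + 1) ^ 2 * mu k k

/-- Bound for the number of separators of a molecule. -/
def szS (k : ℕ) : ℕ := k ^ 2 * mu k k

/-- The skeleton of a molecule: its class and its separators. -/
structure Sk (k n : ℕ) : Type where
  cls : Fin k
  sep : Fin n → Perm (Fin k)

/-- A molecule: skeleton and letters (column, role). -/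
abbrev Mol (k n : ℕ) : Type := Sk k n × (Fin n → Fin k → Fin k)

variable {k n : ℕ}

/-- Valid skeletons. -/
def Sk.Valid (a : Sk k n) : Prop :=
  (∀ z, a.sep z = 1 ∨ ∃ c c', c ≠ c' ∧ c ≤ a.cls ∧ c' ≤ a.cls ∧ a.sep z = swap c c') ∧
    ∀ c c', c ≠ c' → c ≤ a.cls → c' ≤ a.cls →
      (univ.filter (fun z => a.sep z = swap c c')).card = muC k a.cls

/-- Permutations of the real roles of class `j`. -/
def GamJ (j : Fin k) : Finset (Perm (Fin k)) := univ.filter (fun π => ∀ c, j < c → π c = c)

/-- One permutation of the real roles for each class. -/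
def GamF (k : ℕ) : Finset (Fin k → Perm (Fin k)) := Fintype.piFinset GamJ

/-- The free polynomial ring on molecules. -/
abbrev FF (k n : ℕ) : Type := MvPolynomial (Mol k n) ℂ

section Sys

variable {M M' : Type}

/-- The molecule `m` of a system. -/
def mol (f : M → Sk k n) (x : Arr k n (M × Fin k)) (m : M) : Mol k n :=
  (f m, fun z c => x z (m, c))

/-- The array of a family of molecules. -/
def arrOf (F : M → Mol k n) : Arr k n (M × Fin k) := fun z r => (F r.1).2 z r.2

/-- The monomial of the molecules in `A`. -/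
noncomputable def ThA (A : Finset M) (f : M → Sk k n) (x : Arr k n (M × Fin k)) : FF k n :=
  ∏ m ∈ A, X (mol f x m)

/-- The monomial of a system. -/
noncomputable def Th [Fintype M] (f : M → Sk k n) (x : Arr k n (M × Fin k)) : FF k n :=
  ThA univ f x

/-- The real rows of the molecules in `A`, of class `j`. -/
def rows (j : Fin k) (A : Finset M) : Finset (M × Fin k) := A ×ˢ (Finset.Iic j)

/-- All molecules in `A` are valid of class `j`. -/
def SysOK (j : Fin k) (A : Finset M) (f : M → Sk k n) : Prop :=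
  ∀ m ∈ A, (f m).Valid ∧ (f m).cls = j

/-- A link: payer, target and the use of the separator columns of the payer. -/
structure Link (k n : ℕ) (M : Type) : Type where
  a : M
  b : M
  ζ : Fin n → Option (Fin k × Fin k × Fin k)

/-- The columns of a link. -/
def Link.cols (l : Link k n M) : Finset (Fin n) := univ.filter (fun z => l.ζ z ≠ none)

/-- The link involves `m`. -/
def Link.touch (l : Link k n M) (m : M) : Prop := m = l.a ∨ m = l.b

/-- Valid links. -/
def Link.Valid (j : Fin k) (f : M → Sk k n) (l : Link k n M) : Prop :=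
  l.a ≠ l.b ∧
    (∀ z c c' e, l.ζ z = some (c, c', e) →
      c ≠ c' ∧ c ≤ j ∧ c' ≤ j ∧ e ≤ j ∧ (f l.a).sep z = swap c c') ∧
    (∀ c c' e, c ≠ c' → c ≤ j → c' ≤ j → e ≤ j → 2 * nuC k j ≤
      (univ.filter (fun z => l.ζ z = some (c, c', e) ∨ l.ζ z = some (c', c, e))).card) ∧
    l.cols.card ≤ LB k j

/-- The role of the payer and the role of the target that the choice `ω` separates in column `z`. -/
def Link.ch (l : Link k n M) (ω : Finset (Fin n)) (z : Fin n) : Option (Fin k × Fin k) :=
  (l.ζ z).map (fun t => (if z ∈ ω then t.2.1 else t.1, t.2.2))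

/-- The choice `ω` separates role `c` of the payer from role `e` of the target. -/
def Link.sepd (j : Fin k) (l : Link k n M) (ω : Finset (Fin n)) (c e : Fin k) : Prop :=
  nuC k j ≤ (univ.filter (fun z => l.ch ω z = some (c, e))).card

instance (j : Fin k) (l : Link k n M) (ω : Finset (Fin n)) (c e : Fin k) :
    Decidable (l.sepd j ω c e) := by
  unfold Link.sepd
  infer_instance

/-- The choices of type `π`. -/
def Link.Om (j : Fin k) (l : Link k n M) (π : Perm (Fin k)) : Finset (Finset (Fin n)) :=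
  l.cols.powerset.filter (fun ω => ∀ c e, c ≤ j → e ≤ j → (l.sepd j ω c e ↔ c ≠ π e))

/-- The choices of no type. -/
def Link.OmBad (j : Fin k) (l : Link k n M) : Finset (Finset (Fin n)) :=
  l.cols.powerset.filter (fun ω => ∀ π ∈ GamJ j, ω ∉ l.Om j π)

/-- Links with a set of allowed choices. -/
abbrev LL (k n : ℕ) (M : Type) : Type := Link k n M × Finset (Finset (Fin n))

/-- Identity labels. -/
def idL (j : Fin k) (Λ : List (Link k n M)) : List (LL k n M) := Λ.map (fun l => (l, l.Om j 1))

/-- Admissible lists of links. -/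
def Adm (j : Fin k) (A : Finset M) (f : M → Sk k n) (Λ : List (Link k n M)) : Prop :=
  (∀ l ∈ Λ, l.Valid j f ∧ l.a ∈ A ∧ l.b ∈ A) ∧
    Λ.Pairwise (fun l l' => (∃ m, l.touch m ∧ l'.touch m) → Disjoint l.cols l'.cols)

/-- The links connect the molecules of `A`. -/
def Conn (A : Finset M) (Λ : List (Link k n M)) : Prop :=
  ∀ a ∈ A, ∀ b ∈ A,
    Relation.ReflTransGen (fun u v => ∃ l ∈ Λ, (l.a = u ∧ l.b = v) ∨ (l.a = v ∧ l.b = u)) a b

/-- Some link certifies that row `c` of `a` and row `e` of `b` are separated when `c ≠ π e`. -/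
def Lab (j : Fin k) (Λ : List (LL k n M)) (a b : M) (π : Perm (Fin k)) : Prop :=
  ∃ l ∈ Λ, (l.1.a = a ∧ l.1.b = b ∧ l.2 ⊆ l.1.Om j π) ∨
    (l.1.a = b ∧ l.1.b = a ∧ l.2 ⊆ l.1.Om j π⁻¹)

/-- Transport of a link. -/
def Link.map (θ : M → M') (γ : M → Perm (Fin k)) (l : Link k n M) : Link k n M' :=
  ⟨θ l.a, θ l.b, fun z => (l.ζ z).map (fun t => (γ l.a t.1, γ l.a t.2.1, γ l.b t.2.2))⟩

/-- A link after the insertion of a column. -/
def Link.ins (i' : Fin (n + 1)) (l : Link k n M) : Link k (n + 1) M :=
  ⟨l.a, l.b, Fin.insertNth (α := fun _ => Option (Fin k × Fin k × Fin k)) i' none l.ζ⟩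

/-- The embedding of rows given by an embedding of molecules and relabellings of roles. -/
def rowE (θ : M ↪ M') (γ : M → Perm (Fin k)) : M × Fin k ↪ M' × Fin k :=
  ⟨fun r => (θ r.1, γ r.1 r.2), by
    rintro ⟨a, c⟩ ⟨b, d⟩ h
    simp only [Prod.mk.injEq, EmbeddingLike.apply_eq_iff_eq] at h
    obtain ⟨h1, h2⟩ := h
    subst h1
    simp only [EmbeddingLike.apply_eq_iff_eq] at h2
    rw [h2]⟩

open Classical in
/-- The columns of the links that involve `m`. -/
noncomputable def blk (Λ : List (Link k n M)) (m : M) : Finset (Fin n) :=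
  univ.filter (fun z => ∃ l ∈ Λ, l.touch m ∧ z ∈ l.cols)

/-- `T` separates the rows `r`, `r'` in many columns. -/
def SP {R : Type} [DecidableEq R] (k j : ℕ) (T : GA n R) (r r' : R) : Prop :=
  ∃ Y : Finset (Fin n), nuC k j ≤ Y.card ∧ ∀ z ∈ Y, Anti T z r r'

variable [DecidableEq M]

/-- Number of links that involve `m`. -/
def load (Λ : List (Link k n M)) (m : M) : ℕ := Λ.countP (fun l => decide (m = l.a ∨ m = l.b))

/-- Good link systems. -/
def GoodL (j : Fin k) (A : Finset M) (f : M → Sk k n) (d : ℕ) (Λ : List (Link k n M)) : Prop :=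
  Adm j A f Λ ∧ Conn A Λ ∧ ∀ m, load Λ m ≤ d

/-- A permutation of the roles of molecule `m` in column `z`. -/
def sepG (z : Fin n) (m : M) (π : Perm (Fin k)) : GG n (M × Fin k) :=
  Pi.mulSingle z (Perm.prodExtendRight m π)

/-- The antisymmetriser of the separator of `m` in column `z`. -/
noncomputable def aCell (f : M → Sk k n) (p : Fin n × M) : GA n (M × Fin k) :=
  if (f p.2).sep p.1 = 1 then 1 else 1 - og (sepG p.1 p.2 ((f p.2).sep p.1))

/-- The antisymmetriser of all separators of the molecules in `A`. -/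
noncomputable def aS (A : Finset M) (f : M → Sk k n) : GA n (M × Fin k) :=
  cprod (univ ×ˢ A) (aCell f)

/-- The two summands of `(1 - x y x) / 2`. -/
noncomputable def pOp {R : Type} [DecidableEq R] (z : Fin n) (r r' e : R) (t : Prop)
    [Decidable t] : GA n R :=
  if t then (1 / 2 : ℂ) • ((1 - og (sw z r' e)) * og (sw z r e))
  else (1 / 2 : ℂ) • ((1 - og (sw z r e)) * (1 + og (sw z r' e) * og (sw z r e)))

/-- The operator of a choice in one column. -/
noncomputable def Link.op (l : Link k n M) (ω : Finset (Fin n)) (z : Fin n) :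
    GA n (M × Fin k) :=
  (l.ζ z).elim 1 (fun t => pOp z (l.a, t.1) (l.a, t.2.1) (l.b, t.2.2) (z ∈ ω))

/-- The operator of a choice. -/
noncomputable def Link.term (l : Link k n M) (ω : Finset (Fin n)) : GA n (M × Fin k) :=
  cprod univ (l.op ω)

/-- The operator of a link with allowed choices. -/
noncomputable def Lop (l : LL k n M) : GA n (M × Fin k) := ∑ ω ∈ l.2, l.1.term ω

/-- The operator of a list of links. -/
noncomputable def LP (Λ : List (LL k n M)) : GA n (M × Fin k) := (Λ.map Lop).prod

/-- The operator of a list of choices. -/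
noncomputable def TP (Λ : List (Link k n M × Finset (Fin n))) : GA n (M × Fin k) :=
  (Λ.map (fun l => l.1.term l.2)).prod

/-- A selection of one allowed choice in every link. -/
def Sel (Λ : List (LL k n M)) (Λ' : List (Link k n M × Finset (Fin n))) : Prop :=
  List.Forall₂ (fun l l' => l'.1 = l.1 ∧ l'.2 ∈ l.2) Λ Λ'

/-- The evaluation of a linked system. -/
noncomputable def EE (j : Fin k) (A : Finset M) (f : M → Sk k n) (Λ : List (LL k n M))
    (x : Arr k n (M × Fin k)) : AA k n :=
  app (mono (rows j A)) x (LP Λ * aS A f)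

/-- Exchange of the roles in `C` in the columns `Y` along `τ`. -/
def exG (C : Finset (Fin k)) (Y : Finset (Fin n)) (τ : Perm M) : GG n (M × Fin k) :=
  fun z => if z ∈ Y then Equiv.prodCongrLeft (fun c => if c ∈ C then τ else 1) else 1

/-- The skeletons after an exchange. -/
def exF (Y : Finset (Fin n)) (mv : Bool) (τ : Perm M) (f : M → Sk k n) : M → Sk k n :=
  fun m => ⟨(f m).cls, fun z => if mv = true ∧ z ∈ Y then (f (τ⁻¹ m)).sep z else (f m).sep z⟩

/-- Hypotheses of the exchange relation. -/
def Hyp2 (f : M → Sk k n) (e : Fin (k * k + 1) ↪ M) (C : Finset (Fin k)) (Y : Finset (Fin n))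
    (mv : Bool) : Prop :=
  (∀ (σ : Perm (Fin (k * k + 1))) (m : M), (exF Y mv (σ.viaEmbedding e) f m).Valid) ∧
    (∀ i i', (f (e i)).cls = (f (e i')).cls) ∧ C.card ≤ 2 ∧
    (∀ i, ∀ z ∈ Y, ∀ c, (f (e i)).sep z c ≠ c → (c ∈ C ↔ mv = true)) ∧
    ∀ i, (Y.filter (fun z => (f (e i)).sep z ≠ 1)).card ≤ 1

/-- The exchange relation for the molecules in `A`. -/
noncomputable def R2A (A : Finset M) (f : M → Sk k n) (x : Arr k n (M × Fin k))
    (e : Fin (k * k + 1) ↪ M) (C : Finset (Fin k)) (Y : Finset (Fin n)) (mv : Bool) : FF k n :=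
  ∑ σ : Perm (Fin (k * k + 1)), ((Perm.sign σ : ℤ) : ℂ) •
    ThA A (exF Y mv (σ.viaEmbedding e) f) (act (exG C Y (σ.viaEmbedding e)) x)

/-- Hypotheses of the relation between two rows of one role. -/
def Hyp1 (f : M → Sk k n) (m m' : M) (c : Fin k) (Y : Finset (Fin n)) : Prop :=
  (∀ a, (f a).Valid) ∧ m ≠ m' ∧ (f m).cls = (f m').cls ∧ nuS k ≤ Y.card ∧
    ∀ z ∈ Y, (f m).sep z c = c ∧ (f m').sep z c = c

end Sys

/-- The evaluation of a single molecule. -/
noncomputable def Ev1 (m : Mol k n) : AA k n :=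
  EE m.1.cls (univ : Finset Unit) (fun _ => m.1) [] (arrOf (fun _ => m))

/-- The error ideal of class `j`. -/
noncomputable def Err (n : ℕ) (j : Fin k) : Ideal (AA k n) :=
  JJ k n (D0 k) ⊔
    Ideal.span {p | ∃ m : Mol k n, m.1.Valid ∧ m.1.cls.val = j.val + 1 ∧ p = Ev1 m}

open Classical in
/-- The evaluation of a multiset of molecules of class `j`. -/
noncomputable def evC (j : Fin k) (s : Multiset (Mol k n)) : AA k n :=
  if h : ∃ Λ, GoodL j univ (fun i => (s.toList.get i).1) 2 Λ then
    EE j univ (fun i => (s.toList.get i).1) (idL j h.choose) (arrOf s.toList.get)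
  else 0

/-- The linear extension of a function on multisets of molecules. -/
noncomputable def linF {W : Type} [AddCommGroup W] [Module ℂ W] (φ : Multiset (Mol k n) → W) :
    FF k n →ₗ[ℂ] W :=
  (basisMonomials (Mol k n) ℂ).constr ℂ (fun d => φ (Finsupp.toMultiset d))

/-- The monomial of a multiset. -/
noncomputable def monoS (s : Multiset (Mol k n)) : FF k n := (s.map X).prod

/-- All molecules of `s` are valid of class `j`. -/
def MsOK (j : Fin k) (s : Multiset (Mol k n)) : Prop := ∀ m ∈ s, m.1.Valid ∧ m.1.cls = j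

open Classical in
/-- The evaluation of a multiset of molecules. -/
noncomputable def evM (s : Multiset (Mol k n)) : AA k n :=
  if ∀ m ∈ s, m.1.Valid then ∏ j, evC j (s.filter (fun m => m.1.cls = j)) else 0

/-- The evaluation map. -/
noncomputable def ev : FF k n →ₗ[ℂ] AA k n := linF evM

/-- Relabelling the roles of a skeleton. -/
def relS (π : Perm (Fin k)) (a : Sk k n) : Sk k n := ⟨a.cls, fun z => π * a.sep z * π⁻¹⟩

/-- Relabelling the roles of a molecule. -/
def relM1 (π : Perm (Fin k)) (m : Mol k n) : Mol k n := (relS π m.1, fun z c => m.2 z (π⁻¹ c))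

/-- Relabelling the roles class by class. -/
def relM (γ : Fin k → Perm (Fin k)) (m : Mol k n) : Mol k n := relM1 (γ m.1.cls) m

/-- Relabelling on the free ring. -/
noncomputable def relF (γ : Fin k → Perm (Fin k)) : FF k n →ₐ[ℂ] FF k n := rename (relM γ)

/-- A skeleton after the insertion of a column; the separator of column `i` moves if `mv`. -/
def insSk (i' : Fin (n + 1)) (i : Fin n) (mv : Prop) [Decidable mv] (a : Sk k n) : Sk k (n + 1) :=
  ⟨a.cls, if mv then
      Fin.insertNth (α := fun _ => Perm (Fin k)) i' (a.sep i) (Function.update a.sep i 1)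
    else Fin.insertNth (α := fun _ => Perm (Fin k)) i' 1 a.sep⟩

/-- A molecule after the insertion of a column with letters `y`. -/
def insMol (i' : Fin (n + 1)) (i : Fin n) (mv : Prop) [Decidable mv] (m : Mol k n)
    (y : Fin k → Fin k) : Mol k (n + 1) :=
  (insSk i' i mv m.1, Fin.insertNth (α := fun _ => Fin k → Fin k) i' y
    (if mv then Function.update m.2 i (fun c => m.2 i ((m.1.sep i)⁻¹ c)) else m.2))

open Classical in
/-- The lift of the column splitting to the free ring. -/
noncomputable def ot (i' : Fin (n + 1)) (i : Fin n) (s : Fin k → ℕ) : FF k n →ₐ[ℂ] FF k (n + 1) :=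
  aeval (fun m : Mol k n => if m.1.Valid then
    ∑ y : Fin k → Fin k, coef s (m.2 i) y •
      (X (insMol i' i False m y) + if m.1.sep i = 1 then 0 else X (insMol i' i True m y))
    else 0)

/-- The skeletons of a system after an insertion that moves the separators of `W`. -/
def insF {M : Type} [DecidableEq M] (i' : Fin (n + 1)) (i : Fin n) (W : Finset M)
    (f : M → Sk k n) : M → Sk k (n + 1) := fun m => insSk i' i (m ∈ W) (f m)

/-- The transpositions left in the old column by the moved separators. -/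
def sWG {M : Type} [DecidableEq M] (i' : Fin (n + 1)) (i : Fin n) (W : Finset M)
    (f : M → Sk k n) : GG (n + 1) (M × Fin k) :=
  Pi.mulSingle (i'.succAbove i)
    (Equiv.prodCongrRight (fun m => if m ∈ W then (f m).sep i else 1))

/-- The class weight of a molecule. -/
def wtM (m : Mol k n) : Fin k → ℕ := Pi.single m.1.cls 1

/-- Number of molecules of each class. -/
def bdeg (s : Multiset (Mol k n)) : Fin k → ℕ := (s.map wtM).sum

/-- The lexicographic order in which the top class is most significant. -/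
def blt (β β' : Fin k → ℕ) : Prop :=
  toLex (fun j => β (Fin.rev j)) < toLex (fun j => β' (Fin.rev j))

/-- The degree of a shape. -/
def dg (β : Fin k → ℕ) : ℕ := ∑ j, (j.val + 1) * β j

/-- Products of evaluations of total shape `β`. -/
def Gen (n : ℕ) (β : Fin k → ℕ) : Set (AA k n) :=
  {p | ∃ L : List (Multiset (Mol k n)), (L.map bdeg).sum = β ∧ p = (L.map evM).prod}

/-- The ideal of shape `β`. -/
noncomputable def GI (n : ℕ) (β : Fin k → ℕ) : Ideal (AA k n) := Ideal.span (Gen n β)

/-- The ideal of all higher shapes. -/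
noncomputable def Hi (n : ℕ) (β : Fin k → ℕ) : Ideal (AA k n) :=
  JJ k n (D0 k) ⊔ ⨆ (β' : Fin k → ℕ) (_ : blt β β'), GI n β'

/-- Invalid variables. -/
def Rel0 (k n : ℕ) : Set (FF k n) := {p | ∃ m : Mol k n, ¬ m.1.Valid ∧ p = X m}

/-- Relations between two rows of one role. -/
def Rel1 (k n : ℕ) : Set (FF k n) :=
  {p | ∃ (M : Type) (_ : Fintype M) (_ : DecidableEq M) (f : M → Sk k n)
    (x : Arr k n (M × Fin k)) (m m' : M) (c : Fin k) (Y : Finset (Fin n)),
    Hyp1 f m m' c Y ∧ p = app (Th f) x (aY Y (m, c) (m', c))}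

/-- Exchange relations. -/
def Rel2 (k n : ℕ) : Set (FF k n) :=
  {p | ∃ (M : Type) (_ : Fintype M) (_ : DecidableEq M) (f : M → Sk k n)
    (x : Arr k n (M × Fin k)) (e : Fin (k * k + 1) ↪ M) (C : Finset (Fin k))
    (Y : Finset (Fin n)) (mv : Bool), Hyp2 f e C Y mv ∧ p = R2A univ f x e C Y mv}

/-- The ideal of relations. -/
noncomputable def Rel (k n : ℕ) : Ideal (FF k n) := Ideal.span (Rel0 k n ∪ Rel1 k n ∪ Rel2 k n)

/-- Invariant symbols of the elements of `JJ k n D`. -/
def InvS (k n D : ℕ) : Set (FF k n) :=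
  {h | ∃ β, IsWeightedHomogeneous wtM h β ∧ (∀ γ ∈ GamF k, relF γ h = h) ∧
    ev h ∈ JJ k n D ⊔ Hi n β}

/-- The ideal of symbols. -/
noncomputable def Nt (k n D : ℕ) : Ideal (FF k n) := Ideal.span (InvS k n D) ⊔ Rel k n

end Pool.Agent.Lib.MP_595dc0_ag.Dk
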