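import Mathlib
import Pool.Agent.Lib.MP_595dc0_ag.DkL1

set_option autoImplicit false

namespace Pool.Agent.Lib.MP_595dc0_ag.Dk

open Equiv Finset MvPolynomial

variable {k n : ℕ} {M M' : Type}

theorem mu_pos (k r : ℕ) : 0 < mu k r := by
  induction r with
  | zero => simp [mu]
  | succ r ih =>
    simp only [mu]
    positivity

theorem mu_mono (k : ℕ) {r r' : ℕ} (h : r ≤ r') : mu k r ≤ mu k r' := by
  refine monotone_nat_of_le_succ (f := mu k) (fun r => ?_) h
  simp only [mu]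
  have h1 : 1 ≤ 64 * (k + 1) ^ 5 := Nat.succ_le_of_lt (by positivity)
  exact Nat.le_mul_of_pos_left _ h1

theorem nuC_pos (k j : ℕ) : 0 < nuC k j := by
  unfold nuC
  have := mu_pos k (k - (j + 1))
  positivity

theorem nuC_le_nuS (k j : ℕ) : nuC k j ≤ nuS k := by
  unfold nuC nuS
  exact Nat.mul_le_mul_left _ (mu_mono k (Nat.sub_le _ _))

theorem nuC_eq (k j : ℕ) : nuC k j = (k + 1) ^ 2 * muC k (j + 1) := rfl

theorem muC_eq (j : Fin k) : muC k j = 64 * (k + 1) ^ 3 * nuC k j := by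
  unfold muC nuC
  have h : k - (j : ℕ) = (k - ((j : ℕ) + 1)) + 1 := by
    have := j.isLt
    omega
  rw [h]
  simp only [mu]
  ring

theorem nuC_le_LB (j : Fin k) : nuC k j ≤ LB k j := by
  unfold LB
  have hk : 0 < k := lt_of_le_of_lt (Nat.zero_le _) j.isLt
  exact Nat.le_mul_of_pos_left _ (by positivity)

theorem room_le_muC (j : Fin k) : 20 * LB k j + 2 * k * nuC k j ≤ muC k j := by
  rw [muC_eq]
  unfold LB
  have h : 40 * k ^ 3 + 2 * k ≤ 64 * (k + 1) ^ 3 := by
    have e : 64 * (k + 1) ^ 3 =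
        40 * k ^ 3 + 2 * k + (24 * k ^ 3 + 192 * k ^ 2 + 190 * k + 64) := by ring
    rw [e]
    exact Nat.le_add_right _ _
  calc 20 * (2 * k ^ 3 * nuC k j) + 2 * k * nuC k j = (40 * k ^ 3 + 2 * k) * nuC k j := by ring
    _ ≤ 64 * (k + 1) ^ 3 * nuC k j := Nat.mul_le_mul_right _ h

theorem Sk.Valid.card_sep_le {a : Sk k n} (h : a.Valid) :
    (univ.filter (fun z => a.sep z ≠ 1)).card ≤ szS k := by
  classical
  set P : Finset (Fin k × Fin k) :=
    univ.filter (fun p => p.1 ≠ p.2 ∧ p.1 ≤ a.cls ∧ p.2 ≤ a.cls) with hP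
  have hsub : univ.filter (fun z => a.sep z ≠ 1) ⊆
      P.biUnion (fun p => univ.filter (fun z => a.sep z = swap p.1 p.2)) := by
    intro z hz
    rw [mem_filter] at hz
    rcases h.1 z with h1 | ⟨c, c', h1, h2, h3, h4⟩
    · exact absurd h1 hz.2
    · rw [mem_biUnion]
      refine ⟨(c, c'), ?_, ?_⟩
      · rw [hP, mem_filter]
        exact ⟨mem_univ _, h1, h2, h3⟩
      · rw [mem_filter]
        exact ⟨mem_univ _, h4⟩
  have h1 : (P.biUnion (fun p => univ.filter (fun z => a.sep z = swap p.1 p.2))).card ≤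
      P.card * mu k k := by
    refine card_biUnion_le_card_mul _ _ _ (fun p hp => ?_)
    rw [hP, mem_filter] at hp
    rw [h.2 p.1 p.2 hp.2.1 hp.2.2.1 hp.2.2.2]
    exact mu_mono k (Nat.sub_le _ _)
  have h2 : P.card ≤ k ^ 2 := by
    calc P.card ≤ (univ : Finset (Fin k × Fin k)).card := card_le_card (filter_subset _ _)
      _ = k ^ 2 := by simp [sq]
  calc _ ≤ _ := card_le_card hsub
    _ ≤ P.card * mu k k := h1
    _ ≤ szS k := Nat.mul_le_mul_right _ h2

theorem Sk.Valid.sep_inv {a : Sk k n} (h : a.Valid) (z : Fin n) : (a.sep z)⁻¹ = a.sep z := by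
  rcases h.1 z with h1 | ⟨c, c', -, -, -, h4⟩
  · rw [h1, inv_one]
  · rw [h4, swap_inv]

theorem one_mem_GamJ (j : Fin k) : (1 : Perm (Fin k)) ∈ GamJ j := by
  simp [GamJ]

theorem mul_mem_GamJ {j : Fin k} {π π' : Perm (Fin k)} (h : π ∈ GamJ j) (h' : π' ∈ GamJ j) :
    π * π' ∈ GamJ j := by
  simp only [GamJ, mem_filter, mem_univ, true_and] at h h' ⊢
  intro c hc
  rw [Perm.mul_apply, h' c hc, h c hc]

theorem inv_mem_GamJ {j : Fin k} {π : Perm (Fin k)} (h : π ∈ GamJ j) : π⁻¹ ∈ GamJ j := by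
  simp only [GamJ, mem_filter, mem_univ, true_and] at h ⊢
  intro c hc
  rw [Perm.inv_eq_iff_eq, h c hc]

theorem GamJ_le_iff {j : Fin k} {π : Perm (Fin k)} (h : π ∈ GamJ j) (c : Fin k) :
    π c ≤ j ↔ c ≤ j := by
  simp only [GamJ, mem_filter, mem_univ, true_and] at h
  constructor
  · intro h1
    by_contra h2
    rw [h c (not_le.mp h2)] at h1
    exact h2 h1
  · intro h1
    by_contra h2
    have h3 := π.injective (h (π c) (not_le.mp h2))
    rw [h3] at h2
    exact h2 h1

theorem GamJ_exists_ne {j : Fin k} {π π' : Perm (Fin k)} (h : π ∈ GamJ j) (h' : π' ∈ GamJ j)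
    (hne : π ≠ π') : ∃ e, e ≤ j ∧ π e ≠ π' e := by
  simp only [GamJ, mem_filter, mem_univ, true_and] at h h'
  by_contra hc
  apply hne
  ext e
  rcases le_or_gt e j with h1 | h1
  · by_contra h2
    exact hc ⟨e, h1, fun h3 => h2 (by rw [h3])⟩
  · rw [h e h1, h' e h1]

theorem sum_GamJ_inv {W : Type} [AddCommMonoid W] (j : Fin k) (φ : Perm (Fin k) → W) :
    ∑ π ∈ GamJ j, φ π⁻¹ = ∑ π ∈ GamJ j, φ π := by
  refine Finset.sum_nbij' (fun π => π⁻¹) (fun π => π⁻¹) ?_ ?_ ?_ ?_ ?_
  · exact fun π hπ => inv_mem_GamJ hπ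
  · exact fun π hπ => inv_mem_GamJ hπ
  · exact fun π _ => inv_inv π
  · exact fun π _ => inv_inv π
  · exact fun π _ => rfl

theorem mem_GamF (γ : Fin k → Perm (Fin k)) : γ ∈ GamF k ↔ ∀ j, γ j ∈ GamJ j := by
  simp [GamF, Fintype.mem_piFinset]

theorem card_GamF_ne_zero (k : ℕ) : ((GamF k).card : ℂ) ≠ 0 := by
  have h : (GamF k).Nonempty := ⟨1, (mem_GamF _).mpr (fun j => one_mem_GamJ j)⟩
  exact Nat.cast_ne_zero.mpr (card_ne_zero.mpr h)

theorem sum_GamF_mul {W : Type} [AddCommMonoid W] (φ : (Fin k → Perm (Fin k)) → W)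
    (γ' : Fin k → Perm (Fin k)) (h : γ' ∈ GamF k) :
    ∑ γ ∈ GamF k, φ (γ' * γ) = ∑ γ ∈ GamF k, φ γ := by
  rw [mem_GamF] at h
  refine Finset.sum_nbij' (fun γ => γ' * γ) (fun γ => γ'⁻¹ * γ) ?_ ?_ ?_ ?_ ?_
  · intro γ hγ
    rw [mem_GamF] at hγ ⊢
    exact fun j => mul_mem_GamJ (h j) (hγ j)
  · intro γ hγ
    rw [mem_GamF] at hγ ⊢
    exact fun j => mul_mem_GamJ (inv_mem_GamJ (h j)) (hγ j)
  · exact fun γ _ => inv_mul_cancel_left γ' γ
  · exact fun γ _ => mul_inv_cancel_left γ' γ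
  · exact fun γ _ => rfl

theorem DkL1aAux.relS_valid_of (π : Perm (Fin k)) (a : Sk k n) (h : π ∈ GamJ a.cls)
    (hv : a.Valid) : (relS π a).Valid := by
  refine ⟨?_, ?_⟩
  · intro z
    show π * a.sep z * π⁻¹ = 1 ∨
      ∃ c c', c ≠ c' ∧ c ≤ a.cls ∧ c' ≤ a.cls ∧ π * a.sep z * π⁻¹ = swap c c'
    rcases hv.1 z with h1 | ⟨c, c', h1, h2, h3, h4⟩
    · left
      rw [h1, mul_one, mul_inv_cancel]
    · right
      refine ⟨π c, π c', fun e => h1 (π.injective e), (GamJ_le_iff h c).mpr h2,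
        (GamJ_le_iff h c').mpr h3, ?_⟩
      rw [h4, swap_apply_apply]
  · intro c c' hne hc hc'
    show (univ.filter (fun z => π * a.sep z * π⁻¹ = swap c c')).card = muC k a.cls
    have hi := inv_mem_GamJ h
    rw [← hv.2 (π⁻¹ c) (π⁻¹ c') (fun e => hne (π⁻¹.injective e)) ((GamJ_le_iff hi c).mpr hc)
      ((GamJ_le_iff hi c').mpr hc')]
    congr 1
    refine filter_congr (fun z _ => ?_)
    rw [swap_apply_apply, inv_inv]
    constructor
    · intro e
      rw [← e]
      group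
    · intro e
      rw [e]
      group

theorem relS_valid (π : Perm (Fin k)) (a : Sk k n) (h : π ∈ GamJ a.cls) :
    (relS π a).Valid ↔ a.Valid := by
  constructor
  · intro hv
    have h1 := DkL1aAux.relS_valid_of π⁻¹ (relS π a) (inv_mem_GamJ h) hv
    have h2 : relS π⁻¹ (relS π a) = a := by
      cases a with
      | mk cls sep =>
        simp only [relS, Sk.mk.injEq, true_and]
        funext z
        group
    rwa [h2] at h1
  · exact DkL1aAux.relS_valid_of π a h

theorem relM1_one (m : Mol k n) : relM1 1 m = m := by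
  obtain ⟨⟨cls, sep⟩, x⟩ := m
  simp [relM1, relS]

theorem relM1_mul (π π' : Perm (Fin k)) (m : Mol k n) :
    relM1 (π * π') m = relM1 π (relM1 π' m) := by
  obtain ⟨⟨cls, sep⟩, x⟩ := m
  simp only [relM1, relS, Prod.mk.injEq, Sk.mk.injEq, true_and]
  refine ⟨?_, ?_⟩
  · funext z
    group
  · funext z c
    rw [mul_inv_rev, Perm.mul_apply]

theorem relF_mul (γ γ' : Fin k → Perm (Fin k)) (h : FF k n) :
    relF (γ * γ') h = relF γ (relF γ' h) := by
  unfold relF
  have e : relM (n := n) (γ * γ') = relM γ ∘ relM γ' := by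
    funext m
    exact relM1_mul _ _ m
  rw [rename_rename, e]

theorem relF_homog (γ : Fin k → Perm (Fin k)) (h : FF k n) (β : Fin k → ℕ)
    (hh : IsWeightedHomogeneous wtM h β) : IsWeightedHomogeneous wtM (relF γ h) β := by
  intro d hd
  obtain ⟨u, hu, hne⟩ := coeff_rename_ne_zero _ _ _ hd
  rw [← hh hne, ← hu]
  simp only [Finsupp.weight_apply]
  rw [Finsupp.sum_mapDomain_index (by simp) (fun _ _ _ => add_smul _ _ _)]
  rfl

theorem insSk_valid (i' : Fin (n + 1)) (i : Fin n) (mv : Prop) [Decidable mv] (a : Sk k n)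
    (h : a.Valid) : (insSk i' i mv a).Valid := by
  unfold insSk
  refine ⟨?_, ?_⟩
  · intro z
    by_cases hmv : mv
    · simp only [hmv, if_true]
      rcases Fin.eq_self_or_eq_succAbove i' z with rfl | ⟨z', rfl⟩
      · rw [Fin.insertNth_apply_same]
        exact h.1 i
      · rw [Fin.insertNth_apply_succAbove]
        by_cases hz : z' = i
        · subst hz
          rw [Function.update_self]
          exact Or.inl rfl
        · rw [Function.update_of_ne hz]
          exact h.1 z'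
    · simp only [hmv, if_false]
      rcases Fin.eq_self_or_eq_succAbove i' z with rfl | ⟨z', rfl⟩
      · rw [Fin.insertNth_apply_same]
        exact Or.inl rfl
      · rw [Fin.insertNth_apply_succAbove]
        exact h.1 z'
  · intro c c' hne hc hc'
    have h1 : (1 : Perm (Fin k)) ≠ swap c c' := fun e => hne (swap_eq_one_iff.mp e.symm)
    rw [← h.2 c c' hne hc hc', card_filter, card_filter, Fin.sum_univ_succAbove _ i']
    by_cases hmv : mv
    · simp only [hmv, if_true, Fin.insertNth_apply_same, Fin.insertNth_apply_succAbove]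
      rw [← Finset.add_sum_erase univ _ (mem_univ i),
        ← Finset.add_sum_erase univ (fun z => if a.sep z = swap c c' then 1 else 0) (mem_univ i),
        Function.update_self, if_neg h1, zero_add]
      congr 1
      refine Finset.sum_congr rfl (fun z hz => ?_)
      rw [Function.update_of_ne (ne_of_mem_erase hz)]
    · simp only [hmv, if_false, Fin.insertNth_apply_same, Fin.insertNth_apply_succAbove]
      rw [if_neg h1, zero_add]

theorem exF_one [DecidableEq M] (Y : Finset (Fin n)) (mv : Bool) (f : M → Sk k n) :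
    exF Y mv 1 f = f := by
  funext m
  simp [exF]

theorem exF_false [DecidableEq M] (Y : Finset (Fin n)) (τ : Perm M) (f : M → Sk k n) :
    exF Y false τ f = f := by
  funext m
  simp [exF]

theorem exF_of_fixed [DecidableEq M] (Y : Finset (Fin n)) (mv : Bool) (τ : Perm M)
    (f : M → Sk k n) (m : M) (hm : τ m = m) : exF Y mv τ f m = f m := by
  have h : τ⁻¹ m = m := by rw [Perm.inv_eq_iff_eq, hm]
  simp [exF, h]

theorem DkL1aAux.exG_apply' [DecidableEq M] (C : Finset (Fin k)) (Y : Finset (Fin n))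
    (τ : Perm M) (z : Fin n) (m : M) (c : Fin k) :
    exG C Y τ z (m, c) = (if z ∈ Y ∧ c ∈ C then τ m else m, c) := by
  unfold exG
  by_cases hz : z ∈ Y
  · by_cases hc : c ∈ C
    · simp [hz, hc, Equiv.prodCongrLeft]
    · simp [hz, hc, Equiv.prodCongrLeft]
  · simp [hz]

theorem exG_mul [DecidableEq M] (C : Finset (Fin k)) (Y : Finset (Fin n)) (τ τ' : Perm M) :
    exG C Y (τ * τ') = exG C Y τ * exG C Y τ' := by
  funext z
  ext1 r
  obtain ⟨m, c⟩ := r
  rw [Pi.mul_apply, Perm.mul_apply, DkL1aAux.exG_apply', DkL1aAux.exG_apply',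
    DkL1aAux.exG_apply']
  by_cases hz : z ∈ Y ∧ c ∈ C
  · simp [hz]
  · simp [hz]

theorem exG_one [DecidableEq M] (C : Finset (Fin k)) (Y : Finset (Fin n)) :
    exG C Y (1 : Perm M) = 1 := by
  funext z
  ext1 r
  obtain ⟨m, c⟩ := r
  rw [DkL1aAux.exG_apply']
  simp

theorem exG_apply [DecidableEq M] (C : Finset (Fin k)) (Y : Finset (Fin n)) (τ : Perm M)
    (z : Fin n) (m : M) (c : Fin k) :
    exG C Y τ z (m, c) = (if z ∈ Y ∧ c ∈ C then τ m else m, c) := by
  exact DkL1aAux.exG_apply' C Y τ z m c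

theorem exG_inv_apply [DecidableEq M] (C : Finset (Fin k)) (Y : Finset (Fin n)) (τ : Perm M)
    (z : Fin n) (m : M) (c : Fin k) :
    (exG C Y τ z)⁻¹ (m, c) = (if z ∈ Y ∧ c ∈ C then τ⁻¹ m else m, c) := by
  rw [Perm.inv_eq_iff_eq, exG_apply]
  by_cases hz : z ∈ Y ∧ c ∈ C
  · simp [hz]
  · simp [hz]

theorem exG_swap [DecidableEq M] (c : Fin k) (Y : Finset (Fin n)) (m m' : M) :
    exG {c} Y (swap m m') = swS Y (m, c) (m', c) := by
  funext z
  ext1 r
  obtain ⟨a, e⟩ := r
  rw [exG_apply]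
  unfold swS
  by_cases hz : z ∈ Y
  · simp only [hz, true_and, mem_singleton, if_true]
    by_cases he : e = c
    · subst he
      simp only [if_true]
      by_cases h1 : a = m
      · subst h1
        simp
      · by_cases h2 : a = m'
        · subst h2
          simp
        · rw [swap_apply_of_ne_of_ne h1 h2, swap_apply_of_ne_of_ne]
          · exact fun e => h1 (Prod.mk.inj e).1
          · exact fun e => h2 (Prod.mk.inj e).1
    · rw [if_neg he, swap_apply_of_ne_of_ne]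
      · exact fun e' => he (Prod.mk.inj e').2
      · exact fun e' => he (Prod.mk.inj e').2
  · simp [hz]

theorem exG_mem_GD [DecidableEq M] (C : Finset (Fin k)) (Y : Finset (Fin n)) (τ : Perm M) :
    exG C Y τ ∈ GD {q : Fin n × (M × Fin k) | q.1 ∈ Y ∧ τ q.2.1 ≠ q.2.1 ∧ q.2.2 ∈ C} := by
  rw [mem_GD]
  rintro z ⟨m, c⟩ h
  rw [exG_apply]
  by_cases hz : z ∈ Y ∧ c ∈ C
  · rw [if_pos hz]
    have : τ m = m := by
      by_contra h1
      exact h ⟨hz.1, h1, hz.2⟩
    rw [this]
  · rw [if_neg hz]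

end Pool.Agent.Lib.MP_595dc0_ag.Dk
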