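import Mathlib
import Pool.Agent.Lib.MP_595dc0_ag.DkL1a

set_option autoImplicit false

namespace Pool.Agent.Lib.MP_595dc0_ag.Dk

open Equiv Finset MvPolynomial

variable {k n : ℕ} {M M' : Type} [DecidableEq M] [DecidableEq M']

theorem l1b_sepG_apply (z z' : Fin n) (m m' : M) (π : Perm (Fin k)) (c : Fin k) :
    sepG z m π z' (m', c) = (m', if z' = z ∧ m' = m then π c else c) := by
  unfold sepG
  by_cases hz : z' = z
  · subst hz
    rw [Pi.mulSingle_eq_same]
    by_cases hm : m' = m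
    · subst hm
      simp
    · rw [Perm.prodExtendRight_apply_ne _ hm]
      simp [hm]
  · rw [Pi.mulSingle_eq_of_ne hz]
    simp [hz]

theorem l1b_sepG_mem_GD (z : Fin n) (m : M) (π : Perm (Fin k)) :
    sepG z m π ∈ GD {q : Fin n × (M × Fin k) | q.1 = z ∧ q.2.1 = m ∧ π q.2.2 ≠ q.2.2} := by
  rintro z' ⟨m', c⟩ h
  rw [l1b_sepG_apply]
  split_ifs with h1
  · have h2 : π c = c := by
      by_contra h2
      exact h ⟨h1.1, h1.2, h2⟩
    rw [h2]
  · rfl

theorem sepG_swap (z : Fin n) (m : M) (c c' : Fin k) :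
    sepG z m (swap c c') = sw z (m, c) (m, c') := by
  unfold sepG sw
  congr 1
  ext1 ⟨m', e⟩
  by_cases hm : m' = m
  · subst hm
    rw [Perm.prodExtendRight_apply_eq]
    exact ((Function.Injective.swap_apply (f := fun c : Fin k => (m', c))
      (fun _ _ h => (Prod.ext_iff.mp h).2) c c' e)).symm
  · rw [Perm.prodExtendRight_apply_ne _ hm, swap_apply_of_ne_of_ne]
    · exact fun h => hm (Prod.ext_iff.mp h).1
    · exact fun h => hm (Prod.ext_iff.mp h).1

theorem aCell_mem_SA (f : M → Sk k n) (p : Fin n × M) :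
    aCell f p ∈ SA {q : Fin n × (M × Fin k) |
      q.1 = p.1 ∧ q.2.1 = p.2 ∧ (f p.2).sep p.1 q.2.2 ≠ q.2.2} := by
  unfold aCell
  split_ifs
  · exact one_mem _
  · exact sub_mem (one_mem _) (og_mem_SA _ _ (l1b_sepG_mem_GD _ _ _))

theorem aCell_commute (f f' : M → Sk k n) (p p' : Fin n × M) (h : p ≠ p') :
    Commute (aCell f p) (aCell f' p') := by
  refine commute_of_SA _ _ ?_ _ _ (aCell_mem_SA f p) (aCell_mem_SA f' p')
  rw [Set.disjoint_left]
  intro q h1 h2
  exact h (Prod.ext (h1.1.symm.trans h2.1) (h1.2.1.symm.trans h2.2.1))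

theorem aS_mem_SA (A : Finset M) (f : M → Sk k n) :
    aS A f ∈ SA {q : Fin n × (M × Fin k) | q.2.1 ∈ A ∧ (f q.2.1).sep q.1 q.2.2 ≠ q.2.2} := by
  refine cprod_mem _ _ _ fun p hp => SA_mono _ _ ?_ (aCell_mem_SA f p)
  rintro q ⟨h1, h2, h3⟩
  refine ⟨h2 ▸ (mem_product.mp hp).2, ?_⟩
  rw [h1, h2]
  exact h3

theorem anti_aS (A : Finset M) (f : M → Sk k n) (m : M) (hm : m ∈ A) (z : Fin n) (c c' : Fin k)
    (hc : c ≠ c') (h : (f m).sep z = swap c c') : Anti (aS A f) z (m, c) (m, c') := by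
  unfold aS
  rw [cprod_erase _ _ (fun p _ p' _ hp => aCell_commute f f p p' hp) (z, m)
    (mem_product.mpr ⟨mem_univ _, hm⟩)]
  refine Anti.mul_right ?_ _
  have h1 : swap c c' ≠ 1 := fun e => hc (swap_eq_one_iff.mp e)
  rw [aCell, h, if_neg h1, sepG_swap]
  exact anti_one_sub _ _ _

theorem aS_empty (f : M → Sk k n) : aS ∅ f = 1 := by
  rw [aS, product_empty, cprod_empty]

theorem aS_union (A₁ A₂ : Finset M) (h : Disjoint A₁ A₂) (f : M → Sk k n) :
    aS (A₁ ∪ A₂) f = aS A₁ f * aS A₂ f := by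
  unfold aS
  rw [product_union]
  exact cprod_union _ _ _ (Finset.disjoint_product.mpr (Or.inr h))
    fun p _ p' _ hp => aCell_commute f f p p' hp

theorem aS_congr (A : Finset M) (f f' : M → Sk k n) (h : ∀ m ∈ A, (f m).sep = (f' m).sep) :
    aS A f = aS A f' := by
  refine cprod_congr _ _ _ fun p hp => ?_
  unfold aCell
  rw [h p.2 (mem_product.mp hp).2]

theorem l1b_embG_sepG (θ : M ↪ M') (γ : M → Perm (Fin k)) (z : Fin n) (m : M)
    (π : Perm (Fin k)) :
    embG (rowE θ γ) (sepG z m π) = sepG z (θ m) (γ m * π * (γ m)⁻¹) := by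
  funext z'
  ext1 r
  change (sepG z m π z').viaEmbedding (rowE θ γ) r = _
  by_cases hr : r ∈ Set.range (rowE θ γ)
  · obtain ⟨⟨m', c⟩, rfl⟩ := hr
    rw [Perm.viaEmbedding_apply, l1b_sepG_apply]
    change (θ m', γ m' (if z' = z ∧ m' = m then π c else c)) = sepG _ _ _ z' (θ m', γ m' c)
    rw [l1b_sepG_apply]
    by_cases h1 : z' = z ∧ m' = m
    · obtain ⟨rfl, rfl⟩ := h1
      simp
    · rw [if_neg h1, if_neg fun h2 => h1 ⟨h2.1, θ.injective h2.2⟩]
  · rw [Perm.viaEmbedding_apply_of_notMem _ _ _ hr]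
    obtain ⟨m', c⟩ := r
    rw [l1b_sepG_apply, if_neg]
    rintro ⟨-, rfl⟩
    refine hr ⟨(m, (γ m)⁻¹ c), ?_⟩
    change (θ m, γ m ((γ m)⁻¹ c)) = _
    simp

theorem embA_aS (θ : M ↪ M') (γ : M → Perm (Fin k)) (A : Finset M) (f : M → Sk k n)
    (f' : M' → Sk k n) (h : ∀ m ∈ A, ∀ z, (f' (θ m)).sep z = γ m * (f m).sep z * (γ m)⁻¹) :
    embA (rowE θ γ) (aS A f) = aS (A.map θ) f' := by
  unfold aS
  rw [map_cprod]
  refine cprod_bij _ _ _ _ (fun p => (p.1, θ p.2)) ⟨fun p hp => ?_, fun p _ p' _ e => ?_,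
    fun p hp => ?_⟩ (fun p hp => ?_) fun p _ p' _ hp => aCell_commute f' f' p p' hp
  · exact mem_coe.mpr (mem_product.mpr ⟨mem_univ _,
      mem_map_of_mem θ (mem_product.mp (mem_coe.mp hp)).2⟩)
  · exact Prod.ext (Prod.ext_iff.mp e).1 (θ.injective (Prod.ext_iff.mp e).2)
  · obtain ⟨m, hm, e⟩ := mem_map.mp (mem_product.mp (mem_coe.mp hp)).2
    exact ⟨(p.1, m), mem_coe.mpr (mem_product.mpr ⟨mem_univ _, hm⟩), Prod.ext rfl e⟩
  · unfold aCell
    simp only
    rw [h p.2 (mem_product.mp hp).2]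
    by_cases h1 : (f p.2).sep p.1 = 1
    · rw [if_pos h1, if_pos (by rw [h1]; simp), map_one]
    · rw [if_neg h1, if_neg (fun h2 => h1 (by simpa using h2)), map_sub, map_one, embA_og,
        l1b_embG_sepG]

theorem l1b_exG_sepG (C : Finset (Fin k)) (Y : Finset (Fin n)) (mv : Bool) (τ : Perm M)
    (z : Fin n) (m : M) (π : Perm (Fin k))
    (h : z ∈ Y → τ m ≠ m → ∀ c, π c ≠ c → (c ∈ C ↔ mv = true)) :
    exG C Y τ * sepG z m π = sepG z (if mv = true ∧ z ∈ Y then τ m else m) π * exG C Y τ := by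
  funext z'
  ext1 ⟨m', c⟩
  change exG C Y τ z' (sepG z m π z' (m', c)) = sepG _ _ π z' (exG C Y τ z' (m', c))
  rw [l1b_sepG_apply, exG_apply, exG_apply, l1b_sepG_apply]
  by_cases hc : π c = c
  · simp [hc]
  by_cases hz : z' = z
  swap
  · simp [hz]
  subst hz
  by_cases hY : z' ∈ Y
  swap
  · simp [hY]
  have hc' : π (π c) ≠ π c := fun e => hc (π.injective e)
  by_cases hm : τ m = m
  · have hτ : τ m' = m ↔ m' = m := ⟨fun e => τ.injective (e.trans hm.symm), fun e => e ▸ hm⟩
    by_cases h1 : m' = m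
    · subst h1
      simp [hm]
    · have h2 : ¬ (if c ∈ C then τ m' else m') = m := by
        split_ifs
        · exact fun e => h1 (hτ.mp e)
        · exact h1
      simp [hm, h1, hY, h2]
  · have h1 := h hY hm c hc
    have h2 := h hY hm (π c) hc'
    cases mv
    · have h3 : c ∉ C := by simpa using h1
      have h4 : π c ∉ C := by simpa using h2
      by_cases h5 : m' = m <;> simp [h3, h4, h5]
    · have h3 : c ∈ C := by simpa using h1
      have h4 : π c ∈ C := by simpa using h2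
      by_cases h5 : m' = m <;> simp [h3, h4, h5, hY]

theorem exG_mul_aS (A : Finset M) (f : M → Sk k n) (C : Finset (Fin k)) (Y : Finset (Fin n))
    (mv : Bool) (τ : Perm M) (hA : ∀ m, τ m ∈ A ↔ m ∈ A)
    (h : ∀ z ∈ Y, ∀ m, τ m ≠ m → ∀ c, (f m).sep z c ≠ c → (c ∈ C ↔ mv = true)) :
    og (exG C Y τ) * aS A f = aS A (exF Y mv τ f) * og (exG C Y τ) := by
  have h1 : og (exG C Y τ) * og (exG C Y τ)⁻¹ = 1 := by rw [← og_mul, mul_inv_cancel, og_one]
  have h2 : og (exG C Y τ)⁻¹ * og (exG C Y τ) = 1 := by rw [← og_mul, inv_mul_cancel, og_one]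
  have h3 : og (exG C Y τ) * aS A f * og (exG C Y τ)⁻¹ = aS A (exF Y mv τ f) := by
    unfold aS
    rw [cprod_conj _ _ _ _ h1 h2]
    refine cprod_bij _ _ _ _ (fun p => (p.1, if mv = true ∧ p.1 ∈ Y then τ p.2 else p.2))
      ⟨fun p hp => ?_, fun p _ p' _ e => ?_, fun p hp => ?_⟩ (fun p _ => ?_)
      fun p _ p' _ hp => aCell_commute _ _ p p' hp
    · have h4 := (mem_product.mp (mem_coe.mp hp)).2
      refine mem_coe.mpr (mem_product.mpr ⟨mem_univ _, ?_⟩)
      simp only
      split_ifs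
      · exact (hA _).mpr h4
      · exact h4
    · obtain ⟨e1, e2⟩ := Prod.ext_iff.mp e
      simp only at e1 e2
      rw [← e1] at e2
      refine Prod.ext e1 ?_
      split_ifs at e2
      · exact τ.injective e2
      · exact e2
    · have h4 := (mem_product.mp (mem_coe.mp hp)).2
      refine ⟨(p.1, if mv = true ∧ p.1 ∈ Y then τ⁻¹ p.2 else p.2),
        mem_coe.mpr (mem_product.mpr ⟨mem_univ _, ?_⟩), Prod.ext rfl ?_⟩
      · simp only
        split_ifs
        · rw [← hA]
          simpa using h4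
        · exact h4
      · simp only
        split_ifs <;> simp
    · have h4 : (exF Y mv τ f (if mv = true ∧ p.1 ∈ Y then τ p.2 else p.2)).sep p.1 =
          (f p.2).sep p.1 := by
        unfold exF
        simp only
        split_ifs <;> simp
      unfold aCell
      simp only
      rw [h4]
      by_cases h5 : (f p.2).sep p.1 = 1
      · rw [if_pos h5, if_pos h5, mul_one, h1]
      · rw [if_neg h5, if_neg h5, mul_sub, sub_mul, mul_one, h1, ← og_mul,
          l1b_exG_sepG C Y mv τ _ _ _ (fun hz => h _ hz _), ← og_mul, mul_inv_cancel_right]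
  rw [← h3, mul_assoc, h2, mul_one]

theorem l1b_aS_single (m : M) (f : M → Sk k n) :
    aS {m} f = cprod univ fun z => aCell f (z, m) := by
  symm
  refine cprod_bij _ _ _ _ (fun z => (z, m)) ⟨fun z _ => by simp,
    fun z _ z' _ e => (Prod.ext_iff.mp e).1, fun p hp => ⟨p.1, by simp, Prod.ext rfl ?_⟩⟩
    (fun _ _ => rfl) fun p _ p' _ hp => aCell_commute f f p p' hp
  exact (mem_singleton.mp (mem_product.mp (mem_coe.mp hp)).2).symm

theorem l1b_insG_ne (i' : Fin (n + 1)) (i z : Fin n) (hz : z ≠ i) (m : M) (π : Perm (Fin k)) :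
    insG i' i (sepG z m π) = sepG (i'.succAbove z) m π := by
  funext z'
  ext1 ⟨m', c⟩
  change sepG z m π (prc i' i z') (m', c) = _
  rw [l1b_sepG_apply, l1b_sepG_apply]
  refine Fin.succAboveCases i' ?_ (fun w => ?_) z'
  · rw [prc_same, if_neg fun h => hz h.1.symm, if_neg fun h => Fin.succAbove_ne i' z h.1.symm]
  · simp only [prc_succAbove, Fin.succAbove_right_inj]

theorem l1b_insG_eq (i' : Fin (n + 1)) (i : Fin n) (m : M) (π : Perm (Fin k)) :
    insG i' i (sepG i m π) = sepG i' m π * sepG (i'.succAbove i) m π := by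
  funext z'
  ext1 ⟨m', c⟩
  change sepG i m π (prc i' i z') (m', c) = sepG i' m π z' (sepG (i'.succAbove i) m π z' (m', c))
  rw [l1b_sepG_apply, l1b_sepG_apply, l1b_sepG_apply]
  refine Fin.succAboveCases i' ?_ (fun w => ?_) z'
  · rw [prc_same, if_neg (c := i' = i'.succAbove i ∧ m' = m)
      fun h => Fin.succAbove_ne i' i h.1.symm]
    simp
  · rw [if_neg (c := i'.succAbove w = i' ∧ m' = m) fun h => Fin.succAbove_ne i' w h.1]
    simp only [prc_succAbove, Fin.succAbove_right_inj]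

theorem l1b_ins_cell (i' : Fin (n + 1)) (i z : Fin n) (hz : z ≠ i) (W : Finset M)
    (f : M → Sk k n) (m : M) :
    insA i' i (aCell f (z, m)) = aCell (insF i' i W f) (i'.succAbove z, m) := by
  have h1 : (insF i' i W f m).sep (i'.succAbove z) = (f m).sep z := by
    unfold insF insSk
    simp only
    split_ifs
    · rw [Fin.insertNth_apply_succAbove, Function.update_of_ne hz]
    · rw [Fin.insertNth_apply_succAbove]
  unfold aCell
  simp only
  rw [h1]
  split_ifs
  · exact map_one _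
  · rw [map_sub, map_one, insA_og, l1b_insG_ne i' i z hz]

theorem l1b_ins_split (i' : Fin (n + 1)) (i : Fin n) (W : Finset M) (f : M → Sk k n) (m : M) :
    aS {m} (insF i' i W f) = aCell (insF i' i W f) (i', m) *
      (aCell (insF i' i W f) (i'.succAbove i, m) *
        cprod (univ.erase i) fun z => insA i' i (aCell f (z, m))) := by
  have hc : ∀ z z' : Fin (n + 1), z ≠ z' →
      Commute (aCell (insF i' i W f) (z, m)) (aCell (insF i' i W f) (z', m)) := fun z z' h =>
    aCell_commute _ _ _ _ fun e => h (Prod.ext_iff.mp e).1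
  rw [l1b_aS_single, cprod_erase _ _ (fun z _ z' _ h => hc z z' h) i' (mem_univ _)]
  congr 1
  rw [cprod_erase _ _ (fun z _ z' _ h => hc z z' h) (i'.succAbove i)
    (mem_erase.mpr ⟨Fin.succAbove_ne i' i, mem_univ _⟩)]
  congr 1
  symm
  refine cprod_bij _ _ _ _ i'.succAbove ⟨fun z hz => ?_,
    fun z _ z' _ e => Fin.succAbove_right_injective e, fun z hz => ?_⟩
    (fun z hz => l1b_ins_cell i' i z (mem_erase.mp hz).1 W f m) fun z _ z' _ h => hc z z' h
  · refine mem_coe.mpr (mem_erase.mpr ⟨fun e => ?_,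
      mem_erase.mpr ⟨Fin.succAbove_ne i' z, mem_univ _⟩⟩)
    exact (mem_erase.mp (mem_coe.mp hz)).1 (Fin.succAbove_right_injective e)
  · obtain ⟨h1, h2⟩ := mem_erase.mp (mem_coe.mp hz)
    obtain ⟨w, rfl⟩ := Fin.exists_succAbove_eq (mem_erase.mp h2).1
    exact ⟨w, mem_coe.mpr (mem_erase.mpr ⟨fun e => h1 (by rw [e]), mem_univ _⟩), rfl⟩

theorem l1b_ins_single (i' : Fin (n + 1)) (i : Fin n) (f : M → Sk k n) (m : M) :
    insA i' i (aS {m} f) = aS {m} (insF i' i ∅ f) + if (f m).sep i = 1 then 0 else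
      aS {m} (insF i' i {m} f) * og (sepG (i'.succAbove i) m ((f m).sep i)) := by
  have e1 : (insF i' i ∅ f m).sep i' = 1 := by
    simp [insF, insSk]
  have e2 : (insF i' i ∅ f m).sep (i'.succAbove i) = (f m).sep i := by
    simp [insF, insSk]
  have e3 : (insF i' i {m} f m).sep i' = (f m).sep i := by
    simp [insF, insSk]
  have e4 : (insF i' i {m} f m).sep (i'.succAbove i) = 1 := by
    simp [insF, insSk]
  have hc : Commute (og (sepG (i'.succAbove i) m ((f m).sep i)))
      (cprod (univ.erase i) fun z => insA i' i (aCell f (z, m))) := by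
    refine commute_cprod _ _ _ fun z hz => ?_
    rw [l1b_ins_cell i' i z (mem_erase.mp hz).1 ∅ f m]
    refine commute_of_SA _ _ ?_ _ _ (og_mem_SA _ _ (l1b_sepG_mem_GD _ _ _)) (aCell_mem_SA _ _)
    rw [Set.disjoint_left]
    intro q h1 h2
    exact (mem_erase.mp hz).1 (Fin.succAbove_right_injective (h2.1.symm.trans h1.1))
  rw [l1b_ins_split, l1b_ins_split, l1b_aS_single, cprod_erase _ _
    (fun z _ z' _ h => aCell_commute f f _ _ fun e => h (Prod.ext_iff.mp e).1) i (mem_univ _),
    map_mul, map_cprod]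
  generalize (cprod (univ.erase i) fun z => insA i' i (aCell f (z, m))) = R at hc ⊢
  unfold aCell
  simp only
  rw [e1, e2, e3, e4, if_pos rfl, if_pos rfl]
  by_cases h : (f m).sep i = 1
  · simp only [if_pos h, map_one, one_mul, add_zero]
  · simp only [if_neg h, one_mul]
    rw [map_sub, map_one, insA_og, l1b_insG_eq, og_mul, mul_assoc, ← hc.eq]
    noncomm_ring

theorem l1b_sWG_insert (i' : Fin (n + 1)) (i : Fin n) (W : Finset M) (f : M → Sk k n) (m : M)
    (hm : m ∉ W) :
    sWG i' i (insert m W) f = sepG (i'.succAbove i) m ((f m).sep i) * sWG i' i W f := by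
  unfold sWG sepG
  rw [← Pi.mulSingle_mul]
  congr 1
  ext1 ⟨m', c⟩
  rw [Perm.mul_apply, prodCongrRight_apply, prodCongrRight_apply]
  by_cases h : m' = m
  · subst h
    rw [if_pos (mem_insert_self _ _), if_neg hm, Perm.prodExtendRight_apply_eq]
    rfl
  · rw [Perm.prodExtendRight_apply_ne _ h]
    simp [h]

theorem insA_aS (i' : Fin (n + 1)) (i : Fin n) (A : Finset M) (f : M → Sk k n) :
    insA i' i (aS A f) = ∑ W ∈ (A.filter (fun m => (f m).sep i ≠ 1)).powerset,
      aS A (insF i' i W f) * og (sWG i' i W f) := by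
  induction A using Finset.induction_on with
  | empty =>
    have h : sWG i' i (∅ : Finset M) f = 1 := by
      unfold sWG
      rw [← Pi.mulSingle_one (i'.succAbove i)]
      congr 1
    simp [aS_empty, h, og_one]
  | insert m A hm ih =>
    have hu : ∀ {l : ℕ} (g : M → Sk k l), aS (insert m A) g = aS {m} g * aS A g := fun g => by
      rw [insert_eq, aS_union _ _ (disjoint_singleton_left.mpr hm)]
    have hW : ∀ W ∈ (A.filter (fun m => (f m).sep i ≠ 1)).powerset, m ∉ W := fun W hW h =>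
      hm (mem_filter.mp (mem_powerset.mp hW h)).1
    have h0 : aS {m} (insF i' i ∅ f) * insA i' i (aS A f) =
        ∑ W ∈ (A.filter (fun m => (f m).sep i ≠ 1)).powerset,
          aS (insert m A) (insF i' i W f) * og (sWG i' i W f) := by
      rw [ih, Finset.mul_sum]
      refine Finset.sum_congr rfl fun W h => ?_
      rw [hu, mul_assoc]
      congr 1
      refine aS_congr _ _ _ fun a ha => ?_
      rw [mem_singleton.mp ha]
      simp [insF, insSk, hW W h]
    rw [hu, map_mul, l1b_ins_single, add_mul, h0, filter_insert]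
    by_cases h : (f m).sep i = 1
    · rw [if_pos h, if_neg (not_not.mpr h), zero_mul, add_zero]
    · rw [if_neg h, if_pos h, sum_powerset_insert fun h1 => hm (mem_filter.mp h1).1, ih,
        Finset.mul_sum]
      congr 1
      refine Finset.sum_congr rfl fun W hW' => ?_
      have hc : Commute (og (sepG (i'.succAbove i) m ((f m).sep i))) (aS A (insF i' i W f)) := by
        refine commute_of_SA _ _ ?_ _ _ (og_mem_SA _ _ (l1b_sepG_mem_GD _ _ _)) (aS_mem_SA _ _)
        rw [Set.disjoint_left]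
        intro q h1 h2
        exact hm (h1.2.1 ▸ h2.1)
      have e1 : aS {m} (insF i' i (insert m W) f) = aS {m} (insF i' i {m} f) := by
        refine aS_congr _ _ _ fun a ha => ?_
        rw [mem_singleton.mp ha]
        simp [insF, insSk]
      have e2 : aS A (insF i' i (insert m W) f) = aS A (insF i' i W f) := by
        refine aS_congr _ _ _ fun a ha => ?_
        have h1 : a ≠ m := fun e => hm (e ▸ ha)
        simp [insF, insSk, h1]
      rw [hu, e1, e2, l1b_sWG_insert i' i W f m (hW W hW'), og_mul, mul_assoc, mul_assoc,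
        ← mul_assoc (og _), hc.eq, mul_assoc]

end Pool.Agent.Lib.MP_595dc0_ag.Dk
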