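import Mathlib
import Pool.Agent.Lib.MP_595dc0_ag.DkL1b

set_option autoImplicit false

namespace Pool.Agent.Lib.MP_595dc0_ag.Dk

open Equiv Finset MvPolynomial

variable {k n : ℕ} {M M' : Type} [DecidableEq M] [DecidableEq M']

namespace L1cAux

omit [DecidableEq M] in
theorem mem_blk (Λ : List (Link k n M)) (m : M) (z : Fin n) :
    z ∈ blk Λ m ↔ ∃ l ∈ Λ, l.touch m ∧ z ∈ l.cols := by
  simp [blk]

omit [DecidableEq M] in
theorem disj {Λ : List (Link k n M)} {l l' : Link k n M}
    (hd : Disjoint l.cols (blk Λ l.a ∪ blk Λ l.b)) (hl' : l' ∈ Λ)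
    (hm : ∃ m, l.touch m ∧ l'.touch m) : Disjoint l.cols l'.cols := by
  obtain ⟨m, h1, h2⟩ := hm
  refine Finset.disjoint_left.2 fun z hz hz' => Finset.disjoint_left.1 hd hz ?_
  rcases h1 with rfl | rfl
  · exact mem_union_left _ ((mem_blk _ _ _).2 ⟨l', hl', h2, hz'⟩)
  · exact mem_union_right _ ((mem_blk _ _ _).2 ⟨l', hl', h2, hz'⟩)

theorem anti_smul {R : Type} [DecidableEq R] {T : GA n R} {z : Fin n} {r r' : R}
    (h : Anti T z r r') (c : ℂ) : Anti (c • T) z r r' := by
  unfold Anti at h ⊢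
  rw [mul_smul_comm, h, smul_neg]

theorem list_prod_mul {N : Type} [Monoid N] (L : List N) (a : N) (h : ∀ T ∈ L, T * a = a) :
    L.prod * a = a := by
  induction L with
  | nil => simp
  | cons b L ih =>
    rw [List.prod_cons, mul_assoc, ih fun T hT => h T (List.mem_cons_of_mem _ hT),
      h b List.mem_cons_self]

end L1cAux

theorem pOp_add {R : Type} [DecidableEq R] (z : Fin n) (r r' e : R) (h1 : r ≠ r') (h2 : r' ≠ e) :
    pOp z r r' e False + pOp z r r' e True = (1 / 2 : ℂ) • (1 - og (sw z r r')) := by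
  have hi : (sw z r e)⁻¹ = sw z r e := inv_eq_of_mul_eq_one_right (sw_mul_self z r e)
  have hc := sw_conj (sw z r e) z r' e
  rw [hi] at hc
  have e0 : sw z r e z = swap r e := by simp [sw]
  rw [e0, swap_apply_of_ne_of_ne h1.symm h2, swap_apply_right, sw_comm z r' r] at hc
  rw [← hc, og_mul, og_mul]
  simp only [pOp, if_true, if_false]
  rw [← smul_add]
  congr 1
  noncomm_ring

theorem op_mem_SA (l : Link k n M) (ω : Finset (Fin n)) (z : Fin n) :
    l.op ω z ∈ SA {q : Fin n × (M × Fin k) | q.1 = z ∧ z ∈ l.cols ∧ l.touch q.2.1} := by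
  unfold Link.op
  cases hz : l.ζ z with
  | none => exact one_mem _
  | some t =>
    have hc : z ∈ l.cols := by simp [Link.cols, hz]
    have h1 : ∀ c e : Fin k, og (sw z (l.a, c) (l.b, e)) ∈
        SA {q : Fin n × (M × Fin k) | q.1 = z ∧ z ∈ l.cols ∧ l.touch q.2.1} := fun c e =>
      og_mem_SA _ _ (sw_mem_GD _ _ _ _ ⟨rfl, hc, Or.inl rfl⟩ ⟨rfl, hc, Or.inr rfl⟩)
    simp only [Option.elim_some, pOp]
    split_ifs
    · exact Subalgebra.smul_mem _ (mul_mem (sub_mem (one_mem _) (h1 _ _)) (h1 _ _)) _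
    · exact Subalgebra.smul_mem _ (mul_mem (sub_mem (one_mem _) (h1 _ _))
        (add_mem (one_mem _) (mul_mem (h1 _ _) (h1 _ _)))) _

theorem L1cAux.op_commute (l : Link k n M) (ω : Finset (Fin n)) (a b : Fin n) (hab : a ≠ b) :
    Commute (l.op ω a) (l.op ω b) := by
  refine commute_of_SA _ _ ?_ _ _ (op_mem_SA l ω a) (op_mem_SA l ω b)
  exact Set.disjoint_left.2 fun q h1 h2 => hab (h1.1.symm.trans h2.1)

theorem term_mem_SA (l : Link k n M) (ω : Finset (Fin n)) :
    l.term ω ∈ SA {q : Fin n × (M × Fin k) | q.1 ∈ l.cols ∧ l.touch q.2.1} := by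
  refine cprod_mem _ _ _ fun z _ => SA_mono _ _ ?_ (op_mem_SA l ω z)
  rintro q ⟨h1, h2, h3⟩
  exact ⟨h1 ▸ h2, h3⟩

theorem Lop_mem_SA (l : LL k n M) :
    Lop l ∈ SA {q : Fin n × (M × Fin k) | q.1 ∈ l.1.cols ∧ l.1.touch q.2.1} := by
  exact sum_mem fun ω _ => term_mem_SA l.1 ω

theorem LP_mem_SA (Λ : List (LL k n M)) :
    LP Λ ∈ SA {q : Fin n × (M × Fin k) | q.1 ∈ blk (Λ.map Prod.fst) q.2.1} := by
  refine list_prod_mem fun T hT => ?_
  obtain ⟨l, hl, rfl⟩ := List.mem_map.1 hT
  refine SA_mono _ _ ?_ (Lop_mem_SA l)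
  rintro q ⟨h1, h2⟩
  exact (L1cAux.mem_blk _ _ _).2 ⟨l.1, List.mem_map_of_mem hl, h2, h1⟩

theorem TP_mem_SA (Λ : List (Link k n M × Finset (Fin n))) :
    TP Λ ∈ SA {q : Fin n × (M × Fin k) | q.1 ∈ blk (Λ.map Prod.fst) q.2.1} := by
  refine list_prod_mem fun T hT => ?_
  obtain ⟨l, hl, rfl⟩ := List.mem_map.1 hT
  refine SA_mono _ _ ?_ (term_mem_SA l.1 l.2)
  rintro q ⟨h1, h2⟩
  exact (L1cAux.mem_blk _ _ _).2 ⟨l.1, List.mem_map_of_mem hl, h2, h1⟩

theorem anti_term (l : Link k n M) (ω : Finset (Fin n)) (z : Fin n) (c e : Fin k)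
    (h : l.ch ω z = some (c, e)) : Anti (l.term ω) z (l.a, c) (l.b, e) := by
  unfold Link.term
  rw [cprod_erase univ (l.op ω) (fun a _ b _ hab => L1cAux.op_commute l ω a b hab) z (mem_univ z)]
  refine Anti.mul_right ?_ _
  unfold Link.ch at h
  unfold Link.op
  cases hz : l.ζ z with
  | none => simp [hz] at h
  | some t =>
    simp only [hz, Option.map_some, Option.some.injEq, Prod.mk.injEq] at h
    obtain ⟨h1, h2⟩ := h
    simp only [Option.elim_some, pOp]
    split_ifs with hw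
    · rw [if_pos hw] at h1
      rw [h1, h2]
      exact L1cAux.anti_smul ((anti_one_sub _ _ _).mul_right _) _
    · rw [if_neg hw] at h1
      rw [h1, h2]
      exact L1cAux.anti_smul ((anti_one_sub _ _ _).mul_right _) _

theorem sum_term_mul_aS (j : Fin k) (A : Finset M) (f : M → Sk k n) (l : Link k n M)
    (hl : l.Valid j f) (ha : l.a ∈ A) :
    (∑ ω ∈ l.cols.powerset, l.term ω) * aS A f = aS A f := by
  have h1 : ∀ ω : Finset (Fin n), l.term ω =
      cprod l.cols (fun z => if z ∈ ω then l.op univ z else l.op ∅ z) := by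
    intro ω
    unfold Link.term
    rw [← cprod_subset l.cols univ (l.op ω) (subset_univ _)
      (fun a _ b _ hab => L1cAux.op_commute l ω a b hab) ?_]
    · refine cprod_congr _ _ _ fun z _ => ?_
      unfold Link.op
      cases l.ζ z with
      | none => simp
      | some t =>
        simp only [Option.elim_some, pOp, mem_univ, if_true, Finset.notMem_empty, if_false]
    · intro z _ hz
      have : l.ζ z = none := by simpa [Link.cols] using hz
      simp [Link.op, this]
  rw [sum_congr rfl (fun ω _ => h1 ω), ← cprod_add]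
  refine L1cAux.list_prod_mul _ _ fun T hT => ?_
  obtain ⟨z, hz, rfl⟩ := List.mem_map.1 hT
  rw [Finset.mem_toList] at hz
  cases hζ : l.ζ z with
  | none => simp [Link.cols, hζ] at hz
  | some t =>
    obtain ⟨c, c', e⟩ := t
    obtain ⟨hc, -, -, -, hs⟩ := hl.2.1 z c c' e hζ
    have hA := anti_aS A f l.a ha z c c' hc hs
    have hp := pOp_add z (l.a, c) (l.a, c') (l.b, e) (fun h => hc (Prod.mk.inj h).2)
      (fun h => hl.1 (Prod.mk.inj h).1)
    have e1 : l.op ∅ z + l.op univ z = (1 / 2 : ℂ) • (1 - og (sw z (l.a, c) (l.a, c'))) := by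
      rw [← hp]
      simp only [Link.op, hζ, Option.elim_some, pOp, mem_univ, if_true, Finset.notMem_empty,
        if_false]
    rw [e1, smul_mul_assoc]
    exact hA.eq_half.symm

theorem sum_term_split (j : Fin k) (l : Link k n M) :
    ∑ ω ∈ l.cols.powerset, l.term ω =
      ∑ π ∈ GamJ j, Lop (l, l.Om j π) + Lop (l, l.OmBad j) := by
  have hd : (GamJ j : Set (Perm (Fin k))).PairwiseDisjoint (fun π => l.Om j π) := by
    intro π hπ π' hπ' hne
    refine Finset.disjoint_left.2 fun ω h1 h2 => ?_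
    obtain ⟨e, he, hne'⟩ := GamJ_exists_ne hπ hπ' hne
    have hc : π e ≤ j := (GamJ_le_iff hπ e).2 he
    have a1 := (mem_filter.1 h1).2 (π e) e hc he
    have a2 := (mem_filter.1 h2).2 (π e) e hc he
    exact a1.1 (a2.2 hne') rfl
  simp only [Lop]
  rw [← sum_biUnion hd, ← sum_union]
  · refine sum_congr ?_ fun _ _ => rfl
    ext ω
    simp only [mem_union, mem_biUnion, Link.OmBad, mem_filter]
    constructor
    · intro h
      by_cases hx : ∃ π ∈ GamJ j, ω ∈ l.Om j π
      · exact Or.inl hx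
      · exact Or.inr ⟨h, fun π hπ hω => hx ⟨π, hπ, hω⟩⟩
    · rintro (⟨π, -, h⟩ | h)
      · exact (mem_filter.1 h).1
      · exact h.1
  · refine Finset.disjoint_left.2 fun ω h1 h2 => ?_
    obtain ⟨π, hπ, hω⟩ := mem_biUnion.1 h1
    exact (mem_filter.1 h2).2 π hπ hω

theorem sepd_or (j : Fin k) (f : M → Sk k n) (l : Link k n M) (hl : l.Valid j f)
    (ω : Finset (Fin n)) (c c' e : Fin k) (hc : c ≠ c') (h1 : c ≤ j) (h2 : c' ≤ j) (h3 : e ≤ j) :
    l.sepd j ω c e ∨ l.sepd j ω c' e := by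
  have h := hl.2.2.1 c c' e hc h1 h2 h3
  have hs : univ.filter (fun z => l.ζ z = some (c, c', e) ∨ l.ζ z = some (c', c, e)) ⊆
      univ.filter (fun z => l.ch ω z = some (c, e)) ∪
        univ.filter (fun z => l.ch ω z = some (c', e)) := by
    intro z hz
    simp only [mem_filter, mem_univ, true_and, mem_union, Link.ch] at hz ⊢
    rcases hz with hz | hz <;> by_cases hw : z ∈ ω <;> simp [hz, hw]
  have h4 := (card_le_card hs).trans (card_union_le _ _)
  unfold Link.sepd
  omega

theorem Adm.perm {j : Fin k} {A : Finset M} {f : M → Sk k n} {Λ Λ' : List (Link k n M)}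
    (h : Adm j A f Λ) (hp : Λ.Perm Λ') : Adm j A f Λ' := by
  refine ⟨fun l hl => h.1 l (hp.mem_iff.2 hl), (hp.pairwise_iff ?_).1 h.2⟩
  rintro x y hxy ⟨m, h1, h2⟩
  exact (hxy ⟨m, h2, h1⟩).symm

theorem Adm.sublist {j : Fin k} {A : Finset M} {f : M → Sk k n} {Λ Λ' : List (Link k n M)}
    (h : Adm j A f Λ) (hp : Λ'.Sublist Λ) : Adm j A f Λ' := by
  exact ⟨fun l hl => h.1 l (hp.subset hl), h.2.sublist hp⟩

theorem Adm.cons {j : Fin k} {A : Finset M} {f : M → Sk k n} {Λ : List (Link k n M)}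
    (h : Adm j A f Λ) (l : Link k n M) (hl : l.Valid j f) (ha : l.a ∈ A) (hb : l.b ∈ A)
    (hd : Disjoint l.cols (blk Λ l.a ∪ blk Λ l.b)) : Adm j A f (l :: Λ) := by
  refine ⟨fun l' hl' => ?_, List.pairwise_cons.2 ⟨fun l' hl' hm => L1cAux.disj hd hl' hm, h.2⟩⟩
  rcases List.mem_cons.1 hl' with rfl | hl'
  · exact ⟨hl, ha, hb⟩
  · exact h.1 l' hl'

theorem Adm.append {j : Fin k} {A : Finset M} {f : M → Sk k n} {Λ Λ' : List (Link k n M)}
    (h : Adm j A f Λ) (h' : Adm j A f Λ')
    (hd : ∀ l ∈ Λ', Disjoint l.cols (blk Λ l.a ∪ blk Λ l.b)) : Adm j A f (Λ' ++ Λ) := by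
  refine ⟨fun l hl => ?_, List.pairwise_append.2
    ⟨h'.2, h.2, fun l hl l' hl' hm => L1cAux.disj (hd l hl) hl' hm⟩⟩
  rcases List.mem_append.1 hl with hl | hl
  · exact h'.1 l hl
  · exact h.1 l hl

theorem LP_perm {j : Fin k} {A : Finset M} {f : M → Sk k n} {Λ Λ' : List (LL k n M)}
    (h : Adm j A f (Λ.map Prod.fst)) (hp : Λ.Perm Λ') : LP Λ = LP Λ' := by
  refine List.Perm.prod_eq' (hp.map Lop) ?_
  rw [List.pairwise_map]
  have h2 := h.2
  rw [List.pairwise_map] at h2
  refine h2.imp fun {a b} hab => commute_of_SA _ _ ?_ _ _ (Lop_mem_SA a) (Lop_mem_SA b)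
  refine Set.disjoint_left.2 fun q h1 h3 => ?_
  exact Finset.disjoint_left.1 (hab ⟨q.2.1, h1.2, h3.2⟩) h1.1 h3.1

theorem LP_mem_span (Λ : List (LL k n M)) :
    LP Λ ∈ Submodule.span ℂ {T | ∃ Λ', Sel Λ Λ' ∧ T = TP Λ'} := by
  induction Λ with
  | nil => exact Submodule.subset_span ⟨[], List.Forall₂.nil, rfl⟩
  | cons l Λ ih =>
    have e : LP (l :: Λ) = ∑ ω ∈ l.2, l.1.term ω * LP Λ := by
      simp only [LP, List.map_cons, List.prod_cons, Lop, sum_mul]
    rw [e]
    refine Submodule.sum_mem _ fun ω hω => ?_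
    generalize LP Λ = T at ih
    induction ih using Submodule.span_induction with
    | mem T hT =>
      obtain ⟨Λ', hΛ, rfl⟩ := hT
      exact Submodule.subset_span ⟨(l.1, ω) :: Λ', List.Forall₂.cons ⟨rfl, hω⟩ hΛ, by
        simp only [TP, List.map_cons, List.prod_cons]⟩
    | zero => rw [mul_zero]; exact Submodule.zero_mem _
    | add a b _ _ ha hb => rw [mul_add]; exact Submodule.add_mem _ ha hb
    | smul c a _ ha => rw [mul_smul_comm]; exact Submodule.smul_mem _ _ ha

theorem Sel.map_fst {Λ : List (LL k n M)} {Λ' : List (Link k n M × Finset (Fin n))}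
    (h : Sel Λ Λ') : Λ'.map Prod.fst = Λ.map Prod.fst := by
  unfold Sel at h
  induction h with
  | nil => rfl
  | cons h1 _ ih => rw [List.map_cons, List.map_cons, ih, h1.1]

theorem Sel.exists_mem {Λ : List (LL k n M)} {Λ' : List (Link k n M × Finset (Fin n))}
    (h : Sel Λ Λ') (l : LL k n M) (hl : l ∈ Λ) : ∃ ω ∈ l.2, (l.1, ω) ∈ Λ' := by
  unfold Sel at h
  induction h with
  | nil => simp at hl
  | @cons a b _ _ h1 _ ih =>
    rcases List.mem_cons.1 hl with rfl | hl
    · refine ⟨b.2, h1.2, ?_⟩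
      rw [← h1.1]
      exact List.mem_cons_self
    · obtain ⟨ω, h2, h3⟩ := ih hl
      exact ⟨ω, h2, List.mem_cons_of_mem _ h3⟩

theorem anti_TP {j : Fin k} {A : Finset M} {f : M → Sk k n}
    {Λ : List (Link k n M × Finset (Fin n))} (h : Adm j A f (Λ.map Prod.fst))
    (l : Link k n M × Finset (Fin n)) (hl : l ∈ Λ) (z : Fin n) (c e : Fin k)
    (hz : l.1.ch l.2 z = some (c, e)) : Anti (TP Λ) z (l.1.a, c) (l.1.b, e) := by
  induction Λ with
  | nil => simp at hl
  | cons l₀ Λ ih =>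
    have e : TP (l₀ :: Λ) = l₀.1.term l₀.2 * TP Λ := by
      simp only [TP, List.map_cons, List.prod_cons]
    rw [e]
    rcases List.mem_cons.1 hl with rfl | hl
    · exact (anti_term _ _ _ _ _ hz).mul_right _
    · rw [List.map_cons] at h
      have hd := (List.pairwise_cons.1 h.2).1 l.1 (List.mem_map_of_mem hl)
      have hc : z ∈ l.1.cols := by
        simp only [Link.cols, mem_filter, mem_univ, true_and]
        intro h0
        simp [Link.ch, h0] at hz
      refine (ih (h.sublist (List.sublist_cons_self _ _)) hl).mul_left_SA _ _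
        (term_mem_SA l₀.1 l₀.2) ?_ ?_
      · rintro ⟨h1, h2⟩
        exact Finset.disjoint_left.1 (hd ⟨_, h2, Or.inl rfl⟩) h1 hc
      · rintro ⟨h1, h2⟩
        exact Finset.disjoint_left.1 (hd ⟨_, h2, Or.inr rfl⟩) h1 hc

theorem card_blk_le {j : Fin k} {A : Finset M} {f : M → Sk k n} {Λ : List (Link k n M)}
    (h : Adm j A f Λ) (m : M) : (blk Λ m).card ≤ load Λ m * LB k j := by
  induction Λ with
  | nil =>
    have : blk ([] : List (Link k n M)) m = ∅ := by
      ext z
      simp [L1cAux.mem_blk]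
    simp [this]
  | cons l Λ ih =>
    have h1 := ih (h.sublist (List.sublist_cons_self _ _))
    by_cases ht : l.touch m
    · have e : load (l :: Λ) m = load Λ m + 1 := by
        unfold load
        rw [List.countP_cons_of_pos (by simpa [Link.touch] using ht)]
      have hs : blk (l :: Λ) m ⊆ l.cols ∪ blk Λ m := by
        intro z hz
        obtain ⟨l', hl', h2, h3⟩ := (L1cAux.mem_blk _ _ _).1 hz
        rcases List.mem_cons.1 hl' with rfl | hl'
        · exact mem_union_left _ h3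
        · exact mem_union_right _ ((L1cAux.mem_blk _ _ _).2 ⟨l', hl', h2, h3⟩)
      have h2 := (card_le_card hs).trans (card_union_le _ _)
      have h3 := (h.1 l List.mem_cons_self).1.2.2.2
      rw [e, add_mul, one_mul]
      omega
    · have e : load (l :: Λ) m = load Λ m := by
        unfold load
        rw [List.countP_cons_of_neg (by simpa [Link.touch] using ht)]
      have hs : blk (l :: Λ) m ⊆ blk Λ m := by
        intro z hz
        obtain ⟨l', hl', h2, h3⟩ := (L1cAux.mem_blk _ _ _).1 hz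
        rcases List.mem_cons.1 hl' with rfl | hl'
        · exact absurd h2 ht
        · exact (L1cAux.mem_blk _ _ _).2 ⟨l', hl', h2, h3⟩
      rw [e]
      exact (card_le_card hs).trans h1

theorem load_append (Λ Λ' : List (Link k n M)) (m : M) :
    load (Λ ++ Λ') m = load Λ m + load Λ' m := by
  exact List.countP_append

theorem load_cons_le (Λ : List (Link k n M)) (l : Link k n M) (m : M) :
    load (l :: Λ) m ≤ load Λ m + 1 := by
  unfold load
  rw [List.countP_cons]
  split_ifs <;> omega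

theorem load_cons_of_not (Λ : List (Link k n M)) (l : Link k n M) (m : M) (h : ¬ l.touch m) :
    load (l :: Λ) m = load Λ m := by
  unfold load
  rw [List.countP_cons_of_neg (by simpa [Link.touch] using h)]

theorem map_fst_idL (j : Fin k) (Λ : List (Link k n M)) : (idL j Λ).map Prod.fst = Λ := by
  simp [idL, Function.comp_def]

end Pool.Agent.Lib.MP_595dc0_ag.Dk
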