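import Mathlib
import Pool.Agent.Lib.MP_595dc0_ag.DkL1c

set_option autoImplicit false
set_option linter.unusedSectionVars false

namespace Pool.Agent.Lib.MP_595dc0_ag.Dk

open Equiv Finset MvPolynomial

variable {k n : ℕ} {M M' : Type} [DecidableEq M] [DecidableEq M']

theorem cols_map (θ : M → M') (γ : M → Perm (Fin k)) (l : Link k n M) :
    (l.map θ γ).cols = l.cols := by
  ext z
  simp [Link.cols, Link.map]

omit [DecidableEq M] [DecidableEq M'] in
theorem sepd_map_L1d (j : Fin k) (θ : M → M') (γ : M → Perm (Fin k)) (l : Link k n M)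
    (ω : Finset (Fin n)) (c e : Fin k) :
    (l.map θ γ).sepd j ω (γ l.a c) (γ l.b e) ↔ l.sepd j ω c e := by
  have h : ∀ z, (l.map θ γ).ch ω z = some (γ l.a c, γ l.b e) ↔ l.ch ω z = some (c, e) := by
    intro z
    simp only [Link.ch, Link.map]
    rcases l.ζ z with _ | t
    · simp
    · simp only [Option.map_some, Option.some.injEq, Prod.mk.injEq]
      by_cases hz : z ∈ ω <;> simp [hz]
  simp only [Link.sepd, h]

theorem Om_map (j : Fin k) (θ : M → M') (γ : M → Perm (Fin k)) (l : Link k n M)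
    (ha : γ l.a ∈ GamJ j) (hb : γ l.b ∈ GamJ j) (π : Perm (Fin k)) :
    (l.map θ γ).Om j (γ l.a * π * (γ l.b)⁻¹) = l.Om j π := by
  rw [Link.Om, Link.Om, cols_map]
  refine Finset.filter_congr fun ω _ => ?_
  rw [(γ l.a).surjective.forall]
  refine forall_congr' fun c => ?_
  rw [(γ l.b).surjective.forall]
  refine forall_congr' fun e => ?_
  rw [GamJ_le_iff ha, GamJ_le_iff hb, sepd_map_L1d]
  simp

theorem embA_pOp_L1d {R R' : Type} [DecidableEq R] [DecidableEq R'] (ι : R ↪ R') (z : Fin n)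
    (r r' e : R) (t : Prop) [Decidable t] :
    embA ι (pOp z r r' e t) = pOp z (ι r) (ι r') (ι e) t := by
  unfold pOp
  split_ifs <;> simp only [map_smul, map_mul, map_sub, map_add, map_one, embA_og, embG_sw]

theorem embA_term (θ : M ↪ M') (γ : M → Perm (Fin k)) (l : Link k n M) (ω : Finset (Fin n)) :
    embA (rowE θ γ) (l.term ω) = (l.map θ γ).term ω := by
  rw [Link.term, Link.term, map_cprod]
  refine cprod_congr _ _ _ fun z _ => ?_
  simp only [Link.op, Link.map]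
  rcases l.ζ z with _ | t
  · simp
  · exact embA_pOp_L1d _ _ _ _ _ _

theorem embA_LP (θ : M ↪ M') (γ : M → Perm (Fin k)) (Λ : List (LL k n M)) :
    embA (rowE θ γ) (LP Λ) = LP (Λ.map (fun l => (l.1.map θ γ, l.2))) := by
  rw [LP, LP, map_list_prod, List.map_map, List.map_map]
  congr 1
  refine List.map_congr_left fun l _ => ?_
  simp only [Function.comp, Lop, map_sum, embA_term]

theorem GoodL.map {j : Fin k} {A : Finset M} {f : M → Sk k n} {d : ℕ} {Λ : List (Link k n M)}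
    (h : GoodL j A f d Λ) (θ : M ↪ M') (γ : M → Perm (Fin k)) (hγ : ∀ m ∈ A, γ m ∈ GamJ j)
    (f' : M' → Sk k n) (hf : ∀ m ∈ A, ∀ z, (f' (θ m)).sep z = γ m * (f m).sep z * (γ m)⁻¹) :
    GoodL j (A.map θ) f' d (Λ.map (Link.map θ γ)) := by
  obtain ⟨⟨h1, h2⟩, h3, h4⟩ := h
  refine ⟨⟨fun l' hl' => ?_, ?_⟩, fun a' ha' b' hb' => ?_, fun m' => ?_⟩
  · obtain ⟨l, hl, rfl⟩ := List.mem_map.1 hl'
    obtain ⟨⟨v1, v2, v3, v4⟩, ha, hb⟩ := h1 l hl
    refine ⟨⟨θ.injective.ne v1, fun z c c' e hz => ?_, ?_, by rwa [cols_map]⟩,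
      Finset.mem_map_of_mem _ ha, Finset.mem_map_of_mem _ hb⟩
    · obtain ⟨⟨c₀, c₀', e₀⟩, ht, hte⟩ := Option.map_eq_some_iff.1 hz
      simp only [Prod.mk.injEq] at hte
      obtain ⟨rfl, rfl, rfl⟩ := hte
      obtain ⟨w1, w2, w3, w4, w5⟩ := v2 z _ _ _ ht
      refine ⟨(γ l.a).injective.ne w1, (GamJ_le_iff (hγ _ ha) _).2 w2,
        (GamJ_le_iff (hγ _ ha) _).2 w3, (GamJ_le_iff (hγ _ hb) _).2 w4, ?_⟩
      rw [swap_apply_apply, ← w5]
      exact hf _ ha z
    · intro c c' e hc u1 u2 u3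
      obtain ⟨c, rfl⟩ := (γ l.a).surjective c
      obtain ⟨c', rfl⟩ := (γ l.a).surjective c'
      obtain ⟨e, rfl⟩ := (γ l.b).surjective e
      refine (v3 c c' e (fun h => hc (h ▸ rfl)) ((GamJ_le_iff (hγ _ ha) _).1 u1)
        ((GamJ_le_iff (hγ _ ha) _).1 u2) ((GamJ_le_iff (hγ _ hb) _).1 u3)).trans
        (Finset.card_le_card fun z hz => ?_)
      rw [Finset.mem_filter] at hz ⊢
      refine ⟨hz.1, hz.2.imp (fun h => ?_) fun h => ?_⟩ <;> simp [Link.map, h]
  · rw [List.pairwise_map]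
    refine h2.imp fun {l l'} h ⟨m, hm, hm'⟩ => ?_
    rw [cols_map, cols_map]
    rcases hm with rfl | rfl
    · exact h ⟨l.a, Or.inl rfl, hm'.imp (fun h => θ.injective h) fun h => θ.injective h⟩
    · exact h ⟨l.b, Or.inr rfl, hm'.imp (fun h => θ.injective h) fun h => θ.injective h⟩
  · obtain ⟨a, ha, rfl⟩ := Finset.mem_map.1 ha'
    obtain ⟨b, hb, rfl⟩ := Finset.mem_map.1 hb'
    refine Relation.ReflTransGen.lift θ ?_ a b (h3 a ha b hb)
    rintro u v ⟨l, hl, h⟩
    refine ⟨l.map θ γ, List.mem_map_of_mem hl, h.imp ?_ ?_⟩ <;>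
    · rintro ⟨rfl, rfl⟩
      exact ⟨rfl, rfl⟩
  · rw [load, List.countP_map]
    by_cases hm : m' ∈ Set.range θ
    · obtain ⟨m, rfl⟩ := hm
      refine le_trans (le_of_eq (List.countP_congr fun l _ => ?_)) (h4 m)
      simp [Link.map]
    · rw [List.countP_eq_zero.2]
      · exact Nat.zero_le _
      · intro l _ h
        rcases of_decide_eq_true h with rfl | rfl <;> exact hm ⟨_, rfl⟩

theorem GoodL.mono {j : Fin k} {A : Finset M} {f : M → Sk k n} {d d' : ℕ}
    {Λ : List (Link k n M)} (h : GoodL j A f d Λ) (hd : d ≤ d') : GoodL j A f d' Λ := by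
  exact ⟨h.1, h.2.1, fun m => (h.2.2 m).trans hd⟩

theorem GoodL.congr {j : Fin k} {A : Finset M} {f f' : M → Sk k n} {d : ℕ}
    {Λ : List (Link k n M)} (h : GoodL j A f d Λ)
    (hf : ∀ l ∈ Λ, ∀ z ∈ l.cols, (f' l.a).sep z = (f l.a).sep z) : GoodL j A f' d Λ := by
  refine ⟨⟨fun l hl => ?_, h.1.2⟩, h.2⟩
  obtain ⟨⟨v1, v2, v3⟩, hab⟩ := h.1.1 l hl
  refine ⟨⟨v1, fun z c c' e hz => ?_, v3⟩, hab⟩
  rw [hf l hl z (by simp [Link.cols, hz])]
  exact v2 z c c' e hz

/-- Transport of an evaluation along an embedding of molecules with relabelled roles. -/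
theorem EE_map (j : Fin k) (θ : M ↪ M') (γ : M → Perm (Fin k)) (A : Finset M)
    (hγ : ∀ m ∈ A, γ m ∈ GamJ j) (f : M → Sk k n) (f' : M' → Sk k n)
    (hf : ∀ m ∈ A, ∀ z, (f' (θ m)).sep z = γ m * (f m).sep z * (γ m)⁻¹)
    (Λ : List (LL k n M)) (x : Arr k n (M × Fin k)) (x' : Arr k n (M' × Fin k))
    (hx : ∀ z m c, x' z (θ m, γ m c) = x z (m, c)) :
    EE j (A.map θ) f' (Λ.map (fun l => (l.1.map θ γ, l.2))) x' = EE j A f Λ x := by
  have hr : rows j (A.map θ) = (rows j A).map (rowE θ γ) := by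
    ext ⟨m', c'⟩
    simp only [rows, Finset.mem_product, Finset.mem_map, Finset.mem_Iic, Prod.exists]
    constructor
    · rintro ⟨⟨m, hm, rfl⟩, hc⟩
      obtain ⟨c, rfl⟩ := (γ m).surjective c'
      exact ⟨m, c, ⟨hm, (GamJ_le_iff (hγ m hm) c).1 hc⟩, rfl⟩
    · rintro ⟨m, c, ⟨hm, hc⟩, h⟩
      obtain ⟨rfl, rfl⟩ : θ m = m' ∧ γ m c = c' := Prod.ext_iff.1 h
      exact ⟨⟨m, hm, rfl⟩, (GamJ_le_iff (hγ m hm) c).2 hc⟩
  have hx' : x = fun z r => x' z (rowE θ γ r) := by
    funext z r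
    exact (hx z r.1 r.2).symm
  have h1 := app_mono_emb (rowE θ γ) (rows j A) x' (LP Λ * aS A f)
  have h2 : embA (rowE θ γ) (LP Λ * aS A f) =
      LP (Λ.map (fun l => (l.1.map θ γ, l.2))) * aS (A.map θ) f' := by
    rw [map_mul, embA_LP, embA_aS θ γ A f f' hf]
  subst hx'
  have h3 : EE j (A.map θ) f' (Λ.map (fun l => (l.1.map θ γ, l.2))) x' =
      app (mono ((rows j A).map (rowE θ γ))) x' (embA (rowE θ γ) (LP Λ * aS A f)) := by
    rw [h2, ← hr, EE]
  exact h3.trans h1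

theorem LP_mem_SA_L1d (A : Finset M) (Λ : List (LL k n M))
    (h : ∀ l ∈ Λ, l.1.a ∈ A ∧ l.1.b ∈ A) :
    LP Λ ∈ SA {p : Fin n × (M × Fin k) | p.2 ∈ {r : M × Fin k | r.1 ∈ A}} := by
  refine SA_mono _ _ (fun q hq => ?_) (LP_mem_SA Λ)
  simp only [blk, Set.mem_ofPred_eq, Finset.mem_filter, List.mem_map] at hq ⊢
  obtain ⟨_, _, ⟨l, hl, rfl⟩, h1 | h1, _⟩ := hq
  · exact h1 ▸ (h l hl).1
  · exact h1 ▸ (h l hl).2

theorem aS_mem_SA_L1d (A : Finset M) (f : M → Sk k n) :
    aS A f ∈ SA {p : Fin n × (M × Fin k) | p.2 ∈ {r : M × Fin k | r.1 ∈ A}} :=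
  SA_mono _ _ (fun _ hq => hq.1) (aS_mem_SA A f)

/-- The evaluation of two unlinked parts is a product. -/
theorem EE_union (j : Fin k) (A₁ A₂ : Finset M) (hd : Disjoint A₁ A₂) (f : M → Sk k n)
    (Λ₁ Λ₂ : List (LL k n M)) (h₁ : ∀ l ∈ Λ₁, l.1.a ∈ A₁ ∧ l.1.b ∈ A₁)
    (h₂ : ∀ l ∈ Λ₂, l.1.a ∈ A₂ ∧ l.1.b ∈ A₂) (x : Arr k n (M × Fin k)) :
    EE j (A₁ ∪ A₂) f (Λ₁ ++ Λ₂) x = EE j A₁ f Λ₁ x * EE j A₂ f Λ₂ x := by
  have hQ : Disjoint {r : M × Fin k | r.1 ∈ A₁} {r : M × Fin k | r.1 ∈ A₂} :=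
    Set.disjoint_left.2 fun r h h' => Finset.disjoint_left.1 hd h h'
  have hc : Commute (LP Λ₂) (aS A₁ f) :=
    commute_of_SA _ _ (Set.disjoint_left.2 fun q h h' => Finset.disjoint_left.1 hd h' h) _ _
      (LP_mem_SA_L1d A₂ Λ₂ h₂) (aS_mem_SA_L1d A₁ f)
  have hL : LP (Λ₁ ++ Λ₂) = LP Λ₁ * LP Λ₂ := by rw [LP, List.map_append, List.prod_append]; rfl
  rw [EE, EE, EE, ← app_mono_mul (rows j A₁) (rows j A₂) _ _
    (fun r hr => (Finset.mem_product.1 hr).1) (fun r hr => (Finset.mem_product.1 hr).1) hQ _ _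
    (mul_mem (LP_mem_SA_L1d A₁ Λ₁ h₁) (aS_mem_SA_L1d A₁ f))
    (mul_mem (LP_mem_SA_L1d A₂ Λ₂ h₂) (aS_mem_SA_L1d A₂ f)), hL, aS_union _ _ hd,
    hc.mul_mul_mul_comm, rows, Finset.union_product]
  rfl

omit [DecidableEq M] in
theorem card_rows_L1d (j : Fin k) (A : Finset M) : (rows j A).card = (j.val + 1) * A.card := by
  rw [rows, Finset.card_product, Fin.card_Iic, mul_comm]

theorem EE_homog (j : Fin k) (A : Finset M) (f : M → Sk k n) (Λ : List (LL k n M))
    (x : Arr k n (M × Fin k)) : (EE j A f Λ x).IsHomogeneous ((j.val + 1) * A.card) := by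
  rw [← card_rows_L1d]
  exact app_mono_homog _ _ _

omit [DecidableEq M] in
theorem ins_same_L1d (i' : Fin (n + 1)) (l : Link k n M) : (l.ins i').ζ i' = none :=
  Fin.insertNth_apply_same (α := fun _ => Option (Fin k × Fin k × Fin k)) i' none l.ζ

omit [DecidableEq M] in
theorem ins_succ_L1d (i' : Fin (n + 1)) (l : Link k n M) (z : Fin n) :
    (l.ins i').ζ (i'.succAbove z) = l.ζ z :=
  Fin.insertNth_apply_succAbove (α := fun _ => Option (Fin k × Fin k × Fin k)) i' none l.ζ z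

theorem filter_ins_L1d (i' : Fin (n + 1)) (p : Fin (n + 1) → Prop) [DecidablePred p]
    (q : Fin n → Prop) [DecidablePred q] (h0 : ¬ p i') (h : ∀ z, p (i'.succAbove z) ↔ q z) :
    univ.filter p = (univ.filter q).map i'.succAboveEmb := by
  ext z
  refine Fin.succAboveCases i' ?_ (fun z => ?_) z
  · simp [h0]
  · have hm : ∀ s : Finset (Fin n), i'.succAbove z ∈ s.map i'.succAboveEmb ↔ z ∈ s := fun _ =>
      Finset.mem_map' i'.succAboveEmb
    simp only [hm, Finset.mem_filter, h, Finset.mem_univ]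

omit [DecidableEq M] in
theorem cols_ins_L1d (i' : Fin (n + 1)) (l : Link k n M) :
    (l.ins i').cols = l.cols.map i'.succAboveEmb :=
  filter_ins_L1d i' (fun z => (l.ins i').ζ z ≠ none) (fun z => l.ζ z ≠ none)
    (by simp [ins_same_L1d]) fun z => by rw [ins_succ_L1d]

omit [DecidableEq M] in
theorem sepd_ins_L1d (j : Fin k) (i' : Fin (n + 1)) (l : Link k n M) (ω : Finset (Fin n))
    (c e : Fin k) : (l.ins i').sepd j (ω.map i'.succAboveEmb) c e ↔ l.sepd j ω c e := by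
  have hm : ∀ z, i'.succAbove z ∈ ω.map i'.succAboveEmb ↔ z ∈ ω := fun z =>
    Finset.mem_map' i'.succAboveEmb
  rw [Link.sepd, Link.sepd, filter_ins_L1d i' _ (fun z => l.ch ω z = some (c, e)),
    Finset.card_map]
  · simp [Link.ch, ins_same_L1d]
  · intro z
    simp only [Link.ch, ins_succ_L1d, hm]

theorem insA_term_L1d (i' : Fin (n + 1)) (i : Fin n) (l : Link k n M) (hi : i ∉ l.cols)
    (ω : Finset (Fin n)) :
    insA i' i (l.term ω) = (l.ins i').term (ω.map i'.succAboveEmb) := by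
  have hc : ∀ a b : Fin (n + 1), a ≠ b →
      Commute ((l.ins i').op (ω.map i'.succAboveEmb) a)
        ((l.ins i').op (ω.map i'.succAboveEmb) b) := fun a b hab =>
    commute_of_SA _ _ (Set.disjoint_left.2 fun q h h' => hab (h.1.symm.trans h'.1)) _ _
      (op_mem_SA _ _ a) (op_mem_SA _ _ b)
  rw [Link.term, Link.term, map_cprod,
    ← cprod_subset (univ.map i'.succAboveEmb) univ _ (Finset.subset_univ _)
      (fun a _ b _ => hc a b)]
  · refine cprod_bij _ _ _ _ i'.succAbove ?_ (fun z _ => ?_) fun a _ b _ => hc a b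
    · rw [Finset.coe_map]
      exact Set.InjOn.bijOn_image Fin.succAbove_right_injective.injOn
    · have hm : i'.succAbove z ∈ ω.map i'.succAboveEmb ↔ z ∈ ω := Finset.mem_map' i'.succAboveEmb
      simp only [Link.op, ins_succ_L1d, hm]
      rcases hz : l.ζ z with _ | t
      · simp
      · have hzi : z ≠ i := fun h => hi (by simp [Link.cols, ← h, hz])
        simp only [Option.elim_some, pOp]
        split_ifs <;>
          simp only [map_smul, map_mul, map_sub, map_add, map_one, insA_og, insG_sw_ne _ _ _ hzi] <;>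
          rfl
  · intro a _ ha
    obtain rfl | ⟨z, rfl⟩ := Fin.eq_self_or_eq_succAbove i' a
    · simp [Link.op, ins_same_L1d]
    · exact absurd (Finset.mem_map_of_mem i'.succAboveEmb (Finset.mem_univ z)) ha

theorem insA_Lop (j : Fin k) (i' : Fin (n + 1)) (i : Fin n) (l : Link k n M) (hi : i ∉ l.cols)
    (π : Perm (Fin k)) :
    insA i' i (Lop (l, l.Om j π)) = Lop (l.ins i', (l.ins i').Om j π) := by
  simp only [Lop, map_sum, insA_term_L1d i' i l hi]
  refine Finset.sum_bij (fun ω _ => ω.map i'.succAboveEmb) (fun ω hω => ?_)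
    (fun ω _ ω' _ h => Finset.map_injective _ h) (fun ω' hω' => ?_) fun _ _ => rfl
  · simp only [Link.Om, Finset.mem_filter, Finset.mem_powerset, cols_ins_L1d, sepd_ins_L1d,
      Finset.map_subset_map] at hω ⊢
    exact hω
  · have h1 := Finset.mem_powerset.1 (Finset.mem_filter.1 hω').1
    rw [cols_ins_L1d] at h1
    obtain ⟨ω, -, rfl⟩ := Finset.subset_map_iff.1 h1
    refine ⟨ω, ?_, rfl⟩
    simp only [Link.Om, Finset.mem_filter, Finset.mem_powerset, cols_ins_L1d, sepd_ins_L1d,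
      Finset.map_subset_map] at hω' ⊢
    exact hω'

theorem insA_LP (j : Fin k) (i' : Fin (n + 1)) (i : Fin n) (Λ : List (Link k n M))
    (hi : ∀ l ∈ Λ, i ∉ l.cols) :
    insA i' i (LP (idL j Λ)) = LP (idL j (Λ.map (Link.ins i'))) := by
  simp only [LP, idL, map_list_prod, List.map_map]
  congr 1
  exact List.map_congr_left fun l hl => insA_Lop j i' i l (hi l hl) 1

theorem GoodL.ins {j : Fin k} {A : Finset M} {f : M → Sk k n} {d : ℕ} {Λ : List (Link k n M)}
    (h : GoodL j A f d Λ) (i' : Fin (n + 1)) (i : Fin n) (hi : ∀ l ∈ Λ, i ∉ l.cols)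
    (W : Finset M) : GoodL j A (insF i' i W f) d (Λ.map (Link.ins i')) := by
  obtain ⟨⟨h1, h2⟩, h3, h4⟩ := h
  refine ⟨⟨fun l' hl' => ?_, ?_⟩, fun a ha b hb => ?_, fun m => ?_⟩
  · obtain ⟨l, hl, rfl⟩ := List.mem_map.1 hl'
    obtain ⟨⟨v1, v2, v3, v4⟩, hab⟩ := h1 l hl
    refine ⟨⟨v1, fun z c c' e hz => ?_, fun c c' e u0 u1 u2 u3 => ?_, ?_⟩, hab⟩
    · obtain rfl | ⟨z, rfl⟩ := Fin.eq_self_or_eq_succAbove i' z
      · simp [ins_same_L1d] at hz
      · rw [ins_succ_L1d] at hz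
        have hzi : z ≠ i := fun h => hi l hl (by simp [Link.cols, ← h, hz])
        have : (insF i' i W f (l.ins i').a).sep (i'.succAbove z) = (f l.a).sep z := by
          simp only [insF, insSk]
          split_ifs
          · rw [Fin.insertNth_apply_succAbove (α := fun _ => Perm (Fin k)),
              Function.update_of_ne hzi]
            rfl
          · rw [Fin.insertNth_apply_succAbove (α := fun _ => Perm (Fin k))]
            rfl
        rw [this]
        exact v2 z c c' e hz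
    · rw [filter_ins_L1d i' _ (fun z => l.ζ z = some (c, c', e) ∨ l.ζ z = some (c', c, e))
        (by simp [ins_same_L1d]) fun z => by rw [ins_succ_L1d], Finset.card_map]
      exact v3 c c' e u0 u1 u2 u3
    · rwa [cols_ins_L1d, Finset.card_map]
  · rw [List.pairwise_map]
    refine h2.imp fun {l l'} h hm => ?_
    rw [cols_ins_L1d, cols_ins_L1d, Finset.disjoint_map]
    exact h hm
  · refine Relation.ReflTransGen.mono ?_ a b (h3 a ha b hb)
    rintro u v ⟨l, hl, h⟩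
    exact ⟨l.ins i', List.mem_map_of_mem hl, h⟩
  · rw [load, List.countP_map]
    exact h4 m

/-- The exact splitting formula for a linked system. -/
theorem psi_EE [Fintype M] (j : Fin k) (i' : Fin (n + 1)) (i : Fin n) (s : Fin k → ℕ)
    (f : M → Sk k n) (Λ : List (Link k n M)) (hi : ∀ l ∈ Λ, i ∉ l.cols)
    (x : Arr k n (M × Fin k)) :
    (sc s ^ (Fintype.card M * (k - (j.val + 1)))) • psi i' i s (EE j univ f (idL j Λ) x) =
      ∑ y, coef s (x i) y • ∑ W ∈ (univ.filter (fun m => (f m).sep i ≠ 1)).powerset,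
        EE j univ (insF i' i W f) (idL j (Λ.map (Link.ins i')))
          (act (sWG i' i W f) (insArr i' x y)) := by
  have hc : Fintype.card M * (k - (j.val + 1)) =
      Fintype.card (M × Fin k) - (rows j (univ : Finset M)).card := by
    rw [card_rows_L1d, Fintype.card_prod, Fintype.card_fin, Finset.card_univ, Nat.mul_sub,
      mul_comm (j.val + 1)]
  have h1 := psi_app i' i s (rows j (univ : Finset M)) x (LP (idL j Λ) * aS univ f)
  have h2 : ∀ y, app (mono (rows j (univ : Finset M))) (insArr i' x y)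
      (insA i' i (LP (idL j Λ) * aS univ f)) =
      ∑ W ∈ (univ.filter (fun m => (f m).sep i ≠ 1)).powerset,
        EE j univ (insF i' i W f) (idL j (Λ.map (Link.ins i')))
          (act (sWG i' i W f) (insArr i' x y)) := by
    intro y
    rw [map_mul, insA_LP j i' i Λ hi, insA_aS, Finset.mul_sum, map_sum]
    refine Finset.sum_congr rfl fun W _ => ?_
    rw [← mul_assoc, app_mul_og, EE]
  simp only [h2] at h1
  rw [hc, EE]
  exact h1

end Pool.Agent.Lib.MP_595dc0_ag.Dk
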