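import Mathlib
import Pool.Agent.Lib.MP_595dc0_ag.DkL1b

set_option autoImplicit false

namespace Pool.Agent.Lib.MP_595dc0_ag.Dk

open Equiv Finset MvPolynomial

variable {k n : ℕ}

/-- Greedy choice of disjoint sets. -/
theorem exists_disjoint_subsets {ι α : Type} [DecidableEq ι] [DecidableEq α] (s : Finset ι)
    (Y : ι → Finset α) (m : ℕ) (h : ∀ i ∈ s, s.card * m ≤ (Y i).card) :
    ∃ Z : ι → Finset α, (∀ i ∈ s, Z i ⊆ Y i ∧ (Z i).card = m) ∧
      ∀ i ∈ s, ∀ i' ∈ s, i ≠ i' → Disjoint (Z i) (Z i') := by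
  induction s using Finset.induction_on with
  | empty => exact ⟨fun _ => ∅, by simp, by simp⟩
  | insert a s ha ih =>
    rw [Finset.card_insert_of_notMem ha] at h
    obtain ⟨Z, hZ1, hZ2⟩ := ih (fun i hi => le_trans (Nat.mul_le_mul_right _ (Nat.le_succ _))
      (h i (Finset.mem_insert_of_mem hi)))
    have hU : (s.biUnion Z).card ≤ s.card * m := by
      refine le_trans Finset.card_biUnion_le (le_of_eq ?_)
      rw [Finset.sum_congr rfl (fun i hi => (hZ1 i hi).2)]
      simp
    have hW : m ≤ (Y a \ s.biUnion Z).card := by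
      have h1 := h a (Finset.mem_insert_self _ _)
      have h2 := Finset.le_card_sdiff (s.biUnion Z) (Y a)
      have h3 : (s.card + 1) * m = s.card * m + m := by ring
      omega
    obtain ⟨W, hW1, hW2⟩ := Finset.exists_subset_card_eq hW
    have hdis : ∀ i ∈ s, Disjoint W (Z i) := by
      intro i hi
      rw [Finset.disjoint_left]
      intro x hx hx'
      exact (Finset.mem_sdiff.1 (hW1 hx)).2 (Finset.mem_biUnion.2 ⟨i, hi, hx'⟩)
    have hne : ∀ i ∈ s, i ≠ a := fun i hi e => ha (e ▸ hi)
    refine ⟨Function.update Z a W, ?_, ?_⟩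
    · intro i hi
      rcases Finset.mem_insert.1 hi with rfl | hi
      · rw [Function.update_self]
        exact ⟨hW1.trans Finset.sdiff_subset, hW2⟩
      · rw [Function.update_of_ne (hne i hi)]
        exact hZ1 i hi
    · intro i hi0 i' hi0' hii
      rcases Finset.mem_insert.1 hi0 with e | hi
      · rcases Finset.mem_insert.1 hi0' with e' | hi'
        · exact absurd (e.trans e'.symm) hii
        · rw [e, Function.update_self, Function.update_of_ne (hne i' hi')]
          exact hdis i' hi'
      · rcases Finset.mem_insert.1 hi0' with e' | hi'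
        · rw [e', Function.update_self, Function.update_of_ne (hne i hi)]
          exact (hdis i hi).symm
        · rw [Function.update_of_ne (hne i hi), Function.update_of_ne (hne i' hi')]
          exact hZ2 i hi i' hi' hii

namespace DkL1eAux

/-- The factor of column `z`. -/
noncomputable def fac {R : Type} [DecidableEq R] (σ : Fin n → Option (R × R)) (z : Fin n) :
    GA n R :=
  (σ z).elim 1 (fun p => 1 - og (sw z p.1 p.2))

theorem fac_mem {R : Type} [DecidableEq R] (σ : Fin n → Option (R × R)) (z : Fin n) :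
    fac σ z ∈ SA {q : Fin n × R | q.1 = z} := by
  unfold fac
  cases σ z with
  | none => exact Subalgebra.one_mem _
  | some p =>
    exact Subalgebra.sub_mem _ (Subalgebra.one_mem _)
      (og_mem_SA _ _ (sw_mem_GD _ _ _ _ rfl rfl))

theorem fac_commute {R : Type} [DecidableEq R] (σ : Fin n → Option (R × R)) (z z' : Fin n)
    (h : z ≠ z') : Commute (fac σ z) (fac σ z') := by
  refine commute_of_SA _ _ ?_ _ _ (fac_mem σ z) (fac_mem σ z')
  rw [Set.disjoint_left]
  intro q h1 h2
  exact h (h1.symm.trans h2)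

theorem anti_fac {R : Type} [DecidableEq R] (σ : Fin n → Option (R × R)) (z : Fin n) (c c' : R)
    (h : σ z = some (c, c')) : Anti (cprod univ (fac σ)) z c c' := by
  rw [cprod_erase univ (fac σ) (fun a _ b _ hab => fac_commute σ a b hab) z (Finset.mem_univ _)]
  refine Anti.mul_right ?_ _
  unfold fac
  rw [h]
  exact anti_one_sub z c c'

theorem list_mul_eq_smul {A : Type} [Ring A] [Algebra ℂ A] (T : A) (l : List A)
    (h : ∀ a ∈ l, ∃ c : ℂ, c ≠ 0 ∧ a * T = c • T) : ∃ c : ℂ, c ≠ 0 ∧ l.prod * T = c • T := by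
  induction l with
  | nil => exact ⟨1, one_ne_zero, by simp⟩
  | cons a l ih =>
    obtain ⟨c, hc, h1⟩ := ih (fun b hb => h b (List.mem_cons_of_mem _ hb))
    obtain ⟨d, hd, h2⟩ := h a List.mem_cons_self
    refine ⟨c * d, mul_ne_zero hc hd, ?_⟩
    rw [List.prod_cons, mul_assoc, h1, mul_smul_comm, h2, smul_smul]

theorem swap_eq_pair {J : ℕ} (ι : Fin J ↪ Fin k) (a b c d : Fin J) (hab : a < b) (hcd : c < d)
    (h : swap (ι a) (ι b) = swap (ι c) (ι d)) : (a, b) = (c, d) := by
  have h1 : swap (ι a) (ι b) (ι c) = ι d := by rw [h, swap_apply_left]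
  by_cases h2 : c = a
  · subst h2
    rw [swap_apply_left] at h1
    rw [ι.injective h1]
  · by_cases h3 : c = b
    · subst h3
      rw [swap_apply_right] at h1
      have := ι.injective h1
      subst this
      exact absurd (hab.trans hcd) (lt_irrefl _)
    · rw [swap_apply_of_ne_of_ne (fun e => h2 (ι.injective e)) (fun e => h3 (ι.injective e))] at h1
      exact absurd (ι.injective h1) hcd.ne

theorem core_top (j : Fin k) (hj : j.val + 1 = k)
    (σ : Fin n → Option (Fin (j.val + 2) × Fin (j.val + 2)))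
    (h2 : ∀ c c', c < c' →
      (univ.filter (fun z => σ z = some (c, c'))).card = muC k (j.val + 1))
    (y : Arr k n (Fin (j.val + 2))) :
    app (mono univ) y (cprod univ (fac σ)) ∈ JJ k n (D0 k) := by
  refine mem_JJ_of_anti univ (D0 k) ?_ y _ ?_ (by omega)
  · rw [Finset.card_univ, Fintype.card_fin]
    unfold D0
    nlinarith [j.isLt]
  · intro χ
    have key : ∀ c c', c < c' → χ c = χ c' → ∃ g : GG n (Fin (j.val + 2)),
        (∀ z r, g z r ∈ (univ : Finset (Fin (j.val + 2))) ↔
          r ∈ (univ : Finset (Fin (j.val + 2)))) ∧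
        (∀ z, ∀ r ∈ (univ : Finset (Fin (j.val + 2))), χ (g z r) = χ r) ∧
        og g * cprod univ (fac σ) = -cprod univ (fac σ) := by
      intro c c' hlt he
      have hpos : 0 < (univ.filter (fun z => σ z = some (c, c'))).card := by
        rw [h2 c c' hlt]
        exact mu_pos _ _
      obtain ⟨z, hz⟩ := Finset.card_pos.1 hpos
      refine ⟨sw z c c', by simp, ?_, anti_fac σ z c c' (Finset.mem_filter.1 hz).2⟩
      intro z' r _
      unfold sw
      by_cases hzz : z' = z
      · subst hzz
        rw [Pi.mulSingle_eq_same]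
        exact Equiv.apply_swap_eq_self he r
      · rw [Pi.mulSingle_eq_of_ne hzz]
        rfl
    obtain ⟨c, c', hne, he⟩ := Fintype.exists_ne_map_eq_of_card_lt χ (by simp; omega)
    rcases lt_or_gt_of_ne hne with hlt | hlt
    · exact key c c' hlt he
    · exact key c' c hlt he.symm

theorem core_low (j : Fin k) (hj : j.val + 1 < k)
    (σ : Fin n → Option (Fin (j.val + 2) × Fin (j.val + 2)))
    (h1 : ∀ z p, σ z = some p → p.1 < p.2)
    (h2 : ∀ c c', c < c' →
      (univ.filter (fun z => σ z = some (c, c'))).card = muC k (j.val + 1))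
    (y : Arr k n (Fin (j.val + 2))) :
    ∃ m : Mol k n, m.1.Valid ∧ m.1.cls.val = j.val + 1 ∧
      app (mono univ) y (cprod univ (fac σ)) = Ev1 m := by
  let ι : Fin (j.val + 2) ↪ Fin k := Fin.castLEEmb (by omega)
  have hι : ∀ c, (ι c).val = c.val := fun c => rfl
  let a : Sk k n := ⟨⟨j.val + 1, hj⟩, fun z => (σ z).elim 1 (fun p => swap (ι p.1) (ι p.2))⟩
  let ι' : Fin (j.val + 2) ↪ Unit × Fin k :=
    ⟨fun c => ((), ι c), fun c d h => ι.injective (congrArg Prod.snd h)⟩
  let m : Mol k n := (a, fun z c => if h : c.val < j.val + 2 then y z ⟨c.val, h⟩ else c)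
  have hle : ∀ c, ι c ≤ a.cls := fun c => by
    show (ι c).val ≤ j.val + 1
    rw [hι]
    omega
  have hsur : ∀ c, c ≤ a.cls → ∃ d, ι d = c := fun c hc =>
    ⟨⟨c.val, by
      have : c.val ≤ j.val + 1 := hc
      omega⟩, Fin.ext rfl⟩
  have hcount : ∀ d d', d < d' →
      (univ.filter (fun z => a.sep z = swap (ι d) (ι d'))).card = muC k (j.val + 1) := by
    intro d d' hlt
    rw [← h2 d d' hlt]
    congr 1
    ext z
    simp only [Finset.mem_filter, Finset.mem_univ, true_and]
    show (σ z).elim 1 (fun p => swap (ι p.1) (ι p.2)) = _ ↔ _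
    cases hz : σ z with
    | none =>
      simp only [Option.elim_none, reduceCtorEq, iff_false]
      intro e
      exact hlt.ne (ι.injective (swap_eq_one_iff.1 e.symm))
    | some p =>
      simp only [Option.elim_some, Option.some.injEq]
      constructor
      · intro e
        exact swap_eq_pair ι p.1 p.2 d d' (h1 z p hz) hlt e
      · intro e
        rw [e]
  refine ⟨m, ⟨?_, ?_⟩, rfl, ?_⟩
  · intro z
    show (σ z).elim 1 (fun p => swap (ι p.1) (ι p.2)) = 1 ∨ ∃ c c', c ≠ c' ∧ c ≤ a.cls ∧
      c' ≤ a.cls ∧ (σ z).elim 1 (fun p => swap (ι p.1) (ι p.2)) = swap c c'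
    cases hz : σ z with
    | none => exact Or.inl rfl
    | some p =>
      exact Or.inr ⟨ι p.1, ι p.2, fun e => (h1 z p hz).ne (ι.injective e), hle _, hle _, rfl⟩
  · intro c c' hne hc hc'
    obtain ⟨d, rfl⟩ := hsur c hc
    obtain ⟨d', rfl⟩ := hsur c' hc'
    rcases lt_or_gt_of_ne (fun e : d = d' => hne (by rw [e])) with hlt | hlt
    · exact hcount d d' hlt
    · rw [swap_comm]
      exact hcount d' d hlt
  · have hrows : rows a.cls (univ : Finset Unit) = univ.map ι' := by
      ext ⟨u, c⟩
      simp only [rows, Finset.mem_product, Finset.mem_univ, Finset.mem_Iic, true_and,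
        Finset.mem_map]
      constructor
      · intro hc
        obtain ⟨d, rfl⟩ := hsur c hc
        exact ⟨d, rfl⟩
      · rintro ⟨d, hd⟩
        have : ι d = c := congrArg Prod.snd hd
        rw [← this]
        exact hle d
    have haS : embA ι' (cprod univ (fac σ)) = aS (univ : Finset Unit) (fun _ => a) := by
      rw [map_cprod]
      unfold aS
      refine cprod_bij _ _ _ _ (fun z => (z, ())) ⟨?_, ?_, ?_⟩ ?_ ?_
      · intro z _
        simp
      · intro z _ z' _ e
        exact congrArg Prod.fst e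
      · rintro ⟨z, u⟩ _
        exact ⟨z, by simp, rfl⟩
      · intro z _
        unfold fac aCell
        show _ = if (σ z).elim 1 (fun p => swap (ι p.1) (ι p.2)) = 1 then 1 else
          1 - og (sepG z () ((σ z).elim 1 (fun p => swap (ι p.1) (ι p.2))))
        cases hz : σ z with
        | none => simp
        | some p =>
          have hne : swap (ι p.1) (ι p.2) ≠ 1 := fun e =>
            (h1 z p hz).ne (ι.injective (swap_eq_one_iff.1 e))
          simp only [Option.elim_some]
          rw [if_neg hne, map_sub, map_one, embA_og, embG_sw, sepG_swap]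
          rfl
      · intro p _ q _ hpq
        exact aCell_commute _ _ p q hpq
    show _ = app (mono (rows a.cls (univ : Finset Unit))) (arrOf (fun _ => m))
      (LP [] * aS (univ : Finset Unit) (fun _ => a))
    have hLP : LP ([] : List (LL k n Unit)) = 1 := rfl
    rw [hLP, one_mul, hrows, ← haS, app_mono_emb]
    congr 2
    funext z r
    show y z r = if h : (ι r).val < j.val + 2 then y z ⟨(ι r).val, h⟩ else ι r
    rw [dif_pos (show (ι r).val < j.val + 2 from r.isLt)]
    rfl

theorem core (j : Fin k) (σ : Fin n → Option (Fin (j.val + 2) × Fin (j.val + 2)))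
    (h1 : ∀ z p, σ z = some p → p.1 < p.2)
    (h2 : ∀ c c', c < c' →
      (univ.filter (fun z => σ z = some (c, c'))).card = muC k (j.val + 1))
    (y : Arr k n (Fin (j.val + 2))) :
    app (mono univ) y (cprod univ (fac σ)) ∈ Err n j := by
  rcases Nat.lt_or_ge (j.val + 1) k with hj | hj
  · exact Ideal.mem_sup_right (Ideal.subset_span (core_low j hj σ h1 h2 y))
  · exact Ideal.mem_sup_left (core_top j (by have := j.isLt; omega) σ h2 y)

end DkL1eAux

open DkL1eAux in
/-- The frame lemma. -/
theorem frame {R : Type} [DecidableEq R] (j : Fin k) (P Φ : Finset R) (hΦ : Φ ⊆ P)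
    (hc : Φ.card = j.val + 2) (T : GA n R)
    (h : ∀ r ∈ Φ, ∀ r' ∈ Φ, r ≠ r' → SP k j T r r') (x : Arr k n R) :
    app (mono P) x T ∈ Err n j := by
  classical
  let e := Finset.equivFinOfCardEq hc
  let ρ : Fin (j.val + 2) ↪ R :=
    ⟨fun c => (e.symm c).val, fun c d hcd => e.symm.injective (Subtype.ext hcd)⟩
  have hρ : ∀ c, ρ c ∈ Φ := fun c => (e.symm c).2
  have hmap : Φ = univ.map ρ := by
    ext r
    simp only [Finset.mem_map, Finset.mem_univ, true_and]
    constructor
    · intro hr
      exact ⟨e ⟨r, hr⟩, by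
        show (e.symm (e ⟨r, hr⟩)).val = r
        rw [e.symm_apply_apply]⟩
    · rintro ⟨c, rfl⟩
      exact hρ c
  let s : Finset (Fin (j.val + 2) × Fin (j.val + 2)) := univ.filter (fun p => p.1 < p.2)
  have hY : ∀ p : Fin (j.val + 2) × Fin (j.val + 2), ∃ Y : Finset (Fin n), p ∈ s →
      nuC k j ≤ Y.card ∧ ∀ z ∈ Y, Anti T z (ρ p.1) (ρ p.2) := by
    intro p
    by_cases hp : p ∈ s
    · obtain ⟨Y, hY⟩ := h _ (hρ p.1) _ (hρ p.2)
        (fun e' => (Finset.mem_filter.1 hp).2.ne (ρ.injective e'))
      exact ⟨Y, fun _ => hY⟩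
    · exact ⟨∅, fun hp' => absurd hp' hp⟩
  choose Y hY using hY
  have hs : s.card ≤ (k + 1) ^ 2 := by
    refine le_trans (Finset.card_le_univ _) ?_
    rw [Fintype.card_prod, Fintype.card_fin, ← pow_two]
    exact Nat.pow_le_pow_left (by have := j.isLt; omega) 2
  obtain ⟨Z, hZ1, hZ2⟩ := exists_disjoint_subsets s Y (muC k (j.val + 1)) (fun p hp =>
    le_trans (Nat.mul_le_mul_right _ hs) (hY p hp).1)
  let σ : Fin n → Option (Fin (j.val + 2) × Fin (j.val + 2)) := fun z =>
    if hz : ∃ p ∈ s, z ∈ Z p then some hz.choose else none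
  have hσ : ∀ z p, σ z = some p ↔ p ∈ s ∧ z ∈ Z p := by
    intro z p
    constructor
    · intro hz
      by_cases hex : ∃ p ∈ s, z ∈ Z p
      · have e1 : σ z = some hex.choose := dif_pos hex
        rw [e1, Option.some.injEq] at hz
        rw [← hz]
        exact hex.choose_spec
      · have e1 : σ z = none := dif_neg hex
        rw [e1] at hz
        exact absurd hz (by simp)
    · intro hp
      have hex : ∃ p ∈ s, z ∈ Z p := ⟨p, hp⟩
      have e1 : σ z = some hex.choose := dif_pos hex
      rw [e1, Option.some.injEq]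
      by_contra hne
      exact Finset.disjoint_left.1 (hZ2 _ hex.choose_spec.1 p hp.1 hne) hex.choose_spec.2 hp.2
  have h1 : ∀ z p, σ z = some p → p.1 < p.2 := fun z p hz =>
    (Finset.mem_filter.1 ((hσ z p).1 hz).1).2
  have h2 : ∀ c c', c < c' →
      (univ.filter (fun z => σ z = some (c, c'))).card = muC k (j.val + 1) := by
    intro c c' hlt
    have hp : (c, c') ∈ s := Finset.mem_filter.2 ⟨Finset.mem_univ _, hlt⟩
    rw [← (hZ1 _ hp).2]
    congr 1
    ext z
    simp only [Finset.mem_filter, Finset.mem_univ, true_and, hσ, hp]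
  obtain ⟨c, hc0, hT⟩ : ∃ c : ℂ, c ≠ 0 ∧ embA ρ (cprod univ (fac σ)) * T = c • T := by
    rw [map_cprod]
    refine list_mul_eq_smul T _ ?_
    intro a ha
    obtain ⟨z, _, rfl⟩ := List.mem_map.1 ha
    unfold fac
    cases hz : σ z with
    | none => exact ⟨1, one_ne_zero, by simp⟩
    | some p =>
      have hp := (hσ z p).1 hz
      have hA : og (sw z (ρ p.1) (ρ p.2)) * T = -T := (hY p hp.1).2 z ((hZ1 p hp.1).1 hp.2)
      refine ⟨2, two_ne_zero, ?_⟩
      simp only [Option.elim_some]
      rw [map_sub, map_one, embA_og, embG_sw, sub_mul, one_mul, hA, sub_neg_eq_add, two_smul]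
  have hmem : app (mono P) x (embA ρ (cprod univ (fac σ)) * T) ∈ Err n j := by
    refine app_mono_loc P Φ hΦ _ (SA_mono _ _ ?_ (embA_mem_SA ρ _)) _ ?_ x T
    · rintro q ⟨d, hd⟩
      exact Or.inl (hd ▸ hρ d)
    · intro y
      rw [hmap, app_mono_emb]
      exact core j σ h1 h2 _
  rw [hT, map_smul] at hmem
  have e2 : app (mono P) x T = C c⁻¹ * (c • app (mono P) x T) := by
    rw [← smul_eq_C_mul, smul_smul, inv_mul_cancel₀ hc0, one_smul]
  rw [e2]
  exact Ideal.mul_mem_left _ _ hmem

end Pool.Agent.Lib.MP_595dc0_ag.Dk
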