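import Mathlib
import Pool.Agent.Lib.MP_595dc0_ag.DkL1c
import Pool.Agent.Lib.MP_595dc0_ag.DkL1e

set_option autoImplicit false

namespace Pool.Agent.Lib.MP_595dc0_ag.Dk

open Equiv Finset MvPolynomial

variable {k n : ℕ} {M : Type} [DecidableEq M]

theorem SP.symm {R : Type} [DecidableEq R] {j : ℕ} {T : GA n R} {r r' : R}
    (h : SP k j T r r') : SP k j T r' r := by
  obtain ⟨Y, h1, h2⟩ := h
  exact ⟨Y, h1, fun z hz => (h2 z hz).symm⟩

theorem van (P : Finset (M × Fin k)) (S : Ideal (AA k n)) (Λ : List (LL k n M))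
    (T : GA n (M × Fin k)) (x : Arr k n (M × Fin k))
    (h : ∀ Λ', Sel Λ Λ' → app (mono P) x (TP Λ' * T) ∈ S) :
    app (mono P) x (LP Λ * T) ∈ S := by
  have key : ∀ U ∈ Submodule.span ℂ {T | ∃ Λ', Sel Λ Λ' ∧ T = TP Λ'},
      app (mono P) x (U * T) ∈ S := by
    intro U hU
    induction hU using Submodule.span_induction with
    | mem U hU =>
      obtain ⟨Λ', h1, rfl⟩ := hU
      exact h Λ' h1
    | zero => rw [zero_mul, map_zero]; exact S.zero_mem
    | add U V _ _ h1 h2 => rw [add_mul, map_add]; exact S.add_mem h1 h2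
    | smul c U _ h1 => rw [smul_mul_assoc, map_smul]; exact S.smul_of_tower_mem c h1
  exact key _ (LP_mem_span Λ)

theorem sp_intra {j : Fin k} {A : Finset M} {f : M → Sk k n} (hs : SysOK j A f)
    {Λ : List (Link k n M × Finset (Fin n))} (h : Adm j A f (Λ.map Prod.fst))
    (hl : ∀ m, load (Λ.map Prod.fst) m ≤ 7) (T : GA n (M × Fin k)) (m : M) (hm : m ∈ A)
    (c c' : Fin k) (hc : c ≠ c') (h1 : c ≤ j) (h2 : c' ≤ j) :
    SP k j (TP Λ * (aS A f * T)) (m, c) (m, c') := by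
  classical
  obtain ⟨hv, hcls⟩ := hs m hm
  refine ⟨(univ.filter (fun z => (f m).sep z = swap c c')) \ blk (Λ.map Prod.fst) m, ?_, ?_⟩
  · have e1 := hv.2 c c' hc (hcls ▸ h1) (hcls ▸ h2)
    rw [hcls] at e1
    have e2 := card_blk_le h m
    have e3 := hl m
    have e4 := room_le_muC j
    have e5 := nuC_le_LB j
    have e6 := Finset.le_card_sdiff (blk (Λ.map Prod.fst) m)
      (univ.filter (fun z => (f m).sep z = swap c c'))
    have e7 : load (Λ.map Prod.fst) m * LB k j ≤ 7 * LB k j := Nat.mul_le_mul_right _ e3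
    omega
  · intro z hz
    rw [Finset.mem_sdiff, Finset.mem_filter] at hz
    exact ((anti_aS A f m hm z c c' hc hz.1.2).mul_right T).mul_left_SA _ _ (TP_mem_SA Λ)
      hz.2 hz.2

theorem sp_sepd {j : Fin k} {A : Finset M} {f : M → Sk k n}
    {Λ : List (Link k n M × Finset (Fin n))} (h : Adm j A f (Λ.map Prod.fst))
    (l : Link k n M × Finset (Fin n)) (hl : l ∈ Λ) (c e : Fin k) (hs : l.1.sepd j l.2 c e)
    (T : GA n (M × Fin k)) : SP k j (TP Λ * T) (l.1.a, c) (l.1.b, e) := by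
  refine ⟨univ.filter (fun z => l.1.ch l.2 z = some (c, e)), hs, fun z hz => ?_⟩
  rw [Finset.mem_filter] at hz
  exact (anti_TP h l hl z c e hz.2).mul_right T

theorem sp_lab {j : Fin k} {A : Finset M} {f : M → Sk k n} {Λ : List (LL k n M)}
    (h : Adm j A f (Λ.map Prod.fst)) {Λ' : List (Link k n M × Finset (Fin n))} (hsel : Sel Λ Λ')
    {a b : M} {π : Perm (Fin k)} (hL : Lab j Λ a b π) (c e : Fin k)
    (h1 : c ≤ j) (h2 : e ≤ j) (hc : c ≠ π e) (T : GA n (M × Fin k)) :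
    SP k j (TP Λ' * T) (a, c) (b, e) := by
  obtain ⟨l, hl, hh⟩ := hL
  obtain ⟨ω, hω, hm⟩ := hsel.exists_mem l hl
  have h' : Adm j A f (Λ'.map Prod.fst) := by rw [hsel.map_fst]; exact h
  rcases hh with ⟨ha, hb, hO⟩ | ⟨ha, hb, hO⟩
  · have := (Finset.mem_filter.1 (hO hω)).2 c e h1 h2
    have h3 := sp_sepd h' (l.1, ω) hm c e (this.2 hc) T
    rw [← ha, ← hb]
    exact h3
  · have := (Finset.mem_filter.1 (hO hω)).2 e c h2 h1
    have hc' : e ≠ π⁻¹ c := by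
      intro he
      apply hc
      rw [he]
      simp
    have h3 := sp_sepd h' (l.1, ω) hm e c (this.2 hc') T
    rw [← ha, ← hb]
    exact h3.symm

theorem Lab.symm {j : Fin k} {Λ : List (LL k n M)} {a b : M} {π : Perm (Fin k)}
    (h : Lab j Λ a b π) : Lab j Λ b a π⁻¹ := by
  obtain ⟨l, hl, hh⟩ := h
  refine ⟨l, hl, ?_⟩
  rcases hh with hh | hh
  · right
    rw [inv_inv]
    exact hh
  · left
    exact hh

theorem Lab.mem {j : Fin k} {A : Finset M} {f : M → Sk k n} {Λ : List (LL k n M)}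
    (h : Adm j A f (Λ.map Prod.fst)) {a b : M} {π : Perm (Fin k)} (hL : Lab j Λ a b π) :
    a ≠ b ∧ a ∈ A ∧ b ∈ A := by
  obtain ⟨l, hl, hh⟩ := hL
  obtain ⟨hv, ha, hb⟩ := h.1 l.1 (List.mem_map_of_mem hl)
  rcases hh with ⟨h1, h2, _⟩ | ⟨h1, h2, _⟩
  · rw [← h1, ← h2]
    exact ⟨hv.1, ha, hb⟩
  · rw [← h1, ← h2]
    exact ⟨hv.1.symm, hb, ha⟩

theorem dkL1f_mem_rows {j : Fin k} {A : Finset M} {a : M} {c : Fin k} (ha : a ∈ A) (hc : c ≤ j) :
    (a, c) ∈ rows j A :=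
  Finset.mem_product.2 ⟨ha, Finset.mem_Iic.2 hc⟩

/-- A frame made of all rows of `a` but one and two more rows. -/
theorem dkL1f_frame2 (j : Fin k) (A : Finset M) (T : GA n (M × Fin k)) (a : M) (ha : a ∈ A)
    (c₀ : Fin k) (hc₀ : c₀ ≤ j) (r₁ r₂ : M × Fin k) (h₁ : r₁ ∈ rows j A) (h₂ : r₂ ∈ rows j A)
    (h12 : r₁ ≠ r₂) (hsp : SP k j T r₁ r₂)
    (hin : ∀ c c', c ≠ c' → c ≤ j → c' ≤ j → SP k j T (a, c) (a, c'))
    (hne : ∀ c, c ≤ j → c ≠ c₀ → (a, c) ≠ r₁ ∧ (a, c) ≠ r₂)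
    (hout : ∀ c, c ≤ j → c ≠ c₀ → SP k j T (a, c) r₁ ∧ SP k j T (a, c) r₂)
    (x : Arr k n (M × Fin k)) : app (mono (rows j A)) x T ∈ Err n j := by
  have hmem : ∀ r, r ∈ ((Finset.Iic j).erase c₀).image (fun c => (a, c)) ↔
      ∃ c, c ≤ j ∧ c ≠ c₀ ∧ r = (a, c) := by
    intro r
    simp only [Finset.mem_image, Finset.mem_erase, Finset.mem_Iic]
    constructor
    · rintro ⟨c, ⟨e1, e2⟩, e3⟩
      exact ⟨c, e2, e1, e3.symm⟩
    · rintro ⟨c, e1, e2, e3⟩
      exact ⟨c, ⟨e2, e1⟩, e3.symm⟩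
  refine frame j (rows j A)
    (insert r₁ (insert r₂ (((Finset.Iic j).erase c₀).image (fun c => (a, c))))) ?_ ?_ T ?_ x
  · intro r hr
    rw [Finset.mem_insert, Finset.mem_insert, hmem] at hr
    rcases hr with rfl | rfl | ⟨c, e1, _, rfl⟩
    · exact h₁
    · exact h₂
    · exact dkL1f_mem_rows ha e1
  · rw [Finset.card_insert_of_notMem, Finset.card_insert_of_notMem,
      Finset.card_image_of_injective _ (Prod.mk_right_injective a),
      Finset.card_erase_of_mem (Finset.mem_Iic.2 hc₀), Fin.card_Iic]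
    · omega
    · rw [hmem]
      rintro ⟨c, e1, e2, e3⟩
      exact (hne c e1 e2).2 e3.symm
    · rw [Finset.mem_insert, hmem]
      rintro (e | ⟨c, e1, e2, e3⟩)
      · exact h12 e
      · exact (hne c e1 e2).1 e3.symm
  · intro r hr r' hr' hrr
    rw [Finset.mem_insert, Finset.mem_insert, hmem] at hr hr'
    rcases hr with rfl | rfl | ⟨c, e1, e2, rfl⟩ <;>
      rcases hr' with rfl | rfl | ⟨c', e1', e2', rfl⟩
    · exact absurd rfl hrr
    · exact hsp
    · exact (hout c' e1' e2').1.symm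
    · exact hsp.symm
    · exact absurd rfl hrr
    · exact (hout c' e1' e2').2.symm
    · exact (hout c e1 e2).1
    · exact (hout c e1 e2).2
    · exact hin c c' (fun e => hrr (by rw [e])) e1 e1'

/-- A frame made of all rows of `a` and one more row. -/
theorem dkL1f_frame1 (j : Fin k) (A : Finset M) (T : GA n (M × Fin k)) (a b : M) (ha : a ∈ A)
    (hb : b ∈ A) (hab : a ≠ b) (e : Fin k) (he : e ≤ j)
    (hin : ∀ c c', c ≠ c' → c ≤ j → c' ≤ j → SP k j T (a, c) (a, c'))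
    (hout : ∀ c, c ≤ j → SP k j T (a, c) (b, e))
    (x : Arr k n (M × Fin k)) : app (mono (rows j A)) x T ∈ Err n j := by
  have hne : ∀ c, (a, c) ≠ (b, e) := fun c h => hab (congrArg Prod.fst h)
  refine dkL1f_frame2 j A T a ha j le_rfl (a, j) (b, e) (dkL1f_mem_rows ha le_rfl)
    (dkL1f_mem_rows hb he) (hne j) (hout j le_rfl) hin ?_ ?_ x
  · intro c _ h2
    exact ⟨fun h => h2 (congrArg Prod.snd h), hne c⟩
  · intro c h1 h2
    exact ⟨hin c j h2 h1 le_rfl, hout c h1⟩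

theorem van_bad {j : Fin k} {A : Finset M} {f : M → Sk k n} (hs : SysOK j A f)
    {Λ : List (LL k n M)} (h : Adm j A f (Λ.map Prod.fst))
    (hl : ∀ m, load (Λ.map Prod.fst) m ≤ 7) (l : LL k n M) (hm : l ∈ Λ)
    (hb : l.2 ⊆ l.1.OmBad j) (x : Arr k n (M × Fin k)) : EE j A f Λ x ∈ Err n j := by
  unfold EE
  rw [← mul_one (aS A f)]
  refine van _ _ Λ _ x (fun Λ' hsel => ?_)
  have h' : Adm j A f (Λ'.map Prod.fst) := by rw [hsel.map_fst]; exact h
  have hl' : ∀ m, load (Λ'.map Prod.fst) m ≤ 7 := by rw [hsel.map_fst]; exact hl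
  obtain ⟨ω, hω, hmem⟩ := hsel.exists_mem l hm
  obtain ⟨hv, ha, hb'⟩ := h.1 l.1 (List.mem_map_of_mem hm)
  obtain ⟨hcols, hbad⟩ := Finset.mem_filter.1 (hb hω)
  by_cases hA : ∃ e, e ≤ j ∧ ∀ c, c ≤ j → l.1.sepd j ω c e
  · obtain ⟨e, he, hc⟩ := hA
    exact dkL1f_frame1 j A _ l.1.a l.1.b ha hb' hv.1 e he
      (fun c c' e1 e2 e3 => sp_intra hs h' hl' 1 _ ha c c' e1 e2 e3)
      (fun c e1 => sp_sepd h' (l.1, ω) hmem c e (hc c e1) _) x
  · have hB : ∀ e : Fin k, ∃ c : Fin k,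
        (e ≤ j → c ≤ j ∧ ¬ l.1.sepd j ω c e) ∧ (j < e → c = e) := by
      intro e
      by_cases he : e ≤ j
      · by_contra hcon
        apply hA
        refine ⟨e, he, fun c hc => ?_⟩
        by_contra hn
        exact hcon ⟨c, fun _ => ⟨hc, hn⟩, fun e1 => absurd he (not_le.2 e1)⟩
      · exact ⟨e, fun e1 => absurd e1 he, fun _ => rfl⟩
    choose g hg1 hg2 using hB
    have hsep : ∀ c e, c ≤ j → e ≤ j → c ≠ g e → l.1.sepd j ω c e := by
      intro c e e1 e2 e3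
      rcases sepd_or j f l.1 hv ω c (g e) e e3 e1 (hg1 e e2).1 e2 with e4 | e4
      · exact e4
      · exact absurd e4 (hg1 e e2).2
    have hninj : ¬ Function.Injective g := by
      intro hinj
      have hbij : Function.Bijective g := Finite.injective_iff_bijective.1 hinj
      refine hbad (Equiv.ofBijective g hbij) ?_ ?_
      · exact Finset.mem_filter.2 ⟨Finset.mem_univ _, fun c hc => hg2 c hc⟩
      · refine Finset.mem_filter.2 ⟨hcols, fun c e e1 e2 => ⟨fun e3 e4 => ?_, fun e3 => ?_⟩⟩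
        · apply (hg1 e e2).2
          have e5 : c = g e := e4
          rw [← e5]
          exact e3
        · exact hsep c e e1 e2 e3
    obtain ⟨e, e', hgg, hee⟩ := Function.not_injective_iff.1 hninj
    have hle : e ≤ j ∧ e' ≤ j := by
      by_cases he : e ≤ j <;> by_cases he' : e' ≤ j
      · exact ⟨he, he'⟩
      · exfalso
        have e1 := (hg1 e he).1
        rw [hgg, hg2 e' (not_le.1 he')] at e1
        exact he' e1
      · exfalso
        have e1 := (hg1 e' he').1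
        rw [← hgg, hg2 e (not_le.1 he)] at e1
        exact he e1
      · exfalso
        rw [hg2 e (not_le.1 he), hg2 e' (not_le.1 he')] at hgg
        exact hee hgg
    refine dkL1f_frame2 j A _ l.1.a ha (g e) (hg1 e hle.1).1 (l.1.b, e) (l.1.b, e')
      (dkL1f_mem_rows hb' hle.1) (dkL1f_mem_rows hb' hle.2)
      (fun e1 => hee (congrArg Prod.snd e1))
      (sp_intra hs h' hl' 1 _ hb' e e' hee hle.1 hle.2)
      (fun c c' e1 e2 e3 => sp_intra hs h' hl' 1 _ ha c c' e1 e2 e3) ?_ ?_ x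
    · intro c _ _
      exact ⟨fun e1 => hv.1 (congrArg Prod.fst e1), fun e1 => hv.1 (congrArg Prod.fst e1)⟩
    · intro c e1 e2
      exact ⟨sp_sepd h' (l.1, ω) hmem c e (hsep c e e1 hle.1 e2) _,
        sp_sepd h' (l.1, ω) hmem c e' (hsep c e' e1 hle.2 (hgg ▸ e2)) _⟩

theorem van_digon {j : Fin k} {A : Finset M} {f : M → Sk k n} (hs : SysOK j A f)
    {Λ : List (LL k n M)} (h : Adm j A f (Λ.map Prod.fst))
    (hl : ∀ m, load (Λ.map Prod.fst) m ≤ 7) {a b : M} {π : Perm (Fin k)} (hπ : π ∈ GamJ j)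
    (hne : π ≠ 1) (h1 : Lab j Λ a b 1) (h2 : Lab j Λ a b π) (x : Arr k n (M × Fin k)) :
    EE j A f Λ x ∈ Err n j := by
  unfold EE
  rw [← mul_one (aS A f)]
  refine van _ _ Λ _ x (fun Λ' hsel => ?_)
  have h' : Adm j A f (Λ'.map Prod.fst) := by rw [hsel.map_fst]; exact h
  have hl' : ∀ m, load (Λ'.map Prod.fst) m ≤ 7 := by rw [hsel.map_fst]; exact hl
  obtain ⟨hab, ha, hb⟩ := h1.mem h
  obtain ⟨e, he, hπe⟩ := GamJ_exists_ne hπ (one_mem_GamJ j) hne
  refine dkL1f_frame1 j A _ a b ha hb hab e he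
    (fun c c' e1 e2 e3 => sp_intra hs h' hl' 1 _ ha c c' e1 e2 e3) (fun c e1 => ?_) x
  by_cases hce : c = e
  · refine sp_lab h hsel h2 c e e1 he ?_ _
    rw [hce]
    exact fun e2 => hπe e2.symm
  · exact sp_lab h hsel h1 c e e1 he hce _

theorem van_tri {j : Fin k} {A : Finset M} {f : M → Sk k n} (hs : SysOK j A f)
    {Λ : List (LL k n M)} (h : Adm j A f (Λ.map Prod.fst))
    (hl : ∀ m, load (Λ.map Prod.fst) m ≤ 7) {a b d : M} {π : Perm (Fin k)} (hπ : π ∈ GamJ j)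
    (hne : π ≠ 1) (h1 : Lab j Λ a b 1) (h2 : Lab j Λ b d 1) (h3 : Lab j Λ a d π)
    (x : Arr k n (M × Fin k)) : EE j A f Λ x ∈ Err n j := by
  unfold EE
  rw [← mul_one (aS A f)]
  refine van _ _ Λ _ x (fun Λ' hsel => ?_)
  have h' : Adm j A f (Λ'.map Prod.fst) := by rw [hsel.map_fst]; exact h
  have hl' : ∀ m, load (Λ'.map Prod.fst) m ≤ 7 := by rw [hsel.map_fst]; exact hl
  obtain ⟨hab, ha, hb⟩ := h1.mem h
  obtain ⟨hbd, _, hd⟩ := h2.mem h
  obtain ⟨had, _, _⟩ := h3.mem h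
  obtain ⟨e, he, hπe⟩ := GamJ_exists_ne hπ (one_mem_GamJ j) hne
  refine dkL1f_frame2 j A _ b hb e he (a, e) (d, e) (dkL1f_mem_rows ha he)
    (dkL1f_mem_rows hd he) (fun e1 => had (congrArg Prod.fst e1))
    (sp_lab h hsel h3 e e he he (fun e2 => hπe e2.symm) _)
    (fun c c' e1 e2 e3 => sp_intra hs h' hl' 1 _ hb c c' e1 e2 e3) ?_ ?_ x
  · intro c _ _
    exact ⟨fun e1 => hab (congrArg Prod.fst e1).symm, fun e1 => hbd (congrArg Prod.fst e1)⟩
  · intro c e1 e2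
    exact ⟨(sp_lab h hsel h1 e c he e1 (fun e3 => e2 e3.symm) _).symm,
      sp_lab h hsel h2 c e e1 he e2 _⟩

theorem van_r1 {j : Fin k} {A : Finset M} {f : M → Sk k n} (hs : SysOK j A f)
    {Λ : List (LL k n M)} (h : Adm j A f (Λ.map Prod.fst))
    (hl : ∀ m, load (Λ.map Prod.fst) m ≤ 7) {a b : M} (h1 : Lab j Λ a b 1) (c : Fin k)
    (hc : c ≤ j) (Y : Finset (Fin n)) (hY : nuC k j ≤ Y.card)
    (hd : Disjoint Y (blk (Λ.map Prod.fst) a ∪ blk (Λ.map Prod.fst) b))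
    (hfree : ∀ z ∈ Y, (f a).sep z c = c ∧ (f b).sep z c = c) (T : GA n (M × Fin k))
    (hT : ∀ z ∈ Y, Anti T z (a, c) (b, c)) (x : Arr k n (M × Fin k)) :
    app (mono (rows j A)) x (LP Λ * aS A f * T) ∈ Err n j := by
  rw [mul_assoc]
  refine van _ _ Λ _ x (fun Λ' hsel => ?_)
  have h' : Adm j A f (Λ'.map Prod.fst) := by rw [hsel.map_fst]; exact h
  have hl' : ∀ m, load (Λ'.map Prod.fst) m ≤ 7 := by rw [hsel.map_fst]; exact hl
  obtain ⟨hab, ha, hb⟩ := h1.mem h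
  refine dkL1f_frame1 j A _ a b ha hb hab c hc
    (fun c₁ c₂ e1 e2 e3 => sp_intra hs h' hl' T _ ha c₁ c₂ e1 e2 e3) (fun c₁ e1 => ?_) x
  by_cases hce : c₁ = c
  · rw [hce]
    refine ⟨Y, hY, fun z hz => ?_⟩
    have hz' := Finset.disjoint_left.1 hd hz
    rw [Finset.mem_union, not_or, ← hsel.map_fst] at hz'
    refine ((hT z hz).mul_left_SA _ _ (aS_mem_SA A f) ?_ ?_).mul_left_SA _ _ (TP_mem_SA Λ')
      hz'.1 hz'.2
    · exact fun e2 => e2.2 (hfree z hz).1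
    · exact fun e2 => e2.2 (hfree z hz).2
  · exact sp_lab h hsel h1 c₁ c e1 hc hce _

end Pool.Agent.Lib.MP_595dc0_ag.Dk
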