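import Mathlib
import Pool.Agent.Lib.MP_595dc0_ag.DkL1c
import Pool.Agent.Lib.MP_595dc0_ag.DkL1e

set_option autoImplicit false

namespace Pool.Agent.Lib.MP_595dc0_ag.Dk

open Equiv Finset MvPolynomial

variable {k n : ℕ} {M : Type} [DecidableEq M]

theorem exists_link (j : Fin k) (f : M → Sk k n) (a b : M) (hab : a ≠ b) (ha : (f a).Valid)
    (hc : (f a).cls = j) (F : Finset (Fin n))
    (hF : (F.filter (fun z => (f a).sep z ≠ 1)).card ≤ 20 * LB k j) :
    ∃ l : Link k n M, l.a = a ∧ l.b = b ∧ l.Valid j f ∧ Disjoint l.cols F := by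
  classical
  set S : Fin k × Fin k → Finset (Fin n) := fun p =>
    (univ.filter fun z => (f a).sep z = swap p.1 p.2) \ F with hS
  have hZ : ∀ p : Fin k × Fin k, ∃ Z : Fin k → Finset (Fin n), p.1 < p.2 → p.2 ≤ j →
      (∀ e, Z e ⊆ S p ∧ (Z e).card = 2 * nuC k j) ∧ ∀ e e', e ≠ e' → Disjoint (Z e) (Z e') := by
    intro p
    by_cases hp : p.1 < p.2 ∧ p.2 ≤ j
    swap
    · exact ⟨fun _ => ∅, fun h1 h2 => absurd ⟨h1, h2⟩ hp⟩
    have h1 := ha.2 p.1 p.2 hp.1.ne (by rw [hc]; exact hp.1.le.trans hp.2) (by rw [hc]; exact hp.2)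
    rw [hc] at h1
    have h2 : (univ.filter fun z => (f a).sep z = swap p.1 p.2) ⊆
        S p ∪ F.filter (fun z => (f a).sep z ≠ 1) := by
      intro z hz
      by_cases hzF : z ∈ F
      · refine mem_union_right _ (mem_filter.mpr ⟨hzF, ?_⟩)
        rw [(mem_filter.mp hz).2]
        exact fun h => hp.1.ne (swap_eq_one_iff.mp h)
      · exact mem_union_left _ (mem_sdiff.mpr ⟨hz, hzF⟩)
    have h3 := (card_le_card h2).trans (card_union_le _ _)
    have h4 := room_le_muC j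
    obtain ⟨Z, hZ1, hZ2⟩ := exists_disjoint_subsets (univ : Finset (Fin k)) (fun _ => S p)
      (2 * nuC k j) fun _ _ => by
        rw [card_univ, Fintype.card_fin]
        have : k * (2 * nuC k j) = 2 * k * nuC k j := by ring
        omega
    exact ⟨Z, fun _ _ => ⟨fun e => hZ1 e (mem_univ _),
      fun e e' h => hZ2 e (mem_univ _) e' (mem_univ _) h⟩⟩
  choose Z hZ using hZ
  set T : Finset (Fin k × Fin k × Fin k) :=
    univ.filter fun t => t.1 < t.2.1 ∧ t.2.1 ≤ j ∧ t.2.2 ≤ j with hT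
  have hT' : ∀ t, t ∈ T ↔ t.1 < t.2.1 ∧ t.2.1 ≤ j ∧ t.2.2 ≤ j := fun t => by simp [hT]
  set W : Fin k × Fin k × Fin k → Finset (Fin n) := fun t => Z (t.1, t.2.1) t.2.2 with hW
  have hW1 : ∀ t ∈ T, ∀ z ∈ W t, (f a).sep z = swap t.1 t.2.1 ∧ z ∉ F := by
    intro t ht z hz
    obtain ⟨h1, h2, -⟩ := (hT' t).mp ht
    have := mem_sdiff.mp (((hZ (t.1, t.2.1) h1 h2).1 t.2.2).1 hz)
    exact ⟨(mem_filter.mp this.1).2, this.2⟩
  have hW2 : ∀ t ∈ T, (W t).card = 2 * nuC k j := by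
    intro t ht
    obtain ⟨h1, h2, -⟩ := (hT' t).mp ht
    exact ((hZ (t.1, t.2.1) h1 h2).1 t.2.2).2
  have hW3 : ∀ t ∈ T, ∀ t' ∈ T, ∀ z ∈ W t, z ∈ W t' → t = t' := by
    rintro ⟨c, c', e⟩ ht ⟨d, d', e'⟩ ht' z hz hz'
    obtain ⟨h1, h2, -⟩ := (hT' _).mp ht
    obtain ⟨h3, -, -⟩ := (hT' _).mp ht'
    have h4 : swap c c' = swap d d' := (hW1 _ ht z hz).1.symm.trans (hW1 _ ht' z hz').1
    have h5 : c' = swap d d' c := by rw [← h4, swap_apply_left]
    simp only at h1 h2 h3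
    have h6 : c = d ∧ c' = d' := by
      rw [swap_apply_def] at h5
      split_ifs at h5 with g1 g2
      · exact ⟨g1, h5⟩
      · rw [g2, h5] at h1; exact absurd h1 h3.not_gt
      · exact absurd h5 h1.ne'
    obtain ⟨rfl, rfl⟩ := h6
    by_contra hne
    exact disjoint_left.mp ((hZ (c, c') h1 h2).2 e e' fun h => hne (by rw [h])) hz hz'
  set ζ : Fin n → Option (Fin k × Fin k × Fin k) := fun z =>
    if h : ∃ t ∈ T, z ∈ W t then some h.choose else none with hζ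
  have hζ1 : ∀ z t, ζ z = some t ↔ t ∈ T ∧ z ∈ W t := by
    intro z t
    by_cases h : ∃ t ∈ T, z ∈ W t
    · simp only [hζ, dif_pos h, Option.some.injEq]
      exact ⟨fun e => e ▸ h.choose_spec,
        fun h' => hW3 _ h.choose_spec.1 _ h'.1 z h.choose_spec.2 h'.2⟩
    · simp only [hζ, dif_neg h, reduceCtorEq, false_iff]
      exact fun h' => h ⟨t, h'⟩
  have hcols : (⟨a, b, ζ⟩ : Link k n M).cols ⊆ T.biUnion W := by
    intro z hz
    obtain ⟨t, ht⟩ := Option.ne_none_iff_exists'.mp (mem_filter.mp hz).2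
    exact mem_biUnion.mpr ⟨t, (hζ1 z t).mp ht⟩
  refine ⟨⟨a, b, ζ⟩, rfl, rfl, ⟨hab, fun z c c' e h => ?_, fun c c' e h0 h1 h2 h3 => ?_, ?_⟩, ?_⟩
  · obtain ⟨h1, h2⟩ := (hζ1 z _).mp h
    obtain ⟨h3, h4, h5⟩ := (hT' _).mp h1
    exact ⟨h3.ne, h3.le.trans h4, h4, h5, (hW1 _ h1 z h2).1⟩
  · rcases lt_or_gt_of_ne h0 with h | h
    · have ht : (c, c', e) ∈ T := (hT' _).mpr ⟨h, h2, h3⟩
      rw [← hW2 _ ht]
      exact card_le_card fun z hz =>
        mem_filter.mpr ⟨mem_univ _, Or.inl ((hζ1 z _).mpr ⟨ht, hz⟩)⟩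
    · have ht : (c', c, e) ∈ T := (hT' _).mpr ⟨h, h1, h3⟩
      rw [← hW2 _ ht]
      exact card_le_card fun z hz =>
        mem_filter.mpr ⟨mem_univ _, Or.inr ((hζ1 z _).mpr ⟨ht, hz⟩)⟩
  · refine (card_le_card hcols).trans ((card_biUnion_le_card_mul _ _ _
      fun t ht => (hW2 t ht).le).trans ?_)
    have h1 : T.card ≤ k ^ 3 := (card_le_univ T).trans (le_of_eq (by simp; ring))
    unfold LB
    calc T.card * (2 * nuC k j) ≤ k ^ 3 * (2 * nuC k j) := Nat.mul_le_mul_right _ h1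
      _ = _ := by ring
  · refine disjoint_left.mpr fun z hz => ?_
    obtain ⟨t, ht, hz'⟩ := mem_biUnion.mp (hcols hz)
    exact (hW1 t ht z hz').2

theorem dkl1g_aux (j : Fin k) (f : M → Sk k n) (F : M → Finset (Fin n)) (A : Finset M) :
    SysOK j A f → (∀ a ∈ A, ∀ b ∈ A, a ≠ b →
      ((F a ∪ F b).filter (fun z => (f a).sep z ≠ 1)).card ≤ 16 * LB k j ∨
      ((F a ∪ F b).filter (fun z => (f b).sep z ≠ 1)).card ≤ 16 * LB k j) →
    ∃ Λ, GoodL j A f 2 Λ ∧ (∀ l ∈ Λ, Disjoint l.cols (F l.a ∪ F l.b)) ∧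
      (A.Nonempty → ∃ a ∈ A, load Λ a ≤ 1) := by
  induction A using Finset.induction_on with
  | empty =>
    intro _ _
    exact ⟨[], ⟨⟨by simp, by simp⟩, by simp [Conn], by simp [load]⟩, by simp, by simp⟩
  | insert b A hb ih =>
    intro hs hF
    rcases A.eq_empty_or_nonempty with rfl | hA
    · refine ⟨[], ⟨⟨by simp, by simp⟩, ?_, by simp [load]⟩, by simp,
        fun _ => ⟨b, by simp, by simp [load]⟩⟩
      intro u hu v hv
      rw [insert_empty_eq, mem_singleton] at hu hv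
      rw [hu, hv]
    obtain ⟨Λ, ⟨h1, h2, h3⟩, h4, h5⟩ := ih (fun m hm => hs m (mem_insert_of_mem hm))
      fun u hu v hv => hF u (mem_insert_of_mem hu) v (mem_insert_of_mem hv)
    obtain ⟨a, ha, hla⟩ := h5 hA
    have hab : a ≠ b := fun h => hb (h ▸ ha)
    have hlb : load Λ b = 0 := by
      refine List.countP_eq_zero.mpr fun l hl => ?_
      simp only [decide_eq_true_eq]
      rintro (h | h)
      · exact hb (h ▸ (h1.1 l hl).2.1)
      · exact hb (h ▸ (h1.1 l hl).2.2)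
    have hca := (card_blk_le h1 a).trans (Nat.mul_le_mul_right _ hla)
    have hcb := card_blk_le h1 b
    rw [hlb] at hcb
    have hcard : ∀ m, ((F a ∪ F b).filter (fun z => (f m).sep z ≠ 1)).card ≤ 16 * LB k j →
        (((F a ∪ F b) ∪ (blk Λ a ∪ blk Λ b)).filter (fun z => (f m).sep z ≠ 1)).card ≤
          20 * LB k j := by
      intro m hm
      rw [filter_union]
      have g1 := card_union_le (blk Λ a) (blk Λ b)
      have g2 := card_filter_le (blk Λ a ∪ blk Λ b) (fun z => (f m).sep z ≠ 1)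
      refine (card_union_le _ _).trans ?_
      omega
    have ha' : a ∈ insert b A := mem_insert_of_mem ha
    have hb' : b ∈ insert b A := mem_insert_self _ _
    obtain ⟨l, hl, hv, hd⟩ : ∃ l : Link k n M, ((l.a = a ∧ l.b = b) ∨ (l.a = b ∧ l.b = a)) ∧
        l.Valid j f ∧ Disjoint l.cols ((F a ∪ F b) ∪ (blk Λ a ∪ blk Λ b)) := by
      rcases hF a ha' b hb' hab with h | h
      · obtain ⟨l, g1, g2, g3, g4⟩ := exists_link j f a b hab (hs a ha').1 (hs a ha').2 _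
          (hcard a h)
        exact ⟨l, Or.inl ⟨g1, g2⟩, g3, g4⟩
      · obtain ⟨l, g1, g2, g3, g4⟩ := exists_link j f b a hab.symm (hs b hb').1 (hs b hb').2 _
          (hcard b h)
        exact ⟨l, Or.inr ⟨g1, g2⟩, g3, g4⟩
    obtain ⟨hd1, hd2⟩ := disjoint_union_right.mp hd
    have h1' : Adm j (insert b A) f Λ := ⟨fun l hl => ⟨(h1.1 l hl).1,
      mem_insert_of_mem (h1.1 l hl).2.1, mem_insert_of_mem (h1.1 l hl).2.2⟩, h1.2⟩
    have htouch : ∀ m, l.touch m → m = a ∨ m = b := by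
      intro m hm
      rcases hl with ⟨g1, g2⟩ | ⟨g1, g2⟩ <;> rcases hm with h | h <;> simp [h, g1, g2]
    have hlb' : load (l :: Λ) b ≤ 1 := by simpa [hlb] using load_cons_le Λ l b
    refine ⟨l :: Λ, ⟨?_, ?_, fun m => ?_⟩, ?_, fun _ => ⟨b, hb', hlb'⟩⟩
    · rcases hl with ⟨g1, g2⟩ | ⟨g1, g2⟩
      · exact h1'.cons l hv (g1 ▸ ha') (g2 ▸ hb') (by rw [g1, g2]; exact hd2)
      · exact h1'.cons l hv (g1 ▸ hb') (g2 ▸ ha') (by rw [g1, g2, union_comm]; exact hd2)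
    · have g0 : ∀ u ∈ A, ∀ v ∈ A, Relation.ReflTransGen
          (fun u v => ∃ l' ∈ l :: Λ, (l'.a = u ∧ l'.b = v) ∨ (l'.a = v ∧ l'.b = u)) u v :=
        fun u hu v hv => Relation.ReflTransGen.mono (fun _ _ ⟨l', g1, g2⟩ =>
          ⟨l', List.mem_cons_of_mem _ g1, g2⟩) _ _ (h2 u hu v hv)
      intro u hu v hv
      rcases mem_insert.mp hu with eu | hu' <;> rcases mem_insert.mp hv with ev | hv'
      · rw [eu, ev]
      · rw [eu]; exact .head ⟨l, List.mem_cons_self, hl.symm⟩ (g0 a ha v hv')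
      · rw [ev]; exact .tail (g0 u hu' a ha) ⟨l, List.mem_cons_self, hl⟩
      · exact g0 u hu' v hv'
    · by_cases hm : l.touch m
      · rcases htouch m hm with rfl | rfl
        · exact (load_cons_le Λ l m).trans (by omega)
        · omega
      · rw [load_cons_of_not Λ l m hm]; exact h3 m
    · intro l' hl'
      rcases List.mem_cons.mp hl' with rfl | hl'
      · rcases hl with ⟨g1, g2⟩ | ⟨g1, g2⟩
        · rw [g1, g2]; exact hd1
        · rw [g1, g2, union_comm]; exact hd1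
      · exact h4 l' hl'

theorem exists_good (j : Fin k) (A : Finset M) (f : M → Sk k n) (hs : SysOK j A f)
    (F : M → Finset (Fin n))
    (hF : ∀ a ∈ A, ∀ b ∈ A, a ≠ b →
      ((F a ∪ F b).filter (fun z => (f a).sep z ≠ 1)).card ≤ 16 * LB k j ∨
      ((F a ∪ F b).filter (fun z => (f b).sep z ≠ 1)).card ≤ 16 * LB k j) :
    ∃ Λ, GoodL j A f 2 Λ ∧ ∀ l ∈ Λ, Disjoint l.cols (F l.a ∪ F l.b) := by
  obtain ⟨Λ, h1, h2, -⟩ := dkl1g_aux j f F A hs hF
  exact ⟨Λ, h1, h2⟩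

theorem exists_good' (j : Fin k) (A : Finset M) (f : M → Sk k n) (hs : SysOK j A f)
    (F : Finset (Fin n)) (hF : F.card ≤ 16 * LB k j) :
    ∃ Λ, GoodL j A f 2 Λ ∧ ∀ l ∈ Λ, Disjoint l.cols F := by
  obtain ⟨Λ, h1, h2⟩ := exists_good j A f hs (fun _ => F) fun a _ b _ _ =>
    Or.inl ((card_filter_le _ _).trans (by rwa [union_self]))
  exact ⟨Λ, h1, fun l hl => by simpa only [union_self] using h2 l hl⟩

end Pool.Agent.Lib.MP_595dc0_ag.Dk
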