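import Mathlib
import Pool.Agent.Lib.MP_595dc0_ag.DkL1f
import Pool.Agent.Lib.MP_595dc0_ag.DkL1g

set_option autoImplicit false

namespace Pool.Agent.Lib.MP_595dc0_ag.Dk

open Equiv Finset MvPolynomial

variable {k n : ℕ} {M : Type} [DecidableEq M]

omit [DecidableEq M] in
theorem L1hAux.lab_cons {j : Fin k} {Λ : List (LL k n M)} (l : LL k n M) {a b : M}
    {π : Perm (Fin k)} (h : Lab j Λ a b π) : Lab j (l :: Λ) a b π :=
  h.imp fun _ h => ⟨List.mem_cons_of_mem _ h.1, h.2⟩

theorem L1hAux.path_nat {α : Type} (r : α → α → Prop) (a b : α)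
    (h : Relation.ReflTransGen r a b) :
    ∃ (t : ℕ) (p : ℕ → α), (∀ i ≤ t, ∀ i' ≤ t, p i = p i' → i = i') ∧ p 0 = a ∧ p t = b ∧
      ∀ i < t, r (p i) (p (i + 1)) := by
  classical
  induction h with
  | refl => exact ⟨0, fun _ => a, fun i hi i' hi' _ => by omega, rfl, rfl, fun i hi => by omega⟩
  | @tail b c _ hbc ih =>
    obtain ⟨t, p, h1, h2, h3, h4⟩ := ih
    by_cases hc : ∃ i ≤ t, p i = c
    · obtain ⟨i, hi, e⟩ := hc
      exact ⟨i, p, fun u hu u' hu' => h1 u (hu.trans hi) u' (hu'.trans hi), h2, e,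
        fun u hu => h4 u (hu.trans_le hi)⟩
    · have e : ∀ i ≤ t, Function.update p (t + 1) c i = p i := fun i hi =>
        Function.update_of_ne (by omega) _ _
      refine ⟨t + 1, Function.update p (t + 1) c, fun u hu u' hu' huu => ?_,
        (e 0 (Nat.zero_le _)).trans h2, Function.update_self .., fun u hu => ?_⟩
      · rcases Nat.le_succ_iff.1 hu with hu | rfl <;> rcases Nat.le_succ_iff.1 hu' with hu' | rfl
        · exact h1 u hu u' hu' (by rwa [e u hu, e u' hu'] at huu)
        · rw [e u hu, Function.update_self] at huu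
          exact absurd ⟨u, hu, huu⟩ hc
        · rw [e u' hu', Function.update_self] at huu
          exact absurd ⟨u', hu', huu.symm⟩ hc
        · rfl
      · rw [e u (Nat.lt_succ_iff.1 hu)]
        rcases Nat.lt_succ_iff_lt_or_eq.1 hu with hu | rfl
        · rw [e (u + 1) hu]
          exact h4 u hu
        · rw [Function.update_self, h3]
          exact hbc

theorem add_link {j : Fin k} {A : Finset M} {f : M → Sk k n} (hs : SysOK j A f)
    (Λ : List (LL k n M)) (l : Link k n M) (h : Adm j A f (l :: Λ.map Prod.fst))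
    (hl : ∀ m, load (l :: Λ.map Prod.fst) m ≤ 7) (x : Arr k n (M × Fin k)) :
    EE j A f Λ x - ∑ π ∈ GamJ j, EE j A f ((l, l.Om j π) :: Λ) x ∈ Err n j := by
  have key : ∀ Ω, LP Λ * Lop (l, Ω) = LP ((l, Ω) :: Λ) := fun Ω => by
    rw [LP_perm (Λ := (l, Ω) :: Λ) h (List.perm_append_singleton _ _).symm]
    simp [LP]
  have hv := h.1 l List.mem_cons_self
  have e : EE j A f Λ x - ∑ π ∈ GamJ j, EE j A f ((l, l.Om j π) :: Λ) x =
      EE j A f ((l, l.OmBad j) :: Λ) x := by
    rw [sub_eq_iff_eq_add']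
    unfold EE
    conv_lhs => rw [← sum_term_mul_aS j A f l hv.1 hv.2.1, sum_term_split j, ← mul_assoc, mul_add,
      Finset.mul_sum, add_mul, Finset.sum_mul, map_add, map_sum]
    simp only [key]
  rw [e]
  exact van_bad hs (Λ := (l, l.OmBad j) :: Λ) h hl _ List.mem_cons_self subset_rfl x

/-- An inconsistent cycle of links gives a frame. -/
theorem van_cycle {j : Fin k} {A : Finset M} {f : M → Sk k n} (hs : SysOK j A f)
    (x : Arr k n (M × Fin k)) (r : ℕ) (Λ : List (LL k n M)) (h : Adm j A f (Λ.map Prod.fst))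
    (hl : ∀ m, load (Λ.map Prod.fst) m ≤ 7) (p : Fin (r + 2) → M) (hp : Function.Injective p)
    (hch : ∀ i : Fin (r + 1), Lab j Λ (p i.castSucc) (p i.succ) 1)
    (h0 : load (Λ.map Prod.fst) (p 0) ≤ 6)
    (hi : ∀ i, i ≠ 0 → i ≠ Fin.last (r + 1) → load (Λ.map Prod.fst) (p i) ≤ 5)
    (π : Perm (Fin k)) (hπ : π ∈ GamJ j) (hne : π ≠ 1)
    (hL : Lab j Λ (p 0) (p (Fin.last (r + 1))) π) : EE j A f Λ x ∈ Err n j := by
  induction r generalizing Λ π with
  | zero => exact van_digon hs h hl hπ hne (hch 0) hL x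
  | succ r ih =>
    have hq0 : (Fin.last (r + 1)).castSucc ≠ 0 := by simp [Fin.ext_iff]
    have hql : (Fin.last (r + 1)).castSucc ≠ Fin.last (r + 1 + 1) := (Fin.castSucc_lt_last _).ne
    have ha : p 0 ∈ A := (Lab.mem h hL).2.1
    have hb : p (Fin.last (r + 1)).castSucc ∈ A := (Lab.mem h (hch (Fin.last (r + 1)))).2.1
    obtain ⟨l, la, lb, lv, ld⟩ := exists_link j f (p 0) (p (Fin.last (r + 1)).castSucc)
      (fun e => hq0 (hp e).symm) (hs _ ha).1 (hs _ ha).2
      (blk (Λ.map Prod.fst) (p 0) ∪ blk (Λ.map Prod.fst) (p (Fin.last (r + 1)).castSucc)) (by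
        refine (card_filter_le _ _).trans ((card_union_le _ _).trans ?_)
        have e1 := (card_blk_le h (p 0)).trans (Nat.mul_le_mul_right _ (hl _))
        have e2 := (card_blk_le h (p (Fin.last (r + 1)).castSucc)).trans
          (Nat.mul_le_mul_right _ (hl _))
        omega)
    have h' : Adm j A f (l :: Λ.map Prod.fst) :=
      h.cons l lv (la ▸ ha) (lb ▸ hb) (by rw [la, lb]; exact ld)
    have hq6 : load (l :: Λ.map Prod.fst) (p (Fin.last (r + 1)).castSucc) ≤ 6 :=
      (load_cons_le _ _ _).trans (Nat.succ_le_succ (hi _ hq0 hql))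
    have hl' : ∀ m, load (l :: Λ.map Prod.fst) m ≤ 7 := fun m => by
      by_cases ht : l.touch m
      · rcases ht with rfl | rfl
        · exact (load_cons_le _ _ _).trans (Nat.succ_le_succ (la ▸ h0))
        · rw [lb]
          exact hq6.trans (by norm_num)
      · rw [load_cons_of_not _ _ _ ht]
        exact hl m
    have e := add_link hs Λ l h' hl' x
    refine (Submodule.sub_mem_iff_left _ (Submodule.sum_mem _ fun π' hπ' => ?_)).1 e
    have hnew : Lab j ((l, l.Om j π') :: Λ) (p 0) (p (Fin.last (r + 1)).castSucc) π' :=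
      ⟨_, List.mem_cons_self, Or.inl ⟨la, lb, subset_rfl⟩⟩
    by_cases h1 : π' = 1
    · subst h1
      exact van_tri hs (Λ := (l, l.Om j 1) :: Λ) h' hl' hπ hne hnew
        (L1hAux.lab_cons _ (hch (Fin.last (r + 1)))) (L1hAux.lab_cons _ hL) x
    · refine ih ((l, l.Om j π') :: Λ) h' hl' (fun i => p (Fin.rev i).castSucc)
        (hp.comp ((Fin.castSucc_injective _).comp Fin.rev_injective)) (fun i => ?_) ?_
        (fun i i0 il => ?_) π'⁻¹ (inv_mem_GamJ hπ') (fun e => h1 (inv_eq_one.1 e)) ?_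
      · have := (L1hAux.lab_cons (l, l.Om j π') (hch (Fin.rev i).castSucc)).symm
        rw [inv_one] at this
        simpa only [Fin.rev_castSucc, Fin.rev_succ, Fin.succ_castSucc] using this
      · simpa only [Fin.rev_zero, List.map_cons] using hq6
      · have j0 : (Fin.rev i).castSucc ≠ 0 := fun e =>
          il (Fin.rev_injective (by rw [Fin.rev_last]; exact Fin.castSucc_injective _ e))
        have ht : ¬ l.touch (p (Fin.rev i).castSucc) := by
          rintro (e | e)
          · exact j0 (hp (e.trans la))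
          · exact i0 (Fin.rev_injective (by
              rw [Fin.rev_zero]; exact Fin.castSucc_injective _ (hp (e.trans lb))))
        change load (l :: Λ.map Prod.fst) _ ≤ 5
        rw [load_cons_of_not _ _ _ ht]
        exact hi _ j0 (Fin.castSucc_lt_last _).ne
      · simpa only [Fin.rev_zero, Fin.rev_last, Fin.castSucc_zero] using hnew.symm

theorem exists_path {α : Type} (r : α → α → Prop) (a b : α) (hab : a ≠ b)
    (h : Relation.ReflTransGen r a b) :
    ∃ (t : ℕ) (p : Fin (t + 2) → α), Function.Injective p ∧ p 0 = a ∧ p (Fin.last (t + 1)) = b ∧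
      ∀ i : Fin (t + 1), r (p i.castSucc) (p i.succ) := by
  obtain ⟨t, p, h1, h2, h3, h4⟩ := L1hAux.path_nat r a b h
  rcases t with _ | t
  · exact absurd (h2.symm.trans h3) hab
  · refine ⟨t, fun i => p i, fun i i' e => Fin.ext (h1 _ ?_ _ ?_ e), h2, h3, fun i => h4 i i.2⟩
    · exact Nat.lt_succ_iff.1 i.2
    · exact Nat.lt_succ_iff.1 i'.2

theorem add_links {j : Fin k} {A : Finset M} {f : M → Sk k n} (hs : SysOK j A f)
    (Λ Λ' : List (Link k n M)) (hc : Conn A Λ) (h : Adm j A f (Λ' ++ Λ))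
    (hl : ∀ m, load (Λ' ++ Λ) m ≤ 5) (x : Arr k n (M × Fin k)) :
    EE j A f (idL j Λ) x - EE j A f (idL j (Λ' ++ Λ)) x ∈ Err n j := by
  induction Λ' with
  | nil => simp
  | cons l Λ' ih =>
    have hL : ∀ m, load (Λ' ++ Λ) m ≤ 5 := fun m =>
      le_trans (Nat.le_add_left _ _) ((load_append [l] (Λ' ++ Λ) m).symm.le.trans (hl m))
    have e1 := ih (h.sublist (List.sublist_cons_self _ _)) hL
    have h' : Adm j A f (l :: (idL j (Λ' ++ Λ)).map Prod.fst) := by
      rw [map_fst_idL]; exact h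
    have hl' : ∀ m, load (l :: (idL j (Λ' ++ Λ)).map Prod.fst) m ≤ 5 := by
      rw [map_fst_idL]; exact hl
    have e2 := add_link hs (idL j (Λ' ++ Λ)) l h' (fun m => (hl' m).trans (by norm_num)) x
    rw [← add_sum_erase _ _ (one_mem_GamJ j)] at e2
    have hv := h.1 l List.mem_cons_self
    obtain ⟨t, p, p1, p2, p3, p4⟩ := exists_path _ _ _ hv.1.1 (hc _ hv.2.1 _ hv.2.2)
    have e3 : ∑ π ∈ (GamJ j).erase 1, EE j A f ((l, l.Om j π) :: idL j (Λ' ++ Λ)) x ∈
        Err n j := by
      refine Submodule.sum_mem _ fun π hπ => van_cycle hs x t _ h'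
        (fun m => (hl' m).trans (by norm_num)) p p1 (fun i => ?_) ((hl' _).trans (by norm_num))
        (fun i _ _ => hl' _) π (mem_of_mem_erase hπ) (ne_of_mem_erase hπ)
        ⟨_, List.mem_cons_self, Or.inl ⟨p2.symm, p3.symm, subset_rfl⟩⟩
      obtain ⟨l', m1, m2⟩ := p4 i
      refine L1hAux.lab_cons _ ⟨(l', l'.Om j 1),
        List.mem_map.2 ⟨l', List.mem_append_right _ m1, rfl⟩, ?_⟩
      rw [inv_one]
      exact m2.imp (fun e => ⟨e.1, e.2, subset_rfl⟩) fun e => ⟨e.1, e.2, subset_rfl⟩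
    have e4 := add_mem (add_mem e1 e2) e3
    convert e4 using 1
    change _ - EE j A f ((l, l.Om j 1) :: idL j (Λ' ++ Λ)) x = _
    ring

/-- Independence of the link system. -/
theorem EE_ind {j : Fin k} {A : Finset M} {f : M → Sk k n} (hs : SysOK j A f)
    (Λ Λ' : List (Link k n M)) (h : GoodL j A f 3 Λ) (h' : GoodL j A f 3 Λ')
    (x : Arr k n (M × Fin k)) :
    EE j A f (idL j Λ) x - EE j A f (idL j Λ') x ∈ Err n j := by
  obtain ⟨Λ₀, g0, hd⟩ := exists_good j A f hs (fun m => blk Λ m ∪ blk Λ' m) fun a _ b _ _ => by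
    refine Or.inl ((card_filter_le _ _).trans ((card_union_le _ _).trans
      ((add_le_add (card_union_le _ _) (card_union_le _ _)).trans ?_)))
    have e1 := (card_blk_le h.1 a).trans (Nat.mul_le_mul_right _ (h.2.2 _))
    have e2 := (card_blk_le h.1 b).trans (Nat.mul_le_mul_right _ (h.2.2 _))
    have e3 := (card_blk_le h'.1 a).trans (Nat.mul_le_mul_right _ (h'.2.2 _))
    have e4 := (card_blk_le h'.1 b).trans (Nat.mul_le_mul_right _ (h'.2.2 _))
    omega
  have key : ∀ L, GoodL j A f 3 L → (∀ l ∈ Λ₀, Disjoint l.cols (blk L l.a ∪ blk L l.b)) →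
      EE j A f (idL j L) x - EE j A f (idL j Λ₀) x ∈ Err n j := fun L g hL => by
    have a1 : Adm j A f (Λ₀ ++ L) := g.1.append g0.1 hL
    have a2 : Adm j A f (L ++ Λ₀) := a1.perm List.perm_append_comm
    have e1 := add_links hs L Λ₀ g.2.1 a1 (fun m => by
      rw [load_append]; exact add_le_add (g0.2.2 m) (g.2.2 m)) x
    have e2 := add_links hs Λ₀ L g0.2.1 a2 (fun m => by
      rw [load_append]; exact add_le_add (g.2.2 m) (g0.2.2 m)) x
    have e3 : EE j A f (idL j (Λ₀ ++ L)) x = EE j A f (idL j (L ++ Λ₀)) x := by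
      unfold EE
      rw [LP_perm (Λ := idL j (Λ₀ ++ L)) (Λ' := idL j (L ++ Λ₀)) (by rw [map_fst_idL]; exact a1)
        (List.perm_append_comm.map _)]
    rw [e3] at e1
    convert sub_mem e1 e2 using 1
    ring
  have k1 := key Λ h fun l hl => (hd l hl).mono_right
    (union_subset_union subset_union_left subset_union_left)
  have k2 := key Λ' h' fun l hl => (hd l hl).mono_right
    (union_subset_union subset_union_right subset_union_right)
  convert sub_mem k1 k2 using 1
  ring

end Pool.Agent.Lib.MP_595dc0_ag.Dk
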