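import Mathlib
import Pool.Agent.Lib.MP_595dc0_ag.DkL1h
import Pool.Agent.Lib.MP_595dc0_ag.DkL1d

set_option autoImplicit false

namespace Pool.Agent.Lib.MP_595dc0_ag.Dk

open Equiv Finset MvPolynomial

variable {k n : ℕ} {M : Type}

theorem mol_arrOf (F : M → Mol k n) (m : M) : mol (fun a => (F a).1) (arrOf F) m = F m := rfl

namespace DkL1iAux

theorem exists_enum {α β : Type} (A : Finset α) (g : α → β) (L : List β)
    (hL : (L : Multiset β) = A.val.map g) :
    ∃ θ : Fin L.length ↪ α, univ.map θ = A ∧ ∀ i, g (θ i) = L.get i := by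
  classical
  have hp : L.Perm (A.toList.map g) := by
    rw [← Multiset.coe_eq_coe, hL, ← Multiset.map_coe, Finset.coe_toList]
  have h2 : (fun (a : List β) (b : List α) => a.Perm (List.map g b)) L A.toList := hp
  rw [← List.eq_map_comp_perm g] at h2
  obtain ⟨l, hl, hlp⟩ := h2
  have hnd : l.Nodup := hlp.nodup_iff.2 A.nodup_toList
  subst hl
  have hlen : (List.map g l).length = l.length := List.length_map g
  refine ⟨⟨fun i => l.get (Fin.cast hlen i), ?_⟩, ?_, ?_⟩
  · intro i i' h
    have := (List.nodup_iff_injective_get.1 hnd) h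
    exact Fin.cast_injective hlen this
  · ext a
    simp only [mem_map, mem_univ, true_and]
    rw [← Finset.mem_toList, ← hlp.mem_iff, List.mem_iff_get]
    constructor
    · rintro ⟨i, hi⟩
      exact ⟨_, hi⟩
    · rintro ⟨i, hi⟩
      exact ⟨Fin.cast hlen.symm i, hi⟩
  · intro i
    simp

theorem idL_map {M' : Type} [DecidableEq M] [DecidableEq M'] (j : Fin k) (θ : M → M')
    (π : Perm (Fin k)) (hπ : π ∈ GamJ j) (Λ : List (Link k n M)) :
    (idL j Λ).map (fun l => (l.1.map θ (fun _ => π), l.2)) =
      idL j (Λ.map (Link.map θ (fun _ => π))) := by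
  unfold idL
  rw [List.map_map, List.map_map]
  refine List.map_congr_left fun l _ => ?_
  have := Om_map j θ (fun _ => π) l hπ hπ 1
  simp only [mul_one, mul_inv_cancel] at this
  simp only [Function.comp_apply, this]

theorem good_nil [DecidableEq M] (j : Fin k) (A : Finset M) (hA : ∀ a ∈ A, ∀ b ∈ A, a = b)
    (f : M → Sk k n) (d : ℕ) : GoodL j A f d [] := by
  refine ⟨⟨fun l hl => absurd hl List.not_mem_nil, List.Pairwise.nil⟩, ?_, fun m => ?_⟩
  · intro a ha b hb
    rw [hA a ha b hb]
  · simp [load]

theorem eq_nil_of_good [DecidableEq M] {j : Fin k} {A : Finset M}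
    (hA : ∀ a ∈ A, ∀ b ∈ A, a = b) {f : M → Sk k n} {d : ℕ} {Λ : List (Link k n M)}
    (h : GoodL j A f d Λ) : Λ = [] := by
  rcases Λ with _ | ⟨l, Λ⟩
  · rfl
  · have h1 := h.1.1 l List.mem_cons_self
    exact absurd (hA _ h1.2.1 _ h1.2.2) h1.1.1

theorem evC_of_small (j : Fin k) (s : Multiset (Mol k n)) (hs : Multiset.card s ≤ 1) :
    evC j s = EE j univ (fun i => (s.toList.get i).1) [] (arrOf s.toList.get) := by
  have hA : ∀ a ∈ (univ : Finset (Fin s.toList.length)), ∀ b ∈ (univ : Finset _), a = b := by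
    intro a _ b _
    have ha := a.2
    have hb := b.2
    have hl : s.toList.length ≤ 1 := by rwa [Multiset.length_toList]
    apply Fin.ext
    omega
  have hex : ∃ Λ, GoodL j univ (fun i => (s.toList.get i).1) 2 Λ := ⟨[], good_nil j _ hA _ _⟩
  unfold evC
  rw [dif_pos hex, eq_nil_of_good hA hex.choose_spec]
  rfl

theorem map_mol_toList' (s : Multiset (Mol k n)) :
    (univ : Finset (Fin s.toList.length)).val.map s.toList.get = s := by
  rw [Fin.univ_val_map, List.ofFn_get, Multiset.coe_toList]

end DkL1iAux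

open DkL1iAux

theorem evC_spec [DecidableEq M] {j : Fin k} {A : Finset M} {f : M → Sk k n} (hs : SysOK j A f)
    (Λ : List (Link k n M)) (h : GoodL j A f 3 Λ) (x : Arr k n (M × Fin k)) :
    evC j (A.val.map (mol f x)) - EE j A f (idL j Λ) x ∈ Err n j := by
  set s := A.val.map (mol f x) with hsdef
  obtain ⟨θ, hθA, hθ⟩ := exists_enum A (mol f x) s.toList (Multiset.coe_toList s)
  have hf1 : ∀ i, f (θ i) = (s.toList.get i).1 := fun i => congrArg Prod.fst (hθ i)
  have hs0 : SysOK j univ (fun i => (s.toList.get i).1) := by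
    intro i _
    have hi : θ i ∈ A := by
      rw [← hθA]
      exact mem_map_of_mem θ (mem_univ i)
    have := hs _ hi
    rwa [hf1 i] at this
  have hex : ∃ Λ, GoodL j univ (fun i => (s.toList.get i).1) 2 Λ := by
    obtain ⟨Λ0, h0, -⟩ := exists_good' j univ _ hs0 ∅ (by simp)
    exact ⟨Λ0, h0⟩
  have hsep : ∀ m ∈ (univ : Finset (Fin s.toList.length)), ∀ z, (f (θ m)).sep z =
      (1 : Perm (Fin k)) * ((s.toList.get m).1).sep z * (1 : Perm (Fin k))⁻¹ := by
    intro m _ z
    rw [hf1 m, inv_one, one_mul, mul_one]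
  have hg := (hex.choose_spec.mono (by norm_num : 2 ≤ 3)).map θ (fun _ => 1)
    (fun _ _ => one_mem_GamJ j) f hsep
  have hE := EE_map j θ (fun _ => 1) univ (fun _ _ => one_mem_GamJ j)
    (fun i => (s.toList.get i).1) f hsep (idL j hex.choose) (arrOf s.toList.get) x (by
      intro z m c
      show x z (θ m, c) = (s.toList.get m).2 z c
      rw [← hθ m]
      rfl)
  rw [idL_map j θ 1 (one_mem_GamJ j), hθA] at hE
  rw [hθA] at hg
  unfold evC
  rw [dif_pos hex, ← hE]
  exact EE_ind hs _ _ hg h x

theorem evC_zero (j : Fin k) : evC j (0 : Multiset (Mol k n)) = 1 := by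
  rw [evC_of_small j 0 (by simp)]
  have hu : (univ : Finset (Fin (0 : Multiset (Mol k n)).toList.length)) = ∅ := by
    apply Finset.eq_empty_of_forall_notMem
    intro a _
    have ha := a.2
    simp at ha
  unfold EE
  rw [hu, aS_empty]
  simp [LP, rows, app_one, mono]

theorem evC_single (m : Mol k n) : evC m.1.cls {m} = Ev1 m := by
  rw [evC_of_small m.1.cls {m} (by simp)]
  have hlen : ({m} : Multiset (Mol k n)).toList.length = 1 := by simp
  have hget : ∀ i, ({m} : Multiset (Mol k n)).toList.get i = m := by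
    intro i
    have := List.get_mem ({m} : Multiset (Mol k n)).toList i
    rw [Multiset.mem_toList] at this
    exact Multiset.mem_singleton.1 this
  let θ : Unit ↪ Fin ({m} : Multiset (Mol k n)).toList.length :=
    ⟨fun _ => ⟨0, by omega⟩, fun _ _ _ => rfl⟩
  have hθ : univ.map θ = univ := by
    apply Finset.eq_univ_of_forall
    intro a
    refine mem_map.2 ⟨(), mem_univ _, Fin.ext ?_⟩
    have := a.2
    show 0 = a.val
    omega
  have hE := EE_map m.1.cls θ (fun _ => 1) univ (fun _ _ => one_mem_GamJ _) (fun _ => m.1)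
    (fun i => (({m} : Multiset (Mol k n)).toList.get i).1) (by
      intro a _ z
      rw [hget, inv_one, one_mul, mul_one]) [] (arrOf (fun _ => m))
    (arrOf ({m} : Multiset (Mol k n)).toList.get) (by
      intro z a c
      show (({m} : Multiset (Mol k n)).toList.get (θ a)).2 z c = m.2 z c
      rw [hget])
  rw [hθ] at hE
  exact hE

theorem evC_homog (j : Fin k) (s : Multiset (Mol k n)) :
    (evC j s).IsHomogeneous ((j.val + 1) * Multiset.card s) := by
  unfold evC
  split_ifs with h
  · have := EE_homog j univ (fun i => (s.toList.get i).1) (idL j h.choose) (arrOf s.toList.get)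
    have hc : (univ : Finset (Fin s.toList.length)).card = Multiset.card s := by
      rw [card_univ, Fintype.card_fin, Multiset.length_toList]
    rwa [hc] at this
  · exact isHomogeneous_zero _ _ _

/-- A variable is the evaluation of a molecule of the lowest class. -/
theorem exists_Ev1_X (j : Fin k) (hj : j.val = 0) (w : Fin n → Fin k) :
    ∃ m : Mol k n, m.1.Valid ∧ m.1.cls = j ∧ Ev1 m = X w := by
  refine ⟨(⟨j, fun _ => 1⟩, fun z _ => w z), ⟨fun _ => Or.inl rfl, ?_⟩, rfl, ?_⟩
  · intro c c' hc h1 h2
    exfalso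
    apply hc
    have h1' : c.val ≤ j.val := h1
    have h2' : c'.val ≤ j.val := h2
    apply Fin.ext
    omega
  · have hr : rows j (univ : Finset Unit) = {((), j)} := by
      ext ⟨u, c⟩
      simp only [rows, mem_product, mem_univ, mem_Iic, true_and, mem_singleton, Prod.mk.injEq]
      constructor
      · intro h1
        have h1' : c.val ≤ j.val := h1
        apply Fin.ext
        omega
      · intro h1
        exact h1.le
    have ha : aS (univ : Finset Unit) (fun _ => (⟨j, fun _ => 1⟩ : Sk k n)) = 1 := by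
      unfold aS
      apply cprod_one
      intro p _
      simp [aCell]
    unfold Ev1 EE
    simp only [hr, ha, LP, List.map_nil, List.prod_nil, mul_one, app_one, mono, prod_singleton]
    rfl

theorem evC_rel (j : Fin k) (s : Multiset (Mol k n)) (hs : MsOK j s) (π : Perm (Fin k))
    (hπ : π ∈ GamJ j) : evC j (s.map (relM1 π)) - evC j s ∈ Err n j := by
  have hs0 : SysOK j univ (fun i => (s.toList.get i).1) := by
    intro i _
    exact hs _ (Multiset.mem_toList.1 (List.get_mem s.toList i))
  have hs1 : SysOK j univ (fun i => (relM1 π (s.toList.get i)).1) := by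
    intro i hi
    have h0 := hs0 i hi
    refine ⟨?_, h0.2⟩
    exact (relS_valid π _ (by rw [h0.2]; exact hπ)).2 h0.1
  obtain ⟨Λ, h2, -⟩ := exists_good' j univ _ hs0 ∅ (by simp)
  have h3 := h2.mono (by norm_num : 2 ≤ 3)
  have hsep : ∀ m ∈ (univ : Finset (Fin s.toList.length)), ∀ z,
      ((relM1 π (s.toList.get ((Function.Embedding.refl _) m))).1).sep z =
        π * ((s.toList.get m).1).sep z * π⁻¹ := fun _ _ _ => rfl
  have hg := h3.map (Function.Embedding.refl _) (fun _ => π) (fun _ _ => hπ)
    (fun i => (relM1 π (s.toList.get i)).1) hsep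
  have hE := EE_map j (Function.Embedding.refl _) (fun _ => π) univ (fun _ _ => hπ)
    (fun i => (s.toList.get i).1) (fun i => (relM1 π (s.toList.get i)).1) hsep (idL j Λ)
    (arrOf s.toList.get) (arrOf (fun i => relM1 π (s.toList.get i))) (by
      intro z m c
      show (s.toList.get m).2 z (π⁻¹ (π c)) = (s.toList.get m).2 z c
      simp)
  rw [idL_map j _ π hπ, Finset.map_refl] at hE
  rw [Finset.map_refl] at hg
  have e0 := evC_spec hs0 Λ h3 (arrOf s.toList.get)
  have e1 := evC_spec hs1 _ hg (arrOf (fun i => relM1 π (s.toList.get i)))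
  have m0 : (univ : Finset (Fin s.toList.length)).val.map
      (mol (fun i => (s.toList.get i).1) (arrOf s.toList.get)) = s := map_mol_toList' s
  have m1 : (univ : Finset (Fin s.toList.length)).val.map
      (mol (fun i => (relM1 π (s.toList.get i)).1) (arrOf (fun i => relM1 π (s.toList.get i)))) =
        s.map (relM1 π) := by
    conv_rhs => rw [← map_mol_toList' s]
    rw [Multiset.map_map]
    rfl
  rw [m0] at e0
  rw [m1, hE] at e1
  have := (Err n j).sub_mem e1 e0
  rwa [sub_sub_sub_cancel_right] at this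

end Pool.Agent.Lib.MP_595dc0_ag.Dk
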