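import Mathlib
import Pool.Agent.Lib.MP_595dc0_ag.DkL1i

set_option autoImplicit false

namespace Pool.Agent.Lib.MP_595dc0_ag.Dk

open Equiv Finset MvPolynomial

variable {k n : ℕ} {M : Type}

theorem load_eq_zero_L1j [DecidableEq M] {j : Fin k} {A : Finset M} {f : M → Sk k n}
    {Λ : List (Link k n M)} (h : Adm j A f Λ) {m : M} (hm : m ∉ A) : load Λ m = 0 := by
  rw [load, List.countP_eq_zero]
  intro l hl hc
  obtain ⟨_, ha, hb⟩ := h.1 l hl
  rcases of_decide_eq_true hc with h1 | h1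
  · exact hm (h1 ▸ ha)
  · exact hm (h1 ▸ hb)

theorem adm_mono_L1j {j : Fin k} {A A' : Finset M} {f : M → Sk k n}
    {Λ : List (Link k n M)} (h : Adm j A f Λ) (hA : A ⊆ A') : Adm j A' f Λ :=
  ⟨fun l hl => ⟨(h.1 l hl).1, hA (h.1 l hl).2.1, hA (h.1 l hl).2.2⟩, h.2⟩

theorem blk_eq_empty_L1j [DecidableEq M] {j : Fin k} {A : Finset M} {f : M → Sk k n}
    {Λ : List (Link k n M)} (h : Adm j A f Λ) {m : M} (hm : m ∉ A) : blk Λ m = ∅ := by
  have h1 := card_blk_le h m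
  rw [load_eq_zero_L1j h hm, zero_mul] at h1
  exact card_eq_zero.1 (Nat.le_zero.1 h1)

theorem conn_L1j [DecidableEq M] {A₁ A₂ : Finset M} {Λ₁ Λ₂ : List (Link k n M)} (h₁ : Conn A₁ Λ₁)
    (h₂ : Conn A₂ Λ₂) (l : Link k n M) (ha : l.a ∈ A₁) (hb : l.b ∈ A₂) :
    Conn (A₁ ∪ A₂) (l :: (Λ₁ ++ Λ₂)) := by
  have e₁ : ∀ a ∈ A₁, ∀ b ∈ A₁, Relation.ReflTransGen (fun u v => ∃ l' ∈ l :: (Λ₁ ++ Λ₂),
      (l'.a = u ∧ l'.b = v) ∨ (l'.a = v ∧ l'.b = u)) a b := fun a ha b hb =>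
    Relation.ReflTransGen.mono (fun u v ⟨l', hl', h⟩ =>
      ⟨l', List.mem_cons_of_mem _ (List.mem_append_left _ hl'), h⟩) _ _ (h₁ a ha b hb)
  have e₂ : ∀ a ∈ A₂, ∀ b ∈ A₂, Relation.ReflTransGen (fun u v => ∃ l' ∈ l :: (Λ₁ ++ Λ₂),
      (l'.a = u ∧ l'.b = v) ∨ (l'.a = v ∧ l'.b = u)) a b := fun a ha b hb =>
    Relation.ReflTransGen.mono (fun u v ⟨l', hl', h⟩ =>
      ⟨l', List.mem_cons_of_mem _ (List.mem_append_right _ hl'), h⟩) _ _ (h₂ a ha b hb)
  intro a ha' b hb'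
  rcases mem_union.1 ha' with h1 | h1 <;> rcases mem_union.1 hb' with h2 | h2
  · exact e₁ a h1 b h2
  · exact ((e₁ a h1 _ ha).tail ⟨l, List.mem_cons_self, Or.inl ⟨rfl, rfl⟩⟩).trans (e₂ _ hb b h2)
  · exact ((e₂ a h1 _ hb).tail ⟨l, List.mem_cons_self, Or.inr ⟨rfl, rfl⟩⟩).trans (e₁ _ ha b h2)
  · exact e₂ a h1 b h2

theorem evC_prod_sys_L1j [DecidableEq M] (j : Fin k) (A₁ A₂ : Finset M) (hd : Disjoint A₁ A₂)
    (F : M → Mol k n) (hs : SysOK j (A₁ ∪ A₂) (fun m => (F m).1)) (a₀ b₀ : M) (ha : a₀ ∈ A₁)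
    (hb : b₀ ∈ A₂) :
    ∑ π ∈ GamJ j, evC j ((A₁.val.map F).map (relM1 π) + A₂.val.map F) -
      evC j (A₁.val.map F) * evC j (A₂.val.map F) ∈ Err n j := by
  set f : M → Sk k n := fun m => (F m).1 with hf
  have hs₁ : SysOK j A₁ f := fun m hm => hs m (mem_union_left _ hm)
  have hs₂ : SysOK j A₂ f := fun m hm => hs m (mem_union_right _ hm)
  have hn₂ : ∀ m ∈ A₁, m ∉ A₂ := fun m hm => disjoint_left.1 hd hm
  have hn₁ : ∀ m ∈ A₂, m ∉ A₁ := fun m hm => disjoint_right.1 hd hm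
  obtain ⟨Λ₁, hΛ₁, -⟩ := exists_good' j A₁ f hs₁ ∅ (by simp)
  obtain ⟨Λ₂, hΛ₂, -⟩ := exists_good' j A₂ f hs₂ ∅ (by simp)
  have hadm : Adm j (A₁ ∪ A₂) f (Λ₁ ++ Λ₂) := by
    refine (adm_mono_L1j hΛ₂.1 subset_union_right).append
      (adm_mono_L1j hΛ₁.1 subset_union_left) fun l hl => ?_
    rw [blk_eq_empty_L1j hΛ₂.1 (hn₂ _ (hΛ₁.1.1 l hl).2.1),
      blk_eq_empty_L1j hΛ₂.1 (hn₂ _ (hΛ₁.1.1 l hl).2.2)]
    simp
  have hload : ∀ m, load (Λ₁ ++ Λ₂) m ≤ 2 := fun m => by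
    rw [load_append]
    by_cases hm : m ∈ A₁
    · rw [load_eq_zero_L1j hΛ₂.1 (hn₂ m hm)]
      exact hΛ₁.2.2 m
    · rw [load_eq_zero_L1j hΛ₁.1 hm, zero_add]
      exact hΛ₂.2.2 m
  obtain ⟨l, hla, hlb, hlv, hld⟩ := exists_link j f a₀ b₀ (fun h => hn₂ a₀ ha (h ▸ hb))
    (hs₁ a₀ ha).1 (hs₁ a₀ ha).2 (blk (Λ₁ ++ Λ₂) a₀ ∪ blk (Λ₁ ++ Λ₂) b₀) (by
      have h1 := (card_blk_le hadm a₀).trans (Nat.mul_le_mul_right _ (hload a₀))
      have h2 := (card_blk_le hadm b₀).trans (Nat.mul_le_mul_right _ (hload b₀))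
      refine (card_filter_le _ _).trans ((card_union_le _ _).trans ?_)
      omega)
  subst hla hlb
  have hgood : GoodL j (A₁ ∪ A₂) f 3 (l :: (Λ₁ ++ Λ₂)) :=
    ⟨hadm.cons l hlv (mem_union_left _ ha) (mem_union_right _ hb) hld,
      conn_L1j hΛ₁.2.1 hΛ₂.2.1 l ha hb,
      fun m => (load_cons_le _ l m).trans (Nat.succ_le_succ (hload m))⟩
  have k1 := add_link hs (idL j (Λ₁ ++ Λ₂)) l (by rw [map_fst_idL]; exact hgood.1)
    (fun m => by rw [map_fst_idL]; exact (hgood.2.2 m).trans (by norm_num)) (arrOf F)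
  have k2 : EE j (A₁ ∪ A₂) f (idL j (Λ₁ ++ Λ₂)) (arrOf F) =
      EE j A₁ f (idL j Λ₁) (arrOf F) * EE j A₂ f (idL j Λ₂) (arrOf F) := by
    rw [idL, List.map_append]
    refine EE_union j A₁ A₂ hd f _ _ (fun l' hl' => ?_) (fun l' hl' => ?_) _
    · obtain ⟨l'', h1, rfl⟩ := List.mem_map.1 hl'
      exact (hΛ₁.1.1 l'' h1).2
    · obtain ⟨l'', h1, rfl⟩ := List.mem_map.1 hl'
      exact (hΛ₂.1.1 l'' h1).2
  have k3 : evC j (A₁.val.map F) - EE j A₁ f (idL j Λ₁) (arrOf F) ∈ Err n j :=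
    evC_spec hs₁ Λ₁ (hΛ₁.mono (by norm_num)) (arrOf F)
  have k4 : evC j (A₂.val.map F) - EE j A₂ f (idL j Λ₂) (arrOf F) ∈ Err n j :=
    evC_spec hs₂ Λ₂ (hΛ₂.mono (by norm_num)) (arrOf F)
  have k5 : ∀ π ∈ GamJ j, evC j ((A₁.val.map F).map (relM1 π⁻¹) + A₂.val.map F) -
      EE j (A₁ ∪ A₂) f ((l, l.Om j π) :: idL j (Λ₁ ++ Λ₂)) (arrOf F) ∈ Err n j := by
    intro π hπ
    set γ : M → Perm (Fin k) := fun m => if m ∈ A₁ then π⁻¹ else 1 with hγ
    have hγ₁ : ∀ m ∈ A₁, γ m = π⁻¹ := fun m hm => if_pos hm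
    have hγ₂ : ∀ m ∈ A₂, γ m = 1 := fun m hm => if_neg (hn₁ m hm)
    have hγJ : ∀ m, γ m ∈ GamJ j := fun m => by
      by_cases hm : m ∈ A₁
      · rw [hγ₁ m hm]
        exact inv_mem_GamJ hπ
      · rw [show γ m = 1 from if_neg hm]
        exact one_mem_GamJ j
    set F' : M → Mol k n := fun m => relM1 (γ m) (F m) with hF'
    have hs' : SysOK j (A₁ ∪ A₂) (fun m => (F' m).1) := fun m hm =>
      ⟨(relS_valid (γ m) (f m) (by rw [(hs m hm).2]; exact hγJ m)).2 (hs m hm).1, (hs m hm).2⟩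
    have hg' := hgood.map (Function.Embedding.refl M) γ (fun m _ => hγJ m) (fun m => (F' m).1)
      (fun m _ z => rfl)
    have he := EE_map j (Function.Embedding.refl M) γ (A₁ ∪ A₂) (fun m _ => hγJ m) f
      (fun m => (F' m).1) (fun m _ z => rfl) ((l, l.Om j π) :: idL j (Λ₁ ++ Λ₂)) (arrOf F)
      (arrOf F') (fun z m c => by
        change (F m).2 z ((γ m)⁻¹ (γ m c)) = (F m).2 z c
        simp)
    rw [Finset.map_refl] at hg' he
    have hL : ((l, l.Om j π) :: idL j (Λ₁ ++ Λ₂)).map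
        (fun l' : LL k n M => (l'.1.map (Function.Embedding.refl M) γ, l'.2)) =
        idL j ((l :: (Λ₁ ++ Λ₂)).map (Link.map (Function.Embedding.refl M) γ)) := by
      rw [idL, idL, List.map_cons, List.map_cons, List.map_cons, List.map_map, List.map_map]
      congr 1
      · rw [← Om_map j (Function.Embedding.refl M) γ l (hγJ _) (hγJ _) π, hγ₁ _ ha, hγ₂ _ hb]
        simp
      · refine List.map_congr_left fun l' hl' => ?_
        have h1 : γ l'.a = γ l'.b := by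
          rcases List.mem_append.1 hl' with h | h
          · rw [hγ₁ _ (hΛ₁.1.1 l' h).2.1, hγ₁ _ (hΛ₁.1.1 l' h).2.2]
          · rw [hγ₂ _ (hΛ₂.1.1 l' h).2.1, hγ₂ _ (hΛ₂.1.1 l' h).2.2]
        have h2 := Om_map j (Function.Embedding.refl M) γ l' (hγJ _) (hγJ _) 1
        rw [h1, mul_one, mul_inv_cancel] at h2
        exact Prod.ext rfl h2.symm
    have hv : (A₁ ∪ A₂).val.map F' = (A₁.val.map F).map (relM1 π⁻¹) + A₂.val.map F := by
      rw [← disjUnion_eq_union A₁ A₂ hd, disjUnion_val, Multiset.map_add, Multiset.map_map]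
      congr 1
      · exact Multiset.map_congr rfl fun m hm => by
          change relM1 (γ m) (F m) = relM1 π⁻¹ (F m)
          rw [hγ₁ m hm]
      · exact Multiset.map_congr rfl fun m hm => by
          change relM1 (γ m) (F m) = F m
          rw [hγ₂ m hm, relM1_one]
    rw [← he, hL, ← hv]
    exact evC_spec hs' _ hg' (arrOf F')
  have k6 := (Err n j).sum_mem k5
  rw [sum_sub_distrib,
    sum_GamJ_inv j fun π => evC j ((A₁.val.map F).map (relM1 π) + A₂.val.map F)] at k6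
  rw [k2] at k1
  have k7 := (Err n j).add_mem ((Err n j).mul_mem_right (evC j (A₂.val.map F)) k3)
    ((Err n j).mul_mem_left (EE j A₁ f (idL j Λ₁) (arrOf F)) k4)
  convert (Err n j).sub_mem ((Err n j).sub_mem k6 k1) k7 using 1
  ring

theorem univ_map_get_L1j {α : Type} (s : Multiset α) :
    (univ : Finset (Fin s.toList.length)).val.map s.toList.get = s := by
  rw [Fin.univ_val_map, List.ofFn_get, Multiset.coe_toList]

theorem evC_prod_ne (j : Fin k) (s s' : Multiset (Mol k n)) (hs : MsOK j s) (hs' : MsOK j s')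
    (h0 : s ≠ 0) (h0' : s' ≠ 0) :
    ∑ π ∈ GamJ j, evC j (s.map (relM1 π) + s') - evC j s * evC j s' ∈ Err n j := by
  have e₁ : ((univ : Finset (Fin s.toList.length)).map Function.Embedding.inl).val.map
      (Sum.elim s.toList.get s'.toList.get) = s := by
    rw [map_val, Multiset.map_map]
    exact univ_map_get_L1j s
  have e₂ : ((univ : Finset (Fin s'.toList.length)).map Function.Embedding.inr).val.map
      (Sum.elim s.toList.get s'.toList.get) = s' := by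
    rw [map_val, Multiset.map_map]
    exact univ_map_get_L1j s'
  have hl : 0 < s.toList.length := by
    rw [Multiset.length_toList]
    exact Multiset.card_pos.2 h0
  have hl' : 0 < s'.toList.length := by
    rw [Multiset.length_toList]
    exact Multiset.card_pos.2 h0'
  have key := evC_prod_sys_L1j j (univ.map Function.Embedding.inl)
    (univ.map Function.Embedding.inr) (by simp [disjoint_left])
    (Sum.elim s.toList.get s'.toList.get)
    (by
      rintro (i | i) _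
      · exact hs _ (Multiset.mem_toList.1 (List.get_mem _ i))
      · exact hs' _ (Multiset.mem_toList.1 (List.get_mem _ i)))
    (Sum.inl ⟨0, hl⟩) (Sum.inr ⟨0, hl'⟩) (mem_map_of_mem _ (mem_univ _))
    (mem_map_of_mem _ (mem_univ _))
  rwa [e₁, e₂] at key

/-- The constant in the product formula. -/
noncomputable def kap (j : Fin k) (b b' : ℕ) : ℂ := if b = 0 ∨ b' = 0 then (GamJ j).card else 1

theorem kap_ne_zero (j : Fin k) (b b' : ℕ) : kap j b b' ≠ 0 := by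
  unfold kap
  split_ifs
  · exact Nat.cast_ne_zero.2 (card_ne_zero.2 ⟨1, one_mem_GamJ j⟩)
  · exact one_ne_zero

theorem evC_prod (j : Fin k) (s s' : Multiset (Mol k n)) (hs : MsOK j s) (hs' : MsOK j s') :
    ∑ π ∈ GamJ j, evC j (s.map (relM1 π) + s') -
      kap j (Multiset.card s) (Multiset.card s') • (evC j s * evC j s') ∈ Err n j := by
  by_cases h0 : s = 0
  · subst h0
    rw [kap, if_pos (Or.inl Multiset.card_zero), evC_zero, one_mul]
    simp only [Multiset.map_zero, zero_add, sum_const, Nat.cast_smul_eq_nsmul, sub_self]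
    exact (Err n j).zero_mem
  by_cases h0' : s' = 0
  · subst h0'
    rw [kap, if_pos (Or.inr Multiset.card_zero), evC_zero, mul_one, Nat.cast_smul_eq_nsmul,
      ← sum_const, ← sum_sub_distrib]
    refine (Err n j).sum_mem fun π hπ => ?_
    rw [add_zero]
    exact evC_rel j s hs π hπ
  · rw [kap, if_neg (by simp [h0, h0']), one_smul]
    exact evC_prod_ne j s s' hs hs' h0 h0'

end Pool.Agent.Lib.MP_595dc0_ag.Dk
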