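import Mathlib
import Pool.Agent.Lib.MP_595dc0_ag.DkL1i

set_option autoImplicit false

namespace Pool.Agent.Lib.MP_595dc0_ag.Dk

open Equiv Finset MvPolynomial

variable {k n : ℕ} {M : Type} [DecidableEq M]

theorem evC_r1 {j : Fin k} {A : Finset M} {f : M → Sk k n} (hs : SysOK j A f) (m m' : M)
    (hm : m ∈ A) (hm' : m' ∈ A) (hne : m ≠ m') (c : Fin k) (Y : Finset (Fin n))
    (hY : nuS k ≤ Y.card) (hfree : ∀ z ∈ Y, (f m).sep z c = c ∧ (f m').sep z c = c)
    (x : Arr k n (M × Fin k)) :
    app (fun y => evC j (A.val.map (mol f y))) x (aY Y (m, c) (m', c)) ∈ Err n j := by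
  obtain ⟨Y', hY'Y, hY'c⟩ := exists_subset_card_eq ((nuC_le_nuS k j).trans hY)
  have hLB := nuC_le_LB j
  obtain ⟨Λ₀, ⟨hadm, hconn, hload⟩, hdis⟩ := exists_good' j A f hs Y' (by omega)
  have hb1 := (card_blk_le hadm m).trans (Nat.mul_le_mul_right _ (hload m))
  have hb2 := (card_blk_le hadm m').trans (Nat.mul_le_mul_right _ (hload m'))
  obtain ⟨l, hla, hlb, hlv, hld⟩ := exists_link j f m m' hne (hs m hm).1 (hs m hm).2
    (Y' ∪ (blk Λ₀ m ∪ blk Λ₀ m')) (by
      have h1 := card_union_le Y' (blk Λ₀ m ∪ blk Λ₀ m')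
      have h2 := card_union_le (blk Λ₀ m) (blk Λ₀ m')
      exact (card_filter_le _ _).trans (by omega))
  rw [disjoint_union_right] at hld
  have hadm' : Adm j A f (l :: Λ₀) :=
    hadm.cons l hlv (hla ▸ hm) (hlb ▸ hm') (by rw [hla, hlb]; exact hld.2)
  have hgood : GoodL j A f 3 (l :: Λ₀) := by
    refine ⟨hadm', fun a ha b hb => Relation.ReflTransGen.mono ?_ _ _ (hconn a ha b hb), fun a => ?_⟩
    · rintro u v ⟨l', hl', h⟩
      exact ⟨l', List.mem_cons_of_mem _ hl', h⟩
    · have := load_cons_le Λ₀ l a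
      have := hload a
      omega
  have hblk : ∀ a, ∀ z ∈ Y', z ∉ blk (l :: Λ₀) a := by
    intro a z hz hb
    simp only [blk, mem_filter, mem_univ, true_and] at hb
    obtain ⟨l', hl', -, hz'⟩ := hb
    rcases List.mem_cons.mp hl' with rfl | hl'
    · exact disjoint_left.mp hld.1 hz' hz
    · exact disjoint_left.mp (hdis l' hl') hz' hz
  have h1 := app_sub_mem ((Err n j).restrictScalars ℂ) (fun y => evC j (A.val.map (mol f y)))
    (fun y => EE j A f (idL j (l :: Λ₀)) y) (fun y => evC_spec hs _ hgood y) x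
    (aY Y (m, c) (m', c))
  have h2 : app (fun y => EE j A f (idL j (l :: Λ₀)) y) x (aY Y (m, c) (m', c)) ∈ Err n j := by
    unfold EE
    rw [← app_mul]
    by_cases hc : c ≤ j
    · refine van_r1 hs (by rw [map_fst_idL]; exact hadm') (fun a => ?_) (a := m) (b := m') ?_ c hc
        Y' hY'c.ge ?_ (fun z hz => hfree z (hY'Y hz)) _
        (fun z hz => anti_aY _ _ _ z (hY'Y hz)) x
      · rw [map_fst_idL]
        exact (hgood.2.2 a).trans (by norm_num)
      · exact ⟨(l, l.Om j 1), List.mem_cons_self, Or.inl ⟨hla, hlb, Subset.rfl⟩⟩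
      · rw [map_fst_idL, disjoint_union_right]
        exact ⟨disjoint_left.mpr (hblk m), disjoint_left.mpr (hblk m')⟩
    · obtain ⟨z, hz⟩ : Y'.Nonempty := card_pos.mp (hY'c ▸ nuC_pos k j)
      rw [app_mono_eq_zero _ x _ z (m, c) (m', c) (by simp [rows, hc]) (by simp [rows, hc])]
      · exact zero_mem _
      · rw [mul_assoc]
        refine Anti.mul_left_SA (Anti.mul_left_SA (anti_aY _ _ _ z (hY'Y hz)) _ _
          (aS_mem_SA A f) ?_ ?_) _ _ (LP_mem_SA _) ?_ ?_
        · exact fun h => h.2 (hfree z (hY'Y hz)).1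
        · exact fun h => h.2 (hfree z (hY'Y hz)).2
        · rw [map_fst_idL]; exact hblk m z hz
        · rw [map_fst_idL]; exact hblk m' z hz
  have := (Err n j).add_mem h1 h2
  rwa [sub_add_cancel] at this

omit [DecidableEq M] in
theorem via_range {ι : Type} (e : ι ↪ M) (σ : Perm ι) (m : M) (h : σ.viaEmbedding e m ≠ m) :
    m ∈ Set.range e := by
  by_contra h'
  exact h (Perm.viaEmbedding_apply_of_notMem σ e m h')

omit [DecidableEq M] in
theorem via_mem_iff {ι : Type} (e : ι ↪ M) (σ : Perm ι) (p : M → Prop) (hp : ∀ i, p (e i))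
    (m : M) : p (σ.viaEmbedding e m) ↔ p m := by
  by_cases h : m ∈ Set.range e
  · obtain ⟨i, rfl⟩ := h
    rw [Perm.viaEmbedding_apply]
    exact iff_of_true (hp _) (hp _)
  · rw [Perm.viaEmbedding_apply_of_notMem σ e m h]

/-- The signed exchange operator lands in the low degree part of the secant ideal. -/
theorem app_exG_mem {j : Fin k} (A : Finset M) (e : Fin (k * k + 1) ↪ M) (he : ∀ i, e i ∈ A)
    (C : Finset (Fin k)) (hC : C.card ≤ 2) (Y : Finset (Fin n)) (x : Arr k n (M × Fin k))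
    (T : GA n (M × Fin k)) :
    app (mono (rows j A)) x ((∑ σ : Perm (Fin (k * k + 1)), ((Perm.sign σ : ℤ) : ℂ) •
      og (exG C Y (σ.viaEmbedding e))) * T) ∈ JJ k n (D0 k) := by
  have hk : 0 < k := j.pos
  refine app_mono_loc _ (univ.map e ×ˢ C.filter (· ≤ j)) ?_ _ ?_ _ (fun y => ?_) x T
  · rintro ⟨m, c⟩ h
    simp only [mem_product, mem_map, mem_univ, true_and, mem_filter] at h
    obtain ⟨⟨i, rfl⟩, -, hc⟩ := h
    simp [rows, he, hc]
  · refine Subalgebra.sum_mem _ fun σ _ => Subalgebra.smul_mem _ ?_ _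
    refine SA_mono _ _ ?_ (og_mem_SA _ _ (exG_mem_GD C Y _))
    rintro ⟨z, m, c⟩ ⟨-, h1, h2⟩
    obtain ⟨i, rfl⟩ := via_range e σ m h1
    by_cases hc : c ≤ j
    · left
      simpa [hc] using h2
    · right
      simp [rows, hc]
  · refine mem_JJ_of_anti _ _ ?_ y _ (fun χ => ?_) hk
    · rw [card_product, card_map, card_univ, Fintype.card_fin, D0, mul_comm]
      exact Nat.mul_le_mul_right _ ((card_filter_le _ _).trans hC)
    · obtain ⟨i, i', hne, hχ⟩ := Fintype.exists_ne_map_eq_of_card_lt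
        (fun (i : Fin (k * k + 1)) (c : C) => χ (e i, c)) (by
          rw [Fintype.card_fun, Fintype.card_fin, Fintype.card_fin, Fintype.card_coe]
          calc k ^ C.card ≤ k ^ 2 := Nat.pow_le_pow_right hk hC
            _ < k * k + 1 := by rw [sq]; omega)
      refine ⟨exG C Y ((swap i i').viaEmbedding e), ?_, ?_, ?_⟩
      · rintro z ⟨m, c⟩
        rw [exG_apply]
        split_ifs
        · simp only [mem_product]
          rw [via_mem_iff e _ (fun m => m ∈ univ.map e) (by simp)]
        · rfl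
      · rintro z ⟨m, c⟩ h
        simp only [mem_product, mem_map, mem_univ, true_and, mem_filter] at h
        obtain ⟨⟨a, rfl⟩, hc, -⟩ := h
        have hχ' : χ (e i, c) = χ (e i', c) := congrFun hχ ⟨c, hc⟩
        rw [exG_apply]
        split_ifs
        · rw [Perm.viaEmbedding_apply, swap_apply_def]
          split_ifs with h1 h2
          · rw [h1, hχ']
          · rw [h2, hχ']
          · rfl
        · rfl
      · rw [mul_sum, ← sum_neg_distrib]
        refine Fintype.sum_equiv (Equiv.mulLeft (swap i i')) _ _ fun σ => ?_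
        have hv : (swap i i' * σ).viaEmbedding e =
            (swap i i').viaEmbedding e * σ.viaEmbedding e :=
          map_mul (Perm.viaEmbeddingHom e) _ _
        rw [mul_smul_comm, ← og_mul, ← exG_mul, Equiv.coe_mulLeft, hv, Perm.sign_mul,
          Perm.sign_swap hne]
        simp

theorem evC_r2 {j : Fin k} {A : Finset M} {f : M → Sk k n} (hs : SysOK j A f)
    (e : Fin (k * k + 1) ↪ M) (he : ∀ i, e i ∈ A) (C : Finset (Fin k)) (Y : Finset (Fin n))
    (mv : Bool) (h2 : Hyp2 f e C Y mv) (x : Arr k n (M × Fin k)) :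
    ∑ σ : Perm (Fin (k * k + 1)), ((Perm.sign σ : ℤ) : ℂ) •
      evC j (A.val.map (mol (exF Y mv (σ.viaEmbedding e) f)
        (act (exG C Y (σ.viaEmbedding e)) x))) ∈ Err n j := by
  classical
  obtain ⟨hv, -, hC, hmv, hone⟩ := h2
  have hLB : 1 ≤ 16 * LB k j := by
    have := nuC_le_LB j
    have := nuC_pos k j
    omega
  obtain ⟨Λ, hgood, hdis⟩ := exists_good j A f hs (fun m => if m ∈ Set.range e then Y else ∅)
    (fun a _ b _ _ => by
      have hsub : (if a ∈ Set.range e then Y else ∅) ∪ (if b ∈ Set.range e then Y else ∅) ⊆ Y :=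
        union_subset (by split_ifs <;> simp) (by split_ifs <;> simp)
      by_cases ha : a ∈ Set.range e
      · obtain ⟨i, rfl⟩ := ha
        exact Or.inl ((card_le_card (filter_subset_filter _ hsub)).trans ((hone i).trans hLB))
      · by_cases hb : b ∈ Set.range e
        · obtain ⟨i, rfl⟩ := hb
          exact Or.inr ((card_le_card (filter_subset_filter _ hsub)).trans ((hone i).trans hLB))
        · left
          rw [if_neg ha, if_neg hb]
          simp)
  have hcol : ∀ l ∈ Λ, ∀ z ∈ l.cols, z ∈ Y → ∀ m, l.touch m → m ∉ Set.range e := by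
    intro l hl z hz hzY m hm hr
    refine disjoint_left.mp (hdis l hl) hz ?_
    rcases hm with rfl | rfl
    · exact mem_union_left _ (by rw [if_pos hr]; exact hzY)
    · exact mem_union_right _ (by rw [if_pos hr]; exact hzY)
  have key : ∀ σ : Perm (Fin (k * k + 1)),
      evC j (A.val.map (mol (exF Y mv (σ.viaEmbedding e) f)
        (act (exG C Y (σ.viaEmbedding e)) x))) -
      app (mono (rows j A)) x (og (exG C Y (σ.viaEmbedding e)) * (LP (idL j Λ) * aS A f)) ∈
        Err n j := by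
    intro σ
    have hs' : SysOK j A (exF Y mv (σ.viaEmbedding e) f) := fun m hm => ⟨hv σ m, (hs m hm).2⟩
    have hg' : GoodL j A (exF Y mv (σ.viaEmbedding e) f) 3 Λ := by
      refine (hgood.mono (by norm_num)).congr fun l hl z hz => ?_
      by_cases hzY : z ∈ Y
      · rw [exF_of_fixed _ _ _ _ _
          (Perm.viaEmbedding_apply_of_notMem σ e _ (hcol l hl z hz hzY _ (Or.inl rfl)))]
      · simp [exF, hzY]
    have hcomm : Commute (LP (idL j Λ)) (og (exG C Y (σ.viaEmbedding e))) := by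
      refine commute_of_SA _ _ ?_ _ _ (LP_mem_SA _) (og_mem_SA _ _ (exG_mem_GD C Y _))
      rw [Set.disjoint_left, map_fst_idL]
      rintro ⟨z, m, c⟩ h1 ⟨h2, h3, -⟩
      simp only [blk, Set.mem_ofPred_eq, mem_filter, mem_univ, true_and] at h1
      obtain ⟨l, hl, ht, hz⟩ := h1
      exact hcol l hl z hz h2 m ht (via_range e σ m h3)
    have := evC_spec hs' Λ hg' (act (exG C Y (σ.viaEmbedding e)) x)
    rw [EE, ← app_mul_og, mul_assoc, ← exG_mul_aS A f C Y mv _
      (via_mem_iff e σ (· ∈ A) he) ?_, ← mul_assoc, hcomm.eq, mul_assoc] at this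
    · exact this
    · intro z hz m hm c hc
      obtain ⟨i, rfl⟩ := via_range e σ m hm
      exact hmv i z hz c hc
  have h3 : _ ∈ Err n j :=
    Ideal.mem_sup_left (app_exG_mem (j := j) A e he C hC Y x (LP (idL j Λ) * aS A f))
  rw [sum_mul, map_sum] at h3
  have h4 := (Err n j).add_mem (Ideal.sum_mem _ fun σ (_ : σ ∈ univ) =>
    Submodule.smul_of_tower_mem _ ((Perm.sign σ : ℤ) : ℂ) (key σ)) h3
  rw [← sum_add_distrib] at h4
  convert h4 using 2 with σ
  rw [smul_mul_assoc, map_smul, smul_sub, sub_add_cancel]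

end Pool.Agent.Lib.MP_595dc0_ag.Dk
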