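import Mathlib
import Pool.Agent.Lib.MP_595dc0_ag.DkL1i

set_option autoImplicit false

namespace Pool.Agent.Lib.MP_595dc0_ag.Dk

open Equiv Finset MvPolynomial

variable {k n : ℕ} {M : Type}

theorem monoS_add (s s' : Multiset (Mol k n)) : monoS (s + s') = monoS s * monoS s' := by
  unfold monoS
  rw [Multiset.map_add, Multiset.prod_add]

theorem monoS_zero : monoS (0 : Multiset (Mol k n)) = 1 := by
  simp [monoS]

theorem monoS_singleton (m : Mol k n) : monoS {m} = X m := by
  simp [monoS]

theorem monomial_eq_monoS (d : Mol k n →₀ ℕ) :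
    monomial d (1 : ℂ) = monoS (Finsupp.toMultiset d) := by
  induction d using Finsupp.induction_linear with
  | zero => rw [map_zero, monoS_zero]; rfl
  | add f g hf hg => rw [map_add Finsupp.toMultiset, monoS_add, ← hf, ← hg, monomial_mul, one_mul]
  | single a b =>
    rw [Finsupp.toMultiset_single, ← X_pow_eq_monomial]
    simp [monoS, Multiset.map_nsmul, Multiset.prod_nsmul]

theorem linF_monoS {W : Type} [AddCommGroup W] [Module ℂ W] (φ : Multiset (Mol k n) → W)
    (s : Multiset (Mol k n)) : linF φ (monoS s) = φ s := by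
  classical
  have h : monoS s = basisMonomials (Mol k n) ℂ (Multiset.toFinsupp s) := by
    rw [coe_basisMonomials]
    simp only []
    rw [monomial_eq_monoS, Multiset.toFinsupp_toMultiset]
  unfold linF
  rw [h, Module.Basis.constr_basis, Multiset.toFinsupp_toMultiset]

theorem ThA_eq_monoS (A : Finset M) (f : M → Sk k n) (x : Arr k n (M × Fin k)) :
    ThA A f x = monoS (A.val.map (mol f x)) := by
  unfold ThA monoS
  rw [Multiset.map_map]
  rfl

theorem map_mol_toList (s : Multiset (Mol k n)) :
    (univ : Finset (Fin s.toList.length)).val.map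
      (mol (fun i => (s.toList.get i).1) (arrOf s.toList.get)) = s := by
  have h : mol (fun i => (s.toList.get i).1) (arrOf s.toList.get) = s.toList.get :=
    funext fun i => mol_arrOf _ i
  rw [h, Fin.univ_val_map, List.ofFn_get, Multiset.coe_toList]

theorem monoS_eq_Th (s : Multiset (Mol k n)) :
    monoS s = Th (fun i => (s.toList.get i).1) (arrOf s.toList.get) := by
  unfold Th
  rw [ThA_eq_monoS, map_mol_toList]

theorem l1l_monoS_sum {J : Type} (S : Finset J) (t : J → Multiset (Mol k n)) :
    monoS (∑ j ∈ S, t j) = ∏ j ∈ S, monoS (t j) := by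
  classical
  induction S using Finset.induction_on with
  | empty => simp [monoS_zero]
  | insert a S ha ih => rw [sum_insert ha, prod_insert ha, monoS_add, ih]

theorem l1l_sum_filter (s : Multiset (Mol k n)) :
    ∑ j, s.filter (fun m => m.1.cls = j) = s := by
  induction s using Multiset.induction_on with
  | empty => simp
  | cons a s ih =>
    simp only [Multiset.filter_cons, sum_add_distrib, ih]
    rw [sum_ite_eq]
    simp

theorem monoS_eq_prod (s : Multiset (Mol k n)) :
    monoS s = ∏ j, monoS (s.filter (fun m => m.1.cls = j)) := by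
  rw [← l1l_monoS_sum, l1l_sum_filter]

theorem relF_monoS (γ : Fin k → Perm (Fin k)) (s : Multiset (Mol k n)) :
    relF γ (monoS s) = monoS (s.map (relM γ)) := by
  unfold relF monoS
  rw [map_multiset_prod, Multiset.map_map, Multiset.map_map]
  congr 1
  exact Multiset.map_congr rfl fun m _ => rename_X _ _

theorem bdeg_add (s s' : Multiset (Mol k n)) : bdeg (s + s') = bdeg s + bdeg s' := by
  unfold bdeg
  rw [Multiset.map_add, Multiset.sum_add]

theorem bdeg_apply (s : Multiset (Mol k n)) (j : Fin k) :
    bdeg s j = Multiset.card (s.filter (fun m => m.1.cls = j)) := by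
  induction s using Multiset.induction_on with
  | empty => simp [bdeg]
  | cons a s ih =>
    have h : bdeg (a ::ₘ s) = wtM a + bdeg s := by simp [bdeg]
    rw [h, Pi.add_apply, ih, Multiset.filter_cons, Multiset.card_add]
    congr 1
    unfold wtM
    by_cases ha : a.1.cls = j
    · simp [ha]
    · simp [ha]

theorem l1l_filter_self {j : Fin k} {s : Multiset (Mol k n)} (hs : MsOK j s) :
    s.filter (fun m => m.1.cls = j) = s :=
  Multiset.filter_eq_self.2 fun m hm => (hs m hm).2

theorem l1l_filter_ne {j i : Fin k} {s : Multiset (Mol k n)} (hs : MsOK j s) (h : i ≠ j) :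
    s.filter (fun m => m.1.cls = i) = 0 :=
  Multiset.filter_eq_nil.2 fun m hm he => h (he.symm.trans (hs m hm).2)

theorem bdeg_of_MsOK (j : Fin k) (s : Multiset (Mol k n)) (hs : MsOK j s) :
    bdeg s = Pi.single j (Multiset.card s) := by
  funext i
  rw [bdeg_apply]
  by_cases h : i = j
  · rw [h, l1l_filter_self hs, Pi.single_eq_same]
  · rw [l1l_filter_ne hs h, Pi.single_eq_of_ne h, Multiset.card_zero]

theorem weight_wtM (d : Mol k n →₀ ℕ) : Finsupp.weight wtM d = bdeg (Finsupp.toMultiset d) := by
  induction d using Finsupp.induction_linear with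
  | zero => simp [bdeg]
  | add f g hf hg => rw [map_add, map_add, bdeg_add, hf, hg]
  | single a b =>
    rw [Finsupp.toMultiset_single, Finsupp.weight_single]
    simp [bdeg, Multiset.map_nsmul, Multiset.sum_nsmul]

theorem monoS_homog (s : Multiset (Mol k n)) : IsWeightedHomogeneous wtM (monoS s) (bdeg s) := by
  classical
  have h := isWeightedHomogeneous_monomial (R := ℂ) wtM (Multiset.toFinsupp s) 1 (weight_wtM _)
  rwa [monomial_eq_monoS, Multiset.toFinsupp_toMultiset] at h

theorem l1l_induction {p : FF k n → Prop} (h : FF k n)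
    (hm : ∀ d ∈ h.support, p (monoS (Finsupp.toMultiset d))) (h0 : p 0)
    (hadd : ∀ a b, p a → p b → p (a + b)) (hsmul : ∀ (c : ℂ) a, p a → p (c • a)) : p h := by
  rw [h.as_sum]
  refine Finset.sum_induction _ p hadd h0 fun d hd => ?_
  have e : monomial d (coeff d h) = coeff d h • monoS (Finsupp.toMultiset d) := by
    rw [← monomial_eq_monoS, smul_monomial, smul_eq_mul, mul_one]
  rw [e]
  exact hsmul _ _ (hm d hd)

theorem FF_induction {p : FF k n → Prop} (h : FF k n) (hm : ∀ s, p (monoS s)) (h0 : p 0)
    (hadd : ∀ a b, p a → p b → p (a + b)) (hsmul : ∀ (c : ℂ) a, p a → p (c • a)) : p h :=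
  l1l_induction h (fun _ _ => hm _) h0 hadd hsmul

theorem FF_induction_homog {p : FF k n → Prop} (β : Fin k → ℕ) (h : FF k n)
    (hh : IsWeightedHomogeneous wtM h β) (hm : ∀ s, bdeg s = β → p (monoS s)) (h0 : p 0)
    (hadd : ∀ a b, p a → p b → p (a + b)) (hsmul : ∀ (c : ℂ) a, p a → p (c • a)) : p h :=
  l1l_induction h (fun d hd => hm _ (by rw [← weight_wtM]; exact hh (mem_support_iff.1 hd)))
    h0 hadd hsmul

/-- Polynomials in valid molecules of class `j`. -/
noncomputable def Pure (n : ℕ) (j : Fin k) : Submodule ℂ (FF k n) :=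
  Submodule.span ℂ {p | ∃ s, MsOK j s ∧ p = monoS s}

theorem Pure_mul (j : Fin k) (p q : FF k n) (hp : p ∈ Pure n j) (hq : q ∈ Pure n j) :
    p * q ∈ Pure n j := by
  have h := Submodule.mul_mem_mul hp hq
  unfold Pure at h ⊢
  rw [Submodule.span_mul_span] at h
  refine Submodule.span_mono ?_ h
  rintro _ ⟨_, ⟨s, hs, rfl⟩, _, ⟨s', hs', rfl⟩, rfl⟩
  refine ⟨s + s', fun m hm => ?_, (monoS_add s s').symm⟩
  rcases Multiset.mem_add.1 hm with h1 | h1
  · exact hs m h1
  · exact hs' m h1

theorem l1l_filter_sum {J : Type} (S : Finset J) (t : J → Multiset (Mol k n)) (j : Fin k) :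
    (∑ i ∈ S, t i).filter (fun m => m.1.cls = j) =
      ∑ i ∈ S, (t i).filter (fun m => m.1.cls = j) := by
  classical
  induction S using Finset.induction_on with
  | empty => simp
  | insert a S ha ih => rw [sum_insert ha, sum_insert ha, Multiset.filter_add, ih]

theorem l1l_ev_mono (t : Fin k → Multiset (Mol k n)) (ht : ∀ j, MsOK j (t j)) :
    ev (∏ j, monoS (t j)) = ∏ j, linF (evC j) (monoS (t j)) := by
  rw [← l1l_monoS_sum]
  unfold ev
  rw [linF_monoS]
  unfold evM
  rw [if_pos]
  · refine prod_congr rfl fun j _ => ?_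
    rw [linF_monoS, l1l_filter_sum, sum_eq_single j]
    · rw [l1l_filter_self (ht j)]
    · intro i _ hi
      exact l1l_filter_ne (ht i) hi.symm
    · simp
  · intro m hm
    obtain ⟨j, _, hj⟩ := Multiset.mem_sum.1 hm
    exact (ht j m hj).1

theorem l1l_ev_prod (S : Finset (Fin k)) : ∀ (p : Fin k → FF k n), (∀ j, p j ∈ Pure n j) →
    (∀ j, j ∉ S → ∃ s, MsOK j s ∧ p j = monoS s) →
    ev (∏ j, p j) = ∏ j, linF (evC j) (p j) := by
  induction S using Finset.induction_on with
  | empty =>
    intro p _ h
    choose t ht hp using fun j => h j (notMem_empty j)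
    rw [funext hp]
    exact l1l_ev_mono t ht
  | insert a S _ ih =>
    intro p hp h
    have key : ∀ q ∈ Pure n a, ev (q * ∏ j ∈ univ.erase a, p j) =
        linF (evC a) q * ∏ j ∈ univ.erase a, linF (evC j) (p j) := by
      intro q hq
      induction hq using Submodule.span_induction with
      | mem q hq =>
        have h1 := ih (Function.update p a q) (fun j => by
          by_cases hj : j = a
          · rw [hj, Function.update_self]; exact Submodule.subset_span hq
          · rw [Function.update_of_ne hj]; exact hp j) (fun j hj => by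
          by_cases hja : j = a
          · rw [hja, Function.update_self]; exact hq
          · rw [Function.update_of_ne hja]
            exact h j (fun hh => (mem_insert.1 hh).elim hja hj))
        have e1 : ∏ j ∈ univ.erase a, Function.update p a q j = ∏ j ∈ univ.erase a, p j :=
          prod_congr rfl fun j hj => by rw [Function.update_of_ne (mem_erase.1 hj).1]
        have e2 : ∏ j ∈ univ.erase a, linF (evC j) (Function.update p a q j) =
            ∏ j ∈ univ.erase a, linF (evC j) (p j) :=
          prod_congr rfl fun j hj => by rw [Function.update_of_ne (mem_erase.1 hj).1]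
        rw [← mul_prod_erase _ _ (mem_univ a), ← mul_prod_erase _ _ (mem_univ a),
          Function.update_self, e1, e2] at h1
        exact h1
      | zero => simp
      | add x y _ _ hx hy => rw [add_mul, map_add, map_add, hx, hy, add_mul]
      | smul c x _ hx => rw [smul_mul_assoc, map_smul, map_smul, hx, smul_mul_assoc]
    rw [← mul_prod_erase _ _ (mem_univ a), ← mul_prod_erase _ _ (mem_univ a)]
    exact key _ (hp a)

theorem ev_prod_pure (p : Fin k → FF k n) (hp : ∀ j, p j ∈ Pure n j) :
    ev (∏ j, p j) = ∏ j, linF (evC j) (p j) :=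
  l1l_ev_prod univ p hp fun j hj => absurd (mem_univ j) hj

theorem evM_of_MsOK (j : Fin k) (s : Multiset (Mol k n)) (hs : MsOK j s) : evM s = evC j s := by
  unfold evM
  rw [if_pos (fun m hm => (hs m hm).1), prod_eq_single j, l1l_filter_self hs]
  · intro i _ hi
    rw [l1l_filter_ne hs hi, evC_zero]
  · simp

theorem evM_zero : evM (0 : Multiset (Mol k n)) = 1 := by
  unfold evM
  simp [evC_zero]

theorem evM_homog (s : Multiset (Mol k n)) : (evM s).IsHomogeneous (dg (bdeg s)) := by
  unfold evM dg
  split_ifs
  · refine IsHomogeneous.prod _ _ _ fun j _ => ?_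
    rw [bdeg_apply]
    exact evC_homog j _
  · exact isHomogeneous_zero _ _ _

end Pool.Agent.Lib.MP_595dc0_ag.Dk
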