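import Mathlib
import Pool.Agent.Lib.MP_595dc0_ag.DkL1l

set_option autoImplicit false

namespace Pool.Agent.Lib.MP_595dc0_ag.Dk

open Equiv Finset MvPolynomial

variable {k n : ℕ} {M : Type}

theorem ot_X_L1m (i' : Fin (n + 1)) (i : Fin n) (s : Fin k → ℕ) (m : Mol k n) (h : m.1.Valid) :
    ot i' i s (X m) = ∑ y : Fin k → Fin k, coef s (m.2 i) y •
      (X (insMol i' i False m y) + if m.1.sep i = 1 then 0 else X (insMol i' i True m y)) := by
  unfold ot
  rw [aeval_X, if_pos h]

theorem prod_add_L1m [Fintype M] [DecidableEq M] {R : Type} [CommRing R] (F : Finset M)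
    (A B : M → R) (h : ∀ m, m ∉ F → B m = 0) :
    ∏ m, (A m + B m) = ∑ W ∈ F.powerset, ∏ m, if m ∈ W then B m else A m := by
  have h1 : ∀ W : Finset M, (∏ m, if m ∈ W then B m else A m) =
      (∏ m ∈ W, B m) * ∏ m ∈ univ \ W, A m := by
    intro W
    rw [Finset.prod_ite, Finset.filter_mem_eq_inter, univ_inter, ← Finset.sdiff_eq_filter]
  simp only [h1, add_comm (A _)]
  rw [Finset.prod_add]
  refine (Finset.sum_subset (powerset_mono.2 (subset_univ F)) fun W _ hW => ?_).symm
  rw [mem_powerset, Finset.not_subset] at hW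
  obtain ⟨m, hm, hm'⟩ := hW
  rw [Finset.prod_eq_zero hm (h m hm'), zero_mul]

theorem mol_ins_L1m [DecidableEq M] (i' : Fin (n + 1)) (i : Fin n) (W : Finset M)
    (f : M → Sk k n) (x : Arr k n (M × Fin k)) (y : M × Fin k → Fin k) (m : M) :
    mol (insF i' i W f) (act (sWG i' i W f) (insArr i' x y)) m =
      insMol i' i (m ∈ W) (mol f x m) (fun c => y (m, c)) := by
  refine Prod.ext rfl ?_
  funext z c
  change insArr i' x y z ((sWG i' i W f z)⁻¹ (m, c)) = _
  unfold insMol sWG
  rcases Fin.eq_self_or_eq_succAbove i' z with rfl | ⟨z, rfl⟩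
  · rw [Pi.mulSingle_eq_of_ne (Fin.succAbove_ne z i).symm, insArr_same]
    simp
  · rw [insArr_succAbove]
    simp only [Fin.insertNth_apply_succAbove]
    by_cases hz : z = i
    · subst hz
      rw [Pi.mulSingle_eq_same]
      have e : (Equiv.prodCongrRight (fun m => if m ∈ W then (f m).sep z else 1) :
          Perm (M × Fin k))⁻¹ (m, c) = (m, (if m ∈ W then (f m).sep z else 1)⁻¹ c) := rfl
      rw [e]
      by_cases hm : m ∈ W
      · simp [hm, mol]
      · simp [hm, mol]
    · rw [Pi.mulSingle_eq_of_ne (fun h => hz (Fin.succAbove_right_injective h))]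
      by_cases hm : m ∈ W
      · simp [hm, mol, hz]
      · simp [hm, mol]

theorem insMol_pos_L1m (i' : Fin (n + 1)) (i : Fin n) (mv : Prop) [Decidable mv] (h : mv)
    (m : Mol k n) (y : Fin k → Fin k) : insMol i' i mv m y = insMol i' i True m y := by
  simp [insMol, insSk, h]

theorem insMol_neg_L1m (i' : Fin (n + 1)) (i : Fin n) (mv : Prop) [Decidable mv] (h : ¬ mv)
    (m : Mol k n) (y : Fin k → Fin k) : insMol i' i mv m y = insMol i' i False m y := by
  simp [insMol, insSk, h]

theorem relM_ins_L1m (i' : Fin (n + 1)) (i : Fin n) (mv : Prop) [Decidable mv]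
    (π : Perm (Fin k)) (m : Mol k n) (y : Fin k → Fin k) :
    relM1 π (insMol i' i mv m y) = insMol i' i mv (relM1 π m) (fun c => y (π⁻¹ c)) := by
  unfold relM1 insMol relS insSk
  refine Prod.ext ?_ ?_
  · simp only [Sk.mk.injEq, true_and]
    funext z
    rcases Fin.eq_self_or_eq_succAbove i' z with rfl | ⟨z, rfl⟩
    · by_cases h : mv <;> simp [h]
    · by_cases h : mv
      · by_cases hz : z = i
        · subst hz
          simp [h]
        · simp [h, hz]
      · simp [h]
  · funext z c
    rcases Fin.eq_self_or_eq_succAbove i' z with rfl | ⟨z, rfl⟩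
    · simp
    · by_cases h : mv
      · by_cases hz : z = i
        · subst hz
          simp [h]
        · simp [h, hz]
      · simp [h]

theorem monoS_cons_L1m (m : Mol k n) (t : Multiset (Mol k n)) :
    monoS (m ::ₘ t) = X m * monoS t := by
  simp [monoS]

theorem smul_mem_L1m {I : Ideal (AA k n)} (c : ℂ) {p : AA k n} (h : p ∈ I) : c • p ∈ I :=
  Submodule.smul_of_tower_mem I c h

theorem ot_Th [Fintype M] [DecidableEq M] (i' : Fin (n + 1)) (i : Fin n) (s : Fin k → ℕ)
    (f : M → Sk k n) (hf : ∀ m, (f m).Valid) (x : Arr k n (M × Fin k)) :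
    ot i' i s (Th f x) =
      ∑ y, coef s (x i) y • ∑ W ∈ (univ.filter (fun m => (f m).sep i ≠ 1)).powerset,
        Th (insF i' i W f) (act (sWG i' i W f) (insArr i' x y)) := by
  unfold Th ThA
  rw [map_prod, Finset.prod_congr rfl fun m _ => ot_X_L1m i' i s (mol f x m) (hf m),
    Finset.prod_univ_sum, Fintype.piFinset_univ]
  refine (Fintype.sum_equiv (Equiv.curry M (Fin k) (Fin k)) _ _ fun y => ?_).symm
  rw [Finset.prod_smul, prod_add_L1m (univ.filter (fun m => (f m).sep i ≠ 1))]
  · congr 1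
    · unfold coef
      rw [Fintype.prod_prod_type]
      rfl
    · refine Finset.sum_congr rfl fun W hW => Finset.prod_congr rfl fun m _ => ?_
      rw [mol_ins_L1m]
      by_cases hm : m ∈ W
      · have h1 : (mol f x m).1.sep i ≠ 1 := (mem_filter.1 (mem_powerset.1 hW hm)).2
        rw [if_pos hm, if_neg h1, insMol_pos_L1m _ _ _ hm]
        rfl
      · rw [if_neg hm, insMol_neg_L1m _ _ _ hm]
        rfl
  · intro m hm
    refine if_pos ?_
    by_contra h
    exact hm (mem_filter.2 ⟨mem_univ _, h⟩)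

theorem ot_app [Fintype M] [DecidableEq M] (i' : Fin (n + 1)) (i : Fin n) (s : Fin k → ℕ)
    (f : M → Sk k n) (hf : ∀ m, (f m).Valid) (x : Arr k n (M × Fin k)) (T : GA n (M × Fin k)) :
    ot i' i s (app (Th f) x T) =
      ∑ y, coef s (x i) y • ∑ W ∈ (univ.filter (fun m => (f m).sep i ≠ 1)).powerset,
        app (Th (insF i' i W f)) (insArr i' x y) (og (sWG i' i W f) * insA i' i T) := by
  have h1 := map_app (ot i' i s).toLinearMap (Th f) x T
  rw [AlgHom.toLinearMap_apply] at h1
  rw [h1, app_insA i' i s _ (fun x' => ∑ W ∈ (univ.filter (fun m => (f m).sep i ≠ 1)).powerset,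
    (1 : ℂ) • Th (insF i' i W f) (act (sWG i' i W f) x'))
    (fun x => by simpa only [one_smul, AlgHom.toLinearMap_apply] using ot_Th i' i s f hf x)]
  refine Finset.sum_congr rfl fun y _ => ?_
  rw [app_sum]
  congr 1
  refine Finset.sum_congr rfl fun W _ => ?_
  rw [one_smul, app_og_mul]

theorem ot_X_invalid (i' : Fin (n + 1)) (i : Fin n) (s : Fin k → ℕ) (m : Mol k n)
    (h : ¬ m.1.Valid) : ot i' i s (X m) = 0 := by
  unfold ot
  rw [aeval_X, if_neg h]

theorem ot_homog (i' : Fin (n + 1)) (i : Fin n) (s : Fin k → ℕ) (h : FF k n) (β : Fin k → ℕ)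
    (hh : IsWeightedHomogeneous wtM h β) : IsWeightedHomogeneous wtM (ot i' i s h) β := by
  have hX : ∀ m : Mol k n, IsWeightedHomogeneous wtM (ot i' i s (X m)) (wtM m) := by
    intro m
    by_cases hm : m.1.Valid
    · rw [ot_X_L1m i' i s m hm, ← mem_weightedHomogeneousSubmodule]
      refine Submodule.sum_mem _ fun y _ => Submodule.smul_mem _ _ (Submodule.add_mem _ ?_ ?_)
      · exact isWeightedHomogeneous_X ℂ wtM (insMol i' i False m y)
      · split_ifs
        · exact Submodule.zero_mem _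
        · exact isWeightedHomogeneous_X ℂ wtM (insMol i' i True m y)
    · rw [ot_X_invalid i' i s m hm]
      exact isWeightedHomogeneous_zero _ _ _
  have hS : ∀ t : Multiset (Mol k n), IsWeightedHomogeneous wtM (ot i' i s (monoS t)) (bdeg t) := by
    intro t
    induction t using Multiset.induction_on with
    | empty =>
      rw [monoS_zero, map_one]
      exact isWeightedHomogeneous_one _ _
    | cons m t ih =>
      have e : bdeg (m ::ₘ t) = wtM m + bdeg t := by simp [bdeg]
      rw [monoS_cons_L1m, map_mul, e]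
      exact (hX m).mul ih
  refine FF_induction_homog (p := fun h => IsWeightedHomogeneous wtM (ot i' i s h) β) β h hh
    (fun t ht => ht ▸ hS t) ?_ (fun a b ha hb => ?_) (fun c a ha => ?_)
  · rw [map_zero]
    exact isWeightedHomogeneous_zero _ _ _
  · rw [map_add]
    exact ha.add hb
  · rw [map_smul, ← mem_weightedHomogeneousSubmodule]
    exact Submodule.smul_mem _ _ ha

theorem ot_relF (i' : Fin (n + 1)) (i : Fin n) (s : Fin k → ℕ) (γ : Fin k → Perm (Fin k))
    (hγ : γ ∈ GamF k) (h : FF k n) : ot i' i s (relF γ h) = relF γ (ot i' i s h) := by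
  have key : (ot i' i s).comp (relF γ) = (relF γ).comp (ot i' i s) := by
    refine MvPolynomial.algHom_ext fun m => ?_
    have hv : (relM γ m).1.Valid ↔ m.1.Valid := relS_valid _ _ ((mem_GamF γ).1 hγ _)
    rw [AlgHom.comp_apply, AlgHom.comp_apply]
    have e0 : ∀ {n' : ℕ} (a : Mol k n'), relF γ (X a) = X (relM γ a) := fun a => rename_X _ _
    rw [e0]
    by_cases hm : m.1.Valid
    · rw [ot_X_L1m i' i s _ (hv.2 hm), ot_X_L1m i' i s _ hm, map_sum]
      refine (Fintype.sum_equiv (Equiv.arrowCongr (γ m.1.cls) (Equiv.refl _)) _ _ fun y => ?_).symm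
      have e1 : coef s ((relM γ m).2 i) (Equiv.arrowCongr (γ m.1.cls) (Equiv.refl _) y) =
          coef s (m.2 i) y :=
        Equiv.prod_comp (γ m.1.cls)⁻¹ (fun c => lc s (m.2 i c) (y c))
      have e2 : ∀ (mv : Prop) [Decidable mv], relM γ (insMol i' i mv m y) =
          insMol i' i mv (relM γ m) (Equiv.arrowCongr (γ m.1.cls) (Equiv.refl _) y) :=
        fun mv _ => relM_ins_L1m i' i mv (γ m.1.cls) m y
      have e3 : (relM γ m).1.sep i = 1 ↔ m.1.sep i = 1 := by
        change γ m.1.cls * m.1.sep i * (γ m.1.cls)⁻¹ = 1 ↔ _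
        simp
      rw [map_smul, map_add, e0, e1, e2]
      by_cases h1 : m.1.sep i = 1
      · rw [if_pos h1, if_pos (e3.2 h1), map_zero]
      · rw [if_neg h1, if_neg (fun h => h1 (e3.1 h)), e0, e2]
    · rw [ot_X_invalid i' i s _ hm, ot_X_invalid i' i s _ (fun h => hm (hv.1 h)), map_zero]
  exact DFunLike.congr_fun key h

theorem ot_pure (i' : Fin (n + 1)) (i : Fin n) (s : Fin k → ℕ) (j : Fin k)
    (t : Multiset (Mol k n)) (ht : MsOK j t) : ot i' i s (monoS t) ∈ Pure (n + 1) j := by
  induction t using Multiset.induction_on with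
  | empty =>
    rw [monoS_zero, map_one]
    exact Submodule.subset_span ⟨0, fun m hm => absurd hm (Multiset.notMem_zero m), monoS_zero.symm⟩
  | cons m t ih =>
    have hm := ht m (Multiset.mem_cons_self m t)
    have hX : ∀ (mv : Prop) [Decidable mv] (y : Fin k → Fin k),
        X (insMol i' i mv m y) ∈ Pure (n + 1) j := by
      intro mv _ y
      refine Submodule.subset_span ⟨{insMol i' i mv m y}, fun a ha => ?_, (monoS_singleton _).symm⟩
      rw [Multiset.mem_singleton.1 ha]
      exact ⟨insSk_valid i' i mv m.1 hm.1, hm.2⟩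
    rw [monoS_cons_L1m, map_mul]
    refine Pure_mul j _ _ ?_ (ih fun a ha => ht a (Multiset.mem_cons_of_mem ha))
    rw [ot_X_L1m i' i s m hm.1]
    refine Submodule.sum_mem _ fun y _ => Submodule.smul_mem _ _ (Submodule.add_mem _ (hX _ y) ?_)
    split_ifs
    · exact Submodule.zero_mem _
    · exact hX _ y

theorem psi_Err (i' : Fin (n + 1)) (i : Fin n) (s : Fin k → ℕ) (j : Fin k) (p : AA k n)
    (hp : p ∈ Err n j) : psi i' i s p ∈ Err (n + 1) j := by
  have key : Err n j ≤ (Err (n + 1) j).comap (psi i' i s) := by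
    refine sup_le (fun q hq => ?_) (Ideal.span_le.2 ?_)
    · exact Ideal.mem_comap.2 (Ideal.mem_sup_left (psi_JJ i' i s _ q hq))
    · rintro _ ⟨m, hv, hc, rfl⟩
      refine Ideal.mem_comap.2 ?_
      have h1 := psi_EE (M := Unit) m.1.cls i' i s (fun _ => m.1) [] (by simp)
        (arrOf (fun _ => m))
      have h2 : (sc s ^ (Fintype.card Unit * (k - (m.1.cls.val + 1)))) • psi i' i s (Ev1 m) ∈
          Err (n + 1) j := by
        refine h1 ▸ ?_
        refine Ideal.sum_mem _ fun y _ => smul_mem_L1m _ (Ideal.sum_mem _ fun W _ => ?_)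
        refine Ideal.mem_sup_right (Ideal.subset_span
          ⟨mol (insF i' i W fun _ => m.1) (act (sWG i' i W fun _ => m.1)
            (insArr i' (arrOf fun _ => m) y)) (), insSk_valid i' i _ m.1 hv, hc, rfl⟩)
      have h3 := smul_mem_L1m (sc s ^ (Fintype.card Unit * (k - (m.1.cls.val + 1))))⁻¹ h2
      rwa [inv_smul_smul₀ (pow_ne_zero _ (sc_ne_zero s))] at h3
  exact Ideal.mem_comap.1 (key hp)

theorem evC_ot (i' : Fin (n + 1)) (i : Fin n) (s : Fin k → ℕ) (j : Fin k)
    (t : Multiset (Mol k n)) (ht : MsOK j t) :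
    linF (evC j) (ot i' i s (monoS t)) -
      (sc s ^ (Multiset.card t * (k - (j.val + 1)))) • psi i' i s (evC j t) ∈ Err (n + 1) j := by
  have hs : SysOK j univ (fun a => (t.toList.get a).1) :=
    fun a _ => ht _ (Multiset.mem_toList.1 (List.get_mem _ a))
  obtain ⟨Λ, hΛ, hd⟩ := exists_good' j univ _ hs {i} (by
    have h1 := nuC_pos k j
    have h2 := nuC_le_LB j
    rw [card_singleton]
    omega)
  have hi : ∀ l ∈ Λ, i ∉ l.cols := fun l hl => Finset.disjoint_singleton_right.1 (hd l hl)
  have h1 := psi_EE j i' i s (fun a => (t.toList.get a).1) Λ hi (arrOf t.toList.get)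
  have e0 : Fintype.card (Fin t.toList.length) = Multiset.card t := by
    rw [Fintype.card_fin, Multiset.length_toList]
  rw [e0] at h1
  have h2 := psi_Err i' i s j _ (evC_spec hs Λ (hΛ.mono (by norm_num)) (arrOf t.toList.get))
  rw [map_mol_toList, map_sub] at h2
  have h3 : linF (evC j) (ot i' i s (monoS t)) -
      (sc s ^ (Multiset.card t * (k - (j.val + 1)))) • psi i' i s
        (EE j univ (fun a => (t.toList.get a).1) (idL j Λ) (arrOf t.toList.get)) ∈
      Err (n + 1) j := by
    rw [h1, monoS_eq_Th t, ot_Th i' i s _ (fun a => (hs a (mem_univ a)).1), map_sum,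
      ← Finset.sum_sub_distrib]
    refine Ideal.sum_mem _ fun y _ => ?_
    rw [map_smul, ← smul_sub, map_sum, ← Finset.sum_sub_distrib]
    refine smul_mem_L1m _ (Ideal.sum_mem _ fun W _ => ?_)
    unfold Th
    rw [ThA_eq_monoS, linF_monoS]
    exact evC_spec (fun a ha => ⟨insSk_valid i' i _ _ (hs a ha).1, (hs a ha).2⟩) _
      ((hΛ.ins i' i hi W).mono (by norm_num)) _
  have h4 := Ideal.sub_mem _ h3 (smul_mem_L1m (sc s ^ (Multiset.card t * (k - (j.val + 1)))) h2)
  rw [smul_sub] at h4
  have e : ∀ a b c : AA k (n + 1), a - b - (c - b) = a - c := fun a b c => by ring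
  rwa [e] at h4

end Pool.Agent.Lib.MP_595dc0_ag.Dk
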