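import Mathlib
import Pool.Agent.Lib.MP_595dc0_ag.DkL1l

set_option autoImplicit false

namespace Pool.Agent.Lib.MP_595dc0_ag.Dk

open Equiv Finset MvPolynomial

variable {k n : ℕ}

theorem dkl1n_blt_iff (β β' : Fin k → ℕ) :
    blt β β' ↔ ∃ i, (∀ j, i < j → β j = β' j) ∧ β i < β' i := by
  constructor
  · rintro ⟨i, h1, h2⟩
    refine ⟨i.rev, fun j hj => ?_, h2⟩
    have := h1 j.rev (Fin.rev_lt_iff.2 hj)
    simpa using this
  · rintro ⟨i, h1, h2⟩
    refine ⟨i.rev, fun j hj => h1 _ (Fin.lt_rev_iff.1 hj), ?_⟩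
    simpa using h2

theorem blt_add {β β' : Fin k → ℕ} (h : blt β β') (γ : Fin k → ℕ) : blt (β + γ) (β' + γ) := by
  obtain ⟨i, h1, h2⟩ := (dkl1n_blt_iff _ _).1 h
  refine (dkl1n_blt_iff _ _).2 ⟨i, fun j hj => ?_, Nat.add_lt_add_right h2 _⟩
  rw [Pi.add_apply, Pi.add_apply, h1 j hj]

theorem blt_trans {β β' β'' : Fin k → ℕ} (h : blt β β') (h' : blt β' β'') : blt β β'' := by
  exact lt_trans h h'

theorem blt_trichotomy (β β' : Fin k → ℕ) : blt β β' ∨ β = β' ∨ blt β' β := by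
  rcases lt_trichotomy (toLex fun j => β (Fin.rev j)) (toLex fun j => β' (Fin.rev j)) with
    h | h | h
  · exact Or.inl h
  · refine Or.inr (Or.inl (funext fun j => ?_))
    have := congrFun (toLex.injective h) j.rev
    simpa using this
  · exact Or.inr (Or.inr h)

theorem blt_irrefl (β : Fin k → ℕ) : ¬ blt β β := by
  exact lt_irrefl _

theorem blt_add_self (β γ : Fin k → ℕ) (h : γ ≠ 0) : blt β (β + γ) := by
  have hne : (univ.filter fun j => γ j ≠ 0).Nonempty := by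
    obtain ⟨j, hj⟩ := Function.ne_iff.1 h
    exact ⟨j, Finset.mem_filter.2 ⟨Finset.mem_univ _, hj⟩⟩
  obtain ⟨i, hi, hmax⟩ := Finset.exists_max_image _ id hne
  refine (dkl1n_blt_iff _ _).2 ⟨i, fun j hj => ?_, ?_⟩
  · have : γ j = 0 := by
      by_contra h0
      exact absurd (hmax j (Finset.mem_filter.2 ⟨Finset.mem_univ _, h0⟩)) (not_le.2 hj)
    rw [Pi.add_apply, this, add_zero]
  · exact Nat.lt_add_of_pos_right (Nat.pos_of_ne_zero (Finset.mem_filter.1 hi).2)

theorem blt_single (j j' : Fin k) (h : j < j') (b : ℕ) : blt (Pi.single j b) (Pi.single j' 1) := by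
  refine (dkl1n_blt_iff _ _).2 ⟨j', fun i hi => ?_, ?_⟩
  · rw [Pi.single_eq_of_ne (h.trans hi).ne', Pi.single_eq_of_ne hi.ne']
  · rw [Pi.single_eq_of_ne h.ne', Pi.single_eq_same]
    exact Nat.one_pos

theorem dg_add (β β' : Fin k → ℕ) : dg (β + β') = dg β + dg β' := by
  simp only [dg, Pi.add_apply, mul_add, Finset.sum_add_distrib]

theorem finite_dg_le (d : ℕ) : {β : Fin k → ℕ | dg β ≤ d}.Finite := by
  refine (Set.finite_Iic (fun _ : Fin k => d)).subset fun β hβ j => ?_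
  have h1 : (j.val + 1) * β j ≤ dg β :=
    Finset.single_le_sum (f := fun j : Fin k => (j.val + 1) * β j) (fun _ _ => Nat.zero_le _)
      (Finset.mem_univ j)
  have h2 : dg β ≤ d := hβ
  have h3 : β j ≤ (j.val + 1) * β j := Nat.le_mul_of_pos_left _ (Nat.succ_pos _)
  exact h3.trans (h1.trans h2)

theorem Gen_homog (β : Fin k → ℕ) (p : AA k n) (hp : p ∈ Gen n β) : p.IsHomogeneous (dg β) := by
  obtain ⟨L, rfl, rfl⟩ := hp
  induction L with
  | nil => simpa [dg] using isHomogeneous_one (Fin n → Fin k) ℂ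
  | cons a L ih =>
    rw [List.map_cons, List.map_cons, List.prod_cons, List.sum_cons, dg_add]
    exact (evM_homog a).mul ih

theorem evM_mem_GI (s : Multiset (Mol k n)) : evM s ∈ GI n (bdeg s) := by
  exact Ideal.subset_span ⟨[s], by simp, by simp⟩

theorem one_mem_GI : (1 : AA k n) ∈ GI n 0 := by
  exact Ideal.subset_span ⟨[], rfl, rfl⟩

theorem GI_mul {β β' : Fin k → ℕ} {p q : AA k n} (hp : p ∈ GI n β) (hq : q ∈ GI n β') :
    p * q ∈ GI n (β + β') := by
  have h := Ideal.mul_mem_mul hp hq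
  rw [GI, GI, Ideal.span_mul_span'] at h
  refine Ideal.span_mono ?_ h
  rintro _ ⟨_, ⟨L, rfl, rfl⟩, _, ⟨L', rfl, rfl⟩, rfl⟩
  exact ⟨L ++ L', by simp, by simp⟩

theorem JJ_le_Hi (β : Fin k → ℕ) : JJ k n (D0 k) ≤ Hi n β := by
  exact le_sup_left

theorem GI_le_Hi {β β' : Fin k → ℕ} (h : blt β β') : GI n β' ≤ Hi n β := by
  exact le_sup_of_le_right (le_iSup₂_of_le β' h le_rfl)

theorem Hi_anti {β β' : Fin k → ℕ} (h : blt β β') : Hi n β' ≤ Hi n β := by
  exact sup_le (JJ_le_Hi β) (iSup₂_le fun _ h' => GI_le_Hi (blt_trans h h'))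

theorem Hi_mul_GI {β β' : Fin k → ℕ} {p q : AA k n} (hp : p ∈ Hi n β) (hq : q ∈ GI n β') :
    p * q ∈ Hi n (β + β') := by
  have h : Hi n β ≤ (Hi n (β + β')).colon {q} := by
    refine sup_le (fun p hp => ?_) (iSup₂_le fun β'' hb p hp => ?_)
    · exact Submodule.mem_colon_singleton.2 (Ideal.mul_mem_right _ _ (JJ_le_Hi _ hp))
    · exact Submodule.mem_colon_singleton.2 (GI_le_Hi (blt_add hb β') (GI_mul hp hq))
  exact Submodule.mem_colon_singleton.1 (h hp)

theorem dkl1n_Hi_Hi {β β' : Fin k → ℕ} {p q : AA k n} (hp : p ∈ Hi n β) (hq : q ∈ Hi n β') :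
    p * q ∈ Hi n (β + β') := by
  have h : Hi n β ≤ (Hi n (β + β')).colon {q} := by
    refine sup_le (fun p hp => ?_) (iSup₂_le fun β'' hb p hp => ?_)
    · exact Submodule.mem_colon_singleton.2 (Ideal.mul_mem_right _ _ (JJ_le_Hi _ hp))
    · have h1 := Hi_mul_GI hq hp
      rw [mul_comm, add_comm] at h1
      exact Submodule.mem_colon_singleton.2 (Hi_anti (blt_add hb β') h1)
  exact Submodule.mem_colon_singleton.1 (h hp)

theorem Hi_mul {β β' : Fin k → ℕ} {p q : AA k n} (hp : p ∈ Hi n β)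
    (hq : q ∈ GI n β' ⊔ Hi n β') : p * q ∈ Hi n (β + β') := by
  obtain ⟨a, ha, b, hb, rfl⟩ := Submodule.mem_sup.1 hq
  rw [mul_add]
  exact add_mem (Hi_mul_GI hp ha) (dkl1n_Hi_Hi hp hb)

theorem fil_mul {β β' : Fin k → ℕ} {p q : AA k n} (hp : p ∈ GI n β ⊔ Hi n β)
    (hq : q ∈ GI n β' ⊔ Hi n β') : p * q ∈ GI n (β + β') ⊔ Hi n (β + β') := by
  obtain ⟨a, ha, b, hb, rfl⟩ := Submodule.mem_sup.1 hp
  rw [add_mul]
  refine add_mem ?_ (Submodule.mem_sup_right (Hi_mul hb hq))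
  obtain ⟨c, hc, d, hd, rfl⟩ := Submodule.mem_sup.1 hq
  rw [mul_add]
  refine add_mem (Submodule.mem_sup_left (GI_mul ha hc)) (Submodule.mem_sup_right ?_)
  rw [mul_comm, add_comm]
  exact Hi_mul_GI hd ha

theorem Err_le_Hi (j : Fin k) (b : ℕ) : Err n j ≤ Hi n (Pi.single j b) := by
  refine sup_le (JJ_le_Hi _) (Ideal.span_le.2 ?_)
  rintro _ ⟨m, hm, hc, rfl⟩
  have hs : MsOK m.1.cls {m} := fun a ha => by
    rw [Multiset.mem_singleton.1 ha]
    exact ⟨hm, rfl⟩
  have h1 := evM_mem_GI ({m} : Multiset (Mol k n))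
  rw [evM_of_MsOK _ _ hs, evC_single, bdeg_of_MsOK _ _ hs, Multiset.card_singleton] at h1
  exact GI_le_Hi (blt_single j m.1.cls (by rw [Fin.lt_def, hc]; exact Nat.lt_succ_self _) b) h1

theorem dkl1n_prod_fil {ι : Type} (S : Finset ι) (β : ι → Fin k → ℕ) (q : ι → AA k n)
    (hq : ∀ i ∈ S, q i ∈ GI n (β i) ⊔ Hi n (β i)) :
    ∏ i ∈ S, q i ∈ GI n (∑ i ∈ S, β i) ⊔ Hi n (∑ i ∈ S, β i) := by
  classical
  induction S using Finset.induction_on with
  | empty => exact Submodule.mem_sup_left one_mem_GI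
  | insert a S ha ih =>
    rw [Finset.prod_insert ha, Finset.sum_insert ha]
    exact fil_mul (hq a (Finset.mem_insert_self _ _))
      (ih fun i hi => hq i (Finset.mem_insert_of_mem hi))

theorem prod_sub_prod_mem {ι : Type} (S : Finset ι) (β : ι → Fin k → ℕ) (p q : ι → AA k n)
    (hq : ∀ i ∈ S, q i ∈ GI n (β i) ⊔ Hi n (β i)) (h : ∀ i ∈ S, p i - q i ∈ Hi n (β i)) :
    ∏ i ∈ S, p i - ∏ i ∈ S, q i ∈ Hi n (∑ i ∈ S, β i) := by
  classical
  induction S using Finset.induction_on with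
  | empty => simp
  | insert a S ha ih =>
    have hqS := fun i hi => hq i (Finset.mem_insert_of_mem hi)
    have ih' := ih hqS fun i hi => h i (Finset.mem_insert_of_mem hi)
    have ha1 := h a (Finset.mem_insert_self _ _)
    have ha2 : p a ∈ GI n (β a) ⊔ Hi n (β a) := by
      have := add_mem (Submodule.mem_sup_right ha1) (hq a (Finset.mem_insert_self _ _))
      rwa [sub_add_cancel] at this
    rw [Finset.prod_insert ha, Finset.prod_insert ha, Finset.sum_insert ha,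
      show p a * ∏ i ∈ S, p i - q a * ∏ i ∈ S, q i =
        (∏ i ∈ S, p i - ∏ i ∈ S, q i) * p a + (p a - q a) * ∏ i ∈ S, q i by ring]
    refine add_mem ?_ (Hi_mul ha1 (dkl1n_prod_fil S β q hqS))
    rw [add_comm (β a)]
    exact Hi_mul ih' ha2

theorem prod_classes_sub_mem (β : Fin k → ℕ) (p q : Fin k → AA k n)
    (hq : ∀ j, q j ∈ GI n (Pi.single j (β j)) ⊔ Hi n (Pi.single j (β j)))
    (h : ∀ j, p j - q j ∈ Err n j) : ∏ j, p j - ∏ j, q j ∈ Hi n β := by
  have := prod_sub_prod_mem univ (fun j => Pi.single j (β j)) p q (fun j _ => hq j)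
    fun j _ => Err_le_Hi j _ (h j)
  rwa [Finset.univ_sum_single] at this

theorem prod_classes_mem (β : Fin k → ℕ) (p : Fin k → AA k n) (j₀ : Fin k)
    (hp : ∀ j, j ≠ j₀ → p j ∈ GI n (Pi.single j (β j))) (h : p j₀ ∈ Err n j₀) :
    ∏ j, p j ∈ Hi n β := by
  have h1 := Hi_mul (Err_le_Hi j₀ (β j₀) h) (dkl1n_prod_fil (univ.erase j₀)
    (fun j => Pi.single j (β j)) p fun j hj =>
      Submodule.mem_sup_left (hp j (Finset.ne_of_mem_erase hj)))
  rwa [Finset.mul_prod_erase _ _ (Finset.mem_univ j₀),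
    Finset.add_sum_erase _ (fun j => Pi.single j (β j)) (Finset.mem_univ j₀),
    Finset.univ_sum_single] at h1

theorem evC_mem_GI (j : Fin k) (s : Multiset (Mol k n)) (hs : MsOK j s) :
    evC j s ∈ GI n (Pi.single j (Multiset.card s)) := by
  rw [← evM_of_MsOK j s hs, ← bdeg_of_MsOK j s hs]
  exact evM_mem_GI s

theorem ev_mem_GI (β : Fin k → ℕ) (h : FF k n) (hh : IsWeightedHomogeneous wtM h β) :
    ev h ∈ GI n β := by
  refine FF_induction_homog (p := fun h => ev h ∈ GI n β) β h hh (fun s hs => ?_) ?_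
    (fun a b ha hb => ?_) fun c a ha => ?_
  · rw [ev, linF_monoS, ← hs]
    exact evM_mem_GI s
  · rw [map_zero]
    exact zero_mem _
  · rw [map_add]
    exact add_mem ha hb
  · rw [map_smul]
    exact Submodule.smul_of_tower_mem _ c ha

end Pool.Agent.Lib.MP_595dc0_ag.Dk
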