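import Mathlib
import Pool.Agent.Lib.MP_595dc0_ag.DkL1j
import Pool.Agent.Lib.MP_595dc0_ag.DkL1m
import Pool.Agent.Lib.MP_595dc0_ag.DkL1n

set_option autoImplicit false

namespace Pool.Agent.Lib.MP_595dc0_ag.Dk

open Equiv Finset MvPolynomial

variable {k n : ℕ}

namespace L1oAux

theorem ev_monoS (s : Multiset (Mol k n)) : ev (monoS s) = evM s := linF_monoS _ s

theorem evM_valid {s : Multiset (Mol k n)} (h : ∀ m ∈ s, m.1.Valid) :
    evM s = ∏ j, evC j (s.filter (fun m => m.1.cls = j)) := by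
  unfold evM
  rw [if_pos h]

theorem evM_invalid {s : Multiset (Mol k n)} (h : ¬ ∀ m ∈ s, m.1.Valid) : evM s = 0 := by
  unfold evM
  rw [if_neg h]

theorem msOK_filter {s : Multiset (Mol k n)} (h : ∀ m ∈ s, m.1.Valid) (j : Fin k) :
    MsOK j (s.filter (fun m => m.1.cls = j)) := fun m hm =>
  ⟨h m (Multiset.mem_filter.1 hm).1, (Multiset.mem_filter.1 hm).2⟩

theorem filter_map_relM (γ : Fin k → Perm (Fin k)) (s : Multiset (Mol k n)) (j : Fin k) :
    (s.map (relM γ)).filter (fun m => m.1.cls = j) =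
      (s.filter (fun m => m.1.cls = j)).map (relM1 (γ j)) := by
  rw [Multiset.filter_map]
  refine Multiset.map_congr rfl fun m hm => ?_
  have h : m.1.cls = j := (Multiset.mem_filter.1 hm).2
  rw [relM, h]

theorem valid_map_relM {γ : Fin k → Perm (Fin k)} (hγ : γ ∈ GamF k) (s : Multiset (Mol k n)) :
    (∀ m ∈ s.map (relM γ), m.1.Valid) ↔ ∀ m ∈ s, m.1.Valid := by
  have h1 : ∀ m : Mol k n, (relM γ m).1.Valid ↔ m.1.Valid := fun m =>
    relS_valid _ m.1 ((mem_GamF γ).1 hγ _)
  constructor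
  · exact fun h m hm => (h1 m).1 (h _ (Multiset.mem_map_of_mem _ hm))
  · intro h m hm
    obtain ⟨m', hm', rfl⟩ := Multiset.mem_map.1 hm
    exact (h1 m').2 (h m' hm')

theorem evC_filter_mem {s : Multiset (Mol k n)} (h : ∀ m ∈ s, m.1.Valid) (j : Fin k) :
    evC j (s.filter (fun m => m.1.cls = j)) ∈ GI n (Pi.single j (bdeg s j)) := by
  rw [bdeg_apply]
  exact evC_mem_GI j _ (msOK_filter h j)

theorem linF_eq_ev (j : Fin k) (p : FF k n) (hp : p ∈ Pure n j) : linF (evC j) p = ev p := by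
  induction hp using Submodule.span_induction with
  | mem p hp =>
    obtain ⟨s, hs, rfl⟩ := hp
    rw [linF_monoS, ev_monoS, evM_of_MsOK j s hs]
  | zero => rw [map_zero, map_zero]
  | add a b _ _ ha hb => rw [map_add, map_add, ha, hb]
  | smul c a _ ha => rw [map_smul, map_smul, ha]

theorem prod_mono (s t : Multiset (Mol k n)) :
    ∑ γ ∈ GamF k, ev (relF γ (monoS s) * monoS t) -
      (∏ j, kap j (bdeg s j) (bdeg t j)) • (ev (monoS s) * ev (monoS t)) ∈
      Hi n (bdeg s + bdeg t) := by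
  simp only [relF_monoS, ← monoS_add, ev_monoS]
  by_cases hv : (∀ m ∈ s, m.1.Valid) ∧ ∀ m ∈ t, m.1.Valid
  · obtain ⟨hs, ht⟩ := hv
    have e1 : ∀ γ ∈ GamF k, evM (s.map (relM γ) + t) =
        ∏ j, evC j ((s.filter (fun m => m.1.cls = j)).map (relM1 (γ j)) +
          t.filter (fun m => m.1.cls = j)) := by
      intro γ hγ
      rw [evM_valid]
      · simp only [Multiset.filter_add, filter_map_relM]
      · intro m hm
        rcases Multiset.mem_add.1 hm with hm | hm
        · exact (valid_map_relM hγ s).2 hs m hm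
        · exact ht m hm
    rw [sum_congr rfl e1, GamF, ← Finset.prod_univ_sum GamJ (fun j π => evC j
      ((s.filter (fun m => m.1.cls = j)).map (relM1 π) + t.filter (fun m => m.1.cls = j))),
      evM_valid hs, evM_valid ht, ← prod_mul_distrib, ← Finset.prod_smul]
    refine prod_classes_sub_mem _ _ _ (fun j => Ideal.mem_sup_left ?_) fun j => ?_
    · refine Submodule.smul_of_tower_mem _ _ ?_
      rw [Pi.add_apply, Pi.single_add]
      exact GI_mul (evC_filter_mem hs j) (evC_filter_mem ht j)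
    · rw [bdeg_apply, bdeg_apply]
      exact evC_prod j _ _ (msOK_filter hs j) (msOK_filter ht j)
  · have e1 : ∀ γ ∈ GamF k, evM (s.map (relM γ) + t) = 0 := by
      intro γ hγ
      refine evM_invalid fun h => hv ⟨(valid_map_relM hγ s).1 fun m hm => ?_, fun m hm => ?_⟩
      · exact h m (Multiset.mem_add.2 (Or.inl hm))
      · exact h m (Multiset.mem_add.2 (Or.inr hm))
    have e2 : evM s * evM t = 0 := by
      rcases not_and_or.1 hv with h | h
      · rw [evM_invalid h, zero_mul]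
      · rw [evM_invalid h, mul_zero]
    rw [sum_eq_zero e1, e2, smul_zero, sub_zero]
    exact zero_mem _

end L1oAux

theorem ev_relF (β : Fin k → ℕ) (h : FF k n) (hh : IsWeightedHomogeneous wtM h β)
    (γ : Fin k → Perm (Fin k)) (hγ : γ ∈ GamF k) : ev (relF γ h) - ev h ∈ Hi n β := by
  refine FF_induction_homog (p := fun h => ev (relF γ h) - ev h ∈ Hi n β) β h hh ?_ ?_ ?_ ?_
  · rintro s rfl
    rw [relF_monoS, L1oAux.ev_monoS, L1oAux.ev_monoS]
    by_cases hv : ∀ m ∈ s, m.1.Valid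
    · rw [L1oAux.evM_valid hv, L1oAux.evM_valid ((L1oAux.valid_map_relM hγ s).2 hv)]
      refine prod_classes_sub_mem _ _ _
        (fun j => Ideal.mem_sup_left (L1oAux.evC_filter_mem hv j)) fun j => ?_
      rw [L1oAux.filter_map_relM]
      exact evC_rel j _ (L1oAux.msOK_filter hv j) _ ((mem_GamF γ).1 hγ j)
    · rw [L1oAux.evM_invalid hv,
        L1oAux.evM_invalid fun h => hv ((L1oAux.valid_map_relM hγ s).1 h), sub_zero]
      exact zero_mem _
  · simp
  · intro a b ha hb
    simp only [map_add]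
    rw [add_sub_add_comm]
    exact add_mem ha hb
  · intro c a ha
    simp only [map_smul]
    rw [← smul_sub]
    exact Submodule.smul_of_tower_mem _ _ ha

theorem ev_prod (β β' : Fin k → ℕ) (b h : FF k n) (hb : IsWeightedHomogeneous wtM b β)
    (hh : IsWeightedHomogeneous wtM h β') :
    ∑ γ ∈ GamF k, ev (relF γ b * h) - (∏ j, kap j (β j) (β' j)) • (ev b * ev h) ∈
      Hi n (β + β') := by
  refine FF_induction_homog (p := fun b => ∑ γ ∈ GamF k, ev (relF γ b * h) -
    (∏ j, kap j (β j) (β' j)) • (ev b * ev h) ∈ Hi n (β + β')) β b hb ?_ ?_ ?_ ?_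
  · rintro s rfl
    refine FF_induction_homog (p := fun h => ∑ γ ∈ GamF k, ev (relF γ (monoS s) * h) -
      (∏ j, kap j (bdeg s j) (β' j)) • (ev (monoS s) * ev h) ∈ Hi n (bdeg s + β')) β' h hh
      ?_ ?_ ?_ ?_
    · rintro t rfl
      exact L1oAux.prod_mono s t
    · simp
    · intro a b ha hb
      simp only [map_add, mul_add, sum_add_distrib, smul_add]
      rw [add_sub_add_comm]
      exact add_mem ha hb
    · intro c a ha
      simp only [map_smul, mul_smul_comm]
      rw [← smul_sum, smul_comm _ c, ← smul_sub]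
      exact Submodule.smul_of_tower_mem _ _ ha
  · simp
  · intro a b ha hb
    simp only [map_add, add_mul, sum_add_distrib, smul_add]
    rw [add_sub_add_comm]
    exact add_mem ha hb
  · intro c a ha
    simp only [map_smul, smul_mul_assoc]
    rw [← smul_sum, smul_comm _ c, ← smul_sub]
    exact Submodule.smul_of_tower_mem _ _ ha

theorem ev_ot (i' : Fin (n + 1)) (i : Fin n) (s : Fin k → ℕ) (β : Fin k → ℕ) (h : FF k n)
    (hh : IsWeightedHomogeneous wtM h β) :
    ev (ot i' i s h) - (sc s ^ (∑ j, β j * (k - (j.val + 1)))) • psi i' i s (ev h) ∈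
      Hi (n + 1) β := by
  refine FF_induction_homog (p := fun h => ev (ot i' i s h) -
    (sc s ^ (∑ j, β j * (k - (j.val + 1)))) • psi i' i s (ev h) ∈ Hi (n + 1) β) β h hh ?_ ?_ ?_ ?_
  · rintro t rfl
    rw [L1oAux.ev_monoS]
    by_cases hv : ∀ m ∈ t, m.1.Valid
    · have hp := fun j => ot_pure i' i s j _ (L1oAux.msOK_filter hv j)
      rw [L1oAux.evM_valid hv, monoS_eq_prod t, map_prod, ev_prod_pure _ hp, map_prod,
        ← prod_pow_eq_pow_sum, ← Finset.prod_smul, ← neg_sub]
      refine neg_mem (prod_classes_sub_mem _ _ _ (fun j => Ideal.mem_sup_left ?_) fun j => ?_)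
      · rw [L1oAux.linF_eq_ev j _ (hp j)]
        refine ev_mem_GI _ _ (ot_homog i' i s _ _ ?_)
        rw [bdeg_apply, ← bdeg_of_MsOK j _ (L1oAux.msOK_filter hv j)]
        exact monoS_homog _
      · rw [← neg_sub, bdeg_apply]
        exact neg_mem (evC_ot i' i s j _ (L1oAux.msOK_filter hv j))
    · rw [L1oAux.evM_invalid hv]
      push Not at hv
      obtain ⟨m, hm, hv⟩ := hv
      obtain ⟨t', rfl⟩ := Multiset.exists_cons_of_mem hm
      rw [← Multiset.singleton_add, monoS_add, monoS_singleton, map_mul, ot_X_invalid _ _ _ _ hv]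
      simp
  · simp
  · intro a b ha hb
    simp only [map_add, smul_add]
    rw [add_sub_add_comm]
    exact add_mem ha hb
  · intro c a ha
    simp only [map_smul]
    rw [smul_comm _ c, ← smul_sub]
    exact Submodule.smul_of_tower_mem _ _ ha

theorem psi_GI (i' : Fin (n + 1)) (i : Fin n) (s : Fin k → ℕ) (β : Fin k → ℕ) (p : AA k n)
    (hp : p ∈ GI n β) : psi i' i s p ∈ GI (n + 1) β ⊔ Hi (n + 1) β := by
  have h1 : ∀ t : Multiset (Mol k n),
      psi i' i s (evM t) ∈ GI (n + 1) (bdeg t) ⊔ Hi (n + 1) (bdeg t) := by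
    intro t
    have a1 := ev_ot i' i s _ _ (monoS_homog t)
    have a2 := ev_mem_GI _ _ (ot_homog i' i s _ _ (monoS_homog t))
    have a3 := sub_mem (Ideal.mem_sup_left (T := Hi (n + 1) (bdeg t)) a2)
      (Ideal.mem_sup_right (S := GI (n + 1) (bdeg t)) a1)
    rw [sub_sub_cancel, L1oAux.ev_monoS] at a3
    have a4 := Submodule.smul_of_tower_mem _
      (sc s ^ (∑ j, bdeg t j * (k - (j.val + 1))))⁻¹ a3
    rwa [inv_smul_smul₀ (pow_ne_zero _ (sc_ne_zero s))] at a4
  have h2 : ∀ L : List (Multiset (Mol k n)), psi i' i s (L.map evM).prod ∈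
      GI (n + 1) (L.map bdeg).sum ⊔ Hi (n + 1) (L.map bdeg).sum := by
    intro L
    induction L with
    | nil => simpa using Ideal.mem_sup_left one_mem_GI
    | cons t L ih =>
      simp only [List.map_cons, List.prod_cons, List.sum_cons, map_mul]
      exact fil_mul (h1 t) ih
  induction hp using Submodule.span_induction with
  | mem p hp =>
    obtain ⟨L, rfl, rfl⟩ := hp
    exact h2 L
  | zero => rw [map_zero]; exact zero_mem _
  | add a b _ _ ha hb => rw [map_add]; exact add_mem ha hb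
  | smul c a _ ha => rw [smul_eq_mul, map_mul]; exact Ideal.mul_mem_left _ _ ha

theorem psi_Hi (i' : Fin (n + 1)) (i : Fin n) (s : Fin k → ℕ) (β : Fin k → ℕ) (p : AA k n)
    (hp : p ∈ Hi n β) : psi i' i s p ∈ Hi (n + 1) β := by
  have h1 : Hi n β ≤ (Hi (n + 1) β).comap (psi i' i s) := by
    refine sup_le (fun q hq => ?_) (iSup₂_le fun β' hβ q hq => ?_)
    · exact JJ_le_Hi β (psi_JJ i' i s _ q hq)
    · exact sup_le (GI_le_Hi hβ) (Hi_anti hβ) (psi_GI i' i s β' q hq)
  exact h1 hp

theorem ot_InvS (i' : Fin (n + 1)) (i : Fin n) (s : Fin k → ℕ) (D : ℕ) (h : FF k n)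
    (hh : h ∈ InvS k n D) : ot i' i s h ∈ InvS k (n + 1) D := by
  obtain ⟨β, h1, h2, h3⟩ := hh
  refine ⟨β, ot_homog i' i s h β h1, fun γ hγ => by rw [← ot_relF i' i s γ hγ, h2 γ hγ], ?_⟩
  have a1 := ev_ot i' i s β h h1
  have a2 : psi i' i s (ev h) ∈ JJ k (n + 1) D ⊔ Hi (n + 1) β := by
    obtain ⟨a, ha, b, hb, e⟩ := Submodule.mem_sup.1 h3
    rw [← e, map_add]
    exact add_mem (Ideal.mem_sup_left (psi_JJ i' i s D a ha))
      (Ideal.mem_sup_right (psi_Hi i' i s β b hb))
  have a3 := add_mem (Ideal.mem_sup_right (S := JJ k (n + 1) D) a1)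
    (Submodule.smul_of_tower_mem _ (sc s ^ (∑ j, β j * (k - (j.val + 1)))) a2)
  rwa [sub_add_cancel] at a3

end Pool.Agent.Lib.MP_595dc0_ag.Dk
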