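import Mathlib
import Pool.Agent.Lib.MP_595dc0_ag.DkL1k
import Pool.Agent.Lib.MP_595dc0_ag.DkL1n

set_option autoImplicit false

namespace Pool.Agent.Lib.MP_595dc0_ag.Dk

open Equiv Finset MvPolynomial

variable {k n : ℕ}

theorem Th_option_L1p {M : Type} [Fintype M] (f' : Option M → Sk k n)
    (y : Arr k n (Option M × Fin k)) (f : M → Sk k n) (x : Arr k n (M × Fin k)) (m : Mol k n)
    (h0 : mol f' y none = m) (h1 : ∀ a, mol f' y (some a) = mol f x a) :
    X m * ThA univ f x = ThA univ f' y := by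
  unfold ThA
  rw [Fintype.prod_option, h0]
  simp only [h1]

theorem via_some_L1p {M ι : Type} (e : ι ↪ M) (σ : Perm ι) (a : M) :
    σ.viaEmbedding (e.trans Function.Embedding.some) (some a) = some (σ.viaEmbedding e a) := by
  by_cases h : a ∈ Set.range e
  · obtain ⟨i, rfl⟩ := h
    rw [Perm.viaEmbedding_apply]
    exact Perm.viaEmbedding_apply σ (e.trans Function.Embedding.some) i
  · rw [Perm.viaEmbedding_apply_of_notMem σ e a h, Perm.viaEmbedding_apply_of_notMem]
    rintro ⟨i, hi⟩
    exact h ⟨i, Option.some_injective _ hi⟩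

theorem via_none_L1p {M ι : Type} (e : ι ↪ M) (σ : Perm ι) :
    σ.viaEmbedding (e.trans Function.Embedding.some) none = none := by
  rw [Perm.viaEmbedding_apply_of_notMem]
  rintro ⟨i, hi⟩
  exact Option.some_ne_none _ hi

theorem via_inv_L1p {M ι : Type} (e : ι ↪ M) (σ : Perm ι) :
    (σ.viaEmbedding e)⁻¹ = σ⁻¹.viaEmbedding e := (map_inv (Perm.viaEmbeddingHom e) σ).symm

theorem exF_some_L1p {M ι : Type} [DecidableEq M] (e : ι ↪ M) (σ : Perm ι) (Y : Finset (Fin n))
    (mv : Bool) (f : M → Sk k n) (a₀ : Sk k n) (a : M) :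
    exF Y mv (σ.viaEmbedding (e.trans Function.Embedding.some)) (fun o => o.elim a₀ f) (some a) =
      exF Y mv (σ.viaEmbedding e) f a := by
  unfold exF
  rw [via_inv_L1p, via_inv_L1p, via_some_L1p]
  rfl

theorem Rel1_mul_X (m : Mol k n) (hm : m.1.Valid) (p : FF k n) (hp : p ∈ Rel1 k n) :
    X m * p ∈ Rel1 k n := by
  obtain ⟨M, _, _, f, x, m₁, m₂, c, Y, ⟨h1, h2, h3, h4, h5⟩, rfl⟩ := hp
  refine ⟨Option M, inferInstance, inferInstance, fun o => o.elim m.1 f,
    fun z r => r.1.elim (m.2 z r.2) fun a => x z (a, r.2), some m₁, some m₂, c, Y,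
    ⟨?_, fun h => h2 (Option.some_injective _ h), h3, h4, h5⟩, ?_⟩
  · rintro (_ | a)
    · exact hm
    · exact h1 a
  · rw [app_aY, app_aY, Finset.mul_sum]
    refine Finset.sum_congr rfl fun S _ => ?_
    rw [mul_smul_comm]
    congr 1
    refine Th_option_L1p _ _ _ _ _ (Prod.ext rfl ?_) fun a => Prod.ext rfl ?_
    · funext z c'
      simp only [mol, act, swS]
      split_ifs
      · rw [swap_inv, swap_apply_of_ne_of_ne (by simp) (by simp)]
        rfl
      · rfl
    · funext z c'
      simp only [mol, act, swS]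
      split_ifs
      · have hi : Function.Injective fun r : M × Fin k => (some r.1, r.2) := fun r r' h =>
          Prod.ext (Option.some_injective _ (Prod.mk.inj h).1) (Prod.mk.inj h).2
        have h6 := hi.swap_apply (m₁, c) (m₂, c) (a, c')
        rw [swap_inv, swap_inv, h6]
        rfl
      · rfl

theorem Rel2_mul_X (m : Mol k n) (hm : m.1.Valid) (p : FF k n) (hp : p ∈ Rel2 k n) :
    X m * p ∈ Rel2 k n := by
  obtain ⟨M, _, _, f, x, e, C, Y, mv, ⟨h1, h2, h3, h4, h5⟩, rfl⟩ := hp
  refine ⟨Option M, inferInstance, inferInstance, fun o => o.elim m.1 f,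
    fun z r => r.1.elim (m.2 z r.2) fun a => x z (a, r.2), e.trans Function.Embedding.some, C, Y, mv,
    ⟨?_, h2, h3, h4, h5⟩, ?_⟩
  · rintro σ (_ | a)
    · rw [exF_of_fixed _ _ _ _ _ (via_none_L1p e σ)]
      exact hm
    · rw [exF_some_L1p]
      exact h1 σ a
  · rw [R2A, R2A, Finset.mul_sum]
    refine Finset.sum_congr rfl fun σ _ => ?_
    rw [mul_smul_comm]
    congr 1
    refine Th_option_L1p _ _ _ _ _ (Prod.ext ?_ ?_) fun a => Prod.ext ?_ ?_
    · exact exF_of_fixed Y mv _ (fun o : Option M => o.elim m.1 f) none (via_none_L1p e σ)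
    · funext z c'
      simp only [mol, act, exG_inv_apply, via_inv_L1p, via_none_L1p, ite_self]
      rfl
    · exact exF_some_L1p e σ Y mv f m.1 a
    · funext z c'
      simp only [mol, act, exG_inv_apply, via_inv_L1p, via_some_L1p]
      split_ifs <;> rfl

theorem ev_sum_classes_L1p {M ι : Type} [Fintype M] (s : Finset ι) (c : ι → ℂ)
    (F : ι → M → Mol k n) (F₀ : M → Mol k n) (j₀ : Fin k) (hv : ∀ i a, (F i a).1.Valid)
    (hcl : ∀ i a, (F i a).1.cls = (F₀ a).1.cls) (hv₀ : ∀ a, (F₀ a).1.Valid)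
    (hfix : ∀ i a, (F₀ a).1.cls ≠ j₀ → F i a = F₀ a)
    (herr : ∑ i ∈ s, c i • evC j₀ ((univ.filter fun a => (F₀ a).1.cls = j₀).val.map (F i)) ∈
      Err n j₀) :
    ∃ β, IsWeightedHomogeneous wtM (∑ i ∈ s, c i • ∏ a, (X (F i a) : FF k n)) β ∧
      ev (∑ i ∈ s, c i • ∏ a, (X (F i a) : FF k n)) ∈ Hi n β := by
  have h1 : ∀ i, ∏ a, (X (F i a) : FF k n) = monoS (univ.val.map (F i)) := fun i => by
    rw [monoS, Multiset.map_map]
    rfl
  have h2 : ∀ i j, (univ.val.map (F i)).filter (fun m => m.1.cls = j) =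
      (univ.filter fun a => (F₀ a).1.cls = j).val.map (F i) := fun i j => by
    rw [Multiset.filter_map, Finset.filter_val]
    congr 1
    exact Multiset.filter_congr fun a _ => by rw [Function.comp_apply, hcl]
  refine ⟨fun j => (univ.filter fun a => (F₀ a).1.cls = j).card, ?_, ?_⟩
  · refine (mem_weightedHomogeneousSubmodule ℂ wtM _ _).1
      (Submodule.sum_mem _ fun i _ => Submodule.smul_mem _ _ ?_)
    rw [mem_weightedHomogeneousSubmodule, h1]
    convert monoS_homog (univ.val.map (F i)) using 1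
    funext j
    rw [bdeg_apply, h2, Multiset.card_map]
    rfl
  · have h3 : ∀ i, ev (∏ a, (X (F i a) : FF k n)) =
        evC j₀ ((univ.filter fun a => (F₀ a).1.cls = j₀).val.map (F i)) *
          ∏ j ∈ univ \ {j₀}, evC j ((univ.filter fun a => (F₀ a).1.cls = j).val.map F₀) := by
      intro i
      rw [h1, ev, linF_monoS, evM, if_pos,
        Finset.prod_eq_mul_prod_sdiff_singleton_of_mem (mem_univ j₀), h2]
      · congr 1
        refine Finset.prod_congr rfl fun j hj => ?_
        rw [h2]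
        congr 1
        refine Multiset.map_congr rfl fun a ha => hfix i a ?_
        rw [(mem_filter.1 ha).2]
        simpa using hj
      · intro m hm
        obtain ⟨a, -, rfl⟩ := Multiset.mem_map.1 hm
        exact hv i a
    have h4 := prod_classes_mem (fun j => (univ.filter fun a => (F₀ a).1.cls = j).card)
      (Function.update (fun j => evC j ((univ.filter fun a => (F₀ a).1.cls = j).val.map F₀)) j₀
        (∑ i ∈ s, c i • evC j₀ ((univ.filter fun a => (F₀ a).1.cls = j₀).val.map (F i)))) j₀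
      (fun j hj => by
        rw [Function.update_of_ne hj]
        have h5 := evC_mem_GI j ((univ.filter fun a => (F₀ a).1.cls = j).val.map F₀) fun m hm => by
          obtain ⟨a, ha, rfl⟩ := Multiset.mem_map.1 hm
          exact ⟨hv₀ a, (mem_filter.1 ha).2⟩
        rwa [Multiset.card_map] at h5)
      (by rwa [Function.update_self])
    rw [Finset.prod_update_of_mem (mem_univ j₀), Finset.sum_mul] at h4
    rw [map_sum]
    simpa only [map_smul, h3, smul_mul_assoc] using h4

theorem ev_Rel1 (p : FF k n) (hp : p ∈ Rel1 k n) :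
    ∃ β, IsWeightedHomogeneous wtM p β ∧ ev p ∈ Hi n β := by
  obtain ⟨M, _, _, f, x, m, m', c, Y, ⟨h1, h2, h3, h4, h5⟩, rfl⟩ := hp
  rw [app_aY]
  refine ev_sum_classes_L1p Y.powerset (fun S => (-1 : ℂ) ^ S.card)
    (fun S => mol f (act (swS S (m, c) (m', c)) x)) (mol f x) (f m).cls (fun _ a => h1 a)
    (fun _ _ => rfl) h1 (fun S a ha => Prod.ext rfl ?_) ?_
  · have h6 : a ≠ m := fun h => ha (by rw [h]; rfl)
    have h7 : a ≠ m' := fun h => ha (by rw [h, h3]; rfl)
    funext z c'
    simp only [mol, act, swS]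
    split_ifs
    · rw [swap_inv, swap_apply_of_ne_of_ne (by simp [h6]) (by simp [h7])]
    · rfl
  · have h6 := evC_r1 (j := (f m).cls) (A := univ.filter fun a => (f a).cls = (f m).cls) (f := f)
      (fun a ha => ⟨h1 a, (mem_filter.1 ha).2⟩) m m' (by simp) (by simp [h3]) h2 c Y h4 h5 x
    rw [app_aY] at h6
    exact h6

theorem ev_Rel2 (p : FF k n) (hp : p ∈ Rel2 k n) :
    ∃ β, IsWeightedHomogeneous wtM p β ∧ ev p ∈ Hi n β := by
  obtain ⟨M, _, _, f, x, e, C, Y, mv, h, rfl⟩ := hp
  have h1 : ∀ a, (f a).Valid := fun a => by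
    have h2 := h.1 1 a
    have h3 : (1 : Perm (Fin (k * k + 1))).viaEmbedding e = 1 := map_one (Perm.viaEmbeddingHom e)
    rwa [h3, exF_one] at h2
  refine ev_sum_classes_L1p univ (fun σ : Perm (Fin (k * k + 1)) => ((Perm.sign σ : ℤ) : ℂ))
    (fun σ => mol (exF Y mv (σ.viaEmbedding e) f) (act (exG C Y (σ.viaEmbedding e)) x)) (mol f x)
    (f (e 0)).cls h.1 (fun _ _ => rfl) h1 (fun σ a ha => ?_) ?_
  · have h2 : a ∉ Set.range e := by
      rintro ⟨i, rfl⟩
      exact ha (h.2.1 i 0)
    refine Prod.ext (exF_of_fixed _ _ _ _ _ (Perm.viaEmbedding_apply_of_notMem σ e a h2)) ?_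
    funext z c'
    simp only [mol, act, exG_inv_apply, via_inv_L1p, Perm.viaEmbedding_apply_of_notMem _ e a h2,
      ite_self]
  · exact evC_r2 (j := (f (e 0)).cls) (A := univ.filter fun a => (f a).cls = (f (e 0)).cls)
      (f := f) (fun a ha => ⟨h1 a, (mem_filter.1 ha).2⟩) e
      (fun i => mem_filter.2 ⟨mem_univ _, h.2.1 i 0⟩) C Y mv h x

theorem ev_X_invalid (m : Mol k n) (hm : ¬ m.1.Valid) (p : FF k n) : ev (X m * p) = 0 := by
  refine FF_induction (p := fun p => ev (X m * p) = 0) p (fun s => ?_) (by simp)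
    (fun a b ha hb => by rw [mul_add, map_add, ha, hb, add_zero])
    (fun c a ha => by rw [mul_smul_comm, map_smul, ha, smul_zero])
  rw [← monoS_singleton, ← monoS_add, ev, linF_monoS, evM, if_neg]
  exact fun h => hm (h m (by simp))

/-- The linear span of the relations. -/
noncomputable def RelS_L1p (k n : ℕ) : Submodule ℂ (FF k n) :=
  Submodule.span ℂ ({p | ∃ m : Mol k n, ¬ m.1.Valid ∧ ∃ q, p = X m * q} ∪ Rel1 k n ∪ Rel2 k n)

theorem X_mul_RelS_L1p (m : Mol k n) (p : FF k n) (hp : p ∈ RelS_L1p k n) :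
    X m * p ∈ RelS_L1p k n := by
  by_cases hm : m.1.Valid
  · induction hp using Submodule.span_induction with
    | mem p hp =>
      rcases hp with (⟨m', hm', q, rfl⟩ | hp) | hp
      · exact Submodule.subset_span (Or.inl (Or.inl ⟨m', hm', X m * q, by ring⟩))
      · exact Submodule.subset_span (Or.inl (Or.inr (Rel1_mul_X m hm p hp)))
      · exact Submodule.subset_span (Or.inr (Rel2_mul_X m hm p hp))
    | zero => simp
    | add a b _ _ ha hb =>
      rw [mul_add]
      exact Submodule.add_mem _ ha hb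
    | smul c a _ ha =>
      rw [mul_smul_comm]
      exact Submodule.smul_mem _ _ ha
  · exact Submodule.subset_span (Or.inl (Or.inl ⟨m, hm, p, rfl⟩))

theorem mul_RelS_L1p (a p : FF k n) (hp : p ∈ RelS_L1p k n) : a * p ∈ RelS_L1p k n := by
  induction a using MvPolynomial.induction_on generalizing p with
  | C c =>
    rw [C_mul']
    exact Submodule.smul_mem _ _ hp
  | add a b ha hb =>
    rw [add_mul]
    exact Submodule.add_mem _ (ha p hp) (hb p hp)
  | mul_X a m ha =>
    rw [mul_assoc]
    exact ha _ (X_mul_RelS_L1p m p hp)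

theorem Rel_le_RelS_L1p (p : FF k n) (hp : p ∈ Rel k n) : p ∈ RelS_L1p k n := by
  induction hp using Submodule.span_induction with
  | mem p hp =>
    rcases hp with (⟨m, hm, rfl⟩ | hp) | hp
    · exact Submodule.subset_span (Or.inl (Or.inl ⟨m, hm, 1, (mul_one _).symm⟩))
    · exact Submodule.subset_span (Or.inl (Or.inr hp))
    · exact Submodule.subset_span (Or.inr hp)
  | zero => exact Submodule.zero_mem _
  | add a b _ _ ha hb => exact Submodule.add_mem _ ha hb
  | smul c a _ ha => exact mul_RelS_L1p c a ha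

theorem ev_comp_of_homog_L1p (p : FF k n)
    (hp : ∃ β, IsWeightedHomogeneous wtM p β ∧ ev p ∈ Hi n β) (β : Fin k → ℕ) :
    ev (weightedHomogeneousComponent wtM β p) ∈ Hi n β := by
  obtain ⟨β', h1, h2⟩ := hp
  rw [weightedHomogeneousComponent_of_mem ((mem_weightedHomogeneousSubmodule ℂ wtM β' p).2 h1)]
  split_ifs with h
  · rw [h]
    exact h2
  · rw [map_zero]
    exact Submodule.zero_mem _

/-- Every homogeneous component of a relation evaluates into the higher ideal. -/
theorem ev_Rel (p : FF k n) (hp : p ∈ Rel k n) (β : Fin k → ℕ) :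
    ev (weightedHomogeneousComponent wtM β p) ∈ Hi n β := by
  have h := Rel_le_RelS_L1p p hp
  clear hp
  induction h using Submodule.span_induction with
  | mem p hp =>
    rcases hp with (⟨m, hm, q, rfl⟩ | hp) | hp
    · refine FF_induction (p := fun q => ev (weightedHomogeneousComponent wtM β (X m * q)) ∈ Hi n β)
        q (fun s => ev_comp_of_homog_L1p _ ⟨bdeg ({m} + s), ?_, ?_⟩ β) (by simp)
        (fun a b ha hb => ?_) (fun c a ha => ?_)
      · rw [← monoS_singleton, ← monoS_add]
        exact monoS_homog _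
      · rw [ev_X_invalid m hm]
        exact Submodule.zero_mem _
      · rw [mul_add, map_add, map_add]
        exact Submodule.add_mem _ ha hb
      · rw [mul_smul_comm, map_smul, map_smul, smul_eq_C_mul]
        exact Ideal.mul_mem_left _ _ ha
    · exact ev_comp_of_homog_L1p p (ev_Rel1 p hp) β
    · exact ev_comp_of_homog_L1p p (ev_Rel2 p hp) β
  | zero => simp
  | add a b _ _ ha hb =>
    rw [map_add, map_add]
    exact Submodule.add_mem _ ha hb
  | smul c a _ ha =>
    rw [map_smul, map_smul, smul_eq_C_mul]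
    exact Ideal.mul_mem_left _ _ ha

end Pool.Agent.Lib.MP_595dc0_ag.Dk
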