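import Mathlib
import Pool.Agent.Lib.MP_595dc0_ag.DkL1o
import Pool.Agent.Lib.MP_595dc0_ag.DkL1p

set_option autoImplicit false

namespace Pool.Agent.Lib.MP_595dc0_ag.Dk

open Equiv Finset MvPolynomial

variable {k n : ℕ}

namespace DkL1qAux

theorem smul_mem (I : Ideal (AA k n)) (c : ℂ) {p : AA k n} (hp : p ∈ I) : c • p ∈ I := by
  rw [Algebra.smul_def]
  exact I.mul_mem_left _ hp

theorem ev_monoS (s : Multiset (Mol k n)) : ev (monoS s) = evM s := linF_monoS _ s

theorem homog_smul (c : ℂ) {h : FF k n} {β : Fin k → ℕ} (hh : IsWeightedHomogeneous wtM h β) :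
    IsWeightedHomogeneous wtM (c • h) β :=
  (weightedHomogeneousSubmodule ℂ wtM β).smul_mem c hh

theorem X_mul_mem (hk : 0 < k) (β : Fin k → ℕ) (w : Fin n → Fin k) {p : AA k n}
    (hp : p ∈ GI n β) : X w * p ∈ Hi n β := by
  obtain ⟨m, hm, hc, hX⟩ := exists_Ev1_X (n := n) (⟨0, hk⟩ : Fin k) rfl w
  have h1 : (X w : AA k n) ∈ GI n (Pi.single m.1.cls (Multiset.card ({m} : Multiset (Mol k n)))) := by
    rw [← hX, ← evC_single]
    refine evC_mem_GI _ _ fun a ha => ?_
    rw [Multiset.mem_singleton.1 ha]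
    exact ⟨hm, rfl⟩
  rw [mul_comm]
  refine GI_le_Hi (blt_add_self β _ fun h => ?_) (GI_mul hp h1)
  have := congrFun h m.1.cls
  simp at this

theorem exists_min (T : Set (Fin k → ℕ)) (hT : T.Finite) (hne : T.Nonempty) :
    ∃ β ∈ T, ∀ β' ∈ T, ¬ blt β' β := by
  obtain ⟨β, hβ, h⟩ := Set.exists_min_image T (fun β => toLex (fun j => β (Fin.rev j))) hT hne
  exact ⟨β, hβ, fun β' hβ' => not_lt.2 (h β' hβ')⟩

theorem exists_max (T : Set (Fin k → ℕ)) (hT : T.Finite) (hne : T.Nonempty) :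
    ∃ β ∈ T, ∀ β' ∈ T, ¬ blt β β' := by
  obtain ⟨β, hβ, h⟩ := Set.exists_max_image T (fun β => toLex (fun j => β (Fin.rev j))) hT hne
  exact ⟨β, hβ, fun β' hβ' => not_lt.2 (h β' hβ')⟩

theorem comp_mem (D d : ℕ) (hD : D0 k ≤ D) (β : Fin k → ℕ) (K : Ideal (AA k n))
    (hK : JJ k n D ≤ K) (hG : ∀ β', blt β β' → dg β' ≤ d → GI n β' ≤ K) (p : AA k n)
    (h : p ∈ JJ k n D ⊔ Hi n β) : homogeneousComponent d p ∈ K := by
  obtain ⟨a, ha, b, hb, rfl⟩ := Submodule.mem_sup.1 h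
  obtain ⟨b, hb0, c, hc, rfl⟩ := Submodule.mem_sup.1 hb
  rw [map_add, map_add]
  refine K.add_mem (hK (comp_mem_JD _ _ _ _ ha d))
    (K.add_mem (hK (comp_mem_JD _ _ _ _ (JD_mono _ _ hD hb0) d)) ?_)
  refine Submodule.iSup_induction _ (motive := fun c => homogeneousComponent d c ∈ K) hc
    (fun β' x hx => ?_) (by simp) (fun x y hx hy => by rw [map_add]; exact K.add_mem hx hy)
  by_cases hb' : blt β β'
  · rw [iSup_pos hb'] at hx
    by_cases hd : dg β' ≤ d
    · exact hG β' hb' hd (comp_mem_span _ (fun f hf => ⟨_, Gen_homog β' f hf⟩) x hx d)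
    · rw [comp_eq_zero_of_span _ _ (fun f hf => Gen_homog β' f hf) x hx d (by omega)]
      exact K.zero_mem
  · rw [iSup_neg hb', Submodule.mem_bot] at hx
    rw [hx, map_zero]
    exact K.zero_mem

end DkL1qAux

open DkL1qAux

theorem gen_ev (β : Fin k → ℕ) (p : AA k n) (hp : p ∈ Gen n β) :
    ∃ h, IsWeightedHomogeneous wtM h β ∧ p - ev h ∈ Hi n β := by
  obtain ⟨L, rfl, rfl⟩ := hp
  induction L with
  | nil =>
    refine ⟨monoS 0, monoS_homog 0, ?_⟩
    rw [ev_monoS, evM_zero]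
    simp
  | cons s L ih =>
    obtain ⟨h, hh, hp⟩ := ih
    simp only [List.map_cons, List.sum_cons, List.prod_cons]
    have hκ : (∏ j, kap j (bdeg s j) ((L.map bdeg).sum j)) ≠ 0 :=
      prod_ne_zero_iff.2 fun j _ => kap_ne_zero _ _ _
    have h1 := ev_prod _ _ (monoS s) h (monoS_homog s) hh
    set κ := ∏ j, kap j (bdeg s j) ((L.map bdeg).sum j)
    refine ⟨κ⁻¹ • ∑ γ ∈ GamF k, relF γ (monoS s) * h, homog_smul _
      (IsWeightedHomogeneous.sum _ _ _ fun γ _ => (relF_homog γ _ _ (monoS_homog s)).mul hh), ?_⟩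
    have h2 := Hi_mul_GI hp (evM_mem_GI s)
    rw [add_comm] at h2
    have h3 := Ideal.sub_mem _ h2 (smul_mem _ κ⁻¹ h1)
    rw [smul_sub, smul_smul, inv_mul_cancel₀ hκ, one_smul, ev_monoS] at h3
    rw [map_smul, map_sum]
    refine (congrArg (· ∈ Hi n (bdeg s + (L.map bdeg).sum)) ?_).mp h3
    ring

theorem GI_ev (hk : 0 < k) (β : Fin k → ℕ) (p : AA k n) (hp : p ∈ GI n β) :
    ∃ h, IsWeightedHomogeneous wtM h β ∧ (∀ γ ∈ GamF k, relF γ h = h) ∧ p - ev h ∈ Hi n β := by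
  have key : ∃ h, IsWeightedHomogeneous wtM h β ∧ p - ev h ∈ Hi n β := by
    induction hp using Submodule.span_induction with
    | mem x hx => exact gen_ev β x hx
    | zero => exact ⟨0, isWeightedHomogeneous_zero _ _ _, by simp⟩
    | add x y _ _ hx hy =>
      obtain ⟨h, hh, hx⟩ := hx
      obtain ⟨h', hh', hy⟩ := hy
      refine ⟨h + h', hh.add hh', ?_⟩
      rw [map_add, add_sub_add_comm]
      exact Ideal.add_mem _ hx hy
    | smul a x hx0 hx =>
      obtain ⟨h, hh, hx⟩ := hx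
      rw [smul_eq_mul]
      induction a using MvPolynomial.induction_on with
      | C c =>
        refine ⟨c • h, homog_smul c hh, ?_⟩
        rw [map_smul, ← smul_eq_C_mul, ← smul_sub]
        exact smul_mem _ c hx
      | add a b ha hb =>
        obtain ⟨h, hh, hx⟩ := ha
        obtain ⟨h', hh', hy⟩ := hb
        refine ⟨h + h', hh.add hh', ?_⟩
        rw [map_add, add_mul, add_sub_add_comm]
        exact Ideal.add_mem _ hx hy
      | mul_X a w _ =>
        refine ⟨0, isWeightedHomogeneous_zero _ _ _, ?_⟩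
        rw [map_zero, sub_zero, mul_assoc]
        exact Ideal.mul_mem_left _ _ (X_mul_mem hk β w hx0)
  obtain ⟨h, hh, hp⟩ := key
  have hc := card_GamF_ne_zero k
  refine ⟨((GamF k).card : ℂ)⁻¹ • ∑ γ ∈ GamF k, relF γ h, homog_smul _
    (IsWeightedHomogeneous.sum _ _ _ fun γ _ => relF_homog γ _ _ hh), fun γ hγ => ?_, ?_⟩
  · rw [map_smul, map_sum, ← sum_GamF_mul (fun γ => relF γ h) γ hγ]
    simp only [relF_mul]
  · have h1 : ∑ γ ∈ GamF k, (ev (relF γ h) - ev h) ∈ Hi n β :=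
      Ideal.sum_mem _ fun γ hγ => ev_relF β h hh γ hγ
    have h2 := Ideal.sub_mem _ hp (smul_mem _ ((GamF k).card : ℂ)⁻¹ h1)
    rw [sum_sub_distrib, sum_const, ← Nat.cast_smul_eq_nsmul ℂ, smul_sub, smul_smul,
      inv_mul_cancel₀ hc, one_smul] at h2
    rw [map_smul, map_sum]
    refine (congrArg (· ∈ Hi n β) ?_).mp h2
    ring

theorem avg_Nt (D : ℕ) (h : FF k n) (hh : h ∈ Nt k n D) (β : Fin k → ℕ) :
    ∑ γ ∈ GamF k, ev (relF γ (weightedHomogeneousComponent wtM β h)) ∈ JJ k n D ⊔ Hi n β := by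
  classical
  obtain ⟨h₁, hh₁, h₂, hh₂, rfl⟩ := Submodule.mem_sup.1 hh
  simp only [map_add, sum_add_distrib]
  refine Ideal.add_mem _ ?_ (Ideal.mem_sup_right (Ideal.sum_mem _ fun γ hγ => ?_))
  · have key : ∀ a : FF k n, ∑ γ ∈ GamF k,
        ev (relF γ (weightedHomogeneousComponent wtM β (a * h₁))) ∈ JJ k n D ⊔ Hi n β := by
      clear hh
      induction hh₁ using Submodule.span_induction with
      | mem g hg =>
        obtain ⟨β', hg, hinv, hev⟩ := hg
        intro a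
        induction a using FF_induction with
        | hm s =>
          rw [weightedHomogeneousComponent_of_mem ((monoS_homog s).mul hg)]
          split_ifs with hβ
          · subst hβ
            have h1 := ev_prod _ _ (monoS s) g (monoS_homog s) hg
            have h2 : ev (monoS s) * ev g ∈ JJ k n D ⊔ Hi n (bdeg s + β') := by
              obtain ⟨a, ha, b, hb, hab⟩ := Submodule.mem_sup.1 hev
              rw [← hab, mul_add, ev_monoS, mul_comm _ b, add_comm (bdeg s)]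
              exact Ideal.add_mem _ (Ideal.mem_sup_left (Ideal.mul_mem_left _ _ ha))
                (Ideal.mem_sup_right (Hi_mul_GI hb (evM_mem_GI s)))
            have h3 := Ideal.add_mem _ (Ideal.mem_sup_right h1) (smul_mem _
              (∏ j, kap j (bdeg s j) (β' j)) h2)
            rw [sub_add_cancel] at h3
            rw [sum_congr rfl fun γ hγ => by rw [map_mul, hinv γ hγ]]
            exact h3
          · simp
        | h0 => simp
        | hadd a b ha hb =>
          simp only [add_mul, map_add, sum_add_distrib]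
          exact Ideal.add_mem _ ha hb
        | hsmul c a ha =>
          simp only [smul_mul_assoc, map_smul, ← smul_sum]
          exact smul_mem _ c ha
      | zero => simp
      | add x y _ _ hx hy =>
        intro a
        simp only [mul_add, map_add, sum_add_distrib]
        exact Ideal.add_mem _ (hx a) (hy a)
      | smul b x _ hx =>
        intro a
        rw [smul_eq_mul, ← mul_assoc]
        exact hx _
    simpa only [one_mul] using key 1
  · have h1 := Ideal.add_mem _ (ev_relF β _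
      (weightedHomogeneousComponent_isWeightedHomogeneous β h₂) γ hγ) (ev_Rel h₂ hh₂ β)
    rwa [sub_add_cancel] at h1

theorem Hi_step (D d : ℕ) (hD : D0 k ≤ D) (β : Fin k → ℕ) (p : AA k n)
    (hp : p.IsHomogeneous d) (h : p ∈ JJ k n D ⊔ Hi n β) :
    p ∈ JJ k n D ∨ ∃ β', blt β β' ∧ dg β' ≤ d ∧ p ∈ JJ k n D ⊔ (GI n β' ⊔ Hi n β') := by
  have hpd : homogeneousComponent d p = p := homogeneousComponent_eq_self hp
  by_cases hne : {β' : Fin k → ℕ | blt β β' ∧ dg β' ≤ d}.Nonempty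
  · obtain ⟨β₀, hβ₀, hmin⟩ := exists_min _ ((finite_dg_le d).subset fun β' h => h.2) hne
    refine Or.inr ⟨β₀, hβ₀.1, hβ₀.2, ?_⟩
    rw [← hpd]
    refine comp_mem D d hD β _ le_sup_left (fun β' h1 h2 => le_sup_of_le_right ?_) p h
    rcases blt_trichotomy β₀ β' with h3 | rfl | h3
    · exact le_sup_of_le_right (GI_le_Hi h3)
    · exact le_sup_left
    · exact absurd h3 (hmin β' ⟨h1, h2⟩)
  · left
    rw [← hpd]
    exact comp_mem D d hD β _ le_rfl (fun β' h1 h2 => absurd ⟨β', h1, h2⟩ hne) p h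

theorem Nt_mono {D D' : ℕ} (h : D ≤ D') : Nt k n D ≤ Nt k n D' := by
  refine sup_le_sup_right (Ideal.span_mono ?_) _
  rintro p ⟨β, h1, h2, h3⟩
  exact ⟨β, h1, h2, sup_le_sup_right (JD_mono _ _ h) _ h3⟩

theorem reflect1 (hk : 0 < k) (D D' : ℕ) (hD : D0 k ≤ D) (hDD : D ≤ D')
    (h : Nt k n D' ≤ Nt k n D) : JJ k n D' ≤ JJ k n D := by
  refine Ideal.span_le.2 ?_
  rintro p ⟨hp, e, he, hpe⟩
  have hp' : p ∈ JJ k n D' := mem_JD _ _ _ _ p hp he hpe
  by_contra hcon
  obtain ⟨β, ⟨hβ, hpβ⟩, hmax⟩ := exists_max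
    {β : Fin k → ℕ | dg β ≤ e ∧ p ∈ JJ k n D ⊔ (GI n β ⊔ Hi n β)}
    ((finite_dg_le e).subset fun β' h => h.1) ⟨0, by simp [dg], by
      refine Ideal.mem_sup_right (Ideal.mem_sup_left ?_)
      simpa using Ideal.mul_mem_left _ p one_mem_GI⟩
  obtain ⟨a, ha, b, hb, hab⟩ := Submodule.mem_sup.1 hpβ
  obtain ⟨g, hg, c, hc, rfl⟩ := Submodule.mem_sup.1 hb
  obtain ⟨u, hu, hinv, hgu⟩ := GI_ev hk β g hg
  have h1 : ev u ∈ JJ k n D' ⊔ Hi n β := by
    have : ev u = (p - a) - (c + (g - ev u)) := by rw [← hab]; ring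
    rw [this]
    exact Ideal.sub_mem _ (Ideal.mem_sup_left (Ideal.sub_mem _ hp' (JD_mono _ _ hDD ha)))
      (Ideal.mem_sup_right (Ideal.add_mem _ hc hgu))
  have h2 := avg_Nt D u (h (Ideal.mem_sup_left (Ideal.subset_span ⟨β, hu, hinv, h1⟩))) β
  rw [hu.weightedHomogeneousComponent_same, sum_congr rfl fun γ hγ => by rw [hinv γ hγ],
    sum_const, ← Nat.cast_smul_eq_nsmul ℂ] at h2
  have h3 := smul_mem _ ((GamF k).card : ℂ)⁻¹ h2
  rw [smul_smul, inv_mul_cancel₀ (card_GamF_ne_zero k), one_smul] at h3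
  have h4 : p ∈ JJ k n D ⊔ Hi n β := by
    have : p = a + (ev u + (c + (g - ev u))) := by rw [← hab]; ring
    rw [this]
    exact Ideal.add_mem _ (Ideal.mem_sup_left ha)
      (Ideal.add_mem _ h3 (Ideal.mem_sup_right (Ideal.add_mem _ hc hgu)))
  rcases Hi_step D e hD β p hpe h4 with h5 | ⟨β', h5, h6, h7⟩
  · exact hcon h5
  · exact hmax β' ⟨h6, h7⟩ h5

end Pool.Agent.Lib.MP_595dc0_ag.Dk
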