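import Mathlib
import Pool.Agent.Lib.MP_595dc0_ag.DkL1m

set_option autoImplicit false

namespace Pool.Agent.Lib.MP_595dc0_ag.Dk

open Equiv Finset MvPolynomial

variable {k n : ℕ} {M : Type} [Fintype M] [DecidableEq M]

theorem app_Th_mem_Rel (f : M → Sk k n) (m m' : M) (c : Fin k) (Y : Finset (Fin n))
    (h : Hyp1 f m m' c Y) (T : GA n (M × Fin k)) (hT : ∀ z ∈ Y, Anti T z (m, c) (m', c))
    (x : Arr k n (M × Fin k)) : app (Th f) x T ∈ Rel k n := by
  exact app_mem_of_anti ((Rel k n).restrictScalars ℂ) (Th f) Y (m, c) (m', c)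
    (fun y => Ideal.subset_span (Or.inl (Or.inr ⟨M, inferInstance, inferInstance, f, y, m, m', c, Y,
      h, rfl⟩))) T hT x

theorem app_exch_mem_Rel (f : M → Sk k n) (e : Fin (k * k + 1) ↪ M) (C : Finset (Fin k))
    (Y : Finset (Fin n)) (mv : Bool) (h : Hyp2 f e C Y mv) (T : GA n (M × Fin k))
    (x : Arr k n (M × Fin k)) :
    ∑ σ : Perm (Fin (k * k + 1)), ((Perm.sign σ : ℤ) : ℂ) •
      app (Th (exF Y mv (σ.viaEmbedding e) f)) x (og (exG C Y (σ.viaEmbedding e)) * T) ∈
      Rel k n := by
  have key : ∑ σ : Perm (Fin (k * k + 1)), ((Perm.sign σ : ℤ) : ℂ) •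
      app (Th (exF Y mv (σ.viaEmbedding e) f)) x (og (exG C Y (σ.viaEmbedding e)) * T) =
      app (fun y => R2A univ f y e C Y mv) x T := by
    unfold R2A
    rw [app_sum]
    refine Finset.sum_congr rfl (fun σ _ => ?_)
    rw [app_og_mul]
    rfl
  rw [key]
  exact app_mem ((Rel k n).restrictScalars ℂ) _
    (fun y => Ideal.subset_span (Or.inr ⟨M, inferInstance, inferInstance, f, y, e, C, Y, mv,
      h, rfl⟩)) x T


namespace DkL1rAux

omit [Fintype M] in
theorem insF_sep_succ (i' : Fin (n + 1)) (i : Fin n) (W : Finset M) (f : M → Sk k n) (m : M)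
    (c : Fin k) (z : Fin n) (h : (f m).sep z c = c) :
    (insF i' i W f m).sep (i'.succAbove z) c = c := by
  unfold insF insSk
  by_cases hm : m ∈ W
  · simp only [hm, if_true, Fin.insertNth_apply_succAbove]
    by_cases hz : z = i
    · subst hz
      simp
    · rw [Function.update_of_ne hz]
      exact h
  · simp only [hm, if_false, Fin.insertNth_apply_succAbove]
    exact h

omit [Fintype M] in
theorem insF_sep_same (i' : Fin (n + 1)) (i : Fin n) (W : Finset M) (f : M → Sk k n) (m : M)
    (c : Fin k) (h : (f m).sep i c = c) :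
    (insF i' i W f m).sep i' c = c := by
  unfold insF insSk
  by_cases hm : m ∈ W
  · simp only [hm, if_true, Fin.insertNth_apply_same]
    exact h
  · simp only [hm, if_false, Fin.insertNth_apply_same]
    rfl

omit [Fintype M] in
theorem sWG_succ (i' : Fin (n + 1)) (i : Fin n) (W : Finset M) (f : M → Sk k n) (m : M)
    (c : Fin k) (z : Fin n) (h : (f m).sep z c = c) :
    sWG i' i W f (i'.succAbove z) (m, c) = (m, c) := by
  unfold sWG
  by_cases hz : z = i
  · subst hz
    rw [Pi.mulSingle_eq_same, Equiv.prodCongrRight_apply]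
    by_cases hm : m ∈ W
    · simp only [hm, if_true]
      rw [h]
    · simp only [hm, if_false]
      rfl
  · rw [Pi.mulSingle_eq_of_ne (fun h' => hz (Fin.succAbove_right_injective h'))]
    rfl

omit [Fintype M] in
theorem sWG_same (i' : Fin (n + 1)) (i : Fin n) (W : Finset M) (f : M → Sk k n)
    (r : M × Fin k) : sWG i' i W f i' r = r := by
  unfold sWG
  rw [Pi.mulSingle_eq_of_ne (Fin.succAbove_ne i' i).symm]
  rfl

theorem commute_sw {R : Type} [DecidableEq R] (g : GG n R) (z : Fin n) (r r' : R)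
    (h : g z r = r) (h' : g z r' = r') : Commute (og (sw z r r')) (og g) := by
  have e := sw_conj g z r r'
  rw [h, h', mul_inv_eq_iff_eq_mul] at e
  show og _ * og _ = og _ * og _
  rw [← og_mul, ← og_mul, e]

theorem commute_sw_sw {R : Type} [DecidableEq R] (z z' : Fin n) (r r' : R) (h : z ≠ z') :
    Commute (og (sw z r r')) (og (sw z' r r')) := by
  apply commute_sw
  · unfold sw
    rw [Pi.mulSingle_eq_of_ne h]
    rfl
  · unfold sw
    rw [Pi.mulSingle_eq_of_ne h]
    rfl

theorem anti_insA {R : Type} [DecidableEq R] (i' : Fin (n + 1)) (i z : Fin n) (hz : z ≠ i)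
    (r r' : R) (T : GA n R) (h : Anti T z r r') :
    Anti (insA i' i T) (i'.succAbove z) r r' := by
  unfold Anti at h ⊢
  rw [← insG_sw_ne i' i z hz, ← insA_og, ← map_mul, h, map_neg]

theorem anti_insA_eq {R : Type} [DecidableEq R] (i' : Fin (n + 1)) (i : Fin n)
    (r r' : R) (T : GA n R) (h : Anti T i r r') :
    Anti ((1 + og (sw (i'.succAbove i) r r')) * insA i' i T) i' r r' := by
  unfold Anti at h ⊢
  have h1 : og (sw i' r r') * (og (sw (i'.succAbove i) r r') * insA i' i T) = -insA i' i T := by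
    rw [← mul_assoc, ← og_mul, ← insG_sw_eq, ← insA_og, ← map_mul, h, map_neg]
  have h2 : og (sw i' r r') * insA i' i T = -(og (sw (i'.succAbove i) r r') * insA i' i T) := by
    have h3 := congrArg (fun t => og (sw i' r r') * t) h1
    rw [← mul_assoc, ← og_mul, sw_mul_self, og_one, one_mul, mul_neg] at h3
    rw [h3, neg_neg]
  rw [add_mul, one_mul, mul_add, h1, h2, neg_add]
  exact add_comm _ _

end DkL1rAux

open DkL1rAux in
theorem ot_Rel1 (i' : Fin (n + 1)) (i : Fin n) (s : Fin k → ℕ) (p : FF k n)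
    (hp : p ∈ Rel1 k n) : ot i' i s p ∈ Rel k (n + 1) := by
  obtain ⟨M, _, _, f, x, m, m', c, Y, h, rfl⟩ := hp
  obtain ⟨hv, hne, hcls, hcard, hY⟩ := h
  rw [ot_app i' i s f hv]
  refine ((Rel k (n + 1)).restrictScalars ℂ).sum_mem (fun y _ => ?_)
  refine ((Rel k (n + 1)).restrictScalars ℂ).smul_mem _ ?_
  refine ((Rel k (n + 1)).restrictScalars ℂ).sum_mem (fun W _ => ?_)
  have hv' : ∀ a, (insF i' i W f a).Valid := fun a => insSk_valid i' i _ _ (hv a)
  have hinj : Function.Injective i'.succAbove := Fin.succAbove_right_injective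
  have H1 : Hyp1 (insF i' i W f) m m' c (Y.image i'.succAbove) := by
    refine ⟨hv', hne, hcls, ?_, ?_⟩
    · rwa [Finset.card_image_of_injective _ hinj]
    · intro z hz
      obtain ⟨z0, hz0, rfl⟩ := Finset.mem_image.1 hz
      exact ⟨insF_sep_succ i' i W f m c z0 (hY z0 hz0).1,
        insF_sep_succ i' i W f m' c z0 (hY z0 hz0).2⟩
  have hc : ∀ z0 ∈ Y, Commute (og (sw (i'.succAbove z0) (m, c) (m', c))) (og (sWG i' i W f)) :=
    fun z0 hz0 => commute_sw _ _ _ _ (sWG_succ i' i W f m c z0 (hY z0 hz0).1)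
      (sWG_succ i' i W f m' c z0 (hY z0 hz0).2)
  have ha : ∀ z0 ∈ Y, z0 ≠ i →
      Anti (insA i' i (aY Y (m, c) (m', c))) (i'.succAbove z0) (m, c) (m', c) :=
    fun z0 hz0 hz => anti_insA i' i z0 hz _ _ _ (anti_aY Y _ _ z0 hz0)
  by_cases hi : i ∈ Y
  · have H2 : Hyp1 (insF i' i W f) m m' c (insert i' ((Y.erase i).image i'.succAbove)) := by
      refine ⟨hv', hne, hcls, ?_, ?_⟩
      · rw [Finset.card_insert_of_notMem, Finset.card_image_of_injective _ hinj,
          Finset.card_erase_add_one hi]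
        · exact hcard
        · intro hz
          obtain ⟨z0, _, hz0⟩ := Finset.mem_image.1 hz
          exact Fin.succAbove_ne i' z0 hz0
      · intro z hz
        rcases Finset.mem_insert.1 hz with rfl | hz
        · exact ⟨insF_sep_same z i W f m c (hY i hi).1, insF_sep_same z i W f m' c (hY i hi).2⟩
        · obtain ⟨z0, hz0, rfl⟩ := Finset.mem_image.1 hz
          have hz1 := Finset.mem_of_mem_erase hz0
          exact ⟨insF_sep_succ i' i W f m c z0 (hY z0 hz1).1,
            insF_sep_succ i' i W f m' c z0 (hY z0 hz1).2⟩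
    have hsplit : og (sWG i' i W f) * insA i' i (aY Y (m, c) (m', c)) =
        (1 / 2 : ℂ) • (og (sWG i' i W f) * ((1 - og (sw (i'.succAbove i) (m, c) (m', c))) *
          insA i' i (aY Y (m, c) (m', c))) +
        og (sWG i' i W f) * ((1 + og (sw (i'.succAbove i) (m, c) (m', c))) *
          insA i' i (aY Y (m, c) (m', c)))) := by
      rw [← mul_add, ← add_mul, sub_add_add_cancel, add_mul, one_mul, mul_add, ← two_smul ℂ,
        smul_smul]
      norm_num
    rw [hsplit, map_smul, map_add]
    refine ((Rel k (n + 1)).restrictScalars ℂ).smul_mem _ ?_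
    refine ((Rel k (n + 1)).restrictScalars ℂ).add_mem ?_ ?_
    · refine app_Th_mem_Rel _ m m' c _ H1 _ ?_ _
      intro z hz
      obtain ⟨z0, hz0, rfl⟩ := Finset.mem_image.1 hz
      refine Anti.mul_left ?_ _ (hc z0 hz0)
      by_cases hz1 : z0 = i
      · subst hz1
        exact (anti_one_sub _ _ _).mul_right _
      · refine Anti.mul_left (ha z0 hz0 hz1) _ ?_
        exact (Commute.one_right _).sub_right
          (commute_sw_sw _ _ _ _ (fun h' => hz1 (hinj h')))
    · refine app_Th_mem_Rel _ m m' c _ H2 _ ?_ _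
      intro z hz
      rcases Finset.mem_insert.1 hz with rfl | hz
      · refine Anti.mul_left (anti_insA_eq z i _ _ _ (anti_aY Y _ _ i hi)) _ ?_
        exact commute_sw _ _ _ _ (sWG_same z i W f _) (sWG_same z i W f _)
      · obtain ⟨z0, hz0, rfl⟩ := Finset.mem_image.1 hz
        have hz1 := Finset.mem_of_mem_erase hz0
        have hz2 := Finset.ne_of_mem_erase hz0
        refine Anti.mul_left ?_ _ (hc z0 hz1)
        refine Anti.mul_left (ha z0 hz1 hz2) _ ?_
        exact (Commute.one_right _).add_right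
          (commute_sw_sw _ _ _ _ (fun h' => hz2 (hinj h')))
  · refine app_Th_mem_Rel _ m m' c _ H1 _ ?_ _
    intro z hz
    obtain ⟨z0, hz0, rfl⟩ := Finset.mem_image.1 hz
    exact Anti.mul_left (ha z0 hz0 (fun h' => hi (h' ▸ hz0))) _ (hc z0 hz0)

end Pool.Agent.Lib.MP_595dc0_ag.Dk
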