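import Mathlib
import Pool.Agent.Lib.MP_595dc0_ag.DkL1r

set_option autoImplicit false

namespace Pool.Agent.Lib.MP_595dc0_ag.Dk

open Equiv Finset MvPolynomial

variable {k n : ℕ}

section Aux

variable {M : Type} [DecidableEq M]

/-- The columns above `Y` after an insertion. -/
def l1s_insY (i' : Fin (n + 1)) (i : Fin n) (Y : Finset (Fin n)) : Finset (Fin (n + 1)) :=
  univ.filter (fun z => prc i' i z ∈ Y)

theorem l1s_mem_insY (i' : Fin (n + 1)) (i : Fin n) (Y : Finset (Fin n)) (z : Fin (n + 1)) :
    z ∈ l1s_insY i' i Y ↔ prc i' i z ∈ Y := by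
  simp [l1s_insY]

theorem l1s_insG_exG (i' : Fin (n + 1)) (i : Fin n) (C : Finset (Fin k)) (Y : Finset (Fin n))
    (τ : Perm M) : insG i' i (exG C Y τ) = exG C (l1s_insY i' i Y) τ := by
  funext z
  show exG C Y τ (prc i' i z) = _
  unfold exG
  simp only [l1s_mem_insY]

theorem l1s_insSk_sep_same (i' : Fin (n + 1)) (i : Fin n) (mv : Prop) [Decidable mv] (a : Sk k n) :
    (insSk i' i mv a).sep i' = if mv then a.sep i else 1 := by
  unfold insSk
  by_cases h : mv
  · simp only [if_pos h, Fin.insertNth_apply_same]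
  · simp only [if_neg h, Fin.insertNth_apply_same]

theorem l1s_insSk_sep_old (i' : Fin (n + 1)) (i : Fin n) (mv : Prop) [Decidable mv] (a : Sk k n) :
    (insSk i' i mv a).sep (i'.succAbove i) = if mv then 1 else a.sep i := by
  unfold insSk
  by_cases h : mv
  · simp only [if_pos h, Fin.insertNth_apply_succAbove, Function.update_self]
  · simp only [if_neg h, Fin.insertNth_apply_succAbove]

theorem l1s_insSk_sep_ne (i' : Fin (n + 1)) (i : Fin n) (mv : Prop) [Decidable mv] (a : Sk k n)
    (z : Fin n) (hz : z ≠ i) : (insSk i' i mv a).sep (i'.succAbove z) = a.sep z := by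
  unfold insSk
  by_cases h : mv
  · simp only [if_pos h, Fin.insertNth_apply_succAbove, Function.update_of_ne hz]
  · simp only [if_neg h, Fin.insertNth_apply_succAbove]

theorem l1s_insSk_sep_cases (i' : Fin (n + 1)) (i : Fin n) (mv : Prop) [Decidable mv] (a : Sk k n)
    (z : Fin (n + 1)) :
    (insSk i' i mv a).sep z = 1 ∨ (insSk i' i mv a).sep z = a.sep (prc i' i z) := by
  rcases Fin.eq_self_or_eq_succAbove i' z with rfl | ⟨z₀, rfl⟩
  · rw [l1s_insSk_sep_same, prc_same]
    by_cases h : mv
    · right; rw [if_pos h]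
    · left; rw [if_neg h]
  · rw [prc_succAbove]
    by_cases hz : z₀ = i
    · subst hz
      rw [l1s_insSk_sep_old]
      by_cases h : mv
      · left; rw [if_pos h]
      · right; rw [if_neg h]
    · right
      exact l1s_insSk_sep_ne i' i mv a z₀ hz

/-- The permutation of the molecules that moves the separators of column `i`. -/
def l1s_thP (i : Fin n) (Y : Finset (Fin n)) (mv : Bool) (τ : Perm M) : Perm M :=
  if mv = true ∧ i ∈ Y then τ else 1

theorem l1s_exF_sep_thP (i : Fin n) (Y : Finset (Fin n)) (mv : Bool) (τ : Perm M) (f : M → Sk k n)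
    (m : M) : (exF Y mv τ f m).sep i = (f ((l1s_thP i Y mv τ)⁻¹ m)).sep i := by
  unfold exF l1s_thP
  by_cases h : mv = true ∧ i ∈ Y
  · simp only [if_pos h]
  · simp only [if_neg h, inv_one, Perm.one_apply]

theorem l1s_mem_map_perm (θ : Perm M) (W : Finset M) (m : M) :
    m ∈ W.map θ.toEmbedding ↔ θ⁻¹ m ∈ W := by
  rw [Finset.mem_map_equiv]
  rfl

theorem l1s_exF_insF (i' : Fin (n + 1)) (i : Fin n) (Y : Finset (Fin n)) (mv : Bool) (τ : Perm M)
    (f : M → Sk k n) (W : Finset M) :
    insF i' i (W.map (l1s_thP i Y mv τ).toEmbedding) (exF Y mv τ f) =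
      exF (l1s_insY i' i Y) mv τ (insF i' i W f) := by
  funext m
  have hsep : (insF i' i (W.map (l1s_thP i Y mv τ).toEmbedding) (exF Y mv τ f) m).sep =
      (exF (l1s_insY i' i Y) mv τ (insF i' i W f) m).sep := by
    funext z
    have key : ∀ z, prc i' i z = i → (exF (l1s_insY i' i Y) mv τ (insF i' i W f) m).sep z =
        (insF i' i W f ((l1s_thP i Y mv τ)⁻¹ m)).sep z := by
      intro z hz
      unfold exF l1s_thP
      simp only [l1s_mem_insY, hz]
      by_cases h : mv = true ∧ i ∈ Y
      · simp only [if_pos h]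
      · simp only [if_neg h, inv_one, Perm.one_apply]
    rcases Fin.eq_self_or_eq_succAbove i' z with rfl | ⟨z₀, rfl⟩
    · rw [key _ (prc_same _ _)]
      unfold insF
      rw [l1s_insSk_sep_same, l1s_insSk_sep_same, l1s_exF_sep_thP]
      simp only [l1s_mem_map_perm]
    · by_cases hz : z₀ = i
      · subst hz
        rw [key _ (prc_succAbove _ _ _)]
        unfold insF
        rw [l1s_insSk_sep_old, l1s_insSk_sep_old, l1s_exF_sep_thP]
        simp only [l1s_mem_map_perm]
      · unfold insF
        rw [l1s_insSk_sep_ne _ _ _ _ _ hz]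
        unfold exF
        simp only [l1s_mem_insY, prc_succAbove, l1s_insSk_sep_ne _ _ _ _ _ hz]
  have hcls : (insF i' i (W.map (l1s_thP i Y mv τ).toEmbedding) (exF Y mv τ f) m).cls =
      (exF (l1s_insY i' i Y) mv τ (insF i' i W f) m).cls := rfl
  generalize insF i' i (W.map (l1s_thP i Y mv τ).toEmbedding) (exF Y mv τ f) m = a at hsep hcls
  generalize exF (l1s_insY i' i Y) mv τ (insF i' i W f) m = b at hsep hcls
  cases a
  cases b
  simp only at hsep hcls
  rw [hsep, hcls]

theorem l1s_sWG_exG (i' : Fin (n + 1)) (i : Fin n) (C : Finset (Fin k)) (Y : Finset (Fin n))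
    (mv : Bool) (τ : Perm M) (f : M → Sk k n) (W : Finset M)
    (h : i ∈ Y → ∀ m, τ m ≠ m → ∀ c, (f m).sep i c ≠ c → (c ∈ C ↔ mv = true)) :
    sWG i' i (W.map (l1s_thP i Y mv τ).toEmbedding) (exF Y mv τ f) * insG i' i (exG C Y τ) =
      insG i' i (exG C Y τ) * sWG i' i W f := by
  funext z
  rw [Pi.mul_apply, Pi.mul_apply]
  by_cases hz : z = i'.succAbove i
  · subst hz
    unfold sWG
    rw [Pi.mulSingle_eq_same, Pi.mulSingle_eq_same]
    have hg : insG i' i (exG C Y τ) (i'.succAbove i) = exG C Y τ i := by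
      show exG C Y τ (prc i' i (i'.succAbove i)) = _
      rw [prc_succAbove]
    rw [hg]
    set π : M → Perm (Fin k) := fun m => if m ∈ W then (f m).sep i else 1 with hπ
    have h1 : (fun m => if m ∈ W.map (l1s_thP i Y mv τ).toEmbedding then (exF Y mv τ f m).sep i
        else 1) = fun m => π ((l1s_thP i Y mv τ)⁻¹ m) := by
      funext m
      simp only [hπ, l1s_mem_map_perm, l1s_exF_sep_thP]
    rw [h1]
    have hp : i ∈ Y → ∀ m, τ m ≠ m → ∀ c, π m c ≠ c → (c ∈ C ↔ mv = true) := by
      intro hi m hm c hc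
      apply h hi m hm c
      by_cases hW : m ∈ W
      · simpa only [hπ, if_pos hW] using hc
      · exact absurd (by simp only [hπ, if_neg hW, Perm.one_apply]) hc
    refine Equiv.ext ?_
    rintro ⟨m, c⟩
    rw [Perm.mul_apply, Perm.mul_apply, exG_apply, Equiv.prodCongrRight_apply,
      Equiv.prodCongrRight_apply, exG_apply]
    by_cases hi : i ∈ Y
    · by_cases hm : τ m = m
      · have hm' : τ⁻¹ m = m := by rw [Perm.inv_eq_iff_eq, hm]
        have hth : (l1s_thP i Y mv τ)⁻¹ m = m := by
          unfold l1s_thP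
          split_ifs
          · exact hm'
          · rfl
        simp only [hm, ite_self, hth]
      · have hm1 : τ (τ m) ≠ τ m := fun e => hm (τ.injective e)
        have hm2 : τ (τ⁻¹ m) ≠ τ⁻¹ m := by
          intro e
          apply hm
          have e' : m = τ⁻¹ m := by simpa using e
          conv_lhs => rw [e']
          simp
        have hpp : π m c ≠ c → (π m c ∈ C ↔ mv = true) := fun hc =>
          hp hi m hm (π m c) (fun e => hc ((π m).injective e))
        cases mv with
        | true =>
          have hth : l1s_thP i Y true τ = τ := by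
            unfold l1s_thP
            rw [if_pos ⟨rfl, hi⟩]
          rw [hth]
          by_cases hc : c ∈ C
          · have hc' : π m c ∈ C := by
              by_cases e : π m c = c
              · rw [e]; exact hc
              · exact (hpp e).2 rfl
            rw [if_pos ⟨hi, hc⟩, if_pos ⟨hi, hc'⟩]
            simp
          · have e1 : π m c = c := by
              by_contra e
              exact hc ((hp hi m hm c e).2 rfl)
            have e2 : π (τ⁻¹ m) c = c := by
              by_contra e
              exact hc ((hp hi _ hm2 c e).2 rfl)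
            rw [if_neg (fun hh => hc hh.2), e1, e2, if_neg (fun hh => hc hh.2)]
        | false =>
          have hth : l1s_thP i Y false τ = 1 := by
            unfold l1s_thP
            rw [if_neg (fun hh => Bool.false_ne_true hh.1)]
          rw [hth, inv_one]
          simp only [Perm.one_apply]
          by_cases hc : c ∈ C
          · have e1 : π m c = c := by
              by_contra e
              exact Bool.false_ne_true ((hp hi m hm c e).1 hc)
            have e2 : π (τ m) c = c := by
              by_contra e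
              exact Bool.false_ne_true ((hp hi _ hm1 c e).1 hc)
            rw [if_pos ⟨hi, hc⟩, e1, e2, if_pos ⟨hi, hc⟩]
          · have hc' : π m c ∉ C := by
              by_cases e : π m c = c
              · rw [e]; exact hc
              · exact fun hh => Bool.false_ne_true ((hpp e).1 hh)
            rw [if_neg (fun hh => hc hh.2), if_neg (fun hh => hc' hh.2)]
    · have hth : l1s_thP i Y mv τ = 1 := by
        unfold l1s_thP
        rw [if_neg (fun hh => hi hh.2)]
      rw [hth, inv_one, if_neg (fun hh => hi hh.1), if_neg (fun hh => hi hh.1)]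
      rfl
  · unfold sWG
    rw [Pi.mulSingle_eq_of_ne hz, Pi.mulSingle_eq_of_ne hz, one_mul, mul_one]

theorem Hyp2.l1s_ins (i' : Fin (n + 1)) (i : Fin n) {f : M → Sk k n} {e : Fin (k * k + 1) ↪ M}
    {C : Finset (Fin k)} {Y : Finset (Fin n)} {mv : Bool} (h : Hyp2 f e C Y mv) (W : Finset M) :
    Hyp2 (insF i' i W f) e C (l1s_insY i' i Y) mv := by
  obtain ⟨h1, h2, h3, h4, h5⟩ := h
  refine ⟨?_, h2, h3, ?_, ?_⟩
  · intro σ m
    rw [← l1s_exF_insF]
    exact insSk_valid i' i _ _ (h1 σ m)
  · intro a z hz c hc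
    rw [l1s_mem_insY] at hz
    apply h4 a _ hz c
    rcases l1s_insSk_sep_cases i' i (e a ∈ W) (f (e a)) z with h0 | h0
    · exact absurd (by unfold insF; rw [h0]; rfl) hc
    · unfold insF at hc
      rwa [h0] at hc
  · intro a
    have h6 := Finset.card_le_one.1 (h5 a)
    rw [Finset.card_le_one]
    intro z hz z' hz'
    rw [mem_filter, l1s_mem_insY] at hz hz'
    have hm : ∀ z, prc i' i z ∈ Y ∧ (insF i' i W f (e a)).sep z ≠ 1 →
        prc i' i z ∈ Y.filter (fun z => (f (e a)).sep z ≠ 1) := by
      intro z hz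
      rw [mem_filter]
      refine ⟨hz.1, ?_⟩
      rcases l1s_insSk_sep_cases i' i (e a ∈ W) (f (e a)) z with h0 | h0
      · exact absurd h0 hz.2
      · rw [← h0]
        exact hz.2
    have hpp := h6 _ (hm z hz) _ (hm z' hz')
    have hno : ¬ ((insF i' i W f (e a)).sep i' ≠ 1 ∧
        (insF i' i W f (e a)).sep (i'.succAbove i) ≠ 1) := by
      unfold insF
      rw [l1s_insSk_sep_same, l1s_insSk_sep_old]
      by_cases hW : e a ∈ W
      · rw [if_pos hW, if_pos hW]
        exact fun hh => hh.2 rfl
      · rw [if_neg hW, if_neg hW]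
        exact fun hh => hh.1 rfl
    rcases Fin.eq_self_or_eq_succAbove i' z with rfl | ⟨z₀, rfl⟩
    · rcases Fin.eq_self_or_eq_succAbove z z' with rfl | ⟨z₁, rfl⟩
      · rfl
      · rw [prc_same, prc_succAbove] at hpp
        subst hpp
        exact absurd ⟨hz.2, hz'.2⟩ hno
    · rcases Fin.eq_self_or_eq_succAbove i' z' with rfl | ⟨z₁, rfl⟩
      · rw [prc_same, prc_succAbove] at hpp
        subst hpp
        exact absurd ⟨hz'.2, hz.2⟩ hno
      · rw [prc_succAbove, prc_succAbove] at hpp
        rw [hpp]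

theorem l1s_sum_powerset_perm [Fintype M] {V : Type} [AddCommMonoid V] (θ : Perm M) (P : M → Prop)
    [DecidablePred P] (F : Finset M → V) :
    ∑ W ∈ (univ.filter (fun m => P (θ⁻¹ m))).powerset, F W =
      ∑ W ∈ (univ.filter P).powerset, F (W.map θ.toEmbedding) := by
  have h : univ.filter (fun m => P (θ⁻¹ m)) = (univ.filter P).map θ.toEmbedding := by
    ext m
    rw [l1s_mem_map_perm]
    simp
  rw [h]
  symm
  refine Finset.sum_bij' (fun W _ => W.map θ.toEmbedding) (fun W _ => W.map θ⁻¹.toEmbedding)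
    ?_ ?_ ?_ ?_ ?_
  · intro W hW
    rw [mem_powerset] at hW ⊢
    exact Finset.map_subset_map.2 hW
  · intro W hW
    rw [mem_powerset] at hW ⊢
    intro m hm
    rw [l1s_mem_map_perm, inv_inv] at hm
    have := hW hm
    rw [l1s_mem_map_perm] at this
    simpa using this
  · intro W _
    ext m
    simp only [l1s_mem_map_perm, inv_inv]
    simp
  · intro W _
    ext m
    simp only [l1s_mem_map_perm, inv_inv]
    simp
  · intro W _
    rfl

theorem l1s_ot_exch [Fintype M] (i' : Fin (n + 1)) (i : Fin n) (s : Fin k → ℕ) {f : M → Sk k n}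
    {e : Fin (k * k + 1) ↪ M} {C : Finset (Fin k)} {Y : Finset (Fin n)} {mv : Bool}
    (h : Hyp2 f e C Y mv) (x : Arr k n (M × Fin k)) (σ : Perm (Fin (k * k + 1))) :
    ot i' i s (ThA univ (exF Y mv (σ.viaEmbedding e) f) (act (exG C Y (σ.viaEmbedding e)) x)) =
      ∑ y, coef s (x i) y • ∑ W ∈ (univ.filter (fun m => (f m).sep i ≠ 1)).powerset,
        ThA univ (exF (l1s_insY i' i Y) mv (σ.viaEmbedding e) (insF i' i W f))
          (act (exG C (l1s_insY i' i Y) (σ.viaEmbedding e)) (act (sWG i' i W f) (insArr i' x y))) := by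
  set τ := σ.viaEmbedding e with hτ
  have h0 := ot_app i' i s (exF Y mv τ f) (h.1 σ) x (og (exG C Y τ))
  rw [app_og] at h0
  refine h0.trans ?_
  refine Finset.sum_congr rfl (fun y _ => ?_)
  congr 1
  have hf : (univ.filter (fun m => (exF Y mv τ f m).sep i ≠ 1)) =
      univ.filter (fun m => (fun a => (f a).sep i ≠ 1) ((l1s_thP i Y mv τ)⁻¹ m)) := by
    ext m
    simp only [mem_filter, mem_univ, true_and, l1s_exF_sep_thP]
  rw [hf]
  refine (l1s_sum_powerset_perm (l1s_thP i Y mv τ) (fun a => (f a).sep i ≠ 1) _).trans ?_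
  refine Finset.sum_congr rfl (fun W _ => ?_)
  rw [insA_og, ← og_mul, app_og, l1s_sWG_exG, l1s_exF_insF, l1s_insG_exG, act_mul]
  · rfl
  · intro hi m hm c hc
    have hr : m ∈ Set.range e := by
      by_contra hr
      exact hm (Perm.viaEmbedding_apply_of_notMem σ e m hr)
    obtain ⟨a, rfl⟩ := hr
    exact h.2.2.2.1 a i hi c hc

end Aux

theorem ot_Rel2 (i' : Fin (n + 1)) (i : Fin n) (s : Fin k → ℕ) (p : FF k n)
    (hp : p ∈ Rel2 k n) : ot i' i s p ∈ Rel k (n + 1) := by
  obtain ⟨M, _, _, f, x, e, C, Y, mv, h, rfl⟩ := hp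
  have key : ot i' i s (R2A univ f x e C Y mv) =
      ∑ y, coef s (x i) y • ∑ W ∈ (univ.filter (fun m => (f m).sep i ≠ 1)).powerset,
        R2A univ (insF i' i W f) (act (sWG i' i W f) (insArr i' x y)) e C (l1s_insY i' i Y) mv := by
    unfold R2A
    rw [map_sum]
    simp only [map_smul, l1s_ot_exch i' i s h x, Finset.smul_sum]
    rw [Finset.sum_comm]
    refine Finset.sum_congr rfl (fun y _ => ?_)
    rw [Finset.sum_comm]
    refine Finset.sum_congr rfl (fun W _ => ?_)
    refine Finset.sum_congr rfl (fun σ _ => ?_)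
    rw [smul_comm]
  rw [key]
  refine Submodule.sum_mem _ (fun y _ => ?_)
  refine Submodule.smul_of_tower_mem _ _ (Submodule.sum_mem _ (fun W _ => ?_))
  apply Ideal.subset_span
  right
  exact ⟨M, inferInstance, inferInstance, insF i' i W f, _, e, C, l1s_insY i' i Y, mv,
    h.l1s_ins i' i W, rfl⟩

end Pool.Agent.Lib.MP_595dc0_ag.Dk
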