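import Mathlib
import Pool.Agent.Lib.MP_595dc0_ag.DkL1s
import Pool.Agent.Lib.MP_595dc0_ag.DkL1o

set_option autoImplicit false

namespace Pool.Agent.Lib.MP_595dc0_ag.Dk

open Equiv Finset MvPolynomial

variable {k n : ℕ}

theorem ot_Rel (i' : Fin (n + 1)) (i : Fin n) (s : Fin k → ℕ) (p : FF k n)
    (hp : p ∈ Rel k n) : ot i' i s p ∈ Rel k (n + 1) := by
  have h : Rel k n ≤ (Rel k (n + 1)).comap (ot i' i s) := by
    unfold Rel
    rw [Ideal.span_le]
    intro q hq
    show ot i' i s q ∈ Rel k (n + 1)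
    rcases hq with (hq | hq) | hq
    · obtain ⟨m, hm, rfl⟩ := hq
      rw [ot_X_invalid i' i s m hm]
      exact Submodule.zero_mem _
    · exact ot_Rel1 i' i s q hq
    · exact ot_Rel2 i' i s q hq
  exact h hp

theorem ot_Nt (i' : Fin (n + 1)) (i : Fin n) (s : Fin k → ℕ) (D : ℕ) (p : FF k n)
    (hp : p ∈ Nt k n D) : ot i' i s p ∈ Nt k (n + 1) D := by
  have h : Nt k n D ≤ (Nt k (n + 1) D).comap (ot i' i s) := by
    unfold Nt
    refine sup_le ?_ ?_
    · rw [Ideal.span_le]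
      intro q hq
      show ot i' i s q ∈ Ideal.span (InvS k (n + 1) D) ⊔ Rel k (n + 1)
      exact Ideal.mem_sup_left (Ideal.subset_span (ot_InvS i' i s D q hq))
    · intro q hq
      show ot i' i s q ∈ Ideal.span (InvS k (n + 1) D) ⊔ Rel k (n + 1)
      exact Ideal.mem_sup_right (ot_Rel i' i s q hq)
  exact h hp

theorem Rel_le_Nt (D : ℕ) : Rel k n ≤ Nt k n D := le_sup_right

end Pool.Agent.Lib.MP_595dc0_ag.Dk
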