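import Mathlib
import Pool.Agent.Lib.MP_595dc0_ag.DkL1

set_option autoImplicit false

/-! Configurations: systems of molecules with pieces (separators and units), weights. -/

namespace Pool.Agent.Lib.MP_595dc0_ag.Dk

open Equiv Finset MvPolynomial

/-- Bound for the average number of unit ends in a row. -/
def avB (k : ℕ) : ℕ := 2 * (2 * k * nuS k + szS k)

/-- Bound for the number of unit ends in a row of a balanced configuration. -/
def rowB (k : ℕ) : ℕ := avB k + szS k + nuS k

/-- Bound for the number of events of a molecule. -/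
def wB (k : ℕ) : ℕ := k * rowB k + szS k

/-- Number of piercing points. -/
def qB (k : ℕ) : ℕ := k ^ 3 * (wB k + 1) * ((2 * wB k + 1) * (k * k))

/-- A configuration. A piece has two cells in one column. -/
structure Cfg (k n : ℕ) (M U : Type) : Type where
  f : M → Sk k n
  x : Arr k n (M × Fin k)
  col : U → Fin n
  role : U → Bool → Fin k
  mo : U → Bool → M

/-- Pre-weights: number of molecules, number of free cells, convexity profile. -/
abbrev PW (n : ℕ) : Type := ℕ × ℕ × (Fin n → ℕ)

/-- Piercing tuples. -/
abbrev PT (k n : ℕ) : Type := Fin (qB k) → Fin n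

/-- Weights. -/
abbrev Wt (k n : ℕ) : Type := ℕ ×ₗ ℕ ×ₗ Lex (Fin n → ℕ) ×ₗ WithBot (Lex (PT k n))

/-- The weight with given pre-weight and piercing part. -/
def mkW {k n : ℕ} (a : PW n) (g : WithBot (Lex (PT k n))) : Wt k n :=
  toLex (a.1, toLex (a.2.1, toLex (toLex a.2.2, g)))

/-- The pre-weight after the insertion of a column before `i''.succ`. -/
def insPW {n : ℕ} (k : ℕ) (i'' : Fin n) (a : PW n) : PW (n + 1) :=
  (a.1, a.2.1 + a.1 * k, fun z => a.2.2 (i''.predAbove z))

namespace Cfg

variable {k n : ℕ} {M U M' U' : Type}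

/-- The row of a cell of a piece. -/
def rw (c : Cfg k n M U) (u : U) (b : Bool) : M × Fin k := (c.mo u b, c.role u b)

/-- A cell of a piece. -/
def cell (c : Cfg k n M U) (p : U × Bool) : Fin n × (M × Fin k) := (c.col p.1, c.rw p.1 p.2)

/-- Units are the pieces with equal roles; the others are separators. -/
def unit (c : Cfg k n M U) (u : U) : Prop := c.role u false = c.role u true

instance (c : Cfg k n M U) (u : U) : Decidable (c.unit u) := by
  unfold unit
  infer_instance

/-- Active ends: both ends of a unit, the first end of a separator. -/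
def actv (c : Cfg k n M U) (p : U × Bool) : Prop := p.2 = false ∨ c.unit p.1

instance (c : Cfg k n M U) (p : U × Bool) : Decidable (c.actv p) := by
  unfold actv
  infer_instance

/-- Valid configurations. -/
structure Valid (c : Cfg k n M U) : Prop where
  sk : ∀ m, (c.f m).Valid
  inj : Function.Injective c.cell
  sep : ∀ u, ¬ c.unit u → c.mo u false = c.mo u true ∧
    (c.f (c.mo u false)).sep (c.col u) = swap (c.role u false) (c.role u true)
  cls : ∀ u, (c.f (c.mo u false)).cls = (c.f (c.mo u true)).cls
  surj : ∀ m z, (c.f m).sep z ≠ 1 → ∃ u, ¬ c.unit u ∧ c.col u = z ∧ c.mo u false = m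

/-- Cells that belong to no piece. -/
def free (c : Cfg k n M U) (q : Fin n × (M × Fin k)) : Prop := ∀ p, c.cell p ≠ q

/-- Relabelling. -/
def map (c : Cfg k n M U) (eM : M ≃ M') (eU : U ≃ U') : Cfg k n M' U' where
  f := fun m => c.f (eM.symm m)
  x := fun z r => c.x z (eM.symm r.1, r.2)
  col := fun u => c.col (eU.symm u)
  role := fun u => c.role (eU.symm u)
  mo := fun u b => eM (c.mo (eU.symm u) b)

/-- Disjoint union. -/
def sum (c : Cfg k n M U) (c' : Cfg k n M' U') : Cfg k n (M ⊕ M') (U ⊕ U') where
  f := Sum.elim c.f c'.f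
  x := fun z r => Sum.elim (fun m => c.x z (m, r.2)) (fun m => c'.x z (m, r.2)) r.1
  col := Sum.elim c.col c'.col
  role := Sum.elim c.role c'.role
  mo := Sum.elim (fun u b => Sum.inl (c.mo u b)) (fun u b => Sum.inr (c'.mo u b))

/-- A new unit between the rows `(m, r)` and `(m', r)` in column `z`. -/
def add (c : Cfg k n M U) (z : Fin n) (r : Fin k) (m m' : M) : Cfg k n M (Option U) where
  f := c.f
  x := c.x
  col := fun u => u.elim z c.col
  role := fun u b => u.elim r (fun u => c.role u b)
  mo := fun u b => u.elim (if b = true then m' else m) (fun u => c.mo u b)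

/-- New letters. -/
def setx (c : Cfg k n M U) (x : Arr k n (M × Fin k)) : Cfg k n M U := { c with x := x }

variable [DecidableEq M]

/-- Exchange of the roles in `C` in the columns `Y` along `τ`. -/
def move (c : Cfg k n M U) (C : Finset (Fin k)) (Y : Finset (Fin n)) (mv : Bool) (τ : Perm M) :
    Cfg k n M U where
  f := exF Y mv τ c.f
  x := act (exG C Y τ) c.x
  col := c.col
  role := c.role
  mo := fun u b => if c.col u ∈ Y ∧ c.role u b ∈ C then τ (c.mo u b) else c.mo u b

variable [Fintype U] [DecidableEq U]

/-- The molecules whose separator is among the pieces in `W`. -/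
def sepM (c : Cfg k n M U) (W : Finset U) : Finset M :=
  (W.filter (fun u => ¬ c.unit u)).image (fun u => c.mo u false)

/-- Insertion of column `i'`; the pieces in `W` move from column `i` to the new column. -/
noncomputable def ins (c : Cfg k n M U) (i' : Fin (n + 1)) (i : Fin n) (W : Finset U)
    (y : M × Fin k → Fin k) : Cfg k (n + 1) M U where
  f := insF i' i (c.sepM W) c.f
  x := act (cprod W (fun u => sw (i'.succAbove i) (c.rw u false) (c.rw u true))) (insArr i' c.x y)
  col := fun u => if u ∈ W then i' else i'.succAbove (c.col u)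
  role := c.role
  mo := c.mo

/-- The antisymmetriser of the units. -/
noncomputable def aU (c : Cfg k n M U) : GA n (M × Fin k) :=
  cprod (univ.filter c.unit) (fun u => 1 - og (sw (c.col u) (c.rw u false) (c.rw u true)))

/-- The events of a molecule. -/
def evs (c : Cfg k n M U) (m : M) : Finset (U × Bool) :=
  univ.filter (fun p => c.actv p ∧ c.mo p.1 p.2 = m)

/-- Good configurations have few events in each molecule. -/
def Good (c : Cfg k n M U) : Prop := ∀ m, (c.evs m).card ≤ wB k

/-- Number of events of `m` in the columns from `z` on. -/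
def hz (c : Cfg k n M U) (m : M) (z : Fin n) : ℕ :=
  ((c.evs m).filter (fun p => z ≤ c.col p.1)).card

/-- `p` pierces the interval between any two events of a molecule. -/
def Pierced (c : Cfg k n M U) (p : PT k n) : Prop :=
  ∀ m, ∀ e ∈ c.evs m, ∀ e' ∈ c.evs m, e ≠ e' → c.col e.1 ≤ c.col e'.1 →
    ∃ s, c.col e.1 ≤ p s ∧ p s ≤ c.col e'.1

open Classical in
/-- The largest piercing tuple. -/
noncomputable def gam (c : Cfg k n M U) : WithBot (Lex (PT k n)) :=
  (univ.filter c.Pierced).sup (fun p => ((toLex p : Lex (PT k n)) : WithBot (Lex (PT k n))))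

/-- Hypotheses for the exchange of `k * k + 1` events. -/
structure ExHyp (c : Cfg k n M U) (e : Fin (k * k + 1) ↪ M) (ε : Fin (k * k + 1) → U × Bool)
    (r₀ r₁ : Fin k) : Prop where
  mem : ∀ i, ε i ∈ c.evs (e i)
  cls : ∀ i i', (c.f (e i)).cls = (c.f (e i')).cls
  role : ∀ i, c.role (ε i).1 false = r₀ ∧ c.role (ε i).1 true = r₁
  sep : ∀ i i', ∀ p ∈ c.evs (e i), c.col p.1 = c.col (ε i').1 → c.col p.1 = c.col (ε i).1

/-- The configuration after the exchange of the events `ε` along `σ`. -/
noncomputable def exch (c : Cfg k n M U) (e : Fin (k * k + 1) ↪ M)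
    (ε : Fin (k * k + 1) → U × Bool) (r₀ r₁ : Fin k) (σ : Perm (Fin (k * k + 1))) : Cfg k n M U :=
  c.move {r₀, r₁} (univ.image (fun i => c.col (ε i).1)) (decide (r₀ ≠ r₁)) (σ.viaEmbedding e)

variable [Fintype M]

/-- The element of the free ring given by a configuration. -/
noncomputable def tau (c : Cfg k n M U) : FF k n := app (Th c.f) c.x c.aU

open Classical in
/-- Number of free cells. -/
noncomputable def tt (c : Cfg k n M U) : ℕ := (univ.filter c.free).card

open Classical in
/-- Number of free cells in column `z` with given class, role and letter. -/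
noncomputable def sing (c : Cfg k n M U) (z : Fin n) (s : (Fin k × Fin k) × Fin k) : ℕ :=
  (univ.filter (fun r : M × Fin k =>
    c.free (z, r) ∧ (c.f r.1).cls = s.1.1 ∧ r.2 = s.1.2 ∧ c.x z r = s.2)).card

/-- The convexity profile. -/
def PP (c : Cfg k n M U) (z : Fin n) : ℕ := ∑ m, c.hz m z ^ 2

/-- The pre-weight. -/
noncomputable def pw (c : Cfg k n M U) : PW n := (Fintype.card M, c.tt, c.PP)

/-- The weight. -/
noncomputable def wt (c : Cfg k n M U) : Wt k n := mkW c.pw c.gam

end Cfg

variable {k n : ℕ}

/-- The elements `τ c` of valid good configurations whose data satisfy `Q`. -/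
def TS (k n : ℕ) (Q : PW n → WithBot (Lex (PT k n)) → Prop) : Set (FF k n) :=
  {p | ∃ (M U : Type) (_ : Fintype M) (_ : DecidableEq M) (_ : Fintype U) (_ : DecidableEq U)
    (c : Cfg k n M U), c.Valid ∧ c.Good ∧ Q c.pw c.gam ∧ p = c.tau}

/-- The elements `τ c` of valid good configurations of pre-weight `a` pierced by `p`. -/
def TSP (a : PW n) (p : PT k n) : Set (FF k n) :=
  {h | ∃ (M U : Type) (_ : Fintype M) (_ : DecidableEq M) (_ : Fintype U) (_ : DecidableEq U)
    (c : Cfg k n M U), c.Valid ∧ c.Good ∧ c.pw = a ∧ c.Pierced p ∧ h = c.tau}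

/-- The span of configurations of weight less than `ω`. -/
noncomputable def GLt (ω : Wt k n) : Submodule ℂ (FF k n) :=
  Submodule.span ℂ (TS k n (fun a g => mkW a g < ω))

/-- Relations and configurations with `m` molecules and fewer than `t` free cells. -/
noncomputable def Low (k n m t : ℕ) : Submodule ℂ (FF k n) :=
  (Rel k n).restrictScalars ℂ ⊔ Submodule.span ℂ (TS k n (fun a _ => a.1 = m ∧ a.2.1 < t))

/-- The target of the leading term analysis. -/
noncomputable def Tgt (D : ℕ) (a : PW n) (p : PT k n) : Submodule ℂ (FF k n) :=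
  (Nt k n D).restrictScalars ℂ ⊔ GLt (mkW a ((toLex p : Lex (PT k n)) : WithBot (Lex (PT k n))))

end Pool.Agent.Lib.MP_595dc0_ag.Dk
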