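import Mathlib
import Pool.Agent.Lib.MP_595dc0_ag.DkL2
import Pool.Agent.Lib.MP_595dc0_ag.DkL1a

set_option autoImplicit false
set_option linter.unusedSectionVars false

namespace Pool.Agent.Lib.MP_595dc0_ag.Dk

open Equiv Finset MvPolynomial

namespace Cfg

variable {k n : ℕ} {M U : Type} [Fintype M] [DecidableEq M] [Fintype U] [DecidableEq U]

theorem inv_app_l2b {α : Type} (g : Perm α) (a : α) : g⁻¹ (g a) = a := g.symm_apply_apply a

theorem app_inv_l2b {α : Type} (g : Perm α) (a : α) : g (g⁻¹ a) = a := g.apply_symm_apply a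

omit [Fintype M] [DecidableEq M] [Fintype U] [DecidableEq U] in
theorem Valid.moved_l2b {c : Cfg k n M U} (hc : c.Valid) (z : Fin n) (m : M) (r : Fin k)
    (h : (c.f m).sep z r ≠ r) : ∃ u b, ¬ c.unit u ∧ c.cell (u, b) = (z, (m, r)) := by
  have h1 : (c.f m).sep z ≠ 1 := fun e => h (by rw [e]; rfl)
  obtain ⟨u, hu, rfl, rfl⟩ := hc.surj m z h1
  obtain ⟨h2, h3⟩ := hc.sep u hu
  rw [h3] at h
  by_cases e : r = c.role u false
  · exact ⟨u, false, hu, by rw [e]; rfl⟩
  · by_cases e' : r = c.role u true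
    · refine ⟨u, true, hu, ?_⟩
      rw [e', h2]
      rfl
    · exact absurd (swap_apply_of_ne_of_ne e e') h

omit [Fintype M] [DecidableEq M] [Fintype U] [DecidableEq U] in
theorem Valid.sep_moves_l2b {c : Cfg k n M U} (hc : c.Valid) (u : U) (hu : ¬ c.unit u)
    (b : Bool) : (c.f (c.mo u false)).sep (c.col u) (c.role u b) ≠ c.role u b := by
  rw [(hc.sep u hu).2]
  cases b
  · rw [swap_apply_left]
    exact fun e => hu e.symm
  · rw [swap_apply_right]
    exact hu

theorem Valid.unit_fix {c : Cfg k n M U} (hc : c.Valid) (u : U) (hu : c.unit u) (b : Bool) :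
    (c.f (c.mo u b)).sep (c.col u) (c.role u b) = c.role u b := by
  by_contra h
  obtain ⟨u', b', h1, h2⟩ := hc.moved_l2b _ _ _ h
  have h3 : (u', b') = (u, b) := hc.inj h2
  rw [(Prod.mk.inj h3).1] at h1
  exact h1 hu

theorem Valid.free_fix {c : Cfg k n M U} (hc : c.Valid) (z : Fin n) (m : M) (r : Fin k)
    (h : c.free (z, (m, r))) : (c.f m).sep z r = r := by
  by_contra h'
  obtain ⟨u', b', _, h2⟩ := hc.moved_l2b _ _ _ h'
  exact h _ h2

theorem Valid.sw_commute {c : Cfg k n M U} (hc : c.Valid) (z : U → Fin n) (u u' : U)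
    (h : u ≠ u') (hz : z u = z u' → c.col u = c.col u') :
    Commute (sw (z u) (c.rw u false) (c.rw u true)) (sw (z u') (c.rw u' false) (c.rw u' true)) := by
  refine commute_of_GD {q | ∃ b, q = (z u, c.rw u b)} {q | ∃ b, q = (z u', c.rw u' b)} ?_ _ _
    (sw_mem_GD _ _ _ _ ⟨false, rfl⟩ ⟨true, rfl⟩) (sw_mem_GD _ _ _ _ ⟨false, rfl⟩ ⟨true, rfl⟩)
  rw [Set.disjoint_left]
  rintro q ⟨b, rfl⟩ ⟨b', e⟩
  obtain ⟨e1, e2⟩ := Prod.mk.inj e
  have h3 : (u, b) = (u', b') := hc.inj (Prod.ext (hz e1) e2)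
  exact h (Prod.mk.inj h3).1

theorem aU_mem_SA (c : Cfg k n M U) :
    c.aU ∈ SA {q : Fin n × (M × Fin k) | ∃ u b, c.unit u ∧ c.cell (u, b) = q} := by
  refine cprod_mem _ _ _ fun u hu => sub_mem (one_mem _) (og_mem_SA _ _ ?_)
  have h := (Finset.mem_filter.1 hu).2
  exact sw_mem_GD _ _ _ _ ⟨u, false, h, rfl⟩ ⟨u, true, h, rfl⟩

theorem Valid.fac_commute_l2b {c : Cfg k n M U} (hc : c.Valid) (u u' : U) (h : u ≠ u') :
    Commute (1 - og (sw (c.col u) (c.rw u false) (c.rw u true)))
      (1 - og (sw (c.col u') (c.rw u' false) (c.rw u' true))) := by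
  have h1 := (hc.sw_commute c.col u u' h id).map (MonoidAlgebra.of ℂ (GG n (M × Fin k)))
  exact (Commute.one_left _).sub_left ((Commute.one_right _).sub_right h1)

theorem anti_aU (c : Cfg k n M U) (hc : c.Valid) (u : U) (hu : c.unit u) :
    Anti c.aU (c.col u) (c.rw u false) (c.rw u true) := by
  unfold aU
  rw [cprod_erase _ _ (fun a _ b _ h => hc.fac_commute_l2b a b h) u
    (Finset.mem_filter.2 ⟨Finset.mem_univ _, hu⟩)]
  exact (anti_one_sub _ _ _).mul_right _

theorem tt_eq (c : Cfg k n M U) (hc : c.Valid) :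
    c.tt + 2 * Fintype.card U = n * (Fintype.card M * k) := by
  classical
  have h1 : c.tt = ((univ.image c.cell)ᶜ).card := by
    unfold tt
    congr 1
    ext q
    simp [free]
  have h2 : (univ.image c.cell).card = 2 * Fintype.card U := by
    rw [Finset.card_image_of_injective _ hc.inj, Finset.card_univ, Fintype.card_prod,
      Fintype.card_bool, mul_comm]
  rw [h1, ← h2, Finset.card_compl_add_card, Fintype.card_prod, Fintype.card_prod,
    Fintype.card_fin, Fintype.card_fin]

theorem tt_eq_sum_sing (c : Cfg k n M U) : c.tt = ∑ z, ∑ s, c.sing z s := by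
  classical
  unfold tt
  rw [Finset.card_filter, Fintype.sum_prod_type]
  refine Finset.sum_congr rfl fun z _ => ?_
  unfold sing
  simp only [Finset.card_filter]
  rw [Finset.sum_comm]
  refine Finset.sum_congr rfl fun r _ => ?_
  rw [Finset.sum_eq_single (((c.f r.1).cls, r.2), c.x z r)]
  · simp
  · rintro ⟨⟨s1, s2⟩, s3⟩ _ hs
    rw [if_neg]
    rintro ⟨_, e1, e2, e3⟩
    apply hs
    simp only at e1 e2 e3
    rw [e1, e2, e3]
  · intro h
    exact absurd (Finset.mem_univ _) h

theorem Valid.f_eq {c c' : Cfg k n M U} (hc : c.Valid) (hc' : c'.Valid)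
    (h1 : ∀ m, (c.f m).cls = (c'.f m).cls) (h2 : c.col = c'.col) (h3 : c.role = c'.role)
    (h4 : ∀ p, c.actv p → c.mo p.1 p.2 = c'.mo p.1 p.2) : c.f = c'.f ∧ c.mo = c'.mo := by
  have hu : ∀ u, c.unit u ↔ c'.unit u := fun u => by
    unfold unit
    rw [h3]
  have h5 : ∀ u, c.mo u false = c'.mo u false := fun u => h4 (u, false) (Or.inl rfl)
  have h6 : ∀ u, ¬ c.unit u → (c.f (c.mo u false)).sep (c.col u) =
      (c'.f (c.mo u false)).sep (c.col u) := fun u h => by
    rw [(hc.sep u h).2, h5, h2, h3, (hc'.sep u fun e => h ((hu u).2 e)).2]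
  constructor
  · funext m
    have h7 : (c.f m).sep = (c'.f m).sep := by
      funext z
      by_cases e : (c.f m).sep z = 1
      · by_cases e' : (c'.f m).sep z = 1
        · rw [e, e']
        · obtain ⟨u, hu1, hu2, hu3⟩ := hc'.surj m z e'
          have h8 := h6 u fun e => hu1 ((hu u).1 e)
          rwa [h5, hu3, h2, hu2] at h8
      · obtain ⟨u, hu1, hu2, hu3⟩ := hc.surj m z e
        have h8 := h6 u hu1
        rwa [hu3, hu2] at h8
    have h8 := h1 m
    revert h7 h8
    cases c.f m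
    cases c'.f m
    intro h7 h8
    simp only at h7 h8
    rw [h7, h8]
  · funext u b
    cases b
    · exact h5 u
    · by_cases e : c.unit u
      · exact h4 (u, true) (Or.inr e)
      · rw [← (hc.sep u e).1, ← (hc'.sep u fun e' => e ((hu u).2 e')).1, h5]

theorem move_rw (c : Cfg k n M U) (C : Finset (Fin k)) (Y : Finset (Fin n)) (mv : Bool)
    (τ : Perm M) (u : U) (b : Bool) :
    (c.move C Y mv τ).rw u b = exG C Y τ (c.col u) (c.rw u b) := by
  unfold rw
  rw [exG_apply]
  rfl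

theorem move_x_cell (c : Cfg k n M U) (C : Finset (Fin k)) (Y : Finset (Fin n)) (mv : Bool)
    (τ : Perm M) (u : U) (b : Bool) :
    (c.move C Y mv τ).x (c.col u) ((c.move C Y mv τ).rw u b) = c.x (c.col u) (c.rw u b) := by
  rw [move_rw]
  show c.x (c.col u) ((exG C Y τ (c.col u))⁻¹ (exG C Y τ (c.col u) (c.rw u b))) = _
  rw [inv_app_l2b]

theorem move_aU_l2b (c : Cfg k n M U) (C : Finset (Fin k)) (Y : Finset (Fin n)) (mv : Bool)
    (τ : Perm M) :
    (c.move C Y mv τ).aU = og (exG C Y τ) * c.aU * og (exG C Y τ)⁻¹ := by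
  have h1 : og (exG C Y τ) * og (exG C Y τ)⁻¹ = (1 : GA n (M × Fin k)) := by
    rw [← og_mul, mul_inv_cancel, og_one]
  have h2 : og (exG C Y τ)⁻¹ * og (exG C Y τ) = (1 : GA n (M × Fin k)) := by
    rw [← og_mul, inv_mul_cancel, og_one]
  unfold aU
  rw [cprod_conj _ _ _ _ h1 h2]
  refine cprod_congr _ _ _ fun u _ => ?_
  rw [mul_sub, sub_mul, mul_one, h1, ← og_mul, ← og_mul, sw_conj, move_rw, move_rw]
  rfl

theorem move_tau (c : Cfg k n M U) (C : Finset (Fin k)) (Y : Finset (Fin n)) (mv : Bool)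
    (τ : Perm M) :
    (c.move C Y mv τ).tau = app (Th (exF Y mv τ c.f)) c.x (og (exG C Y τ) * c.aU) := by
  show app (Th (exF Y mv τ c.f)) (act (exG C Y τ) c.x) (c.move C Y mv τ).aU = _
  rw [← app_mul_og, move_aU_l2b, mul_assoc, ← og_mul, inv_mul_cancel, og_one, mul_one]

theorem move_cell_l2b (c : Cfg k n M U) (C : Finset (Fin k)) (Y : Finset (Fin n)) (mv : Bool)
    (τ : Perm M) (p : U × Bool) :
    (c.move C Y mv τ).cell p = (c.col p.1, exG C Y τ (c.col p.1) (c.rw p.1 p.2)) := by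
  rw [← move_rw c C Y mv]
  rfl

theorem move_free_l2b (c : Cfg k n M U) (C : Finset (Fin k)) (Y : Finset (Fin n)) (mv : Bool)
    (τ : Perm M) (z : Fin n) (r : M × Fin k) :
    (c.move C Y mv τ).free (z, exG C Y τ z r) ↔ c.free (z, r) := by
  refine forall_congr' fun p => not_congr ?_
  rw [move_cell_l2b]
  unfold cell
  constructor
  · intro e
    obtain ⟨e1, e2⟩ := Prod.mk.inj e
    rw [e1] at e2
    rw [e1, (exG C Y τ z).injective e2]
  · intro e
    obtain ⟨e1, e2⟩ := Prod.mk.inj e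
    rw [e1, e2]

theorem move_tt (c : Cfg k n M U) (C : Finset (Fin k)) (Y : Finset (Fin n)) (mv : Bool)
    (τ : Perm M) : (c.move C Y mv τ).tt = c.tt := by
  unfold tt
  symm
  refine Finset.card_equiv (Equiv.prodCongrRight (exG C Y τ)) fun q => ?_
  simp only [Finset.mem_filter, Finset.mem_univ, true_and]
  exact (move_free_l2b c C Y mv τ q.1 q.2).symm

theorem move_sing (c : Cfg k n M U) (C : Finset (Fin k)) (Y : Finset (Fin n)) (mv : Bool)
    (τ : Perm M) (hτ : ∀ m, (c.f (τ m)).cls = (c.f m).cls) : (c.move C Y mv τ).sing = c.sing := by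
  funext z s
  unfold sing
  symm
  refine Finset.card_equiv (exG C Y τ z) fun r => ?_
  simp only [Finset.mem_filter, Finset.mem_univ, true_and]
  have h1 : (c.move C Y mv τ).x z (exG C Y τ z r) = c.x z r := by
    show c.x z ((exG C Y τ z)⁻¹ (exG C Y τ z r)) = _
    rw [inv_app_l2b]
  have h2 : (exG C Y τ z r).2 = r.2 := by
    obtain ⟨m, a⟩ := r
    rw [exG_apply]
  have h3 : ((c.move C Y mv τ).f (exG C Y τ z r).1).cls = (c.f r.1).cls := by
    obtain ⟨m, a⟩ := r
    rw [exG_apply]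
    show (c.f (if z ∈ Y ∧ a ∈ C then τ m else m)).cls = (c.f m).cls
    split_ifs
    · exact hτ m
    · rfl
  rw [move_free_l2b, h1, h2, h3]

theorem move_valid (c : Cfg k n M U) (hc : c.Valid) (C : Finset (Fin k)) (Y : Finset (Fin n))
    (mv : Bool) (τ : Perm M) (hτ : ∀ m, (c.f (τ m)).cls = (c.f m).cls)
    (hH : ∀ z ∈ Y, ∀ m, τ m ≠ m → ∀ r, (c.f m).sep z r ≠ r → (r ∈ C ↔ mv = true))
    (hsk : ∀ m, (exF Y mv τ c.f m).Valid) : (c.move C Y mv τ).Valid := by
  have key : ∀ u, ¬ c.unit u → ∀ b, (c.move C Y mv τ).mo u b =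
      if mv = true ∧ c.col u ∈ Y then τ (c.mo u false) else c.mo u false := by
    intro u hu b
    have h0 : c.mo u b = c.mo u false := by
      cases b
      · rfl
      · exact (hc.sep u hu).1.symm
    show (if c.col u ∈ Y ∧ c.role u b ∈ C then τ (c.mo u b) else c.mo u b) = _
    rw [h0]
    by_cases e : τ (c.mo u false) = c.mo u false
    · rw [e, ite_self, ite_self]
    · by_cases hz : c.col u ∈ Y
      · have h1 := hH _ hz _ e _ (hc.sep_moves_l2b u hu b)
        simp only [hz, h1, true_and, and_true]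
      · simp only [hz, false_and, and_false, if_false]
  refine ⟨hsk, fun p p' e => ?_, fun u hu => ?_, fun u => ?_, fun m z h => ?_⟩
  · rw [move_cell_l2b, move_cell_l2b] at e
    obtain ⟨e1, e2⟩ := Prod.mk.inj e
    rw [e1] at e2
    exact hc.inj (Prod.ext e1 ((exG C Y τ _).injective e2))
  · refine ⟨by rw [key u hu, key u hu], ?_⟩
    rw [key u hu]
    show (if mv = true ∧ c.col u ∈ Y then
      (c.f (τ⁻¹ (if mv = true ∧ c.col u ∈ Y then τ (c.mo u false) else c.mo u false))).sep (c.col u)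
      else (c.f (if mv = true ∧ c.col u ∈ Y then τ (c.mo u false) else c.mo u false)).sep (c.col u))
        = swap (c.role u false) (c.role u true)
    split_ifs
    · rw [inv_app_l2b]
      exact (hc.sep u hu).2
    · exact (hc.sep u hu).2
  · have h1 : ∀ b, ((c.move C Y mv τ).f ((c.move C Y mv τ).mo u b)).cls =
        (c.f (c.mo u b)).cls := by
      intro b
      show (c.f (if c.col u ∈ Y ∧ c.role u b ∈ C then τ (c.mo u b) else c.mo u b)).cls = _
      split_ifs
      · exact hτ _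
      · rfl
    rw [h1, h1]
    exact hc.cls u
  · have h1 : (if mv = true ∧ z ∈ Y then (c.f (τ⁻¹ m)).sep z else (c.f m).sep z) ≠ 1 := h
    by_cases e : mv = true ∧ z ∈ Y
    · rw [if_pos e] at h1
      obtain ⟨u, hu, hu2, hu3⟩ := hc.surj _ _ h1
      refine ⟨u, hu, hu2, ?_⟩
      rw [key u hu, hu2, if_pos e, hu3, app_inv_l2b]
    · rw [if_neg e] at h1
      obtain ⟨u, hu, hu2, hu3⟩ := hc.surj _ _ h1
      refine ⟨u, hu, hu2, ?_⟩
      rw [key u hu, hu2, if_neg e, hu3]

theorem move_one (c : Cfg k n M U) (C : Finset (Fin k)) (Y : Finset (Fin n)) (mv : Bool) :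
    c.move C Y mv 1 = c := by
  unfold move
  rw [exF_one, exG_one, act_one]
  simp only [Perm.one_apply, ite_self]

theorem setx_valid (c : Cfg k n M U) (hc : c.Valid) (x : Arr k n (M × Fin k)) :
    (c.setx x).Valid := ⟨hc.sk, hc.inj, hc.sep, hc.cls, hc.surj⟩

theorem add_valid (c : Cfg k n M U) (hc : c.Valid) (z : Fin n) (r : Fin k) (m m' : M)
    (hne : m ≠ m') (hcls : (c.f m).cls = (c.f m').cls) (h : c.free (z, (m, r)))
    (h' : c.free (z, (m', r))) : (c.add z r m m').Valid := by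
  have h1 : ∀ b, c.free ((c.add z r m m').cell (none, b)) := by
    intro b
    cases b
    · exact h
    · exact h'
  refine ⟨hc.sk, ?_, ?_, ?_, fun a w hw => ?_⟩
  · rintro ⟨_ | u, b⟩ ⟨_ | u', b'⟩ e
    · have e1 : (if b = true then m' else m) = if b' = true then m' else m :=
        congrArg (fun q => q.2.1) e
      cases b <;> cases b'
      · rfl
      · exact absurd e1 hne
      · exact absurd e1.symm hne
      · rfl
    · exact absurd e.symm (h1 b (u', b'))
    · exact absurd e (h1 b' (u, b))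
    · have e1 : (u, b) = (u', b') := hc.inj e
      obtain ⟨rfl, rfl⟩ := Prod.mk.inj e1
      rfl
  · rintro (_ | u) hu
    · exact absurd rfl hu
    · exact hc.sep u hu
  · rintro (_ | u)
    · exact hcls
    · exact hc.cls u
  · obtain ⟨u, hu⟩ := hc.surj a w hw
    exact ⟨some u, hu⟩

theorem add_tau (c : Cfg k n M U) (hc : c.Valid) (z : Fin n) (r : Fin k) (m m' : M)
    (h : c.free (z, (m, r))) (h' : c.free (z, (m', r))) :
    (c.add z r m m').tau = c.tau - (c.setx (act (sw z (m, r) (m', r)) c.x)).tau := by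
  have hs : (1 - og (sw z (m, r) (m', r)) : GA n (M × Fin k)) ∈ SA {q | c.free q} :=
    sub_mem (one_mem _) (og_mem_SA _ _ (sw_mem_GD _ _ _ _ h h'))
  have hd : Disjoint {q : Fin n × (M × Fin k) | c.free q} {q | ∃ p, c.cell p = q} := by
    rw [Set.disjoint_left]
    rintro q hq ⟨p, hp⟩
    exact hq p hp
  have h1 : ∀ u, Commute (1 - og (sw z (m, r) (m', r)))
      (1 - og (sw (c.col u) (c.rw u false) (c.rw u true))) := fun u =>
    commute_of_SA _ _ hd _ _ hs
      (sub_mem (one_mem _) (og_mem_SA _ _ (sw_mem_GD _ _ _ _ ⟨(u, false), rfl⟩ ⟨(u, true), rfl⟩)))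
  have h2 : ∀ a b : Option U, a ≠ b → Commute
      (1 - og (sw ((c.add z r m m').col a) ((c.add z r m m').rw a false)
        ((c.add z r m m').rw a true)))
      (1 - og (sw ((c.add z r m m').col b) ((c.add z r m m').rw b false)
        ((c.add z r m m').rw b true))) := by
    rintro (_ | u) (_ | u') e
    · exact absurd rfl e
    · exact h1 u'
    · exact (h1 u).symm
    · exact hc.fac_commute_l2b u u' fun e' => e (by rw [e'])
  have h3 : (c.add z r m m').aU = (1 - og (sw z (m, r) (m', r))) * c.aU := by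
    unfold aU
    rw [cprod_erase (univ.filter (c.add z r m m').unit) _ (fun a _ b _ e => h2 a b e) none
      (Finset.mem_filter.2 ⟨Finset.mem_univ _, rfl⟩)]
    refine congrArg₂ (· * ·) rfl (cprod_bij _ _ _ _ some ⟨fun u hu => ?_,
      (Option.some_injective U).injOn, ?_⟩ (fun u _ => rfl) (fun a _ b _ e => h2 a b e)).symm
    · exact Finset.mem_coe.2 (Finset.mem_erase.2 ⟨Option.some_ne_none u,
        Finset.mem_filter.2 ⟨Finset.mem_univ _, (Finset.mem_filter.1 hu).2⟩⟩)
    · rintro (_ | u) hu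
      · exact absurd rfl (Finset.mem_erase.1 hu).1
      · exact ⟨u, Finset.mem_coe.2 (Finset.mem_filter.2 ⟨Finset.mem_univ _,
          (Finset.mem_filter.1 (Finset.mem_erase.1 hu).2).2⟩), rfl⟩
  have h4 : Commute (1 - og (sw z (m, r) (m', r))) c.aU :=
    commute_cprod _ _ _ fun u _ => h1 u
  show app (Th c.f) c.x (c.add z r m m').aU =
    app (Th c.f) c.x c.aU - app (Th c.f) (act (sw z (m, r) (m', r)) c.x) c.aU
  rw [h3, h4.eq, mul_sub, mul_one, map_sub, app_mul_og]

end Cfg

end Pool.Agent.Lib.MP_595dc0_ag.Dk
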