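import Mathlib
import Pool.Agent.Lib.MP_595dc0_ag.DkL2b

set_option autoImplicit false

namespace Pool.Agent.Lib.MP_595dc0_ag.Dk

open Equiv Finset MvPolynomial

namespace Cfg

variable {k n : ℕ} {M U M' U' : Type} [Fintype M] [DecidableEq M] [Fintype U] [DecidableEq U]
  [Fintype M'] [DecidableEq M'] [Fintype U'] [DecidableEq U']

theorem l2a_ite {P Q : Prop} {i : Decidable P} {i' : Decidable Q} (h : P ↔ Q) :
    @ite ℕ P i 1 0 = @ite ℕ Q i' 1 0 := if_congr h rfl rfl

/-- The factor of a unit. -/
noncomputable def l2aF (c : Cfg k n M U) (u : U) : GA n (M × Fin k) :=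
  1 - og (sw (c.col u) (c.rw u false) (c.rw u true))

theorem l2a_comm (c : Cfg k n M U) (hc : c.Valid) (u u' : U) (h : u ≠ u') :
    Commute (c.l2aF u) (c.l2aF u') := by
  have h1 := (hc.sw_commute c.col u u' h (fun e => e)).map
    (MonoidAlgebra.of ℂ (GG n (M × Fin k)))
  exact (Commute.one_left _).sub_left ((Commute.one_right _).sub_right h1)

omit [Fintype M] [Fintype M'] [Fintype U'] [DecidableEq U] [DecidableEq U'] in
theorem l2a_emb (c : Cfg k n M U) (d : Cfg k n M' U') (j : M × Fin k ↪ M' × Fin k) (φ : U → U')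
    (h1 : ∀ u, d.col (φ u) = c.col u) (h2 : ∀ u b, d.rw (φ u) b = j (c.rw u b)) :
    embA j c.aU = cprod (univ.filter c.unit) (fun u => d.l2aF (φ u)) := by
  unfold aU
  rw [map_cprod]
  refine cprod_congr _ _ _ fun u _ => ?_
  rw [map_sub, map_one, embA_og, embG_sw, l2aF, h1, h2, h2]

theorem map_valid (c : Cfg k n M U) (hc : c.Valid) (eM : M ≃ M') (eU : U ≃ U') :
    (c.map eM eU).Valid := by
  refine ⟨fun m => hc.sk _, ?_, fun u hu => ?_, fun u => ?_, fun m z h => ?_⟩
  · rintro ⟨u, b⟩ ⟨u', b'⟩ h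
    have h1 : c.cell (eU.symm u, b) = c.cell (eU.symm u', b') := by
      simp only [cell, rw, map, Prod.mk.injEq, EmbeddingLike.apply_eq_iff_eq] at h ⊢
      exact h
    have h2 := hc.inj h1
    simp only [Prod.mk.injEq, EmbeddingLike.apply_eq_iff_eq] at h2
    rw [h2.1, h2.2]
  · obtain ⟨h1, h2⟩ := hc.sep (eU.symm u) hu
    refine ⟨congrArg eM h1, ?_⟩
    simpa only [map, Equiv.symm_apply_apply] using h2
  · simpa only [map, Equiv.symm_apply_apply] using hc.cls (eU.symm u)
  · obtain ⟨u, h1, h2, h3⟩ := hc.surj (eM.symm m) z h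
    refine ⟨eU u, ?_, ?_, ?_⟩
    · simpa only [unit, map, Equiv.symm_apply_apply] using h1
    · simpa only [map, Equiv.symm_apply_apply] using h2
    · simp only [map, Equiv.symm_apply_apply, h3, Equiv.apply_symm_apply]

theorem map_tau (c : Cfg k n M U) (hc : c.Valid) (eM : M ≃ M') (eU : U ≃ U') :
    (c.map eM eU).tau = c.tau := by
  have hv := map_valid c hc eM eU
  let j : M × Fin k ↪ M' × Fin k := rowE eM.toEmbedding (fun _ => 1)
  have hj : ∀ r, j r = (eM r.1, r.2) := fun r => rfl
  have e1 : embA j c.aU = (c.map eM eU).aU := by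
    rw [l2a_emb c (c.map eM eU) j eU (fun u => by simp [map])
      (fun u b => by simp [map, rw, hj])]
    refine cprod_bij _ _ _ (c.map eM eU).l2aF eU ⟨fun u hu => ?_, eU.injective.injOn, ?_⟩
      (fun _ _ => rfl) (fun a _ b _ h => l2a_comm _ hv a b h)
    · simpa [unit, map] using hu
    · intro u hu
      exact ⟨eU.symm u, by simpa [unit, map] using hu, eU.apply_symm_apply u⟩
  have e2 : (fun z r => (c.map eM eU).x z (j r)) = c.x := by
    funext z r
    simp [map, hj]
  unfold tau
  rw [← e1, app_embA j (Th c.f), e2]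
  intro g
  unfold Th ThA
  rw [← eM.prod_comp]
  refine Finset.prod_congr rfl fun m _ => ?_
  congr 1
  refine Prod.ext (by simp [mol, map]) ?_
  funext z r
  exact act_embG j g (c.map eM eU).x z (m, r)

omit [Fintype M] [DecidableEq M] [Fintype U] [DecidableEq U]
  [Fintype M'] [DecidableEq M'] [Fintype U'] [DecidableEq U'] in
theorem l2a_map_free (c : Cfg k n M U) (eM : M ≃ M') (eU : U ≃ U') (z : Fin n) (m : M)
    (r : Fin k) : (c.map eM eU).free (z, (eM m, r)) ↔ c.free (z, (m, r)) := by
  constructor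
  · rintro h ⟨u, b⟩ e
    refine h (eU u, b) ?_
    simpa [cell, rw, map] using e
  · rintro h ⟨u, b⟩ e
    refine h (eU.symm u, b) ?_
    simpa [cell, rw, map] using e

theorem map_sing (c : Cfg k n M U) (eM : M ≃ M') (eU : U ≃ U') :
    (c.map eM eU).sing = c.sing := by
  funext z s
  unfold sing
  rw [Finset.card_filter, Finset.card_filter, Fintype.sum_prod_type, Fintype.sum_prod_type,
    ← eM.sum_comp]
  refine Finset.sum_congr rfl fun m _ => Finset.sum_congr rfl fun r _ => l2a_ite ?_
  rw [l2a_map_free]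
  simp [map]

theorem sum_valid (c : Cfg k n M U) (c' : Cfg k n M' U') (hc : c.Valid) (hc' : c'.Valid) :
    (c.sum c').Valid := by
  refine ⟨?_, ?_, ?_, ?_, ?_⟩
  · rintro (m | m)
    · exact hc.sk m
    · exact hc'.sk m
  · rintro ⟨u | u, b⟩ ⟨u' | u', b'⟩ h
    · have h1 : c.cell (u, b) = c.cell (u', b') := by simpa [cell, rw, sum] using h
      have h2 := hc.inj h1
      simp only [Prod.mk.injEq] at h2
      rw [h2.1, h2.2]
    · simp [cell, rw, sum] at h
    · simp [cell, rw, sum] at h
    · have h1 : c'.cell (u, b) = c'.cell (u', b') := by simpa [cell, rw, sum] using h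
      have h2 := hc'.inj h1
      simp only [Prod.mk.injEq] at h2
      rw [h2.1, h2.2]
  · rintro (u | u) hu
    · obtain ⟨h1, h2⟩ := hc.sep u hu
      exact ⟨congrArg Sum.inl h1, h2⟩
    · obtain ⟨h1, h2⟩ := hc'.sep u hu
      exact ⟨congrArg Sum.inr h1, h2⟩
  · rintro (u | u)
    · exact hc.cls u
    · exact hc'.cls u
  · rintro (m | m) z h
    · obtain ⟨u, h1, h2, h3⟩ := hc.surj m z h
      exact ⟨Sum.inl u, h1, h2, congrArg Sum.inl h3⟩
    · obtain ⟨u, h1, h2, h3⟩ := hc'.surj m z h
      exact ⟨Sum.inr u, h1, h2, congrArg Sum.inr h3⟩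

/-- Left inclusion of ends. -/
def l2aL (U U' : Type) : U × Bool ↪ (U ⊕ U') × Bool :=
  ⟨fun p => (Sum.inl p.1, p.2), by
    rintro ⟨a, b⟩ ⟨a', b'⟩ h
    simpa using h⟩

/-- Right inclusion of ends. -/
def l2aR (U U' : Type) : U' × Bool ↪ (U ⊕ U') × Bool :=
  ⟨fun p => (Sum.inr p.1, p.2), by
    rintro ⟨a, b⟩ ⟨a', b'⟩ h
    simpa using h⟩

omit [Fintype M] [Fintype M'] in
theorem l2a_evs_inl (c : Cfg k n M U) (c' : Cfg k n M' U') (m : M) :
    (c.sum c').evs (Sum.inl m) = (c.evs m).map (l2aL U U') := by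
  ext ⟨u | u, b⟩
  · simp [evs, l2aL, actv, unit, sum]
  · simp [evs, l2aL, actv, unit, sum]

omit [Fintype M] [Fintype M'] in
theorem l2a_evs_inr (c : Cfg k n M U) (c' : Cfg k n M' U') (m : M') :
    (c.sum c').evs (Sum.inr m) = (c'.evs m).map (l2aR U U') := by
  ext ⟨u | u, b⟩
  · simp [evs, l2aR, actv, unit, sum]
  · simp [evs, l2aR, actv, unit, sum]

theorem sum_good (c : Cfg k n M U) (c' : Cfg k n M' U') (hc : c.Good) (hc' : c'.Good) :
    (c.sum c').Good := by
  rintro (m | m)
  · rw [l2a_evs_inl, Finset.card_map]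
    exact hc m
  · rw [l2a_evs_inr, Finset.card_map]
    exact hc' m

omit [Fintype U] [DecidableEq U] [Fintype U'] [DecidableEq U'] [DecidableEq M]
  [DecidableEq M'] in
theorem l2a_app_sum (f : M → Sk k n) (f' : M' → Sk k n) (x : Arr k n ((M ⊕ M') × Fin k))
    (j : M × Fin k ↪ (M ⊕ M') × Fin k) (j' : M' × Fin k ↪ (M ⊕ M') × Fin k)
    (hj : ∀ r, j r = (Sum.inl r.1, r.2)) (hj' : ∀ r, j' r = (Sum.inr r.1, r.2))
    (T : GA n (M × Fin k)) (T' : GA n (M' × Fin k)) :
    app (Th (Sum.elim f f')) x (embA j T * embA j' T') =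
      app (Th f) (fun z r => x z (j r)) T * app (Th f') (fun z r => x z (j' r)) T' := by
  induction T using GA_induction with
  | hg g =>
    induction T' using GA_induction with
    | hg g' =>
      rw [embA_og, embA_og, ← og_mul, app_og, app_og, app_og, act_mul]
      unfold Th ThA
      rw [Fintype.prod_sum_type]
      congr 1
      · refine Finset.prod_congr rfl fun m _ => ?_
        congr 1
        refine Prod.ext rfl ?_
        funext z r
        have e : (fun z r => act (embG j' g') x z (j r)) = fun z r => x z (j r) := by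
          funext z r
          refine act_embG_of_notMem j' g' x z _ ?_
          rintro ⟨a, ha⟩
          rw [hj, hj'] at ha
          simp at ha
        have h1 := act_embG j g (act (embG j' g') x) z (m, r)
        rw [e, hj] at h1
        exact h1
      · refine Finset.prod_congr rfl fun m _ => ?_
        congr 1
        refine Prod.ext rfl ?_
        funext z r
        have h1 := act_embG_of_notMem j g (act (embG j' g') x) z (j' (m, r)) (by
          rintro ⟨a, ha⟩
          rw [hj, hj'] at ha
          simp at ha)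
        rw [act_embG, hj'] at h1
        exact h1
    | h0 => simp
    | hadd a b ha hb => simp only [map_add, mul_add, ha, hb]
    | hsmul c a ha => simp only [map_smul, mul_smul_comm, ha]
  | h0 => simp
  | hadd a b ha hb => simp only [map_add, add_mul, ha, hb]
  | hsmul c a ha => simp only [map_smul, smul_mul_assoc, ha]

theorem sum_tau (c : Cfg k n M U) (c' : Cfg k n M' U') (hc : c.Valid) (hc' : c'.Valid) :
    (c.sum c').tau = c.tau * c'.tau := by
  have hv := sum_valid c c' hc hc'
  let j : M × Fin k ↪ (M ⊕ M') × Fin k := rowE Function.Embedding.inl (fun _ => 1)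
  let j' : M' × Fin k ↪ (M ⊕ M') × Fin k := rowE Function.Embedding.inr (fun _ => 1)
  have hj : ∀ r, j r = (Sum.inl r.1, r.2) := fun r => rfl
  have hj' : ∀ r, j' r = (Sum.inr r.1, r.2) := fun r => rfl
  have e0 : univ.filter (c.sum c').unit = (univ.filter c.unit).map Function.Embedding.inl ∪
      (univ.filter c'.unit).map Function.Embedding.inr := by
    ext (u | u)
    · simp [unit, sum]
    · simp [unit, sum]
  have e1 : (c.sum c').aU = embA j c.aU * embA j' c'.aU := by
    rw [l2a_emb c (c.sum c') j Sum.inl (fun u => rfl) (fun u b => rfl),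
      l2a_emb c' (c.sum c') j' Sum.inr (fun u => rfl) (fun u b => rfl),
      cprod_bij _ ((univ.filter c.unit).map Function.Embedding.inl) _ (c.sum c').l2aF Sum.inl
        ⟨fun u hu => by simpa using hu, Sum.inl_injective.injOn, fun u hu => by simpa using hu⟩
        (fun _ _ => rfl) (fun a _ b _ h => l2a_comm _ hv a b h),
      cprod_bij _ ((univ.filter c'.unit).map Function.Embedding.inr) _ (c.sum c').l2aF Sum.inr
        ⟨fun u hu => by simpa using hu, Sum.inr_injective.injOn, fun u hu => by simpa using hu⟩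
        (fun _ _ => rfl) (fun a _ b _ h => l2a_comm _ hv a b h),
      ← cprod_union _ _ _ (by simp [Finset.disjoint_left])
        (fun a _ b _ h => l2a_comm _ hv a b h), ← e0]
    rfl
  unfold tau
  rw [e1]
  exact l2a_app_sum c.f c'.f (c.sum c').x j j' hj hj' c.aU c'.aU

omit [Fintype M] [DecidableEq M] [Fintype U] [DecidableEq U]
  [Fintype M'] [DecidableEq M'] [Fintype U'] [DecidableEq U'] in
theorem l2a_free_inl (c : Cfg k n M U) (c' : Cfg k n M' U') (z : Fin n) (m : M) (r : Fin k) :
    (c.sum c').free (z, (Sum.inl m, r)) ↔ c.free (z, (m, r)) := by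
  constructor
  · rintro h ⟨u, b⟩ e
    refine h (Sum.inl u, b) ?_
    simpa [cell, rw, sum] using e
  · rintro h ⟨u | u, b⟩ e
    · refine h (u, b) ?_
      simpa [cell, rw, sum] using e
    · simp [cell, rw, sum] at e

omit [Fintype M] [DecidableEq M] [Fintype U] [DecidableEq U]
  [Fintype M'] [DecidableEq M'] [Fintype U'] [DecidableEq U'] in
theorem l2a_free_inr (c : Cfg k n M U) (c' : Cfg k n M' U') (z : Fin n) (m : M') (r : Fin k) :
    (c.sum c').free (z, (Sum.inr m, r)) ↔ c'.free (z, (m, r)) := by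
  constructor
  · rintro h ⟨u, b⟩ e
    refine h (Sum.inr u, b) ?_
    simpa [cell, rw, sum] using e
  · rintro h ⟨u | u, b⟩ e
    · simp [cell, rw, sum] at e
    · refine h (u, b) ?_
      simpa [cell, rw, sum] using e

theorem l2a_sum_sing (c : Cfg k n M U) (c' : Cfg k n M' U') (z : Fin n)
    (s : (Fin k × Fin k) × Fin k) : (c.sum c').sing z s = c.sing z s + c'.sing z s := by
  unfold sing
  rw [Finset.card_filter, Finset.card_filter, Finset.card_filter, Fintype.sum_prod_type,
    Fintype.sum_prod_type, Fintype.sum_prod_type, Fintype.sum_sum_type]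
  congr 1
  · refine Finset.sum_congr rfl fun m _ => Finset.sum_congr rfl fun r _ => l2a_ite ?_
    rw [l2a_free_inl]
    exact Iff.rfl
  · refine Finset.sum_congr rfl fun m _ => Finset.sum_congr rfl fun r _ => l2a_ite ?_
    rw [l2a_free_inr]
    exact Iff.rfl

theorem sum_pw (c : Cfg k n M U) (c' : Cfg k n M' U') : (c.sum c').pw = c.pw + c'.pw := by
  refine Prod.ext Fintype.card_sum (Prod.ext ?_ ?_)
  · show (c.sum c').tt = c.tt + c'.tt
    simp only [tt_eq_sum_sing, l2a_sum_sing, Finset.sum_add_distrib]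
  · funext z
    show (c.sum c').PP z = c.PP z + c'.PP z
    unfold PP
    rw [Fintype.sum_sum_type]
    congr 1
    · refine Finset.sum_congr rfl fun m _ => ?_
      unfold hz
      rw [l2a_evs_inl, Finset.filter_map, Finset.card_map]
      rfl
    · refine Finset.sum_congr rfl fun m _ => ?_
      unfold hz
      rw [l2a_evs_inr, Finset.filter_map, Finset.card_map]
      rfl

theorem sum_sing (c : Cfg k n M U) (c' : Cfg k n M' U') :
    (c.sum c').sing = c.sing + c'.sing := by
  funext z s
  exact l2a_sum_sing c c' z s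

theorem sum_pierced (c : Cfg k n M U) (c' : Cfg k n M' U') (p : PT k n) :
    (c.sum c').Pierced p ↔ c.Pierced p ∧ c'.Pierced p := by
  constructor
  · intro h
    refine ⟨fun m e he e' he' hne hle => ?_, fun m e he e' he' hne hle => ?_⟩
    · refine h (Sum.inl m) (l2aL U U' e) ?_ (l2aL U U' e') ?_
        (fun q => hne ((l2aL U U').injective q)) hle
      · rw [l2a_evs_inl]
        exact Finset.mem_map_of_mem _ he
      · rw [l2a_evs_inl]
        exact Finset.mem_map_of_mem _ he'
    · refine h (Sum.inr m) (l2aR U U' e) ?_ (l2aR U U' e') ?_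
        (fun q => hne ((l2aR U U').injective q)) hle
      · rw [l2a_evs_inr]
        exact Finset.mem_map_of_mem _ he
      · rw [l2a_evs_inr]
        exact Finset.mem_map_of_mem _ he'
  · rintro ⟨h, h'⟩ (m | m) e he e' he' hne hle
    · rw [l2a_evs_inl] at he he'
      obtain ⟨a, ha, rfl⟩ := Finset.mem_map.1 he
      obtain ⟨a', ha', rfl⟩ := Finset.mem_map.1 he'
      exact h m a ha a' ha' (fun q => hne (q ▸ rfl)) hle
    · rw [l2a_evs_inr] at he he'
      obtain ⟨a, ha, rfl⟩ := Finset.mem_map.1 he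
      obtain ⟨a', ha', rfl⟩ := Finset.mem_map.1 he'
      exact h' m a ha a' ha' (fun q => hne (q ▸ rfl)) hle

theorem sum_gam_le (c : Cfg k n M U) (c' : Cfg k n M' U') : (c.sum c').gam ≤ c'.gam := by
  unfold gam
  refine Finset.sup_mono fun p hp => ?_
  simp only [Finset.mem_filter, Finset.mem_univ, true_and] at hp ⊢
  exact ((sum_pierced c c' p).1 hp).2

theorem gam_lt_iff (c : Cfg k n M U) (p : PT k n) :
    c.gam < ((toLex p : Lex (PT k n)) : WithBot (Lex (PT k n))) ↔
      ∀ p', c.Pierced p' → toLex p' < toLex p := by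
  unfold gam
  rw [Finset.sup_lt_iff (WithBot.bot_lt_coe _)]
  simp only [Finset.mem_filter, Finset.mem_univ, true_and, WithBot.coe_lt_coe]
  exact Iff.rfl

theorem pierced_of_gam (c : Cfg k n M U) (p : PT k n)
    (h : c.gam = ((toLex p : Lex (PT k n)) : WithBot (Lex (PT k n)))) : c.Pierced p := by
  by_contra hp
  have h1 : ¬ c.gam < ((toLex p : Lex (PT k n)) : WithBot (Lex (PT k n))) := by
    rw [h]
    exact lt_irrefl _
  apply h1
  rw [gam_lt_iff]
  intro p' hp'
  have h2 : ((toLex p' : Lex (PT k n)) : WithBot (Lex (PT k n))) ≤ c.gam := by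
    unfold gam
    exact Finset.le_sup (f := fun p => ((toLex p : Lex (PT k n)) : WithBot (Lex (PT k n))))
      (by simpa only [Finset.mem_filter, Finset.mem_univ, true_and] using hp')
  rw [h, WithBot.coe_le_coe] at h2
  refine lt_of_le_of_ne h2 fun e => hp ?_
  rw [← toLex.injective e]
  exact hp'

theorem not_pierced_of_gam (c : Cfg k n M U) (h : c.gam = ⊥) (p : PT k n) : ¬ c.Pierced p := by
  intro hp
  have h2 : ((toLex p : Lex (PT k n)) : WithBot (Lex (PT k n))) ≤ c.gam := by
    unfold gam
    exact Finset.le_sup (f := fun p => ((toLex p : Lex (PT k n)) : WithBot (Lex (PT k n))))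
      (by simpa only [Finset.mem_filter, Finset.mem_univ, true_and] using hp)
  rw [h] at h2
  exact WithBot.not_coe_le_bot _ h2

end Cfg

end Pool.Agent.Lib.MP_595dc0_ag.Dk
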