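import Mathlib
import Pool.Agent.Lib.MP_595dc0_ag.DkL2b
import Pool.Agent.Lib.MP_595dc0_ag.DkL1r
import Pool.Agent.Lib.MP_595dc0_ag.DkCas

set_option autoImplicit false

namespace Pool.Agent.Lib.MP_595dc0_ag.Dk

open Equiv Finset MvPolynomial

theorem dkl2c_TS_mono {k n : ℕ} {Q Q' : PW n → WithBot (Lex (PT k n)) → Prop}
    (h : ∀ a g, Q a g → Q' a g) : TS k n Q ⊆ TS k n Q' := by
  rintro p ⟨M, U, i1, i2, i3, i4, c, h1, h2, h3, h4⟩
  exact ⟨M, U, i1, i2, i3, i4, c, h1, h2, h _ _ h3, h4⟩

theorem dkl2c_sup {k n : ℕ} {A B B' : Submodule ℂ (FF k n)} {p : FF k n} (hp : p ∈ A ⊔ B)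
    (h : B ≤ A ⊔ B') : p ∈ A ⊔ B' :=
  (sup_le le_sup_left h : A ⊔ B ≤ A ⊔ B') hp

theorem dkl2c_sup_TS {k n : ℕ} {A : Submodule ℂ (FF k n)} {p : FF k n}
    {Q Q' : PW n → WithBot (Lex (PT k n)) → Prop} (hp : p ∈ A ⊔ Submodule.span ℂ (TS k n Q))
    (h : ∀ a g, Q a g → Q' a g) : p ∈ A ⊔ Submodule.span ℂ (TS k n Q') :=
  dkl2c_sup hp (le_sup_of_le_right (Submodule.span_mono (dkl2c_TS_mono h)))

theorem dkl2c_swap_ne_one {k : ℕ} {a b : Fin k} (h : a ≠ b) : swap a b ≠ 1 := by
  intro e
  exact h (swap_eq_one_iff.1 e)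

namespace Cfg

variable {k n : ℕ} {M U : Type} [Fintype M] [DecidableEq M] [Fintype U] [DecidableEq U]

/-- Number of unit ends in a row. -/
def ue (c : Cfg k n M U) (r : M × Fin k) : ℕ :=
  (univ.filter (fun p : U × Bool => c.unit p.1 ∧ c.rw p.1 p.2 = r)).card

omit [Fintype M] [DecidableEq M] [Fintype U] [DecidableEq U] in
theorem dkl2c_sep_ne (c : Cfg k n M U) (hc : c.Valid) (u : U) (hu : ¬ c.unit u) (b : Bool) :
    (c.f (c.mo u b)).sep (c.col u) ≠ 1 := by
  obtain ⟨h1, h2⟩ := hc.sep u hu
  have h3 : c.mo u b = c.mo u false := by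
    cases b
    · rfl
    · exact h1.symm
  rw [h3, h2]
  exact dkl2c_swap_ne_one hu

omit [Fintype M] [DecidableEq M] [Fintype U] [DecidableEq U] in
theorem dkl2c_eq_of (c : Cfg k n M U) (hc : c.Valid) (p p' : U × Bool)
    (h1 : c.col p.1 = c.col p'.1) (h2 : c.rw p.1 p.2 = c.rw p'.1 p'.2) : p = p' :=
  hc.inj (Prod.ext h1 h2)

theorem good_of_ue (c : Cfg k n M U) (hc : c.Valid) (h : ∀ r, c.ue r ≤ rowB k) : c.Good := by
  intro m
  have hsub : c.evs m ⊆ (univ.biUnion (fun r : Fin k => univ.filter
      (fun p : U × Bool => c.unit p.1 ∧ c.rw p.1 p.2 = (m, r)))) ∪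
      univ.filter (fun p : U × Bool => ¬ c.unit p.1 ∧ p.2 = false ∧ c.mo p.1 false = m) := by
    intro p hp
    obtain ⟨h1, h2⟩ := (mem_filter.1 hp).2
    by_cases hu : c.unit p.1
    · refine mem_union_left _ (mem_biUnion.2 ⟨c.role p.1 p.2, mem_univ _, ?_⟩)
      exact mem_filter.2 ⟨mem_univ _, hu, Prod.ext h2 rfl⟩
    · have hb : p.2 = false := h1.resolve_right hu
      refine mem_union_right _ (mem_filter.2 ⟨mem_univ _, hu, hb, ?_⟩)
      rw [← hb]
      exact h2
  have hA : (univ.biUnion (fun r : Fin k => univ.filter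
      (fun p : U × Bool => c.unit p.1 ∧ c.rw p.1 p.2 = (m, r)))).card ≤ k * rowB k := by
    refine card_biUnion_le.trans ?_
    calc ∑ r : Fin k, (univ.filter
          (fun p : U × Bool => c.unit p.1 ∧ c.rw p.1 p.2 = (m, r))).card
        ≤ ∑ _r : Fin k, rowB k := Finset.sum_le_sum fun r _ => h (m, r)
      _ = k * rowB k := by simp
  have hB : (univ.filter
      (fun p : U × Bool => ¬ c.unit p.1 ∧ p.2 = false ∧ c.mo p.1 false = m)).card ≤ szS k := by
    refine le_trans ?_ (hc.sk m).card_sep_le
    refine card_le_card_of_injOn (fun p => c.col p.1) (fun p hp => ?_) (fun p hp p' hp' e => ?_)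
    · obtain ⟨h1, -, h3⟩ := (mem_filter.1 (mem_coe.1 hp)).2
      refine mem_coe.2 (mem_filter.2 ⟨mem_univ _, ?_⟩)
      rw [← h3]
      exact c.dkl2c_sep_ne hc p.1 h1 false
    · obtain ⟨h1, h2, h3⟩ := (mem_filter.1 (mem_coe.1 hp)).2
      obtain ⟨h1', h2', h3'⟩ := (mem_filter.1 (mem_coe.1 hp')).2
      have e' : c.col p.1 = c.col p'.1 := e
      obtain ⟨-, a2⟩ := hc.sep p.1 h1
      obtain ⟨a1', a2'⟩ := hc.sep p'.1 h1'
      rw [h3] at a2
      rw [h3', ← e', a2] at a2'
      have hne : c.role p.1 false ≠ c.role p.1 true := h1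
      have hmv : swap (c.role p'.1 false) (c.role p'.1 true) (c.role p.1 false) ≠
          c.role p.1 false := by
        rw [← a2', swap_apply_left]
        exact hne.symm
      have hor : c.role p.1 false = c.role p'.1 false ∨ c.role p.1 false = c.role p'.1 true := by
        by_contra hcon
        push Not at hcon
        exact hmv (swap_apply_of_ne_of_ne hcon.1 hcon.2)
      have huu : p.1 = p'.1 := by
        rcases hor with hor | hor
        · have := c.dkl2c_eq_of hc (p.1, false) (p'.1, false) e'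
            (Prod.ext (h3.trans h3'.symm) hor)
          exact (Prod.mk.inj this).1
        · have := c.dkl2c_eq_of hc (p.1, false) (p'.1, true) e'
            (Prod.ext (h3.trans (h3'.symm.trans a1')) hor)
          exact (Prod.mk.inj this).1
      exact Prod.ext huu (h2.trans h2'.symm)
  calc (c.evs m).card ≤ _ := card_le_card hsub
    _ ≤ _ := card_union_le _ _
    _ ≤ k * rowB k + szS k := Nat.add_le_add hA hB

/-- Either the configuration is a relation or some row of the group has few unit ends. -/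
theorem rel_or_light (c : Cfg k n M U) (hc : c.Valid) (m : M) (r : Fin k) :
    c.tau ∈ Rel k n ∨ ∃ m', (c.f m').cls = (c.f m).cls ∧ c.ue (m', r) ≤ avB k := by
  by_cases hex : ∃ m', (c.f m').cls = (c.f m).cls ∧ c.ue (m', r) ≤ avB k
  · exact Or.inr hex
  left
  push Not at hex
  let B : Finset (M × Fin k) := univ.filter (fun q => q.2 = r ∧ (c.f q.1).cls = (c.f m).cls)
  let fr : Fin n → Finset (M × Fin k) := fun z => B.filter (fun q => (c.f q.1).sep z r = r)
  let P : U → Prop := fun u =>
    c.unit u ∧ c.role u false = r ∧ (c.f (c.mo u false)).cls = (c.f m).cls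
  have hrole : ∀ u, c.unit u → ∀ b, c.role u b = c.role u false := by
    intro u hu b
    cases b
    · rfl
    · exact Eq.symm hu
  have hcl : ∀ u b, (c.f (c.mo u b)).cls = (c.f (c.mo u false)).cls := by
    intro u b
    cases b
    · rfl
    · exact (hc.cls u).symm
  have key : app (Th c.f) c.x c.aU ∈ (Rel k n).restrictScalars ℂ := by
    refine casimir (U := {u // P u}) (nuS k) (szS k) B fr (fun z => filter_subset _ _) ?_
      (Th c.f) _ ?_ (fun u => c.col u.1) (fun u b => c.rw u.1 b) ?_ ?_ ?_ c.aU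
      (fun u => c.anti_aU hc u.1 u.2.1) c.x
    · intro q hq
      refine le_trans (card_le_card fun z hz => ?_) (hc.sk q.1).card_sep_le
      refine mem_filter.2 ⟨mem_univ _, fun e => (mem_filter.1 hz).2 ?_⟩
      refine mem_filter.2 ⟨hq, ?_⟩
      rw [e]
      rfl
    · rintro ⟨m1, r1⟩ ⟨m2, r2⟩ hne Y hY hfr y
      have hpos : 0 < Y.card := by
        rw [hY]
        exact lt_of_lt_of_le (nuC_pos k 0) (nuC_le_nuS k 0)
      obtain ⟨z0, hz0⟩ := card_pos.1 hpos
      obtain ⟨b1, b1'⟩ := (mem_filter.1 (mem_filter.1 (hfr z0 hz0).1).1).2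
      obtain ⟨b2, b2'⟩ := (mem_filter.1 (mem_filter.1 (hfr z0 hz0).2).1).2
      have e1 : r1 = r := b1
      have e2 : r2 = r := b2
      subst e1
      subst e2
      refine Ideal.subset_span (Or.inl (Or.inr ?_))
      refine ⟨M, inferInstance, inferInstance, c.f, y, m1, m2, r2, Y, ⟨hc.sk, ?_, ?_, hY.ge, ?_⟩, rfl⟩
      · intro e
        exact hne (by rw [e])
      · exact b1'.trans b2'.symm
      · intro z hz
        exact ⟨(mem_filter.1 (hfr z hz).1).2, (mem_filter.1 (hfr z hz).2).2⟩
    · intro p p' e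
      have e1 : c.col p.1.1 = c.col p'.1.1 := congrArg Prod.fst e
      have e2 : c.rw p.1.1 p.2 = c.rw p'.1.1 p'.2 := congrArg Prod.snd e
      have := c.dkl2c_eq_of hc (p.1.1, p.2) (p'.1.1, p'.2) e1 e2
      exact Prod.ext (Subtype.ext (Prod.mk.inj this).1) (Prod.mk.inj this).2
    · rintro ⟨u, hu1, hu2, hu3⟩ b
      have hr : c.role u b = r := (hrole u hu1 b).trans hu2
      refine mem_filter.2 ⟨mem_filter.2 ⟨mem_univ _, hr, (hcl u b).trans hu3⟩, ?_⟩
      have := hc.unit_fix u hu1 b
      rw [hr] at this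
      exact this
    · have hB : 0 < B.card := card_pos.2 ⟨(m, r), mem_filter.2 ⟨mem_univ _, rfl, rfl⟩⟩
      let Q : Finset (U × Bool) := univ.filter (fun p => c.unit p.1 ∧ c.rw p.1 p.2 ∈ B)
      have hQ1 : Q.card = ∑ q ∈ B, (Q.filter (fun p => c.rw p.1 p.2 = q)).card :=
        card_eq_sum_card_fiberwise fun p hp => (mem_filter.1 (mem_coe.1 hp)).2.2
      have hQ2 : ∑ _q ∈ B, (avB k + 1) ≤ ∑ q ∈ B, (Q.filter (fun p => c.rw p.1 p.2 = q)).card := by
        refine Finset.sum_le_sum fun q hq => ?_
        obtain ⟨q1, q2⟩ := (mem_filter.1 hq).2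
        have h1 := hex q.1 q2
        have h2 : (q.1, r) = q := Prod.ext rfl q1.symm
        rw [h2] at h1
        refine le_trans h1 (card_le_card fun p hp => ?_)
        obtain ⟨a1, a2⟩ := (mem_filter.1 hp).2
        exact mem_filter.2 ⟨mem_filter.2 ⟨mem_univ _, a1, a2 ▸ hq⟩, a2⟩
      have hQ3 : Q ⊆ (univ.filter P) ×ˢ (univ : Finset Bool) := by
        intro p hp
        obtain ⟨a1, a2⟩ := (mem_filter.1 hp).2
        obtain ⟨a3, a4⟩ := (mem_filter.1 a2).2
        refine mem_product.2 ⟨mem_filter.2 ⟨mem_univ _, a1, ?_, ?_⟩, mem_univ _⟩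
        · exact (hrole p.1 a1 p.2).symm.trans a3
        · exact (hcl p.1 p.2).symm.trans a4
      have hQ4 := card_le_card hQ3
      rw [card_product, card_univ, Fintype.card_bool, ← Fintype.card_subtype P] at hQ4
      rw [Finset.sum_const, smul_eq_mul, ← hQ1] at hQ2
      unfold avB at hQ2
      nlinarith
  exact key

theorem balance_step (c : Cfg k n M U) (hc : c.Valid) (m m' : M) (r : Fin k)
    (hcls : (c.f m').cls = (c.f m).cls) (h : rowB k < c.ue (m, r)) (h' : c.ue (m', r) ≤ avB k) :
    c.tau ∈ (Rel k n).restrictScalars ℂ ⊔ Submodule.span ℂ {p | ∃ c' : Cfg k n M U, c'.Valid ∧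
      ∑ r, c'.ue r ^ 2 < ∑ r, c.ue r ^ 2 ∧ p = c'.tau} := by
  classical
  have hne : m ≠ m' := by
    intro e
    subst e
    unfold rowB at h
    omega
  have hne' : ((m, r) : M × Fin k) ≠ (m', r) := fun e => hne (congrArg Prod.fst e)
  let E : M × Fin k → Finset (U × Bool) := fun q =>
    univ.filter (fun p : U × Bool => c.unit p.1 ∧ c.rw p.1 p.2 = q)
  have hinjE : ∀ q, Set.InjOn (fun p : U × Bool => c.col p.1) (E q : Set (U × Bool)) := by
    intro q p hp p' hp' e
    exact c.dkl2c_eq_of hc p p' e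
      ((mem_filter.1 (mem_coe.1 hp)).2.2.trans (mem_filter.1 (mem_coe.1 hp')).2.2.symm)
  let Y1 : Finset (Fin n) := (E (m, r)).image (fun p => c.col p.1)
  let Y2 : Finset (Fin n) := univ.filter (fun z => ¬ c.free (z, (m', r)))
  have hY1 : Y1.card = c.ue (m, r) := card_image_of_injOn (hinjE _)
  have hY2 : Y2.card ≤ avB k + szS k := by
    have hsub : Y2 ⊆ (E (m', r)).image (fun p => c.col p.1) ∪
        univ.filter (fun z => (c.f m').sep z ≠ 1) := by
      intro z hz
      have h1 := (mem_filter.1 hz).2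
      unfold free at h1
      push Not at h1
      obtain ⟨p, hp⟩ := h1
      have e1 : c.col p.1 = z := congrArg Prod.fst hp
      have e2 : c.rw p.1 p.2 = (m', r) := congrArg Prod.snd hp
      by_cases hu : c.unit p.1
      · exact mem_union_left _ (mem_image.2 ⟨p, mem_filter.2 ⟨mem_univ _, hu, e2⟩, e1⟩)
      · refine mem_union_right _ (mem_filter.2 ⟨mem_univ _, ?_⟩)
        have e3 : c.mo p.1 p.2 = m' := congrArg Prod.fst e2
        rw [← e1, ← e3]
        exact c.dkl2c_sep_ne hc p.1 hu p.2
    calc Y2.card ≤ _ := card_le_card hsub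
      _ ≤ _ := card_union_le _ _
      _ ≤ avB k + szS k := Nat.add_le_add (card_image_le.trans h') (hc.sk m').card_sep_le
  have hY3 : nuS k ≤ (Y1 \ Y2).card := by
    have := le_card_sdiff Y2 Y1
    unfold rowB at h
    omega
  obtain ⟨Y, hYsub, hYcard⟩ := exists_subset_card_eq hY3
  have hYa : ∀ z ∈ Y, ∃ p ∈ E (m, r), c.col p.1 = z := fun z hz =>
    mem_image.1 (mem_sdiff.1 (hYsub hz)).1
  have hYb : ∀ z ∈ Y, c.free (z, (m', r)) := fun z hz => by
    have := (mem_sdiff.1 (hYsub hz)).2
    by_contra hcon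
    exact this (mem_filter.2 ⟨mem_univ _, hcon⟩)
  have hfix : ∀ z ∈ Y, (c.f m).sep z r = r ∧ (c.f m').sep z r = r := by
    intro z hz
    refine ⟨?_, hc.free_fix z m' r (hYb z hz)⟩
    obtain ⟨p, hp, e⟩ := hYa z hz
    obtain ⟨a1, a2⟩ := (mem_filter.1 hp).2
    have e3 : c.mo p.1 p.2 = m := congrArg Prod.fst a2
    have e4 : c.role p.1 p.2 = r := congrArg Prod.snd a2
    have := hc.unit_fix p.1 a1 p.2
    rwa [e3, e4, e] at this
  have hH : Hyp1 c.f m m' r Y := ⟨hc.sk, hne, hcls.symm, hYcard.ge, hfix⟩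
  have hrel : app (Th c.f) c.x (aY Y (m, r) (m', r) * c.aU) ∈ Rel k n :=
    app_Th_mem_Rel c.f m m' r Y hH _ (fun z hz => (anti_aY Y _ _ z hz).mul_right _) c.x
  have hexp : app (Th c.f) c.x (aY Y (m, r) (m', r) * c.aU) =
      ∑ S ∈ Y.powerset, ((-1 : ℂ) ^ S.card) • (c.move {r} S false (swap m m')).tau := by
    rw [aY, Finset.sum_mul, map_sum]
    refine Finset.sum_congr rfl fun S _ => ?_
    rw [smul_mul_assoc, map_smul, move_tau, exF_false, exG_swap]
  have hempty : (c.move {r} ∅ false (swap m m')).tau = c.tau := by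
    rw [move_tau, exF_false, exG_swap]
    have e : swS (∅ : Finset (Fin n)) ((m, r) : M × Fin k) (m', r) = 1 := by
      funext z
      simp [swS]
    rw [e, og_one, one_mul]
    rfl
  rw [← Finset.add_sum_erase _ _ (empty_mem_powerset Y), card_empty, pow_zero, one_smul,
    hempty] at hexp
  have hfin : c.tau = app (Th c.f) c.x (aY Y (m, r) (m', r) * c.aU) -
      ∑ S ∈ Y.powerset.erase ∅, ((-1 : ℂ) ^ S.card) • (c.move {r} S false (swap m m')).tau := by
    rw [hexp, add_sub_cancel_right]
  rw [hfin]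
  refine Submodule.sub_mem _ (Submodule.mem_sup_left hrel) (Submodule.mem_sup_right ?_)
  refine Submodule.sum_mem _ fun S hS => Submodule.smul_mem _ _ (Submodule.subset_span ?_)
  obtain ⟨hS0, hSY⟩ := mem_erase.1 hS
  have hSY' : S ⊆ Y := mem_powerset.1 hSY
  refine ⟨c.move {r} S false (swap m m'), ?_, ?_, rfl⟩
  · refine c.move_valid hc _ _ _ _ (fun a => ?_) (fun z hz a ha r' hr' => ?_) (fun a => ?_)
    · by_cases e1 : a = m
      · rw [e1, swap_apply_left, hcls]
      · by_cases e2 : a = m'
        · rw [e2, swap_apply_right, hcls]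
        · rw [swap_apply_of_ne_of_ne e1 e2]
    · have hor : a = m ∨ a = m' := by
        by_contra hcon
        push Not at hcon
        exact ha (swap_apply_of_ne_of_ne hcon.1 hcon.2)
      refine ⟨fun hm => ?_, fun hf => absurd hf (by simp)⟩
      rw [mem_singleton.1 hm] at hr'
      rcases hor with e | e
      · exact absurd (e ▸ (hfix z (hSY' hz)).1) hr'
      · exact absurd (e ▸ (hfix z (hSY' hz)).2) hr'
    · rw [exF_false]
      exact hc.sk a
  · set c' := c.move {r} S false (swap m m') with hc'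
    have hrw : ∀ p : U × Bool, c'.rw p.1 p.2 =
        if c.col p.1 ∈ S then swap ((m, r) : M × Fin k) (m', r) (c.rw p.1 p.2)
        else c.rw p.1 p.2 := by
      intro p
      rw [hc', move_rw, exG_swap, swS]
      split_ifs
      · rfl
      · rfl
    have hnot : ∀ p : U × Bool, c.rw p.1 p.2 = (m', r) → c.col p.1 ∉ S := by
      intro p hp hz
      exact hYb _ (hSY' hz) p (Prod.ext rfl hp)
    have hue : ∀ q, c'.ue q =
        (univ.filter (fun p : U × Bool => c.unit p.1 ∧ c'.rw p.1 p.2 = q)).card := fun q => rfl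
    have hother : ∀ q, q ≠ (m, r) → q ≠ (m', r) → c'.ue q = c.ue q := by
      intro q h1 h2
      rw [hue]
      unfold ue
      congr 1
      refine filter_congr fun p _ => and_congr_right fun _ => ?_
      rw [hrw]
      split_ifs
      · rw [swap_apply_eq_iff, swap_apply_of_ne_of_ne h1 h2]
      · rfl
    let F : Finset (U × Bool) := (E (m, r)).filter (fun p => c.col p.1 ∈ S)
    have hF1 : 0 < F.card := by
      obtain ⟨z, hz⟩ := nonempty_iff_ne_empty.2 hS0
      obtain ⟨p, hp, e⟩ := hYa z (hSY' hz)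
      exact card_pos.2 ⟨p, mem_filter.2 ⟨hp, e ▸ hz⟩⟩
    have hF2 : F.card ≤ nuS k := by
      rw [← hYcard]
      refine card_le_card_of_injOn (fun p => c.col p.1) (fun p hp => ?_) ?_
      · exact mem_coe.2 (hSY' (mem_filter.1 (mem_coe.1 hp)).2)
      · exact (hinjE (m, r)).mono (coe_subset.2 (filter_subset _ _))
    have hA : c'.ue (m, r) + F.card = c.ue (m, r) := by
      have e : univ.filter (fun p : U × Bool => c.unit p.1 ∧ c'.rw p.1 p.2 = (m, r)) =
          (E (m, r)).filter (fun p => ¬ c.col p.1 ∈ S) := by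
        ext p
        simp only [E, mem_filter, mem_univ, true_and]
        rw [hrw]
        constructor
        · rintro ⟨a1, a2⟩
          split_ifs at a2 with a3
          · rw [swap_apply_eq_iff, swap_apply_left] at a2
            exact absurd a3 (hnot p a2)
          · exact ⟨⟨a1, a2⟩, a3⟩
        · rintro ⟨⟨a1, a2⟩, a3⟩
          rw [if_neg a3]
          exact ⟨a1, a2⟩
      rw [hue, e, add_comm]
      exact card_filter_add_card_filter_not _
    have hA' : c'.ue (m', r) ≤ c.ue (m', r) + F.card := by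
      have e : univ.filter (fun p : U × Bool => c.unit p.1 ∧ c'.rw p.1 p.2 = (m', r)) ⊆
          E (m', r) ∪ F := by
        intro p hp
        obtain ⟨a1, a2⟩ := (mem_filter.1 hp).2
        rw [hrw] at a2
        split_ifs at a2 with a3
        · rw [swap_apply_eq_iff, swap_apply_right] at a2
          exact mem_union_right _ (mem_filter.2 ⟨mem_filter.2 ⟨mem_univ _, a1, a2⟩, a3⟩)
        · exact mem_union_left _ (mem_filter.2 ⟨mem_univ _, a1, a2⟩)
      rw [hue]
      exact (card_le_card e).trans (card_union_le _ _)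
    have hsplit : ∀ g : M × Fin k → ℕ, ∑ q, g q =
        g (m, r) + (g (m', r) + ∑ q ∈ (univ.erase (m, r)).erase (m', r), g q) := by
      intro g
      rw [Finset.add_sum_erase _ _ (mem_erase.2 ⟨hne'.symm, mem_univ _⟩),
        Finset.add_sum_erase _ _ (mem_univ _)]
    rw [hsplit (fun q => c'.ue q ^ 2), hsplit (fun q => c.ue q ^ 2)]
    have hrest : ∑ q ∈ (univ.erase (m, r)).erase (m', r), c'.ue q ^ 2 =
        ∑ q ∈ (univ.erase (m, r)).erase (m', r), c.ue q ^ 2 := by
      refine Finset.sum_congr rfl fun q hq => ?_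
      rw [hother q (mem_erase.1 (mem_erase.1 hq).2).1 (mem_erase.1 hq).1]
    rw [hrest]
    have hb : c'.ue (m', r) ^ 2 ≤ (c.ue (m', r) + F.card) ^ 2 := Nat.pow_le_pow_left hA' 2
    have hlt : c.ue (m', r) < c'.ue (m, r) := by
      unfold rowB at h
      omega
    rw [← hA]
    nlinarith

theorem balance (c : Cfg k n M U) (hc : c.Valid) :
    c.tau ∈ (Rel k n).restrictScalars ℂ ⊔
      Submodule.span ℂ (TS k n (fun a _ => a.1 = Fintype.card M ∧ a.2.1 = c.tt)) := by
  have key : ∀ N : ℕ, ∀ c' : Cfg k n M U, c'.Valid → ∑ r, c'.ue r ^ 2 = N →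
      c'.tau ∈ (Rel k n).restrictScalars ℂ ⊔
        Submodule.span ℂ (TS k n (fun a _ => a.1 = Fintype.card M ∧ a.2.1 = c.tt)) := by
    intro N
    induction N using Nat.strong_induction_on with
    | _ N ih =>
      intro c' hc' hN
      by_cases hall : ∀ r, c'.ue r ≤ rowB k
      · have htt : c'.tt = c.tt := by
          have h1 := c'.tt_eq hc'
          have h2 := c.tt_eq hc
          omega
        refine Submodule.mem_sup_right (Submodule.subset_span ?_)
        exact ⟨M, U, inferInstance, inferInstance, inferInstance, inferInstance, c', hc',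
          c'.good_of_ue hc' hall, ⟨rfl, htt⟩, rfl⟩
      · push Not at hall
        obtain ⟨⟨m, r⟩, hr⟩ := hall
        rcases c'.rel_or_light hc' m r with h1 | ⟨m', h1, h2⟩
        · exact Submodule.mem_sup_left h1
        · have h3 := c'.balance_step hc' m m' r h1 hr h2
          refine dkl2c_sup h3 (Submodule.span_le.2 ?_)
          rintro p ⟨c'', a1, a2, rfl⟩
          exact ih _ (hN ▸ a2) c'' a1 rfl
  exact key _ c hc rfl

theorem dkl2c_sing_sw (c : Cfg k n M U) (z : Fin n) (r : Fin k) (m m' : M)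
    (hcls : (c.f m).cls = (c.f m').cls) (h : c.free (z, (m, r))) (h' : c.free (z, (m', r))) :
    (c.setx (act (sw z (m, r) (m', r)) c.x)).sing = c.sing := by
  have e : c.move {r} {z} false (swap m m') = c.setx (act (sw z (m, r) (m', r)) c.x) := by
    unfold move setx
    rw [exF_false, exG_swap, swS_singleton]
    congr 1
    · funext u b
      split_ifs with hc
      · obtain ⟨h1, h2⟩ := hc
        rw [mem_singleton] at h1 h2
        refine swap_apply_of_ne_of_ne (fun e => h (u, b) ?_) (fun e => h' (u, b) ?_)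
        · exact Prod.ext h1 (Prod.ext e h2)
        · exact Prod.ext h1 (Prod.ext e h2)
      · rfl
  rw [← e]
  refine c.move_sing _ _ _ _ fun a => ?_
  by_cases e1 : a = m
  · rw [e1, swap_apply_left, hcls]
  · by_cases e2 : a = m'
    · rw [e2, swap_apply_right, hcls]
    · rw [swap_apply_of_ne_of_ne e1 e2]

/-- Two fillings of the free cells with the same letter counts agree up to lower terms. -/
theorem uniq (c : Cfg k n M U) (hc : c.Valid) (x : Arr k n (M × Fin k))
    (h1 : ∀ u b, x (c.col u) (c.rw u b) = c.x (c.col u) (c.rw u b))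
    (h2 : (c.setx x).sing = c.sing) :
    c.tau - (c.setx x).tau ∈ Low k n (Fintype.card M) c.tt := by
  classical
  have key : ∀ N : ℕ, ∀ y : Arr k n (M × Fin k),
      (univ.filter (fun q : Fin n × (M × Fin k) => x q.1 q.2 ≠ y q.1 q.2)).card = N →
      (∀ u b, x (c.col u) (c.rw u b) = y (c.col u) (c.rw u b)) →
      (c.setx x).sing = (c.setx y).sing →
      (c.setx y).tau - (c.setx x).tau ∈ Low k n (Fintype.card M) c.tt := by
    intro N
    induction N using Nat.strong_induction_on with
    | _ N ih =>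
      intro y hN g1 g2
      by_cases hxy : x = y
      · rw [hxy, sub_self]
        exact Submodule.zero_mem _
      obtain ⟨z, m, r, hzq⟩ : ∃ z m r, x z (m, r) ≠ y z (m, r) := by
        by_contra hcon
        refine hxy (funext fun z => funext fun q => ?_)
        by_contra hne
        exact hcon ⟨z, q.1, q.2, hne⟩
      have hfree : c.free (z, (m, r)) := by
        intro p hp
        have e1 : c.col p.1 = z := congrArg Prod.fst hp
        have e2 : c.rw p.1 p.2 = (m, r) := congrArg Prod.snd hp
        have := g1 p.1 p.2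
        rw [e1, e2] at this
        exact hzq this
      have hcard := congrFun (congrFun g2 z) (((c.f m).cls, r), x z (m, r))
      unfold sing at hcard
      obtain ⟨⟨m', r'⟩, hq1, hq2⟩ : ∃ q' : M × Fin k,
          (c.free (z, q') ∧ (c.f q'.1).cls = (c.f m).cls ∧ q'.2 = r ∧ y z q' = x z (m, r)) ∧
          x z q' ≠ x z (m, r) := by
        by_contra hcon0
        have hcon : ∀ q' : M × Fin k, (c.free (z, q') ∧ (c.f q'.1).cls = (c.f m).cls ∧ q'.2 = r ∧
            y z q' = x z (m, r)) → x z q' = x z (m, r) := by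
          intro q' hq'
          by_contra hne
          exact hcon0 ⟨q', hq', hne⟩
        have hsub := Finset.eq_of_subset_of_card_le (fun q' hq' => ?_) hcard.le
        · have hm : (m, r) ∈ univ.filter (fun r' : M × Fin k =>
              (c.setx x).free (z, r') ∧ ((c.setx x).f r'.1).cls = (c.f m).cls ∧ r'.2 = r ∧
                (c.setx x).x z r' = x z (m, r)) :=
            mem_filter.2 ⟨mem_univ _, hfree, rfl, rfl, rfl⟩
          have hm' := hsub ▸ hm
          exact hzq (mem_filter.1 hm').2.2.2.2.symm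
        · obtain ⟨a1, a2, a3, a4⟩ := (mem_filter.1 hq').2
          exact mem_filter.2 ⟨mem_univ _, a1, a2, a3, hcon q' ⟨a1, a2, a3, a4⟩⟩
      obtain ⟨a1, a2, a3, a4⟩ := hq1
      have e3 : r' = r := a3
      subst e3
      have a2' : (c.f m').cls = (c.f m).cls := a2
      have hne : m ≠ m' := by
        intro e
        subst e
        exact hq2 rfl
      have hne' : ((m, r') : M × Fin k) ≠ (m', r') := fun e => hne (congrArg Prod.fst e)
      have hcy : (c.setx y).Valid := c.setx_valid hc y
      have hadd := (c.setx y).add_tau hcy z r' m m' hfree a1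
      have hval := (c.setx y).add_valid hcy z r' m m' hne a2'.symm hfree a1
      have hbal := balance _ hval
      have htt : ((c.setx y).add z r' m m').tt < c.tt := by
        have b1 := tt_eq _ hval
        have b2 := c.tt_eq hc
        rw [Fintype.card_option] at b1
        omega
      have hlow : ((c.setx y).add z r' m m').tau ∈ Low k n (Fintype.card M) c.tt := by
        refine dkl2c_sup_TS hbal ?_
        rintro a g ⟨b1, b2⟩
        exact ⟨b1, b2 ▸ htt⟩
      let y' : Arr k n (M × Fin k) := act (sw z (m, r') (m', r')) y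
      have hy' : ∀ z' q, (z', q) ≠ (z, (m, r')) → (z', q) ≠ (z, (m', r')) → y' z' q = y z' q := by
        intro z' q b1 b2
        show y z' ((sw z (m, r') (m', r') z')⁻¹ q) = y z' q
        by_cases e : z' = z
        · subst e
          rw [sw, Pi.mulSingle_eq_same, swap_inv,
            swap_apply_of_ne_of_ne (fun e => b1 (by rw [e])) (fun e => b2 (by rw [e]))]
        · rw [sw, Pi.mulSingle_eq_of_ne e]
          rfl
      have hy1 : y' z (m, r') = x z (m, r') := by
        show y z ((sw z (m, r') (m', r') z)⁻¹ (m, r')) = _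
        rw [sw, Pi.mulSingle_eq_same, swap_inv, swap_apply_left]
        exact a4
      have hlt : (univ.filter (fun q : Fin n × (M × Fin k) => x q.1 q.2 ≠ y' q.1 q.2)).card < N := by
        rw [← hN]
        refine card_lt_card ⟨fun q hq => ?_, fun hcon => ?_⟩
        · have b0 := (mem_filter.1 hq).2
          refine mem_filter.2 ⟨mem_univ _, ?_⟩
          by_cases b1 : q = (z, (m, r'))
          · rw [b1]
            exact hzq
          · by_cases b2 : q = (z, (m', r'))
            · rw [b2]
              show x z (m', r') ≠ y z (m', r')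
              rw [a4]
              exact hq2
            · rwa [hy' q.1 q.2 b1 b2] at b0
        · have b0 := hcon (mem_filter.2 ⟨mem_univ (z, (m, r')), hzq⟩)
          exact (mem_filter.1 b0).2 hy1.symm
      have hih := ih _ hlt y' rfl (fun u b => by
        rw [hy' _ _ (hfree (u, b)) (a1 (u, b))]
        exact g1 u b) (g2.trans ((c.setx y).dkl2c_sing_sw z r' m m' a2'.symm hfree a1).symm)
      have hfin : (c.setx y).tau - (c.setx x).tau =
          ((c.setx y).add z r' m m').tau + ((c.setx y').tau - (c.setx x).tau) := by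
        rw [hadd]
        exact (sub_add_sub_cancel _ _ _).symm
      rw [hfin]
      exact Submodule.add_mem _ hlow hih
  exact key _ c.x rfl h1 h2

end Cfg

theorem mem_rel_sup_good {k n : ℕ} (h : FF k n) :
    h ∈ (Rel k n).restrictScalars ℂ ⊔ Submodule.span ℂ (TS k n (fun _ _ => True)) := by
  classical
  refine FF_induction (p := fun h => h ∈ (Rel k n).restrictScalars ℂ ⊔
    Submodule.span ℂ (TS k n (fun _ _ => True))) h (fun s => ?_) (Submodule.zero_mem _)
    (fun a b ha hb => Submodule.add_mem _ ha hb) (fun c a ha => Submodule.smul_mem _ c ha)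
  by_cases hs : ∀ m ∈ s, m.1.Valid
  · let f : Fin s.toList.length → Sk k n := fun i => (s.toList.get i).1
    have hf : ∀ i, (f i).Valid := fun i => hs _ (Multiset.mem_toList.1 (List.get_mem _ i))
    have hch : ∀ u : {p : Fin s.toList.length × Fin n // (f p.1).sep p.2 ≠ 1},
        ∃ t : Fin k × Fin k, t.1 ≠ t.2 ∧ (f u.1.1).sep u.1.2 = swap t.1 t.2 := by
      intro u
      obtain ⟨a, b, h1, -, -, h2⟩ := ((hf u.1.1).1 u.1.2).resolve_left u.2
      exact ⟨(a, b), h1, h2⟩
    choose t ht1 ht2 using hch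
    let c : Cfg k n (Fin s.toList.length) {p : Fin s.toList.length × Fin n // (f p.1).sep p.2 ≠ 1} :=
      { f := f
        x := arrOf s.toList.get
        col := fun u => u.1.2
        role := fun u b => if b = true then (t u).2 else (t u).1
        mo := fun u _ => u.1.1 }
    have hnu : ∀ u, ¬ c.unit u := fun u hu => ht1 u hu
    have hc : c.Valid := by
      refine ⟨hf, ?_, fun u _ => ⟨rfl, ht2 u⟩, fun u => rfl, fun m z hz => ?_⟩
      · rintro ⟨u, b⟩ ⟨u', b'⟩ e
        have e1 : u.1.2 = u'.1.2 := congrArg Prod.fst e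
        have e2 : u.1.1 = u'.1.1 := congrArg (fun q => q.2.1) e
        have e3 : c.role u b = c.role u' b' := congrArg (fun q => q.2.2) e
        have e4 : u = u' := Subtype.ext (Prod.ext e2 e1)
        subst e4
        have e5 : b = b' := by
          cases b <;> cases b'
          · rfl
          · exact absurd e3 (ht1 u)
          · exact absurd e3.symm (ht1 u)
          · rfl
        rw [e5]
      · exact ⟨⟨(m, z), hz⟩, hnu _, rfl, rfl⟩
    have hU : c.aU = 1 := by
      unfold Cfg.aU
      rw [filter_false_of_mem fun u _ => hnu u, cprod_empty]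
    have htau : c.tau = monoS s := by
      unfold Cfg.tau
      rw [hU, app_one, monoS_eq_Th]
    rw [← htau]
    exact dkl2c_sup_TS (c.balance hc) fun _ _ _ => trivial
  · push Not at hs
    obtain ⟨m, hm, hv⟩ := hs
    refine Submodule.mem_sup_left ?_
    rw [← Multiset.cons_erase hm, ← Multiset.singleton_add, monoS_add, monoS_singleton]
    exact Ideal.mul_mem_right _ _ (Ideal.subset_span (Or.inl (Or.inl ⟨m, hv, rfl⟩)))

end Pool.Agent.Lib.MP_595dc0_ag.Dk
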