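import Mathlib
import Pool.Agent.Lib.MP_595dc0_ag.DkL2b
import Pool.Agent.Lib.MP_595dc0_ag.DkL1r

set_option autoImplicit false

namespace Pool.Agent.Lib.MP_595dc0_ag.Dk

open Equiv Finset MvPolynomial

namespace Cfg

variable {k n : ℕ} {M U : Type} [Fintype M] [DecidableEq M] [Fintype U] [DecidableEq U]

variable {c : Cfg k n M U} {e : Fin (k * k + 1) ↪ M} {ε : Fin (k * k + 1) → U × Bool}
  {r₀ r₁ : Fin k}

omit [Fintype M] in
theorem mem_evs_l2d (c : Cfg k n M U) (m : M) (p : U × Bool) :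
    p ∈ c.evs m ↔ c.actv p ∧ c.mo p.1 p.2 = m := by
  simp [evs]

theorem sk_valid_comp_l2d {a : Sk k n} (h : a.Valid) (π : Perm (Fin n)) :
    (⟨a.cls, fun z => a.sep (π z)⟩ : Sk k n).Valid := by
  refine ⟨fun z => h.1 (π z), fun r r' h1 h2 h3 => ?_⟩
  rw [← h.2 r r' h1 h2 h3]
  exact card_equiv π fun z => by simp

omit [Fintype M] in
theorem via_fix_l2d (σ : Perm (Fin (k * k + 1))) (m : M) (hm : σ.viaEmbedding e m ≠ m) :
    ∃ i, e i = m := by
  by_contra h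
  exact hm (Perm.viaEmbedding_apply_of_notMem _ _ _ h)

omit [Fintype M] in
theorem ExHyp.mo_l2d (h : c.ExHyp e ε r₀ r₁) (i : Fin (k * k + 1)) :
    c.mo (ε i).1 (ε i).2 = e i := ((mem_evs_l2d c _ _).1 (h.mem i)).2

omit [Fintype M] in
theorem ExHyp.actv_l2d (h : c.ExHyp e ε r₀ r₁) (i : Fin (k * k + 1)) : c.actv (ε i) :=
  ((mem_evs_l2d c _ _).1 (h.mem i)).1

omit [Fintype M] in
theorem ExHyp.unit_l2d (h : c.ExHyp e ε r₀ r₁) (i : Fin (k * k + 1)) :
    c.unit (ε i).1 ↔ r₀ = r₁ := by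
  rw [unit, (h.role i).1, (h.role i).2]

omit [Fintype M] in
theorem ExHyp.role_l2d (h : c.ExHyp e ε r₀ r₁) (i : Fin (k * k + 1)) :
    c.role (ε i).1 (ε i).2 = r₀ := by
  rcases h.actv_l2d i with h1 | h1
  · rw [h1, (h.role i).1]
  · cases (ε i).2
    · exact (h.role i).1
    · exact (h.role i).2.trans ((h.unit_l2d i).1 h1).symm

omit [Fintype M] in
theorem ExHyp.eps_mem_l2d (h : c.ExHyp e ε r₀ r₁) (i j : Fin (k * k + 1)) :
    ε i ∈ c.evs (e j) ↔ i = j := by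
  rw [mem_evs_l2d, h.mo_l2d, e.apply_eq_iff_eq, and_iff_right (h.actv_l2d i)]

omit [Fintype M] in
theorem ExHyp.cls_l2d (h : c.ExHyp e ε r₀ r₁) (σ : Perm (Fin (k * k + 1))) (m : M) :
    (c.f (σ.viaEmbedding e m)).cls = (c.f m).cls := by
  by_cases hm : σ.viaEmbedding e m = m
  · rw [hm]
  · obtain ⟨i, rfl⟩ := via_fix_l2d σ m hm
    rw [Perm.viaEmbedding_apply]
    exact h.cls _ _

omit [Fintype M] in
theorem ExHyp.col_l2d (h : c.ExHyp e ε r₀ r₁) (hc : c.Valid) (i : Fin (k * k + 1)) {z : Fin n}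
    (hz : z ∈ univ.image (fun i => c.col (ε i).1)) (h1 : (c.f (e i)).sep z ≠ 1) :
    z = c.col (ε i).1 := by
  obtain ⟨u, -, rfl, h2⟩ := hc.surj _ _ h1
  obtain ⟨i', -, h3⟩ := mem_image.1 hz
  exact h.sep i i' (u, false) ((mem_evs_l2d c _ _).2 ⟨Or.inl rfl, h2⟩) h3.symm

omit [Fintype M] in
theorem ExHyp.sep_l2d (h : c.ExHyp e ε r₀ r₁) (hc : c.Valid) (hr : r₀ ≠ r₁)
    (i : Fin (k * k + 1)) {z : Fin n} (hz : z ∈ univ.image (fun i => c.col (ε i).1)) :
    (c.f (e i)).sep z = if z = c.col (ε i).1 then swap r₀ r₁ else 1 := by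
  split_ifs with h1
  · have h2 : ¬c.unit (ε i).1 := fun hu => hr ((h.unit_l2d i).1 hu)
    have h3 := (hc.sep _ h2).2
    have h4 := h.mo_l2d i
    rw [(h.actv_l2d i).resolve_right h2] at h4
    rwa [h4, (h.role i).1, (h.role i).2, ← h1] at h3
  · by_contra h2
    exact h1 (h.col_l2d hc i hz h2)

theorem sq_step_l2d (a b : ℕ) (P Q : Prop) [Decidable P] [Decidable Q] (h1 : P → b ≤ a)
    (h2 : ¬P → a ≤ b) :
    (a + if Q then 1 else 0) ^ 2 + (2 * b + 1) * (if P then 1 else 0) ≤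
      (a + if P then 1 else 0) ^ 2 + (2 * b + 1) * (if Q then 1 else 0) := by
  by_cases hP : P <;> by_cases hQ : Q <;> simp only [hP, hQ, if_true, if_false, le_refl]
  · nlinarith [h1 hP]
  · nlinarith [h2 hP]

theorem exists_lt_l2d {N : ℕ} (σ : Perm (Fin N)) (hσ : σ ≠ 1) : ∃ i, i < σ i := by
  by_contra h
  simp only [not_exists, not_lt] at h
  refine hσ (Equiv.ext fun i => Fin.ext ?_)
  exact (sum_eq_sum_iff_of_le (f := fun i => (σ i : ℕ)) (g := fun i => (i : ℕ))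
    fun i _ => h i).1 (Equiv.sum_comp σ fun i => (i : ℕ)) i (mem_univ i)

theorem exch_hyp2 (hc : c.Valid) (h : c.ExHyp e ε r₀ r₁) :
    Hyp2 c.f e {r₀, r₁} (univ.image (fun i => c.col (ε i).1)) (decide (r₀ ≠ r₁)) := by
  refine ⟨fun σ m => ?_, h.cls, card_le_two, fun i z hz r hr => ?_, fun i => ?_⟩
  · by_cases hr : r₀ = r₁
    · rw [decide_eq_false (not_not.2 hr), exF_false]
      exact hc.sk m
    by_cases hm : σ.viaEmbedding e m = m
    · rw [exF_of_fixed _ _ _ _ _ hm]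
      exact hc.sk m
    obtain ⟨j, rfl⟩ := via_fix_l2d σ m hm
    obtain ⟨i, rfl⟩ := σ.surjective j
    have h1 : (σ.viaEmbedding e)⁻¹ (e (σ i)) = e i := by
      rw [Perm.inv_eq_iff_eq, Perm.viaEmbedding_apply]
    have hY : ∀ j, c.col (ε j).1 ∈ univ.image (fun i => c.col (ε i).1) := fun j =>
      mem_image_of_mem _ (mem_univ j)
    convert sk_valid_comp_l2d (hc.sk (e (σ i))) (swap (c.col (ε i).1) (c.col (ε (σ i)).1)) using 1
    unfold exF
    congr 1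
    funext z
    rw [h1]
    split_ifs with hz
    · have h2 : swap (c.col (ε i).1) (c.col (ε (σ i)).1) z ∈
          univ.image (fun i => c.col (ε i).1) := by
        rw [swap_apply_def]
        split_ifs
        exacts [hY _, hY _, hz.2]
      rw [h.sep_l2d hc hr _ hz.2, h.sep_l2d hc hr _ h2]
      simp only [swap_apply_eq_iff, swap_apply_right]
    · have h2 : z ∉ univ.image (fun i => c.col (ε i).1) := fun h3 => hz ⟨decide_eq_true hr, h3⟩
      rw [swap_apply_of_ne_of_ne (ne_of_mem_of_not_mem (hY _) h2).symm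
        (ne_of_mem_of_not_mem (hY _) h2).symm]
  · have h1 := h.col_l2d hc i hz fun h2 => hr (by rw [h2]; rfl)
    rw [decide_eq_true_iff, mem_insert, mem_singleton]
    by_cases h2 : r₀ = r₁
    · have h3 := hc.unit_fix _ ((h.unit_l2d i).2 h2) (ε i).2
      rw [h.mo_l2d, h.role_l2d, ← h1] at h3
      subst h2
      simp only [or_self, ne_eq, not_true, iff_false]
      rintro rfl
      exact hr h3
    · rw [h.sep_l2d hc h2 i hz, if_pos h1] at hr
      exact iff_of_true (eq_or_eq_of_swap_apply_ne_self hr) h2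
  · refine card_le_one.2 fun z hz z' hz' => ?_
    rw [mem_filter] at hz hz'
    rw [h.col_l2d hc i hz.1 hz.2, h.col_l2d hc i hz'.1 hz'.2]

theorem exch_valid (hc : c.Valid) (h : c.ExHyp e ε r₀ r₁) (σ : Perm (Fin (k * k + 1))) :
    (c.exch e ε r₀ r₁ σ).Valid := by
  obtain ⟨h1, -, -, h2, -⟩ := exch_hyp2 hc h
  refine move_valid c hc _ _ _ _ (h.cls_l2d σ) (fun z hz m hm => ?_) (h1 σ)
  obtain ⟨i, rfl⟩ := via_fix_l2d σ m hm
  exact h2 i z hz

theorem exch_mo_eps (h : c.ExHyp e ε r₀ r₁) (σ : Perm (Fin (k * k + 1))) (i : Fin (k * k + 1)) :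
    (c.exch e ε r₀ r₁ σ).mo (ε i).1 (ε i).2 = e (σ i) := by
  refine (if_pos ⟨mem_image_of_mem _ (mem_univ i), ?_⟩).trans ?_
  · rw [h.mo_l2d, Perm.viaEmbedding_apply]
  · rw [h.role_l2d]
    exact mem_insert_self _ _

theorem exch_mo_other (hc : c.Valid) (h : c.ExHyp e ε r₀ r₁) (σ : Perm (Fin (k * k + 1)))
    (p : U × Bool) (hp : c.actv p) (hne : ∀ i, ε i ≠ p) :
    (c.exch e ε r₀ r₁ σ).mo p.1 p.2 = c.mo p.1 p.2 := by
  by_contra h0
  have h1 : c.col p.1 ∈ univ.image (fun i => c.col (ε i).1) ∧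
      c.role p.1 p.2 ∈ ({r₀, r₁} : Finset (Fin k)) := by
    by_contra h1
    exact h0 (if_neg h1)
  obtain ⟨i, hi⟩ := via_fix_l2d σ (c.mo p.1 p.2) fun h2 => h0 ((if_pos h1).trans h2)
  obtain ⟨i', -, h2⟩ := mem_image.1 h1.1
  have h3 := h.sep i i' p ((mem_evs_l2d c _ _).2 ⟨hp, hi.symm⟩) h2.symm
  have h4 : c.role p.1 p.2 ≠ r₀ := fun h4 => hne i (hc.inj (by
    simp only [cell, rw, h3, h4, h.mo_l2d, h.role_l2d, hi]))
  have h5 : c.role p.1 p.2 = r₁ := mem_singleton.1 ((mem_insert.1 h1.2).resolve_left h4)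
  have h6 : ¬c.unit (ε i).1 := fun hu => h4 (h5.trans ((h.unit_l2d i).1 hu).symm)
  have h7 := h.mo_l2d i
  rw [(h.actv_l2d i).resolve_right h6, (hc.sep _ h6).1] at h7
  have h8 : p = ((ε i).1, true) := hc.inj (by
    simp only [cell, rw, h3, h5, h7, (h.role i).2, hi])
  subst h8
  exact h6 (hp.resolve_left (by simp))

theorem exch_sing (h : c.ExHyp e ε r₀ r₁) (σ : Perm (Fin (k * k + 1))) :
    (c.exch e ε r₀ r₁ σ).sing = c.sing :=
  move_sing c _ _ _ _ (h.cls_l2d σ)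

theorem exch_one : c.exch e ε r₀ r₁ 1 = c := by
  rw [exch, ← Perm.viaEmbeddingHom_apply, map_one, move_one]

theorem exch_evs (hc : c.Valid) (h : c.ExHyp e ε r₀ r₁) (σ : Perm (Fin (k * k + 1)))
    (i : Fin (k * k + 1)) :
    (c.exch e ε r₀ r₁ σ).evs (e (σ i)) = insert (ε i) ((c.evs (e (σ i))).erase (ε (σ i))) := by
  ext p
  rw [mem_evs_l2d, mem_insert, mem_erase]
  change c.actv p ∧ _ ↔ _
  by_cases hp : ∃ j, ε j = p
  · obtain ⟨j, rfl⟩ := hp
    rw [exch_mo_eps h, h.eps_mem_l2d, e.apply_eq_iff_eq, σ.apply_eq_iff_eq,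
      and_iff_right (h.actv_l2d j)]
    refine ⟨fun h1 => Or.inl (h1 ▸ rfl), ?_⟩
    rintro (h1 | ⟨h1, rfl⟩)
    · exact (h.eps_mem_l2d j i).1 (h1 ▸ h.mem i)
    · exact absurd rfl h1
  · rw [not_exists] at hp
    rw [mem_evs_l2d, or_iff_right (Ne.symm (hp i)), and_iff_right (Ne.symm (hp (σ i)))]
    exact and_congr_right fun h1 => by rw [exch_mo_other hc h σ p h1 hp]

theorem exch_evs_other (hc : c.Valid) (h : c.ExHyp e ε r₀ r₁) (σ : Perm (Fin (k * k + 1)))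
    (m : M) (hm : m ∉ Set.range e) : (c.exch e ε r₀ r₁ σ).evs m = c.evs m := by
  ext p
  rw [mem_evs_l2d, mem_evs_l2d]
  change c.actv p ∧ _ ↔ _
  refine and_congr_right fun h1 => ?_
  by_cases hp : ∃ j, ε j = p
  · obtain ⟨j, rfl⟩ := hp
    rw [exch_mo_eps h, h.mo_l2d]
    exact iff_of_false (fun h2 => hm ⟨_, h2⟩) fun h2 => hm ⟨_, h2⟩
  · rw [exch_mo_other hc h σ p h1 (not_exists.1 hp)]

theorem exch_good (hc : c.Valid) (h : c.ExHyp e ε r₀ r₁) (hg : c.Good)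
    (σ : Perm (Fin (k * k + 1))) : (c.exch e ε r₀ r₁ σ).Good := by
  intro m
  by_cases hm : m ∈ Set.range e
  · obtain ⟨j, rfl⟩ := hm
    obtain ⟨i, rfl⟩ := σ.surjective j
    rw [exch_evs hc h]
    exact (card_insert_le _ _).trans ((card_erase_add_one (h.mem _)).le.trans (hg _))
  · rw [exch_evs_other hc h σ m hm]
    exact hg m

theorem exch_sum (hc : c.Valid) (h : c.ExHyp e ε r₀ r₁) :
    ∑ σ : Perm (Fin (k * k + 1)), ((Perm.sign σ : ℤ) : ℂ) • (c.exch e ε r₀ r₁ σ).tau ∈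
      Rel k n := by
  simp only [exch, move_tau]
  exact app_exch_mem_Rel c.f e _ _ _ (exch_hyp2 hc h) _ _

/-- Majorisation: the exchange lowers the convexity profile. -/
theorem exch_PP_lt (hc : c.Valid) (h : c.ExHyp e ε r₀ r₁) (ε' : Fin (k * k + 1) → U × Bool)
    (h1 : ∀ i, ε' i ∈ c.evs (e i) ∧ ε' i ≠ ε i ∧ c.col (ε' i).1 ≤ c.col (ε i).1)
    (h2 : ∀ i i', i < i' → c.col (ε i).1 < c.col (ε' i').1) (b : ℕ)
    (h3 : ∀ i, ((c.evs (e i)).filter (fun p => c.col (ε i).1 < c.col p.1)).card = b)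
    (σ : Perm (Fin (k * k + 1))) (hσ : σ ≠ 1) :
    toLex (c.exch e ε r₀ r₁ σ).PP < toLex c.PP := by
  obtain ⟨a, ha⟩ : ∃ a : Fin (k * k + 1) → Fin n → ℕ, ∀ j z, a j z =
    (((c.evs (e j)).erase (ε j)).filter (fun p => z ≤ c.col p.1)).card := ⟨_, fun _ _ => rfl⟩
  have k1 : ∀ (τ : Perm (Fin (k * k + 1))) z, (c.exch e ε r₀ r₁ τ).PP z =
      ∑ i, (a (τ i) z + if z ≤ c.col (ε i).1 then 1 else 0) ^ 2 +
        ∑ m ∈ (univ.map e)ᶜ, c.hz m z ^ 2 := fun τ z => by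
    rw [PP, ← sum_add_sum_compl (univ.map e), sum_map, ← Equiv.sum_comp τ]
    congr 1
    · refine sum_congr rfl fun i _ => ?_
      rw [hz, exch_evs hc h, filter_insert, ha]
      change (if z ≤ c.col (ε i).1 then _ else _ : Finset _).card ^ 2 = _
      split_ifs
      · rw [card_insert_of_notMem fun h4 => ?_]
        · rfl
        · have h5 := mem_erase.1 (mem_filter.1 h4).1
          exact h5.1 (congrArg ε ((h.eps_mem_l2d _ _).1 h5.2))
      · rfl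
    · refine sum_congr rfl fun m hm => ?_
      rw [hz, exch_evs_other hc h τ m (by simpa using hm)]
      rfl
  have k2 : ∀ z, c.PP z = ∑ i, (a (σ i) z + if z ≤ c.col (ε (σ i)).1 then 1 else 0) ^ 2 +
      ∑ m ∈ (univ.map e)ᶜ, c.hz m z ^ 2 := fun z => by
    have := k1 1 z
    rw [exch_one] at this
    rw [this, ← Equiv.sum_comp σ]
    rfl
  have k3 : ∀ j z, z ≤ c.col (ε j).1 → (c.evs (e j)).filter (fun p => c.col (ε j).1 < c.col p.1) ⊆
      ((c.evs (e j)).erase (ε j)).filter (fun p => z ≤ c.col p.1) := fun j z hz p hp => by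
    rw [mem_filter] at hp
    exact mem_filter.2 ⟨mem_erase.2 ⟨fun h4 => hp.2.ne (h4 ▸ rfl), hp.1⟩, hz.trans hp.2.le⟩
  have k4 : ∀ j z, (a (σ j) z + if z ≤ c.col (ε j).1 then 1 else 0) ^ 2 +
      (2 * b + 1) * (if z ≤ c.col (ε (σ j)).1 then 1 else 0) ≤
      (a (σ j) z + if z ≤ c.col (ε (σ j)).1 then 1 else 0) ^ 2 +
      (2 * b + 1) * (if z ≤ c.col (ε j).1 then 1 else 0) := fun j z => by
    refine sq_step_l2d _ _ _ _ (fun hz => ?_) fun hz => ?_
    · rw [ha, ← h3 (σ j)]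
      exact card_le_card (k3 _ z hz)
    · rw [ha, ← h3 (σ j)]
      refine card_le_card fun p hp => ?_
      rw [mem_filter] at hp ⊢
      exact ⟨mem_of_mem_erase hp.1, (not_le.1 hz).trans_le hp.2⟩
  have k5 : ∀ z, ∑ j, (2 * b + 1) * (if z ≤ c.col (ε (σ j)).1 then 1 else 0) =
      ∑ j, (2 * b + 1) * (if z ≤ c.col (ε j).1 then 1 else 0) := fun z =>
    Equiv.sum_comp σ fun j => (2 * b + 1) * (if z ≤ c.col (ε j).1 then 1 else 0)
  obtain ⟨i, hi⟩ := exists_lt_l2d σ hσ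
  refine Pi.toLex_strictMono (Pi.lt_def.2 ⟨fun z => ?_, c.col (ε' (σ i)).1, ?_⟩)
  · have := sum_le_sum fun j (_ : j ∈ univ) => k4 j z
    rw [sum_add_distrib, sum_add_distrib, k5] at this
    change (c.exch e ε r₀ r₁ σ).PP z ≤ c.PP z
    rw [k1, k2]
    omega
  · have := sum_lt_sum (fun j (_ : j ∈ univ) => k4 j (c.col (ε' (σ i)).1)) ⟨i, mem_univ i, by
      have h4 : b < a (σ i) (c.col (ε' (σ i)).1) := by
        rw [ha, ← h3 (σ i)]
        refine card_lt_card ⟨k3 _ _ (h1 _).2.2, fun h4 => ?_⟩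
        exact (mem_filter.1 (h4 (mem_filter.2
          ⟨mem_erase.2 ⟨(h1 _).2.1, (h1 _).1⟩, le_rfl⟩))).2.not_ge (h1 _).2.2
      rw [if_pos (h1 _).2.2, if_neg (h2 _ _ hi).not_ge]
      nlinarith⟩
    rw [sum_add_distrib, sum_add_distrib, k5] at this
    rw [k1, k2]
    omega

end Cfg

end Pool.Agent.Lib.MP_595dc0_ag.Dk
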