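import Mathlib
import Pool.Agent.Lib.MP_595dc0_ag.DkL2d

set_option autoImplicit false

namespace Pool.Agent.Lib.MP_595dc0_ag.Dk

open Equiv Finset MvPolynomial

variable {k n : ℕ} {M U : Type} [Fintype M] [DecidableEq M] [Fintype U] [DecidableEq U]

/-- Intervals that `q` points cannot pierce contain `q + 1` disjoint ones. -/
theorem greedy_intervals {ι : Type} (hn : 0 < n) (l r : ι → Fin n) (q : ℕ) (S : Set ι)
    (hlr : ∀ i ∈ S, l i ≤ r i) (h : ∀ p : Fin q → Fin n, ¬ ∀ i ∈ S, ∃ s, l i ≤ p s ∧ p s ≤ r i) :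
    ∃ g : Fin (q + 1) → ι, (∀ t, g t ∈ S) ∧ ∀ t t', t < t' → r (g t) < l (g t') := by
  induction q generalizing S with
  | zero =>
    have hne : S.Nonempty := by
      by_contra hS
      exact h (fun _ => ⟨0, hn⟩) (fun i hi => absurd ⟨i, hi⟩ hS)
    obtain ⟨i, hi⟩ := hne
    refine ⟨fun _ => i, fun _ => hi, fun t t' htt => ?_⟩
    have h1 := t.2
    have h2 := t'.2
    have h3 : t.1 < t'.1 := htt
    omega
  | succ q ih =>
    have hne : S.Nonempty := by
      by_contra hS
      exact h (fun _ => ⟨0, hn⟩) (fun i hi => absurd ⟨i, hi⟩ hS)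
    obtain ⟨i₀, hi₀, hmin⟩ := (InvImage.wf r (wellFounded_lt (α := Fin n))).has_min S hne
    obtain ⟨g, hg, hgl⟩ := ih {i | i ∈ S ∧ r i₀ < l i} (fun i hi => hlr i hi.1) (by
      intro p hp
      refine h (Fin.cons (r i₀) p) (fun i hi => ?_)
      by_cases hlt : r i₀ < l i
      · obtain ⟨s, hs⟩ := hp i ⟨hi, hlt⟩
        exact ⟨s.succ, by simpa using hs⟩
      · refine ⟨0, ?_, ?_⟩
        · simpa using hlt
        · have := hmin i hi
          simpa [InvImage] using this)
    refine ⟨Fin.cons i₀ g, fun t => ?_, fun t t' htt => ?_⟩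
    · refine Fin.cases ?_ (fun s => ?_) t
      · simpa using hi₀
      · simpa using (hg s).1
    · revert htt
      refine Fin.cases ?_ (fun s' => ?_) t'
      · intro htt
        exact absurd htt (Fin.not_lt_zero t)
      · refine Fin.cases ?_ (fun s => ?_) t
        · intro _
          simpa using (hg s').2
        · intro htt
          simpa using hgl s s' (Fin.succ_lt_succ_iff.mp htt)

/-- A vertex of small in-degree. -/
theorem exists_small_indeg {ι : Type} [DecidableEq ι] (out : ι → Finset ι) (w : ℕ)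
    (hw : ∀ a, (out a).card ≤ w) (V : Finset ι) (hV : V.Nonempty) :
    ∃ v ∈ V, (V.filter (fun a => v ∈ out a)).card ≤ w := by
  apply Finset.exists_le_of_sum_le (f := fun v => (V.filter (fun a => v ∈ out a)).card)
    (g := fun _ => w) hV
  calc ∑ v ∈ V, (V.filter (fun a => v ∈ out a)).card
      = ∑ a ∈ V, (V.filter (fun v => v ∈ out a)).card := by
        simp only [Finset.card_filter]
        exact Finset.sum_comm
    _ ≤ ∑ _a ∈ V, w := by
        refine Finset.sum_le_sum (fun a _ => le_trans (Finset.card_le_card ?_) (hw a))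
        intro v hv
        exact (Finset.mem_filter.mp hv).2

/-- Independent sets in a digraph of bounded out-degree. -/
theorem exists_indep {ι : Type} [DecidableEq ι] (out : ι → Finset ι) (w : ℕ)
    (hw : ∀ a, (out a).card ≤ w) (K : ℕ) (V : Finset ι) (hV : (2 * w + 1) * K < V.card) :
    ∃ I ⊆ V, I.card = K + 1 ∧ ∀ a ∈ I, ∀ b ∈ I, a ≠ b → b ∉ out a := by
  induction K generalizing V with
  | zero =>
    obtain ⟨v, hv⟩ : V.Nonempty := Finset.card_pos.mp (by omega)
    refine ⟨{v}, by simpa using hv, by simp, ?_⟩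
    intro a ha b hb hab
    exact absurd ((Finset.mem_singleton.mp ha).trans (Finset.mem_singleton.mp hb).symm) hab
  | succ K ih =>
    obtain ⟨v, hv, hin⟩ := exists_small_indeg out w hw V (Finset.card_pos.mp (by omega))
    set B : Finset ι := insert v (out v ∪ V.filter (fun a => v ∈ out a)) with hB
    have hBc : B.card ≤ 2 * w + 1 := by
      have h1 := Finset.card_insert_le v (out v ∪ V.filter (fun a => v ∈ out a))
      have h2 := Finset.card_union_le (out v) (V.filter (fun a => v ∈ out a))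
      have h3 := hw v
      rw [hB]
      omega
    have hV' : (2 * w + 1) * K < (V \ B).card := by
      have h1 := Finset.le_card_sdiff B V
      have h2 : (2 * w + 1) * (K + 1) = (2 * w + 1) * K + (2 * w + 1) := by ring
      omega
    obtain ⟨I, hIV, hIc, hI⟩ := ih (V \ B) hV'
    have hIB : ∀ a ∈ I, a ∈ V ∧ a ≠ v ∧ a ∉ out v ∧ v ∉ out a := by
      intro a ha
      have h1 := Finset.mem_sdiff.mp (hIV ha)
      have h2 := h1.2
      rw [hB, Finset.mem_insert, Finset.mem_union, Finset.mem_filter] at h2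
      refine ⟨h1.1, fun h => h2 (Or.inl h), fun h => h2 (Or.inr (Or.inl h)),
        fun h => h2 (Or.inr (Or.inr ⟨h1.1, h⟩))⟩
    have hvI : v ∉ I := fun h => (hIB v h).2.1 rfl
    refine ⟨insert v I, ?_, by rw [Finset.card_insert_of_notMem hvI, hIc], ?_⟩
    · intro a ha
      rcases Finset.mem_insert.mp ha with rfl | ha
      · exact hv
      · exact (hIB a ha).1
    · intro a ha b hb hab
      rcases Finset.mem_insert.mp ha with hav | ha'
      · rcases Finset.mem_insert.mp hb with hbv | hb'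
        · exact absurd (hav.trans hbv.symm) hab
        · rw [hav]
          exact (hIB b hb').2.2.1
      · rcases Finset.mem_insert.mp hb with hbv | hb'
        · rw [hbv]
          exact (hIB a ha').2.2.2
        · exact hI a ha' b hb' hab

omit [Fintype M] [DecidableEq U] in
/-- An unpierced good configuration has `k * k + 1` events ready for the exchange. -/
theorem Cfg.exists_exHyp (hn : 0 < n) (c : Cfg k n M U) (hg : c.Good) (h : ∀ p, ¬ c.Pierced p) :
    ∃ (e : Fin (k * k + 1) ↪ M) (ε ε' : Fin (k * k + 1) → U × Bool) (r₀ r₁ : Fin k) (b : ℕ),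
      c.ExHyp e ε r₀ r₁ ∧
      (∀ i, ε' i ∈ c.evs (e i) ∧ ε' i ≠ ε i ∧ c.col (ε' i).1 ≤ c.col (ε i).1) ∧
      (∀ i i', i < i' → c.col (ε i).1 < c.col (ε' i').1) ∧
      ∀ i, ((c.evs (e i)).filter (fun p => c.col (ε i).1 < c.col p.1)).card = b := by
  obtain ⟨g, hgS, hgl⟩ := greedy_intervals (ι := M × (U × Bool) × (U × Bool)) hn
    (fun i => c.col i.2.1.1) (fun i => c.col i.2.2.1) (qB k)
    {i | i.2.1 ∈ c.evs i.1 ∧ i.2.2 ∈ c.evs i.1 ∧ i.2.1 ≠ i.2.2 ∧ c.col i.2.1.1 ≤ c.col i.2.2.1}
    (fun i hi => hi.2.2.2) (by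
      intro p hp
      exact h p (fun m e he e' he' hne hle => hp (m, e, e') ⟨he, he', hne, hle⟩))
  have hrlt : ∀ t t', t < t' → c.col (g t).2.2.1 < c.col (g t').2.2.1 :=
    fun t t' htt => lt_of_lt_of_le (hgl t t' htt) (hgS t').2.2.2
  have hrinj : Function.Injective (fun t => c.col (g t).2.2.1) :=
    StrictMono.injective (fun t t' htt => hrlt t t' htt)
  have hb : ∀ t, ((c.evs (g t).1).filter (fun p => c.col (g t).2.2.1 < c.col p.1)).card <
      wB k + 1 := fun t => Nat.lt_succ_of_le (le_trans (Finset.card_filter_le _ _) (hg _))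
  let κ : Fin (qB k + 1) → (Fin k × Fin k × Fin k) × Fin (wB k + 1) := fun t =>
    (((c.f (g t).1).cls, c.role (g t).2.2.1 false, c.role (g t).2.2.1 true), ⟨_, hb t⟩)
  obtain ⟨y, -, hy⟩ := Finset.exists_lt_card_fiber_of_mul_lt_card_of_maps_to
    (s := (univ : Finset (Fin (qB k + 1)))) (t := univ) (f := κ)
    (n := (2 * wB k + 1) * (k * k)) (fun _ _ => Finset.mem_univ _) (by
      simp only [Finset.card_univ, Fintype.card_prod, Fintype.card_fin]
      have : k * (k * k) * (wB k + 1) * ((2 * wB k + 1) * (k * k)) = qB k := by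
        unfold qB
        ring
      omega)
  let out : Fin (qB k + 1) → Finset (Fin (qB k + 1)) := fun t =>
    univ.filter (fun t' => c.col (g t').2.2.1 ∈ (c.evs (g t).1).image (fun p => c.col p.1))
  have hout : ∀ t, (out t).card ≤ wB k := by
    intro t
    refine le_trans (Finset.card_le_card_of_injOn (fun t' => c.col (g t').2.2.1)
      (t := (c.evs (g t).1).image (fun p => c.col p.1)) ?_ hrinj.injOn)
      (le_trans Finset.card_image_le (hg _))
    intro t' ht'
    exact (Finset.mem_filter.mp ht').2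
  obtain ⟨I, hIV, hIc, hI⟩ := exists_indep out (wB k) hout (k * k) _ hy
  let o : Fin (k * k + 1) ↪o Fin (qB k + 1) := I.orderEmbOfFin hIc
  have hoI : ∀ i, o i ∈ I := fun i => Finset.orderEmbOfFin_mem I hIc i
  have hκ : ∀ i, κ (o i) = y := fun i => (Finset.mem_filter.mp (hIV (hoI i))).2
  have hsep : ∀ i i', ∀ p ∈ c.evs (g (o i)).1, c.col p.1 = c.col (g (o i')).2.2.1 → i = i' := by
    intro i i' p hp hcol
    by_contra hne
    refine hI (o i) (hoI i) (o i') (hoI i') (fun hh => hne (o.injective hh)) ?_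
    exact Finset.mem_filter.mpr ⟨Finset.mem_univ _, Finset.mem_image.mpr ⟨p, hp, hcol⟩⟩
  have hinj : Function.Injective (fun i => (g (o i)).1) := by
    intro i i' hii
    have hii' : (g (o i)).1 = (g (o i')).1 := hii
    refine hsep i i' (g (o i')).2.2 ?_ rfl
    rw [hii']
    exact (hgS (o i')).2.1
  refine ⟨⟨fun i => (g (o i)).1, hinj⟩, fun i => (g (o i)).2.2, fun i => (g (o i)).2.1,
    y.1.2.1, y.1.2.2, y.2.1, ⟨fun i => (hgS (o i)).2.1, fun i i' => ?_, fun i => ?_, ?_⟩,
    fun i => ⟨(hgS (o i)).1, (hgS (o i)).2.2.1, (hgS (o i)).2.2.2⟩,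
    fun i i' hii => hgl (o i) (o i') (o.strictMono hii), fun i => ?_⟩
  · exact (congrArg (fun z => z.1.1) (hκ i)).trans (congrArg (fun z => z.1.1) (hκ i')).symm
  · exact ⟨congrArg (fun z => z.1.2.1) (hκ i), congrArg (fun z => z.1.2.2) (hκ i)⟩
  · intro i i' p hp hcol
    have hii := hsep i i' p hp hcol
    subst hii
    exact hcol
  · exact congrArg (fun z => z.2.1) (hκ i)

theorem Cfg.unpierce (hn : 0 < n) (c : Cfg k n M U) (hc : c.Valid) (hg : c.Good)
    (h : ∀ p, ¬ c.Pierced p) :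
    c.tau ∈ (Rel k n).restrictScalars ℂ ⊔ Submodule.span ℂ (TS k n (fun a _ =>
      a.1 = Fintype.card M ∧ a.2.1 = c.tt ∧ toLex a.2.2 < toLex c.PP)) := by
  obtain ⟨e, ε, ε', r₀, r₁, b, hE, h1, h2, h3⟩ := c.exists_exHyp hn hg h
  have hsum := Cfg.exch_sum hc hE
  have hsplit : c.tau =
      ∑ σ : Perm (Fin (k * k + 1)), ((Perm.sign σ : ℤ) : ℂ) • (c.exch e ε r₀ r₁ σ).tau -
        ∑ σ ∈ (univ : Finset (Perm (Fin (k * k + 1)))).erase 1,
          ((Perm.sign σ : ℤ) : ℂ) • (c.exch e ε r₀ r₁ σ).tau := by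
    rw [← Finset.add_sum_erase _ _ (Finset.mem_univ (1 : Perm (Fin (k * k + 1)))),
      add_sub_cancel_right, Cfg.exch_one]
    simp
  rw [hsplit]
  refine Submodule.sub_mem _ (Submodule.mem_sup_left hsum) (Submodule.mem_sup_right ?_)
  refine Submodule.sum_mem _ (fun σ hσ => Submodule.smul_mem _ _ (Submodule.subset_span ?_))
  exact ⟨M, U, inferInstance, inferInstance, inferInstance, inferInstance, c.exch e ε r₀ r₁ σ,
    Cfg.exch_valid hc hE σ, Cfg.exch_good hc hE hg σ,
    ⟨rfl, Cfg.move_tt c _ _ _ _,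
      Cfg.exch_PP_lt hc hE ε' h1 h2 b h3 σ (Finset.ne_of_mem_erase hσ)⟩, rfl⟩

end Pool.Agent.Lib.MP_595dc0_ag.Dk
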