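import Mathlib
import Pool.Agent.Lib.MP_595dc0_ag.DkL2b
import Pool.Agent.Lib.MP_595dc0_ag.DkL1m

set_option autoImplicit false
set_option linter.unusedSectionVars false

namespace Pool.Agent.Lib.MP_595dc0_ag.Dk

open Equiv Finset MvPolynomial

namespace DkL2fAux

theorem cprod_eq_zero {ι N : Type} [MonoidWithZero N] (s : Finset ι) (f : ι → N) (i : ι)
    (hi : i ∈ s) (h : f i = 0) : cprod s f = 0 := by
  unfold cprod
  apply List.prod_eq_zero
  rw [← h]
  exact List.mem_map_of_mem (Finset.mem_toList.2 hi)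

theorem og_cprod {ι R : Type} {n : ℕ} (s : Finset ι) (f : ι → GG n R) :
    og (cprod s f) = cprod s (fun i => og (f i)) :=
  map_cprod (MonoidAlgebra.of ℂ (GG n R)) s f

theorem commute_og {R : Type} {n : ℕ} {g h : GG n R} (e : Commute g h) :
    Commute (og g) (og h) := e.map (MonoidAlgebra.of ℂ (GG n R))

variable {k n : ℕ} {M U : Type} [DecidableEq M]

theorem sWG_empty (i' : Fin (n + 1)) (i : Fin n) (f : M → Sk k n) :
    sWG i' i (∅ : Finset M) f = 1 := by
  unfold sWG
  rw [← Pi.mulSingle_one (i'.succAbove i)]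
  congr 1

theorem sWG_insert (i' : Fin (n + 1)) (i : Fin n) (W : Finset M) (f : M → Sk k n) (m : M)
    (hm : m ∉ W) :
    sWG i' i (insert m W) f = sepG (i'.succAbove i) m ((f m).sep i) * sWG i' i W f := by
  unfold sWG sepG
  rw [← Pi.mulSingle_mul]
  congr 1
  ext ⟨a, c⟩
  · by_cases h : a = m
    · subst h
      simp [hm]
    · simp [h, Perm.prodExtendRight_apply_ne _ h]
  · by_cases h : a = m
    · subst h
      simp [hm]
    · simp [h, Perm.prodExtendRight_apply_ne _ h]

theorem sw_commute' {c : Cfg k n M U} (hc : c.Valid) {l : ℕ} (z z' : Fin l) (u u' : U)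
    (h : u ≠ u') (hz : z = z' → c.col u = c.col u') :
    Commute (sw z (c.rw u false) (c.rw u true)) (sw z' (c.rw u' false) (c.rw u' true)) := by
  refine commute_of_GD {q | q.1 = z ∧ ∃ b, q.2 = c.rw u b} {q | q.1 = z' ∧ ∃ b, q.2 = c.rw u' b}
    ?_ _ _ (sw_mem_GD _ _ _ _ ⟨rfl, false, rfl⟩ ⟨rfl, true, rfl⟩)
    (sw_mem_GD _ _ _ _ ⟨rfl, false, rfl⟩ ⟨rfl, true, rfl⟩)
  rw [Set.disjoint_left]
  rintro q ⟨h1, b, hb⟩ ⟨h2, b', hb'⟩
  have e : c.cell (u, b) = c.cell (u', b') := by
    unfold Cfg.cell
    rw [hz (h1.symm.trans h2), ← hb, ← hb']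
  exact h (congrArg Prod.fst (hc.inj e))

omit [DecidableEq M] in
theorem sep_unique {c : Cfg k n M U} (hc : c.Valid) {u u' : U} (hu : ¬ c.unit u)
    (hu' : ¬ c.unit u') (h1 : c.col u = c.col u') (h2 : c.mo u false = c.mo u' false) :
    u = u' := by
  have e1 := (hc.sep u hu).2
  have e2 := (hc.sep u' hu').2
  rw [h1, h2, e2] at e1
  have hne : c.role u false ≠ c.role u true := hu
  have hb : ∃ b, c.role u false = c.role u' b := by
    by_contra hcon
    push Not at hcon
    have h3 := swap_apply_of_ne_of_ne (hcon false) (hcon true)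
    rw [e1, swap_apply_left] at h3
    exact hne h3.symm
  obtain ⟨b, hb⟩ := hb
  have hm : c.mo u false = c.mo u' b := by
    cases b
    · exact h2
    · exact h2.trans (hc.sep u' hu').1
  have e : c.cell (u, false) = c.cell (u', b) := by
    unfold Cfg.cell Cfg.rw
    simp only [h1, hm, hb]
  exact congrArg Prod.fst (hc.inj e)

theorem sWG_image [DecidableEq U] {c : Cfg k n M U} (hc : c.Valid) (i' : Fin (n + 1)) (i : Fin n)
    (V : Finset U) (hV : ∀ u ∈ V, ¬ c.unit u ∧ c.col u = i) :
    sWG i' i (V.image (fun u => c.mo u false)) c.f =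
      cprod V (fun u => sw (i'.succAbove i) (c.rw u false) (c.rw u true)) := by
  induction V using Finset.induction_on with
  | empty => rw [image_empty, sWG_empty, cprod_empty]
  | insert u V hu ih =>
    have h0 := hV u (mem_insert_self u V)
    have hV' : ∀ v ∈ V, ¬ c.unit v ∧ c.col v = i := fun v hv => hV v (mem_insert_of_mem hv)
    have hm : c.mo u false ∉ V.image (fun u => c.mo u false) := by
      intro h
      obtain ⟨v, hv, e⟩ := mem_image.1 h
      have := sep_unique hc (hV' v hv).1 h0.1 ((hV' v hv).2.trans h0.2.symm) e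
      exact hu (this ▸ hv)
    rw [image_insert, sWG_insert _ _ _ _ _ hm, ih hV', cprod_insert _ _ _ hu]
    · congr 1
      have e := hc.sep u h0.1
      rw [← h0.2, e.2, sepG_swap]
      unfold Cfg.rw
      rw [← e.1]
    · intro a ha b hb hab
      exact sw_commute' hc _ _ a b hab fun _ => (hV a ha).2.trans (hV b hb).2.symm

end DkL2fAux

open DkL2fAux

namespace Cfg

variable {k n : ℕ} {M U : Type} [Fintype M] [DecidableEq M] [Fintype U] [DecidableEq U]

omit [Fintype M] [Fintype U] in
theorem mem_sepM_l2f (c : Cfg k n M U) (W : Finset U) (m : M) :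
    m ∈ c.sepM W ↔ ∃ u ∈ W, ¬ c.unit u ∧ c.mo u false = m := by
  simp only [sepM, mem_image, mem_filter, and_assoc]

theorem ins_valid (c : Cfg k n M U) (hc : c.Valid) (i' : Fin (n + 1)) (i : Fin n) (W : Finset U)
    (hW : ∀ u ∈ W, c.col u = i) (y : M × Fin k → Fin k) : (c.ins i' i W y).Valid := by
  refine ⟨fun m => insSk_valid i' i _ _ (hc.sk m), ?_, ?_, fun u => hc.cls u, ?_⟩
  · intro p p' h
    have h1 : (if p.1 ∈ W then i' else i'.succAbove (c.col p.1)) =
        (if p'.1 ∈ W then i' else i'.succAbove (c.col p'.1)) := congrArg Prod.fst h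
    have h2 : c.rw p.1 p.2 = c.rw p'.1 p'.2 := congrArg Prod.snd h
    have h3 : c.col p.1 = c.col p'.1 := by
      by_cases a : p.1 ∈ W <;> by_cases b : p'.1 ∈ W
      · rw [hW _ a, hW _ b]
      · rw [if_pos a, if_neg b] at h1
        exact absurd h1.symm (Fin.succAbove_ne _ _)
      · rw [if_neg a, if_pos b] at h1
        exact absurd h1 (Fin.succAbove_ne _ _)
      · rw [if_neg a, if_neg b] at h1
        exact Fin.succAbove_right_injective h1
    apply hc.inj
    unfold cell
    rw [h2, h3]
  · intro u hu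
    have hu0 : ¬ c.unit u := hu
    have e := hc.sep u hu0
    refine ⟨e.1, ?_⟩
    show (insSk i' i (c.mo u false ∈ c.sepM W) (c.f (c.mo u false))).sep
      (if u ∈ W then i' else i'.succAbove (c.col u)) = swap (c.role u false) (c.role u true)
    by_cases a : u ∈ W
    · have hm : c.mo u false ∈ c.sepM W := (mem_sepM_l2f c W _).2 ⟨u, a, hu0, rfl⟩
      rw [if_pos a]
      simp only [insSk, hm, if_true, Fin.insertNth_apply_same]
      rw [← hW u a, e.2]
    · rw [if_neg a]
      by_cases hm : c.mo u false ∈ c.sepM W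
      · obtain ⟨v, hv, hv1, hv2⟩ := (mem_sepM_l2f c W _).1 hm
        have hne : c.col u ≠ i := by
          intro h
          have := sep_unique hc hv1 hu0 ((hW v hv).trans h.symm) hv2
          exact a (this ▸ hv)
        simp only [insSk, hm, if_true, Fin.insertNth_apply_succAbove]
        rw [Function.update_of_ne hne, e.2]
      · simp only [insSk, hm, if_false, Fin.insertNth_apply_succAbove]
        exact e.2
  · intro m z hz
    have hz' : (insSk i' i (m ∈ c.sepM W) (c.f m)).sep z ≠ 1 := hz
    show ∃ u, ¬ c.unit u ∧ (if u ∈ W then i' else i'.succAbove (c.col u)) = z ∧ c.mo u false = m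
    rcases Fin.eq_self_or_eq_succAbove i' z with rfl | ⟨z0, rfl⟩
    · by_cases hm : m ∈ c.sepM W
      · obtain ⟨v, hv, hv1, hv2⟩ := (mem_sepM_l2f c W _).1 hm
        exact ⟨v, hv1, if_pos hv, hv2⟩
      · simp [insSk, hm] at hz'
    · by_cases hm : m ∈ c.sepM W
      · simp only [insSk, hm, if_true, Fin.insertNth_apply_succAbove] at hz'
        have hne : z0 ≠ i := by
          rintro rfl
          simp at hz'
        rw [Function.update_of_ne hne] at hz'
        obtain ⟨u, h1, h2, h3⟩ := hc.surj m z0 hz'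
        have a : u ∉ W := fun a => hne (h2.symm.trans (hW u a))
        exact ⟨u, h1, by rw [if_neg a, h2], h3⟩
      · simp only [insSk, hm, if_false, Fin.insertNth_apply_succAbove] at hz'
        obtain ⟨u, h1, h2, h3⟩ := hc.surj m z0 hz'
        have a : u ∉ W := fun a => hm ((mem_sepM_l2f c W _).2 ⟨u, a, h1, h3⟩)
        exact ⟨u, h1, by rw [if_neg a, h2], h3⟩

theorem ins_evs (c : Cfg k n M U) (i' : Fin (n + 1)) (i : Fin n) (W : Finset U)
    (y : M × Fin k → Fin k) (m : M) : (c.ins i' i W y).evs m = c.evs m := rfl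

theorem ins_good (c : Cfg k n M U) (hc : c.Good) (i' : Fin (n + 1)) (i : Fin n) (W : Finset U)
    (y : M × Fin k → Fin k) : (c.ins i' i W y).Good := fun m => hc m

theorem ins_empty_x (c : Cfg k n M U) (i' : Fin (n + 1)) (i : Fin n) (y : M × Fin k → Fin k) :
    (c.ins i' i ∅ y).x = insArr i' c.x y := by
  show act (cprod ∅ _) (insArr i' c.x y) = _
  rw [cprod_empty, act_one]

omit [Fintype M] in
theorem ins_aU_l2f (c : Cfg k n M U) (i' : Fin (n + 1)) (i : Fin n) (W : Finset U)
    (y : M × Fin k → Fin k) :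
    (c.ins i' i W y).aU = cprod (univ.filter c.unit) (fun u =>
      1 - og (sw (if u ∈ W then i' else i'.succAbove (c.col u)) (c.rw u false) (c.rw u true))) :=
  rfl

omit [Fintype M] [Fintype U] in
theorem commute_l2f (c : Cfg k n M U) (hc : c.Valid) (i' : Fin (n + 1)) (i : Fin n)
    (W : Finset U) (a b : U) (hab : a ≠ b) (ha : c.col a = i) :
    Commute (og (sw (i'.succAbove i) (c.rw a false) (c.rw a true)))
      (1 - og (sw (if b ∈ W then i' else i'.succAbove (c.col b)) (c.rw b false) (c.rw b true))) := by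
  refine (Commute.one_right _).sub_right (commute_og (sw_commute' hc _ _ a b hab ?_))
  intro h
  by_cases hb : b ∈ W
  · rw [if_pos hb] at h
    exact absurd h (Fin.succAbove_ne _ _)
  · rw [if_neg hb] at h
    exact ha.trans (Fin.succAbove_right_injective h)

theorem insA_aU (c : Cfg k n M U) (hc : c.Valid) (i' : Fin (n + 1)) (i : Fin n)
    (y : M × Fin k → Fin k) :
    insA i' i c.aU = ∑ W ∈ (univ.filter (fun u => c.unit u ∧ c.col u = i)).powerset,
      (c.ins i' i W y).aU *
        og (cprod W (fun u => sw (i'.succAbove i) (c.rw u false) (c.rw u true))) := by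
  let F : U → GA (n + 1) (M × Fin k) := fun u =>
    1 - og (sw (i'.succAbove (c.col u)) (c.rw u false) (c.rw u true))
  let G : U → GA (n + 1) (M × Fin k) := fun u =>
    if c.col u = i then (1 - og (sw i' (c.rw u false) (c.rw u true))) *
      og (sw (i'.succAbove i) (c.rw u false) (c.rw u true)) else 0
  have h1 : insA i' i c.aU = cprod (univ.filter c.unit) (fun u => F u + G u) := by
    unfold aU
    rw [map_cprod]
    refine cprod_congr _ _ _ fun u _ => ?_
    rw [map_sub, map_one, insA_og]
    by_cases h : c.col u = i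
    · simp only [F, G, if_pos h]
      rw [h, insG_sw_eq, og_mul]
      noncomm_ring
    · simp only [F, G, if_neg h]
      rw [insG_sw_ne _ _ _ h, add_zero]
  have hsub : (univ.filter (fun u => c.unit u ∧ c.col u = i)) ⊆ univ.filter c.unit := by
    intro u hu
    exact mem_filter.2 ⟨mem_univ _, (mem_filter.1 hu).2.1⟩
  rw [h1, cprod_add]
  symm
  refine Finset.sum_subset_zero_on_sdiff (powerset_mono.2 hsub) ?_ ?_
  · intro W hW
    obtain ⟨hW1, hW2⟩ := mem_sdiff.1 hW
    rw [mem_powerset] at hW1 hW2
    obtain ⟨u, hu1, hu2⟩ := Finset.not_subset.1 hW2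
    have hu3 : c.col u ≠ i := fun h =>
      hu2 (mem_filter.2 ⟨mem_univ _, (mem_filter.1 (hW1 hu1)).2, h⟩)
    refine cprod_eq_zero _ _ u (hW1 hu1) ?_
    simp only [G, if_pos hu1, if_neg hu3]
  · intro W hW
    rw [mem_powerset] at hW
    have hWc : ∀ u ∈ W, c.col u = i := fun u hu => (mem_filter.1 (hW hu)).2.2
    let B : U → GA (n + 1) (M × Fin k) := fun u =>
      if u ∈ W then og (sw (i'.succAbove i) (c.rw u false) (c.rw u true)) else 1
    have h2 : og (cprod W (fun u => sw (i'.succAbove i) (c.rw u false) (c.rw u true))) =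
        cprod (univ.filter c.unit) B := by
      rw [og_cprod, ← cprod_subset W _ B (hW.trans hsub)]
      · exact cprod_congr _ _ _ fun u hu => by simp only [B, if_pos hu]
      · intro a _ b _ hab
        by_cases ha : a ∈ W
        · by_cases hb : b ∈ W
          · simp only [B, if_pos ha, if_pos hb]
            exact commute_og (sw_commute' hc _ _ a b hab
              fun _ => (hWc a ha).trans (hWc b hb).symm)
          · simp only [B, if_neg hb]
            exact Commute.one_right _
        · simp only [B, if_neg ha]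
          exact Commute.one_left _
      · intro a _ ha
        simp only [B, if_neg ha]
    rw [h2, ins_aU_l2f, ← cprod_mul]
    · refine cprod_congr _ _ _ fun u _ => ?_
      by_cases hu : u ∈ W
      · simp only [B, G, if_pos hu, if_pos (hWc u hu)]
      · simp only [B, F, if_neg hu, mul_one]
    · intro a _ b _ hab
      by_cases ha : a ∈ W
      · simp only [B, if_pos ha]
        exact commute_l2f c hc i' i W a b hab (hWc a ha)
      · simp only [B, if_neg ha]
        exact Commute.one_left _

theorem ot_tau (c : Cfg k n M U) (hc : c.Valid) (i' : Fin (n + 1)) (i : Fin n) (s : Fin k → ℕ) :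
    ot i' i s c.tau = ∑ y, coef s (c.x i) y •
      ∑ W ∈ (univ.filter (fun u => c.col u = i)).powerset, (c.ins i' i W y).tau := by
  unfold tau
  rw [ot_app i' i s c.f hc.sk]
  refine Finset.sum_congr rfl fun y _ => ?_
  congr 1
  simp only [insA_aU c hc i' i y, Finset.mul_sum, map_sum]
  rw [← Finset.sum_product']
  symm
  refine Finset.sum_bij (fun W _ => (c.sepM W, W.filter c.unit)) ?_ ?_ ?_ ?_
  · intro W hW
    rw [mem_powerset] at hW
    rw [mem_product, mem_powerset, mem_powerset]
    constructor
    · intro m hm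
      obtain ⟨u, hu, h1, h2⟩ := (mem_sepM_l2f c W m).1 hm
      refine mem_filter.2 ⟨mem_univ _, ?_⟩
      rw [← h2, ← (mem_filter.1 (hW hu)).2, (hc.sep u h1).2]
      intro h
      exact h1 (swap_eq_one_iff.1 h)
    · intro u hu
      obtain ⟨h1, h2⟩ := mem_filter.1 hu
      exact mem_filter.2 ⟨mem_univ _, h2, (mem_filter.1 (hW h1)).2⟩
  · have key : ∀ W W' : Finset U, W ⊆ univ.filter (fun u => c.col u = i) →
        W' ⊆ univ.filter (fun u => c.col u = i) → c.sepM W = c.sepM W' →
        W.filter c.unit = W'.filter c.unit → W ⊆ W' := by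
      intro W W' hW hW' h1 h2 u hu
      by_cases h : c.unit u
      · have : u ∈ W'.filter c.unit := h2 ▸ mem_filter.2 ⟨hu, h⟩
        exact (mem_filter.1 this).1
      · have : c.mo u false ∈ c.sepM W' := h1 ▸ (mem_sepM_l2f c W _).2 ⟨u, hu, h, rfl⟩
        obtain ⟨v, hv, hv1, hv2⟩ := (mem_sepM_l2f c W' _).1 this
        have e := sep_unique hc hv1 h
          ((mem_filter.1 (hW' hv)).2.trans (mem_filter.1 (hW hu)).2.symm) hv2
        exact e ▸ hv
    intro W hW W' hW' h
    rw [mem_powerset] at hW hW'
    have h1 : c.sepM W = c.sepM W' := congrArg Prod.fst h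
    have h2 : W.filter c.unit = W'.filter c.unit := congrArg Prod.snd h
    exact Finset.Subset.antisymm (key W W' hW hW' h1 h2) (key W' W hW' hW h1.symm h2.symm)
  · rintro ⟨W₁, W₂⟩ h
    rw [mem_product, mem_powerset, mem_powerset] at h
    obtain ⟨h1, h2⟩ := h
    refine ⟨univ.filter (fun u => u ∈ W₂ ∨ (¬ c.unit u ∧ c.col u = i ∧ c.mo u false ∈ W₁)),
      ?_, ?_⟩
    · rw [mem_powerset]
      intro u hu
      refine mem_filter.2 ⟨mem_univ _, ?_⟩
      rcases (mem_filter.1 hu).2 with h | h
      · exact (mem_filter.1 (h2 h)).2.2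
      · exact h.2.1
    · refine Prod.ext ?_ ?_
      · ext m
        rw [mem_sepM_l2f]
        constructor
        · rintro ⟨u, hu, h3, h4⟩
          rcases (mem_filter.1 hu).2 with h | h
          · exact absurd (mem_filter.1 (h2 h)).2.1 h3
          · exact h4 ▸ h.2.2
        · intro hm
          obtain ⟨u, h3, h4, h5⟩ := hc.surj m i (mem_filter.1 (h1 hm)).2
          exact ⟨u, mem_filter.2 ⟨mem_univ _, Or.inr ⟨h3, h4, h5 ▸ hm⟩⟩, h3, h5⟩
      · ext u
        constructor
        · intro hu
          obtain ⟨h3, h4⟩ := mem_filter.1 hu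
          rcases (mem_filter.1 h3).2 with h | h
          · exact h
          · exact absurd h4 h.1
        · intro hu
          exact mem_filter.2 ⟨mem_filter.2 ⟨mem_univ _, Or.inl hu⟩, (mem_filter.1 (h2 hu)).2.1⟩
  · intro W hW
    rw [mem_powerset] at hW
    have hWc : ∀ u ∈ W, c.col u = i := fun u hu => (mem_filter.1 (hW hu)).2
    have e1 : (c.ins i' i W y).aU = (c.ins i' i (W.filter c.unit) y).aU := by
      rw [ins_aU_l2f, ins_aU_l2f]
      refine cprod_congr _ _ _ fun u hu => ?_
      have h := (mem_filter.1 hu).2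
      simp only [mem_filter, h, and_true]
    have e2 : sWG i' i (c.sepM W) c.f = cprod (W.filter (fun u => ¬ c.unit u))
        (fun u => sw (i'.succAbove i) (c.rw u false) (c.rw u true)) :=
      sWG_image hc i' i _ fun u hu => ⟨(mem_filter.1 hu).2, hWc u (mem_filter.1 hu).1⟩
    have hun : W.filter (fun u => ¬ c.unit u) ∪ W.filter c.unit = W := by
      rw [union_comm, filter_union_filter_not_eq]
    have e3 : cprod W (fun u => sw (i'.succAbove i) (c.rw u false) (c.rw u true)) =
        sWG i' i (c.sepM W) c.f *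
          cprod (W.filter c.unit) (fun u => sw (i'.succAbove i) (c.rw u false) (c.rw u true)) := by
      rw [e2, ← cprod_union _ _ _ (disjoint_filter_filter_not W W c.unit).symm, hun]
      rw [hun]
      intro a ha b hb hab
      exact sw_commute' hc _ _ a b hab fun _ => (hWc a ha).trans (hWc b hb).symm
    have e4 : Commute (og (sWG i' i (c.sepM W) c.f)) (c.ins i' i (W.filter c.unit) y).aU := by
      rw [e2, og_cprod, ins_aU_l2f]
      refine (commute_cprod _ _ _ fun a ha => (commute_cprod _ _ _ fun b hb => ?_).symm).symm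
      refine commute_l2f c hc i' i _ a b ?_ (hWc a (mem_filter.1 ha).1)
      rintro rfl
      exact (mem_filter.1 ha).2 (mem_filter.1 hb).2
    show app (Th (insF i' i (c.sepM W) c.f))
      (act (cprod W (fun u => sw (i'.succAbove i) (c.rw u false) (c.rw u true))) (insArr i' c.x y))
      (c.ins i' i W y).aU = _
    rw [← app_mul_og, e1, e3, og_mul, ← mul_assoc, ← e4.eq, mul_assoc]

end Cfg

end Pool.Agent.Lib.MP_595dc0_ag.Dk
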