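import Mathlib
import Pool.Agent.Lib.MP_595dc0_ag.DkL2a
import Pool.Agent.Lib.MP_595dc0_ag.DkL2f
import Pool.Agent.Lib.MP_595dc0_ag.DkL1t
import Pool.Agent.Lib.MP_595dc0_ag.DkL1q

set_option autoImplicit false

namespace Pool.Agent.Lib.MP_595dc0_ag.Dk

open Equiv Finset MvPolynomial

variable {k n : ℕ} {M U : Type} [Fintype M] [DecidableEq M] [Fintype U] [DecidableEq U]

theorem DkL2g_val_succAbove (p : Fin (n + 1)) (c : Fin n) :
    (p.succAbove c).val = if c.val < p.val then c.val else c.val + 1 := by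
  by_cases h : c.castSucc < p
  · rw [Fin.succAbove_of_castSucc_lt _ _ h, if_pos (show c.val < p.val from h), Fin.val_castSucc]
  · rw [Fin.succAbove_of_le_castSucc _ _ (not_lt.1 h), if_neg (show ¬ c.val < p.val from h),
      Fin.val_succ]

theorem DkL2g_val_predAbove (p : Fin n) (z : Fin (n + 1)) :
    (p.predAbove z).val = if p.val < z.val then z.val - 1 else z.val := by
  by_cases h : p.castSucc < z
  · rw [Fin.predAbove_of_castSucc_lt _ _ h, if_pos (show p.val < z.val from h), Fin.val_pred]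
  · rw [Fin.predAbove_of_le_castSucc _ _ (not_lt.1 h), if_neg (show ¬ p.val < z.val from h),
      Fin.coe_castPred]

theorem le_succAbove_iff (i'' : Fin n) (z : Fin (n + 1)) (c : Fin n) :
    z ≤ i''.castSucc.succAbove c ↔ i''.predAbove z ≤ c := by
  simp only [Fin.le_def, DkL2g_val_succAbove, DkL2g_val_predAbove, Fin.val_castSucc]
  split_ifs <;> omega

theorem lex_comp_predAbove {α : Type} [LinearOrder α] (i'' : Fin n) (P P' : Fin n → α)
    (h : toLex P < toLex P') :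
    toLex (fun z => P (i''.predAbove z)) < toLex (fun z => P' (i''.predAbove z)) := by
  obtain ⟨i, hi, hlt⟩ := h
  have key : ∀ j : Fin (n + 1), j < i''.succ.succAbove i → i''.predAbove j < i := by
    intro j
    simp only [Fin.lt_def, DkL2g_val_succAbove, DkL2g_val_predAbove, Fin.val_succ]
    split_ifs <;> omega
  have key2 : i''.predAbove (i''.succ.succAbove i) = i := by
    simp only [Fin.ext_iff, DkL2g_val_succAbove, DkL2g_val_predAbove, Fin.val_succ]
    split_ifs <;> omega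
  refine ⟨i''.succ.succAbove i, fun j hj => hi _ (key j hj), ?_⟩
  show P (i''.predAbove (i''.succ.succAbove i)) < P' (i''.predAbove (i''.succ.succAbove i))
  rw [key2]
  exact hlt

namespace Cfg

theorem ins_tt (c : Cfg k n M U) (hc : c.Valid) (i' : Fin (n + 1)) (i : Fin n) (W : Finset U)
    (hW : ∀ u ∈ W, c.col u = i) (y : M × Fin k → Fin k) :
    (c.ins i' i W y).tt = c.tt + Fintype.card M * k := by
  have h1 := tt_eq (c.ins i' i W y) (ins_valid c hc i' i W hW y)
  have h2 := tt_eq c hc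
  rw [add_mul n 1, one_mul] at h1
  omega

theorem ins_pw (c : Cfg k n M U) (hc : c.Valid) (i'' i : Fin n) (y : M × Fin k → Fin k) :
    (c.ins i''.castSucc i ∅ y).pw = insPW k i'' c.pw := by
  unfold pw insPW
  refine Prod.ext rfl (Prod.ext ?_ ?_)
  · exact ins_tt c hc _ i ∅ (by simp) y
  · funext z
    show (c.ins i''.castSucc i ∅ y).PP z = c.PP (i''.predAbove z)
    unfold PP hz
    refine Finset.sum_congr rfl (fun m _ => ?_)
    rw [ins_evs]
    congr 2
    refine Finset.filter_congr (fun p _ => ?_)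
    have : (c.ins i''.castSucc i ∅ y).col p.1 = i''.castSucc.succAbove (c.col p.1) := by
      simp [ins]
    rw [this, le_succAbove_iff]

theorem ins_PP_lt (c : Cfg k n M U) (i'' i : Fin n) (hi : i'' ≤ i) (W : Finset U)
    (hW : ∀ u ∈ W, c.col u = i) (hne : W.Nonempty) (y : M × Fin k → Fin k) :
    toLex (c.ins i''.castSucc i W y).PP < toLex (fun z => c.PP (i''.predAbove z)) := by
  have hcol : ∀ u, (c.ins i''.castSucc i W y).col u =
      if u ∈ W then i''.castSucc else i''.castSucc.succAbove (c.col u) := fun u => rfl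
  have hsub : ∀ (m : M) (z : Fin (n + 1)),
      ((c.ins i''.castSucc i W y).evs m).filter
          (fun p => z ≤ (c.ins i''.castSucc i W y).col p.1) ⊆
        (c.evs m).filter (fun p => i''.predAbove z ≤ c.col p.1) := by
    intro m z p hp
    rw [ins_evs, Finset.mem_filter, hcol] at hp
    refine Finset.mem_filter.2 ⟨hp.1, ?_⟩
    by_cases hu : p.1 ∈ W
    · have h2 := hp.2
      rw [if_pos hu] at h2
      rw [hW _ hu, ← le_succAbove_iff]
      refine h2.trans ?_
      rw [Fin.succAbove_of_le_castSucc _ _ (Fin.castSucc_le_castSucc_iff.2 hi)]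
      exact (Fin.castSucc_le_castSucc_iff.2 hi).trans (Fin.castSucc_lt_succ).le
    · have h2 := hp.2
      rw [if_neg hu] at h2
      exact (le_succAbove_iff _ _ _).1 h2
  have hle : ∀ (m : M) (z : Fin (n + 1)),
      (c.ins i''.castSucc i W y).hz m z ≤ c.hz m (i''.predAbove z) :=
    fun m z => Finset.card_le_card (hsub m z)
  apply Pi.toLex_strictMono
  rw [Pi.lt_def]
  refine ⟨fun z => ?_, i''.castSucc.succAbove i, ?_⟩
  · exact Finset.sum_le_sum (fun m _ => Nat.pow_le_pow_left (hle m z) 2)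
  · obtain ⟨u, hu⟩ := hne
    refine Finset.sum_lt_sum (fun m _ => Nat.pow_le_pow_left (hle m _) 2)
      ⟨c.mo u false, Finset.mem_univ _, Nat.pow_lt_pow_left ?_ (by norm_num)⟩
    refine Finset.card_lt_card ⟨hsub _ _, fun hcon => ?_⟩
    have hmem : (u, false) ∈ (c.evs (c.mo u false)).filter
        (fun p => i''.predAbove (i''.castSucc.succAbove i) ≤ c.col p.1) := by
      refine Finset.mem_filter.2 ⟨?_, ?_⟩
      · exact Finset.mem_filter.2 ⟨Finset.mem_univ _, Or.inl rfl, rfl⟩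
      · rw [Fin.predAbove_succAbove]
        exact (hW u hu).ge
    have h3 := (Finset.mem_filter.1 (hcon hmem)).2
    rw [hcol, if_pos hu, Fin.succAbove_of_le_castSucc _ _ (Fin.castSucc_le_castSucc_iff.2 hi)] at h3
    simp only [Fin.le_def, Fin.val_succ, Fin.val_castSucc] at h3 hi
    omega

theorem ins_pierced (c : Cfg k n M U) (i' : Fin (n + 1)) (i : Fin n) (y : M × Fin k → Fin k)
    (p : PT k n) (h : c.Pierced p) : (c.ins i' i ∅ y).Pierced (fun t => i'.succAbove (p t)) := by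
  have hcol : ∀ u, (c.ins i' i ∅ y).col u = i'.succAbove (c.col u) := fun u => by simp [ins]
  intro m e he e' he' hne hle
  rw [ins_evs] at he he'
  rw [hcol, hcol, Fin.succAbove_le_succAbove_iff] at hle
  obtain ⟨s, h1, h2⟩ := h m e he e' he' hne hle
  refine ⟨s, ?_, ?_⟩
  · rw [hcol]
    exact Fin.succAbove_le_succAbove_iff.2 h1
  · rw [hcol]
    exact Fin.succAbove_le_succAbove_iff.2 h2

theorem ins_gam_lt (c : Cfg k n M U) (i'' i : Fin n) (y : M × Fin k → Fin k) (p : PT k n)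
    (h : c.gam < ((toLex p : Lex (PT k n)) : WithBot (Lex (PT k n)))) :
    (c.ins i''.castSucc i ∅ y).gam <
      ((toLex (fun t => i''.castSucc.succAbove (p t)) : Lex (PT k (n + 1))) :
        WithBot (Lex (PT k (n + 1)))) := by
  have hcol : ∀ u, (c.ins i''.castSucc i ∅ y).col u = i''.castSucc.succAbove (c.col u) :=
    fun u => by simp [ins]
  rw [gam_lt_iff] at h ⊢
  intro p' hp'
  have hq : c.Pierced (fun t => i''.predAbove (p' t)) := by
    intro m e he e' he' hne hle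
    obtain ⟨s, h1, h2⟩ := hp' m e (by rw [ins_evs]; exact he) e' (by rw [ins_evs]; exact he') hne
      (by rw [hcol, hcol]; exact Fin.succAbove_le_succAbove_iff.2 hle)
    rw [hcol] at h1 h2
    refine ⟨s, ?_, (le_succAbove_iff _ _ _).1 h2⟩
    have h3 := Fin.predAbove_right_monotone i'' h1
    rwa [Fin.predAbove_succAbove] at h3
  obtain ⟨t, ht, hlt⟩ := h _ hq
  have h4 : toLex p' ≤ toLex (fun t => i''.castSucc.succAbove (i''.predAbove (p' t))) :=
    Pi.toLex_monotone (fun t => (le_succAbove_iff _ _ _).2 le_rfl)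
  refine lt_of_le_of_lt h4 ⟨t, fun j hj => ?_, ?_⟩
  · exact congrArg i''.castSucc.succAbove (ht j hj)
  · exact Fin.succAbove_lt_succAbove_iff.2 hlt

end Cfg

theorem mkW_lt_iff (a a' : PW n) (g g' : WithBot (Lex (PT k n))) :
    mkW a g < mkW a' g' ↔ a.1 < a'.1 ∨ (a.1 = a'.1 ∧ (a.2.1 < a'.2.1 ∨ (a.2.1 = a'.2.1 ∧
      (toLex a.2.2 < toLex a'.2.2 ∨ (a.2.2 = a'.2.2 ∧ g < g'))))) := by
  unfold mkW
  simp only [Prod.Lex.toLex_lt_toLex, toLex_inj]

theorem mkW_surj (ω : Wt k n) : ∃ a g, ω = mkW a g := by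
  exact ⟨((ofLex ω).1, (ofLex (ofLex ω).2).1, ofLex (ofLex (ofLex (ofLex ω).2).2).1),
    (ofLex (ofLex (ofLex ω).2).2).2, rfl⟩

theorem mkW_inj {a a' : PW n} {g g' : WithBot (Lex (PT k n))} (h : mkW a g = mkW a' g') :
    a = a' ∧ g = g' := by
  unfold mkW at h
  simp only [toLex_inj, Prod.mk.injEq] at h
  obtain ⟨h1, h2, h3, h4⟩ := h
  exact ⟨Prod.ext h1 (Prod.ext h2 h3), h4⟩

theorem mkW_add_lt (b a a' : PW n) (g g' g'' : WithBot (Lex (PT k n))) (h : mkW a g < mkW a' g')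
    (hg : g'' ≤ g) : mkW (b + a) g'' < mkW (b + a') g' := by
  rw [mkW_lt_iff] at h ⊢
  simp only [Prod.fst_add, Prod.snd_add]
  rcases h with h | ⟨h1, h | ⟨h2, h | ⟨h3, h⟩⟩⟩
  · exact Or.inl (by omega)
  · exact Or.inr ⟨by omega, Or.inl (by omega)⟩
  · refine Or.inr ⟨by omega, Or.inr ⟨by omega, Or.inl ?_⟩⟩
    obtain ⟨t, ht, hlt⟩ := h
    refine ⟨t, fun j hj => ?_, ?_⟩
    · show b.2.2 j + a.2.2 j = b.2.2 j + a'.2.2 j
      exact congrArg (fun v => b.2.2 j + v) (ht j hj)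
    · show b.2.2 t + a.2.2 t < b.2.2 t + a'.2.2 t
      exact Nat.add_lt_add_left hlt _
  · exact Or.inr ⟨by omega, Or.inr ⟨by omega, Or.inr ⟨by rw [h3], lt_of_le_of_lt hg h⟩⟩⟩

theorem tau_mul_Tgt (b : Cfg k n M U) (hb : b.Valid) (hg : b.Good) (D : ℕ) (a : PW n)
    (p : PT k n) (h : FF k n) (hh : h ∈ Tgt D a p) : b.tau * h ∈ Tgt D (b.pw + a) p := by
  unfold Tgt at hh ⊢
  obtain ⟨x, hx, v, hv, rfl⟩ := Submodule.mem_sup.1 hh
  rw [mul_add]
  refine Submodule.add_mem_sup (Ideal.mul_mem_left (Nt k n D) _ hx) ?_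
  unfold GLt at hv ⊢
  clear hh
  induction hv using Submodule.span_induction with
  | mem w hw =>
    obtain ⟨M', U', i1, i2, i3, i4, c, hc, hcg, hQ, rfl⟩ := hw
    refine Submodule.subset_span ⟨M ⊕ M', U ⊕ U', inferInstance, inferInstance, inferInstance,
      inferInstance, b.sum c, Cfg.sum_valid b c hb hc, Cfg.sum_good b c hg hcg, ?_,
      (Cfg.sum_tau b c hb hc).symm⟩
    rw [Cfg.sum_pw]
    exact mkW_add_lt _ _ _ _ _ _ hQ (Cfg.sum_gam_le b c)
  | zero => rw [mul_zero]; exact Submodule.zero_mem _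
  | add w w' _ _ h1 h2 => rw [mul_add]; exact Submodule.add_mem _ h1 h2
  | smul t w _ h1 => rw [mul_smul_comm]; exact Submodule.smul_mem _ _ h1

theorem TSP_mul_Tgt (b : PW n) (D : ℕ) (a : PW n) (p : PT k n) (φ : FF k n)
    (hφ : φ ∈ Submodule.span ℂ (TSP b p)) (h : FF k n) (hh : h ∈ Tgt D a p) :
    φ * h ∈ Tgt D (b + a) p := by
  induction hφ using Submodule.span_induction with
  | mem w hw =>
    obtain ⟨M', U', i1, i2, i3, i4, c, hc, hcg, hpw, _, rfl⟩ := hw
    rw [← hpw]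
    exact tau_mul_Tgt c hc hcg D a p h hh
  | zero => rw [zero_mul]; exact Submodule.zero_mem _
  | add w w' _ _ h1 h2 => rw [add_mul]; exact Submodule.add_mem _ h1 h2
  | smul t w _ h1 => rw [smul_mul_assoc]; exact Submodule.smul_mem _ _ h1

theorem ot_tau_sub (c : Cfg k n M U) (hc : c.Valid) (hg : c.Good) (i'' i : Fin n) (hi : i'' ≤ i)
    (s : Fin k → ℕ) (g : WithBot (Lex (PT k (n + 1)))) :
    ot i''.castSucc i s c.tau - ∑ y, coef s (c.x i) y • (c.ins i''.castSucc i ∅ y).tau ∈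
      GLt (mkW (insPW k i'' c.pw) g) := by
  rw [Cfg.ot_tau c hc, ← Finset.sum_sub_distrib]
  refine Submodule.sum_mem _ (fun y _ => ?_)
  rw [← smul_sub]
  refine Submodule.smul_mem _ _ ?_
  rw [← Finset.add_sum_erase _ _ (Finset.empty_mem_powerset _), add_sub_cancel_left]
  refine Submodule.sum_mem _ (fun W hW => ?_)
  obtain ⟨hne, hW⟩ := Finset.mem_erase.1 hW
  have hW' : ∀ u ∈ W, c.col u = i := fun u hu =>
    (Finset.mem_filter.1 (Finset.mem_powerset.1 hW hu)).2
  refine Submodule.subset_span ⟨M, U, inferInstance, inferInstance, inferInstance, inferInstance,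
    c.ins i''.castSucc i W y, Cfg.ins_valid c hc _ i W hW' y, Cfg.ins_good c hg _ i W y, ?_, rfl⟩
  show mkW (c.ins i''.castSucc i W y).pw (c.ins i''.castSucc i W y).gam < _
  rw [mkW_lt_iff]
  refine Or.inr ⟨rfl, Or.inr ⟨Cfg.ins_tt c hc _ i W hW' y, Or.inl ?_⟩⟩
  exact Cfg.ins_PP_lt c i'' i hi W hW' (Finset.nonempty_iff_ne_empty.2 hne) y

theorem DkL2g_GLt_mono {ω ω' : Wt k n} (h : ω ≤ ω') : GLt ω ≤ GLt ω' := by
  unfold GLt
  refine Submodule.span_mono ?_
  rintro w ⟨M', U', i1, i2, i3, i4, c, hc, hcg, hQ, rfl⟩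
  exact ⟨M', U', i1, i2, i3, i4, c, hc, hcg, lt_of_lt_of_le hQ h, rfl⟩

theorem DkL2g_ins_lt (i'' : Fin n) (b a : PW n) (g g' : WithBot (Lex (PT k n)))
    (e e' : WithBot (Lex (PT k (n + 1)))) (h : mkW b g < mkW a g') (he : g < g' → e < e') :
    mkW (insPW k i'' b) e < mkW (insPW k i'' a) e' := by
  rw [mkW_lt_iff] at h ⊢
  unfold insPW
  rcases h with h | ⟨h1, h | ⟨h2, h | ⟨h3, h⟩⟩⟩
  · exact Or.inl h
  · refine Or.inr ⟨h1, Or.inl ?_⟩
    show b.2.1 + b.1 * k < a.2.1 + a.1 * k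
    rw [h1]
    omega
  · refine Or.inr ⟨h1, Or.inr ⟨?_, Or.inl (lex_comp_predAbove i'' _ _ h)⟩⟩
    show b.2.1 + b.1 * k = a.2.1 + a.1 * k
    rw [h1, h2]
  · refine Or.inr ⟨h1, Or.inr ⟨?_, Or.inr ⟨?_, he h⟩⟩⟩
    · show b.2.1 + b.1 * k = a.2.1 + a.1 * k
      rw [h1, h2]
    · show (fun z => b.2.2 (i''.predAbove z)) = fun z => a.2.2 (i''.predAbove z)
      rw [h3]

theorem ot_Tgt (i'' i : Fin n) (hi : i'' ≤ i) (s : Fin k → ℕ) (D : ℕ) (a : PW n) (p : PT k n)
    (h : FF k n) (hh : h ∈ Tgt D a p) :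
    ot i''.castSucc i s h ∈ Tgt D (insPW k i'' a) (fun t => i''.castSucc.succAbove (p t)) := by
  unfold Tgt at hh ⊢
  obtain ⟨x, hx, v, hv, rfl⟩ := Submodule.mem_sup.1 hh
  rw [map_add]
  refine Submodule.add_mem_sup (ot_Nt _ i s D x hx) ?_
  clear hh
  unfold GLt at hv
  induction hv using Submodule.span_induction with
  | mem w hw =>
    obtain ⟨M', U', i1, i2, i3, i4, c, hc, hcg, hQ, rfl⟩ := hw
    have h1 := ot_tau_sub c hc hcg i'' i hi s ⊥
    rw [← sub_add_cancel (ot i''.castSucc i s c.tau)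
      (∑ y, coef s (c.x i) y • (c.ins i''.castSucc i ∅ y).tau)]
    refine Submodule.add_mem _ (DkL2g_GLt_mono ?_ h1) ?_
    · exact (DkL2g_ins_lt i'' _ _ _ _ _ _ hQ (fun _ => WithBot.bot_lt_coe _)).le
    · refine Submodule.sum_mem _ (fun y _ => Submodule.smul_mem _ _ ?_)
      refine Submodule.subset_span ⟨M', U', inferInstance, inferInstance, inferInstance,
        inferInstance, c.ins i''.castSucc i ∅ y, Cfg.ins_valid c hc _ i ∅ (by simp) y,
        Cfg.ins_good c hcg _ i ∅ y, ?_, rfl⟩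
      rw [Cfg.ins_pw c hc]
      exact DkL2g_ins_lt i'' _ _ _ _ _ _ hQ (fun h => Cfg.ins_gam_lt c i'' i y p h)
  | zero => rw [map_zero]; exact Submodule.zero_mem _
  | add w w' _ _ h1 h2 => rw [map_add]; exact Submodule.add_mem _ h1 h2
  | smul t w _ h1 => rw [map_smul]; exact Submodule.smul_mem _ _ h1

theorem Low_le_Tgt (D : ℕ) (a : PW n) (p : PT k n) : Low k n a.1 a.2.1 ≤ Tgt D a p := by
  unfold Low Tgt GLt
  refine sup_le_sup (fun x hx => Rel_le_Nt D hx) (Submodule.span_mono ?_)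
  rintro w ⟨M', U', i1, i2, i3, i4, c, hc, hcg, hQ, rfl⟩
  refine ⟨M', U', i1, i2, i3, i4, c, hc, hcg, ?_, rfl⟩
  show mkW c.pw c.gam < _
  rw [mkW_lt_iff]
  exact Or.inr ⟨hQ.1, Or.inl hQ.2⟩

theorem Tgt_mono {D D' : ℕ} (h : D ≤ D') (a : PW n) (p : PT k n) : Tgt D a p ≤ Tgt D' a p := by
  unfold Tgt
  exact sup_le_sup_right (fun x hx => Nt_mono h hx) _

end Pool.Agent.Lib.MP_595dc0_ag.Dk
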