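import Mathlib
import Pool.Agent.Lib.MP_595dc0_ag.DkL2g
import Pool.Agent.Lib.MP_595dc0_ag.DkL2e
import Pool.Agent.Lib.MP_595dc0_ag.DkL2c

set_option autoImplicit false

namespace Pool.Agent.Lib.MP_595dc0_ag.Dk

open Equiv Finset MvPolynomial

variable {k n : ℕ}

/-- The span of configurations whose weight satisfies `Q`. -/
noncomputable def GQ_L2h (Q : Wt k n → Prop) : Submodule ℂ (FF k n) :=
  Submodule.span ℂ (TS k n (fun a g => Q (mkW a g)))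

theorem TS_mono_L2h {Q Q' : PW n → WithBot (Lex (PT k n)) → Prop} (h : ∀ a g, Q a g → Q' a g) :
    TS k n Q ⊆ TS k n Q' := by
  rintro _ ⟨M, U, i1, i2, i3, i4, c, h1, h2, h3, rfl⟩
  exact ⟨M, U, i1, i2, i3, i4, c, h1, h2, h _ _ h3, rfl⟩

theorem top_L2h (Q : Wt k n → Prop) (v : FF k n) (hv : v ∈ GQ_L2h Q) :
    v = 0 ∨ ∃ ω, Q ω ∧ v ∈ GQ_L2h (fun ω' => ω' ≤ ω) := by
  have hm : ∀ ω ω' : Wt k n, ω ≤ ω' → GQ_L2h (fun w => w ≤ ω) ≤ GQ_L2h (fun w => w ≤ ω') :=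
    fun ω ω' h => Submodule.span_mono (TS_mono_L2h fun _ _ h' => h'.trans h)
  induction hv using Submodule.span_induction with
  | mem x hx =>
    obtain ⟨M, U, i1, i2, i3, i4, c, h1, h2, h3, rfl⟩ := hx
    exact Or.inr ⟨_, h3, Submodule.subset_span ⟨M, U, i1, i2, i3, i4, c, h1, h2, le_rfl, rfl⟩⟩
  | zero => exact Or.inl rfl
  | add x y _ _ hx hy =>
    rcases hx with rfl | ⟨ω, h1, h2⟩
    · rwa [zero_add]
    rcases hy with rfl | ⟨ω', h1', h2'⟩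
    · exact Or.inr ⟨ω, h1, by rwa [add_zero]⟩
    rcases le_total ω ω' with h | h
    · exact Or.inr ⟨ω', h1', add_mem (hm _ _ h h2) h2'⟩
    · exact Or.inr ⟨ω, h1, add_mem h2 (hm _ _ h h2')⟩
  | smul a x _ hx =>
    rcases hx with rfl | ⟨ω, h1, h2⟩
    · exact Or.inl (smul_zero a)
    · exact Or.inr ⟨ω, h1, Submodule.smul_mem _ a h2⟩

theorem split_L2h (ω : Wt k n) :
    GQ_L2h (fun ω' => ω' ≤ ω) ≤ GQ_L2h (fun ω' => ω' = ω) ⊔ GLt ω := by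
  refine Submodule.span_le.2 ?_
  rintro _ ⟨M, U, i1, i2, i3, i4, c, h1, h2, h3, rfl⟩
  rcases h3.eq_or_lt with h | h
  · exact Submodule.mem_sup_left
      (Submodule.subset_span ⟨M, U, i1, i2, i3, i4, c, h1, h2, h, rfl⟩)
  · exact Submodule.mem_sup_right
      (Submodule.subset_span ⟨M, U, i1, i2, i3, i4, c, h1, h2, h, rfl⟩)

theorem bot_L2h (hn : 0 < n) (D : ℕ) (a : PW n) :
    GQ_L2h (fun ω' => ω' = mkW a ⊥) ≤ (Nt k n D).restrictScalars ℂ ⊔ GLt (mkW a ⊥) := by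
  refine Submodule.span_le.2 ?_
  rintro _ ⟨M, U, i1, i2, i3, i4, c, h1, h2, h3, rfl⟩
  obtain ⟨rfl, h4⟩ := mkW_inj h3
  refine (sup_le_sup (fun x hx => (le_sup_right : Rel k n ≤ Nt k n D) hx)
    (Submodule.span_mono (TS_mono_L2h fun a g h => ?_)) :
      _ ≤ (Nt k n D).restrictScalars ℂ ⊔ GLt (mkW c.pw ⊥))
    (c.unpierce hn h1 h2 (c.not_pierced_of_gam h4))
  exact (mkW_lt_iff _ _ _ _).2 (Or.inr ⟨h.1, Or.inr ⟨h.2.1, Or.inl h.2.2⟩⟩)

theorem coe_L2h (a : PW n) (p : PT k n) :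
    GQ_L2h (fun ω' => ω' = mkW a ((toLex p : Lex (PT k n)) : WithBot (Lex (PT k n)))) ≤
      Submodule.span ℂ (TSP a p) := by
  refine Submodule.span_mono ?_
  rintro _ ⟨M, U, i1, i2, i3, i4, c, h1, h2, h3, rfl⟩
  obtain ⟨h4, h5⟩ := mkW_inj h3
  exact ⟨M, U, i1, i2, i3, i4, c, h1, h2, h4, c.pierced_of_gam p h5, rfl⟩

theorem reflect2 (hn : 0 < n) (D D' : ℕ) (hD : D ≤ D')
    (H : ∀ (a : PW n) (p : PT k n), ∀ h ∈ Submodule.span ℂ (TSP a p),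
      h ∈ Tgt D' a p → h ∈ Tgt D a p) : Nt k n D' ≤ Nt k n D := by
  have step : ∀ ω : Wt k n, ∀ v ∈ Nt k n D', v ∈ GQ_L2h (fun ω' => ω' ≤ ω) →
      v ∈ (Nt k n D).restrictScalars ℂ ⊔ GLt ω := by
    intro ω v hv h
    obtain ⟨t, ht, w, hw, rfl⟩ := Submodule.mem_sup.1 (split_L2h ω h)
    refine add_mem ?_ (Submodule.mem_sup_right hw)
    obtain ⟨a, g, rfl⟩ := mkW_surj ω
    induction g using WithBot.recBotCoe with
    | bot => exact bot_L2h hn D a ht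
    | coe p =>
      refine H a (ofLex p) t (coe_L2h a (ofLex p) ht) ?_
      rw [← add_sub_cancel_right t w]
      exact sub_mem (Submodule.mem_sup_left hv) (Submodule.mem_sup_right hw)
  have red : ∀ Q : Wt k n → Prop,
      (∀ ω, Q ω → ∀ v ∈ Nt k n D', v ∈ GQ_L2h (fun ω' => ω' ≤ ω) → v ∈ Nt k n D) →
      ∀ v ∈ Nt k n D', v ∈ (Nt k n D).restrictScalars ℂ ⊔ GQ_L2h Q → v ∈ Nt k n D := by
    intro Q hQ v hv h
    obtain ⟨u, hu, w, hw, rfl⟩ := Submodule.mem_sup.1 h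
    refine add_mem hu ?_
    rcases top_L2h Q w hw with rfl | ⟨ω, h1, h2⟩
    · exact zero_mem _
    · exact hQ ω h1 w ((add_mem_cancel_left (Nt_mono hD hu)).1 hv) h2
  have key : ∀ ω : Wt k n, ∀ v ∈ Nt k n D', v ∈ GQ_L2h (fun ω' => ω' ≤ ω) → v ∈ Nt k n D := by
    intro ω
    induction ω using WellFoundedLT.induction with
    | ind ω ih => exact fun v hv h => red (fun ω' => ω' < ω) ih v hv (step ω v hv h)
  intro v hv
  refine red (fun _ => True) (fun ω _ => key ω) v hv ?_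
  exact (sup_le_sup_right (fun x hx => (le_sup_right : Rel k n ≤ Nt k n D) hx) _ :
    _ ≤ (Nt k n D).restrictScalars ℂ ⊔ GQ_L2h fun _ => True) (mem_rel_sup_good v)

end Pool.Agent.Lib.MP_595dc0_ag.Dk
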