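import Mathlib

set_option autoImplicit false

/-! A functional form of the second fundamental theorem for symmetric groups. -/

namespace Pool.Agent.Lib.MP_595dc0_ag.Dk

open Equiv Finset

namespace DkSFTAux

variable {R κ W : Type} [Fintype R] [DecidableEq R] [DecidableEq κ] [AddCommGroup W] [Module ℂ W]

omit [Module ℂ W] in
lemma decompR (p : Perm R → Prop) [DecidablePred p] (hmul : ∀ σ τ, p σ → p τ → p (σ * τ)) (a : R)
    (hsw : ∀ σ, p σ → p (swap a (σ⁻¹ a))) (f : Perm R → W) :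
    ∑ σ ∈ univ.filter p, f σ = ∑ s ∈ univ.filter (fun s => p (swap a s)),
      ∑ ρ ∈ univ.filter (fun ρ : Perm R => p ρ ∧ ρ a = a), f (ρ * swap a s) := by
  rw [← Finset.sum_product']
  symm
  refine Finset.sum_nbij' (fun x => x.2 * swap a x.1)
    (fun σ => (σ⁻¹ a, σ * swap a (σ⁻¹ a))) ?_ ?_ ?_ ?_ fun _ _ => rfl
  · rintro ⟨s, ρ⟩ h
    simp only [mem_product, mem_filter, mem_univ, true_and] at h ⊢
    exact hmul _ _ h.2.1 h.1
  · intro σ h
    simp only [mem_product, mem_filter, mem_univ, true_and] at h ⊢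
    exact ⟨hsw σ h, hmul _ _ h (hsw σ h), by simp⟩
  · rintro ⟨s, ρ⟩ h
    simp only [mem_product, mem_filter, mem_univ, true_and] at h
    have h1 : (ρ * swap a s)⁻¹ a = s := by
      rw [Perm.inv_eq_iff_eq]
      simp [h.2.2]
    simp only [h1, mul_swap_mul_self]
  · intro σ _
    simp only [mul_swap_mul_self]

omit [Module ℂ W] in
lemma decompL (p : Perm R → Prop) [DecidablePred p] (hmul : ∀ σ τ, p σ → p τ → p (σ * τ)) (a : R)
    (hsw : ∀ σ, p σ → p (swap a (σ a))) (f : Perm R → W) :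
    ∑ σ ∈ univ.filter p, f σ = ∑ s ∈ univ.filter (fun s => p (swap a s)),
      ∑ ρ ∈ univ.filter (fun ρ : Perm R => p ρ ∧ ρ a = a), f (swap a s * ρ) := by
  rw [← Finset.sum_product']
  symm
  refine Finset.sum_nbij' (fun x => swap a x.1 * x.2)
    (fun σ => (σ a, swap a (σ a) * σ)) ?_ ?_ ?_ ?_ fun _ _ => rfl
  · rintro ⟨s, ρ⟩ h
    simp only [mem_product, mem_filter, mem_univ, true_and] at h ⊢
    exact hmul _ _ h.1 h.2.1
  · intro σ h
    simp only [mem_product, mem_filter, mem_univ, true_and] at h ⊢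
    exact ⟨hsw σ h, hmul _ _ (hsw σ h) h, by simp⟩
  · rintro ⟨s, ρ⟩ h
    simp only [mem_product, mem_filter, mem_univ, true_and] at h
    have h1 : (swap a s * ρ) a = s := by simp [h.2.2]
    simp only [h1, swap_mul_self_mul]
  · intro σ _
    simp only [swap_mul_self_mul]

/-- Permutations preserving the colouring `c`. -/
def Pr {γ : Type} (c : R → γ) (σ : Perm R) : Prop := ∀ r, c (σ r) = c r

omit [Fintype R] [DecidableEq R] in
lemma Pr.mul {γ : Type} {c : R → γ} {σ τ : Perm R} (h : Pr c σ) (h' : Pr c τ) : Pr c (σ * τ) :=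
  fun r => (h _).trans (h' r)

omit [Fintype R] [DecidableEq R] in
lemma Pr.inv {γ : Type} {c : R → γ} {σ : Perm R} (h : Pr c σ) : Pr c σ⁻¹ :=
  fun r => by simpa using (h (σ⁻¹ r)).symm

omit [Fintype R] in
lemma pr_swap {γ : Type} {c : R → γ} {a b : R} : Pr c (swap a b) ↔ c b = c a := by
  refine ⟨fun h => by simpa using h a, fun h r => ?_⟩
  rw [swap_apply_def]
  split_ifs with h1 h2
  · rw [h1, h]
  · rw [h2, h]
  · rfl

/-- The stabiliser of a colouring inside the kind preserving permutations. -/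
def St (kd : R → κ) (χ : R → ℕ) : Finset (Perm R) :=
  univ.filter fun σ => (∀ r, kd (σ r) = kd r) ∧ ∀ r, χ (σ r) = χ r

/-- The permutations supported in `X`. -/
def Su (X : Finset R) : Finset (Perm R) := univ.filter fun σ => ∀ r, r ∉ X → σ r = r

lemma mem_St {kd : R → κ} {χ : R → ℕ} {σ : Perm R} : σ ∈ St kd χ ↔ Pr kd σ ∧ Pr χ σ := by
  simp [St, Pr]

lemma mem_Su {X : Finset R} {σ : Perm R} : σ ∈ Su X ↔ ∀ r, r ∉ X → σ r = r := by
  simp [Su]

omit [Fintype R] [DecidableEq R] in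
lemma su_maps {X : Finset R} {σ : Perm R} (h : ∀ r, r ∉ X → σ r = r) {r : R} (hr : r ∈ X) :
    σ r ∈ X := by
  by_contra h'
  have := σ.injective (h _ h')
  exact h' (this.symm ▸ hr)

omit [DecidableEq κ] in
lemma su_pr {kd : R → κ} {X : Finset R} (hX : ∀ a ∈ X, ∀ b ∈ X, kd a = kd b) {σ : Perm R}
    (h : σ ∈ Su X) : Pr kd σ := fun r => by
  by_cases hr : r ∈ X
  · exact hX _ (su_maps (mem_Su.1 h) hr) _ hr
  · rw [mem_Su.1 h r hr]

/-- The antisymmetriser over `X`. -/
noncomputable def Al (X : Finset R) (F : Perm R → W) (g : Perm R) : W :=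
  ∑ σ ∈ Su X, ((Perm.sign σ : ℤ) : ℂ) • F (σ * g)

/-- The symmetriser for the colouring `χ`. -/
def Sy (kd : R → κ) (χ : R → ℕ) (F : Perm R → W) (g : Perm R) : W :=
  ∑ σ ∈ St kd χ, F (σ * g)

/-- The two vanishing conditions. -/
structure Van (kd : R → κ) (K : ℕ) (F : Perm R → W) : Prop where
  al : ∀ X : Finset R, X.card = K + 1 → (∀ a ∈ X, ∀ b ∈ X, kd a = kd b) →
    ∀ g, Pr kd g → Al X F g = 0
  sy : ∀ χ : R → ℕ, (∀ r, χ r < K) → ∀ g, Pr kd g → Sy kd χ F g = 0

lemma Van.shift {kd : R → κ} {K : ℕ} {F : Perm R → W} (h : Van kd K F) {τ : Perm R}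
    (hτ : Pr kd τ) : Van kd K fun g => F (τ * g) := by
  refine ⟨fun X hX hk g hg => ?_, fun χ hχ g hg => ?_⟩
  · rw [← h.al (X.map τ.toEmbedding) (by rwa [card_map]) ?_ (τ * g) (hτ.mul hg)]
    · refine Finset.sum_equiv (MulAut.conj τ).toEquiv (fun σ => ?_) fun σ _ => ?_
      · rw [mem_Su, mem_Su]
        refine ⟨fun h1 r hr => ?_, fun h1 r hr => ?_⟩
        · have : τ⁻¹ r ∉ X := fun h2 => hr (mem_map.2 ⟨_, h2, by simp⟩)
          change τ (σ (τ⁻¹ r)) = r
          rw [h1 _ this]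
          simp
        · have := h1 (τ r) (by simpa using hr)
          simpa using this
      · simp [mul_assoc, mul_comm (Perm.sign σ), ← mul_assoc (Perm.sign τ)]
    · intro a ha b hb
      obtain ⟨a', ha', rfl⟩ := mem_map.1 ha
      obtain ⟨b', hb', rfl⟩ := mem_map.1 hb
      exact (hτ a').trans ((hk a' ha' b' hb').trans (hτ b').symm)
  · rw [← h.sy (fun r => χ (τ⁻¹ r)) (fun r => hχ _) (τ * g) (hτ.mul hg)]
    refine Finset.sum_equiv (MulAut.conj τ).toEquiv (fun σ => ?_) fun σ _ => ?_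
    · rw [mem_St, mem_St]
      refine ⟨fun h1 => ⟨(hτ.mul h1.1).mul hτ.inv, fun r => by simp [h1.2 _]⟩, fun h1 => ⟨?_, ?_⟩⟩
      · have := (hτ.inv.mul h1.1).mul hτ
        simpa [mul_assoc] using this
      · intro r
        simpa using h1.2 (τ r)
    · simp [mul_assoc]

lemma Van.sym {kd : R → κ} {K : ℕ} {F : Perm R → W} (h : Van kd K F) (χ : R → ℕ) :
    Van kd K (Sy kd χ F) := by
  refine ⟨fun X hX hk g hg => ?_, fun χ' hχ g hg => ?_⟩
  · simp only [Al, Sy, Finset.smul_sum]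
    rw [Finset.sum_comm]
    exact Finset.sum_eq_zero fun τ hτ => (h.shift (mem_St.1 hτ).1).al X hX hk g hg
  · simp only [Sy]
    rw [Finset.sum_comm]
    exact Finset.sum_eq_zero fun τ hτ => (h.shift (mem_St.1 hτ).1).sy χ' hχ g hg

omit [Module ℂ W] in
lemma sy_inv {kd : R → κ} {χ : R → ℕ} (F : Perm R → W) {ρ : Perm R} (hρ : ρ ∈ St kd χ)
    (g : Perm R) : Sy kd χ F (ρ * g) = Sy kd χ F g := by
  rw [mem_St] at hρ
  refine Finset.sum_equiv (Equiv.mulRight ρ) (fun σ => ?_) fun σ _ => by simp [mul_assoc]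
  rw [mem_St, mem_St]
  refine ⟨fun h => ⟨h.1.mul hρ.1, h.2.mul hρ.2⟩, fun h => ⟨?_, ?_⟩⟩
  · simpa using h.1.mul hρ.1.inv
  · simpa using h.2.mul hρ.2.inv

/-- The Garnir type relation. -/
lemma garnir {kd : R → κ} {χ : R → ℕ} {v : Perm R → W}
    (hv : ∀ ρ ∈ St kd χ, ∀ g, v (ρ * g) = v g) (r : R) {i : ℕ} (hi : i < χ r) (g : Perm R)
    (h0 : Sy kd (Function.update χ r i) v g = 0) :
    ∑ s ∈ univ.filter (fun s => kd s = kd r ∧ χ s = i), v (swap r s * g) = -v g := by
  classical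
  unfold Sy St at h0
  rw [decompR (fun σ : Perm R => (∀ x, kd (σ x) = kd x) ∧
    ∀ x, Function.update χ r i (σ x) = Function.update χ r i x)
    (fun σ τ h h' => ⟨Pr.mul h.1 h'.1, Pr.mul h.2 h'.2⟩) r
    (fun σ h => ⟨pr_swap.2 (Pr.inv h.1 r), pr_swap.2 (Pr.inv h.2 r)⟩)] at h0
  set Fx := univ.filter (fun ρ : Perm R => ((∀ x, kd (ρ x) = kd x) ∧
    ∀ x, Function.update χ r i (ρ x) = Function.update χ r i x) ∧ ρ r = r) with hFx
  have h1 : ∀ s, ∑ ρ ∈ Fx, v (ρ * swap r s * g) = (Fx.card : ℂ) • v (swap r s * g) := by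
    intro s
    rw [Nat.cast_smul_eq_nsmul, ← Finset.sum_const]
    refine Finset.sum_congr rfl fun ρ hρ => ?_
    rw [mul_assoc]
    refine hv ρ ?_ _
    simp only [hFx, mem_filter, mem_univ, true_and] at hρ
    refine mem_St.2 ⟨hρ.1.1, fun x => ?_⟩
    by_cases hx : x = r
    · rw [hx, hρ.2]
    · have h2 : ρ x ≠ r := fun h => hx (ρ.injective (h.trans hρ.2.symm))
      simpa [Function.update_of_ne hx, Function.update_of_ne h2] using hρ.1.2 x
  simp only [h1, ← Finset.smul_sum] at h0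
  have hc : (Fx.card : ℂ) ≠ 0 := by
    exact_mod_cast (card_pos.2 ⟨1, by simp [hFx]⟩).ne'
  have h3 := (smul_eq_zero.1 h0).resolve_left hc
  have h4 : univ.filter (fun s => (∀ x, kd (swap r s x) = kd x) ∧
      ∀ x, Function.update χ r i (swap r s x) = Function.update χ r i x) =
      insert r (univ.filter fun s => kd s = kd r ∧ χ s = i) := by
    ext s
    simp only [mem_filter, mem_univ, true_and, mem_insert]
    refine (and_congr pr_swap pr_swap).trans ?_
    by_cases hs : s = r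
    · simp [hs]
    · simp [hs]
  rw [h4, sum_insert (by simp [hi.ne'])] at h3
  rw [swap_self] at h3
  exact eq_neg_of_add_eq_zero_right h3

omit [DecidableEq κ] in
lemma al_insert (Y : Finset R) {a : R} (ha : a ∉ Y) (v : Perm R → W) (g : Perm R) :
    Al (insert a Y) v g = Al Y v g -
      ∑ s ∈ Y, ∑ ρ ∈ Su Y, ((Perm.sign ρ : ℤ) : ℂ) • v (swap s a * (ρ * g)) := by
  unfold Al Su
  have hsw : ∀ s, (∀ r, r ∉ insert a Y → swap a s r = r) ↔ s ∈ insert a Y := fun s => by
    refine ⟨fun h => ?_, fun h r hr => ?_⟩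
    · simpa using su_maps h (mem_insert_self a Y)
    · exact swap_apply_of_ne_of_ne (fun e => hr (e ▸ mem_insert_self a Y)) fun e => hr (e ▸ h)
  rw [decompL (fun σ : Perm R => ∀ r, r ∉ insert a Y → σ r = r)
    (fun σ τ h h' r hr => by rw [Perm.mul_apply, h' r hr, h r hr]) a
    (fun σ h => (hsw _).2 (su_maps h (mem_insert_self a Y)))]
  have h1 : univ.filter (fun s => ∀ r, r ∉ insert a Y → swap a s r = r) = insert a Y := by
    ext s
    simp only [mem_filter, mem_univ, true_and, hsw]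
  have h2 : univ.filter (fun ρ : Perm R => (∀ r, r ∉ insert a Y → ρ r = r) ∧ ρ a = a) =
      univ.filter fun ρ : Perm R => ∀ r, r ∉ Y → ρ r = r := by
    ext ρ
    simp only [mem_filter, mem_univ, true_and, mem_insert, not_or]
    refine ⟨fun h r hr => ?_, fun h => ⟨fun r hr => h r hr.2, h a ha⟩⟩
    by_cases e : r = a
    · rw [e, h.2]
    · exact h.1 r ⟨e, hr⟩
  rw [h1, h2, sum_insert ha, sub_eq_add_neg, ← Finset.sum_neg_distrib]
  congr 1
  · simp [swap_self, ← Perm.one_def]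
  · refine Finset.sum_congr rfl fun s hs => ?_
    rw [← Finset.sum_neg_distrib]
    refine Finset.sum_congr rfl fun ρ _ => ?_
    have : a ≠ s := fun e => ha (e ▸ hs)
    simp [Perm.sign_swap this, swap_comm s a, mul_assoc]

lemma core {kd : R → κ} {K : ℕ} (n : ℕ) : ∀ χ : R → ℕ, ∑ r, χ r = n → ∀ F : Perm R → W,
    Van kd K F → ∀ g, Pr kd g → Sy kd χ F g = 0 := by
  induction n using Nat.strong_induction_on with
  | _ n ih =>
  intro χ hn F hF
  by_cases hK : ∀ r, χ r < K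
  · exact hF.sy χ hK
  obtain ⟨r, hr⟩ := not_forall.1 hK
  have hv := hF.sym χ
  have hG : ∀ (s : R) (i : ℕ), i < χ s → ∀ g, Pr kd g →
      ∑ a ∈ univ.filter (fun a => kd a = kd s ∧ χ a = i), Sy kd χ F (swap s a * g) =
        -Sy kd χ F g := fun s i hi g hg => by
    refine garnir (fun ρ hρ g => sy_inv F hρ g) s hi g (ih _ ?_ _ rfl _ hv g hg)
    rw [← hn]
    refine Finset.sum_lt_sum (fun x _ => ?_) ⟨s, mem_univ s, by simpa using hi⟩
    by_cases hx : x = s
    · simpa [hx] using hi.le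
    · simp [hx]
  have hD : ∀ j, j ≤ K → ∀ Y : Finset R, Y.card + j = K + 1 → (∀ a ∈ Y, kd a = kd r) →
      (∀ a ∈ Y, j ≤ χ a) → ∀ g, Pr kd g → Al Y (Sy kd χ F) g = 0 := by
    intro j
    induction j with
    | zero =>
      intro _ Y hY hk _
      exact hv.al Y hY fun a ha b hb => (hk a ha).trans (hk b hb).symm
    | succ j ihj =>
      intro hj Y hY hk hc g hg
      set B := univ.filter (fun a => kd a = kd r ∧ χ a = j) with hB
      have h1 : ∀ a ∈ B, Al Y (Sy kd χ F) g = ∑ s ∈ Y, ∑ ρ ∈ Su Y,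
          ((Perm.sign ρ : ℤ) : ℂ) • Sy kd χ F (swap s a * (ρ * g)) := fun a ha => by
        simp only [hB, mem_filter, mem_univ, true_and] at ha
        have haY : a ∉ Y := fun h => by have := hc a h; omega
        rw [← sub_eq_zero, ← al_insert Y haY]
        refine ihj (by omega) _ (by rw [card_insert_of_notMem haY]; omega) ?_ ?_ g hg
        · intro b hb
          rcases mem_insert.1 hb with rfl | hb
          · exact ha.1
          · exact hk b hb
        · intro b hb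
          rcases mem_insert.1 hb with rfl | hb
          · exact ha.2.ge
          · exact (Nat.le_succ j).trans (hc b hb)
      have h2 := Finset.sum_congr rfl h1
      rw [Finset.sum_comm] at h2
      have h3 : ∀ s ∈ Y, ∑ a ∈ B, ∑ ρ ∈ Su Y,
          ((Perm.sign ρ : ℤ) : ℂ) • Sy kd χ F (swap s a * (ρ * g)) = -Al Y (Sy kd χ F) g :=
        fun s hs => by
        rw [Finset.sum_comm, Al, ← Finset.sum_neg_distrib]
        refine Finset.sum_congr rfl fun ρ hρ => ?_
        rw [← Finset.smul_sum, hB, ← hk s hs, hG s j (hc s hs) _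
          ((su_pr (fun a ha b hb => (hk a ha).trans (hk b hb).symm) hρ).mul hg), smul_neg]
      rw [Finset.sum_congr rfl h3, Finset.sum_const, Finset.sum_const, smul_neg,
        eq_neg_iff_add_eq_zero, ← add_nsmul, ← Nat.cast_smul_eq_nsmul ℂ] at h2
      refine (smul_eq_zero.1 h2).resolve_left ?_
      exact_mod_cast (show B.card + Y.card ≠ 0 by omega)
  intro g hg
  have h5 := hD K le_rfl {r} (by simp [add_comm]) (by simp) (by simpa using hr) g hg
  have h6 : Su ({r} : Finset R) = {1} := by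
    ext σ
    rw [mem_Su, mem_singleton]
    refine ⟨fun h => Equiv.ext fun x => ?_, fun h x _ => by simp [h]⟩
    by_cases hx : x ∈ ({r} : Finset R)
    · exact (mem_singleton.1 (su_maps h hx)).trans (mem_singleton.1 hx).symm
    · exact h x hx
  simpa [Al, h6] using h5

omit [DecidableEq κ] in
lemma al_eq {K : ℕ} (X : Finset R) (hX : X.card = K + 1) :
    ∃ e : Fin (K + 1) ↪ R, (∀ i, e i ∈ X) ∧ ∀ (F : Perm R → W) (g : Perm R),
      Al X F g = ∑ σ : Perm (Fin (K + 1)),
        ((Perm.sign σ : ℤ) : ℂ) • F (σ.viaEmbedding e * g) := by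
  let q := Finset.equivFinOfCardEq hX
  let e : Fin (K + 1) ↪ R := ⟨fun i => (q.symm i : R), fun i j h => q.symm.injective (Subtype.ext h)⟩
  have he : ∀ i, e i ∈ X := fun i => (q.symm i).2
  have he' : ∀ r (hr : r ∈ X), e (q ⟨r, hr⟩) = r := fun r hr =>
    congrArg Subtype.val (q.symm_apply_apply ⟨r, hr⟩)
  refine ⟨e, he, fun F g => ?_⟩
  symm
  refine Finset.sum_bij (fun σ _ => σ.viaEmbedding e) (fun σ _ => ?_) (fun σ _ τ _ h => ?_)
    (fun τ hτ => ?_) fun σ _ => ?_
  · refine mem_Su.2 fun r hr => Perm.viaEmbedding_apply_of_notMem σ e r ?_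
    rintro ⟨i, rfl⟩
    exact hr (he i)
  · exact Perm.viaEmbeddingHom_injective e h
  · rw [mem_Su] at hτ
    have h1 : ∀ x, τ x ∈ X ↔ x ∈ X := fun x =>
      ⟨fun h => by_contra fun h' => h' (hτ x h' ▸ h), su_maps hτ⟩
    refine ⟨q.permCongr (τ.subtypePerm h1), mem_univ _, Equiv.ext fun r => ?_⟩
    by_cases hr : r ∈ X
    · conv_lhs => rw [← he' r hr, Perm.viaEmbedding_apply]
      rw [Equiv.permCongr_apply, Equiv.symm_apply_apply]
      exact he' _ _
    · rw [hτ r hr]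
      refine Perm.viaEmbedding_apply_of_notMem _ e r ?_
      rintro ⟨i, rfl⟩
      exact hr (he i)
  · congr 3
    unfold Perm.viaEmbedding
    exact (@Perm.sign_extendDomain _ _ _ _ _ _ σ _ (Classical.decPred _) _).symm

end DkSFTAux

open DkSFTAux in
theorem sft {R κ W : Type} [Fintype R] [DecidableEq R] [DecidableEq κ] [AddCommGroup W]
    [Module ℂ W] (kd : R → κ) (K : ℕ) (S : Submodule ℂ W) (Φ : Perm R → W)
    (h1 : ∀ e : Fin (K + 1) ↪ R, (∀ i j, kd (e i) = kd (e j)) →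
      ∀ g : Perm R, (∀ r, kd (g r) = kd r) →
        ∑ σ : Perm (Fin (K + 1)), ((Perm.sign σ : ℤ) : ℂ) • Φ (σ.viaEmbedding e * g) ∈ S)
    (h2 : ∀ χ : R → Fin K, ∀ g : Perm R, (∀ r, kd (g r) = kd r) →
      ∑ σ ∈ univ.filter (fun σ : Perm R => (∀ r, kd (σ r) = kd r) ∧ ∀ r, χ (σ r) = χ r),
        Φ (σ * g) ∈ S) :
    Φ 1 ∈ S := by
  have hV : Van kd K fun g => S.mkQ (Φ g) := by
    refine ⟨fun X hX hk g hg => ?_, fun χ hχ g hg => ?_⟩
    · obtain ⟨e, he, h⟩ := al_eq (W := W ⧸ S) X hX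
      have := (Submodule.Quotient.mk_eq_zero S).2
        (h1 e (fun i j => hk _ (he i) _ (he j)) g hg)
      rw [← Submodule.mkQ_apply, map_sum] at this
      rw [h, ← this]
      exact Finset.sum_congr rfl fun σ _ => (map_smul _ _ _).symm
    · have := (Submodule.Quotient.mk_eq_zero S).2 (h2 (fun r => ⟨χ r, hχ r⟩) g hg)
      rw [← Submodule.mkQ_apply, map_sum] at this
      rw [← this]
      refine Finset.sum_congr ?_ fun _ _ => rfl
      ext σ
      simp [St]
  have h3 := core _ (fun r => (Fintype.equivFin R r : ℕ)) rfl _ hV 1 fun _ => rfl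
  have h4 : St kd (fun r => (Fintype.equivFin R r : ℕ)) = {1} := by
    ext σ
    rw [mem_St, mem_singleton]
    refine ⟨fun h => Equiv.ext fun x => (Fintype.equivFin R).injective (Fin.ext (h.2 x)), ?_⟩
    rintro rfl
    exact ⟨fun _ => rfl, fun _ => rfl⟩
  simpa [Sy, h4] using h3

end Pool.Agent.Lib.MP_595dc0_ag.Dk
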