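import Mathlib
import Pool.Agent.Lib.MP_595dc0_ag.DkSFT

set_option autoImplicit false

/-! Kind-preserving matchings between ends and slots and their label vectors. -/

namespace Pool.Agent.Lib.MP_595dc0_ag.Dk

open Equiv Finset

/-- Kind-preserving bijections from ends to slots. -/
abbrev MatchA {S E κ : Type} (kS : S → κ) (kE : E → κ) : Type :=
  {φ : E ≃ S // ∀ e, kS (φ e) = kE e}

/-- The indicator of the labellings that agree along a bijection. -/
def del {S E L : Type} [Fintype E] [DecidableEq L] (φ : E ≃ S) (α : (S → L) × (E → L)) : ℂ :=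
  if ∀ e, α.1 (φ e) = α.2 e then 1 else 0

/-- The pairing of a function on labellings with a bijection. -/
def pairD {S E L : Type} [Fintype S] [DecidableEq S] [Fintype E] [DecidableEq E] [Fintype L]
    [DecidableEq L] (v : (S → L) × (E → L) → ℂ) (φ : E ≃ S) : ℂ :=
  ∑ α, v α * del φ α

section

variable {S E κ L : Type} [Fintype S] [DecidableEq S] [Fintype E] [DecidableEq E] [Fintype L]
  [DecidableEq L]

theorem inner_del_dkM (φ : E ≃ S) (v : (S → L) × (E → L) → ℂ) :
    inner ℂ (WithLp.toLp 2 (del φ) : EuclideanSpace ℂ ((S → L) × (E → L))) (WithLp.toLp 2 v) =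
      pairD v φ := by
  rw [PiLp.inner_apply, pairD]
  refine Finset.sum_congr rfl fun α _ => ?_
  simp only [del, RCLike.inner_apply]
  split_ifs <;> simp

theorem pairD_eq_dkM (φ : E ≃ S) (v : (S → L) × (E → L) → ℂ) :
    pairD v φ = ∑ β : S → L, v (β, fun e => β (φ e)) := by
  rw [pairD, Fintype.sum_prod_type]
  refine Finset.sum_congr rfl fun β _ => ?_
  rw [Finset.sum_eq_single fun e => β (φ e)]
  · simp [del]
  · intro γ _ h
    rw [del, if_neg fun hh => h (funext hh).symm, mul_zero]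
  · simp

omit [Fintype E] [DecidableEq E] in
/-- A function that does not depend on the label of `x`. -/
theorem free_dkM {x b : S} (hxb : b ≠ x) (G : (S → L) → ℂ)
    (hG : ∀ β l, G (Function.update β x l) = G β) :
    ∑ β, G β = Fintype.card L * ∑ β : S → L, if β x = β b then G β else 0 := by
  have hinv : Function.Involutive fun q : (S → L) × L => (Function.update q.1 x q.2, q.1 x) := by
    rintro ⟨β, l⟩
    simp
  calc ∑ β, G β = ∑ q : (S → L) × L, if q.2 = q.1 b then G q.1 else 0 := by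
        rw [Fintype.sum_prod_type]
        simp
    _ = ∑ q : (S → L) × L, if q.1 x = q.1 b then G q.1 else 0 := by
        refine (Fintype.sum_equiv hinv.toPerm _ _ fun q => ?_).symm
        simp [Function.update_of_ne hxb, hG]
    _ = Fintype.card L * ∑ β : S → L, if β x = β b then G β else 0 := by
        rw [Fintype.sum_prod_type, Finset.mul_sum]
        simp only [Finset.sum_const, Finset.card_univ, nsmul_eq_mul]

theorem gram_exists {ι : Type} [Fintype ι] (fm : ι → E ≃ S) (v : (S → L) × (E → L) → ℂ) :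
    ∃ cf : ι → ℂ, ∀ i', pairD v (fm i') = ∑ i, cf i * pairD (L := L) (del (fm i)) (fm i') := by
  let d : ι → EuclideanSpace ℂ ((S → L) × (E → L)) := fun i => WithLp.toLp 2 (del (fm i))
  obtain ⟨cf, hcf⟩ := (Submodule.mem_span_range_iff_exists_fun ℂ).1
    ((Submodule.span ℂ (Set.range d)).starProjection_apply_mem (WithLp.toLp 2 v))
  refine ⟨cf, fun i' => ?_⟩
  have h := (Submodule.span ℂ (Set.range d)).sub_starProjection_mem_orthogonal (WithLp.toLp 2 v)
    (d i') (Submodule.subset_span ⟨i', rfl⟩)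
  rw [inner_sub_right, ← hcf, inner_sum, sub_eq_zero] at h
  simp only [inner_smul_right, d, inner_del_dkM] at h
  exact h

theorem gram_kernel {ι : Type} [Fintype ι] (fm : ι → E ≃ S) (cf : ι → ℂ)
    (h : ∀ i', ∑ i, cf i * pairD (L := L) (del (fm i)) (fm i') = 0)
    (α : (S → L) × (E → L)) : ∑ i, cf i * del (fm i) α = 0 := by
  let d : ι → EuclideanSpace ℂ ((S → L) × (E → L)) := fun i => WithLp.toLp 2 (del (fm i))
  have h1 : ∀ i', inner ℂ (d i') (∑ i, cf i • d i) = 0 := fun i' => by
    rw [inner_sum]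
    simp only [inner_smul_right, d, inner_del_dkM]
    exact h i'
  have h2 : ∑ i, cf i • d i = 0 := by
    rw [← inner_self_eq_zero (𝕜 := ℂ), sum_inner]
    exact Finset.sum_eq_zero fun i _ => by rw [inner_smul_left, h1, mul_zero]
  have h3 := congrArg (fun w : EuclideanSpace ℂ ((S → L) × (E → L)) => w α) h2
  simpa [d] using h3

/-- Permuting `K + 1` slots of one kind. -/
noncomputable def MatchA.perm {kS : S → κ} {kE : E → κ} (φ : MatchA kS kE) {K : ℕ}
    (e : Fin (K + 1) ↪ S) (he : ∀ i j, kS (e i) = kS (e j)) (σ : Perm (Fin (K + 1))) :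
    MatchA kS kE :=
  ⟨φ.1.trans (σ.viaEmbedding e), by
    intro a
    rw [← φ.2 a]
    show kS (σ.viaEmbedding e (φ.1 a)) = _
    by_cases h : φ.1 a ∈ Set.range e
    · obtain ⟨i, hi⟩ := h
      rw [← hi, Perm.viaEmbedding_apply]
      exact he _ _
    · rw [Perm.viaEmbedding_apply_of_notMem _ _ _ h]⟩

theorem sft_kernel [DecidableEq κ] {W : Type} [AddCommGroup W] [Module ℂ W] (kS : S → κ)
    (kE : E → κ) (K : ℕ) (N : Submodule ℂ W) (Φ : MatchA kS kE → W)
    (hsign : ∀ (e : Fin (K + 1) ↪ S) (he : ∀ i j, kS (e i) = kS (e j)) (φ : MatchA kS kE),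
      ∑ σ : Perm (Fin (K + 1)), ((Perm.sign σ : ℤ) : ℂ) • Φ (φ.perm e he σ) ∈ N)
    {ι : Type} [Fintype ι] (fm : ι → MatchA kS kE) (cf : ι → ℂ)
    (h : ∀ α : (S → Fin K) × (E → Fin K), ∑ i, cf i * del (fm i).1 α = 0) :
    ∑ i, cf i • Φ (fm i) ∈ N := by
  let Ψ : (E ≃ S) → W := fun ψ => if hψ : ∀ a, kS (ψ a) = kE a then Φ ⟨ψ, hψ⟩ else 0
  have hΨ : ∀ φ : MatchA kS kE, Ψ φ.1 = Φ φ := fun φ => dif_pos φ.2
  have key := sft kS K N (fun g => ∑ i, cf i • Ψ ((fm i).1.trans g)) ?_ ?_
  · simpa only [Perm.one_def, Equiv.trans_refl, hΨ] using key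
  · intro e he g hg
    simp only [Finset.smul_sum]
    rw [Finset.sum_comm]
    refine N.sum_mem fun i _ => ?_
    have h1 := N.smul_mem (cf i)
      (hsign e he ⟨(fm i).1.trans g, fun a => (hg _).trans ((fm i).2 a)⟩)
    rw [Finset.smul_sum] at h1
    simp only [← hΨ] at h1
    simp only [smul_comm _ (cf i)]
    exact h1
  · intro χ g hg
    rw [Finset.sum_comm]
    have h1 : ∀ i, ∑ σ ∈ univ.filter
        (fun σ : Perm S => (∀ r, kS (σ r) = kS r) ∧ ∀ r, χ (σ r) = χ r),
          cf i • Ψ ((fm i).1.trans (σ * g)) =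
        ∑ ψ ∈ univ.filter (fun ψ : E ≃ S => ∀ a, kS (ψ a) = kE a),
          (cf i * del (fm i).1 (fun r => χ (g r), fun a => χ (ψ a))) • Ψ ψ := by
      intro i
      simp only [del, mul_ite, mul_one, mul_zero, ite_smul, zero_smul]
      rw [← Finset.sum_filter, Finset.filter_filter]
      refine Finset.sum_nbij' (fun σ => (fm i).1.trans (σ * g))
        (fun ψ => ((fm i).1.trans g).symm.trans ψ) ?_ ?_ ?_ ?_ fun _ _ => rfl
      · intro σ hσ
        obtain ⟨a1, a2⟩ := (Finset.mem_filter.1 hσ).2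
        exact Finset.mem_filter.2 ⟨Finset.mem_univ _,
          fun a => (a1 _).trans ((hg _).trans ((fm i).2 a)), fun a => (a2 _).symm⟩
      · intro ψ hψ
        obtain ⟨a1, a2⟩ := (Finset.mem_filter.1 hψ).2
        refine Finset.mem_filter.2 ⟨Finset.mem_univ _, fun r => ?_, fun r => ?_⟩
        · obtain ⟨a, rfl⟩ := ((fm i).1.trans g).surjective r
          rw [Equiv.trans_apply, Equiv.symm_apply_apply]
          exact (a1 a).trans ((hg _).trans ((fm i).2 a)).symm
        · obtain ⟨a, rfl⟩ := ((fm i).1.trans g).surjective r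
          rw [Equiv.trans_apply, Equiv.symm_apply_apply]
          exact (a2 a).symm
      · intro σ _
        ext r
        simp
      · intro ψ _
        ext a
        simp
    simp only [h1]
    rw [Finset.sum_comm]
    simp only [← Finset.sum_smul, h, zero_smul, Finset.sum_const_zero]
    exact N.zero_mem

variable {S₁ E₁ S₂ E₂ : Type} [Fintype S₁] [DecidableEq S₁] [Fintype E₁] [DecidableEq E₁]
  [Fintype S₂] [DecidableEq S₂] [Fintype E₂] [DecidableEq E₂]

/-- The contraction of a matching of the union along a matching of the second part. -/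
theorem trace_exists (kS : S → κ) (kE : E → κ) (jS : S₁ ⊕ S₂ ≃ S) (jE : E₁ ⊕ E₂ ≃ E)
    (φ₂ : E₂ ≃ S₂) (h₂ : ∀ e, kS (jS (Sum.inr (φ₂ e))) = kE (jE (Sum.inr e)))
    (φ : MatchA kS kE) :
    ∃ (c : ℂ) (φ₁ : E₁ ≃ S₁), (∀ e, kS (jS (Sum.inl (φ₁ e))) = kE (jE (Sum.inl e))) ∧
      ∀ v : (S₁ → L) × (E₁ → L) → ℂ,
        pairD (fun α : (S → L) × (E → L) =>
          v (fun a => α.1 (jS (Sum.inl a)), fun a => α.2 (jE (Sum.inl a))) *
            del φ₂ (fun a => α.1 (jS (Sum.inr a)), fun a => α.2 (jE (Sum.inr a)))) φ.1 =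
          c * pairD v φ₁ := by
  simp only [pairD_eq_dkM]
  induction hn : (univ.filter fun e => φ.1 (jE (Sum.inr e)) ≠ jS (Sum.inr (φ₂ e))).card
    using Nat.strong_induction_on generalizing φ with
  | _ n ih =>
  by_cases hex : ∃ a, φ.1 (jE (Sum.inr a)) ≠ jS (Sum.inr (φ₂ a))
  · obtain ⟨a, ha⟩ := hex
    have hk : kS (jS (Sum.inr (φ₂ a))) = kS (φ.1 (jE (Sum.inr a))) := (h₂ a).trans (φ.2 _).symm
    let φ' : MatchA kS kE := ⟨φ.1.trans (swap (jS (Sum.inr (φ₂ a))) (φ.1 (jE (Sum.inr a)))),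
      fun e => (apply_swap_eq_self hk _).trans (φ.2 e)⟩
    have hφ' : ∀ e, φ'.1 e = swap (jS (Sum.inr (φ₂ a))) (φ.1 (jE (Sum.inr a))) (φ.1 e) :=
      fun _ => rfl
    have ha' : φ'.1 (jE (Sum.inr a)) = jS (Sum.inr (φ₂ a)) := swap_apply_right _ _
    have hlt : (univ.filter fun e => φ'.1 (jE (Sum.inr e)) ≠ jS (Sum.inr (φ₂ e))).card < n := by
      rw [← hn]
      refine Finset.card_lt_card ((Finset.ssubset_iff_of_subset fun e he => ?_).2 ⟨a, ?_, ?_⟩)
      · refine Finset.mem_filter.2 ⟨Finset.mem_univ _, fun h => (Finset.mem_filter.1 he).2 ?_⟩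
        have hea : e ≠ a := fun h' => ha (h' ▸ h)
        rw [hφ', swap_apply_of_ne_of_ne, h]
        · rw [h]
          simpa using hea
        · simpa using hea
      · exact Finset.mem_filter.2 ⟨Finset.mem_univ _, ha⟩
      · exact fun h => (Finset.mem_filter.1 h).2 ha'
    obtain ⟨c, φ₁, h1, h3⟩ := ih _ hlt φ' rfl
    refine ⟨c / Fintype.card L, φ₁, h1, fun v => ?_⟩
    rcases isEmpty_or_nonempty L with hL | hL
    · have : Nonempty S := ⟨jS (Sum.inr (φ₂ a))⟩
      simp
    have hL0 : (Fintype.card L : ℂ) ≠ 0 := by exact_mod_cast Fintype.card_ne_zero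
    have hne : ∀ e, e ≠ jE (Sum.inr a) → φ'.1 e ≠ jS (Sum.inr (φ₂ a)) := fun e he h =>
      he (φ'.1.injective (h.trans ha'.symm))
    rw [div_mul_eq_mul_div, eq_div_iff hL0, ← h3 v, mul_comm]
    refine Eq.trans ?_ (free_dkM ha _ ?_).symm
    · congr 1
      refine Finset.sum_congr rfl fun β _ => ?_
      split_ifs with hβ
      · simp only [hφ', apply_swap_eq_self hβ]
      · rw [del, if_neg fun hh => hβ (hh a), mul_zero]
    · intro β l
      have e1 : ∀ s, Function.update β (jS (Sum.inr (φ₂ a))) l (jS (Sum.inl s)) =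
          β (jS (Sum.inl s)) := fun s => Function.update_of_ne (by simp) _ _
      have e2 : ∀ e, Function.update β (jS (Sum.inr (φ₂ a))) l (φ'.1 (jE (Sum.inl e))) =
          β (φ'.1 (jE (Sum.inl e))) := fun e => Function.update_of_ne (hne _ (by simp)) _ _
      simp only [e1, e2, del]
      congr 1
      refine if_congr (forall_congr' fun e => ?_) rfl rfl
      by_cases hea : e = a
      · subst hea
        simp only [ha']
      · rw [Function.update_of_ne (by simpa using hea),
          Function.update_of_ne (hne _ (by simpa using hea))]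
  · simp only [not_exists, not_not] at hex
    have hf : ∀ e, ∃ s, φ.1 (jE (Sum.inl e)) = jS (Sum.inl s) := fun e => by
      obtain ⟨s | s, hs⟩ := jS.surjective (φ.1 (jE (Sum.inl e)))
      · exact ⟨s, hs.symm⟩
      · obtain ⟨e', rfl⟩ := φ₂.surjective s
        rw [← hex] at hs
        simp at hs
    choose f hf using hf
    have hbij : Function.Bijective f := by
      refine ⟨fun e e' h => ?_, fun s => ?_⟩
      · have h1 := (hf e).trans (h ▸ (hf e').symm)
        simpa using h1
      · obtain ⟨e, he⟩ := φ.1.surjective (jS (Sum.inl s))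
        obtain ⟨e | e, rfl⟩ := jE.surjective e
        · rw [hf] at he
          exact ⟨e, by simpa using he⟩
        · rw [hex] at he
          simp at he
    refine ⟨Fintype.card (S₂ → L), Equiv.ofBijective f hbij,
      fun e => by rw [← φ.2, hf]; rfl, fun v => ?_⟩
    simp only [del, hex, hf, implies_true, if_true, mul_one, Equiv.ofBijective_apply]
    rw [← ((Equiv.sumArrowEquivProdArrow S₁ S₂ L).symm.trans
      (jS.arrowCongr (Equiv.refl L))).sum_comp, Fintype.sum_prod_type, Finset.mul_sum]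
    refine Finset.sum_congr rfl fun β _ => ?_
    simp

theorem del_sum (jS : S₁ ⊕ S₂ ≃ S) (jE : E₁ ⊕ E₂ ≃ E) (φ₁ : E₁ ≃ S₁) (φ₂ : E₂ ≃ S₂)
    (α : (S → L) × (E → L)) :
    del (jE.symm.trans ((φ₁.sumCongr φ₂).trans jS)) α =
      del φ₁ (fun a => α.1 (jS (Sum.inl a)), fun a => α.2 (jE (Sum.inl a))) *
        del φ₂ (fun a => α.1 (jS (Sum.inr a)), fun a => α.2 (jE (Sum.inr a))) := by
  simp only [del]
  rw [ite_zero_mul_ite_zero, mul_one]
  refine if_congr ?_ rfl rfl
  rw [jE.surjective.forall, Sum.forall]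
  simp

end

end Pool.Agent.Lib.MP_595dc0_ag.Dk
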