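import Mathlib

set_option autoImplicit false

/-! The final polynomial rings and the column insertion. -/

namespace Pool.Agent.Lib.MP_595dc0_ag.Dk

open Finset MvPolynomial

/-- Column variables: single cells (group, letter) and pieces. -/
abbrev CV (Grp PV : Type) (k : ℕ) : Type := (Grp × Fin k) ⊕ PV

/-- All variables: cores and column variables. -/
abbrev Var (Core Grp PV : Type) (k n : ℕ) : Type := Core ⊕ (Fin n × CV Grp PV k)

section

variable {Core Grp PV : Type} {k n : ℕ}

/-- The linear form attached to a cell, in the single variables of one column. -/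
noncomputable def ellC (PV : Type) (s : Fin k → ℕ) (c : Grp × Fin k) :
    MvPolynomial (CV Grp PV k) ℂ :=
  X (Sum.inl c) + ∑ b, (s b : ℂ) • X (Sum.inl (c.1, b))

/-- The product of the linear forms of the cells of a column variable. -/
noncomputable def facC (cells : PV → Bool → Grp × Fin k) (s : Fin k → ℕ) :
    CV Grp PV k → MvPolynomial (CV Grp PV k) ℂ
  | Sum.inl c => ellC PV s c
  | Sum.inr p => ellC PV s (cells p false) * ellC PV s (cells p true)

/-- A polynomial in the variables of one column, placed in column `z`. -/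
noncomputable def atCol (Core : Type) (z : Fin n) :
    MvPolynomial (CV Grp PV k) ℂ →ₐ[ℂ] MvPolynomial (Var Core Grp PV k n) ℂ :=
  rename (fun v => Sum.inr (z, v))

/-- Images of the variables under the insertion of column `i'` with key column `i`. -/
noncomputable def opV (cells : PV → Bool → Grp × Fin k) (i' : Fin (n + 1)) (i : Fin n)
    (s : Fin k → ℕ) : Var Core Grp PV k n → MvPolynomial (Var Core Grp PV k (n + 1)) ℂ
  | Sum.inl c => X (Sum.inl c)
  | Sum.inr p => X (Sum.inr (i'.succAbove p.1, p.2)) *
      (if p.1 = i then atCol Core i' (facC cells s p.2) else 1)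

/-- Insertion of column `i'` with key column `i`. -/
noncomputable def opB (Core : Type) (cells : PV → Bool → Grp × Fin k) (i' : Fin (n + 1))
    (i : Fin n) (s : Fin k → ℕ) :
    MvPolynomial (Var Core Grp PV k n) ℂ →ₐ[ℂ] MvPolynomial (Var Core Grp PV k (n + 1)) ℂ :=
  aeval (opV cells i' i s)

variable [Fintype Core] [Fintype PV] [DecidableEq Grp]

/-- Number of cells of group `g` in a piece. -/
def ncell (cells : PV → Bool → Grp × Fin k) (p : PV) (g : Grp) : ℕ :=
  (univ.filter (fun b => (cells p b).1 = g)).card

/-- Number of single cells of group `g` in column `z`. -/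
def cntS (μ : Var Core Grp PV k n →₀ ℕ) (z : Fin n) (g : Grp) : ℕ :=
  ∑ a, μ (Sum.inr (z, Sum.inl (g, a)))

/-- Number of piece cells of group `g` in column `z`. -/
def cntP (cells : PV → Bool → Grp × Fin k) (μ : Var Core Grp PV k n →₀ ℕ) (z : Fin n)
    (g : Grp) : ℕ :=
  ∑ p, μ (Sum.inr (z, Sum.inr p)) * ncell cells p g

/-- Size of group `g` prescribed by the cores. -/
def msz (ms : Core → Grp → ℕ) (μ : Var Core Grp PV k n →₀ ℕ) (g : Grp) : ℕ :=
  ∑ c, μ (Sum.inl c) * ms c g

/-- Balanced monomials. -/
def Bal (cells : PV → Bool → Grp × Fin k) (ms : Core → Grp → ℕ) (w : ℕ)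
    (μ : Var Core Grp PV k n →₀ ℕ) : Prop :=
  (∀ z g, cntS μ z g + cntP cells μ z g = msz ms μ g) ∧
    ∀ g, ∑ z, cntP cells μ z g ≤ w * msz ms μ g

end

end Pool.Agent.Lib.MP_595dc0_ag.Dk
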