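import Mathlib
import Pool.Agent.Lib.MP_595dc0_ag.DkL2
import Pool.Agent.Lib.MP_595dc0_ag.DkM
import Pool.Agent.Lib.MP_595dc0_ag.DkWDefs

set_option autoImplicit false

/-! Labelled polynomial rings: bases, matchings and the final ideals. -/

namespace Pool.Agent.Lib.MP_595dc0_ag.Dk

open Equiv Finset MvPolynomial

/-- Positions relative to a piercing tuple. -/
abbrev Pos (k : ℕ) : Type := Fin (qB k) → Ordering

/-- Signatures of events: position and roles. -/
abbrev EK (k : ℕ) : Type := Pos k × Fin k × Fin k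

/-- Types of molecules: class and signatures. -/
abbrev Ty (k : ℕ) : Type := Fin k × Finset (EK k)

/-- Labels. -/
abbrev Lb (k : ℕ) : Type := Fin (k * k)

/-- Core variables. -/
abbrev Core (k : ℕ) : Type := Fin k × (EK k → Option (Lb k))

/-- Groups of rows: class and role. -/
abbrev Grp (k : ℕ) : Type := Fin k × Fin k

/-- Data of a piece: class, roles, letters, signatures of the two molecules. -/
abbrev PD (k : ℕ) : Type := Fin k × (Bool → Fin k) × (Bool → Fin k) × (Bool → Finset (EK k))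

/-- Piece variables. -/
abbrev PV (k : ℕ) : Type := PD k × (Bool → Option (Lb k))

/-- Variables of the final rings. -/
abbrev VB (k n : ℕ) : Type := Var (Core k) (Grp k) (PV k) k n

/-- The final rings. -/
abbrev BB (k n : ℕ) : Type := MvPolynomial (VB k n) ℂ

variable {k n : ℕ}

instance decEqPos : DecidableEq (Pos k) := inferInstance
instance finPos : Fintype (Pos k) := inferInstance
instance decEqEK : DecidableEq (EK k) := inferInstance
instance finEK : Fintype (EK k) := inferInstance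
instance decEqTy : DecidableEq (Ty k) := inferInstance
instance finTy : Fintype (Ty k) := inferInstance
instance decEqKind : DecidableEq (Ty k × EK k) := inferInstance
instance finKind : Fintype (Ty k × EK k) := inferInstance
instance decEqCore : DecidableEq (Core k) := inferInstance
instance finCore : Fintype (Core k) := inferInstance
instance decEqPD : DecidableEq (PD k) := inferInstance
instance finPD : Fintype (PD k) := inferInstance
instance decEqPV : DecidableEq (PV k) := inferInstance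
instance finPV : Fintype (PV k) := inferInstance
instance decEqVB : DecidableEq (VB k n) := inferInstance
instance finVB : Fintype (VB k n) := inferInstance

/-- The position of a column. -/
def pos (p : PT k n) (z : Fin n) : Pos k := fun s => compare (p s) z

/-- Positions of piercing columns. -/
def oddP (π : Pos k) : Prop := ∃ s, π s = Ordering.eq

instance (π : Pos k) : Decidable (oddP π) := by
  unfold oddP
  infer_instance

/-- A piercing point lies between the two positions. -/
def above (π π' : Pos k) : Prop := ∃ s, π s ≠ Ordering.lt ∧ π' s ≠ Ordering.gt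

instance (π π' : Pos k) : Decidable (above π π') := by
  unfold above
  infer_instance

/-- The cells of a piece variable. -/
def cellsV (v : PV k) (b : Bool) : Grp k × Fin k := ((v.1.1, v.1.2.1 b), v.1.2.2.1 b)

/-- The contribution of a core to the size of a group. -/
def msV (c : Core k) (g : Grp k) : ℕ := if c.1 = g.1 then 1 else 0

/-- Active sides of a piece. -/
def PD.actv (d : PD k) (b : Bool) : Prop := b = false ∨ d.2.1 false = d.2.1 true

instance (d : PD k) (b : Bool) : Decidable (d.actv b) := by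
  unfold PD.actv
  infer_instance

/-- The kind of a side of a piece at position `π`. -/
def PD.kind (d : PD k) (π : Pos k) (b : Bool) : Ty k × EK k :=
  ((d.1, d.2.2.2 b), (π, d.2.1 false, d.2.1 true))

/-- The type of a core. -/
def tyOf (c : Core k) : Ty k := (c.1, univ.filter (fun ek => c.2 ek ≠ none))

/-- Admissible types. -/
def TyOK (T : Ty k) : Prop :=
  T.2.card ≤ wB k ∧
    (∀ ek ∈ T.2, ∀ ek' ∈ T.2, ek ≠ ek' → ek.1 = ek'.1 → oddP ek.1 ∧
      (ek.2.1 ≠ ek'.2.1 ∧ ek.2.1 ≠ ek'.2.2 ∧ ek.2.2 ≠ ek'.2.1 ∧ ek.2.2 ≠ ek'.2.2) ∧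
      (ek.2.1 = ek.2.2 ∨ ek'.2.1 = ek'.2.2)) ∧
    (∀ ek ∈ T.2, ek.2.1 ≠ ek.2.2 → ek.2.1 ≤ T.1 ∧ ek.2.2 ≤ T.1) ∧
    ∀ c c', c ≠ c' → c ≤ T.1 → c' ≤ T.1 →
      (T.2.filter (fun ek => ek.2 = (c, c') ∨ ek.2 = (c', c))).card = muC k T.1

/-- Number of slots of a kind. -/
def nS (μ : VB k n →₀ ℕ) (κ : Ty k × EK k) : ℕ :=
  ∑ c, μ (Sum.inl c) * (if tyOf c = κ.1 ∧ κ.2 ∈ κ.1.2 then 1 else 0)

/-- Number of ends of a kind. -/
def nE (p : PT k n) (μ : VB k n →₀ ℕ) (κ : Ty k × EK k) : ℕ :=
  ∑ z, ∑ v, μ (Sum.inr (z, Sum.inr v)) *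
    (univ.filter (fun b => v.1.actv b ∧ v.1.kind (pos p z) b = κ)).card

/-- Valid monomials. -/
def VV (p : PT k n) (μ : VB k n →₀ ℕ) : Prop :=
  (∀ c, μ (Sum.inl c) ≠ 0 → TyOK (tyOf c)) ∧
    (∀ z v, μ (Sum.inr (z, Sum.inr v)) ≠ 0 → ∀ b, (v.2 b ≠ none ↔ v.1.actv b)) ∧
    (∀ κ, nS μ κ = nE p μ κ) ∧
    ∀ z g, cntS μ z g + cntP cellsV μ z g = msz msV μ g

/-- Number of signatures strictly above a position. -/
def Hh (T : Finset (EK k)) (π : Pos k) : ℕ := (T.filter (fun ek => ek.1 ≠ π ∧ above π ek.1)).card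

/-- The contribution of a core to the convexity profile. -/
def wC (T : Finset (EK k)) (π : Pos k) : ℕ :=
  if oddP π then (Hh T π + (T.filter (fun ek => ek.1 = π)).card) ^ 2 else Hh T π ^ 2

/-- The contribution of a piece in column `z` to the convexity profile at `x`. -/
def wP (p : PT k n) (z : Fin n) (d : PD k) (x : Fin n) : ℕ :=
  ∑ b, if d.actv b ∧ ¬ oddP (pos p x) ∧ pos p z = pos p x ∧ x ≤ z then
    2 * Hh (d.2.2.2 b) (pos p x) + 1 else 0

/-- The pre-weight of a monomial. -/
def pwM (p : PT k n) (μ : VB k n →₀ ℕ) : PW n :=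
  (∑ c, μ (Sum.inl c), ∑ z, ∑ s, μ (Sum.inr (z, Sum.inl s)),
    fun x => ∑ c, μ (Sum.inl c) * wC (tyOf c).2 (pos p x) +
      ∑ z, ∑ v, μ (Sum.inr (z, Sum.inr v)) * wP p z v.1 x)

/-- A base: everything but the matching and the labels. -/
structure Base (k n : ℕ) (M U : Type) : Type where
  ty : M → Ty k
  col : U → Fin n
  pd : U → PD k
  sing : Fin n → Grp k × Fin k → ℕ

namespace Base

variable {M U M' U' : Type}

/-- Slots of the molecules. -/
abbrev Slots (B : Base k n M U) : Type := {q : M × EK k // q.2 ∈ (B.ty q.1).2}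

/-- Active ends of the pieces. -/
abbrev Ends (B : Base k n M U) : Type := {q : U × Bool // (B.pd q.1).actv q.2}

/-- Labellings. -/
abbrev Lbl (B : Base k n M U) : Type := (B.Slots → Lb k) × (B.Ends → Lb k)

/-- The kind of a slot. -/
def kS (B : Base k n M U) (q : B.Slots) : Ty k × EK k := (B.ty q.1.1, q.1.2)

/-- The kind of an end. -/
def kE (p : PT k n) (B : Base k n M U) (q : B.Ends) : Ty k × EK k :=
  (B.pd q.1.1).kind (pos p (B.col q.1.1)) q.1.2

/-- Matchings. -/
abbrev Match (p : PT k n) (B : Base k n M U) : Type := MatchA B.kS (B.kE p)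

/-- The labelled core of a molecule. -/
def core (B : Base k n M U) (α : B.Slots → Lb k) (m : M) : Core k :=
  ((B.ty m).1, fun ek => if h : ek ∈ (B.ty m).2 then some (α ⟨(m, ek), h⟩) else none)

/-- The labelled variable of a piece. -/
def pv (B : Base k n M U) (α : B.Ends → Lb k) (u : U) : PV k :=
  (B.pd u, fun b => if h : (B.pd u).actv b then some (α ⟨(u, b), h⟩) else none)

/-- Disjoint union. -/
def sum (B : Base k n M U) (B' : Base k n M' U') : Base k n (M ⊕ M') (U ⊕ U') where
  ty := Sum.elim B.ty B'.ty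
  col := Sum.elim B.col B'.col
  pd := Sum.elim B.pd B'.pd
  sing := B.sing + B'.sing

/-- Slots of a union. -/
def sumS (B : Base k n M U) (B' : Base k n M' U') : B.Slots ⊕ B'.Slots ≃ (B.sum B').Slots where
  toFun := Sum.elim (fun q => ⟨(Sum.inl q.1.1, q.1.2), q.2⟩) (fun q => ⟨(Sum.inr q.1.1, q.1.2), q.2⟩)
  invFun := fun q => match q with
    | ⟨(Sum.inl m, ek), h⟩ => Sum.inl ⟨(m, ek), h⟩
    | ⟨(Sum.inr m, ek), h⟩ => Sum.inr ⟨(m, ek), h⟩
  left_inv := by
    rintro (⟨⟨m, ek⟩, h⟩ | ⟨⟨m, ek⟩, h⟩) <;> rfl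
  right_inv := by
    rintro ⟨⟨m | m, ek⟩, h⟩ <;> rfl

/-- Ends of a union. -/
def sumE (B : Base k n M U) (B' : Base k n M' U') : B.Ends ⊕ B'.Ends ≃ (B.sum B').Ends where
  toFun := Sum.elim (fun q => ⟨(Sum.inl q.1.1, q.1.2), q.2⟩) (fun q => ⟨(Sum.inr q.1.1, q.1.2), q.2⟩)
  invFun := fun q => match q with
    | ⟨(Sum.inl u, b), h⟩ => Sum.inl ⟨(u, b), h⟩
    | ⟨(Sum.inr u, b), h⟩ => Sum.inr ⟨(u, b), h⟩
  left_inv := by
    rintro (⟨⟨u, b⟩, h⟩ | ⟨⟨u, b⟩, h⟩) <;> rfl
  right_inv := by
    rintro ⟨⟨u | u, b⟩, h⟩ <;> rfl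

/-- The union of two matchings. -/
def sumM (p : PT k n) (B : Base k n M U) (B' : Base k n M' U') (φ : B.Match p)
    (φ' : B'.Match p) : (B.sum B').Match p :=
  ⟨(sumE B B').symm.trans ((φ.1.sumCongr φ'.1).trans (sumS B B')), by
    rintro ⟨⟨u | u, b⟩, h⟩
    · exact φ.2 ⟨(u, b), h⟩
    · exact φ'.2 ⟨(u, b), h⟩⟩

/-- The union of two labellings. -/
def sumL (B : Base k n M U) (B' : Base k n M' U') (α : B.Lbl) (α' : B'.Lbl) : (B.sum B').Lbl :=
  (fun q => Sum.elim α.1 α'.1 ((sumS B B').symm q), fun q => Sum.elim α.2 α'.2 ((sumE B B').symm q))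

variable [Fintype M] [Fintype U]

/-- The base after the insertion of a column with letters `y`. -/
def ins (B : Base k n M U) (i' : Fin (n + 1)) (y : M × Fin k → Fin k) : Base k (n + 1) M U where
  ty := B.ty
  col := fun u => i'.succAbove (B.col u)
  pd := B.pd
  sing := Fin.insertNth (α := fun _ => Grp k × Fin k → ℕ) i'
    (fun s => (univ.filter (fun r : M × Fin k =>
      (B.ty r.1).1 = s.1.1 ∧ r.2 = s.1.2 ∧ y r = s.2)).card) B.sing

/-- The exponent of a labelled base. -/
noncomputable def expo (B : Base k n M U) (α : B.Lbl) : VB k n →₀ ℕ :=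
  ∑ m, Finsupp.single (Sum.inl (B.core α.1 m)) 1 +
    ∑ u, Finsupp.single (Sum.inr (B.col u, Sum.inr (B.pv α.2 u))) 1 +
    ∑ z, ∑ s, Finsupp.single (Sum.inr (z, Sum.inl s)) (B.sing z s)

/-- Number of single cells. -/
def tb (B : Base k n M U) : ℕ := ∑ z, ∑ s, B.sing z s

/-- Valid bases. -/
def BV (p : PT k n) (B : Base k n M U) : Prop :=
  (∀ m, TyOK (B.ty m)) ∧ Nonempty (B.Match p) ∧
    ∀ z (g : Grp k), ∑ a, B.sing z (g, a) + (univ.filter (fun q : U × Bool =>
      B.col q.1 = z ∧ (B.pd q.1).1 = g.1 ∧ (B.pd q.1).2.1 q.2 = g.2)).card =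
      (univ.filter (fun m => (B.ty m).1 = g.1)).card

variable [DecidableEq M] [DecidableEq U]

instance decEqSlots (B : Base k n M U) : DecidableEq B.Slots := inferInstance
instance finSlots (B : Base k n M U) : Fintype B.Slots := inferInstance
instance decEqEnds (B : Base k n M U) : DecidableEq B.Ends := inferInstance
instance finEnds (B : Base k n M U) : Fintype B.Ends := inferInstance
instance decEqLbl (B : Base k n M U) : DecidableEq B.Lbl := inferInstance
instance finLbl (B : Base k n M U) : Fintype B.Lbl := inferInstance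

/-- The labelled polynomial of a matched base. -/
noncomputable def rho (B : Base k n M U) (φ : B.Ends ≃ B.Slots) : BB k n :=
  ∑ α : B.Ends → Lb k, monomial (B.expo (fun q => α (φ.symm q), α)) 1

/-- The configuration realises the matched base. -/
structure Rz (B : Base k n M U) (φ : B.Ends ≃ B.Slots) (c : Cfg k n M U) : Prop where
  cls : ∀ m, (c.f m).cls = (B.ty m).1
  col : c.col = B.col
  role : ∀ u, c.role u = (B.pd u).2.1
  lett : ∀ u b, c.x (c.col u) (c.rw u b) = (B.pd u).2.2.1 b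
  mo : ∀ q : B.Ends, c.mo q.1.1 q.1.2 = (φ q).1.1
  sing : c.sing = B.sing

/-- `φF` is a value of the contraction of `v`. -/
def LR (p : PT k n) (B : Base k n M U) (v : B.Lbl → ℂ) (φF : FF k n) : Prop :=
  ∃ (ι : Type) (_ : Fintype ι) (fm : ι → B.Match p) (cf : ι → ℂ) (cg : ι → Cfg k n M U),
    (∀ i, (cg i).Valid ∧ B.Rz (fm i).1 (cg i)) ∧
    (∀ φ : B.Match p, pairD v φ.1 = ∑ i, cf i * pairD (L := Lb k) (del (fm i).1) φ.1) ∧
    φF = ∑ i, cf i • (cg i).tau

end Base

/-- `φF` is a value of the contraction of the monomial `μ`. -/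
def LRm (p : PT k n) (μ : VB k n →₀ ℕ) (φF : FF k n) : Prop :=
  ∃ (M U : Type) (_ : Fintype M) (_ : DecidableEq M) (_ : Fintype U) (_ : DecidableEq U)
    (B : Base k n M U) (α : B.Lbl), B.BV p ∧ μ = B.expo α ∧ B.LR p (Pi.single α 1) φF

open Classical in
/-- A chosen contraction of the valid monomials of pre-weight `a`. -/
noncomputable def Lam0 (p : PT k n) (a : PW n) (μ : VB k n →₀ ℕ) : FF k n :=
  if h : pwM p μ = a ∧ ∃ φF, LRm p μ φF then h.2.choose else 0

/-- Its linear extension. -/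
noncomputable def Lam (p : PT k n) (a : PW n) : BB k n →ₗ[ℂ] FF k n :=
  (basisMonomials (VB k n) ℂ).constr ℂ (Lam0 p a)

/-- Pairs (value, labelled polynomial) of realised configurations of pre-weight `a`. -/
def RS (p : PT k n) (a : PW n) : Set (FF k n × BB k n) :=
  {w | ∃ (M U : Type) (_ : Fintype M) (_ : DecidableEq M) (_ : Fintype U) (_ : DecidableEq U)
    (B : Base k n M U) (φ : B.Match p) (c : Cfg k n M U),
    B.BV p ∧ c.Valid ∧ B.Rz φ.1 c ∧ c.pw = a ∧ w = (c.tau, B.rho φ.1)}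

/-- Generators of the final ideals. -/
def ZG (D : ℕ) (p : PT k n) : Set (BB k n) :=
  {z | ∃ a, ∃ w ∈ Submodule.span ℂ (RS p a), w.1 ∈ Tgt D a p ∧ z = w.2}

/-- The final ideals. -/
noncomputable def ZZ (k D n : ℕ) (p : PT k n) : Ideal (BB k n) := Ideal.span (ZG D p)

end Pool.Agent.Lib.MP_595dc0_ag.Dk
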