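import Mathlib
import Pool.Agent.Lib.MP_595dc0_ag.DkL3

set_option autoImplicit false

namespace Pool.Agent.Lib.MP_595dc0_ag.Dk

open Equiv Finset MvPolynomial

variable {k n : ℕ} {M U M' U' : Type} [Fintype M] [DecidableEq M] [Fintype U] [DecidableEq U]
  [Fintype M'] [DecidableEq M'] [Fintype U'] [DecidableEq U']

theorem pos_odd_eq (p : PT k n) (z z' : Fin n) (h : pos p z = pos p z') (ho : oddP (pos p z)) :
    z = z' := by
  obtain ⟨s, hs⟩ := ho
  have hs' : pos p z' s = Ordering.eq := h ▸ hs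
  exact (compare_eq_iff_eq.mp hs).symm.trans (compare_eq_iff_eq.mp hs')

theorem pos_pierce (p : PT k n) (z z' : Fin n) (h : pos p z = pos p z')
    (hs : ∃ s, z ≤ p s ∧ p s ≤ z') : oddP (pos p z) := by
  obtain ⟨s, h1, h2⟩ := hs
  rcases eq_or_lt_of_le h1 with h3 | h3
  · exact ⟨s, compare_eq_iff_eq.mpr h3.symm⟩
  · have h4 : pos p z s = Ordering.gt := compare_gt_iff_gt.mpr h3
    have h5 : pos p z' s = Ordering.gt := h ▸ h4
    exact absurd (compare_gt_iff_gt.mp h5) (not_lt.mpr h2)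

theorem pos_ne_pierce (p : PT k n) (z z' : Fin n) (h : pos p z ≠ pos p z') (hz : z ≤ z') :
    ∃ s, z ≤ p s ∧ p s ≤ z' := by
  by_contra hc
  refine h (funext fun s => ?_)
  by_cases h1 : z ≤ p s
  · have h2 : z' < p s := not_le.mp (fun h2 => hc ⟨s, h1, h2⟩)
    exact (compare_gt_iff_gt.mpr (lt_of_le_of_lt hz h2)).trans (compare_gt_iff_gt.mpr h2).symm
  · have h2 : p s < z := not_le.mp h1
    exact (compare_lt_iff_lt.mpr h2).trans (compare_lt_iff_lt.mpr (lt_of_lt_of_le h2 hz)).symm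

theorem odd_pierce (p : PT k n) (z : Fin n) (h : oddP (pos p z)) : ∃ s, p s = z := by
  obtain ⟨s, hs⟩ := h
  exact ⟨s, compare_eq_iff_eq.mp hs⟩

theorem above_iff (p : PT k n) (x z : Fin n) (h : pos p z ≠ pos p x) :
    above (pos p x) (pos p z) ↔ x ≤ z := by
  constructor
  · rintro ⟨s, h1, h2⟩
    have h3 : x ≤ p s := not_lt.mp (fun hh => h1 (compare_lt_iff_lt.mpr hh))
    have h4 : p s ≤ z := not_lt.mp (fun hh => h2 (compare_gt_iff_gt.mpr hh))
    exact le_trans h3 h4
  · intro hx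
    obtain ⟨s, h1, h2⟩ := pos_ne_pierce p x z (Ne.symm h) hx
    exact ⟨s, fun hh => absurd (compare_lt_iff_lt.mp hh) (not_lt.mpr h1),
      fun hh => absurd (compare_gt_iff_gt.mp hh) (not_lt.mpr h2)⟩

theorem pos_succAbove (p : PT k n) (i' : Fin (n + 1)) (z : Fin n) :
    pos (fun t => i'.succAbove (p t)) (i'.succAbove z) = pos p z := by
  funext s
  have hm : StrictMono i'.succAbove := Fin.strictMono_succAbove i'
  rcases lt_trichotomy (p s) z with h | h | h
  · exact (compare_lt_iff_lt.mpr (hm h)).trans (compare_lt_iff_lt.mpr h).symm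
  · exact (compare_eq_iff_eq.mpr (congrArg i'.succAbove h)).trans (compare_eq_iff_eq.mpr h).symm
  · exact (compare_gt_iff_gt.mpr (hm h)).trans (compare_gt_iff_gt.mpr h).symm

theorem nS_add (μ ν : VB k n →₀ ℕ) (κ : Ty k × EK k) : nS (μ + ν) κ = nS μ κ + nS ν κ := by
  simp only [nS, Finsupp.add_apply, add_mul, Finset.sum_add_distrib]

theorem nE_add (p : PT k n) (μ ν : VB k n →₀ ℕ) (κ : Ty k × EK k) :
    nE p (μ + ν) κ = nE p μ κ + nE p ν κ := by
  simp only [nE, Finsupp.add_apply, add_mul, Finset.sum_add_distrib]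

theorem cntS_add' (μ ν : VB k n →₀ ℕ) (z : Fin n) (g : Grp k) :
    cntS (μ + ν) z g = cntS μ z g + cntS ν z g := by
  simp only [cntS, Finsupp.add_apply, Finset.sum_add_distrib]

theorem cntP_add' (μ ν : VB k n →₀ ℕ) (z : Fin n) (g : Grp k) :
    cntP cellsV (μ + ν) z g = cntP cellsV μ z g + cntP cellsV ν z g := by
  simp only [cntP, Finsupp.add_apply, add_mul, Finset.sum_add_distrib]

theorem msz_add' (μ ν : VB k n →₀ ℕ) (g : Grp k) :
    msz msV (μ + ν) g = msz msV μ g + msz msV ν g := by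
  simp only [msz, Finsupp.add_apply, add_mul, Finset.sum_add_distrib]

theorem VV_add_iff (p : PT k n) (μ ν : VB k n →₀ ℕ) (hν : VV p ν) : VV p (μ + ν) ↔ VV p μ := by
  obtain ⟨n1, n2, n3, n4⟩ := hν
  constructor
  · rintro ⟨h1, h2, h3, h4⟩
    refine ⟨fun c hc => h1 c ?_, fun z v hv => h2 z v ?_, fun κ => ?_, fun z g => ?_⟩
    · rw [Finsupp.add_apply]
      omega
    · rw [Finsupp.add_apply]
      omega
    · have a1 := h3 κ
      have a2 := n3 κ
      rw [nS_add, nE_add] at a1
      omega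
    · have a1 := h4 z g
      have a2 := n4 z g
      rw [cntS_add', cntP_add', msz_add'] at a1
      omega
  · rintro ⟨h1, h2, h3, h4⟩
    refine ⟨fun c hc => ?_, fun z v hv => ?_, fun κ => ?_, fun z g => ?_⟩
    · rw [Finsupp.add_apply] at hc
      by_cases h0 : μ (Sum.inl c) = 0
      · exact n1 c (by omega)
      · exact h1 c h0
    · rw [Finsupp.add_apply] at hv
      by_cases h0 : μ (Sum.inr (z, Sum.inr v)) = 0
      · exact n2 z v (by omega)
      · exact h2 z v h0
    · rw [nS_add, nE_add, h3 κ, n3 κ]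
    · have a1 := h4 z g
      have a2 := n4 z g
      rw [cntS_add', cntP_add', msz_add']
      omega

theorem pwM_add (p : PT k n) (μ ν : VB k n →₀ ℕ) : pwM p (μ + ν) = pwM p μ + pwM p ν := by
  refine Prod.ext ?_ (Prod.ext ?_ (funext fun x => ?_))
  · simp only [pwM, Finsupp.add_apply, Finset.sum_add_distrib, Prod.fst_add]
  · simp only [pwM, Finsupp.add_apply, Finset.sum_add_distrib, Prod.fst_add, Prod.snd_add]
  · simp only [pwM, Finsupp.add_apply, add_mul, Finset.sum_add_distrib, Prod.snd_add,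
      Pi.add_apply]
    omega

/-- Equal fibre sizes give a bijection over the base. -/
theorem exists_equiv_of_card_fiber {A B C : Type} [Fintype A] [Fintype B] [DecidableEq C]
    (f : A → C) (g : B → C)
    (h : ∀ c, (univ.filter (fun a => f a = c)).card = (univ.filter (fun b => g b = c)).card) :
    ∃ e : A ≃ B, ∀ a, g (e a) = f a := by
  have h' : ∀ c, Fintype.card {a // f a = c} = Fintype.card {b // g b = c} := fun c => by
    rw [Fintype.card_subtype, Fintype.card_subtype, h c]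
  exact ⟨Equiv.ofFiberEquiv (fun c => Fintype.equivOfCardEq (h' c)),
    fun a => Equiv.ofFiberEquiv_map _ a⟩

namespace Base

theorem tyOf_core (B : Base k n M U) (α : B.Slots → Lb k) (m : M) :
    tyOf (B.core α m) = B.ty m := by
  refine Prod.ext rfl ?_
  ext ek
  by_cases h : ek ∈ (B.ty m).2 <;> simp [tyOf, core, h]

theorem expo_core (B : Base k n M U) (α : B.Lbl) (c : Core k) :
    B.expo α (Sum.inl c) = (univ.filter (fun m => B.core α.1 m = c)).card := by
  simp only [expo, Finsupp.add_apply, Finsupp.finsetSum_apply, Finsupp.single_apply,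
    Finset.card_filter, Sum.inl.injEq, reduceCtorEq, if_false, Finset.sum_const_zero, add_zero]

theorem expo_piece (B : Base k n M U) (α : B.Lbl) (z : Fin n) (v : PV k) :
    B.expo α (Sum.inr (z, Sum.inr v)) =
      (univ.filter (fun u => B.col u = z ∧ B.pv α.2 u = v)).card := by
  simp only [expo, Finsupp.add_apply, Finsupp.finsetSum_apply, Finsupp.single_apply,
    Finset.card_filter, Sum.inr.injEq, Prod.mk.injEq, reduceCtorEq, if_false, and_false,
    Finset.sum_const_zero, add_zero, zero_add]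

theorem expo_single (B : Base k n M U) (α : B.Lbl) (z : Fin n) (s : Grp k × Fin k) :
    B.expo α (Sum.inr (z, Sum.inl s)) = B.sing z s := by
  simp only [expo, Finsupp.add_apply, Finsupp.finsetSum_apply, Finsupp.single_apply,
    Sum.inr.injEq, Sum.inl.injEq, Prod.mk.injEq, reduceCtorEq, if_false, and_false,
    Finset.sum_const_zero, zero_add]
  rw [Finset.sum_eq_single z, Finset.sum_eq_single s]
  · simp
  · intro s' _ hs
    simp [hs]
  · simp
  · intro z' _ hz
    simp [hz]
  · simp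

theorem sum_expo_core (B : Base k n M U) (α : B.Lbl) (φ : Core k → ℕ) :
    ∑ c, B.expo α (Sum.inl c) * φ c = ∑ m, φ (B.core α.1 m) := by
  rw [← Finset.sum_fiberwise (univ : Finset M) (fun m => B.core α.1 m)]
  refine Finset.sum_congr rfl (fun c _ => ?_)
  rw [expo_core, Finset.sum_congr rfl (g := fun _ => φ c)
    (fun m hm => by rw [(Finset.mem_filter.mp hm).2]), Finset.sum_const, smul_eq_mul]

theorem sum_expo_piece (B : Base k n M U) (α : B.Lbl) (z : Fin n) (φ : PV k → ℕ) :
    ∑ v, B.expo α (Sum.inr (z, Sum.inr v)) * φ v =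
      ∑ u ∈ univ.filter (fun u => B.col u = z), φ (B.pv α.2 u) := by
  rw [← Finset.sum_fiberwise (univ.filter (fun u => B.col u = z)) (fun u => B.pv α.2 u)]
  refine Finset.sum_congr rfl (fun v _ => ?_)
  rw [expo_piece, Finset.sum_congr rfl (g := fun _ => φ v)
    (fun u hu => by rw [(Finset.mem_filter.mp hu).2]), Finset.sum_const, smul_eq_mul,
    Finset.filter_filter]

theorem expo_sum (B : Base k n M U) (B' : Base k n M' U') (α : B.Lbl) (α' : B'.Lbl) :
    (B.sum B').expo (sumL B B' α α') = B.expo α + B'.expo α' := by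
  have h1 : ∀ m, (B.sum B').core (sumL B B' α α').1 (Sum.inl m) = B.core α.1 m := fun _ => rfl
  have h2 : ∀ m, (B.sum B').core (sumL B B' α α').1 (Sum.inr m) = B'.core α'.1 m := fun _ => rfl
  have h3 : ∀ u, (B.sum B').pv (sumL B B' α α').2 (Sum.inl u) = B.pv α.2 u := fun _ => rfl
  have h4 : ∀ u, (B.sum B').pv (sumL B B' α α').2 (Sum.inr u) = B'.pv α'.2 u := fun _ => rfl
  have h5 : ∀ u, (B.sum B').col (Sum.inl u) = B.col u := fun _ => rfl
  have h6 : ∀ u, (B.sum B').col (Sum.inr u) = B'.col u := fun _ => rfl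
  have h7 : ∀ z s, (B.sum B').sing z s = B.sing z s + B'.sing z s := fun _ _ => rfl
  simp only [expo, Fintype.sum_sum_type, h1, h2, h3, h4, h5, h6, h7, Finsupp.single_add,
    Finset.sum_add_distrib]
  abel

theorem nS_expo (B : Base k n M U) (α : B.Lbl) (κ : Ty k × EK k) :
    nS (B.expo α) κ = (univ.filter (fun q : B.Slots => B.kS q = κ)).card := by
  unfold nS
  rw [sum_expo_core B α (fun c => if tyOf c = κ.1 ∧ κ.2 ∈ κ.1.2 then 1 else 0)]
  simp only [tyOf_core]
  rw [← Finset.card_filter]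
  symm
  refine Finset.card_bij (fun q _ => q.1.1) ?_ ?_ ?_
  · rintro ⟨⟨m, ek⟩, hq⟩ h
    have h' : (B.ty m, ek) = κ := (Finset.mem_filter.mp h).2
    subst h'
    exact Finset.mem_filter.mpr ⟨Finset.mem_univ _, rfl, hq⟩
  · rintro ⟨⟨m, ek⟩, hq⟩ h ⟨⟨m', ek'⟩, hq'⟩ h' hm
    have h1 : (B.ty m, ek) = κ := (Finset.mem_filter.mp h).2
    have h2 : (B.ty m', ek') = κ := (Finset.mem_filter.mp h').2
    have h3 : ek = ek' := congrArg Prod.snd (h1.trans h2.symm)
    exact Subtype.ext (Prod.ext hm h3)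
  · intro m hm
    obtain ⟨h1, h2⟩ := (Finset.mem_filter.mp hm).2
    refine ⟨⟨(m, κ.2), ?_⟩, Finset.mem_filter.mpr ⟨Finset.mem_univ _, Prod.ext h1 rfl⟩, rfl⟩
    show κ.2 ∈ (B.ty m).2
    rw [h1]
    exact h2

theorem nE_expo (p : PT k n) (B : Base k n M U) (α : B.Lbl) (κ : Ty k × EK k) :
    nE p (B.expo α) κ = (univ.filter (fun q : B.Ends => B.kE p q = κ)).card := by
  have h1 : nE p (B.expo α) κ = ∑ u, (univ.filter (fun b => (B.pd u).actv b ∧
      (B.pd u).kind (pos p (B.col u)) b = κ)).card := by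
    unfold nE
    rw [← Finset.sum_fiberwise (univ : Finset U) B.col]
    refine Finset.sum_congr rfl (fun z _ => ?_)
    rw [sum_expo_piece B α z
      (fun v => (univ.filter (fun b => v.1.actv b ∧ v.1.kind (pos p z) b = κ)).card)]
    refine Finset.sum_congr rfl (fun u hu => ?_)
    rw [(Finset.mem_filter.mp hu).2]
    rfl
  have h2 : (univ.filter (fun q : B.Ends => B.kE p q = κ)).card =
      (univ.filter (fun q : U × Bool => (B.pd q.1).actv q.2 ∧
        (B.pd q.1).kind (pos p (B.col q.1)) q.2 = κ)).card := by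
    refine Finset.card_bij (fun q _ => q.1) ?_ ?_ ?_
    · intro q h
      exact Finset.mem_filter.mpr ⟨Finset.mem_univ _, q.2, (Finset.mem_filter.mp h).2⟩
    · intro q _ q' _ h
      exact Subtype.ext h
    · intro q h
      obtain ⟨a1, a2⟩ := (Finset.mem_filter.mp h).2
      exact ⟨⟨q, a1⟩, Finset.mem_filter.mpr ⟨Finset.mem_univ _, a2⟩, rfl⟩
  rw [h1, h2]
  simp only [Finset.card_filter]
  rw [Fintype.sum_prod_type]

theorem cntS_expo (B : Base k n M U) (α : B.Lbl) (z : Fin n) (g : Grp k) :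
    cntS (B.expo α) z g = ∑ a, B.sing z (g, a) := by
  simp only [cntS, expo_single]

theorem cntP_expo (B : Base k n M U) (α : B.Lbl) (z : Fin n) (g : Grp k) :
    cntP cellsV (B.expo α) z g = (univ.filter (fun q : U × Bool =>
      B.col q.1 = z ∧ (B.pd q.1).1 = g.1 ∧ (B.pd q.1).2.1 q.2 = g.2)).card := by
  unfold cntP
  rw [sum_expo_piece B α z (fun v => ncell cellsV v g), Finset.sum_filter, Finset.card_filter,
    Fintype.sum_prod_type]
  refine Finset.sum_congr rfl (fun u _ => ?_)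
  by_cases h : B.col u = z
  · simp only [h, if_true, true_and, ncell, Finset.card_filter]
    refine Finset.sum_congr rfl (fun b _ => ?_)
    exact if_congr Prod.ext_iff rfl rfl
  · simp [h]

theorem msz_expo (B : Base k n M U) (α : B.Lbl) (g : Grp k) :
    msz msV (B.expo α) g = (univ.filter (fun m => (B.ty m).1 = g.1)).card := by
  unfold msz
  rw [sum_expo_core B α (fun c => msV c g), Finset.card_filter]
  rfl

theorem VV_expo (p : PT k n) (B : Base k n M U) (α : B.Lbl) : VV p (B.expo α) ↔ B.BV p := by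
  have e3 : (∀ κ, nS (B.expo α) κ = nE p (B.expo α) κ) ↔ Nonempty (B.Match p) := by
    simp only [nS_expo, nE_expo]
    constructor
    · intro h
      obtain ⟨e, he⟩ := exists_equiv_of_card_fiber (B.kE p) B.kS (fun κ => (h κ).symm)
      exact ⟨⟨e, he⟩⟩
    · rintro ⟨φ⟩ κ
      symm
      refine Finset.card_equiv φ.1 (fun q => ?_)
      simp only [Finset.mem_filter, Finset.mem_univ, true_and, φ.2 q]
  have e1 : (∀ c, B.expo α (Sum.inl c) ≠ 0 → TyOK (tyOf c)) ↔ ∀ m, TyOK (B.ty m) := by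
    constructor
    · intro h m
      rw [← B.tyOf_core α.1 m]
      refine h _ ?_
      rw [expo_core]
      exact Finset.card_ne_zero.mpr ⟨m, Finset.mem_filter.mpr ⟨Finset.mem_univ _, rfl⟩⟩
    · intro h c hc
      rw [expo_core] at hc
      obtain ⟨m, hm⟩ := Finset.card_ne_zero.mp hc
      rw [← (Finset.mem_filter.mp hm).2, tyOf_core]
      exact h m
  have e2 : ∀ z v, B.expo α (Sum.inr (z, Sum.inr v)) ≠ 0 → ∀ b, (v.2 b ≠ none ↔ v.1.actv b) := by
    intro z v hv b
    rw [expo_piece] at hv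
    obtain ⟨u, hu⟩ := Finset.card_ne_zero.mp hv
    rw [← (Finset.mem_filter.mp hu).2.2]
    by_cases h : (B.pd u).actv b <;> simp [pv, h]
  unfold VV BV
  rw [e1, e3]
  simp only [cntS_expo, cntP_expo, msz_expo]
  exact ⟨fun h => ⟨h.1, h.2.2.1, h.2.2.2⟩, fun h => ⟨h.1, e2, h.2.1, h.2.2⟩⟩

theorem expo_iso (B : Base k n M U) (B' : Base k n M' U') (α : B.Lbl) (α' : B'.Lbl)
    (h : B.expo α = B'.expo α') :
    ∃ (eM : M ≃ M') (eU : U ≃ U'), (∀ m, B'.core α'.1 (eM m) = B.core α.1 m) ∧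
      (∀ u, B'.col (eU u) = B.col u ∧ B'.pv α'.2 (eU u) = B.pv α.2 u) ∧ B'.sing = B.sing := by
  obtain ⟨eM, hM⟩ := exists_equiv_of_card_fiber (B.core α.1) (B'.core α'.1) (fun c => by
    rw [← expo_core, ← expo_core, h])
  obtain ⟨eU, hU⟩ := exists_equiv_of_card_fiber (fun u => (B.col u, B.pv α.2 u))
    (fun u => (B'.col u, B'.pv α'.2 u)) (fun c => by
      have h1 := B.expo_piece α c.1 c.2
      have h2 := B'.expo_piece α' c.1 c.2
      rw [h, h2] at h1
      simp only [Prod.ext_iff (y := c)]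
      exact h1.symm)
  refine ⟨eM, eU, hM, fun u => ⟨congrArg Prod.fst (hU u), congrArg Prod.snd (hU u)⟩, ?_⟩
  funext z s
  rw [← expo_single B' α', ← expo_single B α, h]

theorem BV.sum {p : PT k n} {B : Base k n M U} {B' : Base k n M' U'} (h : B.BV p)
    (h' : B'.BV p) : (B.sum B').BV p := by
  obtain ⟨h1, ⟨φ⟩, h3⟩ := h
  obtain ⟨h1', ⟨φ'⟩, h3'⟩ := h'
  refine ⟨?_, ⟨sumM p B B' φ φ'⟩, fun z g => ?_⟩
  · rintro (m | m)
    · exact h1 m
    · exact h1' m
  · have a1 := h3 z g
    have a2 := h3' z g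
    rw [Finset.card_filter, Finset.card_filter, Fintype.sum_prod_type] at a1 a2
    rw [Finset.card_filter, Finset.card_filter, Fintype.sum_prod_type, Fintype.sum_sum_type,
      Fintype.sum_sum_type]
    have a3 : ∑ a, (B.sum B').sing z (g, a) = ∑ a, B.sing z (g, a) + ∑ a, B'.sing z (g, a) :=
      Finset.sum_add_distrib
    rw [a3, add_add_add_comm]
    exact congrArg₂ (· + ·) a1 a2

end Base

theorem card_sigma_fiber {C : Type} [Fintype C] [DecidableEq C] (N : C → ℕ) (c : C) :
    (univ.filter (fun m : (Σ c : C, Fin (N c)) => m.1 = c)).card = N c := by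
  rw [Finset.card_filter, Fintype.sum_sigma, Finset.sum_eq_single c]
  · simp
  · intro c' _ hc
    simp [hc]
  · simp

theorem VV_dec (p : PT k n) (μ : VB k n →₀ ℕ) (h : VV p μ) :
    ∃ (M U : Type) (_ : Fintype M) (_ : DecidableEq M) (_ : Fintype U) (_ : DecidableEq U)
      (B : Base k n M U) (α : B.Lbl), μ = B.expo α := by
  have hpos : ∀ u : (Σ zv : Fin n × PV k, Fin (μ (Sum.inr (zv.1, Sum.inr zv.2)))),
      μ (Sum.inr (u.1.1, Sum.inr u.1.2)) ≠ 0 := fun u => Nat.ne_of_gt (Fin.pos u.2)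
  let B : Base k n (Σ c : Core k, Fin (μ (Sum.inl c)))
      (Σ zv : Fin n × PV k, Fin (μ (Sum.inr (zv.1, Sum.inr zv.2)))) :=
    { ty := fun m => tyOf m.1
      col := fun u => u.1.1
      pd := fun u => u.1.2.1
      sing := fun z s => μ (Sum.inr (z, Sum.inl s)) }
  let α : B.Lbl :=
    (fun q => (q.1.1.1.2 q.1.2).get
        (Option.isSome_iff_ne_none.mpr (Finset.mem_filter.mp q.2).2),
      fun q => (q.1.1.1.2.2 q.1.2).get
        (Option.isSome_iff_ne_none.mpr ((h.2.1 _ _ (hpos q.1.1) q.1.2).mpr q.2)))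
  have hc : ∀ m, B.core α.1 m = m.1 := by
    intro m
    refine Prod.ext rfl (funext fun ek => ?_)
    show (if hh : ek ∈ (B.ty m).2 then some (α.1 ⟨(m, ek), hh⟩) else none) = m.1.2 ek
    split_ifs with hh
    · exact Option.some_get _
    · by_contra hne
      exact hh (Finset.mem_filter.mpr ⟨Finset.mem_univ _, fun h0 => hne h0.symm⟩)
  have hv : ∀ u, B.pv α.2 u = u.1.2 := by
    intro u
    refine Prod.ext rfl (funext fun b => ?_)
    show (if hh : (B.pd u).actv b then some (α.2 ⟨(u, b), hh⟩) else none) = u.1.2.2 b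
    split_ifs with hh
    · exact Option.some_get _
    · by_contra hne
      exact hh ((h.2.1 _ _ (hpos u) b).mp (fun h0 => hne h0.symm))
  refine ⟨_, _, inferInstance, inferInstance, inferInstance, inferInstance, B, α, ?_⟩
  ext x
  rcases x with c | ⟨z, s | v⟩
  · rw [Base.expo_core]
    simp only [hc]
    exact (card_sigma_fiber (fun c => μ (Sum.inl c)) c).symm
  · rw [Base.expo_single]
  · rw [Base.expo_piece]
    simp only [hv]
    rw [← card_sigma_fiber (fun zv : Fin n × PV k => μ (Sum.inr (zv.1, Sum.inr zv.2))) (z, v)]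
    congr 1
    exact Finset.filter_congr (fun u _ => Prod.ext_iff)

theorem VV_Bal (p : PT k n) (μ : VB k n →₀ ℕ) (h : VV p μ) : Bal cellsV msV (2 * wB k) μ := by
  refine ⟨h.2.2.2, fun g => ?_⟩
  obtain ⟨M, U, _, _, _, _, B, α, rfl⟩ := VV_dec p μ h
  obtain ⟨hT, ⟨φ⟩, -⟩ := (B.VV_expo p α).mp h
  have a1 : ∑ z, cntP cellsV (B.expo α) z g ≤
      ((univ.filter (fun u => (B.pd u).1 = g.1)) ×ˢ (univ : Finset Bool)).card := by
    rw [Finset.card_eq_sum_card_fiberwise (f := fun q : U × Bool => B.col q.1) (t := univ)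
      (fun _ _ => Finset.mem_univ _)]
    refine Finset.sum_le_sum (fun z _ => ?_)
    rw [Base.cntP_expo]
    refine Finset.card_le_card (fun q hq => ?_)
    obtain ⟨b1, b2, -⟩ := (Finset.mem_filter.mp hq).2
    exact Finset.mem_filter.mpr ⟨Finset.mem_product.mpr
      ⟨Finset.mem_filter.mpr ⟨Finset.mem_univ _, b2⟩, Finset.mem_univ _⟩, b1⟩
  have a2 : (univ.filter (fun u => (B.pd u).1 = g.1)).card ≤
      ((univ.filter (fun m => (B.ty m).1 = g.1)).sigma (fun m => (B.ty m).2)).card := by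
    refine Finset.card_le_card_of_injOn
      (fun u => ⟨(φ.1 ⟨(u, false), Or.inl rfl⟩).1.1, (φ.1 ⟨(u, false), Or.inl rfl⟩).1.2⟩) ?_ ?_
    · intro u hu
      have b1 : (B.pd u).1 = g.1 := (Finset.mem_filter.mp (Finset.mem_coe.mp hu)).2
      have b2 := congrArg (fun w => w.1.1) (φ.2 ⟨(u, false), Or.inl rfl⟩)
      exact Finset.mem_coe.mpr (Finset.mem_sigma.mpr
        ⟨Finset.mem_filter.mpr ⟨Finset.mem_univ _, b2.trans b1⟩, (φ.1 ⟨(u, false), Or.inl rfl⟩).2⟩)
    · intro u _ u' _ huu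
      have b1 : φ.1 ⟨(u, false), Or.inl rfl⟩ = φ.1 ⟨(u', false), Or.inl rfl⟩ :=
        Subtype.ext (Prod.ext (congrArg Sigma.fst huu)
          (congrArg (fun w : (Σ _ : M, EK k) => w.2) huu))
      exact congrArg (fun w => w.1.1) (φ.1.injective b1)
  have a3 : ((univ.filter (fun m => (B.ty m).1 = g.1)).sigma (fun m => (B.ty m).2)).card ≤
      (univ.filter (fun m => (B.ty m).1 = g.1)).card * wB k := by
    rw [Finset.card_sigma, ← smul_eq_mul]
    exact Finset.sum_le_card_nsmul _ _ _ (fun m _ => (hT m).1)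
  rw [Finset.card_product, Finset.card_univ, Fintype.card_bool] at a1
  rw [Base.msz_expo]
  calc _ ≤ (univ.filter (fun u => (B.pd u).1 = g.1)).card * 2 := a1
    _ ≤ (univ.filter (fun m => (B.ty m).1 = g.1)).card * wB k * 2 :=
        Nat.mul_le_mul_right 2 (le_trans a2 a3)
    _ = _ := by ring

end Pool.Agent.Lib.MP_595dc0_ag.Dk
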