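import Mathlib
import Pool.Agent.Lib.MP_595dc0_ag.DkL3a
import Pool.Agent.Lib.MP_595dc0_ag.DkL2a
import Pool.Agent.Lib.MP_595dc0_ag.DkL2c

set_option autoImplicit false

namespace Pool.Agent.Lib.MP_595dc0_ag.Dk

open Equiv Finset MvPolynomial

namespace Base

variable {k n : ℕ} {M U M' U' : Type} [Fintype M] [DecidableEq M] [Fintype U] [DecidableEq U]
  [Fintype M'] [DecidableEq M'] [Fintype U'] [DecidableEq U']

variable {p : PT k n} {B : Base k n M U} {c : Cfg k n M U}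

theorem Rz.actv {φ : B.Ends ≃ B.Slots} (h : B.Rz φ c) (q : U × Bool) :
    c.actv q ↔ (B.pd q.1).actv q.2 := by
  simp only [Cfg.actv, Cfg.unit, PD.actv, h.role]

theorem Rz.l3b_slot {φ : B.Match p} (h : B.Rz φ.1 c) (q : B.Ends) :
    (φ.1 q).1 = (c.mo q.1.1 q.1.2,
      (pos p (c.col q.1.1), c.role q.1.1 false, c.role q.1.1 true)) ∧
    B.ty (c.mo q.1.1 q.1.2) = ((B.pd q.1.1).1, (B.pd q.1.1).2.2.2 q.1.2) := by
  have h1 := φ.2 q
  simp only [kS, kE, PD.kind, Prod.mk.injEq] at h1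
  rw [h.mo q, h.col, h.role]
  exact ⟨Prod.ext rfl h1.2, h1.1⟩

theorem Rz.pd_cls {φ : B.Match p} (h : B.Rz φ.1 c) (hc : c.Valid) (u : U) (b : Bool) :
    (B.pd u).1 = (c.f (c.mo u b)).cls := by
  have h1 : (B.pd u).1 = (c.f (c.mo u false)).cls := by
    rw [h.cls, (h.l3b_slot ⟨(u, false), Or.inl rfl⟩).2]
  cases b
  · exact h1
  · rw [h1, hc.cls]

theorem Rz.slot {φ : B.Match p} (h : B.Rz φ.1 c) (q : B.Ends) :
    (φ.1 q).1 = (c.mo q.1.1 q.1.2,
      (pos p (c.col q.1.1), c.role q.1.1 false, c.role q.1.1 true)) ∧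
    B.ty (c.mo q.1.1 q.1.2) = ((B.pd q.1.1).1, (B.pd q.1.1).2.2.2 q.1.2) := h.l3b_slot q

/-- The events of a molecule correspond to the signatures of its type. -/
theorem Rz.bijOn {φ : B.Match p} (h : B.Rz φ.1 c) (m : M) :
    Set.BijOn (fun q : U × Bool => ((pos p (c.col q.1), c.role q.1 false, c.role q.1 true) : EK k))
      (c.evs m) (B.ty m).2 := by
  refine ⟨fun q hq => ?_, fun q hq q' hq' e => ?_, fun ek hek => ?_⟩
  · obtain ⟨h1, h2⟩ := (Finset.mem_filter.1 hq).2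
    have h3 := (φ.1 ⟨q, (h.actv q).1 h1⟩).2
    rw [(h.slot ⟨q, (h.actv q).1 h1⟩).1] at h3
    rw [← h2]
    exact h3
  · obtain ⟨h1, h2⟩ := (Finset.mem_filter.1 hq).2
    obtain ⟨h1', h2'⟩ := (Finset.mem_filter.1 hq').2
    have h3 : φ.1 ⟨q, (h.actv q).1 h1⟩ = φ.1 ⟨q', (h.actv q').1 h1'⟩ := by
      refine Subtype.ext ?_
      rw [(h.slot _).1, (h.slot _).1]
      exact Prod.ext (h2.trans h2'.symm) e
    exact congrArg Subtype.val (φ.1.injective h3)
  · have h1 := (h.slot (φ.1.symm ⟨(m, ek), hek⟩)).1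
    rw [Equiv.apply_symm_apply] at h1
    refine ⟨(φ.1.symm ⟨(m, ek), hek⟩).1, ?_, (congrArg Prod.snd h1).symm⟩
    exact Finset.mem_filter.2 ⟨Finset.mem_univ _, (h.actv _).2 (φ.1.symm ⟨(m, ek), hek⟩).2,
      (congrArg Prod.fst h1).symm⟩

theorem Rz.good {φ : B.Match p} (h : B.Rz φ.1 c) (hB : B.BV p) : c.Good := by
  intro m
  exact (Finset.card_le_card_of_injOn _ (h.bijOn m).mapsTo (h.bijOn m).injOn).trans (hB.1 m).1

theorem Rz.pierced {φ : B.Match p} (h : B.Rz φ.1 c) (hB : B.BV p) : c.Pierced p := by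
  intro m e he e' he' hne hle
  by_cases hp : pos p (c.col e.1) = pos p (c.col e'.1)
  · have h1 := ((hB.1 m).2.1 _ ((h.bijOn m).mapsTo he) _ ((h.bijOn m).mapsTo he')
      (fun q => hne ((h.bijOn m).injOn he he' q)) hp).1
    obtain ⟨s, hs⟩ := odd_pierce p _ h1
    exact ⟨s, hs.ge, hs.le.trans hle⟩
  · exact pos_ne_pierce p _ _ hp hle

theorem Rz.tt {φ : B.Ends ≃ B.Slots} (h : B.Rz φ c) : c.tt = B.tb := by
  rw [Cfg.tt_eq_sum_sing, h.sing]
  rfl

theorem Rz.l3b_card {φ : B.Match p} (h : B.Rz φ.1 c) (m : M) (P : U × Bool → Prop)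
    [DecidablePred P] (Q : EK k → Prop) [DecidablePred Q]
    (hPQ : ∀ q ∈ c.evs m, P q ↔ Q (pos p (c.col q.1), c.role q.1 false, c.role q.1 true)) :
    ((c.evs m).filter P).card = ((B.ty m).2.filter Q).card := by
  refine Finset.card_bij
    (fun q _ => ((pos p (c.col q.1), c.role q.1 false, c.role q.1 true) : EK k))
    (fun q hq => ?_) (fun q hq q' hq' e => ?_) (fun ek hek => ?_)
  · obtain ⟨h1, h2⟩ := Finset.mem_filter.1 hq
    exact Finset.mem_filter.2 ⟨(h.bijOn m).mapsTo h1, (hPQ q h1).1 h2⟩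
  · exact (h.bijOn m).injOn (Finset.mem_filter.1 hq).1 (Finset.mem_filter.1 hq').1 e
  · obtain ⟨h1, h2⟩ := Finset.mem_filter.1 hek
    obtain ⟨q, hq, e⟩ := (h.bijOn m).surjOn h1
    refine ⟨q, Finset.mem_filter.2 ⟨hq, (hPQ q hq).2 ?_⟩, e⟩
    rw [← e] at h2
    exact h2

theorem Rz.l3b_hz {φ : B.Match p} (h : B.Rz φ.1 c) (m : M) (x : Fin n) :
    c.hz m x = Hh (B.ty m).2 (pos p x) +
      ((c.evs m).filter (fun q => pos p (c.col q.1) = pos p x ∧ x ≤ c.col q.1)).card := by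
  unfold Cfg.hz Hh
  rw [← h.l3b_card m (fun q => ¬ pos p (c.col q.1) = pos p x ∧ x ≤ c.col q.1) _
    (fun q _ => and_congr_right fun hq => (above_iff p x _ hq).symm),
    ← Finset.card_filter_add_card_filter_not (fun q : U × Bool => pos p (c.col q.1) = pos p x),
    Finset.filter_filter, Finset.filter_filter, add_comm]
  simp only [and_comm]

theorem Rz.pw {φ : B.Match p} (h : B.Rz φ.1 c) (hB : B.BV p) (α : B.Lbl) :
    pwM p (B.expo α) = c.pw := by
  refine Prod.ext ?_ (Prod.ext ?_ ?_)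
  · have h1 := B.sum_expo_core α (fun _ => 1)
    simpa [pwM, Cfg.pw] using h1
  · show ∑ z, ∑ s, B.expo α (Sum.inr (z, Sum.inl s)) = c.tt
    simp only [expo_single]
    exact h.tt.symm
  funext x
  show ∑ cc, B.expo α (Sum.inl cc) * wC (tyOf cc).2 (pos p x) +
      ∑ z, ∑ v, B.expo α (Sum.inr (z, Sum.inr v)) * wP p z v.1 x = ∑ m, c.hz m x ^ 2
  have e1 : ∑ z, ∑ v, B.expo α (Sum.inr (z, Sum.inr v)) * wP p z v.1 x =
      ∑ u, wP p (B.col u) (B.pd u) x := by
    rw [← Finset.sum_fiberwise univ B.col]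
    refine Finset.sum_congr rfl fun z _ => ?_
    rw [B.sum_expo_piece α z (fun v => wP p z v.1 x)]
    refine Finset.sum_congr rfl fun u hu => ?_
    rw [(Finset.mem_filter.1 hu).2]
    rfl
  rw [B.sum_expo_core α (fun cc => wC (tyOf cc).2 (pos p x)), e1]
  simp only [tyOf_core, h.l3b_hz]
  by_cases ho : oddP (pos p x)
  · have e2 : ∑ u, wP p (B.col u) (B.pd u) x = 0 := by simp [wP, ho]
    rw [e2, add_zero]
    refine Finset.sum_congr rfl fun m _ => ?_
    rw [wC, if_pos ho, h.l3b_card m _ (fun ek => ek.1 = pos p x) fun q _ =>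
      ⟨fun hq => hq.1, fun hq => ⟨hq, (pos_odd_eq p x _ hq.symm ho).le⟩⟩]
  · have e2 : ∑ u, wP p (B.col u) (B.pd u) x = ∑ m, ∑ q ∈ (c.evs m).filter
        (fun q => pos p (c.col q.1) = pos p x ∧ x ≤ c.col q.1),
          (2 * Hh (B.ty m).2 (pos p x) + 1) := by
      unfold wP
      rw [← Fintype.sum_prod_type', ← Finset.sum_fiberwise univ (fun q : U × Bool => c.mo q.1 q.2)]
      refine Finset.sum_congr rfl fun m _ => ?_
      rw [Cfg.evs, Finset.filter_filter, Finset.sum_filter, Finset.sum_filter]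
      refine Finset.sum_congr rfl fun q _ => ?_
      by_cases h1 : c.mo q.1 q.2 = m
      · by_cases h2 : c.actv q
        · have h3 := (h.slot ⟨q, (h.actv q).1 h2⟩).2
          simp only [h1] at h3
          simp only [h1, h2, (h.actv q).1 h2, ho, h3, h.col, true_and, not_false_eq_true,
            if_true]
        · have h3 : ¬ (B.pd q.1).actv q.2 := fun e => h2 ((h.actv q).2 e)
          simp [h2, h3]
      · simp [h1]
    rw [e2, ← Finset.sum_add_distrib]
    refine Finset.sum_congr rfl fun m _ => ?_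
    rw [wC, if_neg ho, Finset.sum_const, smul_eq_mul]
    have h4 : ((c.evs m).filter
        (fun q => pos p (c.col q.1) = pos p x ∧ x ≤ c.col q.1)).card ≤ 1 := by
      refine Finset.card_le_one.2 fun q hq q' hq' => ?_
      obtain ⟨h1, h2, -⟩ := Finset.mem_filter.1 hq
      obtain ⟨h1', h2', -⟩ := Finset.mem_filter.1 hq'
      by_contra hne
      have h5 := ((hB.1 m).2.1 _ ((h.bijOn m).mapsTo h1) _ ((h.bijOn m).mapsTo h1')
        (fun e => hne ((h.bijOn m).injOn h1 h1' e)) (h2.trans h2'.symm)).1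
      exact ho (h2 ▸ h5)
    rcases Nat.le_one_iff_eq_zero_or_eq_one.1 h4 with e | e
    · rw [e]
      ring
    · rw [e]
      ring

theorem Rz.uniq {φ : B.Ends ≃ B.Slots} {c' : Cfg k n M U} (h : B.Rz φ c) (h' : B.Rz φ c')
    (hc : c.Valid) (hc' : c'.Valid) : c.tau - c'.tau ∈ Low k n (Fintype.card M) B.tb := by
  have h2 : c.col = c'.col := h.col.trans h'.col.symm
  have h3 : c.role = c'.role := funext fun u => (h.role u).trans (h'.role u).symm
  obtain ⟨h4, h5⟩ := hc.f_eq hc' (fun m => (h.cls m).trans (h'.cls m).symm) h2 h3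
    (fun q hq => (h.mo ⟨q, (h.actv q).1 hq⟩).trans (h'.mo ⟨q, (h.actv q).1 hq⟩).symm)
  have e : c.setx c'.x = c' := by
    cases c
    cases c'
    simp only [Cfg.setx] at *
    simp only [h2, h3, h4, h5]
  have h6 := c.uniq hc c'.x (fun u b => by
    rw [h.lett, ← h'.lett, h2, Cfg.rw, Cfg.rw, h3, h5]) (by rw [e, h'.sing, h.sing])
  rwa [e, h.tt] at h6

theorem Rz.sum {B' : Base k n M' U'} {c' : Cfg k n M' U'} {φ : B.Match p} {φ' : B'.Match p}
    (h : B.Rz φ.1 c) (h' : B'.Rz φ'.1 c') : (B.sum B').Rz (sumM p B B' φ φ').1 (c.sum c') := by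
  refine ⟨?_, ?_, ?_, ?_, ?_, ?_⟩
  · rintro (m | m)
    · exact h.cls m
    · exact h'.cls m
  · show Sum.elim c.col c'.col = Sum.elim B.col B'.col
    rw [h.col, h'.col]
  · rintro (u | u)
    · exact h.role u
    · exact h'.role u
  · rintro (u | u) b
    · exact h.lett u b
    · exact h'.lett u b
  · rintro ⟨⟨u | u, b⟩, hq⟩
    · exact congrArg Sum.inl (h.mo ⟨(u, b), hq⟩)
    · exact congrArg Sum.inr (h'.mo ⟨(u, b), hq⟩)
  · rw [Cfg.sum_sing, h.sing, h'.sing]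
    rfl

end Base

end Pool.Agent.Lib.MP_595dc0_ag.Dk
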