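import Mathlib
import Pool.Agent.Lib.MP_595dc0_ag.DkL3a
import Pool.Agent.Lib.MP_595dc0_ag.DkL2b

set_option autoImplicit false

namespace Pool.Agent.Lib.MP_595dc0_ag.Dk

open Equiv Finset MvPolynomial

namespace DkL3cAux

variable {k n : ℕ} {M U : Type} {p : PT k n} {B : Base k n M U}

theorem swap_eq {α : Type} [DecidableEq α] {a b c d : α} (hab : a ≠ b)
    (h : swap a b = swap c d) : (a, b) = (c, d) ∨ (a, b) = (d, c) := by
  have h1 : b = swap c d a := by rw [← h, swap_apply_left]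
  by_cases hc : a = c
  · rw [hc, swap_apply_left] at h1
    exact Or.inl (Prod.ext hc h1)
  · by_cases hd : a = d
    · rw [hd, swap_apply_right] at h1
      exact Or.inr (Prod.ext hd h1)
    · rw [swap_apply_of_ne_of_ne hc hd] at h1
      exact absurd h1.symm hab

/-- The active end that carries a cell. -/
def en (B : Base k n M U) (u : U) (b : Bool) : B.Ends :=
  if h : (B.pd u).actv b then ⟨(u, b), h⟩ else ⟨(u, false), Or.inl rfl⟩

/-- The signature of a piece. -/
def sg (p : PT k n) (B : Base k n M U) (u : U) : EK k :=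
  (pos p (B.col u), (B.pd u).2.1 false, (B.pd u).2.1 true)

/-- The molecule of a cell. -/
def mo (φ : B.Match p) (u : U) (b : Bool) : M := (φ.1 (en B u b)).1.1

open Classical in
/-- The skeletons. -/
noncomputable def sk (φ : B.Match p) (m : M) : Sk k n :=
  ⟨(B.ty m).1, fun z =>
    if h : ∃ u, (B.pd u).2.1 false ≠ (B.pd u).2.1 true ∧ B.col u = z ∧ mo φ u false = m then
      swap ((B.pd h.choose).2.1 false) ((B.pd h.choose).2.1 true) else 1⟩

/-- The configuration with default letters. -/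
noncomputable def cf (φ : B.Match p) : Cfg k n M U :=
  ⟨sk φ, fun _ r => r.2, B.col, fun u => (B.pd u).2.1, mo φ⟩

theorem en_fst (u : U) (b : Bool) : (en B u b).1.1 = u := by
  unfold en
  split_ifs <;> rfl

theorem en_end (q : B.Ends) : en B q.1.1 q.1.2 = q := dif_pos q.2

theorem en_sep {u : U} (h : (B.pd u).2.1 false ≠ (B.pd u).2.1 true) :
    en B u true = en B u false := by
  rw [en, dif_neg (by rintro (h' | h'); exacts [Bool.noConfusion h', h h'])]
  exact (en_end (B := B) ⟨(u, false), Or.inl rfl⟩).symm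

theorem phi_sg (φ : B.Match p) (q : B.Ends) : (φ.1 q).1.2 = sg p B q.1.1 :=
  congrArg Prod.snd (φ.2 q)

theorem sg_mem (φ : B.Match p) (q : B.Ends) : sg p B q.1.1 ∈ (B.ty (φ.1 q).1.1).2 :=
  phi_sg φ q ▸ (φ.1 q).2

theorem ty_mo (φ : B.Match p) (u : U) (b : Bool) : (B.ty (mo φ u b)).1 = (B.pd u).1 := by
  have := congrArg (fun t => t.1.1) (φ.2 (en B u b))
  simp only [Base.kS, Base.kE, PD.kind, en_fst] at this
  exact this

theorem clash (hB : ∀ m, TyOK (B.ty m)) (φ : B.Match p) {q q' : B.Ends} (hne : q ≠ q')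
    (hm : (φ.1 q).1.1 = (φ.1 q').1.1) (hc : B.col q.1.1 = B.col q'.1.1) :
    (∀ b b', (B.pd q.1.1).2.1 b ≠ (B.pd q'.1.1).2.1 b') ∧
      ((B.pd q.1.1).2.1 false = (B.pd q.1.1).2.1 true ∨
        (B.pd q'.1.1).2.1 false = (B.pd q'.1.1).2.1 true) := by
  obtain ⟨-, ⟨h1, h2, h3, h4⟩, h5⟩ := (hB (φ.1 q).1.1).2.1 _ (sg_mem φ q) (sg p B q'.1.1)
    (hm ▸ sg_mem φ q')
    (fun h => hne (φ.1.injective (Subtype.ext (Prod.ext hm (by rw [phi_sg, phi_sg, h])))))
    (congrArg (pos p) hc)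
  refine ⟨fun b b' => ?_, h5⟩
  cases b <;> cases b'
  exacts [h1, h2, h3, h4]

theorem sep_uniq (hB : ∀ m, TyOK (B.ty m)) (φ : B.Match p) {u u' : U}
    (h : (B.pd u).2.1 false ≠ (B.pd u).2.1 true) (h' : (B.pd u').2.1 false ≠ (B.pd u').2.1 true)
    (hc : B.col u = B.col u') (hm : mo φ u false = mo φ u' false) : u = u' := by
  by_contra hne
  have := (clash hB φ (q := en B u false) (q' := en B u' false)
    (fun h => hne (by rw [← en_fst (B := B) u false, h, en_fst])) hm
    (by rw [en_fst, en_fst, hc])).2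
  rw [en_fst, en_fst] at this
  exact this.elim h h'

theorem sep_eq (hB : ∀ m, TyOK (B.ty m)) (φ : B.Match p) {u : U}
    (h : (B.pd u).2.1 false ≠ (B.pd u).2.1 true) :
    (sk φ (mo φ u false)).sep (B.col u) = swap ((B.pd u).2.1 false) ((B.pd u).2.1 true) := by
  have hex : ∃ u', (B.pd u').2.1 false ≠ (B.pd u').2.1 true ∧ B.col u' = B.col u ∧
    mo φ u' false = mo φ u false := ⟨u, h, rfl, rfl⟩
  have h1 := hex.choose_spec
  simp only [sk]
  rw [dif_pos hex, sep_uniq hB φ h1.1 h h1.2.1 h1.2.2]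

theorem sep_surj (φ : B.Match p) {m : M} {z : Fin n} (h : (sk φ m).sep z ≠ 1) :
    ∃ u, (B.pd u).2.1 false ≠ (B.pd u).2.1 true ∧ B.col u = z ∧ mo φ u false = m := by
  by_contra hc
  exact h (dif_neg hc)

theorem slot_sep (φ : B.Match p) (t : B.Slots) (h : t.1.2.2.1 ≠ t.1.2.2.2) :
    sg p B (φ.1.symm t).1.1 = t.1.2 ∧ mo φ (φ.1.symm t).1.1 false = t.1.1 := by
  have h1 : sg p B (φ.1.symm t).1.1 = t.1.2 := by rw [← phi_sg φ, apply_symm_apply]
  refine ⟨h1, ?_⟩
  have h2 : (φ.1.symm t).1.2 = false := (φ.1.symm t).2.resolve_right fun h' => h (by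
    rw [← h1]; exact h')
  rw [mo, ← h2, en_end, apply_symm_apply]

theorem sk_valid (hB : ∀ m, TyOK (B.ty m)) (φ : B.Match p) (m : M) : (sk φ m).Valid := by
  refine ⟨fun z => ?_, fun c c' hne hc hc' => ?_⟩
  · by_cases h : (sk φ m).sep z = 1
    · exact Or.inl h
    · obtain ⟨u, hu, rfl, rfl⟩ := sep_surj φ h
      have h1 := sg_mem φ (en B u false)
      rw [en_fst] at h1
      have h2 := (hB _).2.2.1 _ h1 hu
      exact Or.inr ⟨_, _, hu, h2.1, h2.2, sep_eq hB φ hu⟩
  · refine Eq.trans ?_ ((hB m).2.2.2 c c' hne hc hc')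
    have hs : ∀ ek ∈ (B.ty m).2.filter (fun ek => ek.2 = (c, c') ∨ ek.2 = (c', c)),
        ek.2.1 ≠ ek.2.2 := fun ek hek => by
      rcases (mem_filter.1 hek).2 with h | h <;> rw [h]
      exacts [hne, hne.symm]
    refine (card_bij (fun ek hek => B.col (φ.1.symm ⟨(m, ek), (mem_filter.1 hek).1⟩).1.1)
      (fun ek hek => ?_) (fun ek hek ek' hek' h => ?_) fun z hz => ?_).symm
    · obtain ⟨h1, h2⟩ := slot_sep φ ⟨(m, ek), (mem_filter.1 hek).1⟩ (hs ek hek)
      have h3 := sep_eq hB φ (u := (φ.1.symm ⟨(m, ek), (mem_filter.1 hek).1⟩).1.1)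
        fun h => hs ek hek (by have := h1; simp only at this; rw [← this]; exact h)
      rw [h2] at h3
      refine mem_filter.2 ⟨mem_univ _, h3.trans ?_⟩
      have h4 := congrArg (fun t => swap t.2.1 t.2.2) h1
      refine h4.trans ?_
      rcases (mem_filter.1 hek).2 with h | h <;> simp only [h]
      exact swap_comm _ _
    · obtain ⟨h1, h2⟩ := slot_sep φ ⟨(m, ek), (mem_filter.1 hek).1⟩ (hs ek hek)
      obtain ⟨h1', h2'⟩ := slot_sep φ ⟨(m, ek'), (mem_filter.1 hek').1⟩ (hs ek' hek')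
      have h3 := sep_uniq hB φ
        (fun h => hs ek hek (by have := h1; simp only at this; rw [← this]; exact h))
        (fun h => hs ek' hek' (by have := h1'; simp only at this; rw [← this]; exact h))
        h (h2.trans h2'.symm)
      exact h1.symm.trans ((congrArg (sg p B) h3).trans h1')
    · have h1 := (mem_filter.1 hz).2
      obtain ⟨u, hu, rfl, rfl⟩ := sep_surj φ (m := m) (z := z) (by
        rw [h1]; exact swap_eq_one_iff.not.2 hne)
      have h2 := sg_mem φ (en B u false)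
      have h3 := phi_sg φ (en B u false)
      rw [en_fst] at h2 h3
      rw [sep_eq hB φ hu] at h1
      refine ⟨sg p B u, mem_filter.2 ⟨h2, swap_eq hu h1⟩, ?_⟩
      rw [φ.1.symm_apply_eq.2 (Subtype.ext (Prod.ext rfl h3.symm) :
        (⟨(mo φ u false, sg p B u), h2⟩ : B.Slots) = φ.1 (en B u false)), en_fst]

theorem cf_valid (hB : ∀ m, TyOK (B.ty m)) (φ : B.Match p) : (cf φ).Valid := by
  refine ⟨sk_valid hB φ, ?_, fun u hu => ⟨congrArg (fun q => (φ.1 q).1.1) (en_sep hu).symm,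
    sep_eq hB φ hu⟩, fun u => (ty_mo φ u false).trans (ty_mo φ u true).symm,
    fun m z h => sep_surj φ h⟩
  rintro ⟨u, b⟩ ⟨u', b'⟩ h
  have h1 : B.col u = B.col u' := congrArg Prod.fst h
  have h2 : mo φ u b = mo φ u' b' := congrArg (fun t => t.2.1) h
  have h3 : (B.pd u).2.1 b = (B.pd u').2.1 b' := congrArg (fun t => t.2.2) h
  by_cases he : en B u b = en B u' b'
  · obtain rfl : u = u' := by rw [← en_fst (B := B) u b, he, en_fst]
    by_contra hne
    have h4 : (B.pd u).2.1 false = (B.pd u).2.1 true := by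
      cases b <;> cases b'
      exacts [absurd rfl hne, h3, h3.symm, absurd rfl hne]
    exact hne (congrArg Subtype.val ((en_end (B := B) ⟨(u, b), Or.inr h4⟩).symm.trans
      (he.trans (en_end (B := B) ⟨(u, b'), Or.inr h4⟩))))
  · have := (clash hB φ he h2 (by rw [en_fst, en_fst, h1])).1 b b'
    rw [en_fst, en_fst] at this
    exact absurd h3 this

end DkL3cAux

open DkL3cAux

variable {k n : ℕ} {M U : Type} [Fintype M] [DecidableEq M] [Fintype U] [DecidableEq U]

/-- A function with prescribed fibre sizes. -/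
theorem exists_fun_card {α β : Type} [DecidableEq α] [Fintype β] [DecidableEq β] (S : Finset α)
    (cnt : β → ℕ) (h : ∑ b, cnt b = S.card) (x₀ : α → β) :
    ∃ x : α → β, ∀ b, (S.filter (fun a => x a = b)).card = cnt b := by
  have e : S ≃ Σ b, Fin (cnt b) := Fintype.equivOfCardEq (by simp [h])
  refine ⟨fun a => if h : a ∈ S then (e ⟨a, h⟩).1 else x₀ a, fun b => ?_⟩
  refine Eq.trans ?_ (card_fin (cnt b))
  refine (card_bij (fun i _ => (e.symm ⟨b, i⟩).1) (fun i _ => ?_) (fun i _ j _ hij => ?_)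
    fun a ha => ?_).symm
  · refine mem_filter.2 ⟨(e.symm ⟨b, i⟩).2, ?_⟩
    simp
  · exact sigma_mk_injective (β := fun b => Fin (cnt b)) (e.symm.injective (Subtype.ext hij))
  · obtain ⟨h1, h2⟩ := mem_filter.1 ha
    simp only [dif_pos h1] at h2
    subst h2
    exact ⟨(e ⟨a, h1⟩).2, mem_univ _, by simp⟩

theorem Base.fill {p : PT k n} {B : Base k n M U} (hB : B.BV p) (φ : B.Match p) :
    ∃ c : Cfg k n M U, c.Valid ∧ B.Rz φ.1 c := by
  classical
  have hv := cf_valid hB.1 φ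
  have hcard : ∀ (z : Fin n) (g : Grp k), ∑ a, B.sing z (g, a) = (univ.filter
      fun r : M × Fin k => (cf φ).free (z, r) ∧ (B.ty r.1).1 = g.1 ∧ r.2 = g.2).card := by
    intro z g
    have h1 := hB.2.2 z g
    have h2 : (univ.filter (fun m => (B.ty m).1 = g.1)).card =
        (univ.filter fun r : M × Fin k => (B.ty r.1).1 = g.1 ∧ r.2 = g.2).card := by
      refine card_bij (fun m _ => (m, g.2)) (fun m hm => by simpa using hm)
        (fun m _ m' _ h => congrArg Prod.fst h) fun r hr => ?_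
      obtain ⟨h3, h4⟩ := (mem_filter.1 hr).2
      exact ⟨r.1, by simpa using h3, by rw [← h4]⟩
    have h3 : (univ.filter (fun q : U × Bool =>
        B.col q.1 = z ∧ (B.pd q.1).1 = g.1 ∧ (B.pd q.1).2.1 q.2 = g.2)).card =
        ((univ.filter fun r : M × Fin k => (B.ty r.1).1 = g.1 ∧ r.2 = g.2).filter
          fun r => ¬ (cf φ).free (z, r)).card := by
      refine card_bij (fun q _ => (cf φ).rw q.1 q.2) (fun q hq => ?_) (fun q hq q' hq' h => ?_)
        fun r hr => ?_
      · obtain ⟨h4, h5, h6⟩ := (mem_filter.1 hq).2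
        exact mem_filter.2 ⟨mem_filter.2 ⟨mem_univ _, (ty_mo φ _ _).trans h5, h6⟩,
          fun h => h q (Prod.ext h4 rfl)⟩
      · exact hv.inj (Prod.ext ((mem_filter.1 hq).2.1.trans (mem_filter.1 hq').2.1.symm) h)
      · obtain ⟨h4, h5⟩ := mem_filter.1 hr
        obtain ⟨q, hq⟩ : ∃ q, (cf φ).cell q = (z, r) := by
          by_contra hc
          exact h5 fun q hq => hc ⟨q, hq⟩
        obtain rfl : (cf φ).rw q.1 q.2 = r := congrArg Prod.snd hq
        obtain ⟨h6, h7⟩ := (mem_filter.1 h4).2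
        exact ⟨q, mem_filter.2 ⟨mem_univ _, congrArg Prod.fst hq, (ty_mo φ _ _).symm.trans h6, h7⟩,
          rfl⟩
    have h4 := card_filter_add_card_filter_not
      (s := univ.filter fun r : M × Fin k => (B.ty r.1).1 = g.1 ∧ r.2 = g.2)
      fun r => (cf φ).free (z, r)
    rw [h2, h3, ← h4, add_left_inj, filter_filter] at h1
    rw [h1]
    exact congrArg card (filter_congr fun r _ => and_comm)
  choose y hy using fun (z : Fin n) (g : Grp k) => exists_fun_card _ _ (hcard z g) Prod.snd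
  obtain ⟨x, hx1, hx2⟩ : ∃ x : Fin n × (M × Fin k) → Fin k,
      (∀ q, x ((cf φ).cell q) = (B.pd q.1).2.2.1 q.2) ∧
      ∀ w, (cf φ).free w → x w = y w.1 ((B.ty w.2.1).1, w.2.2) w.2 :=
    ⟨Function.extend (cf φ).cell (fun q => (B.pd q.1).2.2.1 q.2)
      (fun w => y w.1 ((B.ty w.2.1).1, w.2.2) w.2), fun q => hv.inj.extend_apply _ _ q,
      fun w hw => Function.extend_apply' _ _ _ fun ⟨q, hq⟩ => hw q hq⟩
  refine ⟨(cf φ).setx fun z r => x (z, r), ⟨hv.sk, hv.inj, hv.sep, hv.cls, hv.surj⟩,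
    fun m => rfl, rfl, fun u => rfl, fun u b => hx1 (u, b),
    fun q => congrArg (fun q => (φ.1 q).1.1) (en_end q), ?_⟩
  funext z s
  rw [← hy z s.1 s.2, filter_filter, Cfg.sing]
  refine congrArg card (ext fun r => ?_)
  simp only [mem_filter, mem_univ, true_and]
  change (cf φ).free (z, r) ∧ (B.ty r.1).1 = s.1.1 ∧ r.2 = s.1.2 ∧ x (z, r) = s.2 ↔ _
  constructor
  · rintro ⟨h1, h2, h3, h4⟩
    rw [hx2 _ h1] at h4
    simp only [h2, h3] at h4
    exact ⟨⟨h1, h2, h3⟩, h4⟩
  · rintro ⟨⟨h1, h2, h3⟩, h4⟩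
    refine ⟨h1, h2, h3, ?_⟩
    rw [hx2 _ h1]
    simp only [h2, h3]
    exact h4

end Pool.Agent.Lib.MP_595dc0_ag.Dk
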