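import Mathlib
import Pool.Agent.Lib.MP_595dc0_ag.DkL3a
import Pool.Agent.Lib.MP_595dc0_ag.DkL2b

set_option autoImplicit false

namespace Pool.Agent.Lib.MP_595dc0_ag.Dk

open Equiv Finset MvPolynomial

variable {k n : ℕ} {M U : Type} [Fintype M] [DecidableEq M] [Fintype U] [DecidableEq U]

namespace L3dAux

/-- The signature of an end. -/
def sig (p : PT k n) (c : Cfg k n M U) (q : U × Bool) : EK k :=
  (pos p (c.col q.1), c.role q.1 false, c.role q.1 true)

/-- The base of a configuration. -/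
noncomputable def base (p : PT k n) (c : Cfg k n M U) : Base k n M U where
  ty := fun m => ((c.f m).cls, (c.evs m).image (sig p c))
  col := c.col
  pd := fun u => ((c.f (c.mo u false)).cls, c.role u, fun b => c.x (c.col u) (c.rw u b),
    fun b => (c.evs (c.mo u b)).image (sig p c))
  sing := c.sing

omit [Fintype M] [DecidableEq U] in
theorem mem_evs {c : Cfg k n M U} {m : M} {e : U × Bool} :
    e ∈ c.evs m ↔ c.actv e ∧ c.mo e.1 e.2 = m := by
  simp [Cfg.evs]

omit [Fintype M] [DecidableEq U] in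
theorem sep_of {c : Cfg k n M U} (hc : c.Valid) {m : M} {e : U × Bool} (he : e ∈ c.evs m)
    (hu : ¬ c.unit e.1) : e.2 = false ∧ (∀ b, c.mo e.1 b = m) ∧
      (c.f m).sep (c.col e.1) = swap (c.role e.1 false) (c.role e.1 true) := by
  obtain ⟨h1, h2⟩ := mem_evs.mp he
  have h3 : e.2 = false := h1.resolve_right hu
  rw [h3] at h2
  obtain ⟨h4, h5⟩ := hc.sep e.1 hu
  refine ⟨h3, fun b => ?_, h2 ▸ h5⟩
  cases b
  · exact h2
  · exact h4 ▸ h2

omit [Fintype M] [DecidableEq U] in
theorem cell_of {c : Cfg k n M U} (hc : c.Valid) {m : M} {e : U × Bool} (he : e ∈ c.evs m)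
    (β : Bool) : ∃ b, c.cell (e.1, b) = (c.col e.1, (m, c.role e.1 β)) ∧ (c.unit e.1 → b = e.2) := by
  by_cases hu : c.unit e.1
  · refine ⟨e.2, ?_, fun _ => rfl⟩
    have h2 := (mem_evs.mp he).2
    have h3 : ∀ b, c.role e.1 b = c.role e.1 false := fun b => by
      cases b
      · rfl
      · exact hu.symm
    simp only [Cfg.cell, Cfg.rw, h2, h3 e.2, h3 β]
  · refine ⟨β, ?_, fun h => absurd h hu⟩
    simp only [Cfg.cell, Cfg.rw, (sep_of hc he hu).2.1 β]

omit [Fintype M] [DecidableEq U] in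
theorem disj {c : Cfg k n M U} (hc : c.Valid) {m : M} {e e' : U × Bool} (he : e ∈ c.evs m)
    (he' : e' ∈ c.evs m) (hne : e ≠ e') (hcol : c.col e.1 = c.col e'.1) (β β' : Bool) :
    c.role e.1 β ≠ c.role e'.1 β' := by
  intro hr
  obtain ⟨b, h1, h2⟩ := cell_of hc he β
  obtain ⟨b', h3, h4⟩ := cell_of hc he' β'
  have h5 : (e.1, b) = (e'.1, b') := hc.inj (by rw [h1, h3, hcol, hr])
  obtain ⟨h6, h7⟩ := Prod.mk.inj h5
  by_cases hu : c.unit e.1
  · exact hne (Prod.ext h6 ((h2 hu).symm.trans (h7.trans (h4 (h6 ▸ hu)))))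
  · exact hne (Prod.ext h6 ((sep_of hc he hu).1.trans (sep_of hc he' (h6 ▸ hu)).1.symm))

omit [Fintype M] [DecidableEq U] in
theorem same_pos {p : PT k n} {c : Cfg k n M U} (hp : c.Pierced p) {m : M} {e e' : U × Bool}
    (he : e ∈ c.evs m) (he' : e' ∈ c.evs m) (hne : e ≠ e')
    (h : pos p (c.col e.1) = pos p (c.col e'.1)) :
    oddP (pos p (c.col e.1)) ∧ c.col e.1 = c.col e'.1 := by
  have ho : oddP (pos p (c.col e.1)) := by
    rcases le_total (c.col e.1) (c.col e'.1) with h1 | h1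
    · exact pos_pierce p _ _ h (hp m e he e' he' hne h1)
    · rw [h]
      exact pos_pierce p _ _ h.symm (hp m e' he' e he hne.symm h1)
  exact ⟨ho, pos_odd_eq p _ _ h ho⟩

omit [Fintype M] [DecidableEq U] in
theorem sig_inj {p : PT k n} {c : Cfg k n M U} (hc : c.Valid) (hp : c.Pierced p) {m : M}
    {e e' : U × Bool} (he : e ∈ c.evs m) (he' : e' ∈ c.evs m) (h : sig p c e = sig p c e') :
    e = e' := by
  by_contra hne
  have h1 : pos p (c.col e.1) = pos p (c.col e'.1) := congrArg Prod.fst h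
  have h2 : c.role e.1 false = c.role e'.1 false := congrArg (fun t => t.2.1) h
  exact disj hc he he' hne (same_pos hp he he' hne h1).2 false false h2

theorem swap_cases {a b c d : Fin k} (hab : a ≠ b) (h : swap a b = swap c d) :
    (a = c ∧ b = d) ∨ (a = d ∧ b = c) := by
  have h1 : swap c d a = b := by rw [← h, swap_apply_left]
  by_cases h2 : a = c
  · left
    refine ⟨h2, ?_⟩
    rw [h2, swap_apply_left] at h1
    exact h1.symm
  by_cases h3 : a = d
  · right
    refine ⟨h3, ?_⟩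
    rw [h3, swap_apply_right] at h1
    exact h1.symm
  rw [swap_apply_of_ne_of_ne h2 h3] at h1
  exact absurd h1 hab

omit [Fintype M] [DecidableEq U] in
theorem tyOK {p : PT k n} {c : Cfg k n M U} (hc : c.Valid) (hg : c.Good) (hp : c.Pierced p)
    (m : M) : TyOK ((c.f m).cls, (c.evs m).image (sig p c)) := by
  refine ⟨card_image_le.trans (hg m), ?_, ?_, ?_⟩
  · intro ek hek ek' hek' hne hpos
    obtain ⟨e, he, rfl⟩ := mem_image.mp hek
    obtain ⟨e', he', rfl⟩ := mem_image.mp hek'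
    have hee : e ≠ e' := fun h => hne (h ▸ rfl)
    obtain ⟨h1, h2⟩ := same_pos hp he he' hee hpos
    have hd := disj hc he he' hee h2
    refine ⟨h1, ⟨hd false false, hd false true, hd true false, hd true true⟩, ?_⟩
    by_contra hcon
    rw [not_or] at hcon
    have a1 := (sep_of hc he hcon.1).2.2
    have a2 := (sep_of hc he' hcon.2).2.2
    rw [h2, a2] at a1
    rcases swap_cases hcon.1 a1.symm with h | h
    · exact hd false false h.1
    · exact hd false true h.1
  · intro ek hek hne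
    obtain ⟨e, he, rfl⟩ := mem_image.mp hek
    have a1 := (sep_of hc he hne).2.2
    rcases (hc.sk m).1 (c.col e.1) with h | ⟨a, b, -, ha, hb, h⟩
    · rw [a1, swap_eq_one_iff] at h
      exact absurd h hne
    · rw [a1] at h
      rcases swap_cases hne h with h' | h'
      · exact ⟨h'.1.le.trans ha, h'.2.le.trans hb⟩
      · exact ⟨h'.1.le.trans hb, h'.2.le.trans ha⟩
  · intro a b hab ha hb
    rw [← (hc.sk m).2 a b hab ha hb]
    show (((c.evs m).image (sig p c)).filter _).card = _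
    rw [filter_image, card_image_of_injOn fun e he e' he' h =>
      sig_inj hc hp (mem_filter.mp he).1 (mem_filter.mp he').1 h]
    have hsep : ∀ e : U × Bool, ((sig p c e).2 = (a, b) ∨ (sig p c e).2 = (b, a)) →
        ¬ c.unit e.1 ∧ swap (c.role e.1 false) (c.role e.1 true) = swap a b ∧
          (c.role e.1 false = a ∨ c.role e.1 true = a) := by
      rintro e (h | h)
      · obtain ⟨h1, h2⟩ := Prod.mk.inj h
        exact ⟨fun hu => hab (h1.symm.trans (hu.trans h2)), by rw [h1, h2], Or.inl h1⟩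
      · obtain ⟨h1, h2⟩ := Prod.mk.inj h
        exact ⟨fun hu => hab (h2.symm.trans (hu.symm.trans h1)), by rw [h1, h2, swap_comm],
          Or.inr h2⟩
    refine card_bij (fun e _ => c.col e.1) (fun e he => ?_) (fun e he e' he' h => ?_)
      (fun z hz => ?_)
    · obtain ⟨h1, h2⟩ := mem_filter.mp he
      obtain ⟨h3, h4, -⟩ := hsep e h2
      exact mem_filter.mpr ⟨mem_univ _, (sep_of hc h1 h3).2.2.trans h4⟩
    · obtain ⟨h1, h2⟩ := mem_filter.mp he
      obtain ⟨h1', h2'⟩ := mem_filter.mp he'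
      by_contra hne
      have hd := disj hc h1 h1' hne h
      rcases (hsep e h2).2.2 with g | g <;> rcases (hsep e' h2').2.2 with g' | g' <;>
        exact hd _ _ (g.trans g'.symm)
    · have h1 := (mem_filter.mp hz).2
      obtain ⟨u, hu, h2, h3⟩ := hc.surj m z (by rw [h1, Ne, swap_eq_one_iff]; exact hab)
      have he : (u, false) ∈ c.evs m := mem_evs.mpr ⟨Or.inl rfl, h3⟩
      have h4 := (sep_of hc he hu).2.2
      refine ⟨(u, false), mem_filter.mpr ⟨he, ?_⟩, h2⟩
      rw [show c.col (u, false).1 = z from h2, h1] at h4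
      rcases swap_cases hu h4.symm with h | h
      · exact Or.inl (Prod.ext h.1 h.2)
      · exact Or.inr (Prod.ext h.1 h.2)

omit [Fintype M] [DecidableEq M] [Fintype U] [DecidableEq U] in
theorem cls_mo {c : Cfg k n M U} (hc : c.Valid) (u : U) (b : Bool) :
    (c.f (c.mo u b)).cls = (c.f (c.mo u false)).cls := by
  cases b
  · rfl
  · exact (hc.cls u).symm

omit [DecidableEq U] in
theorem count {c : Cfg k n M U} (hc : c.Valid) (z : Fin n) (g : Grp k) :
    ∑ a, c.sing z (g, a) + (univ.filter (fun q : U × Bool =>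
      c.col q.1 = z ∧ (c.f (c.mo q.1 false)).cls = g.1 ∧ c.role q.1 q.2 = g.2)).card =
      (univ.filter (fun m => (c.f m).cls = g.1)).card := by
  classical
  rw [← card_filter_add_card_filter_not (s := univ.filter (fun m => (c.f m).cls = g.1))
    (fun m => c.free (z, (m, g.2)))]
  congr 1
  · rw [card_eq_sum_card_fiberwise (f := fun m => c.x z (m, g.2)) (t := univ)
      (fun _ _ => mem_univ _)]
    refine sum_congr rfl fun a _ => ?_
    unfold Cfg.sing
    refine card_bij (fun r _ => r.1) (fun r hr => ?_) (fun r hr r' hr' h => ?_) (fun m hm => ?_)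
    · obtain ⟨h1, h2, h3, h4⟩ := (mem_filter.mp hr).2
      have e : (r.1, g.2) = r := Prod.ext rfl h3.symm
      simp only [mem_filter, mem_univ, true_and, e]
      exact ⟨⟨h2, h1⟩, h4⟩
    · exact Prod.ext h ((mem_filter.mp hr).2.2.2.1.trans (mem_filter.mp hr').2.2.2.1.symm)
    · simp only [mem_filter, mem_univ, true_and] at hm
      exact ⟨(m, g.2), mem_filter.mpr ⟨mem_univ _, hm.1.2, hm.1.1, rfl, hm.2⟩, rfl⟩
  · refine card_bij (fun q _ => c.mo q.1 q.2) (fun q hq => ?_) (fun q hq q' hq' h => ?_)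
      (fun m hm => ?_)
    · obtain ⟨h1, h2, h3⟩ := (mem_filter.mp hq).2
      refine mem_filter.mpr ⟨mem_filter.mpr ⟨mem_univ _, (cls_mo hc _ _).trans h2⟩, fun hf => ?_⟩
      exact hf q (by simp only [Cfg.cell, Cfg.rw, h1, h3])
    · obtain ⟨h1, -, h3⟩ := (mem_filter.mp hq).2
      obtain ⟨h1', -, h3'⟩ := (mem_filter.mp hq').2
      refine hc.inj ?_
      simp only [Cfg.cell, Cfg.rw, h1, h3, h1', h3', h]
    · obtain ⟨h1, h2⟩ := mem_filter.mp hm
      have h3 := (mem_filter.mp h1).2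
      unfold Cfg.free at h2
      push Not at h2
      obtain ⟨q, hq⟩ := h2
      obtain ⟨a1, a2⟩ := Prod.mk.inj hq
      obtain ⟨a3, a4⟩ := Prod.mk.inj a2
      refine ⟨q, mem_filter.mpr ⟨mem_univ _, a1, ?_, a4⟩, a3⟩
      rw [← cls_mo hc q.1 q.2, a3, h3]

/-- The slot of an end. -/
noncomputable def slot (p : PT k n) (c : Cfg k n M U) (q : (base p c).Ends) : (base p c).Slots :=
  ⟨(c.mo q.1.1 q.1.2, sig p c q.1), mem_image_of_mem _ (mem_evs.mpr ⟨q.2, rfl⟩)⟩

omit [DecidableEq U] in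
theorem slot_bij {p : PT k n} {c : Cfg k n M U} (hc : c.Valid) (hp : c.Pierced p) :
    Function.Bijective (slot p c) := by
  constructor
  · intro q q' h
    obtain ⟨h1, h2⟩ := Prod.mk.inj (congrArg Subtype.val h)
    exact Subtype.ext (sig_inj hc hp (mem_evs.mpr ⟨q.2, h1⟩) (mem_evs.mpr ⟨q'.2, rfl⟩) h2)
  · rintro ⟨⟨m, ek⟩, h⟩
    obtain ⟨e, he, h1⟩ := mem_image.mp h
    obtain ⟨h2, h3⟩ := mem_evs.mp he
    exact ⟨⟨e, h2⟩, Subtype.ext (Prod.ext h3 h1)⟩

end L3dAux

theorem Cfg.own (p : PT k n) (c : Cfg k n M U) (hc : c.Valid) (hg : c.Good) (hp : c.Pierced p) :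
    ∃ (B : Base k n M U) (φ : B.Match p), B.BV p ∧ B.Rz φ.1 c := by
  let φ : (L3dAux.base p c).Match p := ⟨Equiv.ofBijective _ (L3dAux.slot_bij hc hp), fun q =>
    Prod.ext (Prod.ext (L3dAux.cls_mo hc q.1.1 q.1.2) rfl) rfl⟩
  exact ⟨L3dAux.base p c, φ, ⟨L3dAux.tyOK hc hg hp, ⟨φ⟩, L3dAux.count hc⟩,
    ⟨fun _ => rfl, rfl, fun _ => rfl, fun _ _ => rfl, fun _ => rfl, rfl⟩⟩

end Pool.Agent.Lib.MP_595dc0_ag.Dk
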