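import Mathlib
import Pool.Agent.Lib.MP_595dc0_ag.DkL3b
import Pool.Agent.Lib.MP_595dc0_ag.DkL2d

set_option autoImplicit false

namespace Pool.Agent.Lib.MP_595dc0_ag.Dk

open Equiv Finset MvPolynomial

variable {k n : ℕ} {M U : Type} [Fintype M] [DecidableEq M] [Fintype U] [DecidableEq U]

theorem Base.sign {p : PT k n} {B : Base k n M U} (hB : B.BV p) (φ : B.Match p)
    (c : Cfg k n M U) (hc : c.Valid) (h : B.Rz φ.1 c) (e : Fin (k * k + 1) ↪ B.Slots)
    (he : ∀ i j, B.kS (e i) = B.kS (e j)) :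
    ∃ cs : Perm (Fin (k * k + 1)) → Cfg k n M U,
      (∀ σ, (cs σ).Valid ∧ B.Rz (MatchA.perm φ e he σ).1 (cs σ)) ∧
      ∑ σ : Perm (Fin (k * k + 1)), ((Perm.sign σ : ℤ) : ℂ) • (cs σ).tau ∈ Rel k n := by
  have hty : ∀ i j, B.ty (e i).1.1 = B.ty (e j).1.1 := fun i j => congrArg Prod.fst (he i j)
  have hek : ∀ i j, (e i).1.2 = (e j).1.2 := fun i j =>
    congrArg (fun t : Ty k × EK k => t.2) (he i j)
  let eM : Fin (k * k + 1) ↪ M := ⟨fun i => (e i).1.1, fun i j hij =>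
    e.injective (Subtype.ext (Prod.ext hij (hek i j)))⟩
  let ε : Fin (k * k + 1) → U × Bool := fun i => (φ.1.symm (e i)).1
  have hs : ∀ i, (e i).1 = (c.mo (ε i).1 (ε i).2,
      (pos p (c.col (ε i).1), c.role (ε i).1 false, c.role (ε i).1 true)) := by
    intro i
    have := (h.slot (φ.1.symm (e i))).1
    rwa [Equiv.apply_symm_apply] at this
  have hs1 : ∀ i, c.mo (ε i).1 (ε i).2 = eM i := fun i => (congrArg Prod.fst (hs i)).symm
  have hs2 : ∀ i, (e i).1.2 =
      (pos p (c.col (ε i).1), c.role (ε i).1 false, c.role (ε i).1 true) :=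
    fun i => congrArg Prod.snd (hs i)
  have hmem : ∀ i, ε i ∈ c.evs (eM i) := fun i =>
    mem_filter.2 ⟨mem_univ _, (h.actv _).2 (φ.1.symm (e i)).2, hs1 i⟩
  have hE : c.ExHyp eM ε (e 0).1.2.2.1 (e 0).1.2.2.2 := by
    refine ⟨hmem, fun i i' => ?_, fun i => ?_, fun i i' q hq hcol => ?_⟩
    · rw [h.cls, h.cls]
      exact congrArg Prod.fst (hty i i')
    · rw [hek 0 i, hs2 i]
      exact ⟨rfl, rfl⟩
    · have hb := h.bijOn (eM i)
      have hpos : pos p (c.col q.1) = pos p (c.col (ε i).1) := by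
        have h1 := congrArg Prod.fst (hs2 i)
        have h2 := congrArg Prod.fst (hs2 i')
        rw [hek i' i] at h2
        rw [hcol]
        exact h2.symm.trans h1
      by_cases hqe : q = ε i
      · rw [hqe]
      · have hne := fun hh => hqe (hb.injOn (mem_coe.2 hq) (mem_coe.2 (hmem i)) hh)
        exact pos_odd_eq p _ _ hpos ((hB.1 (eM i)).2.1 _ (hb.mapsTo (mem_coe.2 hq)) _
          (hb.mapsTo (mem_coe.2 (hmem i))) hne hpos).1
  refine ⟨c.exch eM ε _ _, fun σ => ⟨Cfg.exch_valid hc hE σ, h.cls, h.col, h.role, fun u b => ?_,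
    fun q => ?_, (Cfg.exch_sing hE σ).trans h.sing⟩, Cfg.exch_sum hc hE⟩
  · exact (Cfg.move_x_cell c _ _ _ _ u b).trans (h.lett u b)
  · change _ = (σ.viaEmbedding e (φ.1 q)).1.1
    by_cases hq : φ.1 q ∈ Set.range e
    · obtain ⟨i, hi⟩ := hq
      have hqi : q.1 = ε i := by
        simp only [ε, hi, Equiv.symm_apply_apply]
      rw [← hi, Perm.viaEmbedding_apply, hqi]
      exact Cfg.exch_mo_eps hE σ i
    · rw [Perm.viaEmbedding_apply_of_notMem _ _ _ hq, ← h.mo q]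
      refine Cfg.exch_mo_other hc hE σ q.1 ((h.actv _).2 q.2) fun i hi => hq ⟨i, ?_⟩
      rw [← Equiv.symm_apply_eq]
      exact Subtype.ext hi

end Pool.Agent.Lib.MP_595dc0_ag.Dk
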