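import Mathlib
import Pool.Agent.Lib.MP_595dc0_ag.DkL3c
import Pool.Agent.Lib.MP_595dc0_ag.DkL3e

set_option autoImplicit false
set_option linter.unusedSectionVars false

namespace Pool.Agent.Lib.MP_595dc0_ag.Dk

open Equiv Finset MvPolynomial

namespace DkL3fAux

variable {S E L : Type} [Fintype S] [DecidableEq S] [Fintype E] [DecidableEq E] [Fintype L]
  [DecidableEq L]

theorem pairD_zero (φ : E ≃ S) : pairD (0 : (S → L) × (E → L) → ℂ) φ = 0 := by
  simp [pairD]

theorem pairD_sub (v v' : (S → L) × (E → L) → ℂ) (φ : E ≃ S) :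
    pairD (v - v') φ = pairD v φ - pairD v' φ := by
  simp [pairD, sub_mul, Finset.sum_sub_distrib]

theorem pairD_sum {ι : Type} [Fintype ι] (v : ι → (S → L) × (E → L) → ℂ) (φ : E ≃ S) :
    pairD (∑ i, v i) φ = ∑ i, pairD (v i) φ := by
  simp only [pairD, Finset.sum_apply, Finset.sum_mul]
  exact Finset.sum_comm

theorem sum_smul_mem {W ι : Type} [AddCommGroup W] [Module ℂ W] [Fintype ι] (N : Submodule ℂ W)
    (c : ι → ℂ) (f g : ι → W) (h : ∀ i, f i - g i ∈ N) (hg : ∑ i, c i • g i ∈ N) :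
    ∑ i, c i • f i ∈ N := by
  have e : ∑ i, c i • f i = ∑ i, c i • (f i - g i) + ∑ i, c i • g i := by
    rw [← Finset.sum_add_distrib]
    refine Finset.sum_congr rfl fun i _ => ?_
    rw [← smul_add, sub_add_cancel]
  rw [e]
  exact N.add_mem (N.sum_mem fun i _ => N.smul_mem _ (h i)) hg

end DkL3fAux

open DkL3fAux

namespace Base

variable {k n : ℕ} {M U M' U' : Type} [Fintype M] [DecidableEq M] [Fintype U] [DecidableEq U]
  [Fintype M'] [DecidableEq M'] [Fintype U'] [DecidableEq U']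

variable {p : PT k n} {B : Base k n M U}

theorem LR_exists (hB : B.BV p) (v : B.Lbl → ℂ) : ∃ φF, B.LR p v φF := by
  choose cg hcg using fun φ : B.Match p => Base.fill hB φ
  have inst : Fintype (B.Match p) := Fintype.ofFinite _
  obtain ⟨cf, hcf⟩ := gram_exists (fun φ : B.Match p => φ.1) v
  exact ⟨_, B.Match p, inst, id, cf, cg, hcg, hcf, rfl⟩

theorem LR_zero (hB : B.BV p) (φF : FF k n) (h : B.LR p 0 φF) :
    φF ∈ Low k n (Fintype.card M) B.tb := by
  obtain ⟨ι, _, fm, cf, cg, h1, h2, rfl⟩ := h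
  choose Φ hΦ using fun φ : B.Match p => Base.fill hB φ
  have hker := gram_kernel (L := Lb k) (fun i => (fm i).1) cf
    (fun i' => (h2 (fm i')).symm.trans (pairD_zero _))
  have hs := sft_kernel B.kS (B.kE p) (k * k) (Low k n (Fintype.card M) B.tb)
    (fun φ => (Φ φ).tau) (by
      intro e he φ
      obtain ⟨cs, hcs, hrel⟩ := Base.sign hB φ (Φ φ) (hΦ φ).1 (hΦ φ).2 e he
      refine sum_smul_mem _ _ _ (fun σ => (cs σ).tau) (fun σ => ?_)
        (Submodule.mem_sup_left hrel)
      exact Rz.uniq (hΦ _).2 (hcs σ).2 (hΦ _).1 (hcs σ).1) fm cf hker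
  exact sum_smul_mem _ _ _ _ (fun i => Rz.uniq (h1 i).2 (hΦ _).2 (h1 i).1 (hΦ _).1) hs

theorem LR_sub {v v' : B.Lbl → ℂ} {φF φF' : FF k n} (h : B.LR p v φF) (h' : B.LR p v' φF') :
    B.LR p (v - v') (φF - φF') := by
  obtain ⟨ι, _, fm, cf, cg, h1, h2, rfl⟩ := h
  obtain ⟨ι', _, fm', cf', cg', h1', h2', rfl⟩ := h'
  refine ⟨ι ⊕ ι', inferInstance, Sum.elim fm fm', Sum.elim cf (fun i => -cf' i), Sum.elim cg cg',
    ?_, ?_, ?_⟩
  · rintro (i | i)
    · exact h1 i
    · exact h1' i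
  · intro φ
    rw [pairD_sub, h2, h2', Fintype.sum_sum_type]
    simp only [Sum.elim_inl, Sum.elim_inr, neg_mul, Finset.sum_neg_distrib, sub_eq_add_neg]
  · rw [Fintype.sum_sum_type]
    simp only [Sum.elim_inl, Sum.elim_inr, neg_smul, Finset.sum_neg_distrib, sub_eq_add_neg]

theorem LR_sum {ι : Type} [Fintype ι] (v : ι → B.Lbl → ℂ) (φF : ι → FF k n)
    (h : ∀ i, B.LR p (v i) (φF i)) : B.LR p (∑ i, v i) (∑ i, φF i) := by
  choose κ inst fm cf cg h1 h2 h3 using h
  refine ⟨Σ i, κ i, inferInstance, fun q => fm q.1 q.2, fun q => cf q.1 q.2, fun q => cg q.1 q.2,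
    fun q => h1 q.1 q.2, fun φ => ?_, ?_⟩
  · rw [pairD_sum, Fintype.sum_sigma]
    exact Finset.sum_congr rfl fun i _ => h2 i φ
  · rw [Fintype.sum_sigma]
    exact Finset.sum_congr rfl fun i _ => h3 i

theorem LR_uniq (hB : B.BV p) {v : B.Lbl → ℂ} {φF φF' : FF k n} (h : B.LR p v φF)
    (h' : B.LR p v φF') : φF - φF' ∈ Low k n (Fintype.card M) B.tb := by
  have := LR_sub h h'
  rw [sub_self] at this
  exact LR_zero hB _ this

theorem LR_TSP (hB : B.BV p) {v : B.Lbl → ℂ} {φF : FF k n} (h : B.LR p v φF) (α : B.Lbl) :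
    φF ∈ Submodule.span ℂ (TSP (pwM p (B.expo α)) p) := by
  obtain ⟨ι, _, fm, cf, cg, h1, -, rfl⟩ := h
  refine Submodule.sum_mem _ fun i _ => Submodule.smul_mem _ _ (Submodule.subset_span ?_)
  exact ⟨M, U, inferInstance, inferInstance, inferInstance, inferInstance, cg i, (h1 i).1,
    (h1 i).2.good hB, ((h1 i).2.pw hB α).symm, (h1 i).2.pierced hB, rfl⟩

theorem sumL_iff_l3f {B' : Base k n M' U'} (α : B.Lbl) (α' : B'.Lbl) (γ : (B.sum B').Lbl) :
    γ = sumL B B' α α' ↔
      ((fun a => γ.1 (sumS B B' (Sum.inl a)), fun a => γ.2 (sumE B B' (Sum.inl a))) : B.Lbl) = α ∧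
      ((fun a => γ.1 (sumS B B' (Sum.inr a)), fun a => γ.2 (sumE B B' (Sum.inr a))) : B'.Lbl) =
        α' := by
  constructor
  · rintro rfl
    constructor
    · refine Prod.ext (funext fun a => ?_) (funext fun a => ?_)
      · simp [sumL]
      · simp [sumL]
    · refine Prod.ext (funext fun a => ?_) (funext fun a => ?_)
      · simp [sumL]
      · simp [sumL]
  · rintro ⟨rfl, rfl⟩
    refine Prod.ext (funext fun q => ?_) (funext fun q => ?_)
    · obtain ⟨a, rfl⟩ := (sumS B B').surjective q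
      rcases a with a | a <;> simp [sumL]
    · obtain ⟨a, rfl⟩ := (sumE B B').surjective q
      rcases a with a | a <;> simp [sumL]

theorem LR_prod {B' : Base k n M' U'} (α : B.Lbl) {φF : FF k n} (h : B.LR p (Pi.single α 1) φF)
    (φ' : B'.Match p) (c' : Cfg k n M' U') (hc' : c'.Valid) (h' : B'.Rz φ'.1 c') :
    (B.sum B').LR p (∑ β : B'.Ends → Lb k,
      Pi.single (sumL B B' α (fun q => β (φ'.1.symm q), β)) 1) (φF * c'.tau) := by
  obtain ⟨ι, _, fm, cf, cg, h1, h2, rfl⟩ := h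
  refine ⟨ι, inferInstance, fun i => sumM p B B' (fm i) φ', cf, fun i => (cg i).sum c',
    fun i => ⟨Cfg.sum_valid _ _ (h1 i).1 hc', (h1 i).2.sum h'⟩, fun φ => ?_, ?_⟩
  · obtain ⟨c, φ₁, hk, hv⟩ := trace_exists (L := Lb k) (B.sum B').kS ((B.sum B').kE p)
      (sumS B B') (sumE B B') φ'.1 (fun e => φ'.2 e) φ
    have e1 : (∑ β : B'.Ends → Lb k,
        Pi.single (sumL B B' α (fun q => β (φ'.1.symm q), β)) 1 : (B.sum B').Lbl → ℂ) =
        fun γ : (B.sum B').Lbl => (Pi.single α 1 : B.Lbl → ℂ)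
          (fun a => γ.1 (sumS B B' (Sum.inl a)), fun a => γ.2 (sumE B B' (Sum.inl a))) *
          del φ'.1 (fun a => γ.1 (sumS B B' (Sum.inr a)), fun a => γ.2 (sumE B B' (Sum.inr a))) := by
      funext γ
      rw [Finset.sum_apply, Finset.sum_eq_single (fun a => γ.2 (sumE B B' (Sum.inr a)))]
      · rw [Pi.single_apply, Pi.single_apply]
        unfold del
        rw [ite_zero_mul_ite_zero, mul_one]
        refine if_congr ?_ rfl rfl
        rw [sumL_iff_l3f]
        refine and_congr_right fun _ => ?_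
        constructor
        · intro h e
          have := congrFun (congrArg Prod.fst h) (φ'.1 e)
          simpa using this
        · intro h
          refine Prod.ext (funext fun a => ?_) rfl
          have := h (φ'.1.symm a)
          simpa using this
      · intro β _ hβ
        rw [Pi.single_apply, if_neg]
        intro h
        exact hβ (congrArg Prod.snd ((sumL_iff_l3f _ _ _).1 h).2).symm
      · intro h
        exact absurd (mem_univ _) h
    rw [e1, hv, h2 ⟨φ₁, fun e => hk e⟩, Finset.mul_sum]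
    refine Finset.sum_congr rfl fun i _ => ?_
    have e2 : (del (sumM p B B' (fm i) φ').1 : (B.sum B').Lbl → ℂ) = fun γ : (B.sum B').Lbl =>
        del (fm i).1
          (fun a => γ.1 (sumS B B' (Sum.inl a)), fun a => γ.2 (sumE B B' (Sum.inl a))) *
          del φ'.1 (fun a => γ.1 (sumS B B' (Sum.inr a)), fun a => γ.2 (sumE B B' (Sum.inr a))) :=
      funext fun γ => del_sum (sumS B B') (sumE B B') (fm i).1 φ'.1 γ
    rw [e2, hv]
    ring
  · rw [Finset.sum_mul]
    refine Finset.sum_congr rfl fun i _ => ?_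
    rw [Cfg.sum_tau _ _ (h1 i).1 hc', smul_mul_assoc]

end Base

theorem LRm_zero {k n : ℕ} (p : PT k n) : LRm p 0 1 := by
  let B : Base k n Empty Empty := ⟨Empty.elim, Empty.elim, Empty.elim, 0⟩
  let α : B.Lbl := (fun q => q.1.1.elim, fun q => q.1.1.elim)
  have i1 : IsEmpty B.Slots := ⟨fun q => q.1.1.elim⟩
  have i2 : IsEmpty B.Ends := ⟨fun q => q.1.1.elim⟩
  let φ : B.Match p := ⟨Equiv.equivOfIsEmpty _ _, fun e => e.1.1.elim⟩
  let c : Cfg k n Empty Empty :=
    ⟨Empty.elim, fun _ r => r.1.elim, Empty.elim, Empty.elim, Empty.elim⟩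
  refine ⟨Empty, Empty, inferInstance, inferInstance, inferInstance, inferInstance, B, α,
    ⟨fun m => m.elim, ⟨φ⟩, fun z g => ?_⟩, ?_,
    Unit, inferInstance, fun _ => φ, fun _ => 1, fun _ => c, fun _ => ⟨?_, ?_⟩, fun ψ => ?_, ?_⟩
  · simp [B]
  · simp [Base.expo, B]
  · exact ⟨fun m => m.elim, fun q => q.1.elim, fun u => u.elim, fun u => u.elim,
      fun m => m.elim⟩
  · refine ⟨fun m => m.elim, rfl, fun u => u.elim, fun u => u.elim, fun q => q.1.1.elim, ?_⟩
    funext z s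
    simp [Cfg.sing, B]
  · have e : (Pi.single α 1 : B.Lbl → ℂ) = del φ.1 := by
      funext γ
      have : γ = α := Subsingleton.elim _ _
      subst this
      simp [del]
    rw [e]
    simp
  · have e : c.aU = 1 := by
      unfold Cfg.aU
      exact cprod_one _ _ fun u => u.elim
    simp [Cfg.tau, e, app_one, Th, ThA]

end Pool.Agent.Lib.MP_595dc0_ag.Dk
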