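import Mathlib
import Pool.Agent.Lib.MP_595dc0_ag.DkL3a
import Pool.Agent.Lib.MP_595dc0_ag.DkL2a

set_option autoImplicit false

namespace Pool.Agent.Lib.MP_595dc0_ag.Dk

open Equiv Finset MvPolynomial

namespace L3gAux

variable {S E S' E' L : Type} [Fintype S] [DecidableEq S] [Fintype E] [DecidableEq E]
  [Fintype S'] [DecidableEq S'] [Fintype E'] [DecidableEq E'] [Fintype L] [DecidableEq L]

/-- Transport of labellings. -/
def lab (jS : S ≃ S') (jE : E ≃ E') : ((S' → L) × (E' → L)) ≃ ((S → L) × (E → L)) where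
  toFun := fun a => (fun s => a.1 (jS s), fun e => a.2 (jE e))
  invFun := fun a => (fun s => a.1 (jS.symm s), fun e => a.2 (jE.symm e))
  left_inv := by
    rintro ⟨a, b⟩
    simp
  right_inv := by
    rintro ⟨a, b⟩
    simp

omit [Fintype S] [DecidableEq S] [DecidableEq E] [Fintype S'] [DecidableEq S'] [DecidableEq E']
  [Fintype L] in
theorem del_lab (jS : S ≃ S') (jE : E ≃ E') (φ : E ≃ S) (a : (S' → L) × (E' → L)) :
    del (jE.symm.trans (φ.trans jS)) a = del φ (lab jS jE a) := by
  unfold del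
  refine if_congr ?_ rfl rfl
  constructor
  · intro h e
    simpa [lab] using h (jE e)
  · intro h e
    simpa [lab] using h (jE.symm e)

theorem pairD_lab (jS : S ≃ S') (jE : E ≃ E') (φ : E ≃ S) (v : (S → L) × (E → L) → ℂ) :
    pairD (fun a => v (lab jS jE a)) (jE.symm.trans (φ.trans jS)) = pairD v φ := by
  unfold pairD
  refine Fintype.sum_equiv (lab jS jE) _ _ ?_
  intro a
  rw [del_lab]

end L3gAux

open L3gAux

variable {k n : ℕ} {M U M' U' : Type} [Fintype M] [DecidableEq M] [Fintype U] [DecidableEq U]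
  [Fintype M'] [DecidableEq M'] [Fintype U'] [DecidableEq U']

theorem Base.LR_iso {p : PT k n} (B : Base k n M U) (B' : Base k n M' U') (α : B.Lbl)
    (α' : B'.Lbl) (h : B.expo α = B'.expo α') (φF : FF k n) (hL : B.LR p (Pi.single α 1) φF) :
    B'.LR p (Pi.single α' 1) φF := by
  obtain ⟨eM, eU, hM, hU, hs⟩ := Base.expo_iso B B' α α' h
  have hty : ∀ m, B'.ty (eM m) = B.ty m := by
    intro m
    rw [← Base.tyOf_core B' α'.1, hM, Base.tyOf_core]
  have hpd : ∀ u, B'.pd (eU u) = B.pd u := fun u => congrArg Prod.fst (hU u).2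
  let jS : B.Slots ≃ B'.Slots := Equiv.subtypeEquiv (eM.prodCongr (Equiv.refl _)) (by
    rintro ⟨m, ek⟩
    simp [hty])
  let jE : B.Ends ≃ B'.Ends := Equiv.subtypeEquiv (eU.prodCongr (Equiv.refl _)) (by
    rintro ⟨u, b⟩
    simp [hpd])
  have hjS : ∀ q : B.Slots, (jS q).1 = (eM q.1.1, q.1.2) := fun q => rfl
  have hjE : ∀ q : B.Ends, (jE q).1 = (eU q.1.1, q.1.2) := fun q => rfl
  have hkS : ∀ q, B'.kS (jS q) = B.kS q := by
    intro q
    simp only [Base.kS, hjS, hty]
  have hkE : ∀ q, B'.kE p (jE q) = B.kE p q := by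
    intro q
    simp only [Base.kE, hjE, hpd, (hU _).1]
  have hα : lab jS jE α' = α := by
    refine Prod.ext ?_ ?_
    · funext q
      obtain ⟨⟨m, ek⟩, hq⟩ := q
      have h1 := congrFun (congrArg Prod.snd (hM m)) ek
      have hq' : ek ∈ (B'.ty (eM m)).2 := by rw [hty]; exact hq
      simp only [Base.core, dif_pos hq', dif_pos hq, Option.some.injEq] at h1
      exact h1
    · funext q
      obtain ⟨⟨u, b⟩, hq⟩ := q
      have h1 := congrFun (congrArg Prod.snd (hU u).2) b
      have hq' : (B'.pd (eU u)).actv b := by rw [hpd]; exact hq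
      simp only [Base.pv, dif_pos hq', dif_pos hq, Option.some.injEq] at h1
      exact h1
  have hsingle : (Pi.single α' 1 : B'.Lbl → ℂ) =
      fun a => (Pi.single α 1 : B.Lbl → ℂ) (lab jS jE a) := by
    funext a
    by_cases ha : a = α'
    · subst ha
      rw [hα, Pi.single_eq_same, Pi.single_eq_same]
    · rw [Pi.single_eq_of_ne ha, Pi.single_eq_of_ne]
      intro h2
      apply ha
      apply (lab jS jE).injective
      rw [h2, hα]
  obtain ⟨ι, hι, fm, cf, cg, h1, h2, h3⟩ := hL
  let tr : B.Match p → B'.Match p := fun φ => ⟨jE.symm.trans (φ.1.trans jS), by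
    intro e
    obtain ⟨e, rfl⟩ := jE.surjective e
    simp only [Equiv.trans_apply, Equiv.symm_apply_apply]
    rw [hkS, hkE, φ.2]⟩
  refine ⟨ι, hι, fun i => tr (fm i), cf, fun i => (cg i).map eM eU, ?_, ?_, ?_⟩
  · intro i
    obtain ⟨hv, hr⟩ := h1 i
    refine ⟨Cfg.map_valid _ hv _ _, ?_, ?_, ?_, ?_, ?_, ?_⟩
    · intro m
      obtain ⟨m, rfl⟩ := eM.surjective m
      simp only [Cfg.map, Equiv.symm_apply_apply, hty, hr.cls]
    · funext u
      obtain ⟨u, rfl⟩ := eU.surjective u
      simp only [Cfg.map, Equiv.symm_apply_apply, (hU u).1, hr.col]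
    · intro u
      obtain ⟨u, rfl⟩ := eU.surjective u
      simp only [Cfg.map, Equiv.symm_apply_apply, hpd, hr.role]
    · intro u b
      obtain ⟨u, rfl⟩ := eU.surjective u
      have h4 := hr.lett u b
      simp only [Cfg.map, Cfg.rw, Equiv.symm_apply_apply, hpd] at h4 ⊢
      exact h4
    · intro q
      obtain ⟨q, rfl⟩ := jE.surjective q
      have h4 := hr.mo q
      simp only [tr, Cfg.map, hjE, Equiv.trans_apply, Equiv.symm_apply_apply, hjS, h4]
    · rw [Cfg.map_sing, hr.sing, hs]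
  · intro φ'
    let φ : B.Match p := ⟨jE.trans (φ'.1.trans jS.symm), by
      intro e
      rw [← hkS, ← hkE, ← φ'.2]
      simp⟩
    have hφ : φ'.1 = jE.symm.trans (φ.1.trans jS) := by
      ext e : 1
      simp [φ]
    rw [hφ, hsingle, pairD_lab, h2 φ]
    refine Finset.sum_congr rfl ?_
    intro i _
    congr 1
    rw [← pairD_lab jS jE φ.1 (del (fm i).1)]
    congr 1
    funext a
    exact (del_lab jS jE (fm i).1 a).symm
  · rw [h3]
    refine Finset.sum_congr rfl ?_
    intro i _
    rw [Cfg.map_tau _ (h1 i).1]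

end Pool.Agent.Lib.MP_595dc0_ag.Dk
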