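import Mathlib
import Pool.Agent.Lib.MP_595dc0_ag.DkL3f
import Pool.Agent.Lib.MP_595dc0_ag.DkL3g
import Pool.Agent.Lib.MP_595dc0_ag.DkL2g

set_option autoImplicit false

namespace Pool.Agent.Lib.MP_595dc0_ag.Dk

open Equiv Finset MvPolynomial

variable {k n : ℕ}

theorem LRm_exists (p : PT k n) (μ : VB k n →₀ ℕ) (h : VV p μ) : ∃ φF, LRm p μ φF := by
  obtain ⟨M, U, i1, i2, i3, i4, B, α, hμ⟩ := VV_dec p μ h
  have hB : B.BV p := (Base.VV_expo p B α).1 (hμ ▸ h)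
  obtain ⟨φF, hφ⟩ := Base.LR_exists hB (Pi.single α 1)
  exact ⟨φF, M, U, i1, i2, i3, i4, B, α, hB, hμ, hφ⟩

theorem LRm.vv {p : PT k n} {μ : VB k n →₀ ℕ} {φF : FF k n} (h : LRm p μ φF) : VV p μ := by
  obtain ⟨M, U, i1, i2, i3, i4, B, α, hB, hμ, -⟩ := h
  rw [hμ]
  exact (Base.VV_expo p B α).2 hB

theorem LRm.mem {p : PT k n} {μ : VB k n →₀ ℕ} {φF : FF k n} (h : LRm p μ φF) :
    φF ∈ Submodule.span ℂ (TSP (pwM p μ) p) := by
  obtain ⟨M, U, i1, i2, i3, i4, B, α, hB, hμ, hL⟩ := h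
  rw [hμ]
  exact Base.LR_TSP hB hL α

theorem RS_support (p : PT k n) (a : PW n) (w : FF k n × BB k n)
    (hw : w ∈ Submodule.span ℂ (RS p a)) : ∀ μ ∈ w.2.support, VV p μ ∧ pwM p μ = a := by
  induction hw using Submodule.span_induction with
  | mem w hw =>
    obtain ⟨M, U, i1, i2, i3, i4, B, φ, c, hB, hc, hR, ha, rfl⟩ := hw
    intro μ hμ
    have h1 := MvPolynomial.support_sum (show μ ∈ (B.rho φ.1).support from hμ)
    rw [Finset.mem_biUnion] at h1
    obtain ⟨β, -, hβ⟩ := h1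
    have h2 := MvPolynomial.support_monomial_subset hβ
    rw [Finset.mem_singleton] at h2
    rw [h2]
    exact ⟨(Base.VV_expo p B _).2 hB, (Base.Rz.pw hR hB _).trans ha⟩
  | zero =>
    intro μ hμ
    simp at hμ
  | add x y _ _ hx hy =>
    intro μ hμ
    have h1 := MvPolynomial.support_add (show μ ∈ (x.2 + y.2).support from hμ)
    rcases Finset.mem_union.1 h1 with h2 | h2
    · exact hx μ h2
    · exact hy μ h2
  | smul r x _ hx =>
    intro μ hμ
    exact hx μ (MvPolynomial.support_smul (show μ ∈ (r • x.2).support from hμ))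

theorem h3_Lam_monomial (p : PT k n) (a : PW n) (μ : VB k n →₀ ℕ) :
    Lam p a (monomial μ 1) = Lam0 p a μ := by
  have h := (basisMonomials (VB k n) ℂ).constr_basis ℂ (Lam0 p a) μ
  rw [coe_basisMonomials] at h
  exact h

theorem h3_Lam0_LRm (p : PT k n) (a : PW n) (μ : VB k n →₀ ℕ) (ha : pwM p μ = a) (h : VV p μ) :
    LRm p μ (Lam0 p a μ) := by
  have h1 : pwM p μ = a ∧ ∃ φF, LRm p μ φF := ⟨ha, LRm_exists p μ h⟩
  unfold Lam0
  rw [dif_pos h1]
  exact h1.2.choose_spec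

theorem h3_Lam0_zero (p : PT k n) (a : PW n) (μ : VB k n →₀ ℕ) (h : ¬ (VV p μ ∧ pwM p μ = a)) :
    Lam0 p a μ = 0 := by
  unfold Lam0
  rw [dif_neg]
  rintro ⟨ha, φF, hφ⟩
  exact h ⟨hφ.vv, ha⟩

theorem h3_pwM_fst {M U : Type} [Fintype M] [DecidableEq M] [Fintype U] [DecidableEq U]
    (p : PT k n) (B : Base k n M U) (α : B.Lbl) : (pwM p (B.expo α)).1 = Fintype.card M := by
  have h := B.sum_expo_core α (fun _ => 1)
  simp only [mul_one, Finset.sum_const, Finset.card_univ, smul_eq_mul] at h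
  exact h

theorem h3_pwM_snd {M U : Type} [Fintype M] [DecidableEq M] [Fintype U] [DecidableEq U]
    (p : PT k n) (B : Base k n M U) (α : B.Lbl) : (pwM p (B.expo α)).2.1 = B.tb := by
  show ∑ z, ∑ s, B.expo α (Sum.inr (z, Sum.inl s)) = ∑ z, ∑ s, B.sing z s
  refine Finset.sum_congr rfl (fun z _ => Finset.sum_congr rfl (fun s _ => ?_))
  exact B.expo_single α z s

theorem h3_sum_tb {M U M' U' : Type} [Fintype M] [Fintype U] [Fintype M'] [Fintype U']
    (B : Base k n M U) (B' : Base k n M' U') : (B.sum B').tb = B.tb + B'.tb := by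
  show ∑ z, ∑ s, (B.sing z s + B'.sing z s) = ∑ z, ∑ s, B.sing z s + ∑ z, ∑ s, B'.sing z s
  simp only [Finset.sum_add_distrib]

theorem h3_pwM_zero (p : PT k n) : pwM p (0 : VB k n →₀ ℕ) = 0 := by
  have h := pwM_add p (0 : VB k n →₀ ℕ) 0
  rw [add_zero] at h
  exact left_eq_add.1 h

theorem h3_mul_expand (μ : VB k n →₀ ℕ) (f : BB k n) :
    monomial μ (1 : ℂ) * f = ∑ ν ∈ f.support, f.coeff ν • monomial (μ + ν) (1 : ℂ) := by
  conv_lhs => rw [f.as_sum]
  rw [Finset.mul_sum]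
  refine Finset.sum_congr rfl (fun ν _ => ?_)
  rw [monomial_mul, smul_monomial, one_mul, smul_eq_mul, mul_one]

theorem keyB (p : PT k n) (a : PW n) (μ : VB k n →₀ ℕ) (φ₁ : FF k n) (h : LRm p μ φ₁)
    (w : FF k n × BB k n) (hw : w ∈ Submodule.span ℂ (RS p a)) :
    Lam p (pwM p μ + a) (monomial μ 1 * w.2) - φ₁ * w.1 ∈
      Low k n (pwM p μ + a).1 (pwM p μ + a).2.1 := by
  induction hw using Submodule.span_induction with
  | mem w hw =>
    obtain ⟨M', U', j1, j2, j3, j4, B', φ', c, hB', hc, hR, ha, rfl⟩ := hw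
    obtain ⟨M, U, i1, i2, i3, i4, B, α, hB, hμ, hL⟩ := h
    have hS : (B.sum B').BV p := Base.BV.sum hB hB'
    have e1 : (pwM p μ + a).1 = Fintype.card (M ⊕ M') := by
      rw [Prod.fst_add, hμ, h3_pwM_fst, ← ha, Fintype.card_sum]
      rfl
    have e2 : (pwM p μ + a).2.1 = (B.sum B').tb := by
      rw [Prod.snd_add, Prod.fst_add, hμ, h3_pwM_snd, ← ha, h3_sum_tb, ← Base.Rz.tt hR]
      rfl
    rw [e1, e2]
    have e3 : Lam p (pwM p μ + a) (monomial μ 1 * B'.rho φ'.1) =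
        ∑ β : B'.Ends → Lb k, Lam0 p (pwM p μ + a)
          ((B.sum B').expo (Base.sumL B B' α (fun q => β (φ'.1.symm q), β))) := by
      unfold Base.rho
      rw [Finset.mul_sum, map_sum]
      refine Finset.sum_congr rfl (fun β _ => ?_)
      rw [monomial_mul, one_mul, h3_Lam_monomial, Base.expo_sum, ← hμ]
    have e4 : ∀ β : B'.Ends → Lb k, (B.sum B').LR p
        (Pi.single (Base.sumL B B' α (fun q => β (φ'.1.symm q), β)) 1)
        (Lam0 p (pwM p μ + a)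
          ((B.sum B').expo (Base.sumL B B' α (fun q => β (φ'.1.symm q), β)))) := by
      intro β
      have h1 : pwM p ((B.sum B').expo (Base.sumL B B' α (fun q => β (φ'.1.symm q), β))) =
          pwM p μ + a := by
        rw [Base.expo_sum, pwM_add, ← hμ, Base.Rz.pw hR hB', ha]
      obtain ⟨M₂, U₂, l1, l2, l3, l4, B₂, α₂, -, hν, hL₂⟩ :=
        h3_Lam0_LRm p _ _ h1 ((Base.VV_expo p (B.sum B') _).2 hS)
      exact Base.LR_iso B₂ (B.sum B') α₂ _ hν.symm _ hL₂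
    show Lam p (pwM p μ + a) (monomial μ 1 * B'.rho φ'.1) - φ₁ * c.tau ∈ _
    rw [e3]
    exact Base.LR_uniq hS (Base.LR_sum _ _ e4) (Base.LR_prod α hL φ' c hc hR)
  | zero => simp
  | add x y _ _ hx hy =>
    have e : Lam p (pwM p μ + a) (monomial μ 1 * (x + y).2) - φ₁ * (x + y).1 =
        (Lam p (pwM p μ + a) (monomial μ 1 * x.2) - φ₁ * x.1) +
          (Lam p (pwM p μ + a) (monomial μ 1 * y.2) - φ₁ * y.1) := by
      rw [Prod.fst_add, Prod.snd_add, mul_add, mul_add, map_add]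
      abel
    rw [e]
    exact Submodule.add_mem _ hx hy
  | smul r x _ hx =>
    have e : Lam p (pwM p μ + a) (monomial μ 1 * (r • x).2) - φ₁ * (r • x).1 =
        r • (Lam p (pwM p μ + a) (monomial μ 1 * x.2) - φ₁ * x.1) := by
      rw [Prod.smul_fst, Prod.smul_snd, mul_smul_comm, mul_smul_comm, map_smul, smul_sub]
    rw [e]
    exact Submodule.smul_mem _ r hx

theorem keyB0 (p : PT k n) (a a₀ : PW n) (μ : VB k n →₀ ℕ) (h : ¬ (VV p μ ∧ pwM p μ + a = a₀))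
    (w : FF k n × BB k n) (hw : w ∈ Submodule.span ℂ (RS p a)) :
    Lam p a₀ (monomial μ 1 * w.2) = 0 := by
  rw [h3_mul_expand, map_sum]
  refine Finset.sum_eq_zero (fun ν hν => ?_)
  obtain ⟨h1, h2⟩ := RS_support p a w hw ν hν
  rw [map_smul, h3_Lam_monomial, h3_Lam0_zero, smul_zero]
  rintro ⟨h3, h4⟩
  refine h ⟨(VV_add_iff p μ ν h1).1 h3, ?_⟩
  rw [← h4, pwM_add, h2]

theorem h3_monomial_eq (μ : VB k n →₀ ℕ) (r : ℂ) (f : BB k n) :
    monomial μ r * f = r • (monomial μ (1 : ℂ) * f) := by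
  rw [← smul_mul_assoc, smul_monomial, smul_eq_mul, mul_one]

theorem h3_Lam_ZZ (D : ℕ) (p : PT k n) (a₀ : PW n) (z : BB k n) (hz : z ∈ ZZ k D n p) :
    ∀ r : BB k n, Lam p a₀ (r * z) ∈ Tgt D a₀ p := by
  unfold ZZ at hz
  induction hz using Submodule.span_induction with
  | mem z hz =>
    obtain ⟨a, w, hw, hT, rfl⟩ := hz
    intro r
    induction r using MvPolynomial.induction_on' with
    | monomial μ r =>
      rw [h3_monomial_eq, map_smul]
      refine Submodule.smul_mem _ r ?_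
      by_cases hc : VV p μ ∧ pwM p μ + a = a₀
      · obtain ⟨h1, rfl⟩ := hc
        obtain ⟨φ₁, hφ⟩ := LRm_exists p μ h1
        have h2 := Low_le_Tgt D _ p (keyB p a μ φ₁ hφ w hw)
        have h3 := TSP_mul_Tgt (pwM p μ) D a p φ₁ hφ.mem w.1 hT
        have h4 := Submodule.add_mem _ h2 h3
        rwa [sub_add_cancel] at h4
      · rw [keyB0 p a a₀ μ hc w hw]
        exact Submodule.zero_mem _
    | add r s hr hs =>
      rw [add_mul, map_add]
      exact Submodule.add_mem _ hr hs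
  | zero =>
    intro r
    rw [mul_zero, map_zero]
    exact Submodule.zero_mem _
  | add x y _ _ hx hy =>
    intro r
    rw [mul_add, map_add]
    exact Submodule.add_mem _ (hx r) (hy r)
  | smul s x _ hx =>
    intro r
    rw [smul_eq_mul, ← mul_assoc]
    exact hx _

theorem Lam_ZZ (D : ℕ) (p : PT k n) (a₀ : PW n) (z : BB k n) (hz : z ∈ ZZ k D n p) :
    Lam p a₀ z ∈ Tgt D a₀ p := by
  have h := h3_Lam_ZZ D p a₀ z hz 1
  rwa [one_mul] at h

/-- Purity. -/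
theorem pure (D : ℕ) (p : PT k n) (a : PW n) (w : FF k n × BB k n)
    (hw : w ∈ Submodule.span ℂ (RS p a)) (hz : w.2 ∈ ZZ k D n p) : w.1 ∈ Tgt D a p := by
  have h1 := keyB p a 0 1 (LRm_zero p) w hw
  rw [h3_pwM_zero, zero_add, one_mul, show (monomial (0 : VB k n →₀ ℕ) (1 : ℂ) : BB k n) = 1 from rfl,
    one_mul] at h1
  have h2 := Low_le_Tgt D a p h1
  have h3 := Submodule.sub_mem _ (Lam_ZZ D p a w.2 hz) h2
  rwa [sub_sub_cancel] at h3

theorem h3_support_mul (μ : VB k n →₀ ℕ) (r : ℂ) (f : BB k n) (τ : VB k n →₀ ℕ)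
    (h : (monomial μ r * f).coeff τ ≠ 0) : ∃ ν ∈ f.support, τ = μ + ν := by
  have h1 := MvPolynomial.support_mul _ _ (MvPolynomial.mem_support_iff.2 h)
  obtain ⟨x, hx, y, hy, hxy⟩ := Finset.mem_add.1 h1
  have h2 := MvPolynomial.support_monomial_subset hx
  rw [Finset.mem_singleton] at h2
  exact ⟨y, hy, by rw [← hxy, h2]⟩

theorem h3_ZZ_proj (D : ℕ) (p : PT k n) (f : BB k n) (hf : f ∈ ZZ k D n p) :
    ∀ r : BB k n, ∃ g ∈ ZZ k D n p, (∀ μ, VV p μ → g.coeff μ = (r * f).coeff μ) ∧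
      ∀ μ, ¬ VV p μ → g.coeff μ = 0 := by
  have hadd : ∀ x y : BB k n,
      (∃ g ∈ ZZ k D n p, (∀ μ, VV p μ → g.coeff μ = x.coeff μ) ∧ ∀ μ, ¬ VV p μ → g.coeff μ = 0) →
      (∃ g ∈ ZZ k D n p, (∀ μ, VV p μ → g.coeff μ = y.coeff μ) ∧ ∀ μ, ¬ VV p μ → g.coeff μ = 0) →
      ∃ g ∈ ZZ k D n p, (∀ μ, VV p μ → g.coeff μ = (x + y).coeff μ) ∧
        ∀ μ, ¬ VV p μ → g.coeff μ = 0 := by
    rintro x y ⟨g, hg, h1, h2⟩ ⟨g', hg', h1', h2'⟩
    refine ⟨g + g', Ideal.add_mem _ hg hg', fun μ hμ => ?_, fun μ hμ => ?_⟩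
    · rw [coeff_add, coeff_add, h1 μ hμ, h1' μ hμ]
    · rw [coeff_add, h2 μ hμ, h2' μ hμ, add_zero]
  have hf' : f ∈ Submodule.span (BB k n) (ZG D p) := hf
  induction hf' using Submodule.span_induction with
  | mem z hz =>
    obtain ⟨a, w, hw, hT, rfl⟩ := hz
    intro r
    induction r using MvPolynomial.induction_on' with
    | monomial μ r =>
      by_cases hc : VV p μ
      · refine ⟨monomial μ r * w.2, Ideal.mul_mem_left _ _ hf, fun _ _ => rfl, fun τ hτ => ?_⟩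
        by_contra h0
        obtain ⟨ν, hν, rfl⟩ := h3_support_mul μ r w.2 τ h0
        exact hτ ((VV_add_iff p μ ν (RS_support p a w hw ν hν).1).2 hc)
      · refine ⟨0, Ideal.zero_mem _, fun τ hτ => ?_, fun _ _ => coeff_zero _⟩
        rw [coeff_zero]
        by_contra h0
        obtain ⟨ν, hν, rfl⟩ := h3_support_mul μ r w.2 τ (fun h1 => h0 h1.symm)
        exact hc ((VV_add_iff p μ ν (RS_support p a w hw ν hν).1).1 hτ)
    | add r s hr hs =>
      rw [add_mul]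
      exact hadd _ _ hr hs
  | zero =>
    intro r
    rw [mul_zero]
    exact ⟨0, Ideal.zero_mem _, fun _ _ => rfl, fun _ _ => coeff_zero _⟩
  | add x y hx' hy' hx hy =>
    intro r
    rw [mul_add]
    exact hadd _ _ (hx hx' r) (hy hy' r)
  | smul s x hx' hx =>
    intro r
    rw [smul_eq_mul, ← mul_assoc]
    exact hx hx' _

theorem ZZ_proj (D : ℕ) (p : PT k n) (f : BB k n) (hf : f ∈ ZZ k D n p) :
    ∃ g ∈ ZZ k D n p, (∀ μ ∈ {μ | VV p μ}, g.coeff μ = f.coeff μ) ∧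
      ∀ μ, μ ∉ {μ | VV p μ} → g.coeff μ = 0 := by
  have h := h3_ZZ_proj D p f hf 1
  rw [one_mul] at h
  exact h

theorem ZZ_mono {D D' : ℕ} (h : D ≤ D') (p : PT k n) : ZZ k D n p ≤ ZZ k D' n p := by
  refine Ideal.span_mono ?_
  rintro z ⟨a, w, hw, hT, rfl⟩
  exact ⟨a, w, hw, Tgt_mono h a p hT, rfl⟩

end Pool.Agent.Lib.MP_595dc0_ag.Dk
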