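import Mathlib
import Pool.Agent.Lib.MP_595dc0_ag.DkL3b
import Pool.Agent.Lib.MP_595dc0_ag.DkL2g

set_option autoImplicit false

namespace Pool.Agent.Lib.MP_595dc0_ag.Dk

open Equiv Finset MvPolynomial

variable {k n : ℕ} {M U : Type} [Fintype M] [DecidableEq M] [Fintype U] [DecidableEq U]

namespace Base

/-- A matching after the insertion of a column. -/
def insM (p : PT k n) (B : Base k n M U) (i' : Fin (n + 1)) (y : M × Fin k → Fin k)
    (φ : B.Match p) : (B.ins i' y).Match (fun t => i'.succAbove (p t)) :=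
  ⟨φ.1, by
    intro q
    have h := φ.2 q
    show B.kS (φ.1 q) = (B.pd q.1.1).kind (pos _ (i'.succAbove (B.col q.1.1))) q.1.2
    rw [pos_succAbove]
    exact h⟩

variable {p : PT k n} {B : Base k n M U} {c : Cfg k n M U}

theorem BV.ins (h : B.BV p) (i' : Fin (n + 1)) (y : M × Fin k → Fin k) :
    (B.ins i' y).BV (fun t => i'.succAbove (p t)) := by
  obtain ⟨h1, ⟨φ⟩, h3⟩ := h
  refine ⟨h1, ⟨insM p B i' y φ⟩, fun z g => ?_⟩
  rcases Fin.eq_self_or_eq_succAbove i' z with rfl | ⟨z, rfl⟩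
  · have e1 : (univ.filter (fun q : U × Bool => (B.ins z y).col q.1 = z ∧
        ((B.ins z y).pd q.1).1 = g.1 ∧ ((B.ins z y).pd q.1).2.1 q.2 = g.2)) = ∅ :=
      filter_eq_empty_iff.2 fun q _ hq => Fin.succAbove_ne z _ hq.1
    rw [e1, card_empty, add_zero]
    have e2 : ∀ a, (B.ins z y).sing z (g, a) = ((univ.filter (fun r : M × Fin k =>
        (B.ty r.1).1 = g.1 ∧ r.2 = g.2)).filter (fun r => y r = a)).card := by
      intro a
      rw [filter_filter]
      simp only [Base.ins, Fin.insertNth_apply_same, and_assoc]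
    simp only [e2]
    rw [← card_eq_sum_card_fiberwise (fun _ _ => mem_coe.2 (mem_univ _))]
    refine card_bij (fun r _ => r.1) (fun r hr => ?_) (fun r hr r' hr' e => ?_) fun m hm => ?_
    · exact mem_filter.2 ⟨mem_univ _, (mem_filter.1 hr).2.1⟩
    · exact Prod.ext e ((mem_filter.1 hr).2.2.trans (mem_filter.1 hr').2.2.symm)
    · exact ⟨(m, g.2), mem_filter.2 ⟨mem_univ _, (mem_filter.1 hm).2, rfl⟩, rfl⟩
  · have e1 := h3 z g
    simp only [Base.ins, Fin.insertNth_apply_succAbove, Fin.succAbove_right_inj]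
    exact e1

theorem Rz.ins {φ : B.Match p} (h : B.Rz φ.1 c) (i' : Fin (n + 1)) (i : Fin n)
    (y : M × Fin k → Fin k) : (B.ins i' y).Rz (insM p B i' y φ).1 (c.ins i' i ∅ y) := by
  have hcol : ∀ u, (c.ins i' i ∅ y).col u = i'.succAbove (c.col u) := fun u => by
    simp [Cfg.ins]
  have hcell : ∀ q, (c.ins i' i ∅ y).cell q = (i'.succAbove (c.col q.1), c.rw q.1 q.2) :=
    fun q => Prod.ext (hcol q.1) rfl
  refine ⟨h.cls, ?_, h.role, fun u b => ?_, h.mo, ?_⟩
  · funext u
    rw [hcol, h.col]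
    rfl
  · rw [hcol, Cfg.ins_empty_x, insArr_succAbove]
    exact h.lett u b
  · funext z s
    rcases Fin.eq_self_or_eq_succAbove i' z with rfl | ⟨z, rfl⟩
    · simp only [Base.ins, Fin.insertNth_apply_same, Cfg.sing]
      congr 1
      ext r
      simp only [mem_filter, mem_univ, true_and]
      rw [Cfg.ins_empty_x, insArr_same, ← h.cls]
      refine and_iff_right fun q hq => ?_
      rw [hcell] at hq
      exact Fin.succAbove_ne z _ (congrArg Prod.fst hq)
    · simp only [Base.ins, Fin.insertNth_apply_succAbove, ← h.sing, Cfg.sing]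
      congr 1
      ext r
      simp only [mem_filter, mem_univ, true_and]
      rw [Cfg.ins_empty_x, insArr_succAbove]
      refine and_congr (forall_congr' fun q => not_congr ?_) Iff.rfl
      rw [hcell, Cfg.cell, Prod.mk.injEq (c.col q.1), Prod.mk.injEq, Fin.succAbove_right_inj]

omit [DecidableEq M] [DecidableEq U] in
theorem l3i_mon (B : Base k n M U) (α : B.Lbl) :
    (monomial (B.expo α) 1 : BB k n) = (∏ m, X (Sum.inl (B.core α.1 m))) *
      (∏ u, X (Sum.inr (B.col u, Sum.inr (B.pv α.2 u)))) *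
      ∏ z, ∏ s, X (Sum.inr (z, Sum.inl s)) ^ B.sing z s := by
  have e : ∀ μ ν : VB k n →₀ ℕ, (monomial (μ + ν) 1 : BB k n) = monomial μ 1 * monomial ν 1 :=
    fun μ ν => by rw [monomial_mul, mul_one]
  rw [expo, e, e]
  simp only [monomial_sum_one, ← X_pow_eq_monomial, pow_one]

theorem l3i_fib {R S A : Type} [Fintype S] [DecidableEq S] [CommMonoid A] (T : Finset R)
    (g : R → S) (F : S → A) :
    ∏ s, F s ^ (T.filter (fun r => g r = s)).card = ∏ r ∈ T, F (g r) := by
  rw [← prod_fiberwise' T g F]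
  simp only [prod_const]

omit [DecidableEq M] [DecidableEq U] in
theorem l3i_mon_ins (B : Base k n M U) (α : B.Lbl) (i' : Fin (n + 1)) (y : M × Fin k → Fin k) :
    (monomial ((B.ins i' y).expo α) 1 : BB k (n + 1)) = (∏ m, X (Sum.inl (B.core α.1 m))) *
      (∏ u, X (Sum.inr (i'.succAbove (B.col u), Sum.inr (B.pv α.2 u)))) *
      (∏ z, ∏ s, X (Sum.inr (i'.succAbove z, Sum.inl s)) ^ B.sing z s) *
      ∏ r : M × Fin k, X (Sum.inr (i', Sum.inl (((B.ty r.1).1, r.2), y r))) := by
  have e1 : ∀ s, (B.ins i' y).sing i' s = (univ.filter (fun r : M × Fin k =>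
      ((((B.ty r.1).1, r.2), y r) : Grp k × Fin k) = s)).card := by
    intro s
    simp only [Base.ins, Fin.insertNth_apply_same]
    congr 1
    refine filter_congr fun r _ => ?_
    rw [Prod.ext_iff, Prod.ext_iff, and_assoc]
  have e2 : ∀ z, (B.ins i' y).sing (i'.succAbove z) = B.sing z := fun z => by
    simp only [Base.ins, Fin.insertNth_apply_succAbove]
  rw [l3i_mon (B.ins i' y) α, Fin.prod_univ_succAbove _ i', ← mul_assoc, mul_right_comm,
    ← l3i_fib univ (fun r : M × Fin k => ((((B.ty r.1).1, r.2), y r) : Grp k × Fin k))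
      (fun s => (X (Sum.inr (i', Sum.inl s)) : BB k (n + 1)))]
  simp only [e1, e2]
  rfl

theorem l3i_rows {A : Type} [CommMonoid A] {φ : B.Match p} (h : B.Rz φ.1 c) (hc : c.Valid)
    (i : Fin n) (F : Grp k × Fin k → A) (α : B.Ends → Lb k) :
    (∏ u, if B.col u = i then F (cellsV (B.pv α u) false) * F (cellsV (B.pv α u) true) else 1) *
      ∏ s, F s ^ B.sing i s = ∏ r : M × Fin k, F (((B.ty r.1).1, r.2), c.x i r) := by
  classical
  rw [← prod_filter_not_mul_prod_filter univ (fun r : M × Fin k => c.free (i, r))]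
  congr 1
  · have e1 : ∀ u, (if B.col u = i then F (cellsV (B.pv α u) false) * F (cellsV (B.pv α u) true)
        else 1) = ∏ b, if B.col u = i then F (cellsV (B.pv α u) b) else 1 := by
      intro u
      split_ifs
      · rw [Fintype.prod_bool, mul_comm]
      · rw [prod_const_one]
    simp only [e1]
    rw [← Fintype.prod_prod_type', ← prod_filter]
    refine prod_bij (fun q _ => c.rw q.1 q.2) (fun q hq => ?_) (fun q hq q' hq' e => ?_)
      (fun r hr => ?_) fun q hq => ?_
    · refine mem_filter.2 ⟨mem_univ _, fun hf => hf q (Prod.ext ?_ rfl)⟩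
      rw [← (mem_filter.1 hq).2, ← h.col]
      rfl
    · refine hc.inj (Prod.ext ?_ e)
      have e2 := (mem_filter.1 hq).2.trans (mem_filter.1 hq').2.symm
      rw [← h.col] at e2
      exact e2
    · have e2 := (mem_filter.1 hr).2
      simp only [Cfg.free, not_forall, not_not] at e2
      obtain ⟨q, hq⟩ := e2
      refine ⟨q, mem_filter.2 ⟨mem_univ _, ?_⟩, congrArg Prod.snd hq⟩
      rw [← h.col]
      exact congrArg Prod.fst hq
    · have e2 := (mem_filter.1 hq).2
      rw [← h.col] at e2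
      congr 1
      refine Prod.ext (Prod.ext ?_ ?_) ?_
      · exact (h.pd_cls hc q.1 q.2).trans (h.cls _)
      · exact (congrFun (h.role q.1) q.2).symm
      · rw [← e2]
        exact (h.lett q.1 q.2).symm
  · rw [← l3i_fib _ (fun r : M × Fin k => ((((B.ty r.1).1, r.2), c.x i r) : Grp k × Fin k)) F]
    refine prod_congr rfl fun s _ => ?_
    rw [← h.sing, Cfg.sing, filter_filter]
    congr 2
    refine filter_congr fun r _ => ?_
    rw [h.cls, Prod.ext_iff, Prod.ext_iff, and_assoc]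

theorem l3i_ell (i' : Fin (n + 1)) (s : Fin k → ℕ) (g : Grp k) (a : Fin k) :
    atCol (Core k) i' (ellC (PV k) s (g, a)) =
      ∑ b, lc s a b • (X (Sum.inr (i', Sum.inl (g, b))) : BB k (n + 1)) := by
  simp [atCol, ellC, lc, add_smul, sum_add_distrib, ite_smul]

theorem l3i_op {φ : B.Match p} (h : B.Rz φ.1 c) (hc : c.Valid) (i' : Fin (n + 1)) (i : Fin n)
    (s : Fin k → ℕ) (α : B.Lbl) :
    opB (Core k) cellsV i' i s (monomial (B.expo α) 1) =
      ∑ y, coef s (c.x i) y • monomial ((B.ins i' y).expo α) 1 := by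
  have e1 := l3i_rows h hc i (fun t => atCol (Core k) i' (ellC (PV k) s t)) α.2
  have e2 : ∏ r : M × Fin k, atCol (Core k) i' (ellC (PV k) s (((B.ty r.1).1, r.2), c.x i r)) =
      ∑ y, coef s (c.x i) y • ∏ r : M × Fin k,
        (X (Sum.inr (i', Sum.inl (((B.ty r.1).1, r.2), y r))) : BB k (n + 1)) := by
    simp only [l3i_ell]
    rw [prod_univ_sum, Fintype.piFinset_univ]
    exact sum_congr rfl fun y _ => prod_smul _ _ _
  have e3 : ∏ z, ∏ t, (if z = i then atCol (Core k) i' (ellC (PV k) s t) else 1) ^ B.sing z t =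
      ∏ t, atCol (Core k) i' (ellC (PV k) s t) ^ B.sing i t := by
    rw [prod_eq_single i (fun z _ hz => by simp [hz]) (fun hi => absurd (mem_univ i) hi)]
    simp
  simp only [l3i_mon_ins, ← mul_smul_comm]
  rw [← mul_sum, ← e2, ← e1, ← e3, l3i_mon]
  simp only [opB, map_mul, map_prod, map_pow, aeval_X, opV, facC, mul_pow, prod_mul_distrib]
  ring

theorem opB_rho {φ : B.Match p} (h : B.Rz φ.1 c) (hc : c.Valid) (i' : Fin (n + 1)) (i : Fin n)
    (s : Fin k → ℕ) :
    opB (Core k) cellsV i' i s (B.rho φ.1) =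
      ∑ y, coef s (c.x i) y • (B.ins i' y).rho (insM p B i' y φ).1 := by
  rw [rho, map_sum]
  simp only [l3i_op h hc]
  rw [sum_comm]
  exact sum_congr rfl fun y _ => smul_sum.symm

end Base

theorem l3i_span (a : PW n) (p : PT k n) (i'' i : Fin n) (hi : i'' ≤ i) (s : Fin k → ℕ)
    (g : WithBot (Lex (PT k (n + 1)))) (w : FF k n × BB k n)
    (hw : w ∈ Submodule.span ℂ (RS p a)) :
    ∃ w' ∈ Submodule.span ℂ (RS (fun t => i''.castSucc.succAbove (p t)) (insPW k i'' a)),
      w'.2 = opB (Core k) cellsV i''.castSucc i s w.2 ∧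
      ot i''.castSucc i s w.1 - w'.1 ∈ GLt (mkW (insPW k i'' a) g) := by
  induction hw using Submodule.span_induction with
  | mem w hw =>
    obtain ⟨M, U, _, _, _, _, B, φ, c, hB, hc, hR, rfl, rfl⟩ := hw
    refine ⟨∑ y, coef s (c.x i) y • ((c.ins i''.castSucc i ∅ y).tau,
      (B.ins i''.castSucc y).rho (Base.insM p B i''.castSucc y φ).1), ?_, ?_, ?_⟩
    · refine Submodule.sum_mem _ fun y _ => Submodule.smul_mem _ _ (Submodule.subset_span ?_)
      exact ⟨M, U, _, _, _, _, B.ins i''.castSucc y, Base.insM p B i''.castSucc y φ,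
        c.ins i''.castSucc i ∅ y, hB.ins _ y, c.ins_valid hc _ i ∅ (by simp) y, hR.ins _ i y,
        c.ins_pw hc i'' i y, rfl⟩
    · rw [Prod.snd_sum]
      exact (Base.opB_rho hR hc _ i s).symm
    · rw [Prod.fst_sum]
      exact ot_tau_sub c hc (hR.good hB) i'' i hi s g
  | zero => exact ⟨0, Submodule.zero_mem _, by simp, by simp⟩
  | add w₁ w₂ _ _ h₁ h₂ =>
    obtain ⟨v₁, a₁, b₁, c₁⟩ := h₁
    obtain ⟨v₂, a₂, b₂, c₂⟩ := h₂
    refine ⟨v₁ + v₂, Submodule.add_mem _ a₁ a₂, ?_, ?_⟩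
    · rw [Prod.snd_add, Prod.snd_add, map_add, b₁, b₂]
    · rw [Prod.fst_add, Prod.fst_add, map_add, add_sub_add_comm]
      exact Submodule.add_mem _ c₁ c₂
  | smul t w _ h =>
    obtain ⟨v, a₁, b₁, c₁⟩ := h
    refine ⟨t • v, Submodule.smul_mem _ _ a₁, ?_, ?_⟩
    · rw [Prod.smul_snd, Prod.smul_snd, map_smul, b₁]
    · rw [Prod.smul_fst, Prod.smul_fst, map_smul, ← smul_sub]
      exact Submodule.smul_mem _ _ c₁

theorem ZZ_op (D : ℕ) (p : PT k n) (i' : Fin (n + 1)) (i : Fin n) (s : Fin k → ℕ)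
    (hi : i' ≤ i.castSucc) (f : BB k n) (hf : f ∈ ZZ k D n p) :
    opB (Core k) cellsV i' i s f ∈ ZZ k D (n + 1) (fun t => i'.succAbove (p t)) := by
  obtain ⟨i'', rfl⟩ : ∃ i'' : Fin n, i' = i''.castSucc :=
    ⟨i'.castLT (lt_of_le_of_lt hi i.2), rfl⟩
  have hi' : i'' ≤ i := hi
  have key : ZZ k D n p ≤ (ZZ k D (n + 1) (fun t => i''.castSucc.succAbove (p t))).comap
      (opB (Core k) cellsV i''.castSucc i s) := by
    refine Ideal.span_le.2 ?_
    rintro z ⟨a, w, hw, h1, rfl⟩
    obtain ⟨w', k1, k2, k3⟩ := l3i_span a p i'' i hi' s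
      ((toLex (fun t => i''.castSucc.succAbove (p t)) : Lex (PT k (n + 1))) :
        WithBot (Lex (PT k (n + 1)))) w hw
    refine Ideal.subset_span ⟨insPW k i'' a, w', k1, ?_, k2.symm⟩
    have k4 := Submodule.sub_mem _ (ot_Tgt i'' i hi' s D a p w.1 h1) (Submodule.mem_sup_right k3)
    rwa [sub_sub_cancel] at k4
  exact key hf

end Pool.Agent.Lib.MP_595dc0_ag.Dk
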