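import Mathlib
import Pool.Agent.Lib.MP_595dc0_ag.DkWDefs

set_option autoImplicit false
set_option linter.unusedSectionVars false

/-! The monomial order, leading monomials and the embedding relation. -/

namespace Pool.Agent.Lib.MP_595dc0_ag.Dk.WAux

open Finset MvPolynomial

variable {Core Grp PV : Type} {k n : ℕ}

/-- The content of column `z`. -/
noncomputable def col (μ : Var Core Grp PV k n →₀ ℕ) (z : Fin n) : CV Grp PV k →₀ ℕ :=
  μ.comapDomain (fun v => Sum.inr (z, v)) fun _ _ _ _ h => by simpa using h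

@[simp] lemma col_apply (μ : Var Core Grp PV k n →₀ ℕ) (z : Fin n) (v : CV Grp PV k) :
    col μ z v = μ (Sum.inr (z, v)) := rfl

/-- The ideal spanned by the images of a column content. -/
noncomputable def JC (cells : PV → Bool → Grp × Fin k) (κ : CV Grp PV k →₀ ℕ) :
    Ideal (MvPolynomial (CV Grp PV k) ℂ) :=
  Ideal.span (Set.range fun s : Fin k → ℕ => aeval (facC cells s) (monomial κ (1 : ℂ)))

/-- A family of ideals closed under column insertion. -/
def Cl {q : ℕ} (cells : PV → Bool → Grp × Fin k)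
    (Z : (n : ℕ) → (Fin q → Fin n) → Ideal (MvPolynomial (Var Core Grp PV k n) ℂ)) : Prop :=
  ∀ n p (i' : Fin (n + 1)) (i : Fin n) (s : Fin k → ℕ), i' ≤ i.castSucc →
    ∀ f ∈ Z n p, opB Core cells i' i s f ∈ Z (n + 1) (fun t => i'.succAbove (p t))

/-- The embedding relation between marked monomials. -/
def Emb {q n' : ℕ} (cells : PV → Bool → Grp × Fin k) (p : Fin q → Fin n)
    (μ : Var Core Grp PV k n →₀ ℕ) (p' : Fin q → Fin n') (μ' : Var Core Grp PV k n' →₀ ℕ) : Prop :=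
  ∃ e : Fin n → Fin n', StrictMono e ∧ (∀ t, e (p t) = p' t) ∧
    (∀ c, μ (Sum.inl c) ≤ μ' (Sum.inl c)) ∧
    (∀ z v, μ (Sum.inr (z, v)) ≤ μ' (Sum.inr (e z, v))) ∧
    ∀ z', (∀ z, e z ≠ z') → ∃ z, z' < e z ∧ monomial (col μ' z') (1 : ℂ) ∈ JC cells (col μ z)

variable [Fintype Core] [Fintype Grp] [Fintype PV]

/-- Priority of the variables: cores first, then the columns from the last to the first. -/
def Pre : Var Core Grp PV k n → Var Core Grp PV k n → Prop
  | Sum.inl c, Sum.inl c' => Fintype.equivFin Core c < Fintype.equivFin Core c'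
  | Sum.inl _, Sum.inr _ => True
  | Sum.inr _, Sum.inl _ => False
  | Sum.inr x, Sum.inr y => y.1 < x.1 ∨
      (x.1 = y.1 ∧ Fintype.equivFin (CV Grp PV k) x.2 < Fintype.equivFin (CV Grp PV k) y.2)

lemma Pre_irrefl (x : Var Core Grp PV k n) : ¬ Pre x x := by
  rcases x with c | x <;> simp [Pre]

lemma Pre_trans {x y z : Var Core Grp PV k n} (h1 : Pre x y) (h2 : Pre y z) : Pre x z := by
  rcases x with x | x <;> rcases y with y | y <;> rcases z with z | z <;>
    simp only [Pre] at h1 h2 ⊢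
  · exact h1.trans h2
  · rcases h1 with h1 | ⟨h1, h1'⟩ <;> rcases h2 with h2 | ⟨h2, h2'⟩
    · exact Or.inl (h2.trans h1)
    · exact Or.inl (h2 ▸ h1)
    · exact Or.inl (h1 ▸ h2)
    · exact Or.inr ⟨h1.trans h2, h1'.trans h2'⟩

lemma Pre_tri (x y : Var Core Grp PV k n) : Pre x y ∨ x = y ∨ Pre y x := by
  rcases x with x | ⟨z, v⟩ <;> rcases y with y | ⟨z', v'⟩ <;> simp only [Pre]
  · rcases lt_trichotomy (Fintype.equivFin Core x) (Fintype.equivFin Core y) with h | h | h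
    · exact Or.inl h
    · exact Or.inr (Or.inl (by rw [(Fintype.equivFin Core).injective h]))
    · exact Or.inr (Or.inr h)
  · simp
  · simp
  · rcases lt_trichotomy z z' with h | rfl | h
    · exact Or.inr (Or.inr (Or.inl h))
    · rcases lt_trichotomy (Fintype.equivFin (CV Grp PV k) v) (Fintype.equivFin (CV Grp PV k) v')
        with h | h | h
      · exact Or.inl (Or.inr ⟨rfl, h⟩)
      · exact Or.inr (Or.inl (by rw [(Fintype.equivFin _).injective h]))
      · exact Or.inr (Or.inr (Or.inr ⟨rfl, h⟩))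
    · exact Or.inl (Or.inl h)

instance Pre_sto : IsStrictTotalOrder (Var Core Grp PV k n) Pre where
  irrefl := Pre_irrefl
  trans _ _ _ := Pre_trans
  trichotomous a b h1 h2 := ((Pre_tri a b).resolve_left h1).resolve_right h2

/-- The lexicographic order on monomials. -/
def MLt (μ ν : Var Core Grp PV k n →₀ ℕ) : Prop :=
  ∃ x, (∀ y, Pre y x → μ y = ν y) ∧ μ x < ν x

lemma MLt_wf : WellFounded (MLt : (Var Core Grp PV k n →₀ ℕ) → _ → Prop) :=
  Finsupp.Lex.wellFounded_of_finite Pre (wellFounded_lt (α := ℕ))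

lemma MLt_irrefl (μ : Var Core Grp PV k n →₀ ℕ) : ¬ MLt μ μ := fun ⟨_, _, h⟩ => lt_irrefl _ h

lemma MLt_trans {μ ν ρ : Var Core Grp PV k n →₀ ℕ} (h1 : MLt μ ν) (h2 : MLt ν ρ) : MLt μ ρ := by
  obtain ⟨x, hx, hx'⟩ := h1
  obtain ⟨y, hy, hy'⟩ := h2
  rcases Pre_tri x y with h | rfl | h
  · exact ⟨x, fun w hw => (hx w hw).trans (hy w (Pre_trans hw h)), hy x h ▸ hx'⟩
  · exact ⟨x, fun w hw => (hx w hw).trans (hy w hw), hx'.trans hy'⟩
  · exact ⟨y, fun w hw => (hx w (Pre_trans hw h)).trans (hy w hw), hx y h ▸ hy'⟩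

lemma MLt_tri (μ ν : Var Core Grp PV k n →₀ ℕ) : MLt μ ν ∨ μ = ν ∨ MLt ν μ := by
  by_cases h1 : MLt μ ν
  · exact Or.inl h1
  by_cases h2 : MLt ν μ
  · exact Or.inr (Or.inr h2)
  have hwf : WellFounded (Pre : Var Core Grp PV k n → _ → Prop) :=
    Finite.wellFounded_of_trans_of_irrefl Pre
  exact Or.inr (Or.inl (DFunLike.coe_injective
    ((Pi.trichotomous_lex Pre (fun {_} => ((· < ·) : ℕ → ℕ → Prop)) hwf).trichotomous _ _ h1 h2)))

lemma MLt.add_left {μ ν : Var Core Grp PV k n →₀ ℕ} (h : MLt μ ν) (ρ : Var Core Grp PV k n →₀ ℕ) :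
    MLt (ρ + μ) (ρ + ν) := by
  obtain ⟨x, hx, hx'⟩ := h
  exact ⟨x, fun y hy => by simp [hx y hy], by simpa using hx'⟩

/-- `μ` is the leading monomial of `f`. -/
def IsLead (f : MvPolynomial (Var Core Grp PV k n) ℂ) (μ : Var Core Grp PV k n →₀ ℕ) : Prop :=
  f.coeff μ ≠ 0 ∧ ∀ ν, f.coeff ν ≠ 0 → ν ≠ μ → MLt ν μ

lemma exists_isLead {f : MvPolynomial (Var Core Grp PV k n) ℂ} (hf : f ≠ 0) : ∃ μ, IsLead f μ := by
  have : IsStrictOrder (Var Core Grp PV k n →₀ ℕ) (fun μ ν => MLt ν μ) :=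
    { irrefl := MLt_irrefl
      trans := fun _ _ _ h1 h2 => MLt_trans h2 h1 }
  have hne : (f.support : Set (Var Core Grp PV k n →₀ ℕ)).Nonempty := by
    simpa using support_nonempty.2 hf
  obtain ⟨μ, hμ, hmin⟩ := (Set.wellFoundedOn_iff.1 (f.support.finite_toSet.wellFoundedOn
    (r := fun μ ν => MLt ν μ))).has_min _ hne
  refine ⟨μ, mem_support_iff.1 hμ, fun ν hν hne => ?_⟩
  have hν' : ν ∈ (f.support : Set _) := mem_support_iff.2 hν
  rcases MLt_tri ν μ with h | h | h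
  · exact h
  · exact absurd h hne
  · exact absurd ⟨h, hν', hμ⟩ (hmin ν hν')

lemma IsLead.monomial_mul {f : MvPolynomial (Var Core Grp PV k n) ℂ} {μ : Var Core Grp PV k n →₀ ℕ}
    (h : IsLead f μ) (ρ : Var Core Grp PV k n →₀ ℕ) : IsLead (monomial ρ 1 * f) (ρ + μ) := by
  classical
  refine ⟨by simpa [coeff_monomial_mul] using h.1, fun ν hν hne => ?_⟩
  rw [coeff_monomial_mul'] at hν
  split_ifs at hν with hle
  · obtain ⟨ν', rfl⟩ := exists_add_of_le hle
    rw [add_tsub_cancel_left, one_mul] at hν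
    exact (h.2 ν' hν fun e => hne (by rw [e])).add_left ρ
  · exact absurd rfl hν

end Pool.Agent.Lib.MP_595dc0_ag.Dk.WAux
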