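import Mathlib
import Pool.Agent.Lib.MP_595dc0_ag.DkWA

set_option autoImplicit false
set_option linter.unusedSectionVars false

/-! Insertion of one column. -/

namespace Pool.Agent.Lib.MP_595dc0_ag.Dk.WAux

open Finset MvPolynomial

variable {Core Grp PV : Type} {k n q : ℕ} [Fintype Core] [Fintype Grp] [Fintype PV]

/-- The shift of variables past the inserted column. -/
def dkwc_sh (i' : Fin (n + 1)) : Var Core Grp PV k n → Var Core Grp PV k (n + 1) :=
  Sum.map id (Prod.map i'.succAbove id)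

lemma dkwc_sh_inj (i' : Fin (n + 1)) :
    Function.Injective (dkwc_sh i' : Var Core Grp PV k n → _) :=
  Function.injective_id.sumMap (Fin.succAbove_right_injective.prodMap Function.injective_id)

/-- A monomial of the shifted variables times a monomial in the inserted column. -/
noncomputable def dkwc_join (i' : Fin (n + 1)) (ν : Var Core Grp PV k n →₀ ℕ)
    (κ : CV Grp PV k →₀ ℕ) : Var Core Grp PV k (n + 1) →₀ ℕ :=
  ν.mapDomain (dkwc_sh i') + κ.mapDomain (fun v => Sum.inr (i', v))

lemma dkwc_join_sh (i' : Fin (n + 1)) (ν : Var Core Grp PV k n →₀ ℕ) (κ : CV Grp PV k →₀ ℕ)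
    (x : Var Core Grp PV k n) : dkwc_join i' ν κ (dkwc_sh i' x) = ν x := by
  rw [dkwc_join, Finsupp.add_apply, Finsupp.mapDomain_apply (dkwc_sh_inj i'),
    Finsupp.mapDomain_of_notMem_range, add_zero]
  rintro ⟨v, hv⟩
  rcases x with c | ⟨z, w⟩
  · simp [dkwc_sh] at hv
  · simp only [dkwc_sh, Sum.map_inr, Prod.map_apply, id, Sum.inr.injEq, Prod.mk.injEq] at hv
    exact Fin.succAbove_ne i' z hv.1.symm

lemma dkwc_join_col (i' : Fin (n + 1)) (ν : Var Core Grp PV k n →₀ ℕ) (κ : CV Grp PV k →₀ ℕ)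
    (v : CV Grp PV k) : dkwc_join i' ν κ (Sum.inr (i', v)) = κ v := by
  have hinj : Function.Injective
      (fun v : CV Grp PV k => (Sum.inr (i', v) : Var Core Grp PV k (n + 1))) :=
    fun _ _ h => by simpa using h
  rw [dkwc_join, Finsupp.add_apply, Finsupp.mapDomain_of_notMem_range, zero_add]
  · exact Finsupp.mapDomain_apply hinj κ v
  · rintro ⟨x, hx⟩
    rcases x with c | ⟨z, w⟩
    · simp [dkwc_sh] at hx
    · simp only [dkwc_sh, Sum.map_inr, Prod.map_apply, id, Sum.inr.injEq, Prod.mk.injEq] at hx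
      exact Fin.succAbove_ne i' z hx.1

lemma dkwc_cases (i' : Fin (n + 1)) (y : Var Core Grp PV k (n + 1)) :
    (∃ x, y = dkwc_sh i' x) ∨ ∃ v, y = Sum.inr (i', v) := by
  rcases y with c | ⟨z, v⟩
  · exact Or.inl ⟨Sum.inl c, rfl⟩
  · by_cases h : z = i'
    · exact Or.inr ⟨v, by rw [h]⟩
    · obtain ⟨w, rfl⟩ := Fin.exists_succAbove_eq h
      exact Or.inl ⟨Sum.inr (w, v), rfl⟩

lemma dkwc_pre_sh (i' : Fin (n + 1)) {x y : Var Core Grp PV k n}
    (h : Pre (dkwc_sh i' y) (dkwc_sh i' x)) : Pre y x := by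
  rcases x with c | ⟨z, v⟩ <;> rcases y with c' | ⟨z', v'⟩ <;>
    simp only [dkwc_sh, Sum.map_inl, Sum.map_inr, Prod.map_apply, id, Pre] at h ⊢
  · exact h
  · rcases h with h | ⟨h, h'⟩
    · exact Or.inl (Fin.succAbove_lt_succAbove_iff.1 h)
    · exact Or.inr ⟨Fin.succAbove_right_injective h, h'⟩

lemma dkwc_col_add (ν ρ : Var Core Grp PV k n →₀ ℕ) (z : Fin n) :
    col (ν + ρ) z = col ν z + col ρ z := by
  ext v
  simp

lemma dkwc_op_mono (cells : PV → Bool → Grp × Fin k) (i' : Fin (n + 1)) (i : Fin n)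
    (s : Fin k → ℕ) (ν : Var Core Grp PV k n →₀ ℕ) :
    opB Core cells i' i s (monomial ν 1) = monomial (ν.mapDomain (dkwc_sh i')) 1 *
      atCol Core i' (aeval (facC cells s) (monomial (col ν i) (1 : ℂ))) := by
  classical
  induction ν using Finsupp.induction_linear with
  | zero =>
    have : col (0 : Var Core Grp PV k n →₀ ℕ) i = 0 := by ext v; simp
    simp [this]
  | add ν ρ hν hρ =>
    have e1 : (monomial (ν + ρ) (1 : ℂ)) = monomial ν 1 * monomial ρ 1 := by
      rw [monomial_mul, one_mul]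
    have e2 : (monomial (col ν i + col ρ i) (1 : ℂ)) =
        monomial (col ν i) 1 * monomial (col ρ i) 1 := by
      rw [monomial_mul, one_mul]
    have e3 : (monomial (ν.mapDomain (dkwc_sh i') + ρ.mapDomain (dkwc_sh i')) (1 : ℂ)) =
        monomial (ν.mapDomain (dkwc_sh i')) 1 * monomial (ρ.mapDomain (dkwc_sh i')) 1 := by
      rw [monomial_mul, one_mul]
    rw [e1, map_mul, hν, hρ, dkwc_col_add, e2, Finsupp.mapDomain_add, e3, map_mul, map_mul]
    ring
  | single x m =>
    rw [Finsupp.mapDomain_single, ← X_pow_eq_monomial, ← X_pow_eq_monomial, map_pow, opB, aeval_X]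
    rcases x with c | ⟨z, v⟩
    · have : col (Finsupp.single (Sum.inl c : Var Core Grp PV k n) m) i = 0 := by
        ext v
        simp
      simp [this, opV, dkwc_sh]
    · by_cases h : z = i
      · subst h
        have : col (Finsupp.single (Sum.inr (z, v) : Var Core Grp PV k n) m) z =
            Finsupp.single v m := by
          ext w
          simp [Finsupp.single_apply]
        rw [this, ← X_pow_eq_monomial, map_pow, aeval_X, map_pow]
        simp [opV, dkwc_sh, mul_pow]
      · have : col (Finsupp.single (Sum.inr (z, v) : Var Core Grp PV k n) m) i = 0 := by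
          ext w
          simp [h]
        simp [this, opV, dkwc_sh, h]

lemma dkwc_term_mono (i' : Fin (n + 1)) (ν : Var Core Grp PV k n →₀ ℕ) (κ : CV Grp PV k →₀ ℕ)
    (a b : ℂ) : monomial (ν.mapDomain (dkwc_sh i')) a * atCol Core i' (monomial κ b) =
      monomial (dkwc_join i' ν κ) (a * b) := by
  rw [atCol, rename_monomial, monomial_mul, dkwc_join]

lemma dkwc_term (i' : Fin (n + 1)) (ν : Var Core Grp PV k n →₀ ℕ) (a : ℂ)
    (H : MvPolynomial (CV Grp PV k) ℂ) (τ : Var Core Grp PV k (n + 1) →₀ ℕ)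
    (h : (monomial (ν.mapDomain (dkwc_sh i')) a * atCol Core i' H).coeff τ ≠ 0) :
    ∃ κ, H.coeff κ ≠ 0 ∧ τ = dkwc_join i' ν κ := by
  classical
  rw [H.as_sum, map_sum, Finset.mul_sum, coeff_sum] at h
  obtain ⟨κ, hκ, h'⟩ := Finset.exists_ne_zero_of_sum_ne_zero h
  rw [dkwc_term_mono, coeff_monomial] at h'
  refine ⟨κ, mem_support_iff.1 hκ, ?_⟩
  by_contra hne
  exact h' (if_neg fun e => hne e.symm)

/-- Sketch. Write `monomial (col μ' i') 1 = ∑ s ∈ S, c s * F (col μ i) s`
(`Finsupp.mem_ideal_span_range_iff_exists_finsupp` or `Submodule.mem_span_range_iff...`), where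
`F κ s = aeval (facC cells s) (monomial κ 1)`, and `g = ∑ s, atCol i' (c s) * opB i' i s f`. Let
`sh = Sum.map id (Prod.map i'.succAbove id)`. Then
`opB i' i s (monomial ν a) = monomial (ν.mapDomain sh) a * atCol i' (F (col ν i) s)` (induction on
`ν`, or `aeval_monomial` and `Finsupp.prod`), so `g = ∑ ν ∈ f.support, monomial (ν.mapDomain sh)
(f.coeff ν) * atCol i' (H ν)`, `H ν = ∑ s, c s * F (col ν i) s`. Every monomial of the term `ν` has the
form `τ` with `τ (inl c) = ν (inl c)`, `τ (inr (succAbove i' z, v)) = ν (inr (z, v))`; if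
`col ν i = col μ i` the term is a single monomial with column `i'` equal to `col μ' i'`. For `ν = μ`
this is `monomial μ' (f.coeff μ)`. For `ν ≠ μ` take the first difference `x` of `MLt ν μ`; then `sh x`
witnesses `MLt τ μ'`: if `col ν i = col μ i` the columns `i'` agree; otherwise `x` is a core or lies
in a column `z ≥ i`, so `i' < succAbove i' z` and no variable of column `i'` precedes `sh x`. -/
theorem ins {cells : PV → Bool → Grp × Fin k}
    {Z : (n : ℕ) → (Fin q → Fin n) → Ideal (MvPolynomial (Var Core Grp PV k n) ℂ)}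
    (hZ : Cl cells Z) {p : Fin q → Fin n} {f : MvPolynomial (Var Core Grp PV k n) ℂ}
    (hf : f ∈ Z n p) {μ : Var Core Grp PV k n →₀ ℕ} (hl : IsLead f μ) (i' : Fin (n + 1))
    (i : Fin n) (hi : i' ≤ i.castSucc) (μ' : Var Core Grp PV k (n + 1) →₀ ℕ)
    (h1 : ∀ c, μ' (Sum.inl c) = μ (Sum.inl c))
    (h2 : ∀ z v, μ' (Sum.inr (i'.succAbove z, v)) = μ (Sum.inr (z, v)))
    (h3 : monomial (col μ' i') (1 : ℂ) ∈ JC cells (col μ i)) :
    ∃ g ∈ Z (n + 1) (fun t => i'.succAbove (p t)), IsLead g μ' := by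
  classical
  obtain ⟨c, hc⟩ := Finsupp.mem_ideal_span_range_iff_exists_finsupp.1 h3
  let H : (Var Core Grp PV k n →₀ ℕ) → MvPolynomial (CV Grp PV k) ℂ := fun ν =>
    ∑ s ∈ c.support, c s * aeval (facC cells s) (monomial (col ν i) (1 : ℂ))
  have hH : ∀ ν, col ν i = col μ i → H ν = monomial (col μ' i') 1 := fun ν hν => by
    rw [← hc]
    simp only [H, hν, Finsupp.sum]
  have hsh : ∀ x, μ' (dkwc_sh i' x) = μ x := fun x => by
    rcases x with c | ⟨z, v⟩
    · exact h1 c
    · exact h2 z v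
  have hμ' : μ' = dkwc_join i' μ (col μ' i') := by
    ext y
    rcases dkwc_cases i' y with ⟨x, rfl⟩ | ⟨v, rfl⟩
    · rw [dkwc_join_sh, hsh]
    · rw [dkwc_join_col, col_apply]
  let T : (Var Core Grp PV k n →₀ ℕ) → MvPolynomial (Var Core Grp PV k (n + 1)) ℂ := fun ν =>
    monomial (ν.mapDomain (dkwc_sh i')) (f.coeff ν) * atCol Core i' (H ν)
  have hg : ∑ s ∈ c.support, atCol Core i' (c s) * opB Core cells i' i s f =
      ∑ ν ∈ f.support, T ν := by
    have e : ∀ s, opB Core cells i' i s f = ∑ ν ∈ f.support,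
        monomial (ν.mapDomain (dkwc_sh i')) (f.coeff ν) *
          atCol Core i' (aeval (facC cells s) (monomial (col ν i) (1 : ℂ))) := fun s => by
      conv_lhs => rw [f.as_sum, map_sum]
      refine Finset.sum_congr rfl fun ν _ => ?_
      have e1 : monomial ν (f.coeff ν) = C (f.coeff ν) * monomial ν (1 : ℂ) := by
        rw [C_mul_monomial, mul_one]
      rw [e1, map_mul, dkwc_op_mono, ← mul_assoc, opB, aeval_C, algebraMap_eq, C_mul_monomial,
        mul_one]
    simp only [e, Finset.mul_sum, T, H, map_sum, map_mul]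
    rw [Finset.sum_comm]
    exact Finset.sum_congr rfl fun ν _ => Finset.sum_congr rfl fun s _ => by ring
  have hTμ : T μ = monomial μ' (f.coeff μ) := by
    simp only [T]
    rw [hH μ rfl, dkwc_term_mono, ← hμ', mul_one]
  have hlt : ∀ ν ∈ f.support, ν ≠ μ → ∀ τ, (T ν).coeff τ ≠ 0 → MLt τ μ' := by
    intro ν hν hne τ hτ
    obtain ⟨κ, hκ, rfl⟩ := dkwc_term i' ν _ _ τ hτ
    obtain ⟨x, hx, hx'⟩ := hl.2 ν (mem_support_iff.1 hν) hne
    refine ⟨dkwc_sh i' x, fun y hy => ?_, by rwa [dkwc_join_sh, hsh]⟩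
    rcases dkwc_cases i' y with ⟨w, rfl⟩ | ⟨v, rfl⟩
    · rw [dkwc_join_sh, hsh]
      exact hx w (dkwc_pre_sh i' hy)
    · rw [dkwc_join_col]
      by_cases hcol : col ν i = col μ i
      · rw [hH ν hcol, coeff_monomial] at hκ
        have : col μ' i' = κ := by
          by_contra h
          exact hκ (if_neg h)
        rw [← this, col_apply]
      · exfalso
        rcases x with c | ⟨z, w⟩
        · exact hy
        · have hz : i ≤ z := by
            by_contra hlt
            exact hcol (by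
              ext u
              exact hx (Sum.inr (i, u)) (Or.inl (not_le.1 hlt)))
          have hlt : i' < i'.succAbove z :=
            (Fin.lt_succAbove_iff_le_castSucc i' z).2 (hi.trans (Fin.castSucc_le_castSucc_iff.2 hz))
          simp only [dkwc_sh, Sum.map_inr, Prod.map_apply, id, Pre] at hy
          rcases hy with h | ⟨h, -⟩
          · exact lt_asymm h hlt
          · exact hlt.ne h
  have hμs : μ ∈ f.support := mem_support_iff.2 hl.1
  refine ⟨∑ s ∈ c.support, atCol Core i' (c s) * opB Core cells i' i s f,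
    Ideal.sum_mem _ fun s _ => Ideal.mul_mem_left _ _ (hZ n p i' i s hi f hf), ?_⟩
  rw [hg]
  refine ⟨?_, fun τ hτ hne => ?_⟩
  · rw [coeff_sum, Finset.sum_eq_single μ, hTμ, coeff_monomial, if_pos rfl]
    · exact hl.1
    · intro ν hν hne
      by_contra h
      exact MLt_irrefl _ (hlt ν hν hne μ' h)
    · exact fun h => absurd hμs h
  · rw [coeff_sum] at hτ
    obtain ⟨ν, hν, h⟩ := Finset.exists_ne_zero_of_sum_ne_zero hτ
    by_cases e : ν = μ
    · subst e
      rw [hTμ, coeff_monomial] at h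
      exact absurd (if_neg fun e => hne e.symm) h
    · exact hlt ν hν e τ h

end Pool.Agent.Lib.MP_595dc0_ag.Dk.WAux
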