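import Mathlib
import Pool.Agent.Lib.MP_595dc0_ag.DkWC

set_option autoImplicit false
set_option linter.unusedSectionVars false

/-! Insertion of several columns. -/

namespace Pool.Agent.Lib.MP_595dc0_ag.Dk.WAux

open Finset MvPolynomial

variable {Core Grp PV : Type} {k n q : ℕ} [Fintype Core] [Fintype Grp] [Fintype PV]

/-- The exact version: equalities on the cores and on the image columns. -/
lemma dkwd_exact {cells : PV → Bool → Grp × Fin k}
    {Z : (n : ℕ) → (Fin q → Fin n) → Ideal (MvPolynomial (Var Core Grp PV k n) ℂ)}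
    (hZ : Cl cells Z) {p : Fin q → Fin n} {f : MvPolynomial (Var Core Grp PV k n) ℂ}
    (hf : f ∈ Z n p) {μ : Var Core Grp PV k n →₀ ℕ} (hl : IsLead f μ) (n' : ℕ) :
    ∀ (e : Fin n → Fin n') (μ' : Var Core Grp PV k n' →₀ ℕ), StrictMono e →
      (∀ c, μ' (Sum.inl c) = μ (Sum.inl c)) →
      (∀ z v, μ' (Sum.inr (e z, v)) = μ (Sum.inr (z, v))) →
      (∀ z', (∀ z, e z ≠ z') →
        ∃ z, z' < e z ∧ monomial (col μ' z') (1 : ℂ) ∈ JC cells (col μ z)) →
      ∃ g ∈ Z n' (fun t => e (p t)), IsLead g μ' := by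
  have hsurj : ∀ (m : ℕ) (e : Fin n → Fin m) (μ' : Var Core Grp PV k m →₀ ℕ), StrictMono e →
      Function.Surjective e →
      (∀ c, μ' (Sum.inl c) = μ (Sum.inl c)) →
      (∀ z v, μ' (Sum.inr (e z, v)) = μ (Sum.inr (z, v))) →
      ∃ g ∈ Z m (fun t => e (p t)), IsLead g μ' := by
    intro m e μ' he hs h1 h2
    have hnm : n = m := by
      have := Fintype.card_congr (Equiv.ofBijective e ⟨he.injective, hs⟩)
      simpa using this
    subst hnm
    have hid : ∀ z, e z = z := by
      intro z
      have h := Subsingleton.elim (he.orderIsoOfSurjective e hs) (OrderIso.refl (Fin n))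
      have h' := congrArg (fun φ : Fin n ≃o Fin n => φ z) h
      simpa using h'
    have hμ : μ' = μ := by
      ext x
      rcases x with c | ⟨z, v⟩
      · exact h1 c
      · rw [← h2 z v, hid z]
    refine ⟨f, ?_, hμ ▸ hl⟩
    have : (fun t => e (p t)) = p := funext fun t => hid _
    rw [this]
    exact hf
  induction n' with
  | zero =>
    intro e μ' he h1 h2 _
    exact hsurj 0 e μ' he (fun z => z.elim0) h1 h2
  | succ m ih =>
    intro e μ' he h1 h2 h3
    by_cases hs : Function.Surjective e
    · exact hsurj (m + 1) e μ' he hs h1 h2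
    obtain ⟨z', hz'⟩ : ∃ z', ∀ z, e z ≠ z' := by
      by_contra hcon
      apply hs
      intro z'
      by_contra hne
      exact hcon ⟨z', fun z hz => hne ⟨z, hz⟩⟩
    choose e'' he'' using fun z => Fin.exists_succAbove_eq (hz' z)
    have hmono : StrictMono e'' := by
      intro a b hab
      have := he hab
      rw [← he'' a, ← he'' b] at this
      exact Fin.succAbove_lt_succAbove_iff.1 this
    have hinj : Function.Injective
        (Sum.map id (Prod.map z'.succAbove id) :
          Var Core Grp PV k m → Var Core Grp PV k (m + 1)) :=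
      Sum.map_injective.2 ⟨Function.injective_id,
        Fin.succAbove_right_injective.prodMap Function.injective_id⟩
    let μ'' : Var Core Grp PV k m →₀ ℕ :=
      μ'.comapDomain (Sum.map id (Prod.map z'.succAbove id)) hinj.injOn
    have hc : ∀ c, μ'' (Sum.inl c) = μ' (Sum.inl c) := fun _ => rfl
    have hr : ∀ z v, μ'' (Sum.inr (z, v)) = μ' (Sum.inr (z'.succAbove z, v)) := fun _ _ => rfl
    obtain ⟨g'', hg'', hl''⟩ := ih e'' μ'' hmono (fun c => (hc c).trans (h1 c))
      (fun z v => by rw [hr, he'', h2]) (by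
        intro w hw
        obtain ⟨z, hz, hm⟩ := h3 (z'.succAbove w) (fun z hz => hw z (by
          rw [← he'' z] at hz
          exact Fin.succAbove_right_injective hz))
        refine ⟨z, ?_, ?_⟩
        · rw [← he'' z] at hz
          exact Fin.succAbove_lt_succAbove_iff.1 hz
        · have : col μ'' w = col μ' (z'.succAbove w) := by
            ext v
            simp only [col_apply, hr]
          rw [this]
          exact hm)
    obtain ⟨key, hkey, hm⟩ := h3 z' hz'
    have hi : z' ≤ (e'' key).castSucc := by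
      rw [← he'' key] at hkey
      exact (Fin.lt_succAbove_iff_le_castSucc _ _).1 hkey
    have hcol : col μ'' (e'' key) = col μ key := by
      ext v
      simp only [col_apply, hr, he'', h2]
    obtain ⟨g, hg, hlg⟩ := ins hZ hg'' hl'' z' (e'' key) hi μ' (fun c => (hc c).symm)
      (fun z v => (hr z v).symm) (hcol ▸ hm)
    refine ⟨g, ?_, hlg⟩
    have : (fun t => e (p t)) = fun t => z'.succAbove (e'' (p t)) :=
      funext fun t => (he'' _).symm
    rw [this]
    exact hg

/-- Sketch. First the exact version (equalities instead of the two inequalities of `Emb`), by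
induction on `n'` generalising `e, p', μ'`. If `e` is onto then `n = n'` and `e = id`, `μ' = μ`.
Otherwise take `z'` outside the range, write `e = z'.succAbove ∘ e''` (`Fin.exists_succAbove_eq`,
`Fin.succAbove_lt_succAbove_iff`), let `μ''` be `μ'` without the column `z'` (`Finsupp.comapDomain`
along `Sum.map id (Prod.map z'.succAbove id)`), use the induction hypothesis and then `ins` with
`i = e'' key` (`Fin.lt_succAbove_iff_le_castSucc`). For the general case let `ν` have the cores of `μ`,
the column `col μ z` at `e z` and the columns of `μ'` elsewhere (`Finsupp.equivFunOnFinite.symm`,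
`Function.extend` or `dite`); then `ν ≤ μ'`; multiply by `monomial (μ' - ν) 1`
(`IsLead.monomial_mul`). -/
theorem multi {cells : PV → Bool → Grp × Fin k}
    {Z : (n : ℕ) → (Fin q → Fin n) → Ideal (MvPolynomial (Var Core Grp PV k n) ℂ)}
    (hZ : Cl cells Z) {p : Fin q → Fin n} {f : MvPolynomial (Var Core Grp PV k n) ℂ}
    (hf : f ∈ Z n p) {μ : Var Core Grp PV k n →₀ ℕ} (hl : IsLead f μ) {n' : ℕ}
    {p' : Fin q → Fin n'} {μ' : Var Core Grp PV k n' →₀ ℕ} (h : Emb cells p μ p' μ') :
    ∃ g ∈ Z n' p', IsLead g μ' := by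
  classical
  obtain ⟨e, he, hp, h1, h2, h3⟩ := h
  let F : Var Core Grp PV k n' → ℕ := fun x =>
    match x with
    | Sum.inl c => μ (Sum.inl c)
    | Sum.inr y => if hy : ∃ z, e z = y.1 then μ (Sum.inr (hy.choose, y.2)) else μ' (Sum.inr y)
  let ν : Var Core Grp PV k n' →₀ ℕ := Finsupp.equivFunOnFinite.symm F
  have hν : ∀ x, ν x = F x := fun _ => rfl
  have hν1 : ∀ c, ν (Sum.inl c) = μ (Sum.inl c) := fun _ => rfl
  have hν2 : ∀ z v, ν (Sum.inr (e z, v)) = μ (Sum.inr (z, v)) := by
    intro z v
    have hy : ∃ w, e w = e z := ⟨z, rfl⟩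
    have hch : hy.choose = z := he.injective hy.choose_spec
    rw [hν]
    simp only [F]
    rw [dif_pos hy, hch]
  have hν3 : ∀ z', (∀ z, e z ≠ z') → ∀ v, ν (Sum.inr (z', v)) = μ' (Sum.inr (z', v)) := by
    intro z' hz' v
    have hy : ¬ ∃ w, e w = z' := fun ⟨w, hw⟩ => hz' w hw
    rw [hν]
    simp only [F]
    rw [dif_neg hy]
  have hle : ν ≤ μ' := by
    intro x
    rcases x with c | ⟨z', v⟩
    · rw [hν1]
      exact h1 c
    · by_cases hy : ∃ z, e z = z'
      · obtain ⟨z, rfl⟩ := hy
        rw [hν2]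
        exact h2 z v
      · rw [hν3 z' (fun z hz => hy ⟨z, hz⟩)]
  obtain ⟨g, hg, hlg⟩ := dkwd_exact hZ hf hl n' e ν he hν1 hν2 (by
    intro z' hz'
    obtain ⟨z, hz, hm⟩ := h3 z' hz'
    refine ⟨z, hz, ?_⟩
    have : col ν z' = col μ' z' := by
      ext v
      simp only [col_apply, hν3 z' hz']
    rw [this]
    exact hm)
  have hpp : (fun t => e (p t)) = p' := funext hp
  rw [hpp] at hg
  refine ⟨monomial (μ' - ν) 1 * g, Ideal.mul_mem_left _ _ hg, ?_⟩
  have := hlg.monomial_mul (μ' - ν)
  rwa [tsub_add_cancel_of_le hle] at this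

end Pool.Agent.Lib.MP_595dc0_ag.Dk.WAux
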