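import Mathlib
import Pool.Agent.Lib.MP_595dc0_ag.DkWA

set_option autoImplicit false
set_option linter.unusedSectionVars false

/-! Saturation. -/

namespace Pool.Agent.Lib.MP_595dc0_ag.Dk.WAux

open Finset MvPolynomial

variable {Grp PV : Type} {k : ℕ} [Fintype Grp] [Fintype PV]

theorem dkwb_poly_zero {S : Type} [CommRing S] [Algebra ℂ S] (n : ℕ) :
    ∀ (G : Polynomial S) (m : ℕ), G.natDegree = n → (∀ t : ℕ, m ≤ t → G.eval (t : S) = 0) →
      G = 0 := by
  induction n with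
  | zero =>
    intro G m hG h
    rw [Polynomial.eq_C_of_natDegree_eq_zero hG] at h ⊢
    have := h m le_rfl
    rw [Polynomial.eval_C] at this
    rw [this, map_zero]
  | succ n ih =>
    intro G m hG h
    by_contra h0
    have : Nontrivial S := Polynomial.Nontrivial.of_polynomial_ne h0
    have h1 := Polynomial.mul_divByMonic_eq_iff_isRoot.2 (h m le_rfl)
    have h2 : (G /ₘ (Polynomial.X - Polynomial.C (m : S))).natDegree = n := by
      rw [Polynomial.natDegree_divByMonic _ (Polynomial.monic_X_sub_C _),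
        Polynomial.natDegree_X_sub_C, hG]
      rfl
    have h3 := ih _ (m + 1) h2 fun t ht => by
      have h4 := h t (by omega)
      rw [← h1, Polynomial.eval_mul, Polynomial.eval_sub, Polynomial.eval_X,
        Polynomial.eval_C] at h4
      have h5 : IsUnit ((t : S) - m) := by
        have h6 : ((t : ℂ) - m) ≠ 0 := sub_ne_zero.2 (Nat.cast_injective.ne (by omega))
        simpa using h6.isUnit.map (algebraMap ℂ S)
      exact h5.mul_right_eq_zero.1 h4
    exact h0 (by rw [← h1, h3, mul_zero])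

/-- The linear form of a cell as a polynomial in one parameter. -/
noncomputable def dkwb_L {S : Type} [CommRing S] (x : CV Grp PV k → S) (c : Grp × Fin k) :
    Polynomial S :=
  Polynomial.C (x (Sum.inl c)) +
    ∑ b : Fin k, Polynomial.C (x (Sum.inl (c.1, b))) * Polynomial.X ^ (b.val + 1)

/-- The factor of a column variable as a polynomial in one parameter. -/
noncomputable def dkwb_F {S : Type} [CommRing S] (cells : PV → Bool → Grp × Fin k)
    (x : CV Grp PV k → S) : CV Grp PV k → Polynomial S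
  | Sum.inl c => dkwb_L x c
  | Sum.inr p => dkwb_L x (cells p false) * dkwb_L x (cells p true)

theorem dkwb_L_eval {S : Type} [CommRing S] [Algebra ℂ S] (x : CV Grp PV k → S)
    (c : Grp × Fin k) (t : ℕ) :
    (dkwb_L x c).eval (t : S) = aeval x (ellC PV (fun b => t ^ (b.val + 1)) c) := by
  rw [dkwb_L, ellC, Polynomial.eval_add, Polynomial.eval_C, Polynomial.eval_finsetSum, map_add,
    aeval_X, map_sum]
  congr 1
  refine Finset.sum_congr rfl fun b _ => ?_
  rw [Polynomial.eval_mul, Polynomial.eval_C, Polynomial.eval_pow, Polynomial.eval_X, map_smul,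
    aeval_X, Algebra.smul_def, map_natCast, Nat.cast_pow, mul_comm]

theorem dkwb_F_eval {S : Type} [CommRing S] [Algebra ℂ S] (cells : PV → Bool → Grp × Fin k)
    (x : CV Grp PV k → S) (v : CV Grp PV k) (t : ℕ) :
    (dkwb_F cells x v).eval (t : S) = aeval x (facC cells (fun b => t ^ (b.val + 1)) v) := by
  rcases v with c | p
  · exact dkwb_L_eval x c t
  · rw [dkwb_F, facC, Polynomial.eval_mul, map_mul, dkwb_L_eval, dkwb_L_eval]

theorem dkwb_L_mem {S : Type} [CommRing S] (x : CV Grp PV k → S) (c : Grp × Fin k) (a : Fin k)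
    (h : IsUnit (x (Sum.inl (c.1, a)))) : dkwb_L x c ∈ nonZeroDivisors (Polynomial S) := by
  refine Polynomial.mem_nonzeroDivisors_of_coeff_mem (a.val + 1) ?_
  have : (dkwb_L x c).coeff (a.val + 1) = x (Sum.inl (c.1, a)) := by
    rw [dkwb_L, Polynomial.coeff_add, Polynomial.coeff_C_succ, zero_add,
      Polynomial.finsetSum_coeff, Finset.sum_eq_single a]
    · rw [Polynomial.coeff_C_mul_X_pow, if_pos rfl]
    · intro b _ hb
      rw [Polynomial.coeff_C_mul_X_pow, if_neg]
      intro h'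
      exact hb (Fin.ext (by omega))
    · simp
  rw [this]
  exact h.mem_nonZeroDivisors

open Classical in
theorem dkwb_core {S : Type} [CommRing S] [Algebra ℂ S] (cells : PV → Bool → Grp × Fin k)
    (Ub : Grp → Prop) (κ : CV Grp PV k →₀ ℕ)
    (hκ : ∀ pc b, κ (Sum.inr pc) ≠ 0 → Ub (cells pc b).1) (x : CV Grp PV k → S)
    (hx : ∀ s : Fin k → ℕ, aeval x (aeval (facC cells s) (monomial κ (1 : ℂ))) = 0)
    (hu : ∀ g, Ub g → ∃ a, IsUnit (x (Sum.inl (g, a)))) :
    ∏ v ∈ univ.filter (fun v => ∃ c : Grp × Fin k, v = Sum.inl c ∧ ¬ Ub c.1), x v ^ κ v = 0 := by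
  have hG : ∏ v, dkwb_F cells x v ^ κ v = 0 := by
    refine dkwb_poly_zero _ _ 0 rfl fun t _ => ?_
    rw [← hx fun b => t ^ (b.val + 1), aeval_monomial, map_one, one_mul,
      Finsupp.prod_fintype _ _ (fun _ => pow_zero _), map_prod, Polynomial.eval_prod]
    exact Finset.prod_congr rfl fun v _ => by rw [Polynomial.eval_pow, map_pow, dkwb_F_eval]
  rw [← Finset.prod_filter_mul_prod_filter_not univ
    (fun v => ∃ c : Grp × Fin k, v = Sum.inl c ∧ ¬ Ub c.1)] at hG
  have hL : ∀ c : Grp × Fin k, Ub c.1 → dkwb_L x c ∈ nonZeroDivisors (Polynomial S) := by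
    intro c hc
    obtain ⟨a, ha⟩ := hu _ hc
    exact dkwb_L_mem x c a ha
  have hnz : ∏ v ∈ univ.filter (fun v => ¬ ∃ c : Grp × Fin k, v = Sum.inl c ∧ ¬ Ub c.1),
      dkwb_F cells x v ^ κ v ∈ nonZeroDivisors (Polynomial S) := by
    refine Submonoid.prod_mem _ fun v hv => ?_
    have hv' := (Finset.mem_filter.1 hv).2
    rcases v with c | p
    · exact Submonoid.pow_mem _ (hL c (by_contra fun h => hv' ⟨c, rfl, h⟩)) _
    · by_cases h0 : κ (Sum.inr p) = 0
      · rw [h0, pow_zero]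
        exact Submonoid.one_mem _
      · exact Submonoid.pow_mem _
          (Submonoid.mul_mem _ (hL _ (hκ p false h0)) (hL _ (hκ p true h0))) _
  have h1 := congrArg (Polynomial.eval 0) ((mem_nonZeroDivisors_iff_right.1 hnz) _ hG)
  rw [Polynomial.eval_zero, Polynomial.eval_prod] at h1
  refine Eq.trans (Finset.prod_congr rfl fun v hv => ?_) h1
  obtain ⟨c, rfl, _⟩ := (Finset.mem_filter.1 hv).2
  simp [dkwb_F, dkwb_L, Polynomial.eval_finsetSum]

open Classical in
theorem dkwb_loc (cells : PV → Bool → Grp × Fin k) (Ub : Grp → Prop) (κ : CV Grp PV k →₀ ℕ)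
    (hκ : ∀ pc b, κ (Sum.inr pc) ≠ 0 → Ub (cells pc b).1) (a' : Grp → Fin k) :
    ∃ N : ℕ, (∏ v ∈ univ.filter (fun v => ∃ g, Ub g ∧ v = Sum.inl (g, a' g)), X v) ^ N *
      ∏ v ∈ univ.filter (fun v => ∃ c : Grp × Fin k, v = Sum.inl c ∧ ¬ Ub c.1), X v ^ κ v ∈
        JC cells κ := by
  obtain ⟨Y, hY⟩ : ∃ Y : MvPolynomial (CV Grp PV k) ℂ,
    Y = ∏ v ∈ univ.filter (fun v => ∃ g, Ub g ∧ v = Sum.inl (g, a' g)), X v := ⟨_, rfl⟩
  rw [← hY]
  let φ : MvPolynomial (CV Grp PV k) ℂ →ₐ[ℂ]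
      Localization.Away (Ideal.Quotient.mk (JC cells κ) Y) :=
    (IsScalarTower.toAlgHom ℂ _ _).comp (Ideal.Quotient.mkₐ ℂ (JC cells κ))
  have hφ : ∀ f, φ f = algebraMap _ _ (Ideal.Quotient.mk (JC cells κ) f) := fun _ => rfl
  have hae : ∀ f, aeval (fun v => φ (X v)) f = φ f := fun f => by
    exact (DFunLike.congr_fun (aeval_unique φ) f).symm
  have hYu : IsUnit (φ Y) :=
    IsLocalization.Away.algebraMap_isUnit (Ideal.Quotient.mk (JC cells κ) Y)
  have h := dkwb_core cells Ub κ hκ (fun v => φ (X v)) (fun s => by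
      have hs : aeval (facC cells s) (monomial κ (1 : ℂ)) ∈ JC cells κ :=
        Ideal.subset_span ⟨s, rfl⟩
      rw [hae, hφ, Ideal.Quotient.eq_zero_iff_mem.2 hs, map_zero])
    fun g hg => ⟨a' g, isUnit_of_dvd_unit (map_dvd φ (hY ▸ Finset.dvd_prod_of_mem _
      (Finset.mem_filter.2 ⟨Finset.mem_univ _, g, hg, rfl⟩))) hYu⟩
  simp only [← map_pow, ← map_prod] at h
  rw [hφ, IsLocalization.map_eq_zero_iff
    (Submonoid.powers (Ideal.Quotient.mk (JC cells κ) Y))] at h
  obtain ⟨⟨_, N, rfl⟩, hN⟩ := h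
  refine ⟨N, Ideal.Quotient.eq_zero_iff_mem.1 ?_⟩
  rw [map_mul, map_pow]
  exact hN

/-- Sketch. Fix `a' : Grp → Fin k` (finitely many; take the supremum of the exponents `N` and, for
given `η`, choose `a' g` from the hypothesis, `⟨0, hk⟩` if `¬ Ub g`). Let `Q = R ⧸ JC cells κ`,
`Y = ∏ g with Ub g, X (inl (g, a' g))` and `Q' = Localization.Away (mk Y)`, `x v` the image of `X v`
in `Q'`. In `Q'[T]` put `L c = C (x (inl c)) + ∑ b, T ^ (b + 1) * C (x (inl (c.1, b)))`,
`Fac (inl c) = L c`, `Fac (inr pc) = L (cells pc false) * L (cells pc true)`, and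
`G = ∏ v ∈ κ.support, Fac v ^ κ v` (`aeval_monomial`). At `T = t : ℕ` the value of `G` is the image
of the generator with `s b = t ^ (b + 1)`, hence `0`; so `G = 0` (apply `ℂ`-linear functionals to the
coefficients, `Polynomial.eq_zero_of_infinite_isRoot` over `ℂ`, `Module.forall_dual_apply_eq_zero_iff`).
If `Ub c.1` the coefficient of `T ^ (a' c.1 + 1)` in `L c` is a unit of `Q'` (it divides `Y`), so
`L c` is a non zero divisor (`Polynomial.mem_nonzeroDivisors_of_coeff_mem`). Cancel all factors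
except those with `v = inl (g, a)`, `¬ Ub g`, and evaluate at `T = 0`: the product of these
`x v ^ κ v` vanishes in `Q'`, so `Y ^ N` times the monomial lies in `JC cells κ`
(`IsLocalization.map_eq_zero_iff` / `IsLocalization.Away.exists_of_eq`). It divides `monomial η 1`. -/
theorem sat (hk : 0 < k) (cells : PV → Bool → Grp × Fin k) (Ub : Grp → Prop)
    (κ : CV Grp PV k →₀ ℕ) (hκ : ∀ pc b, κ (Sum.inr pc) ≠ 0 → Ub (cells pc b).1) :
    ∃ B : ℕ, ∀ η : CV Grp PV k →₀ ℕ,
      (∀ g a, ¬ Ub g → κ (Sum.inl (g, a)) ≤ η (Sum.inl (g, a))) →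
      (∀ g, Ub g → ∃ a, B ≤ η (Sum.inl (g, a))) → monomial η (1 : ℂ) ∈ JC cells κ := by
  classical
  choose N hN using dkwb_loc cells Ub κ hκ
  refine ⟨univ.sup N, fun η h1 h2 => ?_⟩
  have h3 : ∀ g, ∃ a, Ub g → univ.sup N ≤ η (Sum.inl (g, a)) := by
    intro g
    by_cases hg : Ub g
    · obtain ⟨a, ha⟩ := h2 g hg
      exact ⟨a, fun _ => ha⟩
    · exact ⟨⟨0, hk⟩, fun h => absurd h hg⟩
  choose a' ha' using h3
  refine Ideal.mem_of_dvd _ ?_ (hN a')
  rw [monomial_eq, C_1, one_mul, Finsupp.prod_fintype _ _ (fun _ => pow_zero _),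
    ← Finset.prod_filter_not_mul_prod_filter univ
      (fun v => ∃ c : Grp × Fin k, v = Sum.inl c ∧ ¬ Ub c.1), ← Finset.prod_pow]
  refine mul_dvd_mul (dvd_trans (Finset.prod_dvd_prod_of_dvd _ (fun v => X v ^ η v) fun v hv => ?_)
    (Finset.prod_dvd_prod_of_subset _ _ _ fun v hv => ?_))
    (Finset.prod_dvd_prod_of_dvd _ _ fun v hv => ?_)
  · obtain ⟨g, hg, rfl⟩ := (Finset.mem_filter.1 hv).2
    exact pow_dvd_pow _ ((Finset.le_sup (Finset.mem_univ a')).trans (ha' g hg))
  · obtain ⟨g, hg, rfl⟩ := (Finset.mem_filter.1 hv).2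
    refine Finset.mem_filter.2 ⟨Finset.mem_univ _, ?_⟩
    rintro ⟨c, hc, hc'⟩
    rw [← Sum.inl.inj hc] at hc'
    exact hc' hg
  · obtain ⟨c, rfl, hc⟩ := (Finset.mem_filter.1 hv).2
    exact pow_dvd_pow _ (h1 c.1 c.2 hc)

end Pool.Agent.Lib.MP_595dc0_ag.Dk.WAux
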