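import Mathlib
import Pool.Agent.Lib.MP_595dc0_ag.DkWA

set_option autoImplicit false
set_option linter.unusedSectionVars false

/-! Higman's lemma for words indexed by `Fin n`, and the number of special columns. -/

namespace Pool.Agent.Lib.MP_595dc0_ag.Dk.WAux

open Finset MvPolynomial

lemma dkwe_emb {α : Type} (r : α → α → Prop) {m m' : ℕ} (u : Fin m → α) (v : Fin m' → α)
    (h : List.SublistForall₂ r (List.ofFn u) (List.ofFn v)) :
    ∃ e : Fin m → Fin m', StrictMono e ∧ ∀ z, r (u z) (v (e z)) := by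
  obtain ⟨l, hl, hs⟩ := List.sublistForall₂_iff.1 h
  obtain ⟨f, hf⟩ := List.sublist_iff_exists_fin_orderEmbedding_get_eq.1 hs
  obtain ⟨hlen, hget⟩ := List.forall₂_iff_get.1 hl
  have hm : m = l.length := by simpa using hlen
  have hm' : (List.ofFn v).length = m' := by simp
  refine ⟨fun z => Fin.cast hm' (f (Fin.cast hm z)), fun x y hxy => ?_, fun z => ?_⟩
  · have : f (Fin.cast hm x) < f (Fin.cast hm y) := f.strictMono (by simpa using hxy)
    simpa using this
  · have h1 := hget z (by simp) (hm ▸ z.2)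
    have h2 := hf (Fin.cast hm z)
    have h3 : l.get ⟨z, hm ▸ z.2⟩ = l.get (Fin.cast hm z) := rfl
    rw [h3, h2, List.get_ofFn, List.get_ofFn] at h1
    exact h1

/-- Sketch. `Set.PartiallyWellOrderedOn.partiallyWellOrderedOn_sublistForall₂` with `s = univ`,
`Set.partiallyWellOrderedOn_univ_iff`, the words `List.ofFn (a t)`,
`WellQuasiOrdered.exists_monotone_subseq` (`List.SublistForall₂` is a preorder),
`List.sublistForall₂_iff`, `List.sublist_iff_exists_fin_orderEmbedding_get_eq`, `List.forall₂_iff_get`,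
`Fin.cast`. -/
theorem hig {α : Type} (r : α → α → Prop) [IsPreorder α r] (hr : WellQuasiOrdered r) (n : ℕ → ℕ)
    (a : (t : ℕ) → Fin (n t) → α) :
    ∃ φ : ℕ → ℕ, StrictMono φ ∧ ∀ s, ∃ e : Fin (n (φ 0)) → Fin (n (φ s)), StrictMono e ∧
      ∀ z, r (a (φ 0) z) (a (φ s) (e z)) := by
  have : IsPreorder (List α) (List.SublistForall₂ r) := {}
  have h1 : (Set.univ : Set α).PartiallyWellOrderedOn r :=
    Set.partiallyWellOrderedOn_univ_iff.2 hr
  have h2 := Set.PartiallyWellOrderedOn.partiallyWellOrderedOn_sublistForall₂ r h1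
  obtain ⟨g, hg⟩ := h2.exists_monotone_subseq (f := fun t => List.ofFn (a t))
    (fun t x _ => Set.mem_univ x)
  refine ⟨g, g.strictMono, fun s => ?_⟩
  exact dkwe_emb r _ _ (hg 0 s (Nat.zero_le s))

variable {Core Grp PV : Type} {k n : ℕ} [Fintype Core] [Fintype Grp] [Fintype PV] [DecidableEq Grp]

/-- A special column. -/
def Spec (cells : PV → Bool → Grp × Fin k) (ms : Core → Grp → ℕ) (Ub : Grp → Prop)
    (μ : Var Core Grp PV k n →₀ ℕ) (z : Fin n) : Prop :=
  ∃ g, (¬ Ub g ∧ cntP cells μ z g ≠ 0) ∨ (Ub g ∧ 2 * cntS μ z g < msz ms μ g)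

open Classical in
/-- Sketch. Union bound over `g` (`card_biUnion_le`). If `¬ Ub g` the number of columns is at most
`∑ z, cntP ≤ w * B0`. If `Ub g` each such column has `msz < 2 * cntP`, so
`card * msz ≤ 2 * ∑ z, cntP ≤ 2 * w * msz`, and `0 < msz` if there is such a column. -/
theorem card_spec {cells : PV → Bool → Grp × Fin k} {ms : Core → Grp → ℕ} {w B0 : ℕ}
    {Ub : Grp → Prop} {μ : Var Core Grp PV k n →₀ ℕ} (hb : Bal cells ms w μ)
    (h0 : ∀ g, ¬ Ub g → msz ms μ g ≤ B0) :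
    (univ.filter (Spec cells ms Ub μ)).card ≤ Fintype.card Grp * (w * B0 + 2 * w) := by
  have hsub : univ.filter (Spec cells ms Ub μ) ⊆ univ.biUnion (fun g : Grp => univ.filter
      (fun z : Fin n => (¬ Ub g ∧ cntP cells μ z g ≠ 0) ∨ (Ub g ∧ 2 * cntS μ z g < msz ms μ g))) := by
    intro z hz
    obtain ⟨g, hg⟩ := (mem_filter.1 hz).2
    exact mem_biUnion.2 ⟨g, mem_univ _, mem_filter.2 ⟨mem_univ _, hg⟩⟩
  refine (card_le_card hsub).trans (card_biUnion_le.trans ?_)
  rw [← Finset.card_univ, ← smul_eq_mul, ← Finset.sum_const]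
  refine Finset.sum_le_sum fun g _ => ?_
  set T := univ.filter
      (fun z : Fin n => (¬ Ub g ∧ cntP cells μ z g ≠ 0) ∨ (Ub g ∧ 2 * cntS μ z g < msz ms μ g))
    with hT
  by_cases hg : Ub g
  · have hkey : ∀ z ∈ T, msz ms μ g < 2 * cntP cells μ z g := by
      intro z hz
      have h1 := (mem_filter.1 hz).2
      have h2 := hb.1 z g
      rcases h1 with ⟨h1, _⟩ | ⟨_, h1⟩
      · exact absurd hg h1
      · omega
    rcases T.eq_empty_or_nonempty with hE | ⟨z, hz⟩
    · simp [hE]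
    · have hpos : 0 < msz ms μ g := by
        rcases (mem_filter.1 hz).2 with ⟨h1, _⟩ | ⟨_, h1⟩
        · exact absurd hg h1
        · omega
      have h3 : T.card * msz ms μ g ≤ 2 * ∑ z, cntP cells μ z g := by
        calc T.card * msz ms μ g = ∑ _z ∈ T, msz ms μ g := by simp
          _ ≤ ∑ z ∈ T, 2 * cntP cells μ z g := Finset.sum_le_sum fun z hz => (hkey z hz).le
          _ ≤ ∑ z, 2 * cntP cells μ z g := Finset.sum_le_sum_of_subset (subset_univ _)
          _ = 2 * ∑ z, cntP cells μ z g := by rw [Finset.mul_sum]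
      have h4 : T.card * msz ms μ g ≤ (2 * w) * msz ms μ g := by
        have := hb.2 g
        nlinarith
      have h5 := Nat.le_of_mul_le_mul_right h4 hpos
      omega
  · have hkey : ∀ z ∈ T, 1 ≤ cntP cells μ z g := by
      intro z hz
      rcases (mem_filter.1 hz).2 with ⟨_, h1⟩ | ⟨h1, _⟩
      · omega
      · exact absurd h1 hg
    have h3 : T.card ≤ ∑ z, cntP cells μ z g := by
      calc T.card = ∑ _z ∈ T, 1 := by simp
        _ ≤ ∑ z ∈ T, cntP cells μ z g := Finset.sum_le_sum hkey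
        _ ≤ ∑ z, cntP cells μ z g := Finset.sum_le_sum_of_subset (subset_univ _)
    have h4 := hb.2 g
    have h5 : w * msz ms μ g ≤ w * B0 := Nat.mul_le_mul_left w (h0 g hg)
    omega

/-- A non special column has no piece with a cell in a bounded group (`ncell ≠ 0`). -/
theorem not_spec_piece {cells : PV → Bool → Grp × Fin k} {ms : Core → Grp → ℕ}
    {Ub : Grp → Prop} {μ : Var Core Grp PV k n →₀ ℕ} {z : Fin n} (h : ¬ Spec cells ms Ub μ z)
    (pc : PV) (b : Bool) (hp : μ (Sum.inr (z, Sum.inr pc)) ≠ 0) : Ub (cells pc b).1 := by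
  by_contra hU
  refine h ⟨(cells pc b).1, Or.inl ⟨hU, ?_⟩⟩
  have hn : ncell cells pc (cells pc b).1 ≠ 0 := by
    refine Finset.card_ne_zero.2 ⟨b, ?_⟩
    simp
  have h1 : μ (Sum.inr (z, Sum.inr pc)) * ncell cells pc (cells pc b).1 ≤
      cntP cells μ z (cells pc b).1 :=
    Finset.single_le_sum (f := fun p => μ (Sum.inr (z, Sum.inr p)) * ncell cells p (cells pc b).1)
      (fun _ _ => Nat.zero_le _) (mem_univ pc)
  have h2 : 0 < μ (Sum.inr (z, Sum.inr pc)) * ncell cells pc (cells pc b).1 :=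
    Nat.mul_pos (Nat.pos_of_ne_zero hp) (Nat.pos_of_ne_zero hn)
  omega

/-- A non special column has a frequent letter in each large unbounded group (pigeonhole). -/
theorem not_spec_big {cells : PV → Bool → Grp × Fin k} {ms : Core → Grp → ℕ}
    {Ub : Grp → Prop} {μ : Var Core Grp PV k n →₀ ℕ} {z : Fin n} (h : ¬ Spec cells ms Ub μ z)
    {g : Grp} (hg : Ub g) {B : ℕ} (hB : 2 * (k * B) < msz ms μ g) :
    ∃ a, B ≤ μ (Sum.inr (z, Sum.inl (g, a))) := by
  by_contra hcon
  push Not at hcon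
  refine h ⟨g, Or.inr ⟨hg, ?_⟩⟩
  have h1 : cntS μ z g ≤ k * B := by
    calc cntS μ z g ≤ ∑ _a : Fin k, B := Finset.sum_le_sum fun a _ => (hcon a).le
      _ = k * B := by simp
  omega

/-- Single counts are bounded by the group size. -/
theorem single_le_msz {cells : PV → Bool → Grp × Fin k} {ms : Core → Grp → ℕ} {w : ℕ}
    {μ : Var Core Grp PV k n →₀ ℕ} (hb : Bal cells ms w μ) (z : Fin n) (g : Grp) (a : Fin k) :
    μ (Sum.inr (z, Sum.inl (g, a))) ≤ msz ms μ g := by
  have h1 : μ (Sum.inr (z, Sum.inl (g, a))) ≤ cntS μ z g :=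
    Finset.single_le_sum (f := fun a => μ (Sum.inr (z, Sum.inl (g, a))))
      (fun _ _ => Nat.zero_le _) (mem_univ a)
  have h2 := hb.1 z g
  omega

end Pool.Agent.Lib.MP_595dc0_ag.Dk.WAux
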