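import Mathlib
import Pool.Agent.Lib.MP_595dc0_ag.DkWB
import Pool.Agent.Lib.MP_595dc0_ag.DkWE

set_option autoImplicit false
set_option linter.unusedSectionVars false

/-! Every sequence of balanced marked monomials contains an embedded pair. -/

namespace Pool.Agent.Lib.MP_595dc0_ag.Dk.WAux

open Finset MvPolynomial

variable {Core Grp PV : Type} {k n q : ℕ} [Fintype Core] [Fintype Grp] [Fintype PV]
  [DecidableEq Grp]

open Classical in
/-- The single counts of the bounded groups. -/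
noncomputable def pat (Ub : Grp → Prop) (μ : Var Core Grp PV k n →₀ ℕ) (z : Fin n)
    (c : Grp × Fin k) : ℕ :=
  if Ub c.1 then 0 else μ (Sum.inr (z, Sum.inl c))

/-- The last non special column with a given pattern. -/
def Last (cells : PV → Bool → Grp × Fin k) (ms : Core → Grp → ℕ) (Ub : Grp → Prop)
    (μ : Var Core Grp PV k n →₀ ℕ) (z : Fin n) : Prop :=
  ¬ Spec cells ms Ub μ z ∧ ∀ z', z < z' → ¬ Spec cells ms Ub μ z' → pat Ub μ z' ≠ pat Ub μ z

open Classical in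
/-- The flagged columns. -/
noncomputable def flg (cells : PV → Bool → Grp × Fin k) (ms : Core → Grp → ℕ) (Ub : Grp → Prop)
    (p : Fin q → Fin n) (μ : Var Core Grp PV k n →₀ ℕ) : Finset (Fin n) :=
  univ.filter fun z => (∃ t, p t = z) ∨ Spec cells ms Ub μ z ∨ Last cells ms Ub μ z

lemma mem_flg {cells : PV → Bool → Grp × Fin k} {ms : Core → Grp → ℕ} {Ub : Grp → Prop}
    {p : Fin q → Fin n} {μ : Var Core Grp PV k n →₀ ℕ} {z : Fin n} : z ∈ flg cells ms Ub p μ ↔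
      (∃ t, p t = z) ∨ Spec cells ms Ub μ z ∨ Last cells ms Ub μ z := by
  simp [flg]

lemma pat_le {cells : PV → Bool → Grp × Fin k} {ms : Core → Grp → ℕ} {w B0 : ℕ}
    {Ub : Grp → Prop} {μ : Var Core Grp PV k n →₀ ℕ} (hb : Bal cells ms w μ)
    (h0 : ∀ g, ¬ Ub g → msz ms μ g ≤ B0) (z : Fin n) (c : Grp × Fin k) : pat Ub μ z c ≤ B0 := by
  unfold pat
  split_ifs with h
  · exact Nat.zero_le _
  · exact (single_le_msz hb z c.1 c.2).trans (h0 _ h)

lemma card_flg {cells : PV → Bool → Grp × Fin k} {ms : Core → Grp → ℕ} {w B0 : ℕ}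
    {Ub : Grp → Prop} (p : Fin q → Fin n) {μ : Var Core Grp PV k n →₀ ℕ} (hb : Bal cells ms w μ)
    (h0 : ∀ g, ¬ Ub g → msz ms μ g ≤ B0) : (flg cells ms Ub p μ).card ≤
      q + (Fintype.card Grp * (w * B0 + 2 * w) + (B0 + 1) ^ Fintype.card (Grp × Fin k)) := by
  classical
  have h1 : flg cells ms Ub p μ ⊆ univ.image p ∪
      (univ.filter (Spec cells ms Ub μ) ∪ univ.filter (Last cells ms Ub μ)) := by
    intro z hz
    simpa using mem_flg.1 hz
  have h2 : (univ.image p).card ≤ q := card_image_le.trans (by simp)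
  have h3 : (univ.filter (Spec cells ms Ub μ)).card ≤ Fintype.card Grp * (w * B0 + 2 * w) := by
    convert card_spec hb h0
  have h4 : (univ.filter (Last cells ms Ub μ)).card ≤ (B0 + 1) ^ Fintype.card (Grp × Fin k) := by
    have h5 : (Fintype.piFinset fun _ : Grp × Fin k => range (B0 + 1)).card
        = (B0 + 1) ^ Fintype.card (Grp × Fin k) := by
      rw [Fintype.card_piFinset, prod_const, card_range, card_univ]
    rw [← h5]
    refine card_le_card_of_injOn (pat Ub μ) (fun z _ => ?_) fun z hz z' hz' he => ?_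
    · exact mem_coe.2 (Fintype.mem_piFinset.2 fun c =>
        mem_range.2 (Nat.lt_succ_of_le (pat_le hb h0 z c)))
    · have hz1 : Last cells ms Ub μ z := by simpa using hz
      have hz2 : Last cells ms Ub μ z' := by simpa using hz'
      rcases lt_trichotomy z z' with h | h | h
      · exact absurd he.symm (hz1.2 z' h hz2.1)
      · exact h
      · exact absurd he (hz2.2 z h hz1.1)
  exact (card_le_card h1).trans ((card_union_le _ _).trans
    (add_le_add h2 ((card_union_le _ _).trans (add_le_add h3 h4))))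

lemma emb_of_flags {n' : ℕ} {cells : PV → Bool → Grp × Fin k} {ms : Core → Grp → ℕ}
    {Ub : Grp → Prop} {p : Fin q → Fin n} {μ : Var Core Grp PV k n →₀ ℕ} {p' : Fin q → Fin n'}
    {μ' : Var Core Grp PV k n' →₀ ℕ} {e : Fin n → Fin n'} (he : StrictMono e)
    (h1 : ∀ z t, p t = z ↔ p' t = e z)
    (h2 : ∀ z, Spec cells ms Ub μ z ↔ Spec cells ms Ub μ' (e z))
    (h3 : ∀ z, Last cells ms Ub μ z ↔ Last cells ms Ub μ' (e z))
    (h4 : ∀ z, pat Ub μ z = pat Ub μ' (e z))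
    (h5 : ∀ z v, μ (Sum.inr (z, v)) ≤ μ' (Sum.inr (e z, v)))
    (h6 : ∀ c, μ (Sum.inl c) ≤ μ' (Sum.inl c))
    (h7 : (flg cells ms Ub p μ).card = (flg cells ms Ub p' μ').card) {B : ℕ}
    (h8 : ∀ z, ¬ Spec cells ms Ub μ z → ∀ η : CV Grp PV k →₀ ℕ,
      (∀ g a, ¬ Ub g → col μ z (Sum.inl (g, a)) ≤ η (Sum.inl (g, a))) →
      (∀ g, Ub g → ∃ a, B ≤ η (Sum.inl (g, a))) → monomial η (1 : ℂ) ∈ JC cells (col μ z))
    (h9 : ∀ g, Ub g → 2 * (k * B) < msz ms μ' g) : Emb cells p μ p' μ' := by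
  classical
  have hon : (flg cells ms Ub p μ).image e = flg cells ms Ub p' μ' := by
    refine eq_of_subset_of_card_le (fun y hy => ?_) ?_
    · obtain ⟨z, hz, rfl⟩ := mem_image.1 hy
      rcases mem_flg.1 hz with ⟨t, ht⟩ | h | h
      · exact mem_flg.2 (Or.inl ⟨t, (h1 z t).1 ht⟩)
      · exact mem_flg.2 (Or.inr (Or.inl ((h2 z).1 h)))
      · exact mem_flg.2 (Or.inr (Or.inr ((h3 z).1 h)))
    · rw [card_image_of_injective _ he.injective, h7]
  refine ⟨e, he, fun t => ((h1 _ t).1 rfl).symm, h6, h5, fun z' hz' => ?_⟩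
  have hn : z' ∉ flg cells ms Ub p' μ' := by
    rw [← hon]
    intro h
    obtain ⟨z, -, hz⟩ := mem_image.1 h
    exact hz' z hz
  have hs : ¬ Spec cells ms Ub μ' z' := fun h => hn (mem_flg.2 (Or.inr (Or.inl h)))
  obtain ⟨y, hy, hmax⟩ := exists_max_image
    (univ.filter fun y => ¬ Spec cells ms Ub μ' y ∧ pat Ub μ' y = pat Ub μ' z') id
    ⟨z', by simpa using hs⟩
  obtain ⟨hy1, hy2⟩ := (mem_filter.1 hy).2
  have hl : Last cells ms Ub μ' y := ⟨hy1, fun y' hlt hy' hp =>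
    not_le.2 hlt (hmax y' (mem_filter.2 ⟨mem_univ _, hy', hp.trans hy2⟩))⟩
  have hyf : y ∈ flg cells ms Ub p' μ' := mem_flg.2 (Or.inr (Or.inr hl))
  have hlt : z' < y := lt_of_le_of_ne (hmax z' (by simpa using hs)) fun h => hn (h ▸ hyf)
  rw [← hon] at hyf
  obtain ⟨z, -, rfl⟩ := mem_image.1 hyf
  refine ⟨z, hlt, h8 z (fun h => hy1 ((h2 z).1 h)) _ (fun g a hg => ?_) fun g hg => ?_⟩
  · have h10 := congrFun ((h4 z).trans hy2) (g, a)
    simp only [pat, if_neg hg] at h10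
    exact h10.le
  · exact not_spec_big hs hg (h9 g hg)

lemma comb2 (hk : 0 < k) (cells : PV → Bool → Grp × Fin k) (ms : Core → Grp → ℕ) (w : ℕ)
    (n : ℕ → ℕ) (p : (t : ℕ) → Fin q → Fin (n t)) (μ : (t : ℕ) → Var Core Grp PV k (n t) →₀ ℕ)
    (hb : ∀ t, Bal cells ms w (μ t))
    (hc : ∀ s t, s ≤ t → ∀ c, μ s (Sum.inl c) ≤ μ t (Sum.inl c)) :
    ∃ t t', t < t' ∧ Emb cells (p t) (μ t) (p t') (μ t') := by
  classical
  obtain ⟨Ub, hUb⟩ : ∃ Ub : Grp → Prop, ∀ g, Ub g ↔ ∀ B, ∃ t, B < msz ms (μ t) g :=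
    ⟨_, fun _ => Iff.rfl⟩
  have hmono : ∀ g s t, s ≤ t → msz ms (μ s) g ≤ msz ms (μ t) g := fun g s t hst =>
    sum_le_sum fun c _ => Nat.mul_le_mul_right _ (hc s t hst c)
  obtain ⟨B0, hB0⟩ : ∃ B0, ∀ t g, ¬ Ub g → msz ms (μ t) g ≤ B0 := by
    have h1 : ∀ g, ∃ B, ¬ Ub g → ∀ t, msz ms (μ t) g ≤ B := fun g => by
      by_cases hg : Ub g
      · exact ⟨0, fun h => absurd hg h⟩
      · rw [hUb] at hg
        push Not at hg
        obtain ⟨B, hB⟩ := hg
        exact ⟨B, fun _ => hB⟩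
    choose Bf hBf using h1
    exact ⟨univ.sup Bf, fun t g hg => (hBf g hg t).trans (le_sup (mem_univ g))⟩
  obtain ⟨ψ, hψ⟩ := (Finite.wellQuasiOrdered (α := Fin (q + (Fintype.card Grp * (w * B0 + 2 * w) +
    (B0 + 1) ^ Fintype.card (Grp × Fin k)) + 1)) (· = ·)).exists_monotone_subseq
    fun t => ⟨(flg cells ms Ub (p t) (μ t)).card,
      Nat.lt_succ_of_le (card_flg (p t) (hb t) (hB0 t))⟩
  let α := ((Fin q → Prop) × Prop × Prop × (Grp × Fin k → Fin (B0 + 1))) × (CV Grp PV k → ℕ)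
  let r : α → α → Prop := fun a b => a.1 = b.1 ∧ a.2 ≤ b.2
  have hr : WellQuasiOrdered r := (Finite.wellQuasiOrdered (· = ·)).prod wellQuasiOrdered_le
  have : IsPreorder α r :=
    { refl := fun _ => ⟨rfl, le_rfl⟩
      trans := fun _ _ _ h1 h2 => ⟨h1.1.trans h2.1, h1.2.trans h2.2⟩ }
  obtain ⟨φ, hφ, hφ'⟩ := hig r hr (fun t => n (ψ t)) fun t z =>
    ((fun u => p (ψ t) u = z, Spec cells ms Ub (μ (ψ t)) z, Last cells ms Ub (μ (ψ t)) z,
      fun c => ⟨pat Ub (μ (ψ t)) z c, Nat.lt_succ_of_le (pat_le (hb _) (hB0 _) z c)⟩),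
      fun v => μ (ψ t) (Sum.inr (z, v)))
  obtain ⟨B, hB⟩ : ∃ B, ∀ z, ¬ Spec cells ms Ub (μ (ψ (φ 0))) z → ∀ η : CV Grp PV k →₀ ℕ,
      (∀ g a, ¬ Ub g → col (μ (ψ (φ 0))) z (Sum.inl (g, a)) ≤ η (Sum.inl (g, a))) →
      (∀ g, Ub g → ∃ a, B ≤ η (Sum.inl (g, a))) →
      monomial η (1 : ℂ) ∈ JC cells (col (μ (ψ (φ 0))) z) := by
    have h1 : ∀ z, ∃ B, ¬ Spec cells ms Ub (μ (ψ (φ 0))) z → ∀ η : CV Grp PV k →₀ ℕ,
        (∀ g a, ¬ Ub g → col (μ (ψ (φ 0))) z (Sum.inl (g, a)) ≤ η (Sum.inl (g, a))) →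
        (∀ g, Ub g → ∃ a, B ≤ η (Sum.inl (g, a))) →
        monomial η (1 : ℂ) ∈ JC cells (col (μ (ψ (φ 0))) z) := fun z => by
      by_cases hz : Spec cells ms Ub (μ (ψ (φ 0))) z
      · exact ⟨0, fun h => absurd hz h⟩
      · obtain ⟨B, hB⟩ := sat hk cells Ub (col (μ (ψ (φ 0))) z) (not_spec_piece hz)
        exact ⟨B, fun _ => hB⟩
    choose Bf hBf using h1
    refine ⟨univ.sup Bf, fun z hz η h2 h3 => hBf z hz η h2 fun g hg => ?_⟩
    obtain ⟨a, ha⟩ := h3 g hg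
    exact ⟨a, (le_sup (mem_univ z)).trans ha⟩
  obtain ⟨s, hs0, hs⟩ : ∃ s, 0 < s ∧ ∀ g, Ub g → 2 * (k * B) < msz ms (μ (ψ (φ s))) g := by
    have h1 : ∀ g, ∃ t, Ub g → 2 * (k * B) < msz ms (μ t) g := fun g => by
      by_cases hg : Ub g
      · obtain ⟨t, ht⟩ := (hUb g).1 hg (2 * (k * B))
        exact ⟨t, fun _ => ht⟩
      · exact ⟨0, fun h => absurd h hg⟩
    choose tf htf using h1
    refine ⟨univ.sup tf + 1, Nat.succ_pos _, fun g hg => (htf g hg).trans_le (hmono g _ _ ?_)⟩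
    exact (le_sup (f := tf) (mem_univ g)).trans ((Nat.le_succ _).trans
      ((hφ.id_le _).trans (ψ.strictMono.id_le _)))
  obtain ⟨e, he, hre⟩ := hφ' s
  have hlt : ψ (φ 0) < ψ (φ s) := ψ.strictMono (hφ hs0)
  refine ⟨_, _, hlt, emb_of_flags (ms := ms) (Ub := Ub) he (fun z t => ?_) (fun z => ?_)
    (fun z => ?_) (fun z => ?_) (fun z v => (hre z).2 v) (hc _ _ hlt.le) ?_ hB hs⟩
  · exact iff_of_eq (congrFun (congrArg Prod.fst (hre z).1) t)
  · exact iff_of_eq (congrArg (fun a => a.2.1) (hre z).1)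
  · exact iff_of_eq (congrArg (fun a => a.2.2.1) (hre z).1)
  · funext c
    exact congrArg Fin.val (congrFun (congrArg (fun a => a.2.2.2) (hre z).1) c)
  · exact congrArg Fin.val (hψ _ _ (hφ hs0).le)

theorem comb (hk : 0 < k) (cells : PV → Bool → Grp × Fin k) (ms : Core → Grp → ℕ) (w : ℕ)
    (n : ℕ → ℕ) (p : (t : ℕ) → Fin q → Fin (n t)) (μ : (t : ℕ) → Var Core Grp PV k (n t) →₀ ℕ)
    (hb : ∀ t, Bal cells ms w (μ t)) : ∃ t t', t < t' ∧ Emb cells (p t) (μ t) (p t') (μ t') := by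
  obtain ⟨g, hg⟩ := (wellQuasiOrdered_le (α := Core → ℕ)).exists_monotone_subseq
    fun t c => μ t (Sum.inl c)
  obtain ⟨t, t', h1, h2⟩ := comb2 hk cells ms w (fun t => n (g t)) (fun t => p (g t))
    (fun t => μ (g t)) (fun t => hb _) fun s t hst c => hg s t hst c
  exact ⟨_, _, g.strictMono h1, h2⟩

end Pool.Agent.Lib.MP_595dc0_ag.Dk.WAux
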