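import Mathlib
import Pool.Agent.Lib.MP_595dc0_ag.DkWDefs
import Pool.Agent.Lib.MP_595dc0_ag.DkWD
import Pool.Agent.Lib.MP_595dc0_ag.DkWF

set_option autoImplicit false

/-! The ascending chain condition for families closed under column insertion. -/

namespace Pool.Agent.Lib.MP_595dc0_ag.Dk

open Finset MvPolynomial

theorem final_wqo {Core Grp PV : Type} [Fintype Core] [Fintype Grp] [Fintype PV]
    [DecidableEq Grp] {k q : ℕ} (hk : 0 < k) (cells : PV → Bool → Grp × Fin k)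
    (ms : Core → Grp → ℕ) (w : ℕ)
    (V : (n : ℕ) → (Fin q → Fin n) → Set (Var Core Grp PV k n →₀ ℕ))
    (hV : ∀ n p, ∀ μ ∈ V n p, Bal cells ms w μ)
    (Z : ℕ → (n : ℕ) → (Fin q → Fin n) → Ideal (MvPolynomial (Var Core Grp PV k n) ℂ))
    (hmono : ∀ D D' n p, D ≤ D' → Z D n p ≤ Z D' n p)
    (hop : ∀ D n p (i' : Fin (n + 1)) (i : Fin n) (s : Fin k → ℕ), i' ≤ i.castSucc →
      ∀ f ∈ Z D n p, opB Core cells i' i s f ∈ Z D (n + 1) (fun t => i'.succAbove (p t)))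
    (hproj : ∀ D n p, ∀ f ∈ Z D n p, ∃ g ∈ Z D n p,
      (∀ μ ∈ V n p, g.coeff μ = f.coeff μ) ∧ ∀ μ, μ ∉ V n p → g.coeff μ = 0) :
    ∃ D₁, ∀ D, D₁ ≤ D → ∀ n p, ∀ f ∈ Z D n p, (∀ μ ∈ f.support, μ ∈ V n p) → f ∈ Z D₁ n p := by
  classical
  by_contra hcon
  push Not at hcon
  have key : ∀ D₁, ∃ D, D₁ ≤ D ∧ ∃ (n : ℕ) (p : Fin q → Fin n) (μ : Var Core Grp PV k n →₀ ℕ),
      μ ∈ V n p ∧ (∃ f ∈ Z D n p, WAux.IsLead f μ) ∧ ∀ g ∈ Z D₁ n p, ¬ WAux.IsLead g μ := by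
    intro D₁
    obtain ⟨D, hD, n, p, f0, hf0, hV0, hn0⟩ := hcon D₁
    have hne : {μ : Var Core Grp PV k n →₀ ℕ | ∃ f ∈ Z D n p, (∀ ν ∈ f.support, ν ∈ V n p) ∧
        f ∉ Z D₁ n p ∧ WAux.IsLead f μ}.Nonempty := by
      obtain ⟨μ, hμ⟩ := WAux.exists_isLead (f := f0) fun h => hn0 (h ▸ zero_mem _)
      exact ⟨μ, f0, hf0, hV0, hn0, hμ⟩
    obtain ⟨μ, ⟨f, hf, hfV, hfn, hfl⟩, hmin⟩ := WAux.MLt_wf.has_min _ hne
    have hμV : μ ∈ V n p := hfV μ (mem_support_iff.2 hfl.1)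
    refine ⟨D, hD, n, p, μ, hμV, ⟨f, hf, hfl⟩, fun g hg hgl => ?_⟩
    obtain ⟨g', hg', h1, h2⟩ := hproj D₁ n p g hg
    have h3 : g'.coeff μ ≠ 0 := by rw [h1 μ hμV]; exact hgl.1
    obtain ⟨c, hc⟩ : ∃ c : ℂ, c = f.coeff μ / g'.coeff μ := ⟨_, rfl⟩
    have h4 : ∀ ν, (f - C c * g').coeff ν = f.coeff ν - c * g'.coeff ν := fun ν => by
      rw [coeff_sub, coeff_C_mul]
    have h5 : f - C c * g' ∉ Z D₁ n p := fun h => hfn (by
      have := add_mem h (Ideal.mul_mem_left _ (C c) hg')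
      rwa [sub_add_cancel] at this)
    obtain ⟨ν, hν⟩ := WAux.exists_isLead (f := f - C c * g') fun h => h5 (h ▸ zero_mem _)
    have h6 : ∀ τ, (f - C c * g').coeff τ ≠ 0 → f.coeff τ ≠ 0 ∨ (τ ∈ V n p ∧ g.coeff τ ≠ 0) := by
      intro τ hτ
      by_contra h
      push Not at h
      refine hτ ?_
      rw [h4, h.1]
      by_cases hτV : τ ∈ V n p
      · rw [h1 τ hτV, h.2 hτV, mul_zero, sub_zero]
      · rw [h2 τ hτV, mul_zero, sub_zero]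
    refine hmin ν ⟨_, sub_mem hf (Ideal.mul_mem_left _ _ (hmono _ _ _ _ hD hg')), fun τ hτ => ?_,
      h5, hν⟩ ?_
    · rcases h6 τ (mem_support_iff.1 hτ) with h | h
      · exact hfV τ (mem_support_iff.2 h)
      · exact h.1
    · have h7 : ν ≠ μ := by
        rintro rfl
        refine hν.1 ?_
        rw [h4, hc, div_mul_cancel₀ _ h3, sub_self]
      rcases h6 ν hν.1 with h | h
      · exact hfl.2 ν h h7
      · exact hgl.2 ν h.2 h7
  choose Df hDf nf pf μf hμV hex hno using key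
  have hit : Monotone fun t => Df^[t] 0 := monotone_nat_of_le_succ fun t => by
    rw [Function.iterate_succ_apply']
    exact hDf _
  obtain ⟨t, t', hlt, hE⟩ := WAux.comb hk cells ms w (fun t => nf (Df^[t] 0))
    (fun t => pf (Df^[t] 0)) (fun t => μf (Df^[t] 0)) fun t => hV _ _ _ (hμV _)
  obtain ⟨f, hf, hfl⟩ := hex (Df^[t] 0)
  obtain ⟨g, hg, hgl⟩ := WAux.multi (Z := Z (Df (Df^[t] 0))) (hop _) hf hfl hE
  refine hno _ g (hmono _ _ _ _ ?_ hg) hgl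
  have : Df^[t.succ] 0 ≤ Df^[t'] 0 := hit (Nat.succ_le_of_lt hlt)
  rwa [Function.iterate_succ_apply'] at this

end Pool.Agent.Lib.MP_595dc0_ag.Dk
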