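import Mathlib
import Pool.Agent.Lib.MP_595dc0_ag.DkJ
import Pool.Agent.Lib.MP_595dc0_ag.DkSFT

set_option autoImplicit false

/-! Inheritance: reduction to the case where all factors have dimension `k`. -/

namespace Pool.Agent.Lib.MP_595dc0_ag.Dk

open Finset MvPolynomial

namespace DkZeroAux

open Equiv

section ryser

variable {α A : Type} [Fintype α] [DecidableEq α] [CommRing A] [Algebra ℂ A]

/-- The weight of a point outside `S`. -/
noncomputable def wS (S : Finset α) (a : α) : ℂ := if a ∈ S then 0 else 1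

theorem sum_sign (ψ : α → α) :
    ∑ S : Finset α, (-1 : ℂ) ^ S.card * ∏ s, wS S (ψ s) = if Function.Surjective ψ then 1 else 0 := by
  have h1 := Finset.prod_one_add (f := fun a => if a ∈ univ.image ψ then (0 : ℂ) else -1) univ
  rw [Finset.powerset_univ] at h1
  have h2 : ∀ S : Finset α, (-1 : ℂ) ^ S.card * ∏ s, wS S (ψ s) =
      ∏ a ∈ S, if a ∈ univ.image ψ then (0 : ℂ) else -1 := by
    intro S
    by_cases h : ∃ s, ψ s ∈ S
    · obtain ⟨s, hs⟩ := h
      rw [Finset.prod_eq_zero (mem_univ s) (by simp [wS, hs]), mul_zero,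
        Finset.prod_eq_zero hs (by simp)]
    · rw [Finset.prod_eq_one (f := fun s => wS S (ψ s)) fun s _ => if_neg fun hs => h ⟨s, hs⟩,
        mul_one, ← Finset.prod_const]
      refine Finset.prod_congr rfl fun a ha => (if_neg fun hm => ?_).symm
      obtain ⟨s, -, rfl⟩ := Finset.mem_image.mp hm
      exact h ⟨s, ha⟩
  rw [Finset.sum_congr rfl fun S _ => h2 S, ← h1]
  split_ifs with h
  · refine Finset.prod_eq_one fun a _ => ?_
    obtain ⟨s, rfl⟩ := h a
    simp
  · obtain ⟨a, ha⟩ := not_forall.mp h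
    refine Finset.prod_eq_zero (mem_univ a) ?_
    rw [if_neg fun hm => ha (by simpa using hm), add_neg_cancel]

/-- The inclusion-exclusion formula for the permanent. -/
theorem ryser (t : α → α → A) :
    ∑ S : Finset α, (-1 : ℂ) ^ S.card • ∏ s, ∑ a, wS S a • t a s =
      ∑ σ : Perm α, ∏ s, t (σ s) s := by
  have h1 : ∀ S : Finset α, (-1 : ℂ) ^ S.card • ∏ s, ∑ a, wS S a • t a s =
      ∑ ψ : α → α, ((-1 : ℂ) ^ S.card * ∏ s, wS S (ψ s)) • ∏ s, t (ψ s) s := by
    intro S
    rw [Finset.prod_univ_sum, Fintype.piFinset_univ, Finset.smul_sum]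
    refine Finset.sum_congr rfl fun ψ _ => ?_
    rw [Finset.prod_smul, smul_smul]
  rw [Finset.sum_congr rfl fun S _ => h1 S, Finset.sum_comm]
  simp only [← Finset.sum_smul, sum_sign]
  symm
  refine Fintype.sum_of_injective (fun σ : Perm α => (σ : α → α)) DFunLike.coe_injective _ _
    (fun ψ hψ => ?_) fun σ => ?_
  · rw [if_neg fun h => hψ ⟨Equiv.ofBijective ψ (Finite.surjective_iff_bijective.mp h), rfl⟩,
      zero_smul]
  · rw [if_pos σ.surjective, one_smul]

omit [Algebra ℂ A] in
theorem perm_swap (t : α → α → A) :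
    ∑ σ : Perm α, ∏ s, t (σ s) s = ∑ σ : Perm α, ∏ s, t s (σ s) := by
  refine Fintype.sum_equiv (Equiv.inv (Perm α)) _ _ fun σ => ?_
  rw [← Equiv.prod_comp σ fun s => t s ((Equiv.inv (Perm α) σ) s)]
  simp

end ryser

variable {N : ℕ} {w w' w'' : Fin N → ℕ}

/-- The substitution defined by one matrix for each factor. -/
noncomputable def lm (A : (j : Fin N) → Matrix (Fin (w j)) (Fin (w' j)) ℂ) :
    MvPolynomial (Idx w') ℂ →ₐ[ℂ] MvPolynomial (Idx w) ℂ :=
  aeval fun y => ∑ x : Idx w, (∏ j, A j (x j) (y j)) • X x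

theorem lm_X (A : (j : Fin N) → Matrix (Fin (w j)) (Fin (w' j)) ℂ) (y : Idx w') :
    lm A (X y) = ∑ x : Idx w, (∏ j, A j (x j) (y j)) • X x := aeval_X _ _

theorem lm_lm (A : (j : Fin N) → Matrix (Fin (w j)) (Fin (w' j)) ℂ)
    (B : (j : Fin N) → Matrix (Fin (w' j)) (Fin (w'' j)) ℂ) (f : MvPolynomial (Idx w'') ℂ) :
    lm A (lm B f) = lm (fun j => A j * B j) f := by
  refine DFunLike.congr_fun (MvPolynomial.algHom_ext (f := (lm A).comp (lm B))
    (g := lm fun j => A j * B j) fun y => ?_) f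
  simp only [AlgHom.comp_apply, lm_X, map_sum, map_smul, Finset.smul_sum, smul_smul]
  rw [Finset.sum_comm]
  refine Finset.sum_congr rfl fun x _ => ?_
  rw [← Finset.sum_smul]
  congr 1
  simp only [Matrix.mul_apply]
  rw [Finset.prod_univ_sum, Fintype.piFinset_univ]
  refine Finset.sum_congr rfl fun z _ => ?_
  rw [Finset.prod_mul_distrib, mul_comm]

theorem lm_one (f : MvPolynomial (Idx w) ℂ) :
    lm (fun j => (1 : Matrix (Fin (w j)) (Fin (w j)) ℂ)) f = f := by
  refine DFunLike.congr_fun (MvPolynomial.algHom_ext (g := AlgHom.id ℂ _) fun y => ?_) f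
  rw [lm_X, Finset.sum_eq_single y]
  · simp
  · intro x _ hx
    obtain ⟨j, hj⟩ := Function.ne_iff.mp hx
    rw [Finset.prod_eq_zero (mem_univ j) (by exact Matrix.one_apply_ne hj), zero_smul]
  · simp

theorem lm_hom (A : (j : Fin N) → Matrix (Fin (w j)) (Fin (w' j)) ℂ) {f : MvPolynomial (Idx w') ℂ}
    {e : ℕ} (hf : f.IsHomogeneous e) : (lm A f).IsHomogeneous e := by
  have := hf.aeval (fun y => ∑ x : Idx w, (∏ j, A j (x j) (y j)) • (X x : MvPolynomial (Idx w) ℂ))
    (n := 1) fun y => (homogeneousSubmodule (Idx w) ℂ 1).sum_mem fun x _ =>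
      Submodule.smul_mem _ _ (isHomogeneous_X ℂ x)
  rwa [one_mul] at this

theorem lm_secant (A : (j : Fin N) → Matrix (Fin (w j)) (Fin (w' j)) ℂ) {k : ℕ}
    {f : MvPolynomial (Idx w') ℂ} (hf : f ∈ secantIdeal w' k) : lm A f ∈ secantIdeal w k := by
  rintro T ⟨D, hD, rfl⟩
  choose v hv using hD
  rw [lm, ← AlgHom.comp_apply, comp_aeval]
  refine hf _ ⟨fun c y => ∏ j, ∑ a, A j a (y j) * v c j a, 
    fun c => ⟨fun j b => ∑ a, A j a b * v c j a, fun _ => rfl⟩, ?_⟩
  funext y
  simp only [map_sum, map_smul, aeval_X, Finset.sum_apply, smul_eq_mul, Finset.mul_sum, hv]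
  rw [Finset.sum_comm]
  refine Finset.sum_congr rfl fun c _ => ?_
  rw [Finset.prod_univ_sum, Fintype.piFinset_univ]
  exact Finset.sum_congr rfl fun x _ => Finset.prod_mul_distrib.symm

theorem lm_JD (A : (j : Fin N) → Matrix (Fin (w j)) (Fin (w' j)) ℂ) {k D : ℕ}
    {f : MvPolynomial (Idx w') ℂ} (hf : f ∈ JD w' k D) : lm A f ∈ JD w k D := by
  refine (show JD w' k D ≤ (JD w k D).comap (lm A) from Ideal.span_le.mpr ?_) hf
  rintro g ⟨h1, e, he, h2⟩
  exact mem_JD w k D e _ (lm_secant A h1) he (lm_hom A h2)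

variable (i : Fin N)

/-- The variable with the letter of the column `i` replaced. -/
noncomputable def Yv (y : Idx w) (a : Fin (w i)) : MvPolynomial (Idx w) ℂ :=
  X (Function.update y i a)

/-- The image of a variable under a substitution in the column `i`. -/
noncomputable def cl (φ : Matrix (Fin (w i)) (Fin (w i)) ℂ) (y : Idx w) : MvPolynomial (Idx w) ℂ :=
  ∑ a, φ a (y i) • Yv i y a

theorem lm_update (φ : Matrix (Fin (w i)) (Fin (w i)) ℂ) (y : Idx w) :
    lm (Function.update (fun j => (1 : Matrix (Fin (w j)) (Fin (w j)) ℂ)) i φ) (X y) =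
      cl i φ y := by
  rw [lm_X, cl]
  symm
  refine Fintype.sum_of_injective (Function.update y i) (Function.update_injective y i) _ _
    (fun x hx => ?_) fun a => ?_
  · obtain ⟨j, hj⟩ := Function.ne_iff.mp fun h => hx ⟨x i, h⟩
    have hji : j ≠ i := fun h => hj (by subst h; simp)
    rw [Function.update_of_ne hji] at hj
    rw [Finset.prod_eq_zero (mem_univ j)
      (by rw [Function.update_of_ne hji]; exact Matrix.one_apply_ne hj.symm), zero_smul]
  · rw [Finset.prod_eq_single i (fun j _ hj => by simp [Function.update_of_ne hj]) (by simp)]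
    simp [Yv]

/-- Matrices that factor through dimension `k`. -/
def Low (k : ℕ) {n : ℕ} (φ : Matrix (Fin n) (Fin n) ℂ) : Prop :=
  ∃ (P : Matrix (Fin n) (Fin k) ℂ) (Q : Matrix (Fin k) (Fin n) ℂ), φ = P * Q

/-- The span of the substituted monomials, as functions of the array. -/
noncomputable def S0 (w : Fin N → ℕ) (i : Fin N) (k d : ℕ) :
    Submodule ℂ ((Fin d → Idx w) → MvPolynomial (Idx w) ℂ) :=
  Submodule.span ℂ {F | ∃ φ, Low k φ ∧ F = fun x => ∏ r, cl i φ (x r)}

variable {k d : ℕ}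

theorem stepA (P : Matrix (Fin (w i)) (Fin k) ℂ) (c : Fin d → Fin k) (b : Fin d → Fin (w i)) :
    (fun x : Fin d → Idx w => ∑ h : Perm (Fin d), ∏ s,
      if x (h s) i = b s then ∑ a, P a (c s) • Yv i (x (h s)) a else 0) ∈ S0 w i k d := by
  let Q : Finset (Fin d) → Matrix (Fin k) (Fin (w i)) ℂ := fun S => Matrix.of fun c' b' =>
    ∑ s, if c' = c s then (if b' = b s then wS S s else 0) else 0
  have h1 : ∀ S y, cl i (P * Q S) y =
      ∑ s, wS S s • if y i = b s then ∑ a, P a (c s) • Yv i y a else 0 := by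
    intro S y
    have h2 : ∀ a, (P * Q S) a (y i) = ∑ s, if y i = b s then wS S s * P a (c s) else 0 := by
      intro a
      simp only [Matrix.mul_apply, Q, Matrix.of_apply, Finset.mul_sum]
      rw [Finset.sum_comm]
      refine Finset.sum_congr rfl fun s _ => ?_
      simp [mul_comm]
    simp only [cl, h2, Finset.sum_smul]
    rw [Finset.sum_comm]
    refine Finset.sum_congr rfl fun s _ => ?_
    split_ifs
    · simp only [Finset.smul_sum, smul_smul]
    · simp
  have h3 : (fun x : Fin d → Idx w => ∑ h : Perm (Fin d), ∏ s,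
      if x (h s) i = b s then ∑ a, P a (c s) • Yv i (x (h s)) a else 0) =
      ∑ S : Finset (Fin d), (-1 : ℂ) ^ S.card • fun x => ∏ r, cl i (P * Q S) (x r) := by
    funext x
    simp only [Finset.sum_apply, Pi.smul_apply, h1]
    exact ((ryser fun s r => if x r i = b s then ∑ a, P a (c s) • Yv i (x r) a else 0).trans
      (perm_swap fun s r => if x r i = b s then ∑ a, P a (c s) • Yv i (x r) a else 0)).symm
  rw [h3]
  exact Submodule.sum_mem _ fun S _ => Submodule.smul_mem _ _
    (Submodule.subset_span ⟨_, ⟨P, Q S, rfl⟩, rfl⟩)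

theorem stepB (χ c : Fin d → Fin k) (b : Fin d → Fin (w i)) :
    (fun x : Fin d → Idx w => ∑ h : Perm (Fin d), ∑ τ : Perm (Fin d), ∏ s,
      if x (h s) i = b s then (if χ (τ s) = c s then Yv i (x (h s)) (b (τ s)) else 0) else 0) ∈
      S0 w i k d := by
  let P : Finset (Fin d) → Matrix (Fin (w i)) (Fin k) ℂ := fun S => Matrix.of fun a c' =>
    ∑ s, if a = b s then (if χ s = c' then wS S s else 0) else 0
  have h1 : ∀ S c' (y : Idx w), ∑ a, P S a c' • Yv i y a =
      ∑ s, wS S s • if χ s = c' then Yv i y (b s) else 0 := by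
    intro S c' y
    simp only [P, Matrix.of_apply, Finset.sum_smul]
    rw [Finset.sum_comm]
    refine Finset.sum_congr rfl fun s _ => ?_
    by_cases h : χ s = c' <;> simp [h]
  have h3 : (fun x : Fin d → Idx w => ∑ h : Perm (Fin d), ∑ τ : Perm (Fin d), ∏ s,
      if x (h s) i = b s then (if χ (τ s) = c s then Yv i (x (h s)) (b (τ s)) else 0) else 0) =
      ∑ S : Finset (Fin d), (-1 : ℂ) ^ S.card • fun x : Fin d → Idx w =>
        ∑ h : Perm (Fin d), ∏ s,
          if x (h s) i = b s then ∑ a, P S a (c s) • Yv i (x (h s)) a else 0 := by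
    funext x
    simp only [Finset.sum_apply, Pi.smul_apply, h1]
    rw [Finset.sum_congr rfl fun S _ => Finset.smul_sum]
    refine Eq.trans (Finset.sum_congr rfl fun h _ => ?_) Finset.sum_comm
    rw [← ryser fun s' s =>
      if x (h s) i = b s then (if χ s' = c s then Yv i (x (h s)) (b s') else 0) else 0]
    refine Finset.sum_congr rfl fun S _ => ?_
    congr 1
    refine Finset.prod_congr rfl fun s _ => ?_
    split_ifs <;> simp
  rw [h3]
  exact Submodule.sum_mem _ fun S _ => Submodule.smul_mem _ _ (stepA i (P S) c b)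

/-- The class sums of the permutations of the letters in the column `i`. -/
noncomputable def Phi (g : Perm (Fin d)) (x : Fin d → Idx w) : MvPolynomial (Idx w) ℂ :=
  ∑ h : Perm (Fin d), ∏ s, Yv i (x (h s)) (x (h (g s)) i)

theorem stepC (χ : Fin d → Fin k) (g : Perm (Fin d)) :
    ∑ σ ∈ univ.filter (fun σ : Perm (Fin d) => ∀ r, χ (σ r) = χ r), Phi i (σ * g) ∈
      S0 w i k d := by
  have h1 := Submodule.sum_mem (S0 w i k d) (t := univ) fun b _ => stepB i χ (fun s => χ (g s)) b
  refine (congrArg (· ∈ S0 w i k d) ?_).mp h1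
  funext x
  simp only [Finset.sum_apply, Phi, Fintype.prod_ite_zero]
  rw [Finset.sum_comm, Finset.sum_comm (t := (univ : Finset (Perm (Fin d))))
    (s := univ.filter _)]
  refine Finset.sum_congr rfl fun h _ => ?_
  rw [Finset.sum_eq_single fun s => x (h s) i]
  · rw [Finset.sum_filter, ← Equiv.sum_comp (Equiv.mulRight g)]
    refine Finset.sum_congr rfl fun σ _ => ?_
    rw [if_pos fun _ => rfl]
    have h2 := g.surjective.forall (p := fun r => χ (σ r) = χ r)
    by_cases h3 : ∀ r, χ (σ r) = χ r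
    · rw [if_pos h3]
      exact if_pos (h2.mp h3)
    · rw [if_neg h3]
      exact if_neg fun h4 => h3 (h2.mpr h4)
  · intro b _ hb
    exact Finset.sum_eq_zero fun τ _ => if_neg fun h' => hb (funext h').symm
  · simp

theorem minor_mem {D : ℕ} (hD : k + 1 ≤ D) (u : Fin (k + 1) → Idx w) (a : Fin (k + 1) → Fin (w i)) :
    ∑ σ : Perm (Fin (k + 1)), ((Perm.sign σ : ℤ) : ℂ) • ∏ j, Yv i (u j) (a (σ j)) ∈ JD w k D := by
  refine mem_JD w k D (k + 1) _ ?_ hD ((homogeneousSubmodule (Idx w) ℂ (k + 1)).sum_mem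
    fun σ _ => Submodule.smul_mem _ _ ?_)
  · rintro T ⟨E, hE, rfl⟩
    choose v hv using hE
    let B : Matrix (Fin (k + 1)) (Fin k) ℂ := Matrix.of fun j c => v c i (a j)
    let C : Matrix (Fin k) (Fin (k + 1)) ℂ := Matrix.of fun c j => ∏ l ∈ univ.erase i, v c l (u j l)
    have h1 : (B * C).det = 0 := by
      by_contra h
      have h2 := Matrix.rank_of_isUnit _ ((Matrix.isUnit_iff_isUnit_det _).mpr (Ne.isUnit h))
      have h3 := (Matrix.rank_mul_le_left B C).trans (Matrix.rank_le_width B)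
      rw [h2, Fintype.card_fin] at h3
      omega
    rw [← h1, Matrix.det_apply', map_sum]
    refine Finset.sum_congr rfl fun σ _ => ?_
    rw [map_smul, map_prod, smul_eq_mul]
    congr 1
    refine Finset.prod_congr rfl fun j _ => ?_
    rw [Yv, aeval_X, Finset.sum_apply, Matrix.mul_apply]
    refine Finset.sum_congr rfl fun c _ => ?_
    rw [hv, ← Finset.mul_prod_erase _ _ (mem_univ i), Function.update_self]
    congr 1
    exact Finset.prod_congr rfl fun l hl => by
      rw [Function.update_of_ne (Finset.mem_erase.mp hl).1]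
  · have := IsHomogeneous.prod univ (fun j => Yv i (u j) (a (σ j))) (fun _ => 1)
      fun j _ => isHomogeneous_X ℂ _
    simpa using this

theorem stepD {D : ℕ} (hD : k + 1 ≤ D) (e : Fin (k + 1) ↪ Fin d) (g : Perm (Fin d))
    (x : Fin d → Idx w) :
    ∑ σ : Perm (Fin (k + 1)), ((Perm.sign σ : ℤ) : ℂ) • Phi i (σ.viaEmbedding e * g) x ∈
      JD w k D := by
  simp only [Phi, Finset.smul_sum]
  rw [Finset.sum_comm]
  refine Ideal.sum_mem _ fun h _ => ?_
  have h1 : ∀ σ : Perm (Fin (k + 1)),
      ∏ s, Yv i (x (h s)) (x (h ((σ.viaEmbedding e * g) s)) i) =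
        (∏ j, Yv i (x (h (g.symm (e j)))) (x (h (e (σ j))) i)) *
          ∏ s ∈ (univ.map e)ᶜ, Yv i (x (h (g.symm s))) (x (h s) i) := by
    intro σ
    rw [← Equiv.prod_comp g.symm, ← Finset.prod_mul_prod_compl (univ.map e), Finset.prod_map]
    simp only [Perm.mul_apply, Equiv.apply_symm_apply, Perm.viaEmbedding_apply]
    congr 1
    refine Finset.prod_congr rfl fun s hs => ?_
    rw [Perm.viaEmbedding_apply_of_notMem _ _ _ (by simpa using hs)]
  simp only [h1, ← smul_mul_assoc, ← Finset.sum_mul]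
  exact Ideal.mul_mem_right _ _
    (minor_mem i hD (fun j => x (h (g.symm (e j)))) fun j => x (h (e j)) i)

theorem mono_mem {D : ℕ} (hD : k + 1 ≤ D) :
    (fun x : Fin d → Idx w => ∏ r, (X (x r) : MvPolynomial (Idx w) ℂ)) ∈
      S0 w i k d ⊔ Submodule.pi Set.univ fun _ => (JD w k D).restrictScalars ℂ := by
  have h1 := sft (fun _ : Fin d => ()) k
    (S0 w i k d ⊔ Submodule.pi Set.univ fun _ => (JD w k D).restrictScalars ℂ) (Phi i)
    (fun e _ g _ => Submodule.mem_sup_right fun x _ => by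
      rw [Finset.sum_apply]
      exact stepD i hD e g x)
    (fun χ g _ => Submodule.mem_sup_left (by simpa using stepC i χ g))
  have h2 : Phi i (1 : Perm (Fin d)) = (Fintype.card (Perm (Fin d)) : ℂ) •
      fun x : Fin d → Idx w => ∏ r, (X (x r) : MvPolynomial (Idx w) ℂ) := by
    funext x
    simp only [Phi, Yv, Perm.one_apply, Function.update_eq_self, Pi.smul_apply]
    rw [Finset.sum_congr rfl fun h _ =>
      Equiv.prod_comp h fun r => (X (x r) : MvPolynomial (Idx w) ℂ), Finset.sum_const,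
      Finset.card_univ, Nat.cast_smul_eq_nsmul]
  rw [h2] at h1
  exact (Submodule.smul_mem_iff _ (Nat.cast_ne_zero.mpr Fintype.card_ne_zero)).mp h1

theorem exists_coef {f : MvPolynomial (Idx w) ℂ} (hf : f.IsHomogeneous d) :
    ∃ c : (Fin d → Idx w) → ℂ, ∑ x, c x • ∏ r, (X (x r) : MvPolynomial (Idx w) ℂ) = f := by
  refine (Submodule.mem_span_range_iff_exists_fun ℂ).mp ?_
  have h1 : f ∈ homogeneousSubmodule (Idx w) ℂ d := hf
  rw [← homogeneousSubmodule_one_pow, homogeneousSubmodule_one_eq_span_X,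
    Submodule.span_pow] at h1
  refine Submodule.span_mono (fun g hg => ?_) h1
  obtain ⟨F, rfl⟩ := Set.mem_pow.mp hg
  choose x hx using fun r => (F r).2
  exact ⟨x, by simp only [List.prod_ofFn, hx]⟩

theorem column {D : ℕ} (hD : k + 1 ≤ D) {f : MvPolynomial (Idx w) ℂ} (hf : f.IsHomogeneous d)
    (A : (j : Fin N) → Matrix (Fin (w j)) (Fin (w j)) ℂ)
    (h : ∀ φ, Low k φ → lm (fun j => A j *
      Function.update (fun j => (1 : Matrix (Fin (w j)) (Fin (w j)) ℂ)) i φ j) f ∈ JD w k D) :
    lm A f ∈ JD w k D := by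
  obtain ⟨c, hc⟩ := exists_coef hf
  let L : ((Fin d → Idx w) → MvPolynomial (Idx w) ℂ) →ₗ[ℂ] MvPolynomial (Idx w) ℂ :=
    ∑ x, c x • (lm A).toLinearMap ∘ₗ LinearMap.proj x
  have hL : ∀ F, L F = lm A (∑ x, c x • F x) := fun F => by simp [L]
  have h1 : (S0 w i k d ⊔ Submodule.pi Set.univ fun _ => (JD w k D).restrictScalars ℂ) ≤
      ((JD w k D).restrictScalars ℂ).comap L := by
    refine sup_le (Submodule.span_le.mpr ?_) fun F hF => ?_
    · rintro _ ⟨φ, hφ, rfl⟩
      have h2 := h φ hφ
      rw [← lm_lm, ← hc] at h2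
      simp only [SetLike.mem_coe, Submodule.mem_comap, Submodule.restrictScalars_mem, hL]
      simpa only [map_sum, map_smul, map_prod, lm_update] using h2
    · rw [Submodule.mem_comap, Submodule.restrictScalars_mem, hL]
      exact lm_JD A (((JD w k D).restrictScalars ℂ).sum_mem fun x _ =>
        Submodule.smul_mem _ _ (hF x trivial))
  have h3 := h1 (mono_mem i hD)
  rwa [Submodule.mem_comap, Submodule.restrictScalars_mem, hL, hc] at h3

end DkZeroAux

open DkZeroAux in
theorem step_zero (k D N : ℕ) (hN : 0 < N) (hD : k + 1 ≤ D)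
    (h : secantIdeal (fun _ : Fin N => k) k ≤ JD (fun _ : Fin N => k) k D) (w : Fin N → ℕ) :
    secantIdeal w k ≤ JD w k D := by
  intro f hf
  rw [← sum_homogeneousComponent f]
  refine Ideal.sum_mem _ fun d _ => ?_
  have h1 := comp_mem_secant hN w k f hf d
  have h2 := homogeneousComponent_isHomogeneous d f
  generalize homogeneousComponent d f = g at h1 h2
  have key : ∀ (T : Finset (Fin N)) (A : (j : Fin N) → Matrix (Fin (w j)) (Fin (w j)) ℂ),
      (∀ j, j ∉ T → Low k (A j)) → lm A g ∈ JD w k D := by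
    intro T
    induction T using Finset.induction_on with
    | empty =>
      intro A hA
      choose P Q hPQ using fun j => hA j (Finset.notMem_empty j)
      rw [show A = fun j => P j * Q j from funext hPQ,
        ← lm_lm (w' := fun _ => k) P Q]
      exact lm_JD _ (h (lm_secant _ h1))
    | insert i T _ ih =>
      intro A hA
      refine column i hD h2 A fun φ hφ => ih _ fun j hj => ?_
      by_cases hji : j = i
      · subst hji
        obtain ⟨P, Q, rfl⟩ := hφ
        exact ⟨A j * P, Q, by rw [Function.update_self, Matrix.mul_assoc]⟩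
      · rw [Function.update_of_ne hji, Matrix.mul_one]
        exact hA j (by simp [hj, hji])
  have h3 := key univ (fun _ => 1) fun j hj => absurd (mem_univ j) hj
  rwa [lm_one] at h3

end Pool.Agent.Lib.MP_595dc0_ag.Dk
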