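import Mathlib
import Pool.Agent.Lib.MP_595dc0_ag.DkL3h
import Pool.Agent.Lib.MP_595dc0_ag.DkL3i
import Pool.Agent.Lib.MP_595dc0_ag.DkL3d
import Pool.Agent.Lib.MP_595dc0_ag.DkL2h
import Pool.Agent.Lib.MP_595dc0_ag.DkW
import Pool.Agent.Lib.MP_595dc0_ag.DkZero

set_option autoImplicit false

namespace Pool.Agent.Lib.MP_595dc0_ag.Dk

open Equiv Finset MvPolynomial

variable {k n : ℕ}

theorem TSP_lift (p : PT k n) (a : PW n) (h : FF k n) (hh : h ∈ Submodule.span ℂ (TSP a p)) :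
    ∃ w ∈ Submodule.span ℂ (RS p a), w.1 = h := by
  induction hh using Submodule.span_induction with
  | mem x hx =>
    obtain ⟨M, U, _, _, _, _, c, hc, hg, ha, hp, rfl⟩ := hx
    obtain ⟨B, φ, hB, hR⟩ := Cfg.own p c hc hg hp
    exact ⟨(c.tau, B.rho φ.1),
      Submodule.subset_span ⟨M, U, _, _, _, _, B, φ, c, hB, hc, hR, ha, rfl⟩, rfl⟩
  | zero => exact ⟨0, Submodule.zero_mem _, rfl⟩
  | add x y _ _ hx hy =>
    obtain ⟨w, hw, rfl⟩ := hx
    obtain ⟨w', hw', rfl⟩ := hy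
    exact ⟨w + w', Submodule.add_mem _ hw hw', rfl⟩
  | smul r x _ hx =>
    obtain ⟨w, hw, rfl⟩ := hx
    exact ⟨r • w, Submodule.smul_mem _ r hw, rfl⟩

theorem reflect3 (hn : 0 < n) (D D' : ℕ) (hD : D ≤ D')
    (H : ∀ p : PT k n, ∀ f ∈ ZZ k D' n p, (∀ μ ∈ f.support, VV p μ) → f ∈ ZZ k D n p) :
    Nt k n D' ≤ Nt k n D := by
  refine reflect2 hn D D' hD ?_
  intro a p h hh ht
  obtain ⟨w, hw, rfl⟩ := TSP_lift p a h hh
  refine pure D p a w hw (H p _ (Ideal.subset_span ⟨a, w, hw, ht, rfl⟩) ?_)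
  intro μ hμ
  exact (RS_support p a w hw μ hμ).1

theorem main (hk : 0 < k) : ∃ d, ∀ (N : ℕ) (w : Fin N → ℕ), 0 < N →
    GeneratedInDegreeLE d (secantIdeal w k) := by
  obtain ⟨D₁, hD₁⟩ := final_wqo hk (q := qB k) cellsV msV (2 * wB k) (fun n p => {μ | VV p μ})
    (fun n p μ hμ => VV_Bal p μ hμ) (fun D n p => ZZ k (D0 k + D) n p)
    (fun D D' n p h => ZZ_mono (by omega) p)
    (fun D n p i' i s hi f hf => ZZ_op _ p i' i s hi f hf)
    (fun D n p f hf => ZZ_proj _ p f hf)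
  refine ⟨D0 k + D₁, fun N w hN => generated_of_le w k _ ?_⟩
  refine step_zero k _ N hN (by unfold D0; nlinarith) ?_ w
  refine secant_le_JD hN _ k _ (fun D hD => ?_)
  obtain ⟨E, rfl⟩ : ∃ E, D = D0 k + E := ⟨D - D0 k, by omega⟩
  refine reflect1 (n := N) hk _ _ (by omega) hD (reflect3 hN _ _ hD ?_)
  intro p f hf hs
  exact hD₁ E (by omega) N p f hf hs

end Pool.Agent.Lib.MP_595dc0_ag.Dk
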