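import Mathlib

set_option autoImplicit false

namespace Pool.Agent.Lib.MP_595dc0_ag.Ef

open Module Submodule Function Matrix

theorem det_of_span {X : Type*} {r : ℕ} (F : X → Fin r → ℂ) (h : span ℂ (Set.range F) = ⊤) :
    ∃ a : Fin r → X, (Matrix.of fun s => F (a s)).det ≠ 0 := by
  obtain ⟨κ, a, -, h1, h2⟩ := exists_linearIndependent' ℂ F
  have : Finite κ := h2.finite
  have : Fintype κ := Fintype.ofFinite κ
  have h3 : Fintype.card κ = r := by
    have := finrank_span_eq_card h2
    rw [h1, h] at this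
    simpa using this.symm
  let e := (Fintype.equivFinOfCardEq h3).symm
  refine ⟨fun s => a (e s), ?_⟩
  have h4 : LinearIndependent ℂ (Matrix.of fun s => F (a (e s))).row := h2.comp e e.injective
  exact (Matrix.isUnit_iff_isUnit_det _).1 (Matrix.linearIndependent_rows_iff_isUnit.1 h4) |>.ne_zero

theorem span_of_det {X : Type*} {r : ℕ} (F : X → Fin r → ℂ) (a : Fin r → X)
    (h : (Matrix.of fun s => F (a s)).det ≠ 0) : span ℂ (Set.range F) = ⊤ := by
  have h1 : LinearIndependent ℂ (Matrix.of fun s => F (a s)).row :=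
    Matrix.linearIndependent_rows_iff_isUnit.2 ((Matrix.isUnit_iff_isUnit_det _).2 h.isUnit)
  have h2 := h1.span_eq_top_of_card_eq_finrank' (by simp)
  rw [eq_top_iff, ← h2]
  refine span_mono ?_
  rintro _ ⟨s, rfl⟩
  exact ⟨a s, rfl⟩

theorem det_of_indep {Y : Type*} {n : ℕ} (p : Fin n → Y → ℂ) (h : LinearIndependent ℂ p) :
    ∃ q : Fin n → Y, (Matrix.of fun l l' => p l (q l')).det ≠ 0 := by
  obtain ⟨q, hq⟩ := det_of_span (fun y l => p l y) (by
    by_contra h1
    obtain ⟨f, hf0, hf⟩ := Submodule.exists_le_ker_of_lt_top _ (lt_top_iff_ne_top.2 h1)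
    apply hf0
    have h2 := Fintype.linearIndependent_iff.1 h (fun l => f (Pi.single l 1)) (by
      funext y
      have := hf (subset_span ⟨y, rfl⟩)
      rw [LinearMap.mem_ker, LinearMap.pi_apply_eq_sum_univ] at this
      simp only [Finset.sum_apply, Pi.smul_apply, smul_eq_mul, Pi.zero_apply]
      rw [← this]
      refine Finset.sum_congr rfl fun l _ => ?_
      rw [smul_eq_mul, mul_comm]
      congr 2
      funext j
      simp [Pi.single_apply, eq_comm])
    ext l
    simpa using h2 l)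
  exact ⟨q, by rwa [← Matrix.det_transpose] at hq⟩

theorem finite_shift {κ : Type*} [Fintype κ] [DecidableEq κ] (N : Matrix κ κ ℂ) :
    {s : ℂ | (N + s • (1 : Matrix κ κ ℂ)).det = 0}.Finite := by
  refine ((-N).charpoly.rootSet_finite ℂ).subset fun s hs => ?_
  rw [Polynomial.mem_rootSet]
  refine ⟨(Matrix.charpoly_monic _).ne_zero, ?_⟩
  rw [Polynomial.coe_aeval_eq_eval, Matrix.eval_charpoly, ← show (N + s • (1 : Matrix κ κ ℂ)).det = 0 from hs]
  congr 1
  ext i j
  by_cases h : i = j <;> simp [h, add_comm]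

theorem exists_shift {X W : Type*} [AddCommGroup W] [Module ℂ W] [FiniteDimensional ℂ W]
    (e n : X → W) (h : ∀ u, n u ∈ span ℂ (Set.range e)) :
    ∃ s : ℂ, span ℂ (Set.range e) ≤ span ℂ (Set.range fun u => n u + s • e u) := by
  classical
  obtain ⟨κ, a, -, h1, h2⟩ := exists_linearIndependent' ℂ e
  have : Finite κ := h2.finite
  have : Fintype κ := Fintype.ofFinite κ
  have h3 : ∀ l, ∃ c : κ → ℂ, ∑ m, c m • e (a m) = n (a l) := fun l =>
    (mem_span_range_iff_exists_fun ℂ).1 (h1 ▸ h (a l))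
  choose N hN using h3
  obtain ⟨s, hs⟩ := (finite_shift (Matrix.of N)).exists_notMem
  refine ⟨s, ?_⟩
  set M := Matrix.of N + s • (1 : Matrix κ κ ℂ) with hM
  have h4 : ∀ l, n (a l) + s • e (a l) = ∑ m, M l m • e (a m) := by
    intro l
    simp [hM, add_smul, Finset.sum_add_distrib, hN, Matrix.one_apply, ite_smul]
  rw [← h1, span_le]
  rintro _ ⟨m, rfl⟩
  have h5 : (e ∘ a) m = ∑ l, M⁻¹ m l • (n (a l) + s • e (a l)) := by
    simp only [h4, Finset.smul_sum, smul_smul]
    rw [Finset.sum_comm]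
    simp only [← Finset.sum_smul, ← Matrix.mul_apply]
    rw [Matrix.nonsing_inv_mul _ (Ne.isUnit hs)]
    simp [Matrix.one_apply, ite_smul]
  rw [h5]
  exact sum_mem fun l _ => smul_mem _ _ (subset_span ⟨a l, rfl⟩)

variable {ι : Type*} [DecidableEq ι] {V : ι → Type*} [∀ i, AddCommGroup (V i)]
  [∀ i, Module ℂ (V i)]

omit [∀ i, AddCommGroup (V i)] [∀ i, Module ℂ (V i)] in
theorem pw_update {A : Finset ι} {i : ι} (hi : i ∉ A) (u η : ∀ i, V i) (x : V i) :
    A.piecewise u (update η i x) = update (A.piecewise u η) i x :=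
  (Finset.update_piecewise_of_notMem _ _ _ hi x).symm

theorem shrink {W : Type*} [AddCommGroup W] [Module ℂ W] [FiniteDimensional ℂ W]
    (f : (∀ i, V i) → W) (S : Finset ι)
    (hlin : ∀ i ∈ S, ∀ u x y (s : ℂ),
      f (update u i (x + s • y)) = f (update u i x) + s • f (update u i y))
    (hind : ∀ u u', (∀ i ∈ S, u i = u' i) → f u = f u') :
    ∃ A ⊆ S, ∃ ξ, A.card ≤ finrank ℂ W ∧
      span ℂ (Set.range f) ≤ span ℂ (Set.range fun u => f (A.piecewise u ξ)) := by
  let sp : Finset ι → (∀ i, V i) → Submodule ℂ W :=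
    fun A ξ => span ℂ (Set.range fun u => f (A.piecewise u ξ))
  have key : ∀ a : ℕ, ∃ A ⊆ S, ∃ ξ, A.card ≤ a ∧
      (a ≤ finrank ℂ (sp A ξ) ∨ span ℂ (Set.range f) ≤ sp A ξ) := by
    intro a
    induction a with
    | zero => exact ⟨∅, by simp, 0, le_rfl, Or.inl (Nat.zero_le _)⟩
    | succ a ih =>
      obtain ⟨A, hA, ξ, hc, h | h⟩ := ih
      swap
      · exact ⟨A, hA, ξ, by omega, Or.inr h⟩
      by_cases h1 : ∃ i ∈ S, ∃ ξ', finrank ℂ (sp A ξ) < finrank ℂ (sp (insert i A) ξ')
      · obtain ⟨i, hi, ξ', h1⟩ := h1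
        exact ⟨insert i A, Finset.insert_subset hi hA, ξ',
          (Finset.card_insert_le _ _).trans (by omega), Or.inl (by omega)⟩
      push Not at h1
      refine ⟨A, hA, ξ, by omega, Or.inr ?_⟩
      have h2 : ∀ D : Finset ι, D ⊆ S → ∀ ξ', sp A ξ' = sp A ξ → ∀ η, (∀ i ∉ D, η i = ξ' i) →
          sp A η ≤ sp A ξ := by
        intro D
        induction D using Finset.induction_on with
        | empty =>
          intro _ ξ' h3 η h4
          obtain rfl : η = ξ' := funext fun i => h4 i (by simp)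
          exact h3.le
        | insert i D hiD ih =>
          intro hD ξ' h3 η h4
          have hi : i ∈ S := hD (Finset.mem_insert_self _ _)
          have ih' := ih ((Finset.subset_insert _ _).trans hD)
          have h5 : ∀ x, ∀ j ∉ D, update η i x j = update ξ' i x j := by
            intro x j hj
            by_cases hji : j = i
            · subst hji
              simp
            · rw [update_of_ne hji, update_of_ne hji, h4 j (by simp [hji, hj])]
          have h6 := ih' ξ' h3 (update η i (ξ' i)) (by simpa using h5 (ξ' i))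
          by_cases hiA : i ∈ A
          · refine le_trans (le_of_eq ?_) h6
            simp only [sp]
            congr 2
            funext u
            congr 1
            funext j
            by_cases hj : j ∈ A
            · simp [hj]
            · simp [hj, update_of_ne (ne_of_mem_of_not_mem hiA hj).symm]
          have h7 : ∀ u x, update (A.piecewise u ξ') i x =
              (insert i A).piecewise (update u i x) ξ' := by
            intro u x
            funext j
            by_cases hji : j = i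
            · subst hji
              simp
            · by_cases hj : j ∈ A <;> simp [hj, hji]
          have h8 : sp (insert i A) ξ' = sp A ξ := by
            refine (Submodule.eq_of_le_of_finrank_le ?_ (h1 i hi ξ')).symm
            rw [← h3, span_le]
            rintro _ ⟨u, rfl⟩
            refine subset_span ⟨update u i (ξ' i), ?_⟩
            simp only [← h7]
            rw [← pw_update hiA, update_eq_self]
          have h9 : ∀ u x, f (update (A.piecewise u ξ') i x) ∈ sp A ξ := by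
            intro u x
            rw [← h8, h7]
            exact subset_span ⟨_, rfl⟩
          obtain ⟨s, hs⟩ := exists_shift (fun u => f (A.piecewise u ξ'))
            (fun u => f (update (A.piecewise u ξ') i (η i))) (fun u => h3.ge (h9 u _))
          have h10 : sp A (update ξ' i (η i + s • ξ' i)) = sp A ξ := by
            apply le_antisymm
            · rw [span_le]
              rintro _ ⟨u, rfl⟩
              simp only [pw_update hiA]
              exact h9 u _
            · refine le_trans h3.ge (le_trans hs (le_of_eq ?_))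
              simp only [sp]
              congr 2
              funext u
              rw [pw_update hiA, hlin i hi, ← pw_update hiA u ξ' (ξ' i), update_eq_self]
          have h11 := ih' _ h10 _ (h5 (η i + s • ξ' i))
          rw [span_le]
          rintro _ ⟨u, rfl⟩
          have h12 := h11 (subset_span ⟨u, rfl⟩)
          have h13 := h6 (subset_span ⟨u, rfl⟩)
          simp only [pw_update hiA] at h12 h13
          rw [hlin i hi, ← pw_update hiA, update_eq_self] at h12
          simpa using sub_mem h12 (smul_mem _ s h13)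
      rw [span_le]
      rintro _ ⟨η, rfl⟩
      refine h2 S subset_rfl ξ rfl (S.piecewise η ξ) (fun i hi => by simp [hi])
        (subset_span ⟨η, hind _ _ fun i hi => ?_⟩)
      by_cases hA : i ∈ A <;> simp [hA, hi]
  obtain ⟨A, hA, ξ, hc, h | h⟩ := key (finrank ℂ W)
  · refine ⟨A, hA, ξ, hc, ?_⟩
    rw [show span ℂ (Set.range fun u => f (A.piecewise u ξ)) = ⊤ from
      Submodule.eq_top_of_finrank_eq (le_antisymm (Submodule.finrank_le _) h)]
    exact le_top
  · exact ⟨A, hA, ξ, hc, h⟩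

/-- All flattenings have rank at most `r`. -/
def Dep (τ : MultilinearMap ℂ V ℂ) (r : ℕ) : Prop :=
  ∀ (S : Finset ι) (p : Fin (r + 1) → ∀ i, V i),
    ¬ LinearIndependent ℂ fun l q => τ (S.piecewise (p l) q)

theorem dep_of_det {τ : MultilinearMap ℂ V ℂ} {r : ℕ}
    (h : ∀ (S : Finset ι) (u u' : Fin (r + 1) → ∀ i, V i),
      (Matrix.of fun s t => τ (S.piecewise (u s) (u' t))).det = 0) : Dep τ r := by
  intro S p hp
  obtain ⟨q, hq⟩ := det_of_indep _ hp
  exact hq (h S p q)

theorem Dep.schur {τ : MultilinearMap ℂ V ℂ} {r : ℕ} (h : Dep τ r) (S : Finset ι)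
    (P Q : Fin r → ∀ i, V i) (M : Matrix (Fin r) (Fin r) ℂ)
    (hM : ∀ s t, M s t = τ (S.piecewise (P s) (Q t))) (hd : M.det ≠ 0) (p q : ∀ i, V i) :
    τ (S.piecewise p q) = (fun t => τ (S.piecewise p (Q t))) ⬝ᵥ
      (M⁻¹ *ᵥ fun s => τ (S.piecewise (P s) q)) := by
  have h1 : LinearIndependent ℂ fun s q => τ (S.piecewise (P s) q) := by
    have h2 : LinearIndependent ℂ M.row :=
      Matrix.linearIndependent_rows_iff_isUnit.2 ((Matrix.isUnit_iff_isUnit_det _).2 hd.isUnit)
    refine LinearIndependent.of_comp (LinearMap.funLeft ℂ ℂ Q) ?_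
    convert h2 using 1
    funext s t
    exact (hM s t).symm
  have h2 := h S (Fin.cons p P)
  have h3 : (fun l q => τ (S.piecewise ((Fin.cons p P : Fin (r + 1) → ∀ i, V i) l) q)) =
      Fin.cons (fun q => τ (S.piecewise p q)) fun s q => τ (S.piecewise (P s) q) := by
    funext l
    refine Fin.cases rfl (fun _ => rfl) l
  rw [h3, linearIndependent_finCons, not_and, not_not] at h2
  obtain ⟨c, hc⟩ := (mem_span_range_iff_exists_fun ℂ).1 (h2 h1)
  have h4 : ∀ q, τ (S.piecewise p q) = c ⬝ᵥ fun s => τ (S.piecewise (P s) q) := by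
    intro q
    rw [← congrFun hc q]
    simp [dotProduct]
  have h5 : (fun t => τ (S.piecewise p (Q t))) = c ᵥ* M := by
    funext t
    rw [h4]
    simp [Matrix.vecMul, hM]
  rw [h5, Matrix.dotProduct_mulVec, Matrix.vecMul_vecMul, Matrix.mul_nonsing_inv _ hd.isUnit,
    Matrix.vecMul_one, h4]

/-- A frame for a multilinear form all of whose flattenings have rank at most `r`. -/
structure Fr (τ : MultilinearMap ℂ V ℂ) (r : ℕ) where
  A : Finset ι
  B : Finset ι
  a : Fin r → ∀ i, V i
  b : Fin r → ∀ i, V i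
  disj : ∀ i ∈ A, i ∉ B
  dep : Dep τ r

namespace Fr

variable {τ : MultilinearMap ℂ V ℂ} {r : ℕ} (F : Fr τ r)

/-- Row vector of a tuple. -/
def al (η : ∀ i, V i) : Fin r → ℂ := fun t => τ (F.B.piecewise (F.b t) η)

/-- Matrix of a tuple. -/
def G (η : ∀ i, V i) : Matrix (Fin r) (Fin r) ℂ := Matrix.of fun s => F.al (F.A.piecewise (F.a s) η)

/-- Column vector of a tuple. -/
noncomputable def be (ξ v : ∀ i, V i) : Fin r → ℂ :=
  (F.G ξ)⁻¹ *ᵥ fun s => τ (F.B.piecewise v (F.A.piecewise (F.a s) ξ))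

/-- The operator of a vector in one factor. -/
noncomputable def X (ξ : ∀ i, V i) (i : ι) : V i →ₗ[ℂ] Matrix (Fin r) (Fin r) ℂ where
  toFun x := (F.G ξ)⁻¹ *
    Matrix.of fun s t => τ (update (F.B.piecewise (F.b t) (F.A.piecewise (F.a s) ξ)) i x)
  map_add' x y := by
    rw [← Matrix.mul_add]
    congr 1
    ext s t
    simp
  map_smul' c x := by
    rw [RingHom.id_apply, ← Matrix.mul_smul]
    congr 1
    ext s t
    simp

theorem X_eq {i : ι} (hA : i ∉ F.A) (hB : i ∉ F.B) (ξ : ∀ i, V i) (x : V i) :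
    F.X ξ i x = (F.G ξ)⁻¹ * F.G (update ξ i x) := by
  change (F.G ξ)⁻¹ * _ = _
  congr 1
  ext s t
  simp [G, al, pw_update hA, pw_update hB]

theorem X_self {i : ι} (hA : i ∉ F.A) (hB : i ∉ F.B) {ξ : ∀ i, V i} (hd : (F.G ξ).det ≠ 0) :
    F.X ξ i (ξ i) = 1 := by
  rw [F.X_eq hA hB, update_eq_self, Matrix.nonsing_inv_mul _ hd.isUnit]

theorem g1 [Fintype ι] {ξ : ∀ i, V i} (hd : (F.G ξ).det ≠ 0) (η : ∀ i, V i) :
    τ η = F.al η ⬝ᵥ F.be ξ η := by
  have := F.dep.schur F.Bᶜ (fun s => F.A.piecewise (F.a s) ξ) F.b (F.G ξ)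
    (fun s t => by rw [Finset.piecewise_compl]; rfl) hd η η
  simp only [Finset.piecewise_compl, Finset.piecewise_same] at this
  exact this

theorem g2 [Fintype ι] {ξ : ∀ i, V i} (hd : (F.G ξ).det ≠ 0) {i : ι} (hA : i ∉ F.A) (hB : i ∉ F.B)
    (η : ∀ i, V i) (x : V i) :
    F.al (update η i x) = F.al (update η i (ξ i)) ᵥ* F.X ξ i x := by
  funext t
  have h1 : ∀ (p : ∀ i, V i) (t : Fin r) (x : V i), (insert i F.B)ᶜ.piecewise p
      (F.B.piecewise (F.b t) (update ξ i x)) = F.B.piecewise (F.b t) (update p i x) := by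
    intro p t x
    funext j
    by_cases hj : j ∈ F.B
    · simp [hj]
    · by_cases hji : j = i
      · subst hji
        simp [hj]
      · simp [hj, hji]
  have := F.dep.schur (insert i F.B)ᶜ (fun s => F.A.piecewise (F.a s) ξ)
    (fun t => F.B.piecewise (F.b t) (update ξ i (ξ i))) (F.G ξ)
    (fun s t => by rw [h1, ← pw_update hA, update_eq_self]; rfl) hd η
    (F.B.piecewise (F.b t) (update ξ i x))
  simp only [h1] at this
  rw [F.X_eq hA hB, ← Matrix.vecMul_vecMul]
  change _ = (_ ᵥ* _) ⬝ᵥ _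
  rw [← Matrix.dotProduct_mulVec]
  simp only [← pw_update hA] at this
  exact this

theorem G_update [Fintype ι] {ξ : ∀ i, V i} (hd : (F.G ξ).det ≠ 0) {i : ι} (hA : i ∉ F.A)
    (hB : i ∉ F.B) (η : ∀ i, V i) (x : V i) :
    F.G (update η i x) = F.G (update η i (ξ i)) * F.X ξ i x := by
  ext s t
  have := congrFun (F.g2 hd hA hB (F.A.piecewise (F.a s) η) x) t
  simp only [← pw_update hA] at this
  exact this

theorem X_mul [Fintype ι] (ξ : ∀ i, V i) {ξ' : ∀ i, V i} (hd' : (F.G ξ').det ≠ 0)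
    {i : ι} (hA : i ∉ F.A) (hB : i ∉ F.B) (x : V i) :
    F.X ξ i (ξ' i) * F.X ξ' i x = F.X ξ i x := by
  rw [F.X_eq hA hB ξ x, F.G_update hd' hA hB ξ x, F.X_eq hA hB ξ, Matrix.mul_assoc]

theorem exists_base [Fintype ι] {ξ : ∀ i, V i} (hd : (F.G ξ).det ≠ 0) {J : Type*} [Fintype J]
    (H : ∀ i, J → Submodule ℂ (V i)) (hH : ∀ i j, H i j ≠ ⊤) (S : Finset ι)
    (hS : ∀ i ∈ S, i ∉ F.A ∧ i ∉ F.B) :
    ∃ ξ', (F.G ξ').det ≠ 0 ∧ (∀ i ∉ S, ξ' i = ξ i) ∧ ∀ i ∈ S, ∀ j, ξ' i ∉ H i j := by
  classical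
  induction S using Finset.induction_on with
  | empty => exact ⟨ξ, hd, fun _ _ => rfl, by simp⟩
  | insert i S hi ih =>
    obtain ⟨η, h1, h2, h3⟩ := ih fun j hj => hS j (Finset.mem_insert_of_mem hj)
    obtain ⟨hA, hB⟩ := hS i (Finset.mem_insert_self _ _)
    obtain ⟨u, hu⟩ : ∃ u, ∀ j, u ∉ H i j := by
      have := Subspace.biUnion_ne_univ_of_top_notMem (s := Finset.univ.image (H i))
        (by simpa using fun j => hH i j)
      obtain ⟨u, hu⟩ := (Set.ne_univ_iff_exists_notMem _).1 this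
      exact ⟨u, by simpa using hu⟩
    have h4 : ∀ j, {s : ℂ | u + s • η i ∈ H i j}.Finite := by
      intro j
      refine Set.Subsingleton.finite fun s hs s' hs' => ?_
      by_contra hne
      apply hu j
      have h5 : (s - s') • u = s • (u + s' • η i) - s' • (u + s • η i) := by module
      rw [← (H i j).smul_mem_iff (sub_ne_zero.2 hne), h5]
      exact sub_mem (smul_mem _ _ hs') (smul_mem _ _ hs)
    obtain ⟨s, hs⟩ := ((finite_shift (F.X η i u)).union (Set.finite_iUnion h4)).exists_notMem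
    simp only [Set.mem_union, Set.mem_iUnion, not_or, not_exists] at hs
    refine ⟨update η i (u + s • η i), ?_, fun j hj => ?_, fun j hj => ?_⟩
    · rw [F.G_update h1 hA hB, update_eq_self, Matrix.det_mul, map_add, map_smul,
        F.X_self hA hB h1]
      exact mul_ne_zero h1 hs.1
    · rw [Finset.mem_insert, not_or] at hj
      rw [update_of_ne hj.1, h2 j hj.2]
    · rcases Finset.mem_insert.1 hj with rfl | hj
      · rw [update_self]
        exact hs.2
      · rw [update_of_ne (ne_of_mem_of_not_mem hj hi)]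
        exact h3 j hj

theorem finrank_le (ξ : ∀ i, V i) (P : Finset ι) (hP : ∀ i ∈ P, i ∉ F.A ∧ i ∉ F.B) :
    finrank ℂ (P.sup fun i => LinearMap.range (F.X ξ i) : Submodule ℂ _) ≤ r := by
  let g : (Σ i : P, V i) → Matrix (Fin r) (Fin r) ℂ := fun z => F.X ξ z.1 z.2
  have h1 : (P.sup fun i => LinearMap.range (F.X ξ i)) ≤ span ℂ (Set.range g) := by
    refine Finset.sup_le fun i hi => ?_
    rintro _ ⟨x, rfl⟩
    exact subset_span ⟨⟨⟨i, hi⟩, x⟩, rfl⟩
  refine (Submodule.finrank_mono h1).trans ?_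
  obtain ⟨κ, a, -, h2, h3⟩ := exists_linearIndependent' ℂ g
  have : Finite κ := h3.finite
  have : Fintype κ := Fintype.ofFinite κ
  rw [← h2, finrank_span_eq_card h3]
  by_contra h4
  obtain ⟨e⟩ := Function.Embedding.nonempty_of_card_le (α := Fin (r + 1)) (β := κ)
    (by simpa using h4)
  have h5 := h3.comp e e.injective
  apply F.dep P fun l => update ξ (a (e l)).1 (a (e l)).2
  let L : ((∀ i, V i) → ℂ) →ₗ[ℂ] Matrix (Fin r) (Fin r) ℂ :=
    { toFun := fun w => (F.G ξ)⁻¹ *
        Matrix.of fun s t => w (F.B.piecewise (F.b t) (F.A.piecewise (F.a s) ξ))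
      map_add' := fun x y => by
        rw [← Matrix.mul_add]
        congr 1
      map_smul' := fun c x => by
        rw [RingHom.id_apply, ← Matrix.mul_smul]
        congr 1 }
  refine LinearIndependent.of_comp L ?_
  refine (congrArg (fun z => LinearIndependent ℂ z) ?_).mp h5
  symm
  funext l
  change (F.G ξ)⁻¹ * _ = (F.G ξ)⁻¹ * _
  congr 1
  ext s t
  simp only [Matrix.of_apply]
  congr 1
  funext j
  obtain ⟨⟨i, hi⟩, x⟩ := a (e l)
  by_cases hji : j = i
  · subst hji
    simp [hi]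
  · by_cases hj : j ∈ P
    · simp [hj, hji, hP j hj]
    · simp [hj, hji]

theorem X_mem [Fintype ι] {ξ ξ' : ∀ i, V i} (hd : (F.G ξ).det ≠ 0) (hd' : (F.G ξ').det ≠ 0)
    {J R : Finset ι} (hJ : ∀ i ∈ J, i ∉ F.A ∧ i ∉ F.B) (hR : ∀ i ∈ R, i ∉ F.A ∧ i ∉ F.B)
    (h : (R.sup fun i => LinearMap.range (F.X ξ i)) ≤ J.sup fun i => LinearMap.range (F.X ξ i))
    (𝓐 : Subalgebra ℂ (Matrix (Fin r) (Fin r) ℂ)) (hA : ∀ j ∈ J, ∀ x, F.X ξ' j x ∈ 𝓐) :
    ∀ i ∈ R, ∀ x, F.X ξ' i x ∈ 𝓐 := by
  have inv : ∀ u v : Matrix (Fin r) (Fin r) ℂ, v * u = 1 → u ∈ 𝓐 → v ∈ 𝓐 := by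
    intro u v huv hu
    let L : 𝓐 →ₗ[ℂ] 𝓐 := LinearMap.mulLeft ℂ ⟨u, hu⟩
    have h1 : Injective L := by
      intro x y hxy
      have h2 : u * x = u * y := congrArg Subtype.val hxy
      apply Subtype.ext
      rw [← one_mul x.1, ← one_mul y.1, ← huv, mul_assoc, h2, mul_assoc]
    obtain ⟨x, hx⟩ := LinearMap.surjective_of_injective h1 1
    have h2 : u * x = 1 := congrArg Subtype.val hx
    rw [← mul_one v, ← h2, ← mul_assoc, huv, one_mul]
    exact x.2
  have h1 : ∀ i ∈ R, ∀ x, F.X ξ i x ∈ 𝓐 := by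
    intro i hi x
    refine (le_trans (Finset.le_sup (f := fun i => LinearMap.range (F.X ξ i)) hi) (h.trans (Finset.sup_le fun j hj => ?_)) :
      LinearMap.range (F.X ξ i) ≤ 𝓐.toSubmodule) ⟨x, rfl⟩
    rintro _ ⟨y, rfl⟩
    obtain ⟨a1, a2⟩ := hJ j hj
    rw [← F.X_mul ξ hd' a1 a2]
    exact 𝓐.mul_mem (inv _ _ ((F.X_mul ξ hd' a1 a2 _).trans (F.X_self a1 a2 hd)) (hA j hj _))
      (hA j hj _)
  intro i hi x
  obtain ⟨a1, a2⟩ := hR i hi
  rw [← F.X_mul ξ' hd a1 a2]
  exact mul_mem (inv _ _ ((F.X_mul ξ' hd a1 a2 _).trans (F.X_self a1 a2 hd')) (h1 i hi _))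
    (h1 i hi _)

end Fr

theorem exists_frame [Fintype ι] (τ : MultilinearMap ℂ V ℂ) {k : ℕ}
    (h : ∀ (S : Finset ι) (u u' : Fin (k + 1) → ∀ i, V i),
      (Matrix.of fun s t => τ (S.piecewise (u s) (u' t))).det = 0) :
    ∃ r ≤ k, ∃ F : Fr τ r, F.A.card ≤ r ∧ F.B.card ≤ r ∧ ∃ ξ, (F.G ξ).det ≠ 0 := by
  classical
  have hex : ∃ r, ∀ (S : Finset ι) (u u' : Fin (r + 1) → ∀ i, V i),
      (Matrix.of fun s t => τ (S.piecewise (u s) (u' t))).det = 0 := ⟨k, h⟩
  obtain ⟨S, u, u', h1⟩ : ∃ (S : Finset ι) (u u' : Fin (Nat.find hex) → ∀ i, V i),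
      (Matrix.of fun s t => τ (S.piecewise (u s) (u' t))).det ≠ 0 := by
    have : ∀ n, n = Nat.find hex → ∃ (S : Finset ι) (u u' : Fin n → ∀ i, V i),
        (Matrix.of fun s t => τ (S.piecewise (u s) (u' t))).det ≠ 0 := by
      rintro (_ | n) hn
      · exact ⟨∅, 0, 0, by simp⟩
      · have := Nat.find_min hex (m := n) (by omega)
        push Not at this
        exact this
    exact this _ rfl
  have h2 := dep_of_det (Nat.find_spec hex)
  refine ⟨_, Nat.find_min' hex h, ?_⟩
  generalize Nat.find hex = r at *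
  obtain ⟨A, hA, ξ1, hcA, h3⟩ := shrink (fun p (t : Fin r) => τ (S.piecewise p (u' t))) S
    (fun i hi p x y s => by
      funext t
      simp [← Finset.update_piecewise_of_mem _ _ _ hi])
    (fun p p' hp => by
      funext t
      rw [Finset.piecewise_congr _ hp fun _ _ => rfl])
  rw [span_of_det _ u h1, top_le_iff] at h3
  obtain ⟨a, ha⟩ := det_of_span _ h3
  obtain ⟨B, hB, ξ2, hcB, h4⟩ := shrink
    (fun q (s : Fin r) => τ (S.piecewise (A.piecewise (a s) ξ1) q)) Sᶜ
    (fun i hi p x y s => by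
      funext t
      simp [pw_update (Finset.mem_compl.1 hi)])
    (fun p p' hp => by
      funext t
      rw [Finset.piecewise_congr _ (fun _ _ => rfl) fun i hi => hp i (Finset.mem_compl.2 hi)])
  rw [span_of_det _ u' (by rwa [← Matrix.det_transpose] at ha), top_le_iff] at h4
  obtain ⟨b, hb⟩ := det_of_span _ h4
  have h5 : ∀ i ∈ A, i ∉ B := fun i hi hi' => Finset.mem_compl.1 (hB hi') (hA hi)
  refine ⟨⟨A, B, a, b, h5, h2⟩, by simpa using hcA, by simpa using hcB, S.piecewise ξ1 ξ2, ?_⟩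
  rw [← Matrix.det_transpose] at hb
  convert hb using 2
  ext s t
  simp only [Fr.G, Fr.al, Matrix.of_apply, Matrix.transpose_apply]
  congr 1
  funext i
  by_cases h6 : i ∈ B
  · simp [h6, Finset.mem_compl.1 (hB h6)]
  · by_cases h7 : i ∈ A
    · simp [h6, h7, hA h7]
    · by_cases h8 : i ∈ S <;> simp [h6, h7, h8]

section blocks

variable {W : Type*} [AddCommGroup W] [Module ℂ W] [FiniteDimensional ℂ W] (U : ι → Submodule ℂ W)

theorem exists_block (P : Finset ι) :
    ∃ I ⊆ P, I.card ≤ finrank ℂ (P.sup U : Submodule ℂ W) ∧ P.sup U ≤ I.sup U := by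
  induction P using Finset.induction_on with
  | empty => exact ⟨∅, subset_rfl, by simp, le_rfl⟩
  | insert i P _ ih =>
    obtain ⟨I, h1, h2, h3⟩ := ih
    have h4 : P.sup U ≤ (insert i P).sup U := Finset.sup_mono (Finset.subset_insert _ _)
    by_cases h : U i ≤ P.sup U
    · refine ⟨I, h1.trans (Finset.subset_insert _ _), h2.trans (Submodule.finrank_mono h4), ?_⟩
      rw [Finset.sup_insert]
      exact sup_le (h.trans h3) h3
    · refine ⟨insert i I, Finset.insert_subset_insert _ h1, ?_, ?_⟩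
      · have := Submodule.finrank_lt_finrank_of_lt (lt_of_le_of_ne h4 fun e => h (by
          rw [e, Finset.sup_insert]
          exact le_sup_left))
        exact (Finset.card_insert_le _ _).trans (by omega)
      · rw [Finset.sup_insert, Finset.sup_insert]
        exact sup_le_sup_left h3 _

theorem robust_step {k : ℕ} (R : Finset ι) (hR : finrank ℂ (R.sup U : Submodule ℂ W) ≤ k) (t : ℕ) :
    ∃ T ⊆ R, T.card ≤ t * k ∧
      ((∀ S : Finset ι, S.card < t → R.sup U ≤ (T \ S).sup U) ∨ (R \ T).sup U < R.sup U) := by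
  induction t with
  | zero => exact ⟨∅, by simp, by simp, Or.inl (by simp)⟩
  | succ t ih =>
    obtain ⟨T, h1, h2, h3⟩ := ih
    by_cases h4 : (R \ T).sup U < R.sup U
    · exact ⟨T, h1, h2.trans (by nlinarith), Or.inr h4⟩
    have h5 : (R \ T).sup U = R.sup U :=
      (eq_or_lt_of_le (Finset.sup_mono Finset.sdiff_subset)).resolve_right h4
    obtain ⟨I, h6, h7, h8⟩ := exists_block U (R \ T)
    rw [h5] at h7 h8
    refine ⟨T ∪ I, Finset.union_subset h1 (h6.trans Finset.sdiff_subset),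
      (Finset.card_union_le _ _).trans (by nlinarith), Or.inl fun S hS => ?_⟩
    by_cases h9 : Disjoint S I
    · refine h8.trans (Finset.sup_mono fun i hi => ?_)
      simp [hi, Finset.disjoint_right.1 h9 hi]
    · obtain ⟨i, hi, hi'⟩ := Finset.not_disjoint_iff.1 h9
      have h10 : (S.erase i).card < t := by
        rw [Finset.card_erase_of_mem hi]
        have := Finset.card_pos.2 ⟨i, hi⟩
        omega
      refine (h3.resolve_right h4 _ h10).trans (Finset.sup_mono fun j hj => ?_)
      have h11 := Finset.mem_sdiff.1 (h6 hi')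
      simp only [Finset.mem_sdiff, Finset.mem_erase, not_and, Finset.mem_union] at hj ⊢
      exact ⟨Or.inl hj.1, hj.2 fun e => h11.2 (e ▸ hj.1)⟩

theorem robust {k : ℕ} (m d : ℕ) : ∀ R : Finset ι, finrank ℂ (R.sup U : Submodule ℂ W) ≤ k →
    finrank ℂ (R.sup U : Submodule ℂ W) ≤ d → ∃ E T : Finset ι, T ⊆ R \ E ∧
      E.card + T.card ≤ (d + 1) * (m * k) ∧
      ∀ S : Finset ι, S.card < m → (R \ E).sup U ≤ (T \ S).sup U := by
  induction d with
  | zero =>
    intro R h1 h2
    obtain ⟨T, h3, h4, h5 | h5⟩ := robust_step U R h1 m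
    · exact ⟨∅, T, by simpa using h3, by simpa using h4, by simpa using h5⟩
    · have := Submodule.finrank_lt_finrank_of_lt h5
      omega
  | succ d ih =>
    intro R h1 h2
    obtain ⟨T, h3, h4, h5 | h5⟩ := robust_step U R h1 m
    · exact ⟨∅, T, by simpa using h3, by simpa using h4.trans (by nlinarith), by simpa using h5⟩
    · have := Submodule.finrank_lt_finrank_of_lt h5
      obtain ⟨E, T', h6, h7, h8⟩ := ih (R \ T) (by omega) (by omega)
      refine ⟨T ∪ E, T', by rwa [← Finset.sup_eq_union, ← sdiff_sdiff_left], ?_, ?_⟩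
      · have := Finset.card_union_le T E
        nlinarith
      · rwa [← Finset.sup_eq_union, ← sdiff_sdiff_left]

end blocks

end Pool.Agent.Lib.MP_595dc0_ag.Ef
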