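import Mathlib
import Pool.Agent.Lib.MP_595dc0_ag.Val
import Pool.Agent.Lib.MP_595dc0_ag.EfLin

set_option autoImplicit false

namespace Pool.Agent.Lib.MP_595dc0_ag.Ef

open Module Submodule Function MvPolynomial IsLocalRing

section par

variable {J : Type} [Fintype J] (β : J → Type) (k : ℕ)

/-- The parametrisation of the tensors of rank at most `k`. -/
noncomputable def par (x : ∀ i, β i) : MvPolynomial (Fin k × Option (Σ i, β i)) ℂ :=
  ∑ j, X (j, none) * ∏ i, X (j, some ⟨i, x i⟩)

/-- The point lies in the Zariski closure of the image of the parametrisation. -/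
def InCl (P : (∀ i, β i) → ℂ) : Prop := ∀ f, aeval (par β k) f = 0 → eval P f = 0

variable {β k} {R : Type} [CommRing R] [Algebra ℂ R]

theorem par_sub (φ : Fin k → R) (Y : ∀ i, β i → Fin k → R) {f : MvPolynomial (∀ i, β i) ℂ}
    (hf : aeval (par β k) f = 0) : aeval (fun x => ∑ j, φ j * ∏ i, Y i (x i) j) f = 0 := by
  have := congrArg (aeval
    fun z : Fin k × Option (Σ i, β i) => z.2.elim (φ z.1) fun q => Y q.1 q.2 z.1) hf
  rw [map_zero, comp_aeval_apply] at this
  simpa [par] using this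

theorem par_hom (x : ∀ i, β i) : (par β k x).IsHomogeneous (1 + Fintype.card J) := by
  refine IsHomogeneous.sum _ _ _ fun j _ => (isHomogeneous_X _ _).mul ?_
  simpa using IsHomogeneous.prod Finset.univ (fun i => X (j, some (⟨i, x i⟩ : Σ i, β i)))
    (fun _ => 1) fun i _ => isHomogeneous_X ℂ _

theorem par_expand [DecidableEq J] [∀ i, Fintype (β i)] (φ : Fin k → R)
    (Y : ∀ i, β i → Fin k → R) (u : ∀ i, β i → ℂ) :
    ∑ x : ∀ i, β i, (∏ i, u i (x i)) • ∑ j, φ j * ∏ i, Y i (x i) j =
      ∑ j, φ j * ∏ i, ∑ a, u i a • Y i a j := by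
  simp only [Finset.smul_sum]
  rw [Finset.sum_comm]
  refine Finset.sum_congr rfl fun j _ => ?_
  rw [Finset.prod_univ_sum, Fintype.piFinset_univ, Finset.mul_sum]
  refine Finset.sum_congr rfl fun x _ => ?_
  rw [Finset.prod_smul, mul_smul_comm]

end par

section val

variable {K : Type} [Field K] (O : ValuationSubring K)

/-- Pairs of an integral element and its residue. -/
noncomputable def RS : Submodule O (K × ResidueField O) :=
  LinearMap.range ((Algebra.linearMap O K).prod (Algebra.linearMap O (ResidueField O)))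

theorem mem_RS {x : K} {a : ResidueField O} :
    (x, a) ∈ RS O ↔ ∃ o : O, o.1 = x ∧ residue O o = a := by
  simp only [RS, LinearMap.mem_range, Prod.ext_iff]
  rfl

variable [Algebra ℂ K] (h : ∀ a : ℂ, algebraMap ℂ K a ∈ O)

/-- The constants inside the valuation ring. -/
noncomputable def rho0 : ℂ →+* O := (algebraMap ℂ K).codRestrict O h

/-- The constants inside the residue field. -/
noncomputable def rho : ℂ →+* ResidueField O := (residue O).comp (rho0 O h)

theorem rs_smul (a : ℂ) {x : K} {b : ResidueField O} (hx : (x, b) ∈ RS O) :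
    (a • x, rho O h a * b) ∈ RS O := by
  obtain ⟨o, rfl, rfl⟩ := (mem_RS O).1 hx
  exact (mem_RS O).2 ⟨rho0 O h a * o, (Algebra.smul_def _ _).symm, map_mul _ _ _⟩

theorem rs_of_nonunits {x : K} {a : ℂ} (hx : x - algebraMap ℂ K a ∈ O.nonunits) :
    (x, rho O h a) ∈ RS O := by
  obtain ⟨h1, h2⟩ := (O.mem_nonunits_iff_exists_mem_maximalIdeal).1 hx
  refine (mem_RS O).2 ⟨⟨_, h1⟩ + rho0 O h a, sub_add_cancel _ _, ?_⟩
  rw [map_add, (residue_eq_zero_iff _).2 h2, zero_add]
  rfl

theorem inCl_of {J : Type} [Fintype J] {β : J → Type} {k : ℕ} (φ : Fin k → K)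
    (c : ∀ i, β i → Fin k → K) (P : (∀ i, β i) → ℂ)
    (hP : ∀ x, (∑ j, φ j * ∏ i, c i (x i) j, rho O h (P x)) ∈ RS O) : InCl β k P := by
  intro f hf
  choose o h1 h2 using fun x => (mem_RS O).1 (hP x)
  have h3 : eval₂ (rho0 O h) o f = 0 := by
    apply O.subtype_injective
    rw [eval₂_comp_left, map_zero]
    have := par_sub φ c hf
    simp only [← h1] at this
    exact this
  apply (rho O h).injective
  rw [map_zero, ← map_zero (residue O), ← h3, eval₂_comp_left, ← eval₂_id, eval₂_comp_left]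
  congr 1
  exact funext fun x => (h2 x).symm

include h in
theorem exists_hyp {W Γ : Type} [AddCommGroup W] [Module ℂ W] [Nontrivial W] [Fintype Γ]
    (e : Γ → W) (he : span ℂ (Set.range e) = ⊤) (l : W →ₗ[ℂ] K) :
    ∃ H : Submodule ℂ W, H ≠ ⊤ ∧ ∀ ξ ∉ H, (∀ γ, l (e γ) / l ξ ∈ O) ∧ (l ξ = 0 → l = 0) := by
  by_cases h0 : (fun γ => l (e γ)) = 0
  · have : l = 0 := LinearMap.ext_on_range he fun γ => congrFun h0 γ
    exact ⟨⊥, bot_ne_top, fun ξ _ => ⟨fun γ => by simp [this], fun _ => this⟩⟩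
  obtain ⟨γ0, h1, h2⟩ := exists_div_mem O _ h0
  have h3 : 0 < O.valuation (l (e γ0)) := (Valuation.pos_iff _).2 h1
  let H : Submodule ℂ W :=
    { carrier := {x | O.valuation (l x) < O.valuation (l (e γ0))}
      add_mem' := fun hx hy => by
        rw [Set.mem_ofPred_eq, map_add]
        exact Valuation.map_add_lt _ hx hy
      zero_mem' := by simpa using h3
      smul_mem' := fun a x hx => by
        rw [Set.mem_ofPred_eq, map_smul, Algebra.smul_def, map_mul]
        exact lt_of_le_of_lt (mul_le_of_le_one_left' ((O.valuation_le_one_iff _).2 (h a))) hx }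
  refine ⟨H, fun h4 => ?_, fun ξ hξ => ?_⟩
  · exact lt_irrefl (O.valuation (l (e γ0))) (h4.ge (mem_top (x := e γ0)))
  · have h4 : O.valuation (l (e γ0)) ≤ O.valuation (l ξ) := not_lt.1 hξ
    refine ⟨fun γ => ?_, fun h5 => ?_⟩
    · have h5 := (O.valuation_le_one_iff _).2 (h2 γ)
      rw [map_div₀, div_le_one₀ h3] at h5
      rw [← O.valuation_le_one_iff, map_div₀]
      exact div_le_one_of_le₀ (h5.trans h4) zero_le
    · rw [h5, map_zero] at h4
      exact absurd h3 (not_lt.2 h4)

end val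

variable {ι : Type} [DecidableEq ι] {V : ι → Type} [∀ i, AddCommGroup (V i)]
  [∀ i, Module ℂ (V i)]

theorem Dep.reduce [∀ i, FiniteDimensional ℂ (V i)] {τ : MultilinearMap ℂ V ℂ} {k : ℕ}
    (h : Dep τ k) (i : ι) : ∃ (u : Fin k → V i) (p : V i →ₗ[ℂ] Fin k → ℂ),
      ∀ v x, τ (update v i (∑ a, p x a • u a)) = τ (update v i x) := by
  let L : V i →ₗ[ℂ] (∀ i, V i) → ℂ := LinearMap.pi fun v => τ.toLinearMap v i
  have h1 : finrank ℂ (LinearMap.range L) ≤ finrank ℂ (Fin k → ℂ) := by
    by_contra h1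
    obtain ⟨z, hz⟩ := exists_linearIndependent_of_le_finrank (R := ℂ) (M := LinearMap.range L)
      (n := k + 1) (by simpa using h1)
    choose x hx using fun l => (z l).2
    apply h {i} fun l => update 0 i (x l)
    refine (congrArg (fun z => LinearIndependent ℂ z) ?_).mp
      (hz.map' (LinearMap.range L).subtype (ker_subtype _))
    funext l q
    rw [Finset.piecewise_singleton, update_self]
    exact (congrFun (hx l) q).symm
  obtain ⟨f, hf⟩ := finrank_le_iff_exists_linearMap.1 h1
  obtain ⟨g, hg⟩ := f.exists_leftInverse_of_injective (LinearMap.ker_eq_bot.2 hf)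
  obtain ⟨s, hs⟩ := L.rangeRestrict.exists_rightInverse_of_surjective L.range_rangeRestrict
  refine ⟨fun a => s (g (Pi.single a 1)), f ∘ₗ L.rangeRestrict, fun v x => ?_⟩
  have h2 : ∑ a, (f ∘ₗ L.rangeRestrict) x a • s (g (Pi.single a 1)) = s (L.rangeRestrict x) := by
    simp only [← map_smul, ← map_sum]
    rw [← pi_eq_sum_univ']
    exact congrArg s (LinearMap.congr_fun hg _)
  rw [h2]
  exact congrFun (congrArg Subtype.val (LinearMap.congr_fun hs (L.rangeRestrict x))) v

/-- The contraction of `τ` to the factors in `I` is a limit of sums of `k` products. -/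
def Apx (τ : MultilinearMap ℂ V ℂ) (k : ℕ) (I : Finset ι) (ξ : ∀ i, V i) : Prop :=
  ∃ (K : Type) (_ : Field K) (_ : Algebra ℂ K) (O : ValuationSubring K)
    (h : ∀ a : ℂ, algebraMap ℂ K a ∈ O) (φ : Fin k → K) (c : ∀ i, V i →ₗ[ℂ] Fin k → K),
    ∀ v, (∑ j, φ j * ∏ i ∈ I, c i (v i) j, rho O h (τ (I.piecewise v ξ))) ∈ RS O

theorem Dep.apx [∀ i, FiniteDimensional ℂ (V i)] {τ : MultilinearMap ℂ V ℂ} {k : ℕ}
    (h : Dep τ k) (I : Finset ι) (ξ : ∀ i, V i)
    (hI : ∀ u : ∀ i, Fin k → V i, InCl (fun _ : I => Fin k) k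
      fun x => τ fun i => if h : i ∈ I then u i (x ⟨i, h⟩) else ξ i) : Apx τ k I ξ := by
  choose u p hp using h.reduce
  obtain ⟨O, hO, h1⟩ := exists_valuation (par (fun _ : I => Fin k) k) _ fun f hf => by
    refine hI u f (MvPolynomial.funext fun y => ?_)
    rw [map_zero, ← hf y]
    exact comp_aeval_apply _ (aeval y) _
  set K := FractionRing (MvPolynomial (Fin k × Option (Σ _ : I, Fin k)) ℂ)
  let Y : Fin k × Option (Σ _ : I, Fin k) → K := fun z => algebraMap _ K (X z : MvPolynomial _ ℂ)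
  refine ⟨K, inferInstance, inferInstance, O, hO, fun j => Y (j, none), fun i =>
    if hi : i ∈ I then Fintype.linearCombination ℂ (fun a j => Y (j, some ⟨⟨i, hi⟩, a⟩)) ∘ₗ p i
    else 0, fun v => ?_⟩
  have h2 : ∀ D : Finset ι, τ (D.piecewise (fun i => ∑ a, p i (v i) a • u i a)
      (I.piecewise v ξ)) = τ (D.piecewise v (I.piecewise v ξ)) := by
    intro D
    generalize I.piecewise v ξ = η
    induction D using Finset.induction_on generalizing η with
    | empty => simp
    | insert i D hi ih =>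
      rw [Finset.piecewise_insert, Finset.piecewise_insert, hp, ← pw_update hi, ← pw_update hi, ih]
  have h3 : τ (I.piecewise v ξ) = ∑ x : I → Fin k, (∏ i : I, p i (v i) (x i)) •
      τ fun i => if h : i ∈ I then u i (x ⟨i, h⟩) else ξ i := by
    have h4 := (τ.domDomRestrict (· ∈ I) fun i => ξ i).map_sum
      fun (i : I) a => p i (v i) a • u i a
    simp only [MultilinearMap.map_smul_univ, MultilinearMap.domDomRestrict_apply] at h4
    rw [← h4, ← Finset.piecewise_idem_right I v v ξ, ← h2]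
    congr 1
    funext i
    by_cases hi : i ∈ I <;> simp [hi]
  have h4 := sum_mem (t := Finset.univ) fun (x : I → Fin k) _ =>
    rs_smul O hO (∏ i : I, p i (v i) (x i)) (rs_of_nonunits O hO (h1 x))
  convert h4 using 1
  rw [Prod.ext_iff, Prod.fst_sum, Prod.snd_sum]
  refine ⟨?_, by simp [h3]⟩
  have h5 := par_expand (fun j => Y (j, none)) (fun (i : I) a j => Y (j, some ⟨i, a⟩))
    fun i => p i (v i)
  simp only [par, map_sum, map_mul, map_prod]
  refine Eq.trans (Finset.sum_congr rfl fun j _ => ?_) h5.symm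
  rw [← Finset.prod_coe_sort I]
  simp [Fintype.linearCombination_apply]

end Pool.Agent.Lib.MP_595dc0_ag.Ef
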