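import Mathlib

set_option autoImplicit false

namespace Pool.Agent.Lib.MP_595dc0_ag.Ef

open MvPolynomial

theorem deg_aeval {σ τ : Type*} (s : σ → MvPolynomial τ ℂ) (e : ℕ)
    (hs : ∀ z, (s z).totalDegree ≤ e) (f : MvPolynomial σ ℂ) :
    (aeval s f).totalDegree ≤ f.totalDegree * e := by
  classical
  rw [aeval_def, eval₂_eq]
  refine totalDegree_finsetSum_le fun d hd => ?_
  refine (totalDegree_mul _ _).trans ?_
  have h1 : (algebraMap ℂ (MvPolynomial τ ℂ) (coeff d f)).totalDegree = 0 := totalDegree_C _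
  rw [h1, zero_add]
  refine (totalDegree_finsetProd _ _).trans ?_
  refine le_trans ?_ (Nat.mul_le_mul_right e (le_totalDegree hd))
  rw [Finsupp.sum, Finset.sum_mul]
  refine Finset.sum_le_sum fun i _ => (totalDegree_pow _ _).trans ?_
  exact Nat.mul_le_mul_left _ (hs i)

theorem aeval_comp_eq_zero {σ τ : Type*} (x : σ → MvPolynomial τ ℂ) {e : ℕ} (he : 1 ≤ e)
    (hx : ∀ s, (x s).IsHomogeneous e) {f : MvPolynomial σ ℂ} (hf : aeval x f = 0) (n : ℕ) :
    aeval x (homogeneousComponent n f) = 0 := by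
  by_cases hn : f.totalDegree < n
  · rw [homogeneousComponent_eq_zero n f hn, map_zero]
  have h1 : ∀ i, (aeval x (homogeneousComponent i f)).IsHomogeneous (e * i) := fun i =>
    (homogeneousComponent_isHomogeneous i f).aeval x hx
  have h2 := congrArg (homogeneousComponent (e * n)) hf
  rw [← sum_homogeneousComponent f, map_sum, map_sum, map_zero,
    Finset.sum_eq_single n] at h2
  · rwa [homogeneousComponent_eq_self (h1 n)] at h2
  · intro i _ hi
    rw [homogeneousComponent_of_mem (h1 i), if_neg]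
    intro h
    exact hi (Nat.eq_of_mul_eq_mul_left he h).symm
  · intro h
    exact absurd (Finset.mem_range.2 (by omega)) h

theorem top_coeff {σ S : Type*} [CommRing S] [Algebra ℂ S] (z : σ → S) (c : σ → ℂ) {d : ℕ}
    {g : MvPolynomial σ ℂ} (hg : g.IsHomogeneous d) :
    (aeval (fun s => Polynomial.C (z s) + Polynomial.C (algebraMap ℂ S (c s)) * Polynomial.X)
      g).natDegree ≤ d ∧
    (aeval (fun s => Polynomial.C (z s) + Polynomial.C (algebraMap ℂ S (c s)) * Polynomial.X)
      g).coeff d = algebraMap ℂ S (eval c g) := by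
  set L : σ → Polynomial S :=
    fun s => Polynomial.C (z s) + Polynomial.C (algebraMap ℂ S (c s)) * Polynomial.X with hL
  have h1 : ∀ m ∈ homogeneousSubmodule σ ℂ 1, (aeval L m).natDegree ≤ 1 ∧
      (aeval L m).coeff 1 = algebraMap ℂ S (eval c m) := by
    intro m hm
    rw [homogeneousSubmodule_one_eq_span_X] at hm
    induction hm using Submodule.span_induction with
    | mem x hx =>
      obtain ⟨s, rfl⟩ := hx
      simp only [aeval_X, eval_X, hL]
      refine ⟨by compute_degree, by simp⟩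
    | zero => simp
    | add x y _ _ hx hy =>
      rw [map_add, Polynomial.coeff_add, hx.2, hy.2, map_add, map_add]
      exact ⟨(Polynomial.natDegree_add_le _ _).trans (max_le hx.1 hy.1), rfl⟩
    | smul a x _ hx =>
      rw [map_smul]
      refine ⟨(Polynomial.natDegree_smul_le _ _).trans hx.1, ?_⟩
      rw [Polynomial.coeff_smul, hx.2, smul_eval, map_mul, Algebra.smul_def]
  have hg' : g ∈ homogeneousSubmodule σ ℂ 1 ^ d := by
    rw [homogeneousSubmodule_one_pow]
    exact hg
  clear hg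
  induction hg' using Submodule.pow_induction_on_left' with
  | algebraMap r => simp
  | add x y i _ _ hx hy =>
    rw [map_add, Polynomial.coeff_add, hx.2, hy.2, map_add, map_add]
    exact ⟨(Polynomial.natDegree_add_le _ _).trans (max_le hx.1 hy.1), rfl⟩
  | mem_mul m hm i x _ hx =>
    rw [map_mul, map_mul, map_mul, Nat.succ_eq_add_one, add_comm i 1,
      Polynomial.coeff_mul_add_eq_of_natDegree_le (h1 m hm).1 hx.1, (h1 m hm).2, hx.2]
    exact ⟨Polynomial.natDegree_mul_le.trans (add_le_add (h1 m hm).1 hx.1), rfl⟩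

theorem integral_step {σ A : Type*} [CommRing A] [Algebra ℂ A] (x : σ → A) (c : σ → ℂ) (t : A)
    (S : Subalgebra ℂ A) (hS : ∀ s, x s - c s • t ∈ S) {d : ℕ} {g : MvPolynomial σ ℂ}
    (hg : g.IsHomogeneous d) (h0 : aeval x g = 0) (hc : eval c g ≠ 0) : IsIntegral S t := by
  obtain ⟨h1, h2⟩ := top_coeff (fun s => (⟨_, hS s⟩ : S)) c hg
  set q := aeval (fun s => Polynomial.C (⟨_, hS s⟩ : S) +
    Polynomial.C (algebraMap ℂ S (c s)) * Polynomial.X) g with hq
  have h3 : Polynomial.aeval t q = 0 := by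
    have : ((Polynomial.aeval t).restrictScalars ℂ).comp (aeval (fun s =>
        Polynomial.C (⟨_, hS s⟩ : S) + Polynomial.C (algebraMap ℂ S (c s)) * Polynomial.X)) =
        aeval x := by
      ext s
      simp [Algebra.smul_def]
    rw [← h0, ← this]
    rfl
  refine ⟨Polynomial.C (algebraMap ℂ S (eval c g)⁻¹) * q, ?_, ?_⟩
  · refine Polynomial.monic_of_natDegree_le_of_coeff_eq_one d
      ((Polynomial.natDegree_C_mul_le _ _).trans h1) ?_
    rw [Polynomial.coeff_C_mul, h2, ← map_mul, inv_mul_cancel₀ hc, map_one]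
  · rw [← Polynomial.aeval_def, map_mul, h3, mul_zero]

theorem integral_step' {σ A : Type*} [CommRing A] [Algebra ℂ A] (x : σ → A) (c : σ → ℂ) (t : A)
    (R : Subalgebra ℂ A) (hS : ∀ s, IsIntegral R (x s - c s • t)) {d : ℕ} {g : MvPolynomial σ ℂ}
    (hg : g.IsHomogeneous d) (h0 : aeval x g = 0) (hc : eval c g ≠ 0) :
    IsIntegral R t ∧ ∀ s, IsIntegral R (x s) := by
  have h1 : IsIntegral (integralClosure R A) t :=
    integral_step x c t ((integralClosure R A).restrictScalars ℂ) hS hg h0 hc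
  have h2 : IsIntegral R t := isIntegral_trans _ h1
  refine ⟨h2, fun s => ?_⟩
  simpa using (hS s).add (h2.smul (algebraMap ℂ R (c s)))

theorem eval_smul_hom {σ : Type*} {g : MvPolynomial σ ℂ} {d : ℕ} (hg : g.IsHomogeneous d)
    (a : ℂ) (c : σ → ℂ) : eval (a • c) g = a ^ d * eval c g := by
  rw [eval_eq, eval_eq, Finset.mul_sum]
  refine Finset.sum_congr rfl fun m hm => ?_
  rw [hg.degree_eq_sum_deg_support hm]
  simp only [Pi.smul_apply, smul_eq_mul, mul_pow, Finset.prod_mul_distrib,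
    Finset.prod_pow_eq_pow_sum]
  ring

theorem exists_coord {σ A : Type*} [CommRing A] [Nontrivial A] [Algebra ℂ A] (x : σ → A)
    {g : MvPolynomial σ ℂ} {d : ℕ} (hg : g.IsHomogeneous d) (h0 : aeval x g = 0) {c : σ → ℂ}
    (hc : eval c g ≠ 0) : ∃ s, c s ≠ 0 := by
  by_contra h
  push Not at h
  have h1 : c = (0 : ℂ) • c := by
    funext s
    simp [h s]
  rw [h1, eval_smul_hom hg] at hc
  have h2 : d = 0 := by
    by_contra hd
    simp [hd] at hc
  subst h2
  rw [← totalDegree_zero_iff_isHomogeneous, totalDegree_eq_zero_iff_eq_C] at hg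
  rw [hg] at h0 hc
  rw [aeval_C, map_eq_zero] at h0
  simp [h0] at hc

theorem noether {ι : Type*} {e : ℕ} (he : 1 ≤ e) (n : ℕ) :
    ∀ x : Finset (MvPolynomial ι ℂ), x.card ≤ n → (∀ a ∈ x, a.IsHomogeneous e) →
      ∃ y : Finset (MvPolynomial ι ℂ), (∀ a ∈ y, a ∈ Submodule.span ℂ (x : Set _)) ∧
        AlgebraicIndepOn ℂ id (y : Set (MvPolynomial ι ℂ)) ∧
        ∀ a ∈ x, IsIntegral (Algebra.adjoin ℂ (y : Set (MvPolynomial ι ℂ))) a := by
  classical
  induction n with
  | zero =>
    intro x hx _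
    obtain rfl := Finset.card_eq_zero.1 (Nat.le_zero.1 hx)
    refine ⟨∅, by simp, ?_, by simp⟩
    simpa using C_injective ι ℂ
  | succ n ih =>
    intro x hx hh
    by_cases hi : AlgebraicIndepOn ℂ id (x : Set (MvPolynomial ι ℂ))
    · refine ⟨x, fun a ha => Submodule.subset_span ha, hi, fun a ha => ?_⟩
      have h1 : a ∈ Algebra.adjoin ℂ (x : Set (MvPolynomial ι ℂ)) := Algebra.subset_adjoin ha
      exact isIntegral_algebraMap (R := Algebra.adjoin ℂ (x : Set (MvPolynomial ι ℂ)))
        (x := ⟨a, h1⟩)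
    rw [AlgebraicIndepOn, algebraicIndependent_iff] at hi
    push Not at hi
    obtain ⟨f, hf, hf0⟩ := hi
    replace hf : aeval (fun s : (x : Set (MvPolynomial ι ℂ)) => s.1) f = 0 := hf
    obtain ⟨d, hd⟩ : ∃ d, homogeneousComponent d f ≠ 0 := by
      by_contra h
      push Not at h
      apply hf0
      rw [← sum_homogeneousComponent f]
      simp [h]
    have hg := homogeneousComponent_isHomogeneous d f
    have hh' : ∀ s : (x : Set (MvPolynomial ι ℂ)), s.1.IsHomogeneous e :=
      fun s => hh s.1 (Finset.mem_coe.1 s.2)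
    have h0 := aeval_comp_eq_zero _ he hh' hf d
    obtain ⟨c, hc⟩ : ∃ c, eval c (homogeneousComponent d f) ≠ 0 := by
      by_contra h
      push Not at h
      exact hd (hg.eq_zero_of_forall_eval_eq_zero h)
    obtain ⟨s0, hs0⟩ := exists_coord _ hg h0 hc
    let c' := (c s0)⁻¹ • c
    have hc' : eval c' (homogeneousComponent d f) ≠ 0 := by
      rw [eval_smul_hom hg]
      exact mul_ne_zero (pow_ne_zero _ (inv_ne_zero hs0)) hc
    have hs0' : c' s0 = 1 := by simp [c', hs0]
    let x' : Finset (MvPolynomial ι ℂ) :=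
      (Finset.univ.erase s0).image fun s => s.1 - c' s • s0.1
    obtain ⟨y, h1, h2, h3⟩ := ih x' (by
      refine Finset.card_image_le.trans ?_
      rw [Finset.card_erase_of_mem (Finset.mem_univ _)]
      simp only [Finset.card_univ, Finset.coe_sort_coe, Fintype.card_coe]
      omega) (by
      intro a ha
      obtain ⟨s, -, rfl⟩ := Finset.mem_image.1 ha
      exact (homogeneousSubmodule ι ℂ e).sub_mem (hh' s)
        ((homogeneousSubmodule ι ℂ e).smul_mem _ (hh' s0)))
    have h4 : ∀ s : (x : Set (MvPolynomial ι ℂ)),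
        IsIntegral (Algebra.adjoin ℂ (y : Set (MvPolynomial ι ℂ))) (s.1 - c' s • s0.1) := by
      intro s
      by_cases hs : s = s0
      · rw [hs, hs0', one_smul, sub_self]
        exact isIntegral_zero
      · exact h3 _ (Finset.mem_image.2 ⟨s, by simp [hs], rfl⟩)
    have h5 := (integral_step' _ c' s0.1 _ h4 hg h0 hc').2
    refine ⟨y, fun a ha => ?_, h2, fun a ha => h5 ⟨a, ha⟩⟩
    · refine Submodule.span_le.2 ?_ (h1 a ha)
      intro b hb
      obtain ⟨s, -, rfl⟩ := Finset.mem_image.1 hb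
      exact Submodule.sub_mem _ (Submodule.subset_span s.2)
        (Submodule.smul_mem _ _ (Submodule.subset_span s0.2))

theorem count {J ι : Type*} [Fintype J] [Fintype ι] {m e : ℕ} (he : 1 ≤ e)
    (hJ : Fintype.card J = m + 1) (hι : Fintype.card ι = m) (u : J → MvPolynomial ι ℂ)
    (hu : ∀ j, (u j).totalDegree ≤ e) :
    ∃ Q : MvPolynomial J ℂ, Q ≠ 0 ∧ Q.totalDegree ≤ (m + 1) * (e * (m + 1)) ^ m ∧
      aeval u Q = 0 := by
  classical
  set a := (e * (m + 1)) ^ m with ha
  set b := (m + 1) * a * e with hb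
  let mon : (J → Fin (a + 1)) → (J →₀ ℕ) := fun α => Finsupp.equivFunOnFinite.symm fun j => α j
  let mon' : (ι → Fin (b + 1)) → (ι →₀ ℕ) := fun α => Finsupp.equivFunOnFinite.symm fun j => α j
  let Q : ((J → Fin (a + 1)) → ℂ) →ₗ[ℂ] MvPolynomial J ℂ :=
    ∑ α, (monomial (mon α)).comp (LinearMap.proj α)
  have hQ : ∀ c, Q c = ∑ α, monomial (mon α) (c α) := by
    intro c
    simp [Q]
  let Ψ : ((J → Fin (a + 1)) → ℂ) →ₗ[ℂ] ((ι → Fin (b + 1)) → ℂ) :=
    LinearMap.pi fun β => (lcoeff ℂ (mon' β)).comp ((aeval u).toLinearMap.comp Q)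
  have hlt : Module.finrank ℂ ((ι → Fin (b + 1)) → ℂ) <
      Module.finrank ℂ ((J → Fin (a + 1)) → ℂ) := by
    simp only [Module.finrank_fintype_fun_eq_card, Fintype.card_fun, Fintype.card_fin, hJ, hι]
    have h1 : b + 1 ≤ e * (m + 1) * (a + 1) := by
      rw [hb]
      nlinarith
    calc (b + 1) ^ m ≤ (e * (m + 1) * (a + 1)) ^ m := Nat.pow_le_pow_left h1 m
      _ = a * (a + 1) ^ m := by rw [mul_pow]
      _ < (a + 1) ^ (m + 1) := by
        rw [pow_succ']
        exact Nat.mul_lt_mul_of_pos_right (Nat.lt_succ_self a) (by positivity)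
  obtain ⟨c, hc, hc0⟩ := Submodule.exists_mem_ne_zero_of_ne_bot
    (LinearMap.ker_ne_bot_of_finrank_lt (f := Ψ) hlt)
  have hdeg : (Q c).totalDegree ≤ (m + 1) * a := by
    rw [hQ]
    refine totalDegree_finsetSum_le fun α _ => (totalDegree_monomial_le _ _).trans ?_
    rw [Finsupp.sum_fintype _ _ (by simp), ← hJ]
    calc ∑ j, id (mon α j) ≤ ∑ _j : J, a :=
          Finset.sum_le_sum fun j _ => Nat.lt_succ_iff.1 (α j).2
      _ = _ := by simp
  refine ⟨Q c, fun h => hc0 ?_, hdeg, ?_⟩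
  · funext α
    have h1 := congrArg (coeff (mon α)) h
    rw [hQ, coeff_sum, Finset.sum_eq_single α] at h1
    · simpa using h1
    · intro β _ hβ
      rw [coeff_monomial, if_neg]
      intro h2
      apply hβ
      funext j
      exact Fin.ext (DFunLike.congr_fun h2 j)
    · simp
  · ext d
    by_cases hd : ∀ i, d i < b + 1
    · have h1 := congrFun (LinearMap.mem_ker.1 hc) fun i => ⟨d i, hd i⟩
      have h2 : mon' (fun i => ⟨d i, hd i⟩) = d := by
        ext i
        rfl
      simpa [Ψ, h2] using h1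
    · push Not at hd
      obtain ⟨i, hi⟩ := hd
      refine coeff_eq_zero_of_totalDegree_lt (lt_of_le_of_lt ((deg_aeval u e hu _).trans
        (Nat.mul_le_mul_right e hdeg)) (lt_of_lt_of_le hi ?_))
      exact Finset.single_le_sum (f := fun i => d i) (fun _ _ => Nat.zero_le _)
        (Finsupp.mem_support_iff.2 (by omega))

theorem aeval_symm {σ B : Type*} [CommRing B] [Algebra ℂ B] (a : B) (g : σ → B)
    (p : Polynomial (MvPolynomial σ ℂ)) :
    aeval (fun o : Option σ => o.elim a g) ((optionEquivLeft ℂ σ).symm p) =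
      p.eval₂ (aeval g : MvPolynomial σ ℂ →ₐ[ℂ] B).toRingHom a := by
  obtain ⟨q, rfl⟩ := (optionEquivLeft ℂ σ).surjective p
  rw [AlgEquiv.symm_apply_apply]
  induction q using MvPolynomial.induction_on with
  | C r => simp
  | add p q hp hq => rw [map_add, map_add, Polynomial.eval₂_add, hp, hq]
  | mul_X p o hp =>
    rw [map_mul, map_mul, Polynomial.eval₂_mul, hp]
    cases o <;> simp

theorem low_rel {ι J I : Type*} [Fintype ι] [Fintype J] [Fintype I] {m e : ℕ} (he : 1 ≤ e)
    (hι : Fintype.card ι = m) (hc : Fintype.card (J ⊕ I) = m) (u : J ⊕ I → MvPolynomial ι ℂ)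
    (hu : ∀ j, (u j).totalDegree ≤ e) (hi : AlgebraicIndependent ℂ u) (t : MvPolynomial ι ℂ)
    (ht : t.totalDegree ≤ e) (p : Polynomial (MvPolynomial J ℂ)) (hp : p.Monic)
    (hpt : p.eval₂ (aeval (fun j => u (Sum.inl j))).toRingHom t = 0) :
    ∃ q : Polynomial (MvPolynomial (J ⊕ I) ℂ), q.Monic ∧
      ((optionEquivLeft ℂ (J ⊕ I)).symm q).totalDegree ≤ (m + 1) * (e * (m + 1)) ^ m ∧
      q.eval₂ (aeval (Sum.elim (fun j => u (Sum.inl j)) 0)).toRingHom t = 0 := by
  classical
  obtain ⟨Q, hQ0, hQd, hQ⟩ := count (J := Option (J ⊕ I)) he (by rw [Fintype.card_option, hc]) hι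
    (fun o => o.elim t u) (by rintro (_ | j) <;> simp [ht, hu])
  induction hn : p.natDegree using Nat.strong_induction_on generalizing p with
  | _ n ih =>
  let : Algebra (MvPolynomial (J ⊕ I) ℂ) (MvPolynomial ι ℂ) := (aeval u).toRingHom.toAlgebra
  have hinj : Function.Injective (algebraMap (MvPolynomial (J ⊕ I) ℂ) (MvPolynomial ι ℂ)) := hi
  have : Module.IsTorsionFree (MvPolynomial (J ⊕ I) ℂ) (MvPolynomial ι ℂ) :=
    Module.isTorsionFree_iff_algebraMap_injective.2 hinj
  let ρ : MvPolynomial J ℂ →ₐ[ℂ] MvPolynomial (J ⊕ I) ℂ := rename Sum.inl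
  let ε : MvPolynomial (J ⊕ I) ℂ →ₐ[ℂ] MvPolynomial J ℂ := aeval (Sum.elim X 0)
  have h1 : Polynomial.aeval t (p.map ρ.toRingHom) = 0 := by
    rw [Polynomial.aeval_def, Polynomial.eval₂_map, ← hpt]
    congr 1
    ext j <;> simp [ρ, RingHom.algebraMap_toAlgebra]
  have hint : IsIntegral (MvPolynomial (J ⊕ I) ℂ) t := ⟨_, hp.map _, h1⟩
  have hm := minpoly.monic hint
  obtain ⟨q, hq⟩ := minpoly.isIntegrallyClosed_dvd hint h1
  have hqm : q.Monic := hm.of_mul_monic_left (hq ▸ hp.map _)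
  have h2 : p = (minpoly (MvPolynomial (J ⊕ I) ℂ) t).map ε.toRingHom * q.map ε.toRingHom := by
    rw [← Polynomial.map_mul, ← hq, Polynomial.map_map]
    have : ε.toRingHom.comp ρ.toRingHom = RingHom.id _ := by
      ext j <;> simp [ρ, ε]
    rw [this, Polynomial.map_id]
  have h3 := hpt
  rw [h2, Polynomial.eval₂_mul, mul_eq_zero] at h3
  rcases h3 with h3 | h3
  · refine ⟨_, hm, le_trans (totalDegree_le_of_dvd_of_isDomain ?_ hQ0) hQd, ?_⟩
    · have h4 : Polynomial.aeval t (optionEquivLeft ℂ (J ⊕ I) Q) = 0 := by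
        have := aeval_symm t u (optionEquivLeft ℂ (J ⊕ I) Q)
        rw [AlgEquiv.symm_apply_apply, hQ] at this
        exact this.symm
      have := map_dvd (optionEquivLeft ℂ (J ⊕ I)).symm (minpoly.isIntegrallyClosed_dvd hint h4)
      rwa [AlgEquiv.symm_apply_apply] at this
    · rw [Polynomial.eval₂_map] at h3
      rw [← h3]
      congr 1
      ext j
      · simp [ε]
      · rcases j with j | j <;> simp [ε]
  · refine ih _ ?_ _ (hqm.map _) h3 rfl
    have h4 := congrArg Polynomial.natDegree h2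
    rw [(hm.map _).natDegree_mul (hqm.map _), hm.natDegree_map] at h4
    have := minpoly.natDegree_pos hint
    omega

theorem lift_integral {A : Type*} [CommRing A] [Nontrivial A] [Algebra ℂ A] (y : Set A) (t : A)
    (h : IsIntegral (Algebra.adjoin ℂ y) t) : ∃ p : Polynomial (MvPolynomial y ℂ), p.Monic ∧
      p.eval₂ (aeval (fun j : y => j.1) : MvPolynomial y ℂ →ₐ[ℂ] A).toRingHom t = 0 := by
  obtain ⟨p, hp, hpt⟩ := h
  let ψ : MvPolynomial y ℂ →+* Algebra.adjoin ℂ y :=
    (aeval (fun j : y => j.1) : MvPolynomial y ℂ →ₐ[ℂ] A).toRingHom.codRestrict _ fun x => by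
      rw [Algebra.adjoin_eq_range]
      exact ⟨x, rfl⟩
  have hψ : Function.Surjective ψ := by
    rintro ⟨a, ha⟩
    have ha' := ha
    rw [Algebra.adjoin_eq_range] at ha'
    obtain ⟨x, rfl⟩ := ha'
    exact ⟨x, rfl⟩
  obtain ⟨q, hq, -, hqm⟩ := Polynomial.lifts_and_degree_eq_and_monic
    (Polynomial.mem_lifts_of_surjective hψ p) hp
  refine ⟨q, hqm, ?_⟩
  rw [← hpt, ← hq, Polynomial.eval₂_map]
  rfl

theorem low_degree {σ ι : Type*} [Fintype σ] [Fintype ι] {m e : ℕ} (he : 1 ≤ e)
    (hι : Fintype.card ι = m) (φ : σ → MvPolynomial ι ℂ) (hφ : ∀ s, (φ s).IsHomogeneous e)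
    (P : σ → ℂ) (hP : ∀ f : MvPolynomial σ ℂ, aeval φ f = 0 →
      f.totalDegree ≤ (m + 1) * (e * (m + 1)) ^ m → ∀ a : ℂ, eval (a • P) f = 0)
    (f : MvPolynomial σ ℂ) (hf : aeval φ f = 0) : eval P f = 0 := by
  classical
  by_contra hne
  obtain ⟨d, hd⟩ : ∃ d, eval P (homogeneousComponent d f) ≠ 0 := by
    by_contra h
    push Not at h
    apply hne
    rw [← sum_homogeneousComponent f, map_sum]
    simp [h]
  have hg := homogeneousComponent_isHomogeneous d f
  have h0 := aeval_comp_eq_zero _ he hφ hf d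
  obtain ⟨s0, hs0⟩ := exists_coord _ hg h0 hd
  let c := (P s0)⁻¹ • P
  have hc : eval c (homogeneousComponent d f) ≠ 0 := by
    rw [eval_smul_hom hg]
    exact mul_ne_zero (pow_ne_zero _ (inv_ne_zero hs0)) hd
  obtain ⟨y, h1, h2, h3⟩ := noether he _ (Finset.univ.image fun s => φ s - c s • φ s0) le_rfl (by
    intro a ha
    obtain ⟨s, -, rfl⟩ := Finset.mem_image.1 ha
    exact (homogeneousSubmodule ι ℂ e).sub_mem (hφ s)
      ((homogeneousSubmodule ι ℂ e).smul_mem _ (hφ s0)))
  have h4 := (integral_step' φ c (φ s0) _ (fun s => h3 _ (Finset.mem_image.2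
    ⟨s, Finset.mem_univ _, rfl⟩)) hg h0 hc).1
  have h5 : ∀ a ∈ y, ∃ l : MvPolynomial σ ℂ, l.IsHomogeneous 1 ∧ eval P l = 0 ∧
      aeval φ l = a := by
    intro a ha
    have := h1 a ha
    clear ha
    induction this using Submodule.span_induction with
    | mem x hx =>
      obtain ⟨s, -, rfl⟩ := Finset.mem_image.1 hx
      refine ⟨X s - C (c s) * X s0, (isHomogeneous_X ℂ s).sub (isHomogeneous_C_mul_X _ _), ?_, ?_⟩
      · simp only [map_sub, map_mul, eval_X, eval_C, c, Pi.smul_apply, smul_eq_mul]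
        field_simp
        ring
      · simp [Algebra.smul_def]
    | zero => exact ⟨0, isHomogeneous_zero _ _ _, by simp, by simp⟩
    | add x y _ _ hx hy =>
      obtain ⟨l, a1, a2, a3⟩ := hx
      obtain ⟨l', b1, b2, b3⟩ := hy
      exact ⟨l + l', a1.add b1, by simp [a2, b2], by rw [map_add, a3, b3]⟩
    | smul a x _ hx =>
      obtain ⟨l, a1, a2, a3⟩ := hx
      exact ⟨C a * l, a1.C_mul a, by simp [a2], by rw [map_mul, a3, aeval_C, Algebra.smul_def]⟩
  choose! l hl1 hl2 hl3 using h5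
  have : Algebra.IsAlgebraic
      (Algebra.adjoin ℂ ((y : Set (MvPolynomial ι ℂ)) ∪ Set.range X)) (MvPolynomial ι ℂ) := by
    refine ⟨fun a => ?_⟩
    have h6 : a ∈ Algebra.adjoin ℂ ((y : Set (MvPolynomial ι ℂ)) ∪ Set.range X) :=
      Algebra.adjoin_mono Set.subset_union_right (by rw [adjoin_range_X]; trivial)
    exact isAlgebraic_algebraMap
      (R := Algebra.adjoin ℂ ((y : Set (MvPolynomial ι ℂ)) ∪ Set.range X)) ⟨a, h6⟩
  obtain ⟨U, hU1, hU2, hU⟩ := exists_isTranscendenceBasis_between _ _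
    (Set.subset_union_left (t := Set.range X)) h2
  have hfin : U.Finite := (y.finite_toSet.union (Set.finite_range _)).subset hU2
  have : Fintype U := hfin.fintype
  let E := Equiv.Set.sumDiffSubset hU1
  have hcard : Fintype.card U = m := by
    have := hU.cardinalMk_eq_trdeg
    rw [MvPolynomial.trdeg_of_isDomain] at this
    simpa [hι] using this
  obtain ⟨p, hp, hpt⟩ := lift_integral _ _ h4
  obtain ⟨q, hqm, hqd, hqt⟩ := low_rel he hι (by rw [Fintype.card_congr E, hcard])
    (fun j => (E j).1) (by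
      intro j
      rcases hU2 (E j).2 with h | ⟨i, h⟩
      · rw [← hl3 _ h]
        simpa using ((hl1 _ h).aeval φ hφ).totalDegree_le
      · rw [← h, totalDegree_X]
        exact he) (hU.1.comp E E.injective) (φ s0) (hφ s0).totalDegree_le p hp hpt
  let L : (y : Set (MvPolynomial ι ℂ)) ⊕ (U \ y : Set (MvPolynomial ι ℂ)) → MvPolynomial σ ℂ :=
    Sum.elim (fun j => l j.1) 0
  have h7 := hP (aeval (fun o : Option _ => o.elim (X s0) L) ((optionEquivLeft ℂ _).symm q))
    (by
      rw [← AlgHom.comp_apply, comp_aeval, ← hqt, ← aeval_symm]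
      congr 2
      funext o
      rcases o with _ | j | j
      · simp
      · exact hl3 _ j.2
      · simp [L])
    (by
      refine le_trans (deg_aeval _ 1 ?_ _) (by simpa using hqd)
      rintro (_ | j | j)
      · simp
      · exact (hl1 _ j.2).totalDegree_le
      · simp [L])
  have h8 : ∀ a : ℂ, (q.map (aeval (fun _ => (0 : ℂ))).toRingHom).eval a = 0 := by
    intro a
    have := h7 (a / P s0)
    rw [← coe_aeval_eq_eval, RingHom.coe_coe, ← AlgHom.comp_apply, comp_aeval] at this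
    rw [Polynomial.eval_map, ← aeval_symm]
    refine Eq.trans ?_ this
    congr 2
    funext o
    rcases o with _ | j | j
    · simp [hs0]
    · simp [L, eval_smul_hom (hl1 _ j.2), hl2 _ j.2]
    · simp [L]
  exact (hqm.map _).ne_zero (Polynomial.funext (by simpa using h8))

end Pool.Agent.Lib.MP_595dc0_ag.Ef
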