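import Mathlib
import Pool.Agent.Lib.MP_595dc0_ag.Val

set_option autoImplicit false

namespace Pool.Agent.Lib.MP_595dc0_ag.Ef

open Module Submodule Function

variable {K : Type} [Field K] (O : ValuationSubring K) {k : ℕ}

theorem gen_le {P : Type} (s : Finset P) (C : Finset (Fin k)) : ∀ z : P → Fin k → K,
    (∀ p ∈ s, ∀ j ∉ C, z p j = 0) →
    ∃ s' ⊆ s, s'.card ≤ C.card ∧ ∀ p ∈ s, z p ∈ span O (z '' s') := by
  classical
  induction C using Finset.induction_on with
  | empty =>
    intro z hz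
    refine ⟨∅, by simp, le_rfl, fun p hp => ?_⟩
    rw [show z p = 0 from funext fun j => hz p hp j (by simp)]
    exact zero_mem _
  | insert j C hj ih =>
    intro z hz
    rw [Finset.card_insert_of_notMem hj]
    by_cases h : (fun p : s => z p j) = 0
    · obtain ⟨s', h1, h2, h3⟩ := ih z fun p hp i hi => by
        by_cases hij : i = j
        · subst hij
          exact congrFun h ⟨p, hp⟩
        · exact hz p hp i (by simp [hi, hij])
      exact ⟨s', h1, by omega, h3⟩
    obtain ⟨p0, h0, h1⟩ := exists_div_mem O _ h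
    obtain ⟨s', h2, h3, h4⟩ := ih (fun p => z p - (z p j / z p0 j) • z p0) fun p hp i hi => by
      by_cases hij : i = j
      · subst hij
        simp [h0]
      · simp [hz p hp i (by simp [hi, hij]), hz p0 p0.2 i (by simp [hi, hij])]
    have h5 : ∀ p ∈ s, (z p j / z p0 j) • z p0 ∈ span O (z '' (insert p0.1 s' : Finset P)) :=
      fun p hp => smul_mem _ (⟨_, h1 ⟨p, hp⟩⟩ : O) (subset_span ⟨p0, by simp, rfl⟩)
    refine ⟨insert p0.1 s', Finset.insert_subset p0.2 h2,
      (Finset.card_insert_le _ _).trans (by omega), fun p hp => ?_⟩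
    have h6 : span O ((fun p => z p - (z p j / z p0 j) • z p0) '' s') ≤
        span O (z '' (insert p0.1 s' : Finset P)) := span_le.2 (by
      rintro _ ⟨q, hq, rfl⟩
      exact sub_mem (subset_span ⟨q, by simp [Finset.mem_coe.1 hq], rfl⟩) (h5 q (h2 hq)))
    simpa using add_mem (h6 (h4 p hp)) (h5 p hp)

theorem stabilise (Z : Set (Fin k → K)) (hZ : Z.Finite) (hO : ∀ z ∈ Z, ∀ j, z j ∈ O) :
    ∃ R : Submodule O (Fin k → K), 1 ∈ R ∧ span O (insert 1 Z) * R ≤ R ∧
      R ≤ span O (insert 1 Z) ^ k := by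
  classical
  set L := span O (insert 1 Z) with hL
  let R := (Algebra.adjoin O Z).toSubmodule
  have hfg : R.FG := fg_adjoin_of_finite hZ fun z hz => by
    refine ⟨∏ j, (Polynomial.X - Polynomial.C ⟨z j, hO z hz j⟩),
      Polynomial.monic_prod_of_monic _ _ fun j _ => Polynomial.monic_X_sub_C _, ?_⟩
    funext j
    rw [Polynomial.eval₂_finsetProd, Finset.prod_apply]
    exact Finset.prod_eq_zero (Finset.mem_univ j) (by simp)
  have hLR : L ≤ R := span_le.2 (Set.insert_subset (one_mem (Algebra.adjoin O Z))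
    Algebra.subset_adjoin)
  have hRR : L * R ≤ R := Submodule.mul_le.2 fun a ha b hb =>
    mul_mem (s := Algebra.adjoin O Z) (hLR ha) hb
  have hpow : ∀ t, L ^ t ≤ R := by
    intro t
    induction t with
    | zero =>
      rw [pow_zero, Submodule.one_le]
      exact one_mem (Algebra.adjoin O Z)
    | succ t ih =>
      rw [pow_succ']
      exact (mul_le_mul_right ih L).trans hRR
  have hmono : Monotone fun t => L ^ t := monotone_nat_of_le_succ fun t => by
    rw [pow_succ']
    intro a ha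
    simpa using mul_mem_mul (subset_span (Set.mem_insert 1 Z)) ha
  obtain ⟨G, hG⟩ := hfg
  obtain ⟨s, hsub, hs, hsG⟩ := gen_le O G Finset.univ id (by simp)
  have hsR : ∀ y ∈ R, ∃ a : s → O, ∑ g, a g • g.1 = y := by
    intro y hy
    have h1 : R ≤ span O (Set.range fun g : s => g.1) := by
      rw [← hG, span_le]
      intro g hg
      simpa using hsG g hg
    exact (mem_span_range_iff_exists_fun O).1 (h1 hy)
  have hsm : ∀ g : s, g.1 ∈ R := fun g => hG ▸ subset_span (hsub g.2)
  let T : Submodule O (Fin k → K) →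
      Submodule (IsLocalRing.ResidueField O) (s → IsLocalRing.ResidueField O) := fun N =>
    { carrier := {b | ∃ a : s → O, ∑ g, a g • g.1 ∈ N ∧ ∀ g, IsLocalRing.residue O (a g) = b g}
      add_mem' := by
        rintro _ _ ⟨a, h1, h2⟩ ⟨a', h3, h4⟩
        exact ⟨a + a', by simpa [add_smul, Finset.sum_add_distrib] using add_mem h1 h3,
          fun g => by simp [h2, h4]⟩
      zero_mem' := ⟨0, by simp, by simp⟩
      smul_mem' := by
        rintro c _ ⟨a, h1, h2⟩
        obtain ⟨o, rfl⟩ := IsLocalRing.residue_surjective c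
        exact ⟨o • a, by simpa [mul_smul, Finset.smul_sum] using smul_mem _ o h1,
          fun g => by simp [h2]⟩ }
  have hT : ∀ t, T (L ^ t) ≤ T (L ^ (t + 1)) := by
    rintro t b ⟨a, h1, h2⟩
    exact ⟨a, hmono (Nat.le_succ t) h1, h2⟩
  obtain ⟨t, htk, ht⟩ : ∃ t ≤ k, T (L ^ t) = T (L ^ (t + 1)) := by
    by_contra h
    push Not at h
    have h1 : ∀ t ≤ k + 1, t ≤ finrank (IsLocalRing.ResidueField O) (T (L ^ t)) := by
      intro t
      induction t with
      | zero => simp
      | succ t ih =>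
        intro ht
        have := Submodule.finrank_lt_finrank_of_lt (lt_of_le_of_ne (hT t) (h t (by omega)))
        have := ih (by omega)
        omega
    have h2 := (h1 _ le_rfl).trans (Submodule.finrank_le _)
    simp at h2 hs
    omega
  have h1 : L ^ (t + 1) ≤ L ^ t ⊔ IsLocalRing.maximalIdeal O • R := by
    intro y hy
    obtain ⟨a, rfl⟩ := hsR y (hpow _ hy)
    obtain ⟨a', h2, h3⟩ : (fun g => IsLocalRing.residue O (a g)) ∈ T (L ^ t) :=
      ht ▸ ⟨a, hy, fun _ => rfl⟩
    have h4 : ∑ g, a g • g.1 = ∑ g, a' g • g.1 + ∑ g, (a g - a' g) • g.1 := by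
      simp [sub_smul]
    rw [h4]
    refine add_mem (mem_sup_left h2) (mem_sup_right (sum_mem fun g _ => smul_mem_smul ?_ (hsm g)))
    rw [← IsLocalRing.residue_eq_zero_iff, map_sub, h3, sub_self]
  have h2 : ∀ u, L ^ (t + u) ≤ L ^ t ⊔ IsLocalRing.maximalIdeal O • R := by
    intro u
    induction u with
    | zero => exact le_sup_left
    | succ u ih =>
      rw [← add_assoc, pow_succ']
      refine (mul_le_mul_right ih L).trans ?_
      rw [Submodule.mul_sup, ← pow_succ']
      refine sup_le h1 (le_sup_of_le_right (Submodule.mul_le.2 fun a ha b hb => ?_))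
      refine smul_induction_on hb (fun o ho y hy => ?_) fun y y' hy hy' => ?_
      · rw [mul_smul_comm]
        exact smul_mem_smul ho (hRR (mul_mem_mul ha hy))
      · rw [mul_add]
        exact add_mem hy hy'
  refine ⟨R, one_mem (Algebra.adjoin O Z), hRR, le_trans ?_ (hmono htk)⟩
  refine Submodule.le_of_le_smul_of_le_jacobson_bot ⟨G, hG⟩
    (IsLocalRing.maximalIdeal_le_jacobson _) ?_
  conv_lhs => simp only [R]; rw [Algebra.adjoin_eq_span]
  rw [span_le]
  intro a ha
  obtain ⟨u, hu⟩ : ∃ u, a ∈ L ^ u := by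
    induction ha using Submonoid.closure_induction with
    | mem x hx => exact ⟨1, by simpa using subset_span (Set.mem_insert_of_mem 1 hx)⟩
    | one => exact ⟨0, by rw [pow_zero]; exact Submodule.one_le.1 le_rfl⟩
    | mul x y _ _ hx hy =>
      obtain ⟨u, hu⟩ := hx
      obtain ⟨v, hv⟩ := hy
      exact ⟨u + v, pow_add L u v ▸ mul_mem_mul hu hv⟩
  exact h2 u (hmono (Nat.le_add_left u t) hu)

theorem lattice {ι : Type} [DecidableEq ι] {M : Type} [Ring M] [Algebra O M] {Γ : ι → Type}
    [∀ i, Fintype (Γ i)] (g : ∀ i, Γ i → (Fin k → K) × M)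
    (Rel : Finset ι → Submodule O ((Fin k → K) × M)) (E T : Finset ι) (hET : Disjoint E T)
    (h1 : 1 ∈ Rel (E ∪ T)) (hmono : ∀ i ∈ T, ∀ D, i ∉ D → Rel (insert i D) ≤ Rel D)
    (hmul : ∀ i ∈ T, ∀ D, i ∉ D → ∀ γ, ∀ w ∈ Rel (insert i D), g i γ * w ∈ Rel D)
    (huniq : ∀ Y, (0, Y) ∈ Rel E → Y = 0) (hint : ∀ i ∈ T, ∀ γ j, (g i γ).1 j ∈ O) :
    ∃ S : Finset ι, S.card ≤ (k + 1) * k ∧ ∃ Good : Submodule O ((Fin k → K) × M), 1 ∈ Good ∧
      Good ≤ Rel E ∧ ∀ i ∈ T \ S, ∀ γ, ∀ w ∈ Good, g i γ * w ∈ Good := by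
  classical
  let Z : Finset ι → Set (Fin k → K) := fun J =>
    (fun p : Σ i, Γ i => (g p.1 p.2).1) '' (J.sigma fun _ => Finset.univ : Finset (Σ i, Γ i))
  let La : Finset ι → Submodule O (Fin k → K) := fun J => span O (insert 1 (Z J))
  have hLa : ∀ J J', J ⊆ J' → La J ≤ La J' := fun J J' h => span_mono
    (Set.insert_subset_insert (Set.image_mono (Finset.sigma_mono h fun _ => subset_rfl)))
  have mono : ∀ S, S ⊆ T → ∀ D, Disjoint D S → Rel (D ∪ S) ≤ Rel D := by
    intro S
    induction S using Finset.induction_on with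
    | empty => simp
    | insert i S hi ih =>
      intro hS D hD
      rw [Finset.disjoint_insert_right] at hD
      rw [Finset.union_insert]
      exact (hmono i (hS (by simp)) _ (by simp [hD.1, hi])).trans
        (ih ((Finset.subset_insert _ _).trans hS) D hD.2)
  have round : ∀ S, S ⊆ T → ∀ l ∈ La S, ∃ X, ∀ D, Disjoint D S → ∀ w ∈ Rel (D ∪ S),
      (l, X) * w ∈ Rel D := by
    intro S hS l hl
    induction hl using span_induction with
    | mem x hx =>
      rcases hx with rfl | ⟨⟨i, γ⟩, hp, rfl⟩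
      · exact ⟨1, fun D hD w hw => (one_mul w).symm ▸ mono S hS D hD hw⟩
      · have hi : i ∈ S := by simpa using hp
        have hD : ∀ D, Disjoint D S → i ∉ D := fun D hD => Finset.disjoint_right.1 hD hi
        refine ⟨(g i γ).2, fun D hD' w hw => hmul i (hS hi) D (hD D hD') γ w ?_⟩
        refine mono (S.erase i) ((Finset.erase_subset _ _).trans hS) _ ?_ ?_
        · simpa using hD'.mono_right (Finset.erase_subset _ _)
        · rwa [Finset.insert_union, ← Finset.union_insert, Finset.insert_erase hi]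
    | zero => exact ⟨0, fun D _ w _ => (zero_mul w).symm ▸ zero_mem _⟩
    | add x y _ _ hx hy =>
      obtain ⟨X, hX⟩ := hx
      obtain ⟨Y, hY⟩ := hy
      refine ⟨X + Y, fun D hD w hw => ?_⟩
      rw [← Prod.mk_add_mk, add_mul]
      exact add_mem (hX D hD w hw) (hY D hD w hw)
    | smul o x _ hx =>
      obtain ⟨X, hX⟩ := hx
      refine ⟨o • X, fun D hD w hw => ?_⟩
      rw [← Prod.smul_mk, smul_mul_assoc]
      exact smul_mem _ _ (hX D hD w hw)
  have pick : ∀ J : Finset ι, ∃ S ⊆ J, S.card ≤ k ∧ La J ≤ La S := by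
    intro J
    obtain ⟨s, h2, h3, h4⟩ := gen_le O (J.sigma fun _ => Finset.univ : Finset (Σ i, Γ i))
      Finset.univ (fun p => (g p.1 p.2).1) (by simp)
    refine ⟨s.image Sigma.fst, ?_, Finset.card_image_le.trans (by simpa using h3), ?_⟩
    · intro i hi
      obtain ⟨p, hp, rfl⟩ := Finset.mem_image.1 hi
      simpa using h2 hp
    · refine span_le.2 (Set.insert_subset (subset_span (Set.mem_insert _ _)) ?_)
      rintro _ ⟨p, hp, rfl⟩
      refine span_mono (Set.Subset.trans (Set.image_mono fun q hq => ?_) (Set.subset_insert _ _))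
        (h4 p hp)
      simpa using ⟨_, hq⟩
  have claim : ∀ n, ∀ J, J ⊆ T → ∃ S ⊆ J, S.card ≤ n * k ∧ ∀ q ∈ La (J \ S) ^ n, ∀ D,
      Disjoint D S → ∀ w ∈ Rel (D ∪ S), ∃ Q, (q * w.1, Q) ∈ Rel D := by
    intro n
    induction n with
    | zero =>
      intro J _
      refine ⟨∅, by simp, by simp, fun q hq D _ w hw => ?_⟩
      rw [pow_zero, Submodule.mem_one] at hq
      obtain ⟨o, rfl⟩ := hq
      rw [Finset.union_empty] at hw
      rw [← Algebra.smul_def]
      exact ⟨o • w.2, smul_mem _ o hw⟩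
    | succ n ih =>
      intro J hJ
      obtain ⟨S1, a1, a2, a3⟩ := pick J
      obtain ⟨S2, b1, b2, b3⟩ := ih (J \ S1) (Finset.sdiff_subset.trans hJ)
      have b4 : Disjoint S2 S1 := Finset.sdiff_disjoint.mono_left b1
      refine ⟨S2 ∪ S1, Finset.union_subset (b1.trans Finset.sdiff_subset) a1,
        (Finset.card_union_le _ _).trans (by nlinarith), fun q hq D hD w hw => ?_⟩
      rw [pow_succ] at hq
      rw [Finset.disjoint_union_right] at hD
      induction hq using Submodule.mul_induction_on' with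
      | mem_mul_mem q hq l hl =>
        obtain ⟨X, hX⟩ := round S1 (a1.trans hJ) l (a3 (hLa _ _ Finset.sdiff_subset hl))
        have h2 := hX (D ∪ S2) (Finset.disjoint_union_left.2 ⟨hD.2, b4⟩) w
          (by rwa [Finset.union_assoc])
        rw [Finset.union_comm, ← Finset.sup_eq_union, ← sdiff_sdiff_left] at hq
        simpa [mul_assoc] using b3 q hq D hD.1 _ h2
      | add x _ y _ hx hy =>
        obtain ⟨X, hX⟩ := hx
        obtain ⟨Y, hY⟩ := hy
        exact ⟨X + Y, by simpa [add_mul] using add_mem hX hY⟩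
  obtain ⟨S0, a1, a2, a3⟩ := pick T
  obtain ⟨S, b1, b2, b3⟩ := claim k (T \ S0) Finset.sdiff_subset
  obtain ⟨R, c1, c2, c3⟩ := stabilise O (Z ((T \ S0) \ S)) (Set.toFinite _) (by
    rintro _ ⟨p, hp, rfl⟩
    have : p.1 ∈ T := by
      simp only [Finset.coe_sigma, Set.mem_sigma_iff, Finset.mem_coe, Finset.mem_sdiff] at hp
      exact hp.1.1.1
    exact hint _ this _)
  have one : ∀ J, J ⊆ T → 1 ∈ Rel (E ∪ J) := by
    intro J hJ
    refine mono (T \ J) Finset.sdiff_subset _
      (Finset.disjoint_union_left.2 ⟨hET.mono_right Finset.sdiff_subset, Finset.disjoint_sdiff⟩) ?_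
    rwa [Finset.union_assoc, Finset.union_sdiff_of_subset hJ]
  have d0 : Disjoint E S0 := hET.mono_right a1
  have d1 : S ⊆ T := b1.trans Finset.sdiff_subset
  have uniq : ∀ y Y Y', (y, Y) ∈ Rel E → (y, Y') ∈ Rel E → Y = Y' := fun y Y Y' h h' =>
    sub_eq_zero.1 (huniq _ (by simpa using sub_mem h h'))
  refine ⟨S0 ∪ S, (Finset.card_union_le _ _).trans (by nlinarith),
    R.comap (LinearMap.fst O _ _) ⊓ Rel (E ∪ S0), ⟨c1, one _ a1⟩,
    inf_le_right.trans (mono _ a1 _ d0), fun i hi γ w hw => ?_⟩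
  rw [← Finset.sup_eq_union, ← sdiff_sdiff_left] at hi
  have hiT : i ∈ T := Finset.sdiff_subset (Finset.sdiff_subset hi)
  have hiE : i ∉ E := Finset.disjoint_right.1 hET hiT
  have e1 : (g i γ).1 ∈ La ((T \ S0) \ S) :=
    subset_span (Set.mem_insert_of_mem _ ⟨⟨i, γ⟩, by simpa using hi, rfl⟩)
  obtain ⟨X, hX⟩ := round S0 a1 _
    (a3 (hLa _ _ (Finset.sdiff_subset.trans Finset.sdiff_subset) e1))
  have e2 : X = (g i γ).2 := by
    refine uniq (g i γ).1 _ _ (by simpa using hX E d0 1 (one _ a1)) ?_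
    simpa using hmul i hiT E hiE γ 1 (by simpa using one {i} (by simpa using hiT))
  have e3 : (g i γ).1 * w.1 ∈ R := c2 (mul_mem_mul e1 hw.1)
  obtain ⟨Q, hQ⟩ := b3 _ (c3 e3) (E ∪ S0)
    (Finset.disjoint_union_left.2 ⟨hET.mono_right d1, Finset.disjoint_sdiff.mono_right b1⟩) 1
    (by rw [Finset.union_assoc]; exact one _ (Finset.union_subset a1 d1))
  rw [Prod.fst_one, mul_one] at hQ
  have e4 := uniq _ _ _ (mono _ a1 _ d0 hQ) (hX E d0 w hw.2)
  rw [e4, e2] at hQ
  exact ⟨e3, hQ⟩

end Pool.Agent.Lib.MP_595dc0_ag.Ef
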