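import Mathlib
import Pool.Agent.Lib.MP_595dc0_ag.EfApx
import Pool.Agent.Lib.MP_595dc0_ag.EfLat

set_option autoImplicit false

namespace Pool.Agent.Lib.MP_595dc0_ag.Ef

open Module Submodule Function Matrix IsLocalRing

/-- Pairing of a vector and a matrix with fixed test vectors. -/
noncomputable def pairL {K : Type} [Field K] (O : ValuationSubring K) {k r : ℕ} (a : Fin k → K)
    (α β : Fin r → ResidueField O) :
    ((Fin k → K) × Matrix (Fin r) (Fin r) (ResidueField O)) →ₗ[O] K × ResidueField O where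
  toFun w := (a ⬝ᵥ w.1, (α ᵥ* w.2) ⬝ᵥ β)
  map_add' := by simp [vecMul_add]
  map_smul' := by simp [vecMul_smul]

variable {ι : Type} [Fintype ι] [DecidableEq ι] {V : ι → Type} [∀ i, AddCommGroup (V i)]
  [∀ i, Module ℂ (V i)] {τ : MultilinearMap ℂ V ℂ} {k r : ℕ} {Γ : ι → Type} [∀ i, Fintype (Γ i)]

theorem normalise [∀ i, Nontrivial (V i)] (F : Fr τ r) {ξ : ∀ i, V i} (hd : (F.G ξ).det ≠ 0)
    (e : ∀ i, Γ i → V i) (he : ∀ i, span ℂ (Set.range (e i)) = ⊤) {I T : Finset ι} (hT : T ⊆ I)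
    (hS : ∀ i ∈ T, i ∉ F.A ∧ i ∉ F.B) (hI : Apx τ k I ξ) :
    ∃ (K : Type) (_ : Field K) (_ : Algebra ℂ K) (O : ValuationSubring K)
      (h : ∀ a : ℂ, algebraMap ℂ K a ∈ O) (φ : Fin k → K) (c : ∀ i, V i → Fin k → K)
      (ξ' : ∀ i, V i), (F.G ξ').det ≠ 0 ∧
      (∀ v, (∑ j, φ j * ∏ i ∈ I, c i (v i) j, rho O h (τ (I.piecewise v ξ'))) ∈ RS O) ∧
      (∀ i ∈ T, ∀ j, φ j * c i (ξ' i) j = φ j) ∧ ∀ i ∈ T, ∀ γ j, c i (e i γ) j ∈ O := by
  obtain ⟨K, _, _, O, h, φ, c, h1⟩ := hI
  choose H h2 h3 using fun i (j : Fin k) =>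
    exists_hyp O h (e i) (he i) (LinearMap.proj j ∘ₗ c i)
  obtain ⟨ξ', h4, h5, h6⟩ := F.exists_base hd H h2 T hS
  let n : ι → Fin k → K := fun i j => if i ∈ T then c i (ξ' i) j else 1
  refine ⟨K, _, _, O, h, fun j => φ j * ∏ i ∈ I, n i j, fun i x j => c i x j / n i j, ξ', h4,
    fun v => ?_, fun i hi j => ?_, fun i hi γ j => ?_⟩
  · rw [Finset.piecewise_congr I (fun _ _ => rfl) fun i hi => h5 i fun h => hi (hT h)]
    convert h1 v using 3 with j
    rw [mul_assoc, ← Finset.prod_mul_distrib]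
    refine congrArg _ (Finset.prod_congr rfl fun i _ => ?_)
    by_cases h7 : n i j = 0
    · have hi : i ∈ T := by
        by_contra hi
        simp [n, hi] at h7
      have := LinearMap.congr_fun ((h3 i j _ (h6 i hi j)).2 (by simpa [n, hi] using h7)) (v i)
      rw [h7, zero_mul]
      exact this.symm
    · exact mul_div_cancel₀ _ h7
  · by_cases h7 : n i j = 0
    · simp [Finset.prod_eq_zero (f := fun i => n i j) (hT hi) h7]
    · have : c i (ξ' i) j = n i j := by simp [n, hi]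
      simp only [this, div_self h7, mul_one]
  · simpa [n, hi] using (h3 i j _ (h6 i hi j)).1 γ

theorem lift [∀ i, Nontrivial (V i)] (F : Fr τ r) (hr : r ≤ k) (hA : F.A.card ≤ r)
    (hB : F.B.card ≤ r) {ξ : ∀ i, V i} (hd : (F.G ξ).det ≠ 0)
    (e : ∀ i, Γ i → V i) (he : ∀ i, span ℂ (Set.range (e i)) = ⊤)
    (hI : ∀ I : Finset ι, I.card ≤ 2 * k + (k + 1) * (((k + 1) * k + 1) * k) → Apx τ k I ξ) :
    InCl Γ k fun x => τ fun i => e i (x i) := by
  have hR : ∀ i ∈ (F.A ∪ F.B)ᶜ, i ∉ F.A ∧ i ∉ F.B := by simp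
  have h0 := (F.finrank_le ξ _ hR).trans hr
  obtain ⟨E', T, a1, a2, a3⟩ := robust (fun i => LinearMap.range (F.X ξ i)) ((k + 1) * k + 1) k
    _ h0 h0
  set E := F.A ∪ F.B ∪ E' with hE
  have hE' : (F.A ∪ F.B)ᶜ \ E' = Eᶜ := by
    ext i
    simp [hE, and_assoc]
  rw [hE'] at a1 a3
  have hEc : ∀ i ∈ Eᶜ, i ∉ F.A ∧ i ∉ F.B := fun i hi =>
    hR i (Finset.sdiff_subset (hE'.ge hi))
  have hT : ∀ i ∈ T, i ∉ F.A ∧ i ∉ F.B := fun i hi => hEc i (a1 hi)
  obtain ⟨K, _, _, O, h, φ, c, ξ', hd', b1, b2, b3⟩ := normalise F hd e he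
    (Finset.subset_union_right (s₁ := E)) hT (hI _ (by
      have := Finset.card_union_le E T
      have : E.card ≤ _ := Finset.card_union_le (F.A ∪ F.B) E'
      have := Finset.card_union_le F.A F.B
      omega))
  set ρ := rho O h
  let Rel : Finset ι → Submodule O ((Fin k → K) × Matrix (Fin r) (Fin r) (ResidueField O)) :=
    fun D => ⨅ v : ∀ i, V i, (RS O).comap (pairL O (fun j => φ j * ∏ i ∈ D, c i (v i) j)
      (ρ ∘ F.al (D.piecewise v ξ')) (ρ ∘ F.be ξ' v))
  have hRel : ∀ D w, w ∈ Rel D ↔ ∀ v : ∀ i, V i, ((fun j => φ j * ∏ i ∈ D, c i (v i) j) ⬝ᵥ w.1,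
      ((ρ ∘ F.al (D.piecewise v ξ')) ᵥ* w.2) ⬝ᵥ (ρ ∘ F.be ξ' v)) ∈ RS O := fun D w =>
    mem_iInf _
  have hbe : ∀ v v' : ∀ i, V i, (∀ i ∈ F.B, v i = v' i) → F.be ξ' v = F.be ξ' v' := by
    intro v v' hv
    simp only [Fr.be, Finset.piecewise_congr F.B hv fun _ _ => rfl]
  have hvm : ∀ (a : Fin r → ℂ) (Z : Matrix (Fin r) (Fin r) ℂ),
      ρ ∘ (a ᵥ* Z) = (ρ ∘ a) ᵥ* Z.map ρ := fun a Z => funext (RingHom.map_vecMul ρ Z a)
  have key : ∀ i ∈ T, ∀ D, i ∉ D → ∀ x, ∀ w ∈ Rel (insert i D),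
      (c i x, (F.X ξ' i x).map ρ) * w ∈ Rel D := by
    intro i hi D hD x w hw
    rw [hRel] at hw ⊢
    intro v
    convert hw (update v i x) using 2
    · simp only [dotProduct, Finset.prod_insert hD, update_self, Prod.fst_mul, Pi.mul_apply]
      refine Finset.sum_congr rfl fun j _ => ?_
      rw [Finset.prod_congr (g := fun l => c l (update v i x l) j) rfl fun l hl => by
        rw [update_of_ne (ne_of_mem_of_not_mem hl hD) x v]]
      ring
    · rw [Finset.piecewise_insert, update_self, Finset.piecewise_congr D (f' := v)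
        (fun l hl => update_of_ne (ne_of_mem_of_not_mem hl hD) x v) fun _ _ => rfl,
        F.g2 hd' (hT i hi).1 (hT i hi).2, ← pw_update hD, update_eq_self, hvm, vecMul_vecMul,
        hbe (update v i x) v fun l hl => update_of_ne (ne_of_mem_of_not_mem hl (hT i hi).2) x v]
      rfl
  have hBE : F.B ⊆ E := Finset.subset_union_right.trans Finset.subset_union_left
  obtain ⟨S, c1, Good, c2, c3, c4⟩ := lattice O
    (fun i γ => (c i (e i γ), (F.X ξ' i (e i γ)).map ρ)) Rel E T
    (Finset.disjoint_right.2 fun i hi => Finset.mem_compl.1 (a1 hi))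
    ((hRel _ _).2 fun v => by
      convert b1 v using 2
      · simp [dotProduct]
      · rw [F.g1 hd', RingHom.map_dotProduct, hbe ((E ∪ T).piecewise v ξ') v fun i hi => by
          simp [hBE hi]]
        simp)
    (fun i hi D hD w hw => by
      have := key i hi D hD (ξ' i) w hw
      rw [hRel] at this ⊢
      intro v
      convert this v using 2
      · simp only [dotProduct, Prod.fst_mul, Pi.mul_apply]
        refine Finset.sum_congr rfl fun j _ => ?_
        conv_lhs => rw [← b2 i hi j]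
        ring
      · simp [F.X_self (hT i hi).1 (hT i hi).2 hd'])
    (fun i hi D hD γ => key i hi D hD _)
    (fun Y hY => by
      have h1 : (F.G ξ').map ρ * Y = 0 := by
        ext s t
        have h2 := (hRel _ _).1 hY (F.B.piecewise (F.b t) (F.A.piecewise (F.a s) ξ'))
        obtain ⟨o, h3, h4⟩ := (mem_RS O).1 h2
        obtain rfl : o = 0 := Subtype.ext (by simpa using h3)
        have h5 : F.al (E.piecewise (F.B.piecewise (F.b t) (F.A.piecewise (F.a s) ξ')) ξ') =
            F.G ξ' s := by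
          funext t'
          refine congrArg τ (funext fun i => ?_)
          by_cases g1 : i ∈ F.B <;> by_cases g2 : i ∈ F.A <;> by_cases g3 : i ∈ E' <;>
            simp [hE, g1, g2, g3]
        have h6 : F.be ξ' (F.B.piecewise (F.b t) (F.A.piecewise (F.a s) ξ')) = Pi.single t 1 := by
          have : (F.G ξ')⁻¹ *ᵥ (F.G ξ' *ᵥ Pi.single t 1) = Pi.single t 1 := by
            rw [mulVec_mulVec, nonsing_inv_mul _ hd'.isUnit, one_mulVec]
          rw [← this, mulVec_single_one, Fr.be]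
          simp only [Finset.piecewise_idem_left]
          rfl
        rw [h5, h6, map_zero] at h4
        have h7 : ρ ∘ (Pi.single t 1 : Fin r → ℂ) = Pi.single t 1 := by
          funext l
          by_cases hl : l = t <;> simp [hl]
        rw [h7, dotProduct_single_one] at h4
        exact h4.symm
      have h2 : IsUnit ((F.G ξ').map ρ) := by
        rw [isUnit_iff_isUnit_det, ← RingHom.mapMatrix_apply, ← RingHom.map_det]
        exact hd'.isUnit.map ρ
      exact (h2.mul_right_eq_zero).1 h1)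
    b3
  let 𝓐 : Subalgebra ℂ (Matrix (Fin r) (Fin r) ℂ) :=
    { carrier := {Z | ∃ y, ∀ w ∈ Good, (y, Z.map ρ) * w ∈ Good}
      mul_mem' := by
        rintro Z Z' ⟨y, hy⟩ ⟨y', hy'⟩
        refine ⟨y * y', fun w hw => ?_⟩
        rw [Matrix.map_mul, ← Prod.mk_mul_mk, mul_assoc]
        exact hy _ (hy' w hw)
      add_mem' := by
        rintro Z Z' ⟨y, hy⟩ ⟨y', hy'⟩
        refine ⟨y + y', fun w hw => ?_⟩
        rw [Matrix.map_add _ (map_add ρ), ← Prod.mk_add_mk, add_mul]
        exact add_mem (hy w hw) (hy' w hw)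
      algebraMap_mem' := fun a => ⟨algebraMap O _ (rho0 O h a), fun w hw => by
        have h1 : (algebraMap ℂ (Matrix (Fin r) (Fin r) ℂ) a).map ρ =
            algebraMap O _ (rho0 O h a) := by
          ext s t
          by_cases hs : s = t <;> simp [algebraMap_matrix_apply, hs]
          rfl
        have := smul_mem Good (rho0 O h a) hw
        rw [Algebra.smul_def] at this
        rw [h1]
        exact this⟩ }
  have d1 := F.X_mem hd hd' (fun i hi => hT i (Finset.sdiff_subset hi)) hEc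
    (a3 S (by omega)) 𝓐 fun j hj x => by
      obtain ⟨a, rfl⟩ := (mem_span_range_iff_exists_fun ℂ).1 ((he j).ge (mem_top (x := x)))
      rw [map_sum]
      exact sum_mem fun γ _ => by
        rw [map_smul]
        exact 𝓐.smul_mem ⟨_, c4 j hj γ⟩ _
  choose! y hy using d1
  refine inCl_of O h φ (fun i γ => if i ∈ E then c i (e i γ) else y i (e i γ)) _ fun x => ?_
  set v : ∀ i, V i := fun i => e i (x i)
  have d2 : ∀ D : Finset ι, D ⊆ Eᶜ → ∃ Y : Matrix (Fin r) (Fin r) ℂ,
      (∏ i ∈ D, y i (v i), Y.map ρ) ∈ Good ∧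
        ∀ η, F.al (D.piecewise v η) = F.al (D.piecewise ξ' η) ᵥ* Y := by
    intro D
    induction D using Finset.induction_on with
    | empty => exact fun _ => ⟨1, by simpa [Prod.mk_one_one] using c2, by simp⟩
    | insert i D hi ih =>
      intro hD
      obtain ⟨Y, h1, h2⟩ := ih ((Finset.subset_insert _ _).trans hD)
      have h3 := hD (Finset.mem_insert_self _ _)
      refine ⟨F.X ξ' i (v i) * Y, ?_, fun η => ?_⟩
      · rw [Finset.prod_insert hi, Matrix.map_mul]
        exact hy i h3 _ _ h1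
      · rw [Finset.piecewise_insert, Finset.piecewise_insert, ← pw_update hi, h2, pw_update hi,
          F.g2 hd' (hEc i h3).1 (hEc i h3).2, vecMul_vecMul]
  obtain ⟨Y, h1, h2⟩ := d2 _ subset_rfl
  convert (hRel _ _).1 (c3 h1) v using 2
  · refine Finset.sum_congr rfl fun j _ => ?_
    simp only [← Finset.prod_mul_prod_compl E, mul_assoc, Finset.prod_apply]
    congr 2
    · exact Finset.prod_congr rfl fun i hi => by rw [if_pos hi]
    · exact Finset.prod_congr rfl fun i hi => by rw [if_neg (Finset.mem_compl.1 hi)]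
  · rw [F.g1 hd', RingHom.map_dotProduct, ← hvm, ← Finset.piecewise_compl, ← h2,
      Finset.piecewise_same]

end Pool.Agent.Lib.MP_595dc0_ag.Ef
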