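import Mathlib
import Pool.Agent.Lib.MP_595dc0_ag.Defs
import Pool.Agent.Lib.MP_595dc0_ag.EfDeg
import Pool.Agent.Lib.MP_595dc0_ag.EfLift

set_option autoImplicit false

namespace Pool.Agent.Lib.MP_595dc0_ag.Ef

open Module Submodule Function MvPolynomial

variable {ι : Type} [Fintype ι] [DecidableEq ι] {β : ι → Type} [∀ i, Fintype (β i)] {k : ℕ}

/-- The multilinear form of a tensor. -/
noncomputable def tau (T : (∀ i, β i) → ℂ) : MultilinearMap ℂ (fun i => β i → ℂ) ℂ :=
  ∑ x, T x • (MultilinearMap.mkPiAlgebra ℂ ι ℂ).compLinearMap fun i => LinearMap.proj (x i)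

/-- The linear form on tensors given by a tuple of vectors. -/
noncomputable def lin (u : ∀ i, β i → ℂ) : MvPolynomial (∀ i, β i) ℂ :=
  ∑ x, (∏ i, u i (x i)) • X x

theorem eval_lin (T : (∀ i, β i) → ℂ) (a : ℂ) (u : ∀ i, β i → ℂ) :
    eval (a • T) (lin u) = a * tau T u := by
  simp [lin, tau, Finset.mul_sum, mul_comm, mul_assoc]

theorem deg_lin (u : ∀ i, β i → ℂ) : (lin u).totalDegree ≤ 1 :=
  totalDegree_finsetSum_le fun _ _ => (totalDegree_smul_le _ _).trans (totalDegree_X _).le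

/-- The pairing of a vector with the generic vector of a summand. -/
noncomputable def pl (k : ℕ) (i : ι) (z : β i → ℂ) (j : Fin k) :
    MvPolynomial (Fin k × Option (Σ i, β i)) ℂ :=
  ∑ a, z a • X (j, some ⟨i, a⟩)

theorem par_lin (u : ∀ i, β i → ℂ) :
    aeval (par β k) (lin u) = ∑ j, X (j, none) * ∏ i, pl k i (u i) j := by
  simp only [lin, map_sum, map_smul, aeval_X, par, pl]
  exact par_expand (R := MvPolynomial (Fin k × Option (Σ i, β i)) ℂ) (fun j => X (j, none))
    (fun i a j => X (j, some ⟨i, a⟩)) u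

theorem tau_single [∀ i, DecidableEq (β i)] (T : (∀ i, β i) → ℂ) (x : ∀ i, β i) :
    (tau T fun i => Pi.single (x i) 1) = T x := by
  simp only [tau, sum_apply]
  rw [Finset.sum_eq_single x (fun y _ hy => ?_) (by simp)]
  · simp
  · obtain ⟨i, hi⟩ := Function.ne_iff.1 hy
    simp [Finset.prod_eq_zero (f := fun i => (Pi.single (x i) 1 : β i → ℂ) (y i))
      (Finset.mem_univ i) (Pi.single_eq_of_ne hi _)]

theorem minor (S : Finset ι) (u u' : Fin (k + 1) → ∀ i, β i → ℂ) :
    aeval (par β k) (Matrix.of fun s t => lin (S.piecewise (u s) (u' t))).det = 0 := by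
  let A : Matrix (Fin (k + 1)) (Fin (k + 1)) (MvPolynomial (Fin k × Option (Σ i, β i)) ℂ) :=
    Matrix.of fun s => Fin.cons 0 fun j => X (j, none) * ∏ i ∈ S, pl k i (u s i) j
  let B : Matrix (Fin (k + 1)) (Fin (k + 1)) (MvPolynomial (Fin k × Option (Σ i, β i)) ℂ) :=
    Matrix.of (Fin.cons 0 fun j t => ∏ i ∈ Sᶜ, pl k i (u' t i) j)
  have h : (aeval (par β k)).mapMatrix (Matrix.of fun s t => lin (S.piecewise (u s) (u' t))) =
      A * B := by
    refine Matrix.ext fun s t => (par_lin _).trans ?_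
    simp only [A, B, Matrix.mul_apply, Fin.sum_univ_succ, Matrix.of_apply, Fin.cons_zero,
      Fin.cons_succ, zero_mul, zero_add, mul_assoc]
    refine Finset.sum_congr rfl fun j _ => ?_
    rw [← Finset.prod_mul_prod_compl S]
    congr 2
    · exact Finset.prod_congr rfl fun i hi => by simp [hi]
    · exact Finset.prod_congr rfl fun i hi => by simp [Finset.mem_compl.1 hi]
  rw [AlgHom.map_det, h, Matrix.det_mul, Matrix.det_eq_zero_of_row_eq_zero (A := B) 0 fun _ => rfl,
    mul_zero]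

theorem deg_det {σ : Type} {n : ℕ} (M : Matrix (Fin n) (Fin n) (MvPolynomial σ ℂ))
    (h : ∀ s t, (M s t).totalDegree ≤ 1) : M.det.totalDegree ≤ n := by
  rw [Matrix.det_apply']
  refine totalDegree_finsetSum_le fun g _ => (totalDegree_mul _ _).trans ?_
  rw [← map_intCast (C : ℂ →+* MvPolynomial σ ℂ), totalDegree_C, zero_add]
  exact (totalDegree_finsetProd _ _).trans ((Finset.sum_le_sum fun i _ => h (g i) i).trans (by simp))

theorem transfer (I : Finset ι) (ξ : ∀ i, β i → ℂ) (u : ∀ i, Fin k → β i → ℂ)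
    (f : MvPolynomial (I → Fin k) ℂ) (hf : aeval (par (fun _ : I => Fin k) k) f = 0) :
    aeval (par β k) (aeval (fun x : I → Fin k =>
      lin fun i => if h : i ∈ I then u i (x ⟨i, h⟩) else ξ i) f) = 0 := by
  rw [comp_aeval_apply, ← par_sub (fun j => X (j, none) * ∏ i ∈ Iᶜ, pl k i (ξ i) j)
    (fun (i : I) a j => pl k i.1 (u i a) j) hf]
  congr 2
  funext x
  rw [par_lin]
  refine Finset.sum_congr rfl fun j _ => ?_
  rw [← Finset.prod_mul_prod_compl I, ← Finset.prod_coe_sort I, mul_assoc, mul_comm (∏ i ∈ Iᶜ, _)]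
  congr 2
  · exact Finset.prod_congr rfl fun i _ => by simp
  · exact Finset.prod_congr rfl fun i hi => by simp [Finset.mem_compl.1 hi]

theorem numeric_bound {k n : ℕ} (h : n ≤ 2 * k + (k + 1) * (((k + 1) * k + 1) * k)) :
    (k * (n * k + 1) + 1) * ((1 + n) * (k * (n * k + 1) + 1)) ^ (k * (n * k + 1)) ≤
      (k + 1) ^ (10 * (k + 1) ^ 6) := by
  have h1 : 1 + n ≤ (k + 1) ^ 4 := by nlinarith [Nat.zero_le (k ^ 3), Nat.zero_le (k ^ 2)]
  have h2 : k * (n * k + 1) + 1 ≤ (k + 1) ^ 6 := by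
    have := Nat.mul_le_mul_right ((k + 1) ^ 2) h1
    nlinarith [Nat.zero_le (n * k), Nat.zero_le (k ^ 2)]
  generalize k * (n * k + 1) = m at *
  calc (m + 1) * ((1 + n) * (m + 1)) ^ m ≤ ((1 + n) * (m + 1)) ^ (m + 1) := by
        rw [pow_succ']
        exact Nat.mul_le_mul_right _ (Nat.le_mul_of_pos_left _ (by omega))
    _ ≤ ((k + 1) ^ 4 * (k + 1) ^ 6) ^ (m + 1) := Nat.pow_le_pow_left (Nat.mul_le_mul h1 h2) _
    _ ≤ ((k + 1) ^ 4 * (k + 1) ^ 6) ^ ((k + 1) ^ 6) := Nat.pow_le_pow_right (by positivity) h2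
    _ = _ := by rw [← pow_add, ← pow_mul]

theorem effective [∀ i, Nonempty (β i)] (T : (∀ i, β i) → ℂ)
    (hT : ∀ f, aeval (par β k) f = 0 → f.totalDegree ≤ (k + 1) ^ (10 * (k + 1) ^ 6) →
      ∀ a : ℂ, eval (a • T) f = 0) : InCl β k T := by
  classical
  have hdet : ∀ (S : Finset ι) (u u' : Fin (k + 1) → ∀ i, β i → ℂ),
      (Matrix.of fun s t => tau T (S.piecewise (u s) (u' t))).det = 0 := by
    intro S u u'
    rw [← hT _ (minor S u u') ((deg_det _ fun _ _ => deg_lin _).trans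
      (Nat.le_self_pow (by positivity) _)) 1, RingHom.map_det]
    congr 1
    ext s t
    simp only [RingHom.mapMatrix_apply, Matrix.map_apply, Matrix.of_apply, eval_lin, one_mul]
  obtain ⟨r, hr, F, hA, hB, ξ, hd⟩ := exists_frame (tau T) hdet
  have := lift (k := k) F hr hA hB hd (fun i a => Pi.single a 1)
    (fun i => by simp [← Pi.basisFun_apply])
    fun I hI => (dep_of_det hdet).apx I ξ fun u => low_degree (Nat.le_add_right 1 _) rfl _ par_hom
      _ fun f hf hd a => by
        rw [← hT _ (transfer I ξ u f hf) ((deg_aeval _ 1 (fun _ => deg_lin _) f).trans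
          (by simpa using hd.trans (by simpa using numeric_bound hI))) a]
        refine Eq.trans ?_ (comp_aeval_apply _ (aeval (a • T)) f).symm
        simp only [aeval_eq_eval, eval_lin]
        rfl
  simpa only [tau_single] using this

theorem mem_secant_iff {N : ℕ} (hN : 1 ≤ N) (w : Fin N → ℕ) (f : MvPolynomial (Idx w) ℂ) :
    f ∈ secantIdeal w k ↔ aeval (par (fun i => Fin (w i)) k) f = 0 := by
  rw [secantIdeal, mem_vanishingIdeal_iff]
  refine ⟨fun h => MvPolynomial.funext fun y => ?_, ?_⟩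
  · rw [map_zero, ← h (fun x => aeval y (par (fun i => Fin (w i)) k x))
      ⟨fun j x => y (j, none) * ∏ i, y (j, some ⟨i, x i⟩), fun j => ?_, by
        funext x
        simp [par]⟩]
    · exact comp_aeval_apply _ (aeval y) _
    · refine ⟨fun i a => (if i = ⟨0, hN⟩ then y (j, none) else 1) * y (j, some ⟨i, a⟩),
        fun x => ?_⟩
      rw [Finset.prod_mul_distrib]
      simp
  · rintro h _ ⟨D, hD, rfl⟩
    choose v hv using hD
    rw [← par_sub (fun _ => (1 : ℂ)) (fun i a j => v j i a) h]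
    congr 2
    funext x
    simp [hv]

theorem main {N : ℕ} (hN : 1 ≤ N) (w : Fin N → ℕ) (T : Idx w → ℂ)
    (hT : ∀ f ∈ secantIdeal w k, (∃ e ≤ (k + 1) ^ (10 * (k + 1) ^ 6), f.IsHomogeneous e) →
      eval T f = 0) : T ∈ secantCone w k := by
  intro f hf
  by_cases h : ∀ i, Nonempty (Fin (w i))
  · refine effective T (fun g hg hd a => ?_) f ((mem_secant_iff hN w f).1 hf)
    rw [← sum_homogeneousComponent g, map_sum]
    refine Finset.sum_eq_zero fun e he => ?_
    have h1 := homogeneousComponent_isHomogeneous e g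
    rw [eval_smul_hom h1, hT _ ((mem_secant_iff hN w _).2
      (aeval_comp_eq_zero _ (Nat.le_add_right 1 _) par_hom hg e))
      ⟨e, (Nat.lt_succ_iff.1 (Finset.mem_range.1 he)).trans hd, h1⟩, mul_zero]
  · obtain ⟨i, hi⟩ := not_forall.1 h
    exact hf T ⟨fun _ => T, fun _ => ⟨0, fun x => absurd ⟨x i⟩ hi⟩,
      funext fun x => absurd ⟨x i⟩ hi⟩

end Pool.Agent.Lib.MP_595dc0_ag.Ef
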