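import Pool.Agent.Lib.MP_595dc0_ag.Design2

namespace Pool.Agent.Lib.MP_595dc0_ag

open MvPolynomial

theorem hardRank_cube {ν : ℕ} (hν : 3 ≤ ν) :
    HardRank (8 ^ ν) ((2 ^ ν) ^ ((2 ^ ν - 3) * 8 ^ ν)) := by
  obtain ⟨m, rfl⟩ : ∃ m, ν = m + 3 := ⟨ν - 3, by omega⟩
  have hp : 1 ≤ 2 ^ m := Nat.one_le_two_pow
  obtain ⟨h, hn, hh⟩ : ∃ h, 2 ^ (m + 3) = 2 * h ∧ 4 ≤ h := ⟨2 ^ m * 4, by ring, by omega⟩
  have h8 : 8 ^ (m + 3) = (2 * h) ^ 3 := by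
    rw [← hn, ← pow_mul, mul_comm, pow_mul]; norm_num
  obtain ⟨A, B, cp, cm, y, hD⟩ := exists_design hh
  obtain ⟨j, hj⟩ : ∃ j, 2 * h = j + 3 := ⟨2 * h - 3, by omega⟩
  have hR : Fintype.card (Finset.range (2 * h + 1)) = 2 * h + 1 := by simp
  have hC : Fintype.card (colSet h) = (2 * h) ^ 2 + 1 := by
    rw [Fintype.card_coe, card_colSet hh]
  have hE : Fintype.card (edgeSet h) = (2 * h) ^ 2 + 2 * h + 1 := by
    rw [Fintype.card_coe, card_edgeSet]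
  have : Nonempty (Finset.range (2 * h + 1)) := ⟨⟨0, by simp⟩⟩
  have : Nonempty (colSet h) := Fintype.card_pos_iff.mp (by rw [hC]; omega)
  have : Nonempty (Fin (j ^ 3 + 9 * j ^ 2 + 26 * j + 25)) := ⟨⟨0, by omega⟩⟩
  obtain ⟨f, hf0, hf⟩ := exists_vanishing (Cw := Fin (j ^ 3 + 9 * j ^ 2 + 26 * j + 25))
    (Classical.arbitrary (Finset.range (2 * h + 1))) (Classical.arbitrary (colSet h)) ((2 * h) ^ 3)
    (by
      rw [hR, hC, Fintype.card_fin, Nat.add_sub_cancel, Nat.add_sub_cancel, hj]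
      apply Nat.lt_of_add_one_le
      apply le_of_eq
      ring)
  obtain ⟨T0, hT0⟩ := exists_eval_ne f hf0
  rw [h8, hn, pow_mul]
  refine hardRank_of_X3 ⟨T0, ⟨f, hf, hT0⟩, fun g hg hd => ?_⟩
  by_contra hne
  have hg0 : g ≠ 0 := by
    rintro rfl
    simp at hne
  have := hD.degree (μ := (m + 3) * (2 * h)) (κ := (m + 3) * 3) (k := (2 * h) ^ 3) (j := j + 2)
    (r := (2 * h) ^ (2 * h - 3)) (by rw [pow_mul 2, hn]) (by rw [pow_mul 2, hn])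
    (by rw [← pow_add]; congr 1; omega) (by rw [hR, hC, hE]; ring) (by rw [hR, hC, hE]; ring)
    (by rw [hE, hj]; ring) (by omega) (by rw [hj]; ring) g hg0 hg
  omega

theorem numeric {k ν : ℕ} (hν : 3 ≤ ν) (hk0 : 1 ≤ k) (hk : k < 8 ^ (ν + 1)) :
    (k : ℝ) ^ ((k : ℝ) ^ (4 / 3 : ℝ) / 128) ≤ (((2 ^ ν) ^ ((2 ^ ν - 3) * 8 ^ ν) : ℕ) : ℝ) := by
  obtain ⟨m, rfl⟩ : ∃ m, ν = m + 3 := ⟨ν - 3, by omega⟩
  have hp : 1 ≤ 2 ^ m := Nat.one_le_two_pow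
  have hp' : 2 ^ (m + 3) = 8 * 2 ^ m := by ring
  obtain ⟨j, hn, hj⟩ : ∃ j, 2 ^ (m + 3) = j + 3 ∧ 5 ≤ j := ⟨2 ^ (m + 3) - 3, by omega, by omega⟩
  have h8 : 8 ^ (m + 3) = (j + 3) ^ 3 := by
    rw [← hn, ← pow_mul, mul_comm, pow_mul]; norm_num
  rw [pow_succ, h8] at hk
  rw [h8, hn, Nat.add_sub_cancel]
  have hx : (5 : ℝ) ≤ j := by exact_mod_cast hj
  have h1 : (k : ℝ) ≤ (2 * (j + 3)) ^ 3 := by
    have : k ≤ (2 * (j + 3)) ^ 3 := by rw [mul_pow]; omega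
    exact_mod_cast this
  have h2 : (k : ℝ) ^ (4 / 3 : ℝ) ≤ (2 * (j + 3)) ^ 4 := by
    calc (k : ℝ) ^ (4 / 3 : ℝ) ≤ ((2 * (j + 3)) ^ 3 : ℝ) ^ (4 / 3 : ℝ) :=
          Real.rpow_le_rpow (by positivity) h1 (by norm_num)
      _ = (2 * (j + 3)) ^ 4 := by
          rw [← Real.rpow_natCast, ← Real.rpow_mul (by positivity), ← Real.rpow_natCast]
          norm_num
  have h3 : (k : ℝ) ≤ (j + 3) ^ 4 := by
    refine h1.trans ?_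
    have : (0 : ℝ) < (j + 3) ^ 3 := by positivity
    nlinarith
  have h4 : (1 : ℝ) ≤ k := by exact_mod_cast hk0
  calc (k : ℝ) ^ ((k : ℝ) ^ (4 / 3 : ℝ) / 128)
      ≤ ((j + 3 : ℝ) ^ 4) ^ ((k : ℝ) ^ (4 / 3 : ℝ) / 128) :=
        Real.rpow_le_rpow (by positivity) h3 (by positivity)
    _ = (j + 3 : ℝ) ^ ((4 : ℕ) * ((k : ℝ) ^ (4 / 3 : ℝ) / 128)) := by
        rw [Real.rpow_mul (by positivity), Real.rpow_natCast]
    _ ≤ (j + 3 : ℝ) ^ (((j * (j + 3) ^ 3 : ℕ)) : ℝ) := by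
        apply Real.rpow_le_rpow_of_exponent_le (by linarith)
        push_cast
        have : (0 : ℝ) < (j + 3) ^ 3 := by positivity
        nlinarith
    _ = _ := by rw [Real.rpow_natCast]; push_cast; ring

theorem bound_mono {a b : ℕ} (hab : a ≤ b) :
    (2 ^ a) ^ ((2 ^ a - 3) * 8 ^ a) ≤ (2 ^ b) ^ ((2 ^ b - 3) * 8 ^ b) := by
  have h1 : 2 ^ a ≤ 2 ^ b := Nat.pow_le_pow_right (by norm_num) hab
  have h2 : 8 ^ a ≤ 8 ^ b := Nat.pow_le_pow_right (by norm_num) hab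
  calc (2 ^ a) ^ ((2 ^ a - 3) * 8 ^ a) ≤ (2 ^ b) ^ ((2 ^ a - 3) * 8 ^ a) := Nat.pow_le_pow_left h1 _
    _ ≤ _ := Nat.pow_le_pow_right (by positivity) (Nat.mul_le_mul (by omega) h2)

end Pool.Agent.Lib.MP_595dc0_ag
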