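import Mathlib
import Pool.Agent.Lib.MP_595dc0_ag.Cheb

set_option autoImplicit false

namespace Pool.Agent.Lib.MP_595dc0_ag

theorem exists_coef {p : ℕ} (hp : p.Prime) {ω : ℂ} (hω : IsPrimitiveRoot ω p)
    (I J : Finset ℕ) (hI : ∀ i ∈ I, i < p) (hJ : ∀ j ∈ J, j < p) (hIJ : I.card = J.card)
    (φ : ℕ → ℂ) : ∃ l : ℕ → ℂ, ∀ j ∈ J, ∑ i ∈ I, l i * ω ^ (i * j) = φ j := by
  classical
  let f : (I → ℂ) →ₗ[ℂ] (J → ℂ) :=
    Matrix.mulVecLin (Matrix.of fun (j : J) (i : I) => ω ^ ((i : ℕ) * (j : ℕ)))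
  have hf : ∀ (x : I → ℂ) (j : ℕ) (hj : j ∈ J), f x ⟨j, hj⟩ =
      ∑ i ∈ I, (if h : i ∈ I then x ⟨i, h⟩ else 0) * ω ^ (i * j) := by
    intro x j hj
    rw [← Finset.sum_coe_sort I]
    simp only [f, Matrix.mulVecLin_apply, Matrix.mulVec, dotProduct, Matrix.of_apply]
    refine Finset.sum_congr rfl fun i _ => ?_
    rw [dif_pos i.2, mul_comm]
  have hinj : Function.Injective f := by
    rw [← LinearMap.ker_eq_bot, LinearMap.ker_eq_bot']
    intro x hx
    have := chebotarev hp hω I J hI hJ hIJ.le (fun i => if h : i ∈ I then x ⟨i, h⟩ else 0) (by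
      intro j hj
      rw [← hf x j hj, hx]; rfl)
    funext i
    have h1 := this i i.2
    simpa [i.2] using h1
  have hsurj : Function.Surjective f := by
    rw [← LinearMap.injective_iff_surjective_of_finrank_eq_finrank]
    · exact hinj
    · simp [hIJ]
  obtain ⟨x, hx⟩ := hsurj fun j => φ j
  exact ⟨fun i => if h : i ∈ I then x ⟨i, h⟩ else 0, fun j hj => by rw [← hf x j hj, hx]⟩

/-- A pencil of hyperplanes through `c` Fourier vectors in the space of functions on `S`. -/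
theorem pencil {p : ℕ} (hp : p.Prime) {ω : ℂ} (hω : IsPrimitiveRoot ω p)
    (S : Finset ℕ) (hS : ∀ e ∈ S, e < p) (h0 : 0 ∈ S) (c : ℕ) (hc : S.card = c + 2)
    (hcp : c + 2 ≤ p) :
    ∃ (I : Finset ℕ) (y₀ y₁ : ℕ → ℂ) (τ₀ : ℂ) (γ : ℕ → ℂ) (Θ : Finset ℂ),
      (∀ i ∈ I, i < p) ∧ I.card = c ∧ Θ.card + c + 1 = p ∧
      (∀ τ ∈ Θ, ∃ (m : ℕ) (l : ℕ → ℂ) (l₀ : ℂ), ∀ e ∈ S,
        y₀ e + τ * y₁ e = l₀ * ω ^ (m * e) + ∑ i ∈ I, l i * ω ^ (i * e)) ∧
      (∀ i ∈ I, ∑ e ∈ S, γ e * ω ^ (i * e) = 0) ∧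
      ∑ e ∈ S, γ e * (y₀ e + τ₀ * y₁ e) = 0 ∧
      (∀ m < p, m ∉ I → ∑ e ∈ S, γ e * ω ^ (m * e) ≠ 0) ∧ γ 0 ≠ 0 ∧
      ∀ (l : ℕ → ℂ) (l₀ : ℂ),
        (∀ e ∈ S, l₀ * (y₀ e + τ₀ * y₁ e) + ∑ i ∈ I, l i * ω ^ (i * e) = 0) →
        l₀ = 0 ∧ ∀ i ∈ I, l i = 0 := by
  classical
  have hI' : ∀ i ∈ Finset.range (c + 2), i < p := fun i hi =>
    lt_of_lt_of_le (Finset.mem_range.mp hi) hcp
  have hI : ∀ i ∈ Finset.range c, i < p := fun i hi => by
    have := Finset.mem_range.mp hi; omega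
  obtain ⟨γ₁, hγ₁⟩ := exists_coef hp hω S (Finset.range (c + 2)) hS hI' (by simp [hc])
    (fun j => if j = c + 1 then 1 else 0)
  obtain ⟨γ₂, hγ₂⟩ := exists_coef hp hω S (Finset.range (c + 2)) hS hI' (by simp [hc])
    (fun j => if j = c then 1 else 0)
  let P : ℕ → ℂ := fun m => ∑ e ∈ S, γ₁ e * ω ^ (e * m)
  let Q : ℕ → ℂ := fun m => ∑ e ∈ S, γ₂ e * ω ^ (e * m)
  have hP1 : P (c + 1) = 1 := by simpa using hγ₁ (c + 1) (by simp)
  have hP2 : P c = 0 := by simpa using hγ₁ c (by simp)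
  have hP3 : ∀ i < c, P i = 0 := fun i hi => by
    have := hγ₁ i (by simp; omega)
    rwa [if_neg (by omega)] at this
  have hQ1 : Q (c + 1) = 0 := by simpa using hγ₂ (c + 1) (by simp)
  have hQ2 : Q c = 1 := by simpa using hγ₂ c (by simp)
  have hQ3 : ∀ i < c, Q i = 0 := fun i hi => by
    have := hγ₂ i (by simp; omega)
    rwa [if_neg (by omega)] at this
  have hlin : ∀ (α β : ℂ) (m : ℕ),
      ∑ e ∈ S, (α * γ₁ e + β * γ₂ e) * ω ^ (e * m) = α * P m + β * Q m := by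
    intro α β m
    simp only [P, Q, Finset.mul_sum, ← Finset.sum_add_distrib]
    refine Finset.sum_congr rfl fun e _ => by ring
  have htwo : ∀ (α β : ℂ) (m m' : ℕ), m ≠ m' → c ≤ m → c ≤ m' → m < p → m' < p →
      α * P m + β * Q m = 0 → α * P m' + β * Q m' = 0 → α = 0 ∧ β = 0 := by
    intro α β m m' hmm h1 h2 h3 h4 h5 h6
    have h7 := chebotarev hp hω S (insert m (insert m' (Finset.range c))) hS (by
        intro j hj
        simp only [Finset.mem_insert, Finset.mem_range] at hj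
        omega) (by
        rw [Finset.card_insert_of_notMem (by simp; omega),
          Finset.card_insert_of_notMem (by simp; omega), Finset.card_range, hc])
      (fun e => α * γ₁ e + β * γ₂ e) (by
        intro j hj
        rw [hlin]
        simp only [Finset.mem_insert, Finset.mem_range] at hj
        rcases hj with rfl | rfl | hj
        · exact h5
        · exact h6
        · rw [hP3 j hj, hQ3 j hj]; simp)
    have h8 : ∀ m, α * P m + β * Q m = 0 := by
      intro m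
      rw [← hlin]
      exact Finset.sum_eq_zero fun e he => by rw [h7 e he, zero_mul]
    have h9 := h8 (c + 1)
    have h10 := h8 c
    rw [hP1, hQ1] at h9
    rw [hP2, hQ2] at h10
    exact ⟨by simpa using h9, by simpa using h10⟩
  have hPne : ∀ m, c < m → m < p → P m ≠ 0 := by
    intro m h1 h2 h3
    have := (htwo 1 0 m c (by omega) h1.le le_rfl h2 (by omega) (by simp [h3]) (by simp [hP2])).1
    exact one_ne_zero this
  have hγ0 : γ₁ 0 ≠ 0 := by
    intro h
    have h7 := chebotarev hp hω (S.erase 0) (Finset.range (c + 1))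
      (fun e he => hS e (Finset.mem_of_mem_erase he)) (by
        intro j hj
        have := Finset.mem_range.mp hj; omega) (by
        rw [Finset.card_erase_of_mem h0, hc, Finset.card_range]; omega) γ₁ (by
        intro j hj
        have h1 : P j = 0 := by
          have := Finset.mem_range.mp hj
          rcases Nat.lt_succ_iff_lt_or_eq.mp this with h2 | h2
          · exact hP3 j h2
          · rw [h2]; exact hP2
        rw [← h1]
        exact Finset.sum_erase S (by rw [h, zero_mul]))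
    have h8 : P (c + 1) = 0 := by
      refine Finset.sum_eq_zero fun e he => ?_
      by_cases h1 : e = 0
      · rw [h1, h, zero_mul]
      · rw [h7 e (Finset.mem_erase.mpr ⟨h1, he⟩), zero_mul]
    rw [hP1] at h8
    exact one_ne_zero h8
  let Θ : Finset ℂ := (Finset.Ioo c p).image fun m => Q m / P m
  have hΘ : Θ.card + c + 1 = p := by
    rw [Finset.card_image_of_injOn, Nat.card_Ioo]
    · omega
    · intro m hm m' hm' h
      by_contra hne
      simp only [Finset.coe_Ioo, Set.mem_Ioo] at hm hm'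
      have h1 := hPne m hm.1 hm.2
      have h2 := hPne m' hm'.1 hm'.2
      have := (htwo (-(Q m / P m)) 1 m m' hne hm.1.le hm'.1.le hm.2 hm'.2
        (by field_simp; ring) (by
          have h3 : Q m / P m = Q m' / P m' := h
          rw [h3]; field_simp; ring)).2
      exact one_ne_zero this
  obtain ⟨τ₀, hτ₀⟩ := Infinite.exists_notMem_finset (insert (γ₂ 0 / γ₁ 0) Θ)
  rw [Finset.mem_insert, not_or] at hτ₀
  have hcomm : ∀ (δ : ℕ → ℂ) (m : ℕ),
      ∑ e ∈ S, δ e * ω ^ (m * e) = ∑ e ∈ S, δ e * ω ^ (e * m) := by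
    intro δ m
    exact Finset.sum_congr rfl fun e _ => by rw [mul_comm m]
  have happ : ∀ (δ l : ℕ → ℂ) (T : Finset ℕ),
      ∑ e ∈ S, δ e * ∑ i ∈ T, l i * ω ^ (i * e) = ∑ i ∈ T, l i * ∑ e ∈ S, δ e * ω ^ (e * i) := by
    intro δ l T
    simp only [Finset.mul_sum]
    rw [Finset.sum_comm]
    refine Finset.sum_congr rfl fun i _ => Finset.sum_congr rfl fun e _ => ?_
    rw [mul_comm i]; ring
  refine ⟨Finset.range c, fun e => ω ^ ((c + 1) * e), fun e => ω ^ (c * e), τ₀,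
    fun e => (-τ₀) * γ₁ e + 1 * γ₂ e, Θ, hI, Finset.card_range c, hΘ, ?_, ?_, ?_, ?_, ?_, ?_⟩
  · intro τ hτ
    obtain ⟨m, hm, rfl⟩ := Finset.mem_image.mp hτ
    rw [Finset.mem_Ioo] at hm
    have h1 := hPne m hm.1 hm.2
    obtain ⟨l, hl⟩ := exists_coef hp hω (Finset.range (c + 2)) S hI' hS (by simp [hc])
      (fun e => ω ^ ((c + 1) * e) + Q m / P m * ω ^ (c * e) - (P m)⁻¹ * ω ^ (m * e))
    have h2 : ∀ δ : ℕ → ℂ, ∑ i ∈ Finset.range (c + 2), l i * ∑ e ∈ S, δ e * ω ^ (e * i) =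
        ∑ e ∈ S, δ e * ω ^ (e * (c + 1)) + Q m / P m * ∑ e ∈ S, δ e * ω ^ (e * c) -
          (P m)⁻¹ * ∑ e ∈ S, δ e * ω ^ (e * m) := by
      intro δ
      rw [← happ]
      simp only [Finset.mul_sum, ← Finset.sum_add_distrib, ← Finset.sum_sub_distrib]
      refine Finset.sum_congr rfl fun e he => ?_
      rw [← Finset.mul_sum, hl e he, mul_comm e, mul_comm e, mul_comm e]; ring
    have h3 := h2 γ₁
    have h4 := h2 γ₂
    change ∑ i ∈ Finset.range (c + 2), l i * P i = P (c + 1) + _ * P c - _ * P m at h3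
    change ∑ i ∈ Finset.range (c + 2), l i * Q i = Q (c + 1) + _ * Q c - _ * Q m at h4
    rw [Finset.sum_range_succ, Finset.sum_range_succ,
      Finset.sum_eq_zero (fun i hi => by rw [hP3 i (Finset.mem_range.mp hi), mul_zero]),
      hP1, hP2, inv_mul_cancel₀ h1] at h3
    rw [Finset.sum_range_succ, Finset.sum_range_succ,
      Finset.sum_eq_zero (fun i hi => by rw [hQ3 i (Finset.mem_range.mp hi), mul_zero]),
      hQ1, hQ2, div_eq_inv_mul] at h4
    have h5 : l (c + 1) = 0 := by simpa using h3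
    have h6 : l c = 0 := by simpa using h4
    refine ⟨m, l, (P m)⁻¹, fun e he => ?_⟩
    have h7 := hl e he
    rw [Finset.sum_range_succ, Finset.sum_range_succ, h5, h6] at h7
    simp only [zero_mul, add_zero] at h7
    rw [h7]; ring
  · intro i hi
    rw [hcomm, hlin, hP3 i (Finset.mem_range.mp hi), hQ3 i (Finset.mem_range.mp hi)]
    simp
  · have h1 := hlin (-τ₀) 1 (c + 1)
    have h2 := hlin (-τ₀) 1 c
    rw [← hcomm] at h1 h2
    rw [hP1, hQ1] at h1
    rw [hP2, hQ2] at h2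
    have h3 : ∑ e ∈ S, (-τ₀ * γ₁ e + 1 * γ₂ e) * (ω ^ ((c + 1) * e) + τ₀ * ω ^ (c * e)) =
        ∑ e ∈ S, (-τ₀ * γ₁ e + 1 * γ₂ e) * ω ^ ((c + 1) * e) +
          τ₀ * ∑ e ∈ S, (-τ₀ * γ₁ e + 1 * γ₂ e) * ω ^ (c * e) := by
      simp only [Finset.mul_sum, ← Finset.sum_add_distrib]
      refine Finset.sum_congr rfl fun e _ => by ring
    rw [h3, h1, h2]; ring
  · intro m hm hmI h
    rw [hcomm, hlin] at h
    rw [Finset.mem_range, not_lt] at hmI
    rcases hmI.eq_or_lt with h1 | h1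
    · rw [← h1, hP2, hQ2] at h
      simp at h
    · apply hτ₀.2
      refine Finset.mem_image.mpr ⟨m, Finset.mem_Ioo.mpr ⟨h1, hm⟩, ?_⟩
      have h2 := hPne m h1 hm
      field_simp
      linear_combination h
  · intro h
    apply hτ₀.1
    field_simp
    linear_combination -h
  · intro l l₀ h
    have h1 : ∑ e ∈ S, γ₁ e * (l₀ * (ω ^ ((c + 1) * e) + τ₀ * ω ^ (c * e)) +
        ∑ i ∈ Finset.range c, l i * ω ^ (i * e)) = 0 :=
      Finset.sum_eq_zero fun e he => by rw [h e he, mul_zero]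
    have h2 : ∑ e ∈ S, γ₁ e * (l₀ * (ω ^ ((c + 1) * e) + τ₀ * ω ^ (c * e)) +
        ∑ i ∈ Finset.range c, l i * ω ^ (i * e)) = l₀ * P (c + 1) + l₀ * τ₀ * P c +
          ∑ i ∈ Finset.range c, l i * P i := by
      rw [← happ]
      simp only [P, Finset.mul_sum S, ← Finset.sum_add_distrib]
      refine Finset.sum_congr rfl fun e _ => ?_
      rw [mul_comm e, mul_comm e]; ring
    rw [h2, hP1, hP2,
      Finset.sum_eq_zero (fun i hi => by rw [hP3 i (Finset.mem_range.mp hi), mul_zero])] at h1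
    have h3 : l₀ = 0 := by simpa using h1
    refine ⟨h3, chebotarev hp hω (Finset.range c) S hI hS (by simp [hc]) l fun e he => ?_⟩
    have := h e he
    rwa [h3, zero_mul, zero_add] at this

end Pool.Agent.Lib.MP_595dc0_ag
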