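import Mathlib
import Pool.Agent.Lib.MP_595dc0_ag.Border
import Pool.Agent.Lib.MP_595dc0_ag.Pencil
import Pool.Agent.Lib.MP_595dc0_ag.Chain

set_option autoImplicit false

namespace Pool.Agent.Lib.MP_595dc0_ag

open MvPolynomial

theorem exists_G {A B C : Type} [Fintype A] [Fintype B] [Fintype C] [DecidableEq C]
    (P : A × B × C → ℂ)
    (h : ∀ l : C → ℂ, (∀ ab : A × B, ∑ c, l c * P (ab.1, ab.2, c) = 0) → l = 0) :
    ∃ G : C → A × B → ℂ,
      ∀ c' c, ∑ ab, G c' ab * P (ab.1, ab.2, c) = if c' = c then 1 else 0 := by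
  classical
  let f : (C → ℂ) →ₗ[ℂ] (A × B → ℂ) :=
    Matrix.mulVecLin (Matrix.of fun (ab : A × B) (c : C) => P (ab.1, ab.2, c))
  have hf : LinearMap.ker f = ⊥ := by
    rw [LinearMap.ker_eq_bot']
    intro l hl
    apply h l
    intro ab
    have := congrFun hl ab
    simp only [f, Matrix.mulVecLin_apply, Matrix.mulVec, dotProduct, Matrix.of_apply,
      Pi.zero_apply] at this
    rw [← this]
    exact Finset.sum_congr rfl fun c _ => mul_comm _ _
  obtain ⟨g, hg⟩ := f.exists_leftInverse_of_injective hf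
  refine ⟨fun c' ab => g (fun j => if ab = j then 1 else 0) c', fun c' c => ?_⟩
  have h1 : g (f (Pi.single c 1)) = Pi.single c 1 := LinearMap.congr_fun hg _
  have h2 : f (Pi.single c 1) = fun ab => P (ab.1, ab.2, c) := by
    funext ab
    simp [f]
  rw [h2, LinearMap.pi_apply_eq_sum_univ] at h1
  have h3 := congrFun h1 c'
  simp only [Finset.sum_apply, Pi.smul_apply, smul_eq_mul] at h3
  rw [Pi.single_apply] at h3
  rw [← h3]
  exact Finset.sum_congr rfl fun ab _ => mul_comm _ _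

theorem sum_pos {X E κ : Type} [Fintype X] [DecidableEq X] [Field κ] (ρ : ℂ →+* κ)
    (T : Finset E) (w : E → ℂ) (pos : E → X) (f : X → κ) :
    ∑ x, ρ (∑ e ∈ T, if x = pos e then w e else 0) * f x = ∑ e ∈ T, ρ (w e) * f (pos e) := by
  simp only [map_sum, Finset.sum_mul]
  rw [Finset.sum_comm]
  refine Finset.sum_congr rfl fun e _ => ?_
  rw [Finset.sum_eq_single (pos e)]
  · simp
  · intro b _ hb; simp [hb]
  · simp

/-- Consequences of being killed by the annihilator of the slices. -/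
theorem ann_apply {X C E κ : Type} [Fintype X] [DecidableEq X] [Field κ] (ρ : ℂ →+* κ)
    (P : X → C → ℂ) (f : X → κ)
    (hf : ∀ l ∈ {l : X → ℂ | ∀ c, ∑ x, l x * P x c = 0}, ∑ x, ρ (l x) * f x = 0)
    (T : Finset E) (w : E → ℂ) (pos : E → X) (h : ∀ c, ∑ e ∈ T, w e * P (pos e) c = 0) :
    ∑ e ∈ T, ρ (w e) * f (pos e) = 0 := by
  rw [← sum_pos ρ T w pos f]
  apply hf
  intro c
  have := sum_pos (RingHom.id ℂ) T w pos (fun x => P x c)
  simp only [RingHom.id_apply] at this
  rw [this, h]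

theorem ann_zero {X C κ : Type} [Fintype X] [DecidableEq X] [Field κ] (ρ : ℂ →+* κ)
    (P : X → C → ℂ) (f : X → κ)
    (hf : ∀ l ∈ {l : X → ℂ | ∀ c, ∑ x, l x * P x c = 0}, ∑ x, ρ (l x) * f x = 0)
    (x : X) (h : ∀ c, P x c = 0) : f x = 0 := by
  have := ann_apply ρ P f hf (Finset.univ : Finset Unit) (fun _ => 1) (fun _ => x) (by simp [h])
  simpa using this

theorem ann_eq {X C κ : Type} [Fintype X] [DecidableEq X] [Field κ] (ρ : ℂ →+* κ)
    (P : X → C → ℂ) (f : X → κ)
    (hf : ∀ l ∈ {l : X → ℂ | ∀ c, ∑ x, l x * P x c = 0}, ∑ x, ρ (l x) * f x = 0)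
    (x y : X) (h : ∀ c, P x c = P y c) : f x = f y := by
  have := ann_apply ρ P f hf (Finset.univ : Finset Bool) (fun b => if b then 1 else -1)
    (fun b => if b then x else y) (by simp [h])
  simp only [Fintype.sum_bool, if_true, map_one, one_mul, Bool.false_eq_true, if_false, map_neg,
    neg_mul] at this
  exact sub_eq_zero.mp (by rw [← this]; ring)

section main

variable (p n r : ℕ)

/-- The row index set. -/
abbrev Row : Type := Fin (n + 2) ⊕ Fin r

/-- Hankel matrix of a function on residues, padded by zero. -/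
noncomputable def hk (φ : ℕ → ℂ) : Row n r → Row n r → ℂ
  | Sum.inl i, Sum.inl j => φ ((gch p i + gch p j) % p)
  | _, _ => 0

/-- The rank one points. -/
noncomputable def pt (ω : ℂ) : ℕ ⊕ Fin r → Row n r → ℂ
  | Sum.inl m, Sum.inl j => ω ^ (m * gch p j)
  | Sum.inl _, Sum.inr _ => 0
  | Sum.inr t, a => if a = Sum.inr t then 1 else 0

/-- The tensor with slices `y`, the Fourier vectors indexed by `I`, and the padding. -/
noncomputable def ten (ω : ℂ) (I : Finset ℕ) (y : ℕ → ℂ) :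
    Row n r × Row n r × (Option I ⊕ Fin r) → ℂ
  | (a, b, Sum.inl none) => hk p n r y a b
  | (a, b, Sum.inl (some i)) => hk p n r (fun e => ω ^ ((i : ℕ) * e)) a b
  | (a, b, Sum.inr t) => pt p n r ω (Sum.inr t) a * pt p n r ω (Sum.inr t) b

variable {p n r}

theorem pow_mod_mul {κ : Type} [Field κ] {ζ : κ} (h : ζ ^ p = 1) (m e : ℕ) :
    ζ ^ (m * (e % p)) = ζ ^ (m * e) := by
  conv_rhs => rw [← Nat.mod_add_div e p, mul_add, pow_add, mul_left_comm, pow_mul ζ p, h, one_pow,
    mul_one]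

theorem hk_pt {ω : ℂ} (h : ω ^ p = 1) (m : ℕ) (a b : Row n r) :
    hk p n r (fun e => ω ^ (m * e)) a b =
      pt p n r ω (Sum.inl m) a * pt p n r ω (Sum.inl m) b := by
  rcases a with i | t <;> rcases b with j | t' <;> simp [hk, pt]
  rw [pow_mod_mul h, mul_add, pow_add]

theorem mem_sumSet (i j : Fin (n + 2)) : (gch p i + gch p j) % p ∈ sumSet p n :=
  Finset.mem_image.mpr ⟨(i, j), Finset.mem_univ _, rfl⟩

theorem ten_mem {ω : ℂ} (h : ω ^ p = 1) (I : Finset ℕ) (y : ℕ → ℂ) (m : ℕ) (l : ℕ → ℂ) (l₀ : ℂ)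
    (hy : ∀ e ∈ sumSet p n, y e = l₀ * ω ^ (m * e) + ∑ i ∈ I, l i * ω ^ (i * e)) :
    ten p n r ω I y ∈ R3 (Row n r) (Row n r) (Option I ⊕ Fin r) := by
  classical
  let ind : Option I ⊕ Fin r → ℕ ⊕ Fin r := Sum.map (fun o => Option.elim o m (fun i => i)) id
  let z : Option I ⊕ Fin r → Option I ⊕ Fin r → ℂ := fun j c =>
    match c with
    | Sum.inl none => (match j with
      | Sum.inl none => l₀
      | Sum.inl (some i) => l i
      | Sum.inr _ => 0)
    | c => if j = c then 1 else 0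
  refine ⟨fun j => pt p n r ω (ind j), fun j => pt p n r ω (ind j), z, ?_⟩
  rintro ⟨a, b, (_ | i) | t⟩
  · simp only [ten, Fintype.sum_sum_type, Fintype.sum_option, ind, z, Sum.map_inl, Option.elim,
      mul_zero, Finset.sum_const_zero, add_zero, ← hk_pt h]
    rcases a with i | t <;> rcases b with j | t' <;> simp only [hk, zero_mul,
      Finset.sum_const_zero, add_zero]
    rw [hy _ (mem_sumSet i j), ← Finset.sum_coe_sort I, mul_comm l₀]
    congr 1
    exact Finset.sum_congr rfl fun x _ => mul_comm _ _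
  · simp only [ten, z, mul_ite, mul_one, mul_zero, Finset.sum_ite_eq', Finset.mem_univ, if_true,
      ind, Sum.map_inl, Option.elim, hk_pt h]
  · simp only [ten, z, mul_ite, mul_one, mul_zero, Finset.sum_ite_eq', Finset.mem_univ, if_true,
      ind, Sum.map_inr, id]

theorem ten_line (ω : ℂ) (I : Finset ℕ) (y₀ y₁ : ℕ → ℂ) :
    ∃ T₁ : Row n r × Row n r × (Option I ⊕ Fin r) → ℂ, ∀ τ : ℂ,
      ten p n r ω I (fun e => y₀ e + τ * y₁ e) = fun x => ten p n r ω I y₀ x + τ * T₁ x := by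
  refine ⟨fun x => match x with
    | (a, b, Sum.inl none) => hk p n r y₁ a b
    | _ => 0, fun τ => ?_⟩
  funext x
  rcases x with ⟨a, b, (_ | i) | t⟩
  · rcases a with i | t <;> rcases b with j | t' <;> simp [ten, hk]
  · simp [ten]
  · simp [ten]

end main

end Pool.Agent.Lib.MP_595dc0_ag
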