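import Mathlib
import Pool.Agent.Lib.MP_595dc0_ag.Hankel

set_option autoImplicit false

namespace Pool.Agent.Lib.MP_595dc0_ag

open MvPolynomial

variable {p n r : ℕ}

theorem ten_zero (ω : ℂ) (I : Finset ℕ) (y : ℕ → ℂ) (c : Option I ⊕ Fin r) :
    (∀ i t, ten p n r ω I y (Sum.inl i, Sum.inr t, c) = 0) ∧
    (∀ i t, ten p n r ω I y (Sum.inr t, Sum.inl i, c) = 0) ∧
    (∀ t t', t ≠ t' → ten p n r ω I y (Sum.inr t, Sum.inr t', c) = 0) := by
  refine ⟨fun i t => ?_, fun i t => ?_, fun t t' h => ?_⟩
  · rcases c with (_ | c) | c <;> simp [ten, hk, pt]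
  · rcases c with (_ | c) | c <;> simp [ten, hk, pt]
  · rcases c with (_ | c) | c <;> simp [ten, hk, pt]
    rintro rfl rfl
    exact h rfl

theorem ten_hk (ω : ℂ) (I : Finset ℕ) (y : ℕ → ℂ) (c : Option I ⊕ Fin r)
    (i j i' j' : Fin (n + 2)) (h : (gch p i + gch p j) % p = (gch p i' + gch p j') % p) :
    ten p n r ω I y (Sum.inl i, Sum.inl j, c) = ten p n r ω I y (Sum.inl i', Sum.inl j', c) := by
  rcases c with (_ | c) | c <;> simp [ten, hk, pt, h]

theorem exists_rep (p n : ℕ) : ∃ rep : ℕ → Fin (n + 2) × Fin (n + 2),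
    ∀ e ∈ sumSet p n, (gch p (rep e).1 + gch p (rep e).2) % p = e := by
  classical
  refine ⟨fun e => if h : e ∈ sumSet p n then (Finset.mem_image.mp h).choose else (0, 0),
    fun e he => ?_⟩
  simp only [dif_pos he]
  exact (Finset.mem_image.mp he).choose_spec.2

/-- Extension of a vector by zero. -/
def ext0 {κ : Type} [Zero κ] (u : Fin (n + 2) → κ) (j : ℕ) : κ :=
  if h : j < n + 2 then u ⟨j, h⟩ else 0

theorem ext0_val {κ : Type} [Zero κ] (u : Fin (n + 2) → κ) (j : Fin (n + 2)) :
    ext0 u j = u j := by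
  simp [ext0]

theorem ext0_rel {κ : Type} [Zero κ] (u : Fin (n + 2) → κ) (R : κ → κ → κ → κ → Prop)
    (h : ∀ i j i' j' : Fin (n + 2), (gch p i + gch p j) % p = (gch p i' + gch p j') % p →
      R (u i) (u j) (u i') (u j')) :
    ∀ i j i' j', i ≤ n + 1 → j ≤ n + 1 → i' ≤ n + 1 → j' ≤ n + 1 →
      (gch p i + gch p j) % p = (gch p i' + gch p j') % p →
      R (ext0 u i) (ext0 u j) (ext0 u i') (ext0 u j') := by
  intro i j i' j' hi hj hi' hj' hs
  have := h ⟨i, by omega⟩ ⟨j, by omega⟩ ⟨i', by omega⟩ ⟨j', by omega⟩ hs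
  rwa [← ext0_val u, ← ext0_val u ⟨j, _⟩, ← ext0_val u ⟨i', _⟩, ← ext0_val u ⟨j', _⟩] at this

theorem ten_not_mem (hp : p.Prime) (h1 : 2 ^ n < p) (h2 : p ≤ 2 ^ (n + 1)) (hodd : p % 2 = 1)
    {ω : ℂ} (hω : IsPrimitiveRoot ω p) (I : Finset ℕ) (y γ : ℕ → ℂ)
    (hγI : ∀ i ∈ I, ∑ e ∈ sumSet p n, γ e * ω ^ (i * e) = 0)
    (hγy : ∑ e ∈ sumSet p n, γ e * y e = 0)
    (hγm : ∀ m < p, m ∉ I → ∑ e ∈ sumSet p n, γ e * ω ^ (m * e) ≠ 0) (hγ0 : γ 0 ≠ 0)
    (hind : ∀ (l : ℕ → ℂ) (l₀ : ℂ),
      (∀ e ∈ sumSet p n, l₀ * y e + ∑ i ∈ I, l i * ω ^ (i * e) = 0) →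
        l₀ = 0 ∧ ∀ i ∈ I, l i = 0) :
    ten p n r ω I y ∉
      zeroLocus ℂ (vanishingIdeal ℂ (R3 (Row n r) (Row n r) (Option I ⊕ Fin r))) := by
  classical
  have : NeZero p := ⟨hp.ne_zero⟩
  obtain ⟨rep, hrep⟩ := exists_rep p n
  obtain ⟨G, hG⟩ := exists_G (ten p n r ω I y) (by
    intro l hl
    have h3 := hind (fun i => if h : i ∈ I then l (Sum.inl (some ⟨i, h⟩)) else 0)
      (l (Sum.inl none)) (by
        intro e he
        have := hl (Sum.inl (rep e).1, Sum.inl (rep e).2)
        simp only [Fintype.sum_sum_type, Fintype.sum_option, ten, hk, pt, hrep e he] at this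
        rw [← this, ← Finset.sum_coe_sort I]
        simp)
    funext c
    rcases c with (_ | c) | t
    · exact h3.1
    · have := h3.2 c c.2
      simpa [c.2] using this
    · have := hl (Sum.inr t, Sum.inr t)
      simp only [Fintype.sum_sum_type, Fintype.sum_option, ten, hk, pt] at this
      simpa using this)
  let P : Row n r × Row n r → Option I ⊕ Fin r → ℂ :=
    fun ab c => ten p n r ω I y (ab.1, ab.2, c)
  let μ : I ⊕ Fin r → Row n r → ℂ := fun q => pt p n r ω (Sum.map Subtype.val id q)
  let a₀ : I ⊕ Fin r → Row n r := Sum.elim (fun _ => Sum.inl 0) fun t => Sum.inr t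
  have hμ : ∀ q, μ q (a₀ q) = 1 := by
    rintro (i | t)
    · simp only [μ, a₀, pt, Sum.map_inl, Sum.elim_inl, Fin.val_zero, gch]
      rw [mul_comm, pow_mul, hω.pow_eq_one, one_pow]
    · simp [μ, a₀, pt]
  have hΓ : ∀ c, ∑ e ∈ sumSet p n, γ e * P (Sum.inl (rep e).1, Sum.inl (rep e).2) c = 0 := by
    rintro ((_ | c) | t)
    · rw [← hγy]
      refine Finset.sum_congr rfl fun e he => ?_
      simp only [P, ten, hk, hrep e he]
    · rw [← hγI c c.2]
      refine Finset.sum_congr rfl fun e he => ?_
      simp only [P, ten, hk, hrep e he]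
    · simp [P, ten, pt]
  refine not_mem_closure (Q := I ⊕ Fin r) (ten p n r ω I y) G hG
    {l | ∀ c, ∑ x, l x * P x c = 0} (fun l hl => hl) (by simp) μ μ a₀ a₀ hμ hμ ?_ ?_
  · intro κ _ ρ u v hu hv hl
    have Z1 : ∀ i t, u (Sum.inl i) * v (Sum.inr t) = 0 := fun i t =>
      ann_zero ρ P (fun ab => u ab.1 * v ab.2) hl (Sum.inl i, Sum.inr t)
        fun c => (ten_zero ω I y c).1 i t
    have Z2 : ∀ i t, u (Sum.inr t) * v (Sum.inl i) = 0 := fun i t =>
      ann_zero ρ P (fun ab => u ab.1 * v ab.2) hl (Sum.inr t, Sum.inl i)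
        fun c => (ten_zero ω I y c).2.1 i t
    have Z3 : ∀ t t', t ≠ t' → u (Sum.inr t) * v (Sum.inr t') = 0 := fun t t' h =>
      ann_zero ρ P (fun ab => u ab.1 * v ab.2) hl (Sum.inr t, Sum.inr t')
        fun c => (ten_zero ω I y c).2.2 t t' h
    have Hk : ∀ i j i' j' : Fin (n + 2), (gch p i + gch p j) % p = (gch p i' + gch p j') % p →
        u (Sum.inl i) * v (Sum.inl j) = u (Sum.inl i') * v (Sum.inl j') := fun i j i' j' h =>
      ann_eq ρ P (fun ab => u ab.1 * v ab.2) hl (Sum.inl i, Sum.inl j) (Sum.inl i', Sum.inl j')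
        fun c => ten_hk ω I y c i j i' j' h
    have Γ := ann_apply ρ P (fun ab => u ab.1 * v ab.2) hl (sumSet p n) γ
      (fun e => (Sum.inl (rep e).1, Sum.inl (rep e).2)) hΓ
    by_cases hc : ∃ t, u (Sum.inr t) ≠ 0
    · obtain ⟨t, ht⟩ := hc
      have v1 : ∀ i, v (Sum.inl i) = 0 := fun i => (mul_eq_zero.mp (Z2 i t)).resolve_left ht
      have v2 : ∀ t', t ≠ t' → v (Sum.inr t') = 0 := fun t' h =>
        (mul_eq_zero.mp (Z3 t t' h)).resolve_left ht
      have v3 : v (Sum.inr t) ≠ 0 := by
        intro h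
        apply hv
        funext b
        rcases b with i | t'
        · exact v1 i
        · by_cases h' : t = t'
          · rw [← h']; exact h
          · exact v2 t' h'
      have u1 : ∀ i, u (Sum.inl i) = 0 := fun i => (mul_eq_zero.mp (Z1 i t)).resolve_right v3
      have u2 : ∀ t', t' ≠ t → u (Sum.inr t') = 0 := fun t' h =>
        (mul_eq_zero.mp (Z3 t' t h)).resolve_right v3
      refine ⟨Sum.inr t, u (Sum.inr t), v (Sum.inr t), ?_, ?_⟩
      · rintro (i | t')
        · simp [μ, pt, u1]
        · by_cases h' : t' = t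
          · simp [μ, pt, h']
          · simp [μ, pt, h', u2 t' h']
      · rintro (i | t')
        · simp [μ, pt, v1]
        · by_cases h' : t' = t
          · simp [μ, pt, h']
          · simp [μ, pt, h', v2 t' (Ne.symm h')]
    · push Not at hc
      obtain ⟨i₀, hi₀⟩ : ∃ i, u (Sum.inl i) ≠ 0 := by
        by_contra h
        push Not at h
        apply hu
        funext a
        rcases a with i | t
        · exact h i
        · exact hc t
      have v1 : ∀ t, v (Sum.inr t) = 0 := fun t => (mul_eq_zero.mp (Z1 i₀ t)).resolve_left hi₀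
      set s := v (Sum.inl i₀) / u (Sum.inl i₀) with hs
      have v2 : ∀ j, v (Sum.inl j) = s * u (Sum.inl j) := by
        intro j
        have := Hk i₀ j j i₀ (by rw [add_comm])
        rw [hs]; field_simp
        linear_combination this
      have hs0 : s ≠ 0 := by
        intro h
        apply hv
        funext b
        rcases b with j | t
        · rw [v2, h, zero_mul]; rfl
        · exact v1 t
      obtain ⟨h0, h3⟩ := core1 h1 h2 hodd (ext0 fun i => u (Sum.inl i))
        (ext0_rel (fun i => u (Sum.inl i)) (fun a b c d => a * b = c * d) (by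
          intro i j i' j' h
          have := Hk i j i' j' h
          rw [v2, v2] at this
          apply mul_left_cancel₀ hs0
          linear_combination this))
        ⟨i₀, by have := i₀.2; omega, by rwa [ext0_val]⟩
      have e0 : ext0 (fun i => u (Sum.inl i)) 0 = u (Sum.inl 0) :=
        ext0_val (fun i => u (Sum.inl i)) 0
      rw [e0] at h0 h3
      rcases h3 with ⟨ζ, hζ, h3⟩ | h3
      · have h4 : ∀ j : Fin (n + 2), u (Sum.inl j) = u (Sum.inl 0) * ζ ^ gch p j := by
          intro j
          have := h3 j (by have := j.2; omega)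
          rwa [ext0_val] at this
        obtain ⟨m, hm, rfl⟩ := (hω.map_of_injective ρ.injective).eq_pow_of_pow_eq_one hζ
        have hρ : ρ ω ^ p = 1 := (hω.map_of_injective ρ.injective).pow_eq_one
        have hmI : m ∈ I := by
          by_contra hmI
          apply hγm m hm hmI
          apply ρ.injective
          rw [map_zero]
          apply mul_left_cancel₀ (mul_ne_zero hs0 (mul_ne_zero h0 h0))
          rw [mul_zero, ← Γ, map_sum, Finset.mul_sum]
          refine Finset.sum_congr rfl fun e he => ?_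
          simp only
          rw [v2, h4 (rep e).1, h4 (rep e).2, map_mul, map_pow]
          conv_lhs => rw [← hrep e he, pow_mod_mul hρ]
          rw [hrep e he]
          ring
        refine ⟨Sum.inl ⟨m, hmI⟩, u (Sum.inl 0), s * u (Sum.inl 0), ?_, ?_⟩
        · rintro (i | t)
          · rw [h4 i]; simp [μ, pt, pow_mul]
          · simp [μ, pt, hc]
        · rintro (i | t)
          · rw [v2, h4 i]; simp [μ, pt, pow_mul, mul_assoc]
          · simp [μ, pt, v1]
      · exfalso
        have h4 : ∀ j : Fin (n + 2), j ≠ 0 → u (Sum.inl j) = 0 := by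
          intro j hj
          have := h3 j (Nat.one_le_iff_ne_zero.mpr fun h => hj (Fin.ext h))
            (by have := j.2; omega)
          rwa [ext0_val] at this
        have h5 : (gch p (0 : Fin (n + 2)) + gch p (0 : Fin (n + 2))) % p = 0 := by simp [gch]
        have h6 : 0 ∈ sumSet p n := by
          have := mem_sumSet (p := p) (0 : Fin (n + 2)) 0
          rwa [h5] at this
        rw [Finset.sum_eq_single 0] at Γ
        · simp only at Γ
          rw [Hk _ _ 0 0 (by rw [hrep 0 h6, h5]), v2] at Γ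
          exact mul_ne_zero ((map_ne_zero ρ).mpr hγ0) (mul_ne_zero h0 (mul_ne_zero hs0 h0)) Γ
        · intro e he he0
          simp only
          by_cases h7 : (rep e).1 = 0
          · by_cases h8 : (rep e).2 = 0
            · exfalso
              apply he0
              rw [← hrep e he, h7, h8, h5]
            · rw [v2, h4 _ h8]; simp
          · rw [h4 _ h7]; simp
        · intro h; exact absurd h6 h
  · intro κ _ ρ q α β hα hβ hl
    let f : Row n r × Row n r → κ := fun ab => α ab.1 * ρ (μ q ab.2) + ρ (μ q ab.1) * β ab.2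
    have Z1 : ∀ i t, f (Sum.inl i, Sum.inr t) = 0 := fun i t =>
      ann_zero ρ P f hl (Sum.inl i, Sum.inr t) fun c => (ten_zero ω I y c).1 i t
    have Z2 : ∀ i t, f (Sum.inr t, Sum.inl i) = 0 := fun i t =>
      ann_zero ρ P f hl (Sum.inr t, Sum.inl i) fun c => (ten_zero ω I y c).2.1 i t
    have Z3 : ∀ t t', t ≠ t' → f (Sum.inr t, Sum.inr t') = 0 := fun t t' h =>
      ann_zero ρ P f hl (Sum.inr t, Sum.inr t') fun c => (ten_zero ω I y c).2.2 t t' h
    have Hk : ∀ i j i' j' : Fin (n + 2), (gch p i + gch p j) % p = (gch p i' + gch p j') % p →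
        f (Sum.inl i, Sum.inl j) = f (Sum.inl i', Sum.inl j') := fun i j i' j' h =>
      ann_eq ρ P f hl (Sum.inl i, Sum.inl j) (Sum.inl i', Sum.inl j')
        fun c => ten_hk ω I y c i j i' j' h
    have F1 : ∀ a, f (a, a₀ q) = α a := by
      intro a
      simp only [f, hμ, hβ, map_one, mul_one, mul_zero, add_zero]
    have F2 : ∀ b, f (a₀ q, b) = β b := by
      intro b
      simp only [f, hμ, hα, map_one, one_mul, zero_mul, zero_add]
    rcases q with m | t
    · have hab : ∀ i, α (Sum.inl i) = β (Sum.inl i) := by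
        intro i
        rw [← F1, ← F2]
        exact Hk i 0 0 i (by rw [add_comm])
      have hρ : ρ ω ^ p = 1 := (hω.map_of_injective ρ.injective).pow_eq_one
      have hρ0 : ρ ω ≠ 0 := (hω.map_of_injective ρ.injective).ne_zero hp.ne_zero
      have hf : ∀ i j : Fin (n + 2), f (Sum.inl i, Sum.inl j) =
          ρ ω ^ ((m : ℕ) * ((gch p i + gch p j) % p)) *
            (α (Sum.inl i) / ρ ω ^ ((m : ℕ) * gch p i) +
              α (Sum.inl j) / ρ ω ^ ((m : ℕ) * gch p j)) := by
        intro i j
        rw [pow_mod_mul hρ, mul_add (m : ℕ), pow_add]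
        simp only [f, μ, pt, Sum.map_inl, map_pow, ← hab]
        field_simp
      have h3 := core2 h1 h2 (κ := κ) (by
          rw [← map_natCast ρ]
          exact (map_ne_zero ρ).mpr (Nat.cast_ne_zero.mpr hp.ne_zero))
        (ext0 fun i => α (Sum.inl i) / ρ ω ^ ((m : ℕ) * gch p i))
        (ext0_rel (fun i => α (Sum.inl i) / ρ ω ^ ((m : ℕ) * gch p i))
          (fun a b c d => a + b = c + d) (by
            intro i j i' j' h
            have := Hk i j i' j' h
            rw [hf, hf, h] at this
            exact mul_left_cancel₀ (pow_ne_zero _ hρ0) this))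
        (by
          have := ext0_val (fun i => α (Sum.inl i) / ρ ω ^ ((m : ℕ) * gch p i)) (0 : Fin (n + 2))
          rw [Fin.val_zero] at this
          rw [this]
          have h4 : α (Sum.inl 0) = 0 := hα
          rw [h4, zero_div])
      have h5 : ∀ i, α (Sum.inl i) = 0 := by
        intro i
        have := h3 i (by have := i.2; omega)
        rw [ext0_val] at this
        exact (div_eq_zero_iff.mp this).resolve_right (pow_ne_zero _ hρ0)
      constructor
      · funext a
        rcases a with i | t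
        · exact h5 i
        · rw [← F1]; exact Z2 0 t
      · funext a
        rcases a with i | t
        · rw [← hab]; exact h5 i
        · rw [← F2]; exact Z1 0 t
    · constructor
      · funext a
        rcases a with i | t'
        · rw [← F1]; exact Z1 i t
        · by_cases h : t' = t
          · rw [h]; exact hα
          · rw [← F1]; exact Z3 t' t h
      · funext a
        rcases a with i | t'
        · rw [← F2]; exact Z2 i t
        · by_cases h : t' = t
          · rw [h]; exact hβ
          · rw [← F2]; exact Z3 t t' (Ne.symm h)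

end Pool.Agent.Lib.MP_595dc0_ag
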