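import Mathlib
import Pool.Agent.Lib.MP_595dc0_ag.Defs
import Pool.Agent.Lib.MP_595dc0_ag.NotMem

set_option autoImplicit false

namespace Pool.Agent.Lib.MP_595dc0_ag

open MvPolynomial

theorem line_vanish {σ : Type} (f : MvPolynomial σ ℂ) (d : ℕ) (hf : f.totalDegree ≤ d)
    (T₀ T₁ : σ → ℂ) (Θ : Finset ℂ) (hΘ : d < Θ.card)
    (h : ∀ τ ∈ Θ, aeval (fun x => T₀ x + τ * T₁ x) f = 0) (τ : ℂ) :
    aeval (fun x => T₀ x + τ * T₁ x) f = 0 := by
  let L : σ → Polynomial ℂ := fun x => Polynomial.C (T₀ x) + Polynomial.C (T₁ x) * Polynomial.X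
  have hev : ∀ t : ℂ, (aeval L f).eval t = aeval (fun x => T₀ x + t * T₁ x) f := by
    intro t
    have := MvPolynomial.comp_aeval_apply L (Polynomial.aeval t : Polynomial ℂ →ₐ[ℂ] ℂ) f
    have h1 : (fun i => (Polynomial.aeval t : Polynomial ℂ →ₐ[ℂ] ℂ) (L i)) =
        fun x => T₀ x + t * T₁ x := by
      funext x
      simp only [L, map_add, map_mul, Polynomial.aeval_C, Polynomial.aeval_X,
        Algebra.algebraMap_self, RingHom.id_apply]
      ring
    rw [h1, Polynomial.coe_aeval_eq_eval] at this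
    exact this
  have hdeg : (aeval L f).natDegree ≤ d * 1 := by
    refine MvPolynomial.aeval_natDegree_le f hf L fun x => ?_
    simp only [L]
    compute_degree
  have h0 : aeval L f = 0 :=
    Polynomial.eq_zero_of_natDegree_lt_card_of_eval_eq_zero' _ Θ
      (fun t ht => by rw [hev, h t ht]) (by omega)
  rw [← hev, h0, Polynomial.eval_zero]

section transport

variable {A B C : Type} [Fintype C] {w : Fin 3 → ℕ} {k : ℕ}

/-- Identification of coordinates. -/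
def toTriple (eA : Fin (w 0) ≃ A) (eB : Fin (w 1) ≃ B) (eC : Fin (w 2) ≃ C) (x : Idx w) :
    A × B × C := (eA (x 0), eB (x 1), eC (x 2))

/-- The inverse identification of coordinates. -/
def ofTriple (eA : Fin (w 0) ≃ A) (eB : Fin (w 1) ≃ B) (eC : Fin (w 2) ≃ C) (y : A × B × C) :
    Idx w
  | 0 => eA.symm y.1
  | 1 => eB.symm y.2.1
  | 2 => eC.symm y.2.2

omit [Fintype C] in
theorem toTriple_ofTriple (eA : Fin (w 0) ≃ A) (eB : Fin (w 1) ≃ B) (eC : Fin (w 2) ≃ C)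
    (y : A × B × C) : toTriple eA eB eC (ofTriple eA eB eC y) = y := by
  simp [toTriple, ofTriple]

theorem rankLE_of_R3 (eA : Fin (w 0) ≃ A) (eB : Fin (w 1) ≃ B) (eC : Fin (w 2) ≃ C)
    (ek : Fin k ≃ C) (T : A × B × C → ℂ) (hT : T ∈ R3 A B C) :
    (fun x => T (toTriple eA eB eC x)) ∈ rankLE w k := by
  obtain ⟨u, v, z, h⟩ := hT
  refine ⟨fun j x => u (ek j) (eA (x 0)) * v (ek j) (eB (x 1)) * z (ek j) (eC (x 2)),
    fun j => ⟨fun i => match i with
      | 0 => fun a => u (ek j) (eA a)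
      | 1 => fun b => v (ek j) (eB b)
      | 2 => fun c => z (ek j) (eC c), fun x => ?_⟩, ?_⟩
  · rw [Fin.prod_univ_three]
  · funext x
    rw [h, Finset.sum_apply, ← ek.sum_comp]
    rfl

theorem R3_of_rankLE (eA : Fin (w 0) ≃ A) (eB : Fin (w 1) ≃ B) (eC : Fin (w 2) ≃ C)
    (ek : Fin k ≃ C) (T : Idx w → ℂ) (hT : T ∈ rankLE w k) :
    (fun y => T (ofTriple eA eB eC y)) ∈ R3 A B C := by
  obtain ⟨D, hD, rfl⟩ := hT
  choose v hv using hD
  refine ⟨fun j a => v (ek.symm j) 0 (eA.symm a), fun j b => v (ek.symm j) 1 (eB.symm b),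
    fun j c => v (ek.symm j) 2 (eC.symm c), fun y => ?_⟩
  beta_reduce
  rw [Finset.sum_apply, ← ek.symm.sum_comp]
  refine Finset.sum_congr rfl fun j _ => ?_
  rw [hv, Fin.prod_univ_three]
  rfl

theorem not_mem_secantCone (eA : Fin (w 0) ≃ A) (eB : Fin (w 1) ≃ B) (eC : Fin (w 2) ≃ C)
    (ek : Fin k ≃ C) (T : A × B × C → ℂ)
    (hT : T ∉ zeroLocus ℂ (vanishingIdeal ℂ (R3 A B C))) :
    (fun x => T (toTriple eA eB eC x)) ∉ secantCone w k := by
  intro h
  apply hT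
  intro f hf
  have h1 : rename (ofTriple eA eB eC) f ∈ secantIdeal w k := by
    intro S hS
    rw [aeval_rename]
    exact hf _ (R3_of_rankLE eA eB eC ek S hS)
  have h2 := h _ h1
  rw [aeval_rename] at h2
  rw [← h2]
  congr 2
  funext y
  simp [toTriple_ofTriple]

end transport

theorem main (k n d : ℕ) (hn : 1 ≤ n) (hk : (n + 1) * (n + 2) / 2 ≤ k)
    (hd : d + (n + 1) * (n + 2) / 2 ≤ 2 ^ n) :
    ∃ w : Fin 3 → ℕ, (∀ i, 0 < w i) ∧ (∀ i, w i ≤ k + n + 2) ∧ ∃ T, T ∉ secantCone w k ∧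
      ∀ f ∈ secantIdeal w k, f.totalDegree ≤ d → aeval T f = 0 := by
  classical
  obtain ⟨p, hp, h1, h2⟩ := Nat.exists_prime_lt_and_le_two_mul (2 ^ n) (by positivity)
  rw [← pow_succ'] at h2
  have h2n : 2 ≤ 2 ^ n := by
    calc 2 = 2 ^ 1 := rfl
      _ ≤ 2 ^ n := Nat.pow_le_pow_right (by norm_num) hn
  have hodd : p % 2 = 1 := by
    rcases hp.eq_two_or_odd with h | h
    · omega
    · exact h
  have hω := Complex.isPrimitiveRoot_exp p hp.ne_zero
  set ω := Complex.exp (2 * Real.pi * Complex.I / p)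
  have hS : ∀ e ∈ sumSet p n, e < p := by
    intro e he
    obtain ⟨x, -, rfl⟩ := Finset.mem_image.mp he
    exact Nat.mod_lt _ hp.pos
  have h0 : 0 ∈ sumSet p n := by
    have := mem_sumSet (p := p) (0 : Fin (n + 2)) 0
    simpa [gch] using this
  have h1' : 1 ∈ sumSet p n := by
    have := mem_sumSet (p := p) (0 : Fin (n + 2)) (Fin.last (n + 1))
    rw [Fin.val_last, (gch_top h1 h2).2] at this
    simp only [Fin.val_zero, gch, Nat.add_mod_left] at this
    rwa [Nat.mod_eq_of_lt hp.one_lt] at this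
  have hcard := card_sumSet h1 h2 hodd
  have h2c : 2 ≤ (sumSet p n).card :=
    Finset.one_lt_card.mpr ⟨0, h0, 1, h1', by norm_num⟩
  obtain ⟨c, hc⟩ : ∃ c, (sumSet p n).card = c + 2 := ⟨(sumSet p n).card - 2, by omega⟩
  obtain ⟨I, y₀, y₁, τ₀, γ, Θ, -, hI, hΘ, hmem, hγI, hγy, hγm, hγ0, hind⟩ :=
    pencil hp hω (sumSet p n) hS h0 c hc (by omega)
  set r := k - (c + 1) with hr
  have hC : Fintype.card (Option I ⊕ Fin r) = k := by
    simp only [Fintype.card_sum, Fintype.card_option, Fintype.card_coe, Fintype.card_fin, hI]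
    omega
  have hA : Fintype.card (Row n r) = n + 2 + r := by simp
  let w : Fin 3 → ℕ := ![n + 2 + r, n + 2 + r, k]
  let eA : Fin (n + 2 + r) ≃ Row n r := (Fintype.equivFinOfCardEq hA).symm
  let eC : Fin k ≃ Option I ⊕ Fin r := (Fintype.equivFinOfCardEq hC).symm
  obtain ⟨T₁, hT₁⟩ := ten_line (p := p) (n := n) (r := r) ω I y₀ y₁
  refine ⟨w, ?_, ?_, fun x => ten p n r ω I (fun e => y₀ e + τ₀ * y₁ e)
    (toTriple (w := w) eA eA eC x), ?_, ?_⟩
  · intro i
    fin_cases i <;> simp [w] <;> omega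
  · intro i
    fin_cases i <;> simp [w] <;> omega
  · exact not_mem_secantCone (w := w) eA eA eC eC _
      (ten_not_mem hp h1 h2 hodd hω I _ γ hγI hγy hγm hγ0 hind)
  · intro f hf hdeg
    rw [hT₁]
    refine line_vanish f d hdeg (fun x => ten p n r ω I y₀ (toTriple (w := w) eA eA eC x))
      (fun x => T₁ (toTriple (w := w) eA eA eC x)) Θ (by omega) (fun τ hτ => ?_) τ₀
    obtain ⟨m, l, l₀, hy⟩ := hmem τ hτ
    have h3 := rankLE_of_R3 (w := w) eA eA eC eC _
      (ten_mem (r := r) hω.pow_eq_one I (fun e => y₀ e + τ * y₁ e) m l l₀ hy)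
    rw [hT₁] at h3
    exact hf _ h3

theorem not_generated {σ : Type} (d : ℕ) (I : Ideal (MvPolynomial σ ℂ)) (T : σ → ℂ)
    (hT : T ∉ zeroLocus ℂ I) (h : ∀ f ∈ I, f.totalDegree ≤ d → aeval T f = 0) :
    ¬ GeneratedInDegreeLE d I := by
  rintro ⟨S, hS, rfl⟩
  apply hT
  rw [zeroLocus_span]
  intro f hf
  obtain ⟨e, he, hfe⟩ := hS f hf
  exact h f (Ideal.subset_span hf) (hfe.totalDegree_le.trans he)

end Pool.Agent.Lib.MP_595dc0_ag
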