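import Mathlib

namespace Pool.Agent.Lib.MP_595dc0_ag

open Polynomial

theorem exists_val_two : ∃ O : ValuationSubring ℂ, (2 : ℂ) ∈ O.nonunits := by
  let I : Ideal (⊥ : Subring ℂ) := Ideal.span {2}
  have hI : I ≠ ⊤ := by
    intro h
    have h1 : (1 : (⊥ : Subring ℂ)) ∈ I := by rw [h]; trivial
    rw [Ideal.mem_span_singleton'] at h1
    obtain ⟨⟨a, ha⟩, h2⟩ := h1
    rw [Subring.mem_bot] at ha
    obtain ⟨m, rfl⟩ := ha
    have h3 : (m : ℂ) * 2 = 1 := congrArg Subtype.val h2
    have h4 : m * 2 = 1 := by exact_mod_cast h3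
    omega
  obtain ⟨B, -, hB⟩ := Ideal.image_subset_nonunits_valuationSubring I hI
  exact ⟨B, hB ⟨2, Ideal.subset_span rfl, rfl⟩⟩

theorem exists_scale {K ι : Type*} [Field K] [Fintype ι] (O : ValuationSubring K) (τ : ι → K)
    (h : ∃ l, τ l ≠ 0) : ∃ l0, τ l0 ≠ 0 ∧ ∀ l, τ l / τ l0 ∈ O := by
  classical
  obtain ⟨l1, hl1⟩ := h
  obtain ⟨l0, -, hl0⟩ := Finset.exists_max_image Finset.univ (fun l => O.valuation (τ l))
    ⟨l1, Finset.mem_univ _⟩
  have h0 : τ l0 ≠ 0 := by
    intro h0
    have := hl0 l1 (Finset.mem_univ _)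
    rw [h0, map_zero, le_zero_iff] at this
    exact hl1 ((Valuation.zero_iff _).mp this)
  refine ⟨l0, h0, fun l => ?_⟩
  rw [← O.valuation_le_one_iff, map_div₀]
  exact div_le_one_of_le₀ (hl0 l (Finset.mem_univ _)) zero_le

theorem X_pow_sub_dvd {R : Type*} [CommRing R] (k a b : ℕ) (h : a ≡ b [MOD k]) :
    (X ^ k - 1 : R[X]) ∣ X ^ a - X ^ b := by
  wlog hab : b ≤ a generalizing a b
  · have := this b a h.symm (by omega)
    exact dvd_sub_comm.mp this
  obtain ⟨c, hc⟩ := (Nat.modEq_iff_dvd' hab).mp h.symm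
  have ha : a = b + k * c := by omega
  rw [ha, pow_add, pow_mul]
  have : (X ^ b * (X ^ k) ^ c - X ^ b : R[X]) = X ^ b * ((X ^ k) ^ c - 1 ^ c) := by ring
  rw [this]
  exact Dvd.dvd.mul_left (sub_dvd_pow_sub_pow _ _ _) _

/-- A 2-adic form of Chebotarev's theorem on minors of the Fourier matrix. -/
theorem universal {ι J : Type*} [Fintype ι] [Fintype J] (μ κ N o : ℕ) (hN : N ≤ 2 ^ κ)
    (hJ : N ≤ Fintype.card J) (pos e : ι → ℕ) (hpos : Function.Injective pos)
    (hlt : ∀ l, pos l < N) (he : ∀ l, e l ≡ o + pos l [MOD 2 ^ κ])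
    (η : J → ℂ) (hη : Function.Injective η) (hq : ∀ m, η m ^ (2 ^ μ) = 1)
    (τ : ι → ℂ) (hτ : ∀ m, ∑ l, τ l * η m ^ e l = 0) : τ = 0 := by
  classical
  by_contra hne
  have hex : ∃ l, τ l ≠ 0 := by
    by_contra hh
    push Not at hh
    exact hne (funext hh)
  obtain ⟨O, hO⟩ := exists_val_two
  obtain ⟨l0, hl0, hmem⟩ := exists_scale O τ hex
  have hηO : ∀ m, η m ∈ O := by
    intro m
    rcases O.mem_or_inv_mem (η m) with h | h
    · exact h
    · have h0 : η m ≠ 0 := by
        intro h0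
        have := hq m
        rw [h0, zero_pow (by positivity)] at this
        exact zero_ne_one this
      have h1 : η m = ((η m)⁻¹) ^ (2 ^ μ - 1) := by
        have h2 : η m ^ (2 ^ μ - 1) * η m = 1 := by
          rw [← pow_succ, Nat.sub_add_cancel Nat.one_le_two_pow]; exact hq m
        rw [inv_pow]
        exact (eq_inv_of_mul_eq_one_right h2)
      rw [h1]
      exact O.toSubring.pow_mem h _
  let t : ι → O := fun l => ⟨τ l / τ l0, hmem l⟩
  let y : J → O := fun m => ⟨η m, hηO m⟩
  let f : O[X] := ∑ l, C (t l) * X ^ e l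
  let P : O[X] := ∏ m, (X - C (y m))
  have hPm : P.Monic := monic_prod_of_monic _ _ fun m _ => monic_X_sub_C _
  have hdvd : P ∣ f := by
    rw [← map_dvd_map O.subtype (fun a b h => Subtype.ext h) hPm]
    have hP : P.map O.subtype = ∏ m, (X - C (η m)) := by
      simp only [P, Polynomial.map_prod, Polynomial.map_sub, map_X, map_C]
      rfl
    rw [hP]
    apply Finset.prod_dvd_of_coprime
    · intro a _ b _ hab
      exact pairwise_coprime_X_sub_C hη hab
    · intro m _
      rw [dvd_iff_isRoot, IsRoot.def]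
      simp only [f, Polynomial.map_sum, Polynomial.map_mul, map_C, Polynomial.map_pow, map_X,
        eval_finsetSum, eval_mul, eval_C, eval_pow, eval_X]
      have : ∑ l, O.subtype (t l) * η m ^ e l = (∑ l, τ l * η m ^ e l) / τ l0 := by
        rw [Finset.sum_div]
        refine Finset.sum_congr rfl fun l _ => ?_
        show τ l / τ l0 * η m ^ e l = _
        ring
      rw [this, hτ m, zero_div]
  let ρ : O →+* IsLocalRing.ResidueField O := IsLocalRing.residue O
  have h2 : (2 : IsLocalRing.ResidueField O) = 0 := by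
    have : ρ 2 = 0 := by
      rw [IsLocalRing.residue_eq_zero_iff, ← ValuationSubring.coe_mem_nonunits_iff]
      exact hO
    rwa [map_ofNat] at this
  have : CharP (IsLocalRing.ResidueField O) 2 :=
    CharTwo.of_one_ne_zero_of_two_eq_zero one_ne_zero h2
  have hy : ∀ m, ρ (y m) = 1 := by
    intro m
    have h1 : (ρ (y m)) ^ (2 ^ μ) = 1 := by
      rw [← map_pow]
      have : y m ^ (2 ^ μ) = 1 := Subtype.ext (by simpa [y] using hq m)
      rw [this, map_one]
    have h3 : (ρ (y m) - 1) ^ (2 ^ μ) = 0 := by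
      rw [sub_pow_char_pow, h1, one_pow, sub_self]
    exact sub_eq_zero.mp (pow_eq_zero_iff (by positivity) |>.mp h3)
  have hd1 : (X - C 1 : (IsLocalRing.ResidueField O)[X]) ^ N ∣ f.map ρ := by
    refine dvd_trans ?_ (Polynomial.map_dvd ρ hdvd)
    have : P.map ρ = (X - C 1) ^ Fintype.card J := by
      simp only [P, Polynomial.map_prod, Polynomial.map_sub, map_X, map_C, hy, Finset.prod_const,
        Finset.card_univ]
    rw [this]
    exact pow_dvd_pow _ hJ
  let g : (IsLocalRing.ResidueField O)[X] := ∑ l, C (ρ (t l)) * X ^ pos l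
  have hd2 : (X - C 1 : (IsLocalRing.ResidueField O)[X]) ^ N ∣ f.map ρ - X ^ o * g := by
    have h1 : (X - C 1 : (IsLocalRing.ResidueField O)[X]) ^ (2 ^ κ) = X ^ (2 ^ κ) - 1 := by
      rw [sub_pow_char_pow]; simp
    refine dvd_trans (pow_dvd_pow _ hN) ?_
    rw [h1]
    have : f.map ρ - X ^ o * g = ∑ l, C (ρ (t l)) * (X ^ e l - X ^ (o + pos l)) := by
      simp only [f, g, Polynomial.map_sum, Polynomial.map_mul, map_C, Polynomial.map_pow, map_X,
        Finset.mul_sum, ← Finset.sum_sub_distrib]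
      refine Finset.sum_congr rfl fun l _ => ?_
      ring
    rw [this]
    exact Finset.dvd_sum fun l _ => Dvd.dvd.mul_left (X_pow_sub_dvd _ _ _ (he l)) _
  have hd3 : (X - C 1 : (IsLocalRing.ResidueField O)[X]) ^ N ∣ X ^ o * g := by
    have := dvd_sub hd1 hd2
    simpa using this
  have hcop : IsCoprime ((X - C 1 : (IsLocalRing.ResidueField O)[X]) ^ N) (X ^ o) := by
    apply IsCoprime.pow
    have := isCoprime_X_sub_C_of_isUnit_sub (R := IsLocalRing.ResidueField O) (a := 1) (b := 0)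
      (by simp)
    simpa using this
  have hd4 := hcop.dvd_of_dvd_mul_left hd3
  have hdeg : g.degree < ((X - C 1 : (IsLocalRing.ResidueField O)[X]) ^ N).degree := by
    rw [degree_pow, degree_X_sub_C]
    refine lt_of_le_of_lt (degree_sum_le _ _) ?_
    rw [Finset.sup_lt_iff (by simp)]
    intro l _
    refine lt_of_le_of_lt (degree_C_mul_X_pow_le _ _) ?_
    simpa using hlt l
  have hg : g = 0 := eq_zero_of_dvd_of_degree_lt hd4 hdeg
  have hc : g.coeff (pos l0) = ρ (t l0) := by
    simp only [g, finsetSum_coeff, coeff_C_mul_X_pow]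
    rw [Finset.sum_eq_single l0]
    · simp
    · intro b _ hb
      rw [if_neg]
      exact fun h => hb (hpos h).symm
    · simp
  have ht : t l0 = 1 := Subtype.ext (by simp [t, hl0])
  rw [hg, ht, map_one] at hc
  simp at hc

end Pool.Agent.Lib.MP_595dc0_ag
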